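import Pool.Agent.P.MP_7ebcb6_ag.SC.St4

/-! A plane curve over the prime field that is irreducible and has a smooth rational point is
absolutely irreducible. -/

namespace Pool.Agent.P.MP_7ebcb6_ag.SC

open MvPolynomial

namespace ABS

theorem lin_coeff_mul {R σ : Type} [CommRing R] (i : σ) (P Q : MvPolynomial σ R) :
    coeff (Finsupp.single i 1) (P * Q) =
      coeff 0 P * coeff (Finsupp.single i 1) Q + coeff 0 Q * coeff (Finsupp.single i 1) P := by
  have h : ∀ S : MvPolynomial σ R,
      coeff (Finsupp.single i 1) S = constantCoeff (pderiv i S) := by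
    intro S
    rw [constantCoeff_eq, coeff_pderiv]
    simp
  rw [h, h, h, Derivation.leibniz, smul_eq_mul, smul_eq_mul, map_add, map_mul, map_mul,
    constantCoeff_eq]

variable {p : ℕ} [Fact p.Prime] {T : Type} [Field T] [Algebra (ZMod p) T] [CharP T p] {σ : Type}

/-- A polynomial fixed by the Frobenius map on coefficients is defined over the prime field. -/
theorem descend (A : MvPolynomial σ T) (h : map (frobenius T p) A = A) :
    ∃ A0 : MvPolynomial σ (ZMod p), map (algebraMap (ZMod p) T) A0 = A := by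
  have hc : ∀ m, ∃ c : ZMod p, algebraMap (ZMod p) T c = coeff m A := by
    intro m
    have h1 : coeff m A ^ p = coeff m A := by
      have h2 := congrArg (coeff m) h
      rwa [coeff_map, frobenius_def] at h2
    have h3 : coeff m A ∈ (algebraMap (ZMod p) T).fieldRange :=
      (bot_le : (⊥ : Subfield T) ≤ _) ((Subfield.mem_bot_iff_pow_eq_self T p).2 h1)
    exact h3
  choose c hc using hc
  refine ⟨∑ m ∈ A.support, monomial m (c m), ?_⟩
  conv_rhs => rw [A.as_sum]
  rw [map_sum]
  exact Finset.sum_congr rfl fun m _ => by rw [map_monomial, hc]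

theorem frob_map (φ : MvPolynomial σ (ZMod p)) :
    map (frobenius T p) (map (algebraMap (ZMod p) T) φ) = map (algebraMap (ZMod p) T) φ := by
  rw [map_map, RingHom.ext_zmod ((frobenius T p).comp (algebraMap (ZMod p) T))
    (algebraMap (ZMod p) T)]

end ABS

theorem thm_ABS : S_ABS := by
  intro p _ φ hφ h0 ⟨i, hi⟩
  set T := AlgebraicClosure (ZMod p)
  set Φ := map (algebraMap (ZMod p) T) φ with hΦ
  have hinj : Function.Injective (map (σ := Fin 2) (algebraMap (ZMod p) T)) :=
    map_injective _ (algebraMap (ZMod p) T).injective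
  have hΦ0 : Φ ≠ 0 := fun h => hφ.ne_zero (hinj (by rw [map_zero]; exact h))
  have hc0 : constantCoeff Φ = 0 := by
    rw [constantCoeff_eq, hΦ, coeff_map, h0, map_zero]
  have hci : coeff (Finsupp.single i 1) Φ ≠ 0 := by
    rw [hΦ, coeff_map]
    exact (map_ne_zero _).2 hi
  have hfix : map (frobenius T p) Φ = Φ := ABS.frob_map φ
  -- an irreducible factor through the origin
  obtain ⟨A, hA, hAΦ, hA0⟩ : ∃ A, Irreducible A ∧ A ∣ Φ ∧ constantCoeff A = 0 := by
    obtain ⟨f, hf, u, hu⟩ := WfDvdMonoid.exists_factors Φ hΦ0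
    have h1 : constantCoeff f.prod = 0 := by
      rw [← hu, map_mul] at hc0
      exact (mul_eq_zero.1 hc0).resolve_right (u.isUnit.map constantCoeff).ne_zero
    rw [map_multiset_prod, Multiset.prod_eq_zero_iff, Multiset.mem_map] at h1
    obtain ⟨A, hA, hA0⟩ := h1
    exact ⟨A, hf A hA, (Multiset.dvd_prod hA).trans ⟨u, hu.symm⟩, hA0⟩
  have hσA : Irreducible (map (frobenius T p) A) :=
    (MulEquiv.irreducible_iff (mapEquiv (Fin 2) (frobeniusEquiv T p))).2 hA
  have hσd : map (frobenius T p) A ∣ Φ := hfix ▸ map_dvd (map (frobenius T p)) hAΦ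
  have hσ0 : constantCoeff (map (frobenius T p) A) = 0 := by
    rw [constantCoeff_map, hA0, map_zero]
  obtain ⟨B, hB⟩ := hAΦ
  have hass : Associated A (map (frobenius T p) A) := by
    rcases hσA.prime.dvd_or_dvd (hB ▸ hσd) with h | ⟨D, hD⟩
    · exact (hσA.associated_of_dvd hA h).symm
    · exfalso
      apply hci
      have hB0 : constantCoeff B = 0 := by rw [hD, map_mul, hσ0, zero_mul]
      rw [constantCoeff_eq] at hA0 hB0
      rw [hB, ABS.lin_coeff_mul, hA0, hB0, zero_mul, zero_mul, add_zero]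
  obtain ⟨u, hu⟩ := hass
  obtain ⟨c, hc, huc⟩ := isUnit_iff_eq_C_of_isReduced.1 u.isUnit
  obtain ⟨m, hm⟩ := exists_coeff_ne_zero hA.ne_zero
  have hFa : frobenius T p (coeff m A) = coeff m A * c := by
    rw [← coeff_map, ← hu, huc, mul_comm A, coeff_C_mul, mul_comm]
  have hA' : map (frobenius T p) (C (coeff m A)⁻¹ * A) = C (coeff m A)⁻¹ * A := by
    rw [map_mul, map_C, map_inv₀, hFa, ← hu, huc, mul_comm A, ← mul_assoc, ← C_mul,
      mul_inv, mul_assoc, inv_mul_cancel₀ hc.ne_zero, mul_one]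
  have hΦ' : Φ = (C (coeff m A)⁻¹ * A) * (C (coeff m A) * B) := by
    rw [hB, mul_mul_mul_comm, ← C_mul, inv_mul_cancel₀ hm, C_1, one_mul]
  have hu' : IsUnit (C (coeff m A)⁻¹ : MvPolynomial (Fin 2) T) :=
    (IsUnit.mk0 _ (inv_ne_zero hm)).map C
  have hAi : Irreducible (C (coeff m A)⁻¹ * A) := (irreducible_isUnit_mul hu').2 hA
  have hB' : map (frobenius T p) (C (coeff m A) * B) = C (coeff m A) * B := by
    have h1 := hfix
    rw [hΦ', map_mul, hA'] at h1
    exact mul_left_cancel₀ hAi.ne_zero h1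
  obtain ⟨A0, hA0'⟩ := ABS.descend _ hA'
  obtain ⟨B0, hB0'⟩ := ABS.descend _ hB'
  have hφ' : φ = A0 * B0 := hinj (by rw [map_mul, hA0', hB0', ← hΦ'])
  rcases hφ.isUnit_or_isUnit hφ' with h | h
  · exact absurd (hA0' ▸ h.map (map (algebraMap (ZMod p) T))) hAi.not_isUnit
  · rw [hΦ']
    exact (irreducible_mul_isUnit (hB0' ▸ h.map (map (algebraMap (ZMod p) T)))).2 hAi

end Pool.Agent.P.MP_7ebcb6_ag.SC
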