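import Pool.Agent.P.MP_7ebcb6_ag.SC.Cr
import Pool.Agent.P.MP_7ebcb6_ag.SC.G0
import Pool.Agent.P.MP_7ebcb6_ag.SC.G1
import Pool.Agent.P.MP_7ebcb6_ag.SC.K0
import Pool.Agent.P.MP_7ebcb6_ag.SC.K1
import Pool.Agent.P.MP_7ebcb6_ag.SC.K2
import Pool.Agent.P.MP_7ebcb6_ag.SC.K3
import Pool.Agent.P.MP_7ebcb6_ag.SC.K4
import Pool.Agent.P.MP_7ebcb6_ag.SC.K5
import Pool.Agent.P.MP_7ebcb6_ag.SC.K6
import Pool.Agent.P.MP_7ebcb6_ag.SC.K7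
import Pool.Agent.P.MP_7ebcb6_ag.SC.W0
import Pool.Agent.P.MP_7ebcb6_ag.SC.W1
import Pool.Agent.P.MP_7ebcb6_ag.SC.W2
import Pool.Agent.P.MP_7ebcb6_ag.SC.W3
import Pool.Agent.P.MP_7ebcb6_ag.SC.W4
import Pool.Agent.P.MP_7ebcb6_ag.SC.W5
import Pool.Agent.P.MP_7ebcb6_ag.SC.W6

/-! The certificate. -/

namespace Pool.Agent.P.MP_7ebcb6_ag.SC

theorem cert : S_CERT2 cd := by
  refine cert_of glob good_S0 (fun n => ?_) (fun n => ?_) fun k d hk hd => ?_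
  · fin_cases n
    exacts [chk0, chk1, chk2, chk3, chk4, chk5, chk6, chk7]
  · fin_cases n
    exacts [cop0, cop1, cop2, cop3, cop4, cop5, cop6, cop7]
  · have h : k < 14 := by
      by_contra h
      rw [sz, if_neg (by omega), if_neg (by omega), if_neg (by omega), if_neg h] at hd
      omega
    have z := Nat.zero_le d
    rcases lt_or_ge d 75 with h1 | h1 <;> interval_cases k
    exacts [rc_ok rc2_0 z hd, rc_ok rc3_0 z hd, rc_ok rc4_0 z hd, rc_ok rc5_0 z hd,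
      rc_ok rc6_0 z h1, rc_ok rc7_0 z h1, rc_ok rc8_0 z h1, rc_ok rc9_0 z hd, rc_ok rc10_0 z hd,
      rc_ok rc11_0 z hd, rc_ok rc12_0 z hd, rc_ok rc13_0 z hd, rc_ok rc2_0 z hd, rc_ok rc3_0 z hd,
      rc_ok rc4_0 z hd, rc_ok rc5_0 z hd, rc_ok rc6_75 h1 hd, rc_ok rc7_75 h1 hd,
      rc_ok rc8_75 h1 hd, rc_ok rc9_0 z hd, rc_ok rc10_0 z hd, rc_ok rc11_0 z hd,
      rc_ok rc12_0 z hd, rc_ok rc13_0 z hd]

end Pool.Agent.P.MP_7ebcb6_ag.SC
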