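import Pool.Agent.P.MP_7ebcb6_ag.SC.St4

/-! The plane quintic of the table over the field with 101 elements is absolutely irreducible. -/

namespace Pool.Agent.P.MP_7ebcb6_ag.SC

open MvPolynomial

namespace EXT0

/-- A term. -/
def tm {R : Type} [CommRing R] (c a b : ℕ) (y z : R) : R := (c : R) * (y ^ a * z ^ b)

/-- The quintic with reduced coefficients. -/
def ph {R : Type} [CommRing R] (y z : R) : R :=
  tm 14 0 1 y z + tm 1 0 2 y z + tm 100 0 3 y z + tm 37 0 4 y z + tm 28 1 0 y z + tm 74 1 1 y z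
  + tm 43 1 2 y z + tm 89 1 3 y z + tm 87 1 4 y z + tm 75 2 0 y z + tm 42 2 1 y z + tm 42 2 2 y z
  + tm 79 2 3 y z + tm 13 3 0 y z + tm 43 3 1 y z + tm 83 3 2 y z + tm 49 4 0 y z + tm 43 4 1 y z

theorem quin_gen {R : Type} [CommRing R] (k : Fin 6 → R) (g : Fin 20 → R) (y z : R) :
    quin k g y z = 3 * (qQ k y z * qQ k y z) * (g 1 + g 2 * y + g 3 * z)
      - 3 * (qQ k y z * qL k y z) *
        (g 4 + 2 * g 5 * y + 2 * g 6 * z + g 7 * y ^ 2 + 2 * g 8 * y * z + g 9 * z ^ 2)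
      + qL k y z * qL k y z * (g 10 + 3 * g 11 * y + 3 * g 12 * z + 3 * g 13 * y ^ 2
        + 6 * g 14 * y * z + 3 * g 15 * z ^ 2 + g 16 * y ^ 3 + 3 * g 17 * y ^ 2 * z
        + 3 * g 18 * y * z ^ 2 + g 19 * z ^ 3) := by
  have e0 : (ee 0 : Fin 4 → R) 0 = 1 := Nat.cast_one
  have e1 : (ee 0 : Fin 4 → R) 1 = 0 := Nat.cast_zero
  have e2 : (ee 0 : Fin 4 → R) 2 = 0 := Nat.cast_zero
  have e3 : (ee 0 : Fin 4 → R) 3 = 0 := Nat.cast_zero
  have w0 : qw y z 0 = 0 := Nat.cast_zero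
  have w1 : qw y z 1 = 1 := Nat.cast_one
  have w2 : qw y z 2 = y := rfl
  have w3 : qw y z 3 = z := rfl
  simp only [quin, tri, e0, e1, e2, e3, w0, w1, w2, w3, Nat.cast_ofNat]
  ring

theorem quin_eq {R : Type} [CommRing R] (h : (101 : R) = 0) (y z : R) :
    quin (cst kv) (cst gv) y z = ph y z := by
  have k0 : (cst kv : Fin 6 → R) 0 = ((95 : ℕ) : R) := rfl
  have k1 : (cst kv : Fin 6 → R) 1 = ((76 : ℕ) : R) := rfl
  have k2 : (cst kv : Fin 6 → R) 2 = ((9 : ℕ) : R) := rfl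
  have k3 : (cst kv : Fin 6 → R) 3 = ((48 : ℕ) : R) := rfl
  have k4 : (cst kv : Fin 6 → R) 4 = ((70 : ℕ) : R) := rfl
  have k5 : (cst kv : Fin 6 → R) 5 = ((28 : ℕ) : R) := rfl
  have g1 : (cst gv : Fin 20 → R) 1 = ((15 : ℕ) : R) := rfl
  have g2 : (cst gv : Fin 20 → R) 2 = ((13 : ℕ) : R) := rfl
  have g3 : (cst gv : Fin 20 → R) 3 = ((78 : ℕ) : R) := rfl
  have g4 : (cst gv : Fin 20 → R) 4 = ((27 : ℕ) : R) := rfl
  have g5 : (cst gv : Fin 20 → R) 5 = ((13 : ℕ) : R) := rfl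
  have g6 : (cst gv : Fin 20 → R) 6 = ((74 : ℕ) : R) := rfl
  have g7 : (cst gv : Fin 20 → R) 7 = ((98 : ℕ) : R) := rfl
  have g8 : (cst gv : Fin 20 → R) 8 = ((100 : ℕ) : R) := rfl
  have g9 : (cst gv : Fin 20 → R) 9 = ((97 : ℕ) : R) := rfl
  have g10 : (cst gv : Fin 20 → R) 10 = ((0 : ℕ) : R) := rfl
  have g11 : (cst gv : Fin 20 → R) 11 = ((91 : ℕ) : R) := rfl
  have g12 : (cst gv : Fin 20 → R) 12 = ((91 : ℕ) : R) := rfl
  have g13 : (cst gv : Fin 20 → R) 13 = ((22 : ℕ) : R) := rfl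
  have g14 : (cst gv : Fin 20 → R) 14 = ((40 : ℕ) : R) := rfl
  have g15 : (cst gv : Fin 20 → R) 15 = ((53 : ℕ) : R) := rfl
  have g16 : (cst gv : Fin 20 → R) 16 = ((0 : ℕ) : R) := rfl
  have g17 : (cst gv : Fin 20 → R) 17 = ((28 : ℕ) : R) := rfl
  have g18 : (cst gv : Fin 20 → R) 18 = ((54 : ℕ) : R) := rfl
  have g19 : (cst gv : Fin 20 → R) 19 = ((0 : ℕ) : R) := rfl
  rw [quin_gen]
  simp only [qL, qQ, k0, k1, k2, k3, k4, k5, g1, g2, g3, g4, g5, g6, g7, g8, g9, g10, g11, g12,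
    g13, g14, g15, g16, g17, g18, g19, ph, tm, Nat.cast_ofNat, Nat.cast_zero, Nat.cast_one]
  linear_combination (
    19061 * y ^ 0 * z ^ 1 - 8726 * y ^ 0 * z ^ 2 - 7667 * y ^ 0 * z ^ 3 - 1688 * y ^ 0 * z ^ 4
    + 20737 * y ^ 1 * z ^ 0 + 36164 * y ^ 1 * z ^ 1 - 25916 * y ^ 1 * z ^ 2
    - 14917 * y ^ 1 * z ^ 3 - 597 * y ^ 1 * z ^ 4 + 39507 * y ^ 2 * z ^ 0 + 690 * y ^ 2 * z ^ 1
    - 26796 * y ^ 2 * z ^ 2 - 3551 * y ^ 2 * z ^ 3 + 9847 * y ^ 3 * z ^ 0 - 20135 * y ^ 3 * z ^ 1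
    - 2671 * y ^ 3 * z ^ 2 - 6845 * y ^ 4 * z ^ 0 - 1391 * y ^ 4 * z ^ 1) * h

theorem map_ph {R S F : Type} [CommRing R] [CommRing S] [FunLike F R S] [RingHomClass F R S]
    (f : F) (y z : R) : f (ph y z) = ph (f y) (f z) := by
  simp only [ph, tm, map_add, map_mul, map_pow, map_natCast]

/-- The restriction to the line `z = y + 4`. -/
theorem ph_line {R : Type} [CommRing R] (h : (101 : R) = 0) (x : R) :
    ph x (x + 4) = 87 + 46 * x + 13 * x ^ 2 + 82 * x ^ 3 + 2 * x ^ 4 + 90 * x ^ 5 := by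
  simp only [ph, tm, Nat.cast_ofNat, Nat.cast_one]
  linear_combination (157 + 428 * x + 373 * x ^ 2 + 156 * x ^ 3 + 34 * x ^ 4 + 2 * x ^ 5) * h

theorem deg_tm {R : Type} [CommRing R] (c a b : ℕ) (h : a + b ≤ 5) :
    (tm c a b (X 0) (X 1) : MvPolynomial (Fin 2) R).totalDegree ≤ 5 := by
  unfold tm
  rw [← map_natCast (C : R →+* MvPolynomial (Fin 2) R)]
  refine (totalDegree_mul _ _).trans ?_
  rw [totalDegree_C, zero_add]
  refine (totalDegree_mul _ _).trans ?_
  have h1 : ∀ (i : Fin 2) (n : ℕ), (X i ^ n : MvPolynomial (Fin 2) R).totalDegree ≤ n := by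
    intro i n
    rw [X_pow_eq_monomial]
    exact (totalDegree_monomial_le _ _).trans (by simp)
  exact (add_le_add (h1 0 a) (h1 1 b)).trans h

theorem deg_add {R : Type} [CommRing R] {p q : MvPolynomial (Fin 2) R} (hp : p.totalDegree ≤ 5)
    (hq : q.totalDegree ≤ 5) : (p + q).totalDegree ≤ 5 :=
  (totalDegree_add _ _).trans (max_le hp hq)

theorem deg_ph {R : Type} [CommRing R] :
    (ph (X 0) (X 1) : MvPolynomial (Fin 2) R).totalDegree ≤ 5 := by
  unfold ph
  iterate 17 refine deg_add ?_ (deg_tm _ _ _ (by norm_num))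
  exact deg_tm _ _ _ (by norm_num)

/-- The restriction as a polynomial in one variable. -/
noncomputable def f5 : Polynomial (ZMod 101) :=
  87 + 46 * Polynomial.X + 13 * Polynomial.X ^ 2 + 82 * Polynomial.X ^ 3 + 2 * Polynomial.X ^ 4
    + 90 * Polynomial.X ^ 5

theorem f5_deg : f5.natDegree = 5 := by
  unfold f5
  compute_degree!

theorem no_root : ∀ a : ZMod 101,
    87 + 46 * a + 13 * a ^ 2 + 82 * a ^ 3 + 2 * a ^ 4 + 90 * a ^ 5 ≠ 0 := by
  decide +kernel

/-- The coefficients of the quotient and the remainder for the division by `X ^ 2 + a X + b`. -/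
def s2 {R : Type} [CommRing R] (a : R) : R := 2 - 90 * a
def s1 {R : Type} [CommRing R] (a b : R) : R := 82 - a * s2 a - 90 * b
def s0 {R : Type} [CommRing R] (a b : R) : R := 13 - a * s1 a b - b * s2 a
def r1 {R : Type} [CommRing R] (a b : R) : R := 46 - a * s0 a b - b * s1 a b
def r0 {R : Type} [CommRing R] (a b : R) : R := 87 - b * s0 a b

theorem no_quad : ∀ a b : ZMod 101, r1 a b ≠ 0 ∨ r0 a b ≠ 0 := by
  decide +kernel

open Polynomial in
theorem f5_irr : Irreducible f5 := by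
  have h0 : f5 ≠ 0 := fun h => by
    have h1 := f5_deg
    rw [h, natDegree_zero] at h1
    omega
  have hu : ¬ IsUnit f5 := fun h => by
    have h1 := natDegree_eq_zero_of_isUnit h
    rw [f5_deg] at h1
    omega
  rw [irreducible_iff_lt_natDegree_lt h0 hu, f5_deg]
  intro q hq hd hdvd
  have hd' : q.natDegree = 1 ∨ q.natDegree = 2 := by
    rw [Finset.mem_Ioc] at hd
    omega
  rcases hd' with h1 | h2
  · have hq1 := hq.eq_X_add_C h1
    have h3 : Polynomial.eval (-(q.coeff 0)) f5 = 0 :=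
      eval_eq_zero_of_dvd_of_eval_eq_zero hdvd (by rw [hq1]; simp)
    refine no_root (-(q.coeff 0)) ?_
    rw [← h3]
    simp [f5]
  · set a := q.coeff 1
    set b := q.coeff 0
    have hq2 : q = Polynomial.X ^ 2 + Polynomial.C a * Polynomial.X + Polynomial.C b := by
      have h3 := hq.as_sum
      rw [h2] at h3
      rw [h3]
      simp only [Finset.sum_range_succ, Finset.range_zero, Finset.sum_empty, pow_zero, pow_one]
      ring
    have hid : f5 = q * (90 * Polynomial.X ^ 3 + Polynomial.C (s2 a) * Polynomial.X ^ 2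
        + Polynomial.C (s1 a b) * Polynomial.X + Polynomial.C (s0 a b))
        + (Polynomial.C (r1 a b) * Polynomial.X + Polynomial.C (r0 a b)) := by
      rw [hq2]
      simp only [f5, s2, s1, s0, r1, r0, map_sub, map_mul, map_ofNat]
      ring
    have hr : q ∣ Polynomial.C (r1 a b) * Polynomial.X + Polynomial.C (r0 a b) := by
      rw [hid] at hdvd
      exact (dvd_add_right (dvd_mul_right _ _)).1 hdvd
    have hz : Polynomial.C (r1 a b) * Polynomial.X + Polynomial.C (r0 a b) = 0 :=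
      eq_zero_of_dvd_of_natDegree_lt hr (natDegree_linear_le.trans_lt (by omega))
    have c1 := congrArg (fun p => Polynomial.coeff p 1) hz
    have c0 := congrArg (fun p => Polynomial.coeff p 0) hz
    simp at c1 c0
    rcases no_quad a b with h | h
    · exact h c1
    · exact h c0

/-- The restriction map. -/
noncomputable def rs : MvPolynomial (Fin 2) (ZMod 101) →ₐ[ZMod 101] Polynomial (ZMod 101) :=
  aeval ![Polynomial.X, Polynomial.X + 4]

theorem rs_deg (p : MvPolynomial (Fin 2) (ZMod 101)) : (rs p).natDegree ≤ p.totalDegree := by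
  have h := aeval_natDegree_le (n := 1) p le_rfl ![Polynomial.X, Polynomial.X + 4] (by
    intro i
    fin_cases i
    · exact Polynomial.natDegree_X_le
    · change (Polynomial.X + 4 : Polynomial (ZMod 101)).natDegree ≤ 1
      compute_degree)
  rwa [mul_one] at h

theorem rs_ph : rs (ph (X 0) (X 1)) = f5 := by
  have h : (101 : Polynomial (ZMod 101)) = 0 := by
    have h1 := CharP.cast_eq_zero (Polynomial (ZMod 101)) 101
    rwa [Nat.cast_ofNat] at h1
  rw [map_ph]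
  have h0 : rs (X 0) = Polynomial.X := by simp [rs]
  have h1 : rs (X 1) = Polynomial.X + 4 := by simp [rs]
  rw [h0, h1, ph_line h]
  rfl

theorem ph_deg : (ph (X 0) (X 1) : MvPolynomial (Fin 2) (ZMod 101)).totalDegree = 5 :=
  le_antisymm deg_ph (by
    have h := rs_deg (ph (X 0) (X 1))
    rwa [rs_ph, f5_deg] at h)

theorem unit_of {A B : MvPolynomial (Fin 2) (ZMod 101)} (h : ph (X 0) (X 1) = A * B)
    (hA : IsUnit (rs A)) : IsUnit A := by
  have hf : f5 = rs A * rs B := by rw [← map_mul, ← h, rs_ph]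
  have h0 : rs A * rs B ≠ 0 := hf ▸ f5_irr.ne_zero
  have hA0 : A ≠ 0 := fun h' => h0 (by rw [h', map_zero, zero_mul])
  have hB0 : B ≠ 0 := fun h' => h0 (by rw [h', map_zero, mul_zero])
  have h1 := Polynomial.natDegree_mul (left_ne_zero_of_mul h0) (right_ne_zero_of_mul h0)
  rw [← hf, f5_deg, Polynomial.natDegree_eq_zero_of_isUnit hA] at h1
  have h2 := totalDegree_mul_of_isDomain hA0 hB0
  rw [← h, ph_deg] at h2
  have h3 := rs_deg B
  have h4 : A.totalDegree = 0 := by omega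
  rw [totalDegree_eq_zero_iff_eq_C] at h4
  have h5 : coeff 0 A ≠ 0 := fun h' => hA0 (by rw [h4, h', map_zero])
  rw [h4]
  exact (IsUnit.mk0 _ h5).map C

theorem ph_irr : Irreducible (ph (X 0) (X 1) : MvPolynomial (Fin 2) (ZMod 101)) := by
  refine ⟨fun h => f5_irr.not_isUnit (rs_ph ▸ h.map rs), fun A B h => ?_⟩
  have hf : f5 = rs A * rs B := by rw [← map_mul, ← h, rs_ph]
  rcases f5_irr.isUnit_or_isUnit hf with h1 | h1
  · exact Or.inl (unit_of h h1)
  · exact Or.inr (unit_of (h.trans (mul_comm _ _)) h1)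

theorem ph_c0 : coeff 0 (ph (X 0) (X 1) : MvPolynomial (Fin 2) (ZMod 101)) = 0 := by
  rw [← constantCoeff_eq, map_ph, constantCoeff_X, constantCoeff_X]
  simp [ph, tm]

theorem ph_c1 :
    coeff (Finsupp.single 0 1) (ph (X 0) (X 1) : MvPolynomial (Fin 2) (ZMod 101)) ≠ 0 := by
  have h : ∀ S : MvPolynomial (Fin 2) (ZMod 101),
      coeff (Finsupp.single 0 1) S = constantCoeff (pderiv 0 S) := by
    intro S
    rw [constantCoeff_eq, coeff_pderiv]
    simp
  have h2 : ∀ c a b : ℕ, constantCoeff (pderiv 0 (tm c a b (X 0) (X 1) :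
      MvPolynomial (Fin 2) (ZMod 101))) = (c : ZMod 101) * (a * 0 ^ (a - 1) * 0 ^ b) := by
    intro c a b
    unfold tm
    rw [← map_natCast (C : ZMod 101 →+* MvPolynomial (Fin 2) (ZMod 101)), pderiv_C_mul,
      Derivation.leibniz, Derivation.leibniz_pow, Derivation.leibniz_pow, pderiv_X_self,
      pderiv_X_of_ne (by decide)]
    simp [mul_comm]
  rw [h]
  simp only [ph, map_add, h2]
  decide

end EXT0

theorem thm_EXT0 (hABS : S_ABS) : S_EXT0 := by
  intro T hT
  have h101 : (101 : MvPolynomial (Fin 2) T101) = 0 := by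
    have h1 := CharP.cast_eq_zero (MvPolynomial (Fin 2) T101) 101
    rwa [Nat.cast_ofNat] at h1
  have hq : quinP T = map (algebraMap (ZMod 101) T101) (EXT0.ph (X 0) (X 1)) := by
    rw [EXT0.map_ph, map_X, map_X, ← EXT0.quin_eq h101, quinP, hT.k, hT.g]
    have e1 : (fun i => C ((cst kv : Fin 6 → T101) i)) =
        (cst kv : Fin 6 → MvPolynomial (Fin 2) T101) := funext fun i => map_natCast _ _
    have e2 : (fun i => C ((cst gv : Fin 20 → T101) i)) =
        (cst gv : Fin 20 → MvPolynomial (Fin 2) T101) := funext fun i => map_natCast _ _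
    rw [e1, e2]
  have hne : ∀ n : ℕ, (n : ZMod 101) ≠ 0 → (n : T101) ≠ 0 := fun n hn => by
    rw [← map_natCast (algebraMap (ZMod 101) T101)]
    exact (map_ne_zero _).2 hn
  refine ⟨?_, ?_, ?_, ?_⟩
  · rw [hq]
    exact hABS 101 _ EXT0.ph_irr EXT0.ph_c0 ⟨0, EXT0.ph_c1⟩
  · rw [hq, ← EXT0.ph_deg, totalDegree, totalDegree,
      support_map_of_injective _ (algebraMap (ZMod 101) T101).injective]
  · rw [hT.b]
    exact hne 100 (by decide)
  · rw [hT.k, hT.y]
    have h := hne (95 * 39 + 76 * 34 + 9 * 91) (by decide)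
    rw [Nat.cast_add, Nat.cast_add, Nat.cast_mul, Nat.cast_mul, Nat.cast_mul] at h
    exact h

end Pool.Agent.P.MP_7ebcb6_ag.SC
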