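import Pool.Agent.P.MP_7ebcb6_ag.SC.St4
import Pool.Agent.P.MP_7ebcb6_ag.G8.Chow

/-! The properties `Ext` go up along a place. -/

namespace Pool.Agent.P.MP_7ebcb6_ag.SC

open G8 MvPolynomial

namespace EXTU

lemma hom_quin {R S : Type} [Add R] [Sub R] [Mul R] [NatCast R] [Add S] [Sub S] [Mul S]
    [NatCast S] {f : R → S} (h : Hom f) (k : Fin 6 → R) (g : Fin 20 → R) (y z : R) :
    f (quin k g y z) = quin (fun i => f (k i)) (fun i => f (g i)) (f y) (f z) := by
  simp only [quin, qL, qQ, qw, h.add, h.sub, h.mul, h.nat, h.tri, h.ee, app_v4 f]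

section deg

variable {K : Type} [Field K] {p q : MvPolynomial (Fin 2) K} {m n : ℕ}

lemma dadd (hp : p.totalDegree ≤ n) (hq : q.totalDegree ≤ n) : (p + q).totalDegree ≤ n :=
  (totalDegree_add p q).trans (max_le hp hq)

lemma dsub (hp : p.totalDegree ≤ n) (hq : q.totalDegree ≤ n) : (p - q).totalDegree ≤ n :=
  (totalDegree_sub p q).trans (max_le hp hq)

lemma dmul (hp : p.totalDegree ≤ m) (hq : q.totalDegree ≤ n) : (p * q).totalDegree ≤ m + n :=
  (totalDegree_mul p q).trans (add_le_add hp hq)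

lemma dnat (a : ℕ) : ((a : ℕ) : MvPolynomial (Fin 2) K).totalDegree ≤ 0 := by
  rw [← map_natCast (C : K →+* MvPolynomial (Fin 2) K), totalDegree_C]

lemma dX (i : Fin 2) : (X i : MvPolynomial (Fin 2) K).totalDegree ≤ 1 := (totalDegree_X i).le

lemma dC (a : K) : (C a : MvPolynomial (Fin 2) K).totalDegree ≤ 0 := (totalDegree_C a).le

lemma dtri (g : Fin 20 → K) {a b c : Fin 4 → MvPolynomial (Fin 2) K} {α β γ : ℕ}
    (ha : ∀ i, (a i).totalDegree ≤ α) (hb : ∀ i, (b i).totalDegree ≤ β)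
    (hc : ∀ i, (c i).totalDegree ≤ γ) :
    (tri (fun i => C (g i)) a b c).totalDegree ≤ α + (β + γ) := by
  have h1 : ∀ i j, (C (g i) * a j).totalDegree ≤ α := fun i j => by
    simpa using dmul (dC (g i)) (ha j)
  have h2 : ∀ i j, (b i * c j).totalDegree ≤ β + γ := fun i j => dmul (hb i) (hc j)
  have h3 : ∀ i j k l, (C (g i) * a 0 + C (g j) * a 1 + C (g k) * a 2
      + C (g l) * a 3).totalDegree ≤ α := fun i j k l =>
    dadd (dadd (dadd (h1 _ _) (h1 _ _)) (h1 _ _)) (h1 _ _)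
  have h4 : ∀ i j, (b i * c j + b j * c i).totalDegree ≤ β + γ := fun i j =>
    dadd (h2 i j) (h2 j i)
  exact dadd (dadd (dadd (dadd (dadd (dadd (dadd (dadd (dadd (dmul (h3 0 1 2 3) (h2 0 0))
    (dmul (h3 1 4 5 6) (h4 0 1))) (dmul (h3 2 5 7 8) (h4 0 2))) (dmul (h3 3 6 8 9) (h4 0 3)))
    (dmul (h3 4 10 11 12) (h2 1 1))) (dmul (h3 5 11 13 14) (h4 1 2)))
    (dmul (h3 6 12 14 15) (h4 1 3))) (dmul (h3 7 13 16 17) (h2 2 2)))
    (dmul (h3 8 14 17 18) (h4 2 3))) (dmul (h3 9 15 18 19) (h2 3 3))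

lemma deg_quin (k : Fin 6 → K) (g : Fin 20 → K) :
    (quin (fun i => C (k i)) (fun i => C (g i)) (X 0) (X 1) :
      MvPolynomial (Fin 2) K).totalDegree ≤ 5 := by
  have hL : (qL (fun i => C (k i)) (X 0) (X 1) : MvPolynomial (Fin 2) K).totalDegree ≤ 1 :=
    dadd (dadd ((dC _).trans zero_le_one) (dmul (dC _) (dX _))) (dmul (dC _) (dX _))
  have hQ : (qQ (fun i => C (k i)) (X 0) (X 1) : MvPolynomial (Fin 2) K).totalDegree ≤ 2 :=
    dadd (dadd ((dmul (dC _) (dX _)).trans (by norm_num)) ((dmul (dC _) (dX _)).trans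
      (by norm_num))) (dmul (dC _) (dmul (dX _) (dX _)))
  have he : ∀ i, (ee 0 i : MvPolynomial (Fin 2) K).totalDegree ≤ 0 := fun i => by
    unfold ee
    cases Nat.beq i.val (0 : Fin 4).val
    exacts [dnat _, dnat _]
  have hw : ∀ i, (qw (X 0) (X 1) i : MvPolynomial (Fin 2) K).totalDegree ≤ 1 := fun i => by
    fin_cases i
    exacts [(dnat 0).trans zero_le_one, (dnat 1).trans zero_le_one, dX 0, dX 1]
  exact dadd (dsub (dmul (dmul (dnat 3) (dmul hQ hQ)) (dtri g he he hw))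
    (dmul (dmul (dnat 3) (dmul hQ hL)) (dtri g he hw hw))) (dmul (dmul hL hL) (dtri g hw hw hw))

end deg

variable {K L : Type} [Field K] [Field L] {pl : Plc K L}

lemma pto_quin {k : Fin 6 → K} {k' : Fin 6 → L} (hk : MV pl.G k k') {g : Fin 20 → K}
    {g' : Fin 20 → L} (hg : MV pl.G g g') :
    pl.PTo (quin (fun i => C (k i)) (fun i => C (g i)) (X 0) (X 1) : MvPolynomial (Fin 2) K)
      (quin (fun i => C (k' i)) (fun i => C (g' i)) (X 0) (X 1)) := by
  intro m
  let p : MvPolynomial (Fin 2) pl.G :=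
    quin (fun i => C (hk.el i)) (fun i => C (hg.el i)) (X 0) (X 1)
  have h1 : map (gfst pl.G) p = quin (fun i => C (k i)) (fun i => C (g i)) (X 0) (X 1) := by
    rw [hom_quin (hom_ringHom (map (gfst pl.G)))]
    simp only [map_C, map_X]
    rfl
  have h2 : map (gsnd pl.G) p = quin (fun i => C (k' i)) (fun i => C (g' i)) (X 0) (X 1) := by
    rw [hom_quin (hom_ringHom (map (gsnd pl.G)))]
    simp only [map_C, map_X]
    rfl
  exact mem_of_el (coeff m p) (by rw [← h1, coeff_map]) (by rw [← h2, coeff_map])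

lemma deg_le {p : MvPolynomial (Fin 2) K} {q : MvPolynomial (Fin 2) L} (h : pl.PTo p q) :
    q.totalDegree ≤ p.totalDegree :=
  Finset.sup_mono (f := fun s : Fin 2 →₀ ℕ => s.sum fun _ e => e) fun m hm =>
    mem_support_iff.mpr (Plc.ne_zero (h m) (mem_support_iff.mp hm))

/-- The reduction of a product is a constant times the product of the reductions. -/
lemma red_mul {a : K} {p : MvPolynomial (Fin 2) K} {q B : MvPolynomial (Fin 2) L}
    (h : pl.PTo p q) (hq : q ≠ 0) (hB : pl.PTo (C a * p) B) (hB0 : B ≠ 0) :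
    ∃ d : L, d ≠ 0 ∧ B = C d * q := by
  have ha : a ≠ 0 := by
    rintro rfl
    rw [C_0, zero_mul] at hB
    exact hB0 (hB.uniq Plc.PTo.zero)
  rcases pl.val a with ⟨d, hd⟩ | ⟨d, hd⟩
  · have h3 := hB.uniq ((Plc.PTo.const hd).mul h)
    exact ⟨d, by rintro rfl; exact hB0 (by rw [h3, C_0, zero_mul]), h3⟩
  · have h2 := (Plc.PTo.const hd).mul hB
    rw [← mul_assoc, ← C_mul, inv_mul_cancel₀ ha, C_1, one_mul] at h2
    have h3 := h.uniq h2
    have hd0 : d ≠ 0 := by
      rintro rfl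
      exact hq (by rw [h3, C_0, zero_mul])
    exact ⟨d⁻¹, inv_ne_zero hd0,
      by rw [h3, ← mul_assoc, ← C_mul, inv_mul_cancel₀ hd0, C_1, one_mul]⟩

lemma unit_of_deg {A : MvPolynomial (Fin 2) K} (h0 : A ≠ 0) (h : A.totalDegree = 0) :
    IsUnit A := by
  rw [totalDegree_eq_zero_iff_eq_C] at h
  rw [h] at h0 ⊢
  exact (isUnit_iff_ne_zero.mpr fun e => h0 (by rw [e, C_0])).map C

lemma deg_of_unit {A : MvPolynomial (Fin 2) K} (h : IsUnit A) : A.totalDegree = 0 := by
  obtain ⟨r, -, rfl⟩ := isUnit_iff_eq_C_of_isReduced.mp h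
  exact totalDegree_C r

lemma deg_C_mul {a : K} (ha : a ≠ 0) {A : MvPolynomial (Fin 2) K} (h0 : A ≠ 0) :
    (C a * A).totalDegree = A.totalDegree := by
  rw [totalDegree_mul_of_isDomain (by simpa using ha) h0, totalDegree_C, zero_add]

lemma irr_up {p : MvPolynomial (Fin 2) K} {q : MvPolynomial (Fin 2) L} (h : pl.PTo p q)
    (hq : Irreducible q) (hd : p.totalDegree = q.totalDegree) : Irreducible p := by
  have hp0 : p ≠ 0 := by
    rintro rfl
    exact hq.ne_zero (h.uniq Plc.PTo.zero)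
  refine ⟨fun hu => hq.not_isUnit (unit_of_deg hq.ne_zero (hd ▸ deg_of_unit hu)),
    fun A B hAB => ?_⟩
  have hA0 : A ≠ 0 := by
    rintro rfl
    exact hp0 (by rw [hAB, zero_mul])
  have hB0 : B ≠ 0 := by
    rintro rfl
    exact hp0 (by rw [hAB, mul_zero])
  obtain ⟨a, A1, A', hA, hA1, hA'⟩ := pl.exists_content A
  obtain ⟨b, B1, B', hB, hB1, hB'⟩ := pl.exists_content B
  have e : p = C (a * b) * (A1 * B1) := by rw [hAB, hA, hB, C_mul]; ring
  obtain ⟨d, hd0, hqd⟩ := red_mul (hA1.mul hB1) (mul_ne_zero hA' hB') (e ▸ h) hq.ne_zero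
  have dA : A'.totalDegree ≤ A.totalDegree := by
    rw [hA, deg_C_mul (fun e => hA0 (by rw [hA, e, C_0, zero_mul]))
      (fun e => hA0 (by rw [hA, e, mul_zero]))]
    exact deg_le hA1
  have dB : B'.totalDegree ≤ B.totalDegree := by
    rw [hB, deg_C_mul (fun e => hB0 (by rw [hB, e, C_0, zero_mul]))
      (fun e => hB0 (by rw [hB, e, mul_zero]))]
    exact deg_le hB1
  have d1 : p.totalDegree = A.totalDegree + B.totalDegree := by
    rw [hAB, totalDegree_mul_of_isDomain hA0 hB0]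
  have d2 : q.totalDegree = A'.totalDegree + B'.totalDegree := by
    rw [hqd, deg_C_mul hd0 (mul_ne_zero hA' hB'), totalDegree_mul_of_isDomain hA' hB']
  rcases hq.isUnit_or_isUnit (hqd.trans (mul_assoc _ _ _).symm) with hu | hu
  · have := deg_of_unit hu
    rw [deg_C_mul hd0 hA'] at this
    exact Or.inl (unit_of_deg hA0 (by omega))
  · have := deg_of_unit hu
    exact Or.inr (unit_of_deg hB0 (by omega))

end EXTU

open EXTU in
theorem thm_EXTU : S_EXTU := by
  intro K L _ _ pl T T' hT hE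
  have hU : MV pl.G (af (tu T)) (af (tu T')) := mem_af (hT 861)
  have hk := mem_ks (pm_of hT) hU
  have hP : pl.PTo (quinP T) (quinP T') := pto_quin hk (mem_G (pm_of hT) hU)
  have hd : (quinP T).totalDegree = 5 := le_antisymm (deg_quin _ _) (hE.deg ▸ deg_le hP)
  exact ⟨irr_up hP hE.irr (hd.trans hE.deg.symm), hd, Plc.ne_zero (mem_B (pm_of hT) hU) hE.hB,
    Plc.ne_zero (mem_add (mem_add (mem_mul (hk 0) (hT 862)) (mem_mul (hk 1) (hT 863)))
      (mem_mul (hk 2) (hT 864))) hE.hL⟩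

end Pool.Agent.P.MP_7ebcb6_ag.SC
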