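import Pool.Agent.P.MP_7ebcb6_ag.SC.EXTU

/-! The prime factor of the equation of the projected surface. -/

namespace Pool.Agent.P.MP_7ebcb6_ag.SC

open G8 MvPolynomial

namespace FAC

/-- The first variable as a coefficient. -/
noncomputable def ps : MvPolynomial (Fin 3) ℂ →+* MvPolynomial (Fin 2) (Polynomial ℂ) :=
  eval₂Hom (C.comp Polynomial.C) ![C Polynomial.X, X 0, X 1]

/-- The way back. -/
noncomputable def th : MvPolynomial (Fin 2) (Polynomial ℂ) →+* MvPolynomial (Fin 3) ℂ :=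
  eval₂Hom (Polynomial.aeval (X 0 : MvPolynomial (Fin 3) ℂ)).toRingHom ![X 1, X 2]

/-- The specialisation of the first variable. -/
noncomputable def sp (a : ℂ) : MvPolynomial (Fin 3) ℂ →+* MvPolynomial (Fin 2) ℂ :=
  (map (Polynomial.evalRingHom a)).comp ps

lemma ps_C (x : ℂ) : ps (C x) = C (Polynomial.C x) := by simp [ps]
lemma ps_0 : ps (X 0) = C Polynomial.X := by simp [ps]
lemma ps_1 : ps (X 1) = X 0 := by simp [ps]
lemma ps_2 : ps (X 2) = X 1 := by simp [ps]

lemma th_C (c : Polynomial ℂ) : th (C c) = Polynomial.aeval (X 0) c := by simp [th]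

lemma th_ps (p : MvPolynomial (Fin 3) ℂ) : th (ps p) = p := by
  have : th.comp ps = RingHom.id _ := by
    apply MvPolynomial.ringHom_ext
    · intro x
      simp [ps_C, th_C, algebraMap_eq]
    · intro i
      fin_cases i
      · simp [ps_0, th_C]
      · simp [ps_1, th]
      · simp [ps_2, th]
  exact DFunLike.congr_fun this p

lemma ps_quin3 (T : ℕ → ℂ) : ps (quin3 T) =
    quin (fun i => C ((Pen.of fun i => Polynomial.C (T i)).ks (af Polynomial.X) i))
      (fun i => C ((Pen.of fun i => Polynomial.C (T i)).G (af Polynomial.X) i)) (X 0) (X 1) := by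
  have h := hom_ringHom ps
  have h' := hom_ringHom (C : Polynomial ℂ →+* MvPolynomial (Fin 2) (Polynomial ℂ))
  unfold quin3
  rw [EXTU.hom_quin h]
  simp only [h.ks, h.G, h.af, h'.ks, h'.G, h'.af, Pen.map_of, ps_C, ps_0, ps_1, ps_2]

lemma sp_quin3 (T : ℕ → ℂ) : sp (tu T) (quin3 T) = quinP T := by
  have h := hom_ringHom (Polynomial.evalRingHom (tu T))
  change map _ (ps (quin3 T)) = _
  rw [ps_quin3, EXTU.hom_quin (hom_ringHom (map (Polynomial.evalRingHom (tu T))))]
  simp only [map_C, map_X, h.ks, h.G, h.af, Pen.map_of, Polynomial.coe_evalRingHom,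
    Polynomial.eval_C, Polynomial.eval_X, quinP]

lemma deg_ps (T : ℕ → ℂ) : (ps (quin3 T)).totalDegree ≤ 5 := by
  let f : Polynomial ℂ →+* FractionRing (Polynomial ℂ) := algebraMap _ _
  have hf : Function.Injective f := IsFractionRing.injective _ _
  have e : (map f (ps (quin3 T))).totalDegree = (ps (quin3 T)).totalDegree := by
    unfold totalDegree
    rw [support_map_of_injective _ hf]
  rw [← e, ps_quin3, EXTU.hom_quin (hom_ringHom (map f))]
  simp only [map_C, map_X]
  exact EXTU.deg_quin _ _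

lemma deg_sp (a : ℂ) (p : MvPolynomial (Fin 3) ℂ) : (sp a p).totalDegree ≤ (ps p).totalDegree :=
  Finset.sup_mono (f := fun s : Fin 2 →₀ ℕ => s.sum fun _ e => e) (support_map_subset _ _)

lemma exists_prime {A B : Type} [CommRing A] [IsDomain A] [UniqueFactorizationMonoid A]
    [CommRing B] (m : A →+* B) (F : A) :
    F ≠ 0 → ¬ IsUnit (m F) → ∃ φ, Prime φ ∧ φ ∣ F ∧ ¬ IsUnit (m φ) := by
  induction F using UniqueFactorizationMonoid.induction_on_prime with
  | h₁ => exact fun h => absurd rfl h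
  | h₂ x hx => exact fun _ h => absurd (hx.map m) h
  | h₃ a p ha hp ih =>
    intro _ h
    by_cases hu : IsUnit (m p)
    · obtain ⟨φ, h1, h2, h3⟩ := ih ha fun e => h (by rw [map_mul]; exact hu.mul e)
      exact ⟨φ, h1, h2.mul_left p, h3⟩
    · exact ⟨p, hp, dvd_mul_right p a, hu⟩

/-- An irreducible polynomial in one of the variables has degree at most one. -/
lemma deg_one (q : Polynomial ℂ)
    (h : Irreducible (Polynomial.aeval (X 0 : MvPolynomial (Fin 2) ℂ) q)) :
    (Polynomial.aeval (X 0 : MvPolynomial (Fin 2) ℂ) q).totalDegree ≤ 1 := by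
  by_cases hd : q.degree = 0
  · rw [Polynomial.eq_C_of_degree_eq_zero hd, Polynomial.aeval_C, algebraMap_eq, totalDegree_C]
    exact zero_le_one
  · obtain ⟨r, hr⟩ := IsAlgClosed.exists_root q hd
    have e : Polynomial.aeval (X 0 : MvPolynomial (Fin 2) ℂ) q =
        (X 0 - C r) * Polynomial.aeval (X 0 : MvPolynomial (Fin 2) ℂ) (q /ₘ (Polynomial.X - Polynomial.C r)) := by
      conv_lhs => rw [← Polynomial.mul_divByMonic_eq_iff_isRoot.mpr hr]
      rw [map_mul, map_sub, Polynomial.aeval_X, Polynomial.aeval_C, algebraMap_eq]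
    rcases h.isUnit_or_isUnit e with hu | hu
    · have := hu.map (eval fun _ => r)
      simp at this
    · rw [e]
      exact EXTU.dmul (EXTU.dsub (EXTU.dX 0) ((EXTU.dC r).trans zero_le_one))
        (EXTU.deg_of_unit hu).le

lemma sp_of_vars (a : ℂ) (φ : MvPolynomial (Fin 3) ℂ) (h : φ.degreeOf 2 = 0) :
    ∃ q : Polynomial ℂ, sp a φ = Polynomial.aeval (X 0 : MvPolynomial (Fin 2) ℂ) q := by
  let f : MvPolynomial (Fin 3) ℂ →+* Polynomial ℂ :=
    eval₂Hom Polynomial.C ![Polynomial.C a, Polynomial.X, 0]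
  refine ⟨f φ, ?_⟩
  refine hom_congr_vars (f₁ := sp a)
    (f₂ := (Polynomial.aeval (X 0 : MvPolynomial (Fin 2) ℂ)).toRingHom.comp f) ?_ ?_ rfl
  · ext1 x
    simp [sp, ps_C, f, algebraMap_eq]
  · intro i hi _
    fin_cases i
    · simp [sp, ps_0, f, algebraMap_eq]
    · simp [sp, ps_1, f]
    · exact absurd h (mem_vars_iff_degreeOf_ne_zero.mp hi)

lemma deg_rename (P : MvPolynomial (Fin 2) ℂ) :
    (rename Fin.castSucc P : MvPolynomial (Fin 3) ℂ).degreeOf 2 = 0 := by
  by_contra h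
  obtain ⟨i, -, hi⟩ := mem_vars_rename _ _ (mem_vars_iff_degreeOf_ne_zero.mpr h)
  fin_cases i <;> exact absurd hi (by decide)

end FAC

open FAC in
theorem thm_FAC : S_FAC := by
  intro T hE
  have hs := sp_quin3 T
  have hF0 : quin3 T ≠ 0 := fun e => hE.irr.ne_zero (by rw [← hs, e, map_zero])
  obtain ⟨φ, hφ, ⟨c', hc⟩, hu⟩ := exists_prime (sp (tu T)) (quin3 T) hF0
    (by rw [hs]; exact hE.irr.not_isUnit)
  have e : quinP T = sp (tu T) φ * sp (tu T) c' := by rw [← hs, hc, map_mul]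
  have hc' : IsUnit (sp (tu T) c') := (hE.irr.isUnit_or_isUnit e).resolve_left hu
  have h0 : sp (tu T) φ ≠ 0 := fun z => hE.irr.ne_zero (by rw [e, z, zero_mul])
  have h5 : (sp (tu T) φ).totalDegree = 5 := by
    have := hE.deg
    rwa [e, totalDegree_mul_of_isDomain h0 hc'.ne_zero, EXTU.deg_of_unit hc', add_zero] at this
  have p1 : ps φ ≠ 0 := fun z => hφ.ne_zero (by rw [← th_ps φ, z, map_zero])
  have p2 : ps c' ≠ 0 := fun z => hF0 (by rw [hc, ← th_ps c', z, map_zero, mul_zero])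
  have d0 : (ps c').totalDegree = 0 := by
    have h1 := deg_ps T
    have h2 := deg_sp (tu T) φ
    rw [hc, map_mul, totalDegree_mul_of_isDomain p1 p2] at h1
    omega
  rw [totalDegree_eq_zero_iff_eq_C] at d0
  refine ⟨coeff 0 (ps c'), φ, ?_, ?_, hφ, fun P hP => ?_⟩
  · rw [← th_C, ← d0, th_ps, hc, mul_comm]
  · intro z
    apply hc'.ne_zero
    change map _ (ps c') = 0
    rw [d0, map_C, Polynomial.coe_evalRingHom, z, C_0]
  · by_contra hP0
    obtain ⟨Q, hQ⟩ := hP
    have r0 : (rename Fin.castSucc P : MvPolynomial (Fin 3) ℂ) ≠ 0 := fun z =>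
      hP0 (rename_injective _ (Fin.castSucc_injective 2) (by rw [z, map_zero]))
    have hd := deg_rename P
    rw [hQ, degreeOf_mul_eq hφ.ne_zero fun z => r0 (by rw [hQ, z, mul_zero])] at hd
    obtain ⟨q, hq⟩ := sp_of_vars (tu T) φ (by omega)
    have hi : Irreducible (sp (tu T) φ) := (irreducible_mul_isUnit hc').mp (e ▸ hE.irr)
    rw [hq] at hi h5
    have := deg_one q hi
    omega

end Pool.Agent.P.MP_7ebcb6_ag.SC
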