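import Pool.Agent.P.MP_7ebcb6_ag.SC.St1

/-! Points of a quadric on a line, integral bases of lines, intersection of two lines. -/

namespace Pool.Agent.P.MP_7ebcb6_ag.SC

open G8 Polynomial Function

noncomputable section

namespace L1

variable {K : Type} [Field K]

lemma qb_lpt (k : Fin 6 → K) (W : V4 K) (r : K) : qb k (lpt W r) (lpt W r) =
    qb k (lA W) (lA W) + 2 * qb k (lA W) (lB W) * r + qB k W * r ^ 2 := by
  simp only [qB, lpt, qb, cb, Nat.cast_one]
  ring

lemma rts_iff {k : Fin 6 → K} {W : V4 K} {r1 r2 : K} : Rts k W r1 r2 ↔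
    qb k (lA W) (lA W) = qB k W * (r1 * r2) ∧
      2 * qb k (lA W) (lB W) = -(qB k W * (r1 + r2)) := by
  constructor
  · intro h
    have h0 := h 0
    have h1 := h 1
    rw [qb_lpt] at h0 h1
    exact ⟨by linear_combination h0, by linear_combination h1 - h0⟩
  · rintro ⟨h0, h1⟩ r
    rw [qb_lpt, h0, h1]
    ring

lemma plk_cb (s t s' t' : K) (a b : V4 K) (l : Fin 6) :
    plk (cb s a t b) (cb s' a t' b) l = (s * t' - t * s') * plk a b l := by
  fin_cases l <;> simp [plk, cb] <;> ring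

lemma ind {a b : V4 K} (h : Ind a b) {s t : K} (e : cb s a t b = 0) : s = 0 ∧ t = 0 := by
  obtain ⟨l, hl⟩ := Function.ne_iff.mp h
  have h1 := plk_cb s t 0 1 a b l
  have h2 := plk_cb s t 1 0 a b l
  have z : ∀ y : V4 K, plk 0 y l = 0 := fun y => by fin_cases l <;> simp [plk]
  rw [e, z] at h1 h2
  exact ⟨by simpa using (mul_eq_zero.mp h1.symm).resolve_right hl,
    by simpa using (mul_eq_zero.mp h2.symm).resolve_right hl⟩

lemma det_eq (a b c d : V4 K) :
    (Matrix.of ![a, b, c, d]).det = pp (plk a b) (plk c d) := by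
  simp [Matrix.det_succ_row_zero, Fin.sum_univ_succ, Fin.succAbove, pp, plk]
  ring

lemma plk_pair (a b : V4 K) (l : Fin 6) : ∃ i j, plk a b l = a i * b j - a j * b i := by
  fin_cases l
  exacts [⟨0, 1, rfl⟩, ⟨0, 2, rfl⟩, ⟨0, 3, rfl⟩, ⟨1, 2, rfl⟩, ⟨1, 3, rfl⟩, ⟨2, 3, rfl⟩]

lemma pair_plk (a b : V4 K) (i j : Fin 4) : a i * b j - a j * b i = 0 ∨
    ∃ l, a i * b j - a j * b i = plk a b l ∨ a i * b j - a j * b i = -plk a b l := by
  fin_cases i <;> fin_cases j
  exacts [.inl (sub_self _), .inr ⟨0, .inl rfl⟩, .inr ⟨1, .inl rfl⟩, .inr ⟨2, .inl rfl⟩,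
    .inr ⟨0, .inr (neg_sub _ _).symm⟩, .inl (sub_self _), .inr ⟨3, .inl rfl⟩, .inr ⟨4, .inl rfl⟩,
    .inr ⟨1, .inr (neg_sub _ _).symm⟩, .inr ⟨3, .inr (neg_sub _ _).symm⟩, .inl (sub_self _),
    .inr ⟨5, .inl rfl⟩, .inr ⟨2, .inr (neg_sub _ _).symm⟩, .inr ⟨4, .inr (neg_sub _ _).symm⟩,
    .inr ⟨5, .inr (neg_sub _ _).symm⟩, .inl (sub_self _)]

/-- an integral basis of the span of two independent vectors -/
lemma basis (sp : Sp) (A B : V4 Om) (h : plk A B ≠ 0) : ∃ (a b : V4 Om) (a' b' : V4 ℂ),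
    TV sp a a' ∧ TV sp b b' ∧ plk a' b' = rd sp (plk A B) ∧ (∃ s t, a = cb s A t B) ∧
      ∃ s t, b = cb s A t B := by
  have hN := nv_ne_zero sp h
  obtain ⟨l0, e0⟩ := nv_mem sp (plk A B)
  obtain ⟨i, j, e1⟩ := plk_pair A B l0
  rw [← e0] at e1
  set N := nv sp (plk A B) with hNd
  have key : ∀ k m, sp.v (N⁻¹ * (A k * B m - A m * B k)) ≤ 1 := fun k m => by
    rcases pair_plk A B k m with e | ⟨l, e | e⟩
    · simp [e]
    · rw [e]; exact (tv_nz sp (plk A B) l).le_one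
    · rw [e, mul_neg, Valuation.map_neg]; exact (tv_nz sp (plk A B) l).le_one
  have ha : TV sp (cb (N⁻¹ * B j) A (-(N⁻¹ * A j)) B) fun k =>
      lim sp (cb (N⁻¹ * B j) A (-(N⁻¹ * A j)) B k) := fun k =>
    tends_lim (by
      convert key k j using 2
      simp only [cb]
      ring)
  have hb : TV sp (cb (-(N⁻¹ * B i)) A (N⁻¹ * A i) B) fun k =>
      lim sp (cb (-(N⁻¹ * B i)) A (N⁻¹ * A i) B k) := fun k =>
    tends_lim (by
      convert key i k using 2
      simp only [cb]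
      ring)
  refine ⟨_, _, _, _, ha, hb, funext fun l => ?_, ⟨_, _, rfl⟩, _, _, rfl⟩
  have h1 : ∀ {a b : V4 Om} {a' b' : V4 ℂ}, TV sp a a' → TV sp b b' →
      Tends sp.v (plk a b l) (plk a' b' l) := fun ha hb => mem_plk (G := (spPl sp).G) ha hb l
  refine (h1 ha hb).eq_of_eq (tv_nz sp (plk A B) l) ?_
  rw [plk_cb]
  change _ = N⁻¹ * plk A B l
  congr 1
  field_simp
  linear_combination -e1

end L1

open L1

theorem thm_AL : S_AL := by
  refine ⟨fun K _ _ k W h => ?_, fun K _ _ k W r1 r2 h hr => ?_,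
    fun K _ _ k W r1 r2 h hne h1 h2 => ?_, fun φ k W r1 r2 h hr => ?_,
    fun sp k W k' W' r1 r2 hk hW h hr => ?_⟩
  · obtain ⟨r, hr⟩ := IsAlgClosed.exists_root
      (C (qB k W) * X ^ 2 + C (2 * qb k (lA W) (lB W)) * X + C (qb k (lA W) (lA W)))
      (by rw [degree_quadratic h]; norm_num)
    simp only [IsRoot.def, eval_add, eval_mul, eval_C, eval_pow, eval_X] at hr
    refine ⟨r, -(2 * qb k (lA W) (lB W)) / qB k W - r, rts_iff.mpr ⟨?_, ?_⟩⟩
    · field_simp
      linear_combination hr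
    · field_simp
      ring
  · obtain ⟨h0, h1⟩ := rts_iff.mp hr
    have e : 4 * dsc k W = (qB k W * (r1 - r2)) ^ 2 := by
      have : dsc k W = qb k (lA W) (lB W) * qb k (lA W) (lB W) - qb k (lA W) (lA W) * qB k W := rfl
      rw [this, h0]
      linear_combination (2 * qb k (lA W) (lB W) - qB k W * (r1 + r2)) * h1
    constructor
    · rintro hd rfl
      exact hd (by simpa using e)
    · intro hne hd
      rw [hd, mul_zero] at e
      exact mul_ne_zero h (sub_ne_zero.mpr hne) (pow_eq_zero_iff two_ne_zero |>.mp e.symm)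
  · rw [qb_lpt] at h1 h2
    have e : 2 * qb k (lA W) (lB W) = -(qB k W * (r1 + r2)) :=
      mul_right_cancel₀ (sub_ne_zero.mpr hne) (by linear_combination h1 - h2)
    exact rts_iff.mpr ⟨by linear_combination h1 - r1 * e, e⟩
  · obtain ⟨h0, h1⟩ := rts_iff.mp hr
    have e : C (qb k (lA W) (lA W)) + C (2 * qb k (lA W) (lB W)) * X + C (qB k W) * X ^ 2 =
        C (qB k W) * ((X - C r1) * (X - C r2)) := by
      rw [h0, h1]
      simp only [map_mul, map_neg, map_add]
      ring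
    rw [aL, e, roots_C_mul _ h, roots_mul (mul_ne_zero (X_sub_C_ne_zero _) (X_sub_C_ne_zero _)),
      roots_X_sub_C, roots_X_sub_C]
    simp
  · obtain ⟨h0, h1⟩ := rts_iff.mp hr
    have hA : MV (spPl sp).G (lA W) (lA W') := mem_lA (G := (spPl sp).G) hW
    have hB : MV (spPl sp).G (lB W) (lB W') := mem_lB (G := (spPl sp).G) hW
    have t0 : Tends sp.v (qb k (lA W) (lA W)) (qb k' (lA W') (lA W')) :=
      mem_qb (G := (spPl sp).G) hk hA hA
    have t1 : Tends sp.v (qb k (lA W) (lB W)) (qb k' (lA W') (lB W')) :=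
      mem_qb (G := (spPl sp).G) hk hA hB
    have t2 : Tends sp.v (qB k W) (qB k' W') := mem_qb (G := (spPl sp).G) hk hB hB
    have t3 := (Tends.ofNat (v := sp.v) 2).mul t1
    have hne := t2.ne_zero h
    have p1 := (t3.div t2 h).le_one
    have p0 := (t0.div t2 h).le_one
    obtain ⟨s1, hs1⟩ := sp.exists_tends (le_one_of_quadratic sp.v (r := r1) p1 p0 (by
      rw [h0, h1]; field_simp; ring))
    obtain ⟨s2, hs2⟩ := sp.exists_tends (le_one_of_quadratic sp.v (r := r2) p1 p0 (by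
      rw [h0, h1]; field_simp; ring))
    exact ⟨s1, s2, hs1, hs2, rts_iff.mpr ⟨t0.eq_of_eq (t2.mul (hs1.mul hs2)) h0,
      t3.eq_of_eq (t2.mul (hs1.add hs2)).neg h1⟩⟩

theorem thm_LIM : S_LIM := fun sp W => by
  have := basis sp (lA W) (lB W) fun e => by
    have := congrFun e 0
    simp [plk_chart, lP] at this
  rwa [plk_chart] at this

theorem thm_MEET : S_MEET := by
  intro K _ a b c d hab hcd h
  rw [← det_eq] at h
  obtain ⟨v, hv, e⟩ := Matrix.exists_vecMul_eq_zero_iff.mpr h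
  have e1 : cb (v 0) a (v 1) b = cb (-v 2) c (-v 3) d := funext fun i => by
    have := congrFun e i
    simp [Matrix.vecMul, dotProduct, Fin.sum_univ_four] at this
    simp only [cb]
    linear_combination this
  refine ⟨_, _, _, _, e1, fun e2 => hv ?_⟩
  obtain ⟨h0, h1⟩ := ind hab e2
  obtain ⟨h2, h3⟩ := ind hcd (e1 ▸ e2)
  funext i
  fin_cases i
  exacts [h0, h1, neg_eq_zero.mp h2, neg_eq_zero.mp h3]

end

end Pool.Agent.P.MP_7ebcb6_ag.SC
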