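import Pool.Agent.P.MP_7ebcb6_ag.SC.St3
import Pool.Agent.P.MP_7ebcb6_ag.SC.L1

/-! The chord, the comparison of the two closed conditions, and the member of the table. -/

namespace Pool.Agent.P.MP_7ebcb6_ag.SC

open G8 Function

namespace CH0

section ring

variable {R : Type} [CommRing R]

lemma lin_eq (a : Fin 4 → Fin 4 → Fin 2 → R) (U : Fin 2 → R) : lin a U = lnv a U := by
  funext i j
  simp [lin, form, lnv, Fin.sum_univ_two]

lemma bf_sq (d : ℕ) (c : ℕ → R) (U : Fin 2 → R) :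
    bf d (sq fun i : Fin (d + 1) => c i.val) U = bf d c U := by
  simp only [bf_eq]
  exact Finset.sum_congr rfl fun i hi => by rw [sq, dif_pos (Finset.mem_range.mp hi)]

lemma form_eq (d : ℕ) (c : ℕ → R) (U : Fin 2 → R) :
    form (fun i : Fin (d + 1) => c i.val) U = bf d c U := by
  rw [bf_eq, Finset.sum_range]
  rfl

lemma qb_eq (k : Fin 6 → R) (Y : Fin 4 → R) :
    qb k Y Y = 2 * dot6 k fun q => Y (pa q) * Y (pb q) := by
  simp [qb, dot6, pa, pb]
  ring

lemma dot6_az (A : Fin 4 → Fin 4 → R) (k : Fin 6 → R) (z : Fin 4 → R)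
    (h : ∀ i, atk A k i = 0) : dot6 k (az A z) = 0 := by
  have h0 := h 0
  have h1 := h 1
  have h2 := h 2
  have h3 := h 3
  simp [atk, c1, c2, c3, pr] at h0 h1 h2 h3
  simp [dot6, az, pa, pb]
  linear_combination z 0 * h0 + z 1 * h1 + z 2 * h2 + z 3 * h3

lemma tri_cay (A : Fin 4 → Fin 4 → R) (Y : Fin 4 → R) :
    tri (cay (muM A)) Y Y Y = 6 * cayl A Y := by
  simp only [tri, cay, cayl, Fin.coe_ofNat_eq_mod, Nat.reduceMod, Nat.cast_zero]
  ring

lemma tri_comb (f g h : Fin 20 → R) (c : R) (Y : Fin 4 → R) :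
    tri (fun b => f b - g b - c * h b) Y Y Y = tri f Y Y Y - tri g Y Y Y - c * tri h Y Y Y := by
  simp only [tri]
  ring

lemma tri_mul (g : Fin 20 → R) (c : R) (Y : Fin 4 → R) :
    tri (fun b => c * g b) Y Y Y = c * tri g Y Y Y := by
  simp only [tri]
  ring

lemma tri_cb (g : Fin 20 → R) (s t : R) (a b : Fin 4 → R) :
    tri g (cb s a t b) (cb s a t b) (cb s a t b) = s ^ 3 * tri g a a a + 3 * s ^ 2 * t * tri g a a b
      + 3 * s * t ^ 2 * tri g a b b + t ^ 3 * tri g b b b := by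
  simp only [tri, cb]
  ring

variable {X : ℕ → R} {U : Fin 2 → R}

/-- The cubic equation of the pencil in terms of the linear forms. -/
lemma cubic (h : RelA X U) (t : R) (Y : Fin 4 → R) :
    tri ((Pen.of X).gc U) Y Y Y + 6 * t * dot ((Pen.of X).nn 0 U) Y
      = 6 * (cayl (tA X U) Y + t * nfm (tA X U) ((Pen.of X).ka 0) Y) := by
  rw [Pen.gc, funext h.mu, tri_cay]
  simp only [dot, Pen.nn, h.nh, nfm]
  ring

/-- The quadrics of the pencil at a point of the member. -/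
lemma quadric (h : RelA X U) {t : R} {Y z : Fin 4 → R}
    (hz : ∀ q, Y (pa q) * Y (pb q) = az (tA X U) z q + t * tE X 0 U q) (a : Fin 2) :
    qb ((Pen.of X).kk a U) Y Y = 2 * t * (Pen.of X).ff 0 a U := by
  have := dot6_az _ _ z (h.kk a)
  rw [qb_eq, h.ff]
  simp only [dot6, hz] at this ⊢
  linear_combination 2 * this

end ring

section field

variable {K : Type} [Field K]

lemma az_inj {A : Fin 4 → Fin 4 → K} (h : nuA A ≠ 0) (z : V4 K) (hz : ∀ q, az A z q = 0) :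
    z = 0 := by
  have h0 := hz 0
  have h1 := hz 1
  have h2 := hz 2
  have h3 := hz 3
  have h4 := hz 4
  have h5 := hz 5
  simp only [nuA, mul_ne_zero_iff] at h
  obtain ⟨⟨⟨n0, -⟩, -⟩, n3⟩ := h
  simp [az, pa, pb] at h0 h1 h2 h3 h4 h5
  have e0 : nuM A 0 = A 1 2 * A 2 3 * A 3 1 + A 1 3 * A 3 2 * A 2 1 := rfl
  have e3 : nuM A 3 = A 0 1 * A 1 2 * A 2 0 + A 0 2 * A 2 1 * A 1 0 := rfl
  funext i
  fin_cases i
  · exact mul_left_cancel₀ n3 (by
      change _ * z 0 = _ * 0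
      rw [e3]
      linear_combination A 1 2 * A 2 0 * h0 - A 1 0 * A 2 0 * h3 + A 2 1 * A 1 0 * h1)
  · exact mul_left_cancel₀ n3 (by
      change _ * z 1 = _ * 0
      rw [e3]
      linear_combination A 0 2 * A 2 1 * h0 - A 0 1 * A 2 1 * h1 + A 0 1 * A 2 0 * h3)
  · exact mul_left_cancel₀ n3 (by
      change _ * z 2 = _ * 0
      rw [e3]
      linear_combination A 0 1 * A 1 2 * h1 - A 0 2 * A 1 2 * h0 + A 0 2 * A 1 0 * h3)
  · exact mul_left_cancel₀ n0 (by
      change _ * z 3 = _ * 0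
      rw [e0]
      linear_combination A 1 2 * A 2 3 * h4 - A 1 3 * A 2 3 * h3 + A 1 3 * A 2 1 * h5)

/-- On the member `0` the quadric `ks` and the determinant vanish. -/
lemma on_zero (P : Pen K) {U : V2 K} {Y : V4 K} (h : P.On U Y) :
    qb (P.ks U) Y Y = 0 ∧ tri (P.dt 0 1 U) Y Y Y = 0 := by
  obtain ⟨t, h1, h2⟩ := h
  have h3 := h1 0
  have h4 := h1 1
  constructor
  · simp only [qb, Pen.ks] at h3 h4 ⊢
    linear_combination P.ff 0 1 U * h3 - P.ff 0 0 U * h4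
  · unfold Pen.dt
    rw [tri_comb, tri_qlc, tri_qlc, h3, h4]
    simp only [dot, Pen.pi, Pen.be] at h2 ⊢
    linear_combination (P.ff 0 1 U * P.ff 1 0 U - P.ff 0 0 U * P.ff 1 1 U) * h2

variable [CharZero K] {X : ℕ → K}

/-- From the two quadrics back to the six equations of the member. -/
lemma key (hL : S_LAK) (hR : ∀ U, RelA X U) {U : V2 K} (h0 : U 0 ≠ 0)
    (hn : (Pen.of X).nuv U ≠ 0) {Y : V4 K} {t : K}
    (hk : ∀ a, qb ((Pen.of X).kk a U) Y Y = 2 * t * (Pen.of X).ff 0 a U) :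
    ∃ z, ∀ q, Y (pa q) * Y (pb q) = az (tA X U) z q + t * tE X 0 U q := by
  have h := hR U
  have hU : U = fun i => U 0 * af (U 1 / U 0) i := by
    funext i
    fin_cases i
    · simp
    · simp [mul_div_cancel₀ _ h0]
  have hm : ∀ p q, kmin (Pen.of X) p q U = U 0 ^ 4 * kmin (Pen.of X) p q (af (U 1 / U 0)) := by
    intro p q
    conv_lhs => rw [hU]
    simp only [kmin, Pen.kk, bf_smul]
    ring
  have hpq : ∃ p q, (Pen.of X).kk 0 U p * (Pen.of X).kk 1 U q
      - (Pen.of X).kk 0 U q * (Pen.of X).kk 1 U p ≠ 0 := by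
    by_contra hc
    push Not at hc
    have hz : ∀ p q, kmin (Pen.of X) p q (af (U 1 / U 0)) = 0 := fun p q =>
      (mul_eq_zero.mp ((hm p q).symm.trans (hc p q))).resolve_left (pow_ne_zero _ h0)
    have := (hR _).bz (af_0 (U 1 / U 0))
    simp [hz] at this
  have hw : ∀ a, dot6 ((Pen.of X).kk a U) (fun q => Y (pa q) * Y (pb q) - t * tE X 0 U q) = 0 := by
    intro a
    have := hk a
    rw [qb_eq, h.ff] at this
    simp only [dot6] at this ⊢
    linear_combination this / 2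
  obtain ⟨z, hz⟩ := (hL K _ _ _ (h.kk 0) (h.kk 1) hpq (az_inj (h.nu ▸ hn))).1 _ (hw 0) (hw 1)
  exact ⟨z, fun q => by rw [← hz q]; ring⟩

omit [CharZero K]

lemma lin_memX (U : V2 K) : lin (memX X).a U = tA X U := lin_eq _ _

lemma E_memX (U : V2 K) (q : Fin 6) : (memX X).E U q = tE X 0 U q :=
  form_eq 3 (fun c => X (805 + 4 * q.val + c)) U

lemma map_memX (X : ℕ → ℂ) : (memX X).map ct = memX fun i => ct (X i) := by
  simp only [Member.map, memX, memOf, Member.mk.injEq]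
  exact ⟨by funext i j c; exact (hom_ringHom ct).ta X i j c, rfl, rfl⟩

end field

lemma opr_lt (i j : Fin 4) : opr i j < 12 := by revert i j; decide

lemma opr_inj (i j k l : Fin 4) : i ≠ j → k ≠ l → opr i j = opr k l → i = k ∧ j = l := by
  revert i j k l; decide

lemma opr_surj (n : Fin 12) : ∃ i j : Fin 4, i ≠ j ∧ opr i j = n := by revert n; decide

lemma ta_ne {X : ℕ → ℂ} {i j : Fin 4} (h : i ≠ j) (c : Fin 2) :
    ta X i j c = X (781 + 2 * opr i j + c.val) := by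
  rw [ta, Bool.cond_eq_ite, if_neg fun e => h (Fin.ext (Nat.eq_of_beq_eq_true e))]

lemma gc0_mem (X : ℕ → ℂ) (n : ℕ) (hn : n < 89) :
    gc0 X n ∈ Set.range (parX X) ∪ Set.range (solX X) ∪ {ty2 X 0} := by
  by_cases h : n ≤ 3
  · rw [gc0, Nat.ble_eq_true_of_le h]
    exact .inl (.inr ⟨.inr (.inr (.inl ⟨n, by omega⟩)), rfl⟩)
  rw [gc0, Bool.cond_eq_ite, if_neg fun e => h (Nat.le_of_ble_eq_true e)]
  by_cases h1 : n < 28
  · obtain ⟨i, j, hij, e⟩ := opr_surj ⟨(n - 4) / 2, by omega⟩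
    refine .inl (.inl ⟨.inl (i, j, ⟨n % 2, by omega⟩), (ta_ne hij _).trans (congrArg X ?_)⟩)
    simp only at e ⊢
    omega
  by_cases h2 : n < 52
  · refine .inl (.inr ⟨.inl (⟨(n - 28) / 4, by omega⟩, ⟨n % 4, by omega⟩), congrArg X ?_⟩)
    simp only
    omega
  by_cases h3 : n < 80
  · refine .inl (.inr ⟨.inr (.inl (⟨(n - 52) / 7, by omega⟩, ⟨(n - 52) % 7, by omega⟩)),
      congrArg X ?_⟩)
    simp only
    omega
  by_cases h4 : n < 84
  · refine .inl (.inr ⟨.inr (.inr (.inr ⟨n - 80, by omega⟩)), congrArg X ?_⟩)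
    simp only
    omega
  obtain rfl | rfl | rfl | rfl | rfl : n = 84 ∨ n = 85 ∨ n = 86 ∨ n = 87 ∨ n = 88 := by omega
  exacts [.inl (.inl ⟨.inr (.inl ()), rfl⟩), .inl (.inl ⟨.inr (.inr 1), rfl⟩),
    .inl (.inl ⟨.inr (.inr 2), rfl⟩), .inl (.inl ⟨.inr (.inr 3), rfl⟩), .inr rfl]

/-- The blocks of stage 0 that are used here. -/
lemma blocks {cd : CD} {s : Fin 30 → ℂ} {x : Fin 1049 → ℂ} (h : Good (S0 cd) O0 s x) :
    (Sp6.Z s x ∧ Sp1.Z s x ∧ Sy2.Z s x ∧ Sch.Z s x ∧ Srt.Z s x ∧ (Spar cd).Z s x) ∧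
      O0a.NZ s x ∧ O0b.NZ s x := by
  have h1 : (S0 cd).Z s x := h.eq
  have h2 : O0.NZ s x := h.op
  simp only [S0, O0, Sys.Z_app, Sys.NZ_app] at h1 h2
  obtain ⟨-, -, -, -, -, -, -, -, a1, a2, -, a3, a4, a5, a6, -⟩ := h1
  exact ⟨⟨a1, a2, a3, a4, a5, a6⟩, h2.1, h2.2.1⟩

end CH0

open CH0

theorem thm_QC (hL : S_LAK) : S_QC := by
  intro X hR cl
  refine ⟨⟨cl.cls, cl.smul, fun U Y hb => cl.bad U Y ?_, fun U Y hU hY h => ?_⟩, rfl⟩
  · have hR' : ∀ U, RelA X U := hR ℂ (RingHom.id ℂ)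
    rw [Member.Bad, lin_memX, ← (hR' U).nu]
    by_contra hc
    simp only [not_or] at hc
    obtain ⟨h1, h2, h3, h4, -⟩ := hc
    obtain ⟨z, hz⟩ := key hL hR' h2 h1 (Y := Y) (t := 0) fun a => by
      rw [(((hb.resolve_left h1).resolve_left h2).resolve_left h3) a]
      simp
    exact h4 ⟨1, z, .inl one_ne_zero, fun q => by simp [hz q]⟩
  · have hR' : ∀ U, RelA (fun i => ct (X i)) U := hR Om ct
    by_cases hb : U 0 = 0 ∨ (PO X).nuv U = 0
    · refine ⟨_, IsFam.zero, fun sp U' Y' h1 _ => (cl.bad U' Y' ?_).symm⟩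
      obtain ⟨-, c, hc⟩ := h1
      rcases hb with hb | hb
      · exact .inr (.inl ((spPl sp).func _ (by simpa [hb] using hc 0)))
      · have := mem_nuv (pm_ct sp (Pen.of X)) (U := fun i => c * U i) (U' := U') hc
        rw [Pen.nuv, bf_smul, show bf 12 _ U = 0 from hb, mul_zero,
          RelA.nu (X := X) (hR ℂ (RingHom.id ℂ) U')] at this
        exact .inl (lin_memX U' ▸ (spPl sp).func _ this)
    · simp only [not_or] at hb
      obtain ⟨t, h1, h2⟩ := h
      obtain ⟨z, hz⟩ := key hL hR' hb.1 hb.2 h1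
      refine cl.fam U Y hU hY ?_
      rw [map_memX]
      refine ⟨1, t, z, .inl one_ne_zero, fun q => ?_, ?_⟩
      · rw [lin_memX, E_memX, one_mul, hz]
      · rw [lin_memX, one_mul]
        exact (mul_eq_zero.mp ((cubic (hR' U) t Y).symm.trans h2)).resolve_left (by norm_num)

theorem thm_G0 : S_G0 := by
  intro cd s x h hR
  obtain ⟨⟨h6, h1, -, -, hr, hp⟩, oa, ob⟩ := blocks h
  set X := sq x with hX
  have hR' : ∀ U, RelA X U := hR ℂ (RingHom.id ℂ)
  have hn : nuA (tA X (af (tu X))) ≠ 0 := (hR' _).nu ▸ ob 1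
  refine ⟨fun j => ?_, ⟨fun i => ?_, fun U m => ?_, tr X, fun i j hij => ?_, fun i j k l a b e => ?_,
    sub_ne_zero.mp (ob 0)⟩, ⟨fun i => ?_, fun q => ?_, ?_⟩, by rw [lin_eq]; exact hn, fun l z hz => ?_⟩
  · rw [← sub_eq_zero.mp (hp j)]
    exact gc0_mem X _ (Nat.mod_lt _ (by norm_num))
  · funext c
    change ta X i i c = 0
    simp [ta]
  · rw [lin_eq]
    exact (hR' U).qq m
  · change ta X i j 1 ≠ 0 ∧ ta X i j 0 + _ * ta X i j 1 = 0
    rw [ta_ne hij, ta_ne hij, show 781 + 2 * opr i j + (1 : Fin 2).val = 782 + 2 * opr i j by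
      simp; omega]
    refine ⟨?_, hr ⟨_, opr_lt i j⟩⟩
    simpa [O0a] using oa (⟨_, opr_lt i j⟩, ⟨_, opr_lt i j⟩)
  · refine opr_inj i j k l a b (by_contra fun hne => oa (⟨_, opr_lt i j⟩, ⟨_, opr_lt k l⟩) ?_)
    simp only [O0a]
    rw [Bool.cond_eq_ite, if_neg fun e => hne (Nat.eq_of_beq_eq_true e)]
    exact sub_eq_zero.mpr e
  · have := (hR' (af ((i.2.val : ℕ) : ℂ))).cp 0 i.1
    refine Eq.trans ?_ (sub_eq_zero.mpr this)
    exact congrArg₂ (· - ·)
      (congrArg (cmp _ · _ _) (funext fun p => bf_sq 3 (fun c => X (805 + 4 * p.val + c)) _))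
      (congrArg (_ * ·) (bf_sq 6 (fun c => X (829 + 7 * i.1.val + c)) _))
  · refine Eq.trans ?_ (sub_eq_zero.mp (h6 q))
    exact congrArg (_ + ·) (bf_sq 3 (fun c => X (805 + 4 * q.val + c)) _)
  · exact eq_neg_of_add_eq_zero_left (h1 ())
  · rw [lin_eq] at hz
    change ∀ q, l * (ty X (pa q) * ty X (pb q)) = az (tA X (af (tu X))) z q at hz
    have hl : l = 0 := by
      have e := dot6_az _ _ z ((hR' (af (tu X))).kk 0)
      refine (mul_eq_zero.mp ?_).resolve_right (ob 5)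
      change l * qb _ (ty X) (ty X) = 0
      rw [qb_eq]
      simp only [dot6, ← hz] at e ⊢
      linear_combination 2 * e
    exact ⟨hl, az_inj hn z fun q => by simpa [hl] using (hz q).symm⟩

theorem thm_CH0 : S_CH0 := by
  intro cd s x h hR hid
  obtain ⟨⟨h6, h1, h2, hc, -, -⟩, -, ob⟩ := blocks h
  set X := sq x with hX
  have hR' : RelA X (af (tu X)) := hR ℂ (RingHom.id ℂ) _
  have o1 : (Pen.of X).On (af (tu X)) (ty X) := ⟨1, quadric hR' (z := tz X) fun q => by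
    rw [one_mul]; exact (sub_eq_zero.mp (h6 q)).symm, by
    rw [cubic hR', one_mul, add_comm]; exact mul_eq_zero_of_right _ (h1 ())⟩
  have o2 : (Pen.of X).On (af (tu X)) (ty2 X) := ⟨X 868, fun a => by
    fin_cases a
    exacts [sub_eq_zero.mp (h2 0), sub_eq_zero.mp (h2 1)], h2 2⟩
  have hG : ∀ Y, (Pen.of X).On (af (tu X)) Y → tri ((Pen.of X).G (af (tu X))) Y Y Y = 0 := by
    intro Y hY
    refine (mul_eq_zero.mp ?_).resolve_left (ob 1)
    exact ((tri_mul _ _ Y).symm.trans (congrArg (tri · Y Y Y)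
      (funext (hid.eq ℂ (RingHom.id ℂ) (af (tu X)) 0)))).trans (on_zero _ hY).2
  have e1 : ty X = lpt (tW X) (X 862) := by
    funext i
    fin_cases i
    · simp [ty, lpt, cb, lA, lB]
    · simp [ty, lpt, cb, lA, lB]
    · simpa [ty, lpt, cb, lA, lB, tW] using sub_eq_zero.mp (hc 0)
    · simpa [ty, lpt, cb, lA, lB, tW] using sub_eq_zero.mp (hc 1)
  have e2 : ty2 X = cb (X 865) (lA (tW X)) 1 (lB (tW X)) := by
    funext i
    fin_cases i
    · simp [ty2, cb, lA, lB]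
    · simp [ty2, cb, lA, lB]
    · simpa [ty2, cb, lA, lB, tW] using sub_eq_zero.mp (hc 2)
    · simpa [ty2, cb, lA, lB, tW] using sub_eq_zero.mp (hc 3)
  have n1 : X 862 ≠ 0 := ob 2
  have n2 : X 865 ≠ 0 := ob 3
  have n3 : X 862 * X 865 - 1 ≠ 0 := by simpa [O0b, pick] using ob 4
  have e3 : lpt (tW X) (X 865)⁻¹ = fun i => (X 865)⁻¹ * ty2 X i := by
    funext i
    simp only [e2, lpt, cb, Nat.cast_one]
    field_simp
  have g1 := hG _ o1
  have g2 := hG _ o2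
  have E0 : tri _ (lA (tW X)) (lA (tW X)) (lA (tW X)) = 0 := hc 4
  have E3 : tri _ (lB (tW X)) (lB (tW X)) (lB (tW X)) = 0 := hc 5
  rw [e1, lpt, tri_cb, E0, E3, Nat.cast_one] at g1
  rw [e2, tri_cb, E0, E3] at g2
  have E2 : tri ((Pen.of X).G (af (tu X))) (lA (tW X)) (lB (tW X)) (lB (tW X)) = 0 := by
    refine mul_left_cancel₀ (mul_ne_zero (mul_ne_zero (mul_ne_zero three_ne_zero n1) n2) n3) ?_
    linear_combination X 865 ^ 2 * g1 - X 862 * g2
  have E1 : tri ((Pen.of X).G (af (tu X))) (lA (tW X)) (lA (tW X)) (lB (tW X)) = 0 := by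
    refine mul_left_cancel₀ (mul_ne_zero three_ne_zero n1) ?_
    rw [E2] at g1
    linear_combination g1
  refine ⟨⟨fun t => ?_, fun t => ?_⟩, fun cl => ?_⟩
  · fin_cases t
    exacts [E0, E1, E2, E3]
  · fin_cases t
    exacts [ob 7, ob 8]
  · have hr := thm_AL.2.2.1 ℂ _ (tW X) (X 862) (X 865)⁻¹ (ob 8)
      (fun e => n3 (by rw [e, inv_mul_cancel₀ n2, sub_self])) (e1 ▸ (on_zero _ o1).1) (by
        have := (on_zero _ o2).1
        rw [e3]
        simp only [qb] at this ⊢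
        linear_combination (X 865)⁻¹ ^ 2 * this)
    rw [aX, thm_AL.2.2.2.1 _ _ _ _ _ (ob 8) hr, ← e1, e3]
    simpa using cl.smul 1 _ (af (tu X)) (ty2 X) one_ne_zero (inv_ne_zero n2)

end Pool.Agent.P.MP_7ebcb6_ag.SC
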