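import Pool.Agent.P.MP_7ebcb6_ag.SC.St3

/-! Linear algebra for the six by four matrix; the determinant at the roots of `nu`. -/

namespace Pool.Agent.P.MP_7ebcb6_ag.SC

namespace DT0

lemma f4 (i : Fin 4) : i = 0 ∨ i = 1 ∨ i = 2 ∨ i = 3 := by revert i; decide

section rfl

variable {R : Type} [CommRing R] (A : Fin 4 → Fin 4 → R) (k : Fin 6 → R) (z : Fin 4 → R)

lemma at0 : atk A k 0 = A 0 1 * k 0 + A 0 2 * k 1 + A 0 3 * k 2 := rfl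
lemma at1 : atk A k 1 = A 1 0 * k 0 + A 1 2 * k 3 + A 1 3 * k 4 := rfl
lemma at2 : atk A k 2 = A 2 0 * k 1 + A 2 1 * k 3 + A 2 3 * k 5 := rfl
lemma at3 : atk A k 3 = A 3 0 * k 2 + A 3 1 * k 4 + A 3 2 * k 5 := rfl
lemma az0 : az A z 0 = A 0 1 * z 0 + A 1 0 * z 1 := rfl
lemma az1 : az A z 1 = A 0 2 * z 0 + A 2 0 * z 2 := rfl
lemma az2 : az A z 2 = A 0 3 * z 0 + A 3 0 * z 3 := rfl
lemma az3 : az A z 3 = A 1 2 * z 1 + A 2 1 * z 2 := rfl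
lemma az4 : az A z 4 = A 1 3 * z 1 + A 3 1 * z 3 := rfl
lemma az5 : az A z 5 = A 2 3 * z 2 + A 3 2 * z 3 := rfl
lemma qd0 : quadQ A 0 = A 1 2 * A 1 3 + A 2 1 * A 2 3 + A 3 1 * A 3 2 := rfl
lemma qd1 : quadQ A 1 = A 0 2 * A 0 3 + A 2 0 * A 2 3 + A 3 0 * A 3 2 := rfl
lemma qd2 : quadQ A 2 = A 0 1 * A 0 3 + A 1 0 * A 1 3 + A 3 0 * A 3 1 := rfl
lemma qd3 : quadQ A 3 = A 0 1 * A 0 2 + A 1 0 * A 1 2 + A 2 0 * A 2 1 := rfl
lemma nu0 : nuM A 0 = A 1 2 * A 2 3 * A 3 1 + A 1 3 * A 3 2 * A 2 1 := rfl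
lemma nu1 : nuM A 1 = A 0 2 * A 2 3 * A 3 0 + A 0 3 * A 3 2 * A 2 0 := rfl
lemma nu2 : nuM A 2 = A 0 1 * A 1 3 * A 3 0 + A 0 3 * A 3 1 * A 1 0 := rfl
lemma nu3 : nuM A 3 = A 0 1 * A 1 2 * A 2 0 + A 0 2 * A 2 1 * A 1 0 := rfl
lemma mu0 : muM A 0 = A 1 0 * A 2 0 * A 3 0 * nuM A 0 := rfl
lemma mu1 : muM A 1 = A 0 1 * A 2 1 * A 3 1 * nuM A 1 := rfl
lemma mu2 : muM A 2 = A 0 2 * A 1 2 * A 3 2 * nuM A 2 := rfl
lemma mu3 : muM A 3 = A 0 3 * A 1 3 * A 2 3 * nuM A 3 := rfl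
lemma nh0 : nhM A 0 = nuM A 1 * nuM A 2 * nuM A 3 := rfl
lemma nh1 : nhM A 1 = nuM A 0 * nuM A 2 * nuM A 3 := rfl
lemma nh2 : nhM A 2 = nuM A 0 * nuM A 1 * nuM A 3 := rfl
lemma nh3 : nhM A 3 = nuM A 0 * nuM A 1 * nuM A 2 := rfl

lemma dot_az : dot6 k (az A z) =
    z 0 * atk A k 0 + z 1 * atk A k 1 + z 2 * atk A k 2 + z 3 * atk A k 3 := by
  simp only [dot6, at0, at1, at2, at3, az0, az1, az2, az3, az4, az5]
  ring

end rfl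

/-- The quadric that is the residual factor of the Cayley cubic when `mu m = 0`. -/
def wv {R : Type} [CommRing R] (μ : Fin 4 → R) : Fin 4 → Fin 6 → R :=
  v4 (v6 0 0 0 (μ 3) (μ 2) (μ 1)) (v6 0 (μ 3) (μ 2) 0 0 (μ 0)) (v6 (μ 3) 0 (μ 1) 0 (μ 0) 0)
    (v6 (μ 2) (μ 1) 0 (μ 0) 0 0)

section ker

variable {R : Type} [CommRing R] {A : Fin 4 → Fin 4 → R}

lemma atk_w0 (hq : ∀ m, quadQ A m = 0) (h : nuM A 0 = 0) (i : Fin 4) :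
    atk A (wv (muM A) 0) i = 0 := by
  have q0 := hq 0
  have q1 := hq 1
  have q2 := hq 2
  have q3 := hq 3
  simp only [qd0, qd1, qd2, qd3, nu0] at q0 q1 q2 q3 h
  rcases f4 i with rfl | rfl | rfl | rfl <;>
    simp only [at0, at1, at2, at3, wv, v4_0, v6_0, v6_1, v6_2, v6_3, v6_4, v6_5,
      mu0, mu1, mu2, mu3, nu0, nu1, nu2, nu3]
  · ring
  · linear_combination
      (A 0 1 * A 0 2 * A 1 3 * A 3 0 * A 3 2 + A 0 1 * A 0 3 * A 1 2 * A 2 0 * A 2 3 + A 0 2 *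
      A 0 3 * A 1 0 * A 1 2 * A 1 3 + A 1 0 * A 1 2 * A 1 3 * A 2 0 * A 2 3 + A 1 0 * A 1 2 *
      A 1 3 * A 3 0 * A 3 2) * q0 + (-(A 1 0 * A 1 2 * A 1 2 * A 1 3 * A 1 3)) * q1 + (A 0 1 *
      A 0 2 * A 1 2 * A 2 3 * A 2 3 - A 0 1 * A 0 2 * A 1 3 * A 3 2 * A 3 2 + A 1 0 * A 1 2 *
      A 1 2 * A 2 3 * A 2 3 - A 1 0 * A 1 2 * A 1 3 * A 3 2 * A 3 2) * q2 + (-(A 0 1 * A 0 3 *
      A 1 2 * A 2 3 * A 2 3) + A 0 1 * A 0 3 * A 1 3 * A 3 2 * A 3 2 - A 1 0 * A 1 2 * A 1 3 *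
      A 2 3 * A 2 3 + A 1 0 * A 1 3 * A 1 3 * A 3 2 * A 3 2) * q3 + (-(A 0 1 * A 0 2 * A 2 3 *
      A 3 0) - A 0 1 * A 0 3 * A 2 0 * A 3 2 - A 1 0 * A 1 2 * A 2 3 * A 3 0 - A 1 0 * A 1 3 *
      A 2 0 * A 3 2) * h
  · linear_combination
      (A 0 1 * A 0 3 * A 1 0 * A 1 2 * A 2 3 + A 0 1 * A 0 3 * A 2 0 * A 2 1 * A 2 3 + A 1 0 *
      A 1 0 * A 1 2 * A 1 3 * A 2 3 - A 1 0 * A 1 3 * A 2 1 * A 3 0 * A 3 2) * q0 + (A 1 0 *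
      A 1 3 * A 2 1 * A 2 1 * A 2 3) * q1 + (A 0 1 * A 0 2 * A 2 1 * A 2 3 * A 2 3 - A 1 0 *
      A 1 2 * A 1 2 * A 1 3 * A 2 3 + A 1 0 * A 1 3 * A 2 1 * A 3 2 * A 3 2) * q2 + (-(A 0 1 *
      A 0 3 * A 2 1 * A 2 3 * A 2 3) - A 1 0 * A 1 3 * A 2 1 * A 2 3 * A 2 3) * q3 + (-(A 0 1 *
      A 0 3 * A 1 0 * A 3 2) - A 1 0 * A 1 0 * A 1 3 * A 3 2 + A 1 0 * A 1 2 * A 1 3 * A 3 0) * h
  · linear_combination
      (A 0 1 * A 0 3 * A 2 0 * A 2 1 * A 3 2 + A 0 2 * A 0 3 * A 1 0 * A 1 2 * A 3 1) * q0 +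
      (-(A 1 0 * A 1 2 * A 1 2 * A 1 3 * A 3 1) - A 1 0 * A 1 2 * A 2 1 * A 2 3 * A 3 1) * q1 +
      (A 0 1 * A 0 2 * A 1 2 * A 1 3 * A 3 2 + A 0 1 * A 0 2 * A 2 1 * A 2 3 * A 3 2 + A 1 0 *
      A 1 2 * A 1 2 * A 1 3 * A 3 2 + A 1 0 * A 1 2 * A 2 1 * A 2 3 * A 3 2) * q2 + (-(A 0 1 *
      A 0 3 * A 1 2 * A 1 3 * A 3 2) - A 0 1 * A 0 3 * A 2 1 * A 2 3 * A 3 2 - A 1 0 * A 1 2 *
      A 1 3 * A 1 3 * A 3 2 + A 1 0 * A 1 2 * A 2 3 * A 2 3 * A 3 1) * q3 + (-(A 0 1 * A 0 2 *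
      A 1 0 * A 2 3) - A 1 0 * A 1 0 * A 1 2 * A 2 3 + A 1 0 * A 1 2 * A 1 3 * A 2 0) * h

lemma atk_w1 (hq : ∀ m, quadQ A m = 0) (h : nuM A 1 = 0) (i : Fin 4) :
    atk A (wv (muM A) 1) i = 0 := by
  have q0 := hq 0
  have q1 := hq 1
  have q2 := hq 2
  have q3 := hq 3
  simp only [qd0, qd1, qd2, qd3, nu1] at q0 q1 q2 q3 h
  rcases f4 i with rfl | rfl | rfl | rfl <;>
    simp only [at0, at1, at2, at3, wv, v4_1, v6_0, v6_1, v6_2, v6_3, v6_4, v6_5,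
      mu0, mu1, mu2, mu3, nu0, nu1, nu2, nu3]
  · linear_combination
      (A 0 2 * A 0 3 * A 0 3 * A 1 0 * A 1 2 + A 0 2 * A 0 3 * A 0 3 * A 2 0 * A 2 1) * q0 +
      (A 0 1 * A 0 2 * A 0 3 * A 1 2 * A 1 3) * q1 + (A 0 2 * A 0 2 * A 0 3 * A 2 1 * A 2 3) * q2
      + (-(A 0 2 * A 0 3 * A 0 3 * A 1 2 * A 1 3) - A 0 2 * A 0 3 * A 0 3 * A 2 1 * A 2 3) * q3 +
      (-(A 0 2 * A 0 3 * A 2 1 * A 3 1)) * h
  · ring
  · linear_combination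
      (-(A 0 1 * A 0 2 * A 0 3 * A 0 3 * A 2 0) - A 0 1 * A 0 3 * A 2 0 * A 3 0 * A 3 2) * q0 +
      (A 0 1 * A 0 1 * A 0 2 * A 0 3 * A 2 3 + A 0 1 * A 0 2 * A 1 0 * A 1 3 * A 2 3 + A 0 1 *
      A 0 3 * A 1 2 * A 1 3 * A 2 0 + A 0 1 * A 0 3 * A 2 0 * A 2 1 * A 2 3 + A 1 0 * A 1 3 *
      A 2 0 * A 2 1 * A 2 3) * q1 + (-(A 0 1 * A 0 2 * A 0 2 * A 0 3 * A 2 3) + A 0 1 * A 0 3 *
      A 2 0 * A 3 2 * A 3 2 + A 1 0 * A 1 2 * A 2 0 * A 2 3 * A 2 3) * q2 + (-(A 0 1 * A 0 3 *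
      A 2 0 * A 2 3 * A 2 3) - A 1 0 * A 1 3 * A 2 0 * A 2 3 * A 2 3) * q3 + (-(A 0 1 * A 0 1 *
      A 0 3 * A 3 2) + A 0 1 * A 0 2 * A 0 3 * A 3 1 - A 0 1 * A 1 0 * A 1 3 * A 3 2) * h
  · linear_combination
      (-(A 0 1 * A 0 2 * A 0 2 * A 0 3 * A 3 0) - A 0 1 * A 0 2 * A 2 0 * A 2 3 * A 3 0) * q0 +
      (A 0 1 * A 0 2 * A 1 2 * A 1 3 * A 3 0 + A 1 0 * A 1 3 * A 2 0 * A 2 1 * A 3 2) * q1 +
      (A 0 1 * A 0 2 * A 0 2 * A 0 3 * A 3 2 + A 0 1 * A 0 2 * A 2 0 * A 2 3 * A 3 2 + A 0 2 *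
      A 0 3 * A 1 0 * A 1 2 * A 3 2 + A 1 0 * A 1 2 * A 2 0 * A 2 3 * A 3 2) * q2 + (-(A 0 1 *
      A 0 2 * A 0 3 * A 0 3 * A 3 2) + A 0 1 * A 0 2 * A 2 3 * A 2 3 * A 3 0 - A 0 2 * A 0 3 *
      A 1 0 * A 1 3 * A 3 2 - A 1 0 * A 1 3 * A 2 0 * A 2 3 * A 3 2) * q3 + (-(A 0 1 * A 0 1 *
      A 0 2 * A 2 3) + A 0 1 * A 0 2 * A 0 3 * A 2 1 - A 0 1 * A 1 0 * A 1 2 * A 2 3) * h

lemma atk_w2 (hq : ∀ m, quadQ A m = 0) (h : nuM A 2 = 0) (i : Fin 4) :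
    atk A (wv (muM A) 2) i = 0 := by
  have q0 := hq 0
  have q1 := hq 1
  have q2 := hq 2
  have q3 := hq 3
  simp only [qd0, qd1, qd2, qd3, nu2] at q0 q1 q2 q3 h
  rcases f4 i with rfl | rfl | rfl | rfl <;>
    simp only [at0, at1, at2, at3, wv, v4_2, v6_0, v6_1, v6_2, v6_3, v6_4, v6_5,
      mu0, mu1, mu2, mu3, nu0, nu1, nu2, nu3]
  · linear_combination
      (A 0 1 * A 0 3 * A 0 3 * A 1 0 * A 1 2 + A 0 1 * A 0 3 * A 0 3 * A 2 0 * A 2 1) * q0 +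
      (A 0 1 * A 0 1 * A 0 3 * A 1 2 * A 1 3) * q1 + (A 0 1 * A 0 2 * A 0 3 * A 2 1 * A 2 3) * q2
      + (-(A 0 1 * A 0 3 * A 0 3 * A 1 2 * A 1 3) - A 0 1 * A 0 3 * A 0 3 * A 2 1 * A 2 3) * q3 +
      (-(A 0 1 * A 0 3 * A 1 2 * A 3 2)) * h
  · linear_combination
      (A 0 2 * A 0 3 * A 1 0 * A 1 0 * A 1 3) * q0 + (A 0 1 * A 0 2 * A 1 0 * A 1 3 * A 1 3 +
      A 1 0 * A 1 3 * A 1 3 * A 2 0 * A 2 1) * q1 + (A 1 0 * A 1 2 * A 1 3 * A 2 0 * A 2 3) * q2 +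
      (-(A 0 2 * A 0 3 * A 1 0 * A 1 3 * A 1 3) - A 1 0 * A 1 3 * A 1 3 * A 2 0 * A 2 3) * q3 +
      (-(A 0 2 * A 1 0 * A 1 3 * A 3 2)) * h
  · ring
  · linear_combination
      (A 0 1 * A 0 2 * A 3 0 * A 3 0 * A 3 1) * q0 + (-(A 0 1 * A 0 1 * A 0 2 * A 0 3 * A 3 1) -
      A 0 1 * A 0 2 * A 1 0 * A 1 3 * A 3 1 - A 0 1 * A 0 2 * A 3 0 * A 3 1 * A 3 1 - A 0 1 *
      A 0 3 * A 1 0 * A 1 2 * A 3 1 - A 1 0 * A 1 0 * A 1 2 * A 1 3 * A 3 1) * q1 + (A 0 1 *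
      A 0 1 * A 0 2 * A 0 3 * A 3 2 + A 0 1 * A 0 2 * A 0 2 * A 0 3 * A 3 1 + A 0 1 * A 0 2 *
      A 1 0 * A 1 3 * A 3 2 - A 0 1 * A 0 2 * A 1 2 * A 1 3 * A 3 0 + A 0 1 * A 0 2 * A 2 0 *
      A 2 3 * A 3 1 + A 0 1 * A 0 3 * A 1 0 * A 1 2 * A 3 2 + A 0 1 * A 0 3 * A 2 0 * A 2 1 *
      A 3 2 + A 1 0 * A 1 0 * A 1 2 * A 1 3 * A 3 2 + A 1 0 * A 1 2 * A 2 0 * A 2 3 * A 3 1 +
      A 1 0 * A 1 3 * A 2 0 * A 2 1 * A 3 2) * q2 + (-(A 0 1 * A 0 1 * A 0 3 * A 0 3 * A 3 2) - 2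
      * A 0 1 * A 0 3 * A 1 0 * A 1 3 * A 3 2 - A 1 0 * A 1 0 * A 1 3 * A 1 3 * A 3 2) * q3 +
      (A 0 1 * A 0 2 * A 0 3 * A 1 2 + A 0 2 * A 1 0 * A 1 2 * A 1 3) * h

lemma atk_w3 (hq : ∀ m, quadQ A m = 0) (h : nuM A 3 = 0) (i : Fin 4) :
    atk A (wv (muM A) 3) i = 0 := by
  have q0 := hq 0
  have q1 := hq 1
  have q2 := hq 2
  have q3 := hq 3
  simp only [qd0, qd1, qd2, qd3, nu3] at q0 q1 q2 q3 h
  rcases f4 i with rfl | rfl | rfl | rfl <;>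
    simp only [at0, at1, at2, at3, wv, v4_3, v6_0, v6_1, v6_2, v6_3, v6_4, v6_5,
      mu0, mu1, mu2, mu3, nu0, nu1, nu2, nu3]
  · linear_combination
      (A 0 1 * A 0 2 * A 0 3 * A 1 0 * A 1 2 + A 0 1 * A 0 2 * A 0 3 * A 2 0 * A 2 1) * q0 +
      (A 0 1 * A 0 1 * A 0 2 * A 1 2 * A 1 3) * q1 + (A 0 1 * A 0 2 * A 0 2 * A 2 1 * A 2 3) * q2
      + (-(A 0 1 * A 0 2 * A 0 3 * A 1 2 * A 1 3) - A 0 1 * A 0 2 * A 0 3 * A 2 1 * A 2 3) * q3 +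
      (-(A 0 1 * A 0 2 * A 1 3 * A 2 3)) * h
  · linear_combination
      (A 0 2 * A 0 3 * A 1 0 * A 1 0 * A 1 2) * q0 + (A 0 1 * A 0 2 * A 1 0 * A 1 2 * A 1 3 +
      A 1 0 * A 1 2 * A 1 3 * A 2 0 * A 2 1) * q1 + (A 1 0 * A 1 2 * A 1 2 * A 2 0 * A 2 3) * q2 +
      (-(A 0 2 * A 0 3 * A 1 0 * A 1 2 * A 1 3) - A 1 0 * A 1 2 * A 1 3 * A 2 0 * A 2 3) * q3 +
      (-(A 0 3 * A 1 0 * A 1 2 * A 2 3)) * h
  · linear_combination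
      (A 0 1 * A 0 3 * A 2 0 * A 2 0 * A 2 1) * q0 + (A 1 0 * A 1 3 * A 2 0 * A 2 1 * A 2 1) * q1
      + (A 0 1 * A 0 2 * A 2 0 * A 2 1 * A 2 3 + A 1 0 * A 1 2 * A 2 0 * A 2 1 * A 2 3) * q2 +
      (-(A 0 1 * A 0 3 * A 1 2 * A 1 3 * A 2 0) - A 0 1 * A 0 3 * A 2 0 * A 2 1 * A 2 3 - A 0 2 *
      A 0 3 * A 1 0 * A 1 3 * A 2 1 - A 1 0 * A 1 3 * A 2 0 * A 2 1 * A 2 3) * q3 + (A 0 1 *
      A 0 2 * A 0 3 * A 1 3 + A 0 3 * A 1 0 * A 1 2 * A 1 3) * h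
  · ring

lemma atk_w (hq : ∀ m, quadQ A m = 0) {m : Fin 4} (h : nuM A m = 0) (i : Fin 4) :
    atk A (wv (muM A) m) i = 0 := by
  rcases f4 m with rfl | rfl | rfl | rfl
  exacts [atk_w0 hq h i, atk_w1 hq h i, atk_w2 hq h i, atk_w3 hq h i]

lemma cmp_eq (E : Fin 6 → R) (ka : Fin 4 → R) (m : Fin 4) :
    cmp A E ka m = dot6 (wv (muM A) m) E + ka m * nhM A m := by
  rcases f4 m with rfl | rfl | rfl | rfl
  · change muM A 3 * E 3 + muM A 2 * E 4 + muM A 1 * E 5 + _ = _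
    simp only [dot6, wv, v4_0, v6_0, v6_1, v6_2, v6_3, v6_4, v6_5]
    ring
  · change muM A 3 * E 1 + muM A 2 * E 2 + muM A 0 * E 5 + _ = _
    simp only [dot6, wv, v4_1, v6_0, v6_1, v6_2, v6_3, v6_4, v6_5]
    ring
  · change muM A 3 * E 0 + muM A 1 * E 2 + muM A 0 * E 4 + _ = _
    simp only [dot6, wv, v4_2, v6_0, v6_1, v6_2, v6_3, v6_4, v6_5]
    ring
  · change muM A 2 * E 0 + muM A 1 * E 1 + muM A 0 * E 3 + _ = _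
    simp only [dot6, wv, v4_3, v6_0, v6_1, v6_2, v6_3, v6_4, v6_5]
    ring

lemma cay_eq (μ : Fin 4 → R) {m : Fin 4} (h : μ m = 0) (b : Fin 20) :
    cay μ b = qlc (wv μ m) (Pi.single m 1) b := by
  rcases f4 m with rfl | rfl | rfl | rfl <;> fin_cases b <;> simp [cay, qlc, wv, h]

lemma qlc_lin (k0 k1 w : Fin 6 → R) (n n0 n1 : Fin 4 → R) (α β c : R)
    (hw : ∀ q, w q = α * k0 q + β * k1 q) (h0 : ∀ l, n0 l = α * c * n l)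
    (h1 : ∀ l, n1 l = -(β * c) * n l) (b : Fin 20) :
    qlc k0 n0 b - qlc k1 n1 b - c * qlc w n b = 0 := by
  fin_cases b <;> simp only [qlc, hw, h0, h1, Nat.cast_zero] <;> ring

lemma nh_zero {l m : Fin 4} (h : nuM A m = 0) (hl : l ≠ m) : nhM A l = 0 := by
  rcases f4 m with rfl | rfl | rfl | rfl <;> rcases f4 l with rfl | rfl | rfl | rfl <;>
    first | exact absurd rfl hl | simp only [nh0, nh1, nh2, nh3, h, mul_zero, zero_mul]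

lemma nu_mul (z : Fin 4 → R) (h : ∀ q, az A z q = 0) (l : Fin 4) : nuM A l * z (c1 l) = 0 := by
  have h0 := h 0
  have h1 := h 1
  have h2 := h 2
  have h3 := h 3
  have h4 := h 4
  have h5 := h 5
  simp only [az0, az1, az2, az3, az4, az5] at h0 h1 h2 h3 h4 h5
  rcases f4 l with rfl | rfl | rfl | rfl
  · change _ * z 1 = 0
    rw [nu0]
    linear_combination A 2 3 * A 3 1 * h3 + A 3 2 * A 2 1 * h4 - A 2 1 * A 3 1 * h5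
  · change _ * z 0 = 0
    rw [nu1]
    linear_combination A 2 3 * A 3 0 * h1 + A 3 2 * A 2 0 * h2 - A 2 0 * A 3 0 * h5
  · change _ * z 0 = 0
    rw [nu2]
    linear_combination A 1 3 * A 3 0 * h0 + A 3 1 * A 1 0 * h2 - A 1 0 * A 3 0 * h4
  · change _ * z 0 = 0
    rw [nu3]
    linear_combination A 1 2 * A 2 0 * h0 + A 2 1 * A 1 0 * h1 - A 1 0 * A 2 0 * h3

end ker

section fld

variable {K : Type} [Field K] {A : Fin 4 → Fin 4 → K}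

lemma az_inj (hA : ∀ i j, i ≠ j → A i j ≠ 0) {l : Fin 4} (hl : nuM A l ≠ 0) (z : Fin 4 → K)
    (h : ∀ q, az A z q = 0) : z = 0 := by
  have h0 := h 0
  have h1 := h 1
  have h2 := h 2
  simp only [az0, az1, az2] at h0 h1 h2
  have z0 : z 0 = 0 := by
    have k := (mul_eq_zero.1 (nu_mul z h l)).resolve_left hl
    rcases f4 l with rfl | rfl | rfl | rfl
    · change z 1 = 0 at k
      rw [k, mul_zero, add_zero] at h0
      exact (mul_eq_zero.1 h0).resolve_left (hA _ _ (by decide))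
    all_goals exact k
  rw [z0, mul_zero, zero_add] at h0 h1 h2
  funext i
  rcases f4 i with rfl | rfl | rfl | rfl
  · exact z0
  · exact (mul_eq_zero.1 h0).resolve_left (hA _ _ (by decide))
  · exact (mul_eq_zero.1 h1).resolve_left (hA _ _ (by decide))
  · exact (mul_eq_zero.1 h2).resolve_left (hA _ _ (by decide))

lemma dot6_eq (k w : Fin 6 → K) : dot6 k w = k ⬝ᵥ w := by
  simp only [dot6, dotProduct, Fin.sum_univ_six]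

lemma solve2 {a b c d : K} (h : a * d - b * c ≠ 0) (x y : K) :
    ∃ s t, a * s + b * t = x ∧ c * s + d * t = y :=
  ⟨(x * d - y * b) / (a * d - b * c), (y * a - x * c) / (a * d - b * c),
    by rw [← mul_div_assoc, ← mul_div_assoc, ← add_div, div_eq_iff h]; ring,
    by rw [← mul_div_assoc, ← mul_div_assoc, ← add_div, div_eq_iff h]; ring⟩

/-- The matrix as a linear map. -/
def azL (A : Fin 4 → Fin 4 → K) : (Fin 4 → K) →ₗ[K] Fin 6 → K where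
  toFun z := az A z
  map_add' z z' := funext fun q => by simp only [az, Pi.add_apply]; ring
  map_smul' c z := funext fun q => by
    simp only [az, Pi.smul_apply, smul_eq_mul, RingHom.id_apply]; ring

/-- The two linear forms. -/
def dL (k0 k1 : Fin 6 → K) : (Fin 6 → K) →ₗ[K] K × K where
  toFun w := (k0 ⬝ᵥ w, k1 ⬝ᵥ w)
  map_add' w w' := by simp only [dotProduct_add, Prod.mk_add_mk]
  map_smul' c w := by simp only [dotProduct_smul, RingHom.id_apply, Prod.smul_mk]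

end fld

end DT0

open DT0 in
theorem thm_LAK : S_LAK := by
  intro K _ A k0 k1 h0 h1 ⟨p, q, hd⟩ hz
  have inj : Function.Injective (azL A) :=
    (injective_iff_map_eq_zero _).2 fun z e => hz z (congrFun e)
  have sur : Function.Surjective (dL k0 k1) := by
    rintro ⟨x, y⟩
    obtain ⟨s, t, e1, e2⟩ := solve2 hd x y
    refine ⟨Pi.single p s + Pi.single q t, ?_⟩
    change (k0 ⬝ᵥ _, k1 ⬝ᵥ _) = _
    simp only [dotProduct_add, dotProduct_single, e1, e2]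
  have le : LinearMap.range (azL A) ≤ LinearMap.ker (dL k0 k1) := by
    rintro _ ⟨z, rfl⟩
    change (k0 ⬝ᵥ az A z, k1 ⬝ᵥ az A z) = 0
    simp only [← dot6_eq, dot_az, h0, h1, mul_zero, add_zero, Prod.mk_zero_zero]
  have r1 := LinearMap.finrank_range_of_inj inj
  have r2 := (dL k0 k1).finrank_range_add_finrank_ker
  rw [LinearMap.range_eq_top.2 sur, finrank_top] at r2
  simp only [Module.finrank_prod, Module.finrank_self, Module.finrank_fintype_fun_eq_card,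
    Fintype.card_fin] at r1 r2
  have eq := Submodule.eq_of_le_of_finrank_eq le (by omega)
  have key : ∀ w, dot6 k0 w = 0 → dot6 k1 w = 0 → ∃ z, ∀ q, w q = az A z q := by
    intro w a b
    have m : w ∈ LinearMap.ker (dL k0 k1) := by
      change (k0 ⬝ᵥ w, k1 ⬝ᵥ w) = 0
      rw [← dot6_eq, ← dot6_eq, a, b, Prod.mk_zero_zero]
    obtain ⟨z, e⟩ := eq.ge m
    exact ⟨z, fun q => (congrFun e q).symm⟩
  refine ⟨key, fun k hk => ?_⟩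
  obtain ⟨s, t, e1, e2⟩ := solve2 (a := k0 p) (b := k1 p) (c := k0 q) (d := k1 q)
    (by rwa [mul_comm (k1 p)]) (k p) (k q)
  refine ⟨s, t, fun r => ?_⟩
  obtain ⟨α, β, e3, e4⟩ := solve2 hd (-k0 r) (-k1 r)
  obtain ⟨z, e⟩ := key (Pi.single r 1 + (Pi.single p α + Pi.single q β))
    (by simp only [dot6_eq, dotProduct_add, dotProduct_single, e3]; ring)
    (by simp only [dot6_eq, dotProduct_add, dotProduct_single, e4]; ring)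
  have e5 := dot_az A k z
  rw [← funext e] at e5
  simp only [dot6_eq, dotProduct_add, dotProduct_single, hk, mul_zero, add_zero] at e5
  linear_combination e5 + α * e1 + β * e2 - s * e3 - t * e4

open DT0 in
theorem thm_DT0 : S_DT0 := by
  intro X u hR hE hO s t b
  have R : RelA X (af (u 0)) := hR ℂ (RingHom.id ℂ) (af (u 0))
  have hnu : nuA (tA X (af (u 0))) = 0 := R.nu.symm.trans (hE 0)
  have hA : ∀ i j, i ≠ j → tA X (af (u 0)) i j ≠ 0 := by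
    intro i j hij
    have := hO (.inl (i, j))
    have e : Nat.beq i.val j.val = false := by
      rw [← Bool.not_eq_true, Nat.beq_eq]
      exact fun e => hij (Fin.ext e)
    simpa only [B12O, Sum.elim_inl, e, cond_false] using this
  have hS : nhM (tA X (af (u 0))) 0 + nhM (tA X (af (u 0))) 1 + nhM (tA X (af (u 0))) 2 +
      nhM (tA X (af (u 0))) 3 ≠ 0 := hO (.inr ())
  obtain ⟨m, hm⟩ : ∃ m, nuM (tA X (af (u 0))) m = 0 := by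
    simp only [nuA, mul_eq_zero] at hnu
    rcases hnu with ((h | h) | h) | h <;> exact ⟨_, h⟩
  obtain ⟨l, hl⟩ : ∃ l, nuM (tA X (af (u 0))) l ≠ 0 := by
    by_contra h
    push Not at h
    exact hS (by simp only [nhM, h, mul_zero, add_zero])
  have hk : ∃ p q, (Pen.of X).kk 0 (af (u 0)) p * (Pen.of X).kk 1 (af (u 0)) q -
      (Pen.of X).kk 0 (af (u 0)) q * (Pen.of X).kk 1 (af (u 0)) p ≠ 0 := by
    by_contra h
    push Not at h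
    have := R.bz (af_0 _)
    simp only [kmin, h, mul_zero, add_zero] at this
    exact zero_ne_one this
  obtain ⟨α, β, hw⟩ := (thm_LAK ℂ _ _ _ (R.kk 0) (R.kk 1) hk (az_inj hA hl)).2 _ (atk_w R.qq hm)
  have hn : ∀ s l, (Pen.of X).nn s (af (u 0)) l =
      -(α * (Pen.of X).ff s 0 (af (u 0)) + β * (Pen.of X).ff s 1 (af (u 0))) *
        (Pi.single m 1 : Fin 4 → ℂ) l := by
    intro s l
    rw [Pen.nn, R.nh]
    by_cases e : l = m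
    · subst e
      have c := R.cp s l
      rw [hm, zero_mul, cmp_eq] at c
      rw [Pi.single_eq_same, R.ff, R.ff]
      simp only [dot6, hw] at c ⊢
      linear_combination c
    · rw [nh_zero hm e, Pi.single_eq_of_ne e, mul_zero, mul_zero]
  have hg : (Pen.of X).gc (af (u 0)) b =
      qlc (wv (muM (tA X (af (u 0)))) m) (Pi.single m 1) b := by
    rw [Pen.gc, funext R.mu]
    exact cay_eq _ (by rw [muM, hm, mul_zero]) b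
  rw [Pen.dt, hg]
  refine qlc_lin _ _ _ _ _ _ α β _ hw (fun l => ?_) (fun l => ?_) b <;>
    simp only [Pen.pi, Pen.be, hn] <;> ring

end Pool.Agent.P.MP_7ebcb6_ag.SC
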