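import Pool.Agent.P.MP_7ebcb6_ag.SC.St2

/-! Identities between the forms attached to four members of the family. -/

namespace Pool.Agent.P.MP_7ebcb6_ag.SC

namespace Idn

variable {R : Type} [CommRing R]

lemma qlc_left (a b : R) (k k' : Fin 6 → R) (n : Fin 4 → R) (i : Fin 20) :
    qlc (fun p => a * k p - b * k' p) n i = a * qlc k n i - b * qlc k' n i := by
  fin_cases i <;> simp only [qlc, Nat.cast_zero] <;> ring

lemma qlc_right (a b : R) (k : Fin 6 → R) (n n' : Fin 4 → R) (i : Fin 20) :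
    qlc k (fun m => a * n m - b * n' m) i = a * qlc k n i - b * qlc k n' i := by
  fin_cases i <;> simp only [qlc, Nat.cast_zero] <;> ring

lemma qlc_smul (a b : R) (k : Fin 6 → R) (n : Fin 4 → R) (i : Fin 20) :
    qlc (fun p => a * k p) (fun m => b * n m) i = a * b * qlc k n i := by
  fin_cases i <;> simp only [qlc, Nat.cast_zero] <;> ring

lemma cay_smul (a : R) (m : Fin 4 → R) (i : Fin 20) :
    cay (fun j => a * m j) i = a * cay m i := by
  fin_cases i <;> simp only [cay, Nat.cast_zero, mul_zero]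

lemma tri_smul (a : R) (g : Fin 20 → R) (x y z : Fin 4 → R) :
    tri (fun b => a * g b) x y z = a * tri g x y z := by
  simp only [tri]; ring

lemma tri_add (a : R) (g g' : Fin 20 → R) (x y z : Fin 4 → R) :
    tri (fun b => g b + a * g' b) x y z = tri g x y z + a * tri g' x y z := by
  simp only [tri]; ring

lemma tri_sub (a : R) (g g' g'' : Fin 20 → R) (x y z : Fin 4 → R) :
    tri (fun b => g b - g' b - a * g'' b) x y z =
      tri g x y z - tri g' x y z - a * tri g'' x y z := by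
  simp only [tri]; ring

lemma dot_pi (P : Pen R) (s t : Fin 4) (a : Fin 2) (U : Fin 2 → R) (Y : Fin 4 → R) :
    dot (P.pi s t a U) Y = P.ff s a U * dot (P.nn t U) Y - P.ff t a U * dot (P.nn s U) Y := by
  simp only [dot, Pen.pi]; ring

lemma qb_ks (P : Pen R) (U : Fin 2 → R) (Y : Fin 4 → R) :
    qb (P.ks U) Y Y = P.ff 0 1 U * qb (P.kk 0 U) Y Y - P.ff 0 0 U * qb (P.kk 1 U) Y Y := by
  simp only [qb, Pen.ks]; ring

/-- The determinant of three rows. -/
def D (P : Pen R) (U : Fin 2 → R) (Y : Fin 4 → R) (s t : Fin 4) : R :=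
  det3 (3 * qb (P.kk 0 U) Y Y) (3 * qb (P.kk 1 U) Y Y) (-tri (P.gc U) Y Y Y)
    (P.ff s 0 U) (P.ff s 1 U) (dot (P.nn s U) Y) (P.ff t 0 U) (P.ff t 1 U) (dot (P.nn t U) Y)

lemma tri_dt (P : Pen R) (U : Fin 2 → R) (Y : Fin 4 → R) (s t : Fin 4) :
    tri (P.dt s t U) Y Y Y = D P U Y s t := by
  unfold Pen.dt
  rw [tri_sub, tri_qlc, tri_qlc, dot_pi, dot_pi]
  simp only [D, det3, Pen.be]
  ring

lemma nu_tri {K : Type} [Field K] {P : Pen K} (h : P.Id) (φ : K →+* R) (U : Fin 2 → R)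
    (Y : Fin 4 → R) (p : Fin 6) :
    (P.map φ).nuv U * tri ((P.map φ).gg p U) Y Y Y = D (P.map φ) U Y (p1 p) (p2 p) := by
  rw [← tri_dt, ← tri_smul, funext (h.eq R φ U p)]

end Idn

open Idn

theorem thm_IDF : S_IDF := by
  intro R _ P U h b
  have e1 : qlc (P.ks U) (P.Pl U) b = _ := qlc_left _ _ _ _ _ b
  have e2 : ∀ k a, qlc k (P.pi 0 1 a U) b = _ := fun k a => qlc_right _ _ k _ _ b
  rw [mul_assoc, h, e1]
  simp only [Pen.dt, Pen.Pl, Pen.cs, Pen.B, Pen.be, e2]
  ring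

theorem thm_ON : S_ON := by
  intro X h U Y hB hf hk hG
  have e := nu_tri h ct U Y 0
  rw [show (PO X).gg 0 U = (PO X).G U from rfl, hG, mul_zero] at e
  rw [qb_ks] at hk
  change 0 = D (PO X) U Y 0 1 at e
  simp only [D, det3] at e
  simp only [Pen.B, Pen.be] at hB
  obtain ⟨t, ht⟩ : ∃ t, qb ((PO X).kk 0 U) Y Y = 2 * t * (PO X).ff 0 0 U :=
    ⟨qb ((PO X).kk 0 U) Y Y / (2 * (PO X).ff 0 0 U), by field_simp⟩
  have ht1 : qb ((PO X).kk 1 U) Y Y = 2 * t * (PO X).ff 0 1 U := by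
    apply mul_left_cancel₀ hf
    linear_combination (PO X).ff 0 1 U * ht - hk
  refine ⟨t, Fin.forall_fin_two.2 ⟨ht, ht1⟩, mul_left_cancel₀ hB ?_⟩
  rw [ht, ht1] at e
  linear_combination e

theorem thm_HOM : S_HOM := by
  intro R _ P c U
  have hk : ∀ a, (P.kk a fun i => c * U i) = fun b => c ^ 2 * P.kk a U b := fun a =>
    funext fun b => bf_smul _ _ _ _
  have hf : ∀ s a, (P.ff s a fun i => c * U i) = c ^ 5 * P.ff s a U := fun s a =>
    bf_smul _ _ _ _
  have hn : ∀ s, (P.nn s fun i => c * U i) = fun m => c ^ 9 * P.nn s U m := fun s =>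
    funext fun m => by simp only [Pen.nn, bf_smul]; ring
  have hg : ∀ b, (P.gc (fun i => c * U i)) b = c ^ 6 * P.gc U b := fun b => by
    simp only [Pen.gc, bf_smul, cay_smul]
  refine ⟨funext fun b => bf_smul 4 (P.g 0 b) c U, funext fun b => ?_, funext fun b => ?_,
    funext fun b => ?_, ?_, bf_smul _ _ _ _, hf, hk⟩
  · simp only [Pen.ks, hk, hf]; ring
  · simp only [Pen.cs, hk, hf, hn, hg, qlc_smul]; ring
  · simp only [Pen.Pl, Pen.pi, hf, hn]; ring
  · simp only [Pen.B, Pen.be, hf]; ring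

theorem thm_PLK : S_PLK := by
  intro K _ P h A _ φ U Y
  let X : Fin 2 ⊕ Fin 4 → MvPolynomial (Fin 2 ⊕ Fin 4) K := MvPolynomial.X
  let Q := P.map (MvPolynomial.C : K →+* MvPolynomial (Fin 2 ⊕ Fin 4) K)
  let T : Fin 6 → MvPolynomial (Fin 2 ⊕ Fin 4) K := fun p =>
    tri (Q.gg p fun i => X (.inl i)) (fun i => X (.inr i)) (fun i => X (.inr i)) fun i => X (.inr i)
  have hnu : (Q.nuv fun i => X (.inl i)) ≠ 0 := by
    obtain ⟨V, hV⟩ := h.ne
    intro e
    have := (hom_ringHom (MvPolynomial.eval (Sum.elim V fun _ => (0 : K)))).nuv Q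
      fun i => X (.inl i)
    rw [e, map_zero, Pen.map_map] at this
    simp only [X, MvPolynomial.eval_C, MvPolynomial.eval_X, Sum.elim_inl] at this
    exact hV this.symm
  have key : T 0 * T 5 - T 1 * T 4 + T 2 * T 3 = 0 := by
    apply mul_left_cancel₀ (mul_ne_zero hnu hnu)
    have e := nu_tri h (MvPolynomial.C : K →+* MvPolynomial (Fin 2 ⊕ Fin 4) K)
      (fun i => X (.inl i)) fun i => X (.inr i)
    have e' : ∀ p q, (Q.nuv fun i => X (.inl i)) * (Q.nuv fun i => X (.inl i)) * (T p * T q) = _ :=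
      fun p q => by rw [mul_mul_mul_comm, e, e]
    rw [mul_add, mul_sub, e', e', e']
    simp only [p1, p2, v6_0, v6_1, v6_2, v6_3, v6_4, v6_5, D, det3]
    ring
  have hm : ∀ p, MvPolynomial.eval₂Hom φ (Sum.elim U Y) (T p) = tri ((P.map φ).gg p U) Y Y Y := by
    intro p
    have H := hom_ringHom (MvPolynomial.eval₂Hom φ (Sum.elim U Y))
    simp only [T, H.tri, H.gg, Q, Pen.map_map, X, MvPolynomial.eval₂Hom_C,
      MvPolynomial.eval₂Hom_X', Sum.elim_inl, Sum.elim_inr]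
  have := congrArg (MvPolynomial.eval₂Hom φ (Sum.elim U Y)) key
  simpa only [map_add, map_sub, map_mul, map_zero, hm] using this

theorem thm_E2 : S_E2 := by
  intro X h τ U Y hd hg
  have e := nu_tri h ct U Y
  have g0 : tri ((PO X).gg 0 U) Y Y Y = 0 := hg 0
  have g1 := (tri_add τ ((PO X).gg 3 U) ((PO X).gg 1 U) Y Y Y).symm.trans (hg 1)
  have g2 := (tri_add τ ((PO X).gg 4 U) ((PO X).gg 2 U) Y Y Y).symm.trans (hg 2)
  have d0 : D (PO X) U Y 0 1 = 0 := (e 0).symm.trans (by rw [g0, mul_zero])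
  have d1 : D (PO X) U Y 1 2 + τ * D (PO X) U Y 0 2 = 0 := by
    have a := e 3
    have b := e 1
    change _ = D (PO X) U Y 1 2 at a
    change _ = D (PO X) U Y 0 2 at b
    linear_combination (PO X).nuv U * g1 - a - τ * b
  have d2 : D (PO X) U Y 1 3 + τ * D (PO X) U Y 0 3 = 0 := by
    have a := e 4
    have b := e 2
    change _ = D (PO X) U Y 1 3 at a
    change _ = D (PO X) U Y 0 3 at b
    linear_combination (PO X).nuv U * g2 - a - τ * b
  apply mul_left_cancel₀ (mul_ne_zero (three_ne_zero (α := Om)) hd)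
  simp only [D, det3] at d0 d1 d2
  simp only [Pen.d023, det3, qT]
  linear_combination
    -((PO X).ff 2 0 U * (PO X).ff 3 1 U - (PO X).ff 2 1 U * (PO X).ff 3 0 U) * d0
    - ((PO X).ff 0 0 U * (PO X).ff 3 1 U - (PO X).ff 0 1 U * (PO X).ff 3 0 U) * d1
    + ((PO X).ff 0 0 U * (PO X).ff 2 1 U - (PO X).ff 0 1 U * (PO X).ff 2 0 U) * d2

end Pool.Agent.P.MP_7ebcb6_ag.SC
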