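import Pool.Agent.P.MP_7ebcb6_ag.SC.St3

/-! The class function of a projective model, modulo the exceptional points. -/

open scoped LinearAlgebra.Projectivization

namespace Pool.Agent.P.MP_7ebcb6_ag.SC

open G8 MvPolynomial

noncomputable section

namespace T

variable {n : ℕ}

/-- Cycles with a multiple rationally equivalent to a cycle supported on `E`. -/
def satE (X : Set (ℙ ℂ (Fin (n + 1) → ℂ))) (E : ℙ ℂ (Fin (n + 1) → ℂ) → Prop) :
    AddSubgroup (X →₀ ℤ) where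
  carrier := {D | ∃ (k : ℕ) (D' : X →₀ ℤ), 0 < k ∧ (∀ x ∈ D'.support, E x) ∧
    k • D - D' ∈ ratTrivial X}
  zero_mem' := ⟨1, 0, one_pos, by simp, by simp⟩
  add_mem' := by
    classical
    rintro a b ⟨k, A, hk, hA, ha⟩ ⟨l, B, hl, hB, hb⟩
    refine ⟨k * l, l • A + k • B, Nat.mul_pos hk hl, fun x hx => ?_, ?_⟩
    · rcases Finset.mem_union.mp (Finsupp.support_add hx) with h | h
      · exact hA x (Finsupp.support_smul h)
      · exact hB x (Finsupp.support_smul h)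
    · have : (k * l) • (a + b) - (l • A + k • B) = l • (k • a - A) + k • (l • b - B) := by module
      rw [this]
      exact add_mem (nsmul_mem ha l) (nsmul_mem hb k)
  neg_mem' := by
    rintro a ⟨k, A, hk, hA, ha⟩
    refine ⟨k, -A, hk, fun x hx => hA x (Finsupp.support_neg A ▸ hx), ?_⟩
    rw [smul_neg, ← neg_sub']
    exact neg_mem ha

/-- Zero-cycles modulo rational equivalence, torsion and cycles on `E`. -/
abbrev CycE (X : Set (ℙ ℂ (Fin (n + 1) → ℂ))) (E : ℙ ℂ (Fin (n + 1) → ℂ) → Prop) : Type :=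
  (X →₀ ℤ) ⧸ satE X E

instance (X : Set (ℙ ℂ (Fin (n + 1) → ℂ))) (E : ℙ ℂ (Fin (n + 1) → ℂ) → Prop) :
    IsAddTorsionFree (CycE X E) where
  nsmul_right_injective k hk a b h := by
    obtain ⟨a, rfl⟩ := QuotientAddGroup.mk_surjective a
    obtain ⟨b, rfl⟩ := QuotientAddGroup.mk_surjective b
    have h' : ((k • a : X →₀ ℤ) : CycE X E) = (k • b : X →₀ ℤ) := h
    rw [QuotientAddGroup.eq] at h' ⊢
    obtain ⟨m, A, hm, hA, hx⟩ := h'
    refine ⟨m * k, A, Nat.mul_pos hm (Nat.pos_of_ne_zero hk), hA, ?_⟩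
    rw [mul_nsmul', nsmul_add, smul_neg]
    exact hx

/-- The projection from cycles modulo rational equivalence and torsion. -/
def toE (X : Set (ℙ ℂ (Fin (n + 1) → ℂ))) (E : ℙ ℂ (Fin (n + 1) → ℂ) → Prop) :
    Cyc X →+ CycE X E :=
  QuotientAddGroup.map _ _ (AddMonoidHom.id _) fun _ ⟨k, hk, h⟩ => ⟨k, 0, hk, by simp, by simpa⟩

lemma toE_eq_zero {X : Set (ℙ ℂ (Fin (n + 1) → ℂ))} {E : ℙ ℂ (Fin (n + 1) → ℂ) → Prop} {x : X}
    (h : E x) : toE X E (ptCl x) = 0 :=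
  (QuotientAddGroup.eq_zero_iff _).mpr ⟨1, Finsupp.single x 1, one_pos, fun y hy => by
    rw [Finset.mem_singleton.mp (Finsupp.support_single_subset hy)]; exact h, by simp⟩

lemma mem_satE {X : Set (ℙ ℂ (Fin (n + 1) → ℂ))} {E : ℙ ℂ (Fin (n + 1) → ℂ) → Prop}
    (h : ∀ x : X, toE X E (ptCl x) = 0) (D : X →₀ ℤ) : D ∈ satE X E := by
  induction D using Finsupp.induction_linear with
  | zero => exact zero_mem _
  | add a b ha hb => exact add_mem ha hb
  | single x k =>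
    have := zsmul_mem ((QuotientAddGroup.eq_zero_iff _).mp (h x)) k
    simpa using this

lemma isFam_map {M M' : Type} [AddCommGroup M] [AddCommGroup M'] (f : M →+ M') {γ : Sp → M}
    (h : IsFam γ) : IsFam fun sp => f (γ sp) := by
  obtain ⟨T, hT⟩ := h
  refine ⟨T, fun K hK hsub => ?_⟩
  obtain ⟨g, h1, h2⟩ := hT K hK hsub
  refine ⟨fun w => f (g w), fun sp w hw hl => congrArg f (h1 sp w hw hl), fun a S ha hS hS' => ?_⟩
  simp only [← map_zsmul, ← map_sum, h2 a S ha hS hS', map_zero]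

lemma eq_zero_of_hom {M : Type} [AddCommGroup M] [IsAddTorsionFree M] {m : M}
    (h : ∀ f : M →+ ℚ, f m = 0) : m = 0 := by
  by_contra hm
  obtain ⟨f, hf⟩ := (Module.Baer.of_divisible ℚ).extension_property_addMonoidHom
    (zmultiplesHom M m) (fun a b hab => by
      have : (a - b) • m = 0 := by
        rw [sub_smul]; exact sub_eq_zero.mpr hab
      exact sub_eq_zero.mp ((smul_eq_zero.mp this).resolve_right hm)) (Int.castAddHom ℚ)
  have := DFunLike.congr_fun hf 1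
  simp [h f] at this

lemma ae_exists {P : Sp → Prop} (h : ∀ᶠ sp in ae, P sp) : ∃ sp, P sp := by
  by_contra hn
  exact zero_ne_one (eq_of_ae (M := ℤ) IsFam.zero (β := 1)
    (h.mono fun sp hp => absurd ⟨sp, hp⟩ hn) (sec none))

lemma mk_eq_of_smul {v w : Fin (n + 1) → ℂ} (hv : v ≠ 0) (hw : w ≠ 0) {c : ℂ}
    (h : ∀ i, v i = c * w i) : Projectivization.mk ℂ v hv = Projectivization.mk ℂ w hw :=
  (Projectivization.mk_eq_mk_iff' ℂ v w hv hw).mpr ⟨c, funext fun i => (h i).symm⟩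

/-- The trivial place. -/
def idPl : Plc ℂ ℂ where
  G := (RingHom.fst ℂ ℂ).eqLocus (RingHom.snd ℂ ℂ)
  func := fun _ h => Eq.symm h
  val := fun a => Or.inl ⟨a, rfl⟩
  loc := fun _ _ h _ => congrArg Inv.inv h

lemma N_scale {A : Type} [CommRing A] [Algebra ℂ A] {F : MvPolynomial (Fin 2 ⊕ Fin 4) ℂ}
    {d : ℕ × ℕ} (hF : IsWeightedHomogeneous bideg F d) (a b : A) (U : Fin 2 → A) (Y : Fin 4 → A) :
    aeval (Sum.elim (fun i => a * U i) fun j => b * Y j) F
      = a ^ d.1 * b ^ d.2 * aeval (Sum.elim U Y) F := by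
  rw [← aeval_scale (fun k : ℕ × ℕ => a ^ k.1 * b ^ k.2) (by simp)
    (fun k l => by simp only [Prod.fst_add, Prod.snd_add, pow_add]; ring) hF]
  congr 2
  funext i
  cases i <;> simp [bideg]

lemma N_homog {F : MvPolynomial (Fin 2 ⊕ Fin 4) ℂ} {d : ℕ × ℕ}
    (hF : IsWeightedHomogeneous bideg F d) : F.IsHomogeneous (d.1 + d.2) := by
  intro m hm
  rw [← hF hm]
  simp only [Finsupp.weight_apply, Finsupp.sum, Prod.fst_sum, Prod.snd_sum,
    ← Finset.sum_add_distrib]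
  refine Finset.sum_congr rfl fun i _ => ?_
  cases i <;> simp [bideg]

lemma elim_eta (p : Pt) : Sum.elim p.U p.Y = p := funext fun i => by cases i <;> rfl

lemma eval_aeval {σ τ : Type} (v : τ → ℂ) (g : σ → MvPolynomial τ ℂ) (F : MvPolynomial σ ℂ) :
    eval v (aeval g F) = aeval (fun j => eval v (g j)) F := by
  rw [← aeval_eq_eval, ← AlgHom.comp_apply, comp_aeval]

lemma tends_form {sp : Sp} {k : ℕ} (c : Fin (k + 1) → ℂ) {U : V2 Om} {U' : V2 ℂ}
    (h : TV sp U U') : Tends sp.v (form (fun i => ct (c i)) U) (form c U') :=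
  Tends.sum _ fun i _ => (Tends.const (c i)).mul (((h 0).pow _).mul ((h 1).pow _))

section mem

variable {K L : Type} [Field K] [Field L] {G : Subring (K × L)} {A : Fin 4 → Fin 4 → K}
  {A' : Fin 4 → Fin 4 → L} (hA : ∀ i, MV G (A i) (A' i))

include hA

lemma mem_nuA : (nuA A, nuA A') ∈ G :=
  mem_of_el (nuA fun i => (hA i).el) ((homF _).nuA _) ((homS _).nuA _)

lemma mem_az {z : V4 K} {z' : V4 L} (hz : MV G z z') (q : Fin 6) : (az A z q, az A' z' q) ∈ G :=
  mem_of_el (az (fun i => (hA i).el) hz.el q) ((homF _).az _ _ q) ((homS _).az _ _ q)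

lemma mem_cayl {z : V4 K} {z' : V4 L} (hz : MV G z z') : (cayl A z, cayl A' z') ∈ G :=
  mem_of_el (cayl (fun i => (hA i).el) hz.el) ((homF _).cayl _ _) ((homS _).cayl _ _)

lemma mem_nfm {k z : V4 K} {k' z' : V4 L} (hk : MV G k k') (hz : MV G z z') :
    (nfm A k z, nfm A' k' z') ∈ G :=
  mem_of_el (nfm (fun i => (hA i).el) hk.el hz.el) ((homF _).nfm _ _ _) ((homS _).nfm _ _ _)

end mem

lemma exists_eq {K : Type} [Field K] {D : Member K} {U : V2 K} {Y : V4 K} (hOn : D.On U Y)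
    (hB : ¬ D.Bad U Y) : ∃ (t : K) (z : V4 K),
      (∀ q, Y (pa q) * Y (pb q) = az (lin D.a U) z q + t * D.E U q) ∧
        cayl (lin D.a U) Y + t * nfm (lin D.a U) D.ka Y = 0 := by
  obtain ⟨l, t, z, h0, h1, h2⟩ := hOn
  have hl : l ≠ 0 := by
    rintro rfl
    exact hB (Or.inr (Or.inr (Or.inr (Or.inr ⟨t, z, h0.resolve_left (by simp), fun q => by
      rw [← h1 q, zero_mul]⟩))))
  refine ⟨t / l, fun i => z i / l, fun q => ?_, ?_⟩
  · have := h1 q
    unfold az at this ⊢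
    field_simp
    linear_combination this
  · field_simp
    linear_combination h2

lemma vanish {D : Member ℂ} {U : V2 Om} {Y : V4 Om} (hOn : (D.map ct).On U Y)
    (hB : ¬ (D.map ct).Bad U Y) {F : MvPolynomial (Fin 2 ⊕ Fin 4) ℂ}
    (hF : ∀ p ∈ D.surface, eval p F = 0) : aeval (Sum.elim U Y) F = 0 := by
  obtain ⟨t, z, h1, h2⟩ := exists_eq hOn hB
  have hnu : nuA (lin (D.map ct).a U) ≠ 0 := fun h => hB (Or.inl h)
  by_contra hne
  obtain ⟨sp, hU, hY, hz, ht, hn, hf⟩ := ae_exists ((ae_tv U).and ((ae_tv Y).and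
    ((ae_tv z).and ((ae_tends t).and ((ae_lim_ne hnu).and (ae_lim_ne hne))))))
  generalize (fun i => lim sp (U i)) = U' at hU
  generalize (fun i => lim sp (Y i)) = Y' at hY
  generalize (fun i => lim sp (z i)) = z' at hz
  generalize lim sp t = t' at ht
  have hP : TV sp (Sum.elim U Y) (Sum.elim U' Y') := fun i => by
    cases i
    · exact hU _
    · exact hY _
  have hA : ∀ i, MV (spPl sp).G (lin (D.map ct).a U i) (lin D.a U' i) := fun i j =>
    mem_spPl.mpr (tends_form (D.a i j) hU)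
  have hE : ∀ q, Tends sp.v ((D.map ct).E U q) (D.E U' q) := fun q => tends_form (D.e q) hU
  have t1 := mem_spPl.mp (mem_nuA hA)
  have t2 := fun q => mem_spPl.mp (mem_az hA (fun i => mem_spPl.mpr (hz i)) q)
  have t3 := mem_spPl.mp (mem_cayl hA fun i => mem_spPl.mpr (hY i))
  have t4 := mem_spPl.mp (mem_nfm hA (k := (D.map ct).ka) (k' := D.ka)
    (fun i => mem_spPl.mpr (Tends.const _)) fun i => mem_spPl.mpr (hY i))
  rw [lim_eq t1] at hn
  exact hf ((lim_eq (Tends.mv_aeval hP F)).trans (hF _ ⟨hn, t', z', fun q =>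
    ((hY _).mul (hY _)).eq_of_eq ((t2 q).add (ht.mul (hE q))) (h1 q),
    (t3.add (ht.mul t4)).eq_zero h2⟩))

section model

variable (D : Member ℂ) (N : Fin (n + 1) → MvPolynomial (Fin 2 ⊕ Fin 4) ℂ)
  (R : Fin 2 × Fin 4 → MvPolynomial (Fin (n + 1)) ℂ)

/-- Good points. -/
def Gd (p : Pt) : Prop :=
  p ∈ D.surface ∧ ¬ D.Bad p.U p.Y ∧ Onto D.a p ∧ (fun i => eval p (N i)) ≠ 0

/-- The image of a good point. -/
def Gd.pt {D : Member ℂ} {N : Fin (n + 1) → MvPolynomial (Fin 2 ⊕ Fin 4) ℂ} {p : Pt}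
    (h : Gd D N p) : image D.surface N :=
  ⟨Projectivization.mk ℂ _ h.2.2.2, fun _ _ _ hZ => hZ _ ⟨p, h.1, h.2.2.2, rfl⟩⟩

/-- The affine coordinates. -/
def nrm (U : V2 ℂ) (Y : V4 ℂ) : Pt := Sum.elim (fun i => (U 0)⁻¹ * U i) fun i => (Y 0)⁻¹ * Y i

open Classical in
/-- The class of the image of a point. -/
def gam (U : V2 ℂ) (Y : V4 ℂ) : CycE (image D.surface N) (Exc D N R) :=
  if h : U 0 ≠ 0 ∧ Y 0 ≠ 0 ∧ Gd D N (nrm U Y) then toE _ _ (ptCl h.2.2.pt) else 0

variable {D N R} {d : ℕ × ℕ} {e : ℕ}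

lemma gam_smul (a b : ℂ) (U : V2 ℂ) (Y : V4 ℂ) (ha : a ≠ 0) (hb : b ≠ 0) :
    gam D N R (fun i => a * U i) (fun i => b * Y i) = gam D N R U Y := by
  have e : nrm (fun i => a * U i) (fun i => b * Y i) = nrm U Y := funext fun i => by
    cases i <;> simp only [nrm, Sum.elim_inl, Sum.elim_inr] <;> field_simp
  unfold gam
  by_cases h : U 0 ≠ 0 ∧ Y 0 ≠ 0 ∧ Gd D N (nrm U Y)
  · rw [dif_pos h, dif_pos ⟨mul_ne_zero ha h.1, mul_ne_zero hb h.2.1, e ▸ h.2.2⟩]
    exact congrArg _ (congrArg _ (Subtype.ext (by simp only [Gd.pt, e])))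
  · rw [dif_neg h, dif_neg fun h' =>
      h ⟨right_ne_zero_of_mul h'.1, right_ne_zero_of_mul h'.2.1, e ▸ h'.2.2⟩]

lemma gam_bad (hC : S_CLO) {U : V2 ℂ} {Y : V4 ℂ} (h : D.Bad U Y) : gam D N R U Y = 0 := by
  rw [gam, dif_neg]
  rintro ⟨hU, hY, hg⟩
  refine hg.2.1 ((hC ℂ ℂ idPl D D U Y _ _ ⟨fun _ _ _ => rfl, fun _ _ => rfl, fun _ => rfl⟩
    ⟨Function.ne_iff.mpr ⟨0, ?_⟩, (U 0)⁻¹, fun _ => rfl⟩
    ⟨Function.ne_iff.mpr ⟨0, ?_⟩, (Y 0)⁻¹, fun _ => rfl⟩).2 h)
  · exact mul_ne_zero (inv_ne_zero hU) hU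
  · exact mul_ne_zero (inv_ne_zero hY) hY

lemma gam_one {p : Pt} (hU : p.U 0 = 1) (hY : p.Y 0 = 1) (h : Gd D N p) :
    gam D N R p.U p.Y = toE _ _ (ptCl h.pt) := by
  have e : nrm p.U p.Y = p := funext fun i => by
    cases i <;> simp only [nrm, hU, hY, inv_one, one_mul, Sum.elim_inl, Sum.elim_inr]
  rw [gam, dif_pos ⟨by simp [hU], by simp [hY], e.symm ▸ h⟩]
  exact congrArg _ (congrArg _ (Subtype.ext (by simp only [Gd.pt, e])))

lemma gam_fam (hC : S_CLO) (hM : Model D N R d e) {U : V2 Om} {Y : V4 Om}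
    (hOn : (D.map ct).On U Y) : ∃ δ : Sp → CycE _ _, IsFam δ ∧
      ∀ sp U' Y', (spPl sp).Red U U' → (spPl sp).Red Y Y' → δ sp = gam D N R U' Y' := by
  by_cases hB : (D.map ct).Bad U Y
  · exact ⟨fun _ => 0, IsFam.zero, fun sp U' Y' hU hY => (gam_bad hC
      ((hC _ _ (spPl sp) (D.map ct) D U Y U' Y' ⟨fun _ _ _ => mem_spPl.mpr (Tends.const _),
        fun _ _ => mem_spPl.mpr (Tends.const _), fun _ => mem_spPl.mpr (Tends.const _)⟩
        hU hY).2 hB)).symm⟩
  have hlim : ∀ {sp : Sp} {U' : V2 ℂ} {Y' : V4 ℂ}, (spPl sp).Red U U' → (spPl sp).Red Y Y' →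
      ∃ c : Om, ∀ i, Tends sp.v (c * aeval (Sum.elim U Y) (N i)) (eval (nrm U' Y') (N i)) := by
    rintro sp U' Y' ⟨-, a, ha⟩ ⟨-, b, hb⟩
    refine ⟨(ct (U' 0)⁻¹ * a) ^ d.1 * (ct (Y' 0)⁻¹ * b) ^ d.2, fun i => ?_⟩
    rw [← N_scale (hM.hN i)]
    refine Tends.mv_aeval (fun j => ?_) (N i)
    cases j
    · exact ((Tends.const _).mul (mem_spPl.mp (ha _))).of_eq_left (mul_assoc _ _ _).symm
    · exact ((Tends.const _).mul (mem_spPl.mp (hb _))).of_eq_left (mul_assoc _ _ _).symm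
  by_cases h0 : (fun i => aeval (Sum.elim U Y) (N i)) = 0
  · refine ⟨fun _ => 0, IsFam.zero, fun sp U' Y' hU hY => ?_⟩
    obtain ⟨c, hc⟩ := hlim hU hY
    rw [gam, dif_neg fun hg => ?_]
    exact hg.2.2.2.2.2 (funext fun i => (hc i).eq_zero (by rw [congrFun h0 i]; simp))
  have hη : ∀ (F : MvPolynomial (Fin (n + 1)) ℂ) (k : ℕ), F.IsHomogeneous k →
      (∀ z ∈ {z | ∃ p ∈ D.surface, ∃ h : (fun i => eval p (N i)) ≠ 0,
        z = Projectivization.mk ℂ _ h}, eval z.rep F = 0) →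
      aeval (fun i => aeval (Sum.elim U Y) (N i)) F = 0 := by
    intro F k hF hZ
    obtain ⟨i, hi⟩ := Function.ne_iff.mp h0
    have := vanish hOn hB (F := N i * aeval N F) fun p hp => ?_
    · rw [map_mul, ← AlgHom.comp_apply, comp_aeval] at this
      exact (mul_eq_zero.mp this).resolve_left hi
    · rw [map_mul]
      by_cases h : (fun i => eval p (N i)) = 0
      · rw [congrFun h i, Pi.zero_apply, zero_mul]
      · obtain ⟨a, ha⟩ := Projectivization.exists_smul_eq_mk_rep ℂ _ h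
        have h1 := hZ _ ⟨p, hp, h, rfl⟩
        have h2 := aeval_smul_homog hF (a : ℂ) fun i => eval p (N i)
        rw [← ha] at h1
        have h3 : (a : ℂ) ^ k * aeval (fun i => eval p (N i)) F = 0 := h2.symm.trans h1
        rw [eval_aeval, (mul_eq_zero.mp h3).resolve_left (pow_ne_zero _ a.ne_zero), mul_zero]
  obtain ⟨γ0, hγ0, hval⟩ := exists_fam _ h0 hη
  refine ⟨fun sp => toE _ _ (γ0 sp), isFam_map _ hγ0, fun sp U' Y' hU hY => ?_⟩
  unfold gam
  split_ifs with hg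
  · obtain ⟨c, hc⟩ := hlim hU hY
    exact congrArg _ (hval sp hg.2.2.pt (hasVal_mk hg.2.2.2.2.2 hc))
  obtain ⟨r, hr, a, ha⟩ := (spPl sp).exists_red h0
  have hx := hasVal_mk hr ha
  refine (congrArg _ (hval sp ⟨_, hx.mem hη⟩ hx)).trans (toE_eq_zero fun q c hq0 hq1 hc hRq hq => ?_)
  obtain ⟨b, hb⟩ := hx
  obtain ⟨hU0, u, hu⟩ := hU
  obtain ⟨hY0, y, hy⟩ := hY
  have hmin : ∀ j k : Fin 2 × Fin 4,
      aeval (fun i => aeval (Sum.elim U Y) (N i)) (R j) * (U k.1 * Y k.2)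
        = aeval (fun i => aeval (Sum.elim U Y) (N i)) (R k) * (U j.1 * Y j.2) := by
    intro j k
    have := vanish hOn hB (F := aeval N (R j) * (X (.inl k.1) * X (.inr k.2))
      - aeval N (R k) * (X (.inl j.1) * X (.inr j.2))) fun p hp => ?_
    · rwa [map_sub, map_mul, map_mul, map_mul, map_mul, ← AlgHom.comp_apply,
        ← AlgHom.comp_apply _ (aeval N), comp_aeval, sub_eq_zero, aeval_X, aeval_X, aeval_X,
        aeval_X] at this
    · obtain ⟨t, ht⟩ := hM.inv p hp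
      simp only [map_sub, map_mul, eval_aeval, eval_X, aeval_eq_eval, ht, segre]
      ring
  have hlimR : ∀ j k : Fin 2 × Fin 4,
      Tends sp.v (b ^ e * aeval (fun i => aeval (Sum.elim U Y) (N i)) (R j)
        * (u * U k.1 * (y * Y k.2))) (c * segre q j * (U' k.1 * Y' k.2)) := fun j k => by
    rw [← hRq, ← aeval_smul_homog (hM.hR j)]
    exact (Tends.mv_aeval hb _).mul (Tends.mul (hu _) (hy _))
  have key : ∀ i j, q.U i * q.Y j * (U' 0 * Y' 0) = U' i * Y' j := fun i j => by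
    have := (hlimR (i, j) (0, 0)).eq_of_eq (hlimR (0, 0) (i, j))
      (by linear_combination b ^ e * u * y * hmin (i, j) (0, 0))
    simp only [segre, hq0, hq1, mul_one] at this
    exact mul_left_cancel₀ hc (by linear_combination this)
  obtain ⟨i, hi⟩ := Function.ne_iff.mp hU0
  obtain ⟨j, hj⟩ := Function.ne_iff.mp hY0
  have h00 : U' 0 * Y' 0 ≠ 0 := right_ne_zero_of_mul (key i j ▸ mul_ne_zero hi hj)
  have hu0 := left_ne_zero_of_mul h00
  have hy0 := right_ne_zero_of_mul h00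
  refine hg ⟨hu0, hy0, (?_ : q = nrm U' Y') ▸ hq⟩
  funext k
  cases k with
  | inl k =>
    have := key k 0
    rw [hq1] at this
    change q.U k = (U' 0)⁻¹ * U' k
    field_simp
    exact mul_right_cancel₀ hy0 (by linear_combination this)
  | inr k =>
    have := key 0 k
    rw [hq0] at this
    change q.Y k = (Y' 0)⁻¹ * Y' k
    field_simp
    exact mul_right_cancel₀ hu0 (by linear_combination this)

lemma eq_pt (hM : Model D N R d e) (x : image D.surface N) {q : Pt} {c : ℂ} (hq0 : q.U 0 = 1)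
    (hq1 : q.Y 0 = 1) (hc : c ≠ 0) (hRq : ∀ j, eval x.1.rep (R j) = c * segre q j)
    (hq : Gd D N q) : x = hq.pt := by
  let R' : Fin 2 ⊕ Fin 4 → MvPolynomial (Fin (n + 1)) ℂ :=
    Sum.elim (fun i => R (i, 0)) fun j => R (0, j)
  have hR' : ∀ k, (R' k).IsHomogeneous e := fun k => by cases k <;> exact hM.hR _
  have h4 : ∀ (v : Fin (n + 1) → ℂ) (p : Pt) (t : ℂ), (∀ j, eval v (R j) = t * segre p j) → ∀ i,
      eval v (aeval R' (N i)) = (t * p.Y 0) ^ d.1 * (t * p.U 0) ^ d.2 * eval p (N i) := by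
    intro v p t ht i
    have := N_scale (hM.hN i) (t * p.Y 0) (t * p.U 0) p.U p.Y
    rw [elim_eta] at this
    rw [eval_aeval, ← aeval_eq_eval p, ← this]
    congr 2
    funext k
    cases k <;> simp only [R', Sum.elim_inl, Sum.elim_inr, ht, segre] <;> ring
  obtain ⟨j, hj⟩ := Function.ne_iff.mp hq.2.2.2
  have hj' : eval q (N j) ≠ 0 := hj
  have key : ∀ i, x.1.rep i * eval q (N j) = x.1.rep j * eval q (N i) := by
    intro i
    have := x.2 (X i * aeval R' (N j) - X j * aeval R' (N i)) (1 + e * (d.1 + d.2))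
      (((isHomogeneous_X _ _).mul ((N_homog (hM.hN j)).aeval R' hR')).sub
        ((isHomogeneous_X _ _).mul ((N_homog (hM.hN i)).aeval R' hR'))) ?_
    · rw [map_sub, map_mul, map_mul, h4 _ q c hRq, h4 _ q c hRq, eval_X, eval_X, hq0, hq1,
        mul_one] at this
      exact mul_left_cancel₀ (mul_ne_zero (pow_ne_zero d.1 hc) (pow_ne_zero d.2 hc))
        (by linear_combination this)
    · rintro _ ⟨p, hp, h, rfl⟩
      obtain ⟨a, ha⟩ := Projectivization.exists_smul_eq_mk_rep ℂ _ h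
      obtain ⟨t, ht⟩ := hM.inv p hp
      have h5 : ∀ k, eval ((a : ℂ) • fun i => eval p (N i)) (R k) = a ^ e * t * segre p k :=
        fun k => by
          rw [mul_assoc, ← ht]
          exact aeval_smul_homog (hM.hR k) (a : ℂ) fun i => eval p (N i)
      rw [← ha, map_sub, map_mul, map_mul, Units.smul_def, h4 _ p _ h5, h4 _ p _ h5, eval_X,
        eval_X]
      simp only [Pi.smul_apply, smul_eq_mul]
      ring
  refine Subtype.ext ((x.1.mk_rep).symm.trans (mk_eq_of_smul _ _ (c := x.1.rep j / eval q (N j))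
    fun i => ?_))
  field_simp
  exact key i

end model

end T

open T in
theorem thm_T (hC : S_CLO) : S_T := by
  intro D n N R d e hM hZ Z
  refine mem_satE (X := image D.surface N) (E := Exc D N R) (fun x => ?_) Z
  by_cases hx : Exc D N R x.1
  · exact toE_eq_zero hx
  simp only [Exc, not_forall, not_not] at hx
  obtain ⟨q, c, hq0, hq1, hc, hRq, hq⟩ := hx
  rw [eq_pt hM x hq0 hq1 hc hRq hq, ← gam_one hq0 hq1 hq]
  refine eq_zero_of_hom fun f => hZ
    ⟨fun U Y => f (gam D N R U Y), fun a b U Y ha hb => congrArg f (gam_smul a b U Y ha hb),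
      fun U Y h => by rw [gam_bad hC h, map_zero], fun U Y _ _ hOn => ?_⟩
    q hq0 hq1 hq.1 hq.2.1 hq.2.2.1
  obtain ⟨δ, h1, h2⟩ := gam_fam hC hM hOn
  exact ⟨fun sp => f (δ sp), isFam_map f h1, fun sp U' Y' hU hY => congrArg f (h2 sp U' Y' hU hY)⟩

end

end Pool.Agent.P.MP_7ebcb6_ag.SC
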