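import Pool.Agent.P.MP_7ebcb6_ag.SC.St4
import Pool.Agent.P.MP_7ebcb6_ag.SC.Idn
import Pool.Agent.P.MP_7ebcb6_ag.SC.CH0
import Pool.Agent.P.MP_7ebcb6_ag.SC.DT0
import Pool.Agent.P.MP_7ebcb6_ag.SC.T

/-! A parametrisation of the member of the table by a hypersurface in affine three-space. -/

open scoped LinearAlgebra.Projectivization

namespace Pool.Agent.P.MP_7ebcb6_ag.SC

open G8 MvPolynomial

noncomputable section

namespace PAR

section ring

variable {R S : Type} [CommRing R] [CommRing S]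

/-- The form that vanishes at the points that are left out. -/
def hh (m : ℕ) (c : ℕ → R) (P : Pen R) (U : Fin 2 → R) (Y : Fin 4 → R) : R :=
  U 0 * bf m c U * P.B U * P.ff 0 0 U * P.nuv U
    * (P.ks U 0 * Y 1 + P.ks U 1 * Y 2 + P.ks U 2 * Y 3) * Y 1

/-- The point of the quadric over `(y, z)`. -/
def pY (k : Fin 6 → R) (y z : R) : Fin 4 → R :=
  v4 (-qQ k y z) (qL k y z) (qL k y z * y) (qL k y z * z)

lemma map_hh (f : R →+* S) (m : ℕ) (c : ℕ → R) (P : Pen R) (U : Fin 2 → R) (Y : Fin 4 → R) :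
    f (hh m c P U Y) = hh m (fun i => f (c i)) (P.map f) (fun i => f (U i)) fun i => f (Y i) := by
  have h := hom_ringHom f
  simp only [hh, map_mul, map_add, h.bf, h.B, h.ff, h.nuv, h.ks]

lemma map_pY (f : R →+* S) (k : Fin 6 → R) (y z : R) (i : Fin 4) :
    f (pY k y z i) = pY (fun i => f (k i)) (f y) (f z) i := by
  simp only [pY, app_v4 f, qQ, qL, map_neg, map_add, map_mul]

lemma map_quin (f : R →+* S) (k : Fin 6 → R) (g : Fin 20 → R) (y z : R) :
    f (quin k g y z) = quin (fun i => f (k i)) (fun i => f (g i)) (f y) (f z) := by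
  have h := hom_ringHom f
  simp only [quin, qL, qQ, qw, map_add, map_sub, map_mul, map_natCast, h.tri, h.ee, app_v4 f]

lemma qb_pY (k : Fin 6 → R) (y z : R) : qb k (pY k y z) (pY k y z) = 0 := by
  simp only [qb, pY, qL, qQ, v4_0, v4_1, v4_2, v4_3]
  ring

lemma tri_pY (k : Fin 6 → R) (g : Fin 20 → R) (y z : R) :
    tri g (pY k y z) (pY k y z) (pY k y z) = qL k y z * quin k g y z - qQ k y z ^ 3 * g 0 := by
  simp only [quin, pY]
  generalize qL k y z = L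
  generalize qQ k y z = Q
  simp [tri, qw, ee_eq]
  ring

lemma dt_zero (P : Pen R) (U : Fin 2 → R) : P.dt 0 1 U 0 = 0 := by
  simp [Pen.dt, Pen.gc, qlc, cay]

end ring

abbrev QQ : Type := MvPolynomial (Fin 2 ⊕ Fin 4) ℂ

lemma wbf (d : ℕ) (c : ℕ → ℂ) :
    IsWeightedHomogeneous bideg (bf d (fun i => (C (c i) : QQ)) fun i => X (.inl i)) (d, 0) := by
  rw [bf_eq]
  refine IsWeightedHomogeneous.sum _ _ _ fun i hi => ?_
  have h := (isWeightedHomogeneous_C bideg (c i)).mul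
    (((isWeightedHomogeneous_X ℂ bideg (.inl 0)).pow (d - i)).mul
      ((isWeightedHomogeneous_X ℂ bideg (.inl 1)).pow i))
  convert h using 1
  have := Finset.mem_range.mp hi
  simp only [bideg, Sum.elim_inl, Prod.smul_mk, smul_eq_mul, mul_one, mul_zero, Prod.mk_add_mk,
    add_zero, zero_add, Prod.mk.injEq, and_true]
  omega

lemma whh (m : ℕ) (c : ℕ → ℂ) (T : ℕ → ℂ) : IsWeightedHomogeneous bideg
    (hh m (fun i => (C (c i) : QQ)) (Pen.of fun i => C (T i)) (fun i => X (.inl i))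
      fun i => X (.inr i)) (m + 35, 2) := by
  have hf : ∀ s a, IsWeightedHomogeneous bideg
      ((Pen.of fun i => (C (T i) : QQ)).ff s a fun i => X (.inl i)) (5, 0) := fun s a => wbf 5 _
  have hk : ∀ a p, IsWeightedHomogeneous bideg
      ((Pen.of fun i => (C (T i) : QQ)).kk a (fun i => X (.inl i)) p) (2, 0) := fun a p => wbf 2 _
  have hn : IsWeightedHomogeneous bideg
      ((Pen.of fun i => (C (T i) : QQ)).nuv fun i => X (.inl i)) (12, 0) := wbf 12 _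
  have hs : ∀ p, IsWeightedHomogeneous bideg
      ((Pen.of fun i => (C (T i) : QQ)).ks (fun i => X (.inl i)) p) ((5, 0) + (2, 0)) := fun p =>
    ((hf 0 1).mul (hk 0 p)).sub ((hf 0 0).mul (hk 1 p))
  have hB : IsWeightedHomogeneous bideg
      ((Pen.of fun i => (C (T i) : QQ)).B fun i => X (.inl i)) ((5, 0) + (5, 0)) :=
    ((hf 0 0).mul (hf 1 1)).sub ((hf 0 1).mul (hf 1 0))
  have hY : ∀ j, IsWeightedHomogeneous bideg (X (.inr j) : QQ) (0, 1) := fun j =>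
    isWeightedHomogeneous_X ℂ bideg (.inr j)
  have h := ((((((isWeightedHomogeneous_X ℂ bideg (.inl 0)).mul (wbf m c)).mul hB).mul
    (hf 0 0)).mul hn).mul ((((hs 0).mul (hY 1)).add ((hs 1).mul (hY 2))).add
      ((hs 2).mul (hY 3)))).mul (hY 1)
  have e : ((m + 35, 2) : ℕ × ℕ) = bideg (.inl 0) + (m, 0) + ((5, 0) + (5, 0)) + (5, 0) + (12, 0)
      + ((5, 0) + (2, 0) + (0, 1)) + (0, 1) := by
    simp only [bideg, Sum.elim_inl, Prod.mk_add_mk, Prod.mk.injEq, and_true]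
    omega
  rw [e]
  exact h

variable {T : ℕ → ℂ}

lemma nu_G (hid : (Pen.of T).Id) (U : V2 ℂ) (b : Fin 20) :
    (Pen.of T).nuv U * (Pen.of T).G U b = (Pen.of T).dt 0 1 U b := hid.eq ℂ (RingHom.id ℂ) U 0 b

lemma of_surf (hR : Rel T) (hid : (Pen.of T).Id) {p : Pt} (hp : p ∈ (memX T).surface) :
    qb ((Pen.of T).ks p.U) p.Y p.Y = 0 ∧ tri ((Pen.of T).G p.U) p.Y p.Y p.Y = 0 := by
  have hR' : RelA T p.U := hR ℂ (RingHom.id ℂ) _
  obtain ⟨h0, t, z, h1, h2⟩ := hp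
  simp only [CH0.lin_memX, CH0.E_memX] at h0 h1 h2
  have o := CH0.on_zero (Pen.of T) (U := p.U) (Y := p.Y) ⟨t, CH0.quadric hR' h1, by
    rw [CH0.cubic hR']
    exact mul_eq_zero_of_right _ h2⟩
  refine ⟨o.1, (mul_eq_zero.mp ?_).resolve_left (hR'.nu ▸ h0)⟩
  rw [← CH0.tri_mul, funext (nu_G hid p.U)]
  exact o.2

lemma to_surf (hR : Rel T) (hid : (Pen.of T).Id) {U : V2 ℂ} {Y : V4 ℂ} (h0 : U 0 ≠ 0)
    (hB : (Pen.of T).B U ≠ 0) (hf : (Pen.of T).ff 0 0 U ≠ 0) (hn : (Pen.of T).nuv U ≠ 0)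
    (hk : qb ((Pen.of T).ks U) Y Y = 0) (hG : tri ((Pen.of T).G U) Y Y Y = 0) :
    Sum.elim U Y ∈ (memX T).surface := by
  have hR' : ∀ U, RelA T U := hR ℂ (RingHom.id ℂ)
  have e : Idn.D (Pen.of T) U Y 0 1 = 0 := by
    rw [← Idn.tri_dt, ← funext (nu_G hid U), CH0.tri_mul, hG, mul_zero]
  rw [Idn.qb_ks] at hk
  simp only [Idn.D, det3] at e
  simp only [Pen.B, Pen.be] at hB
  obtain ⟨t, ht⟩ : ∃ t, qb ((Pen.of T).kk 0 U) Y Y = 2 * t * (Pen.of T).ff 0 0 U :=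
    ⟨qb ((Pen.of T).kk 0 U) Y Y / (2 * (Pen.of T).ff 0 0 U), by field_simp⟩
  have ht1 : qb ((Pen.of T).kk 1 U) Y Y = 2 * t * (Pen.of T).ff 0 1 U := by
    apply mul_left_cancel₀ hf
    linear_combination (Pen.of T).ff 0 1 U * ht - hk
  have h2 : tri ((Pen.of T).gc U) Y Y Y + 6 * t * dot ((Pen.of T).nn 0 U) Y = 0 := by
    refine mul_left_cancel₀ hB ?_
    rw [ht, ht1] at e
    linear_combination -e
  obtain ⟨z, hz⟩ := CH0.key thm_LAK hR' h0 hn (Fin.forall_fin_two.2 ⟨ht, ht1⟩)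
  refine ⟨?_, t, z, fun q => ?_, ?_⟩
  · rw [CH0.lin_memX]
    exact (hR' U).nu ▸ hn
  · rw [CH0.lin_memX, CH0.E_memX]
    exact hz q
  · rw [CH0.lin_memX]
    exact (mul_eq_zero.mp ((CH0.cubic (hR' U) t Y).symm.trans h2)).resolve_left (by norm_num)

lemma bf_coeff (c : Polynomial ℂ) (u : ℂ) : bf c.natDegree c.coeff (af u) = c.eval u := by
  rw [bf_af, pl_eq, Polynomial.eval_eq_sum_range]

/-- The point over `q`. -/
def pq (T : ℕ → ℂ) (q : Fin 3 → ℂ) : Pt :=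
  Sum.elim (af (q 0)) (pY ((Pen.of T).ks (af (q 0))) (q 1) (q 2))

lemma eval_quin3 {c : Polynomial ℂ} {φ : MvPolynomial (Fin 3) ℂ}
    (h : quin3 T = Polynomial.aeval (X 0) c * φ) (q : Fin 3 → ℂ) :
    quin ((Pen.of T).ks (af (q 0))) ((Pen.of T).G (af (q 0))) (q 1) (q 2)
      = c.eval (q 0) * eval q φ := by
  have H := hom_ringHom (eval q : MvPolynomial (Fin 3) ℂ →+* ℂ)
  have e := congrArg (eval q) h
  rw [map_mul, ← aeval_eq_eval, ← Polynomial.aeval_algHom_apply, aeval_X, aeval_eq_eval,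
    Polynomial.coe_aeval_eq_eval] at e
  rw [← e, quin3, map_quin]
  simp only [H.ks, H.G, H.af, Pen.map_of, eval_C, eval_X]

/-- From the hypersurface to the member. -/
lemma up (hR : Rel T) (hid : (Pen.of T).Id) {c : Polynomial ℂ} {φ : MvPolynomial (Fin 3) ℂ}
    (h : quin3 T = Polynomial.aeval (X 0) c * φ) {q : Fin 3 → ℂ} (hq : eval q φ = 0)
    (hH : hh c.natDegree c.coeff (Pen.of T) (pq T q).U (pq T q).Y ≠ 0) :
    pq T q ∈ (memX T).surface := by
  simp only [hh, mul_ne_zero_iff] at hH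
  obtain ⟨⟨⟨⟨⟨⟨a0, -⟩, a2⟩, a3⟩, a4⟩, -⟩, -⟩ := hH
  refine to_surf hR hid a0 a2 a3 a4 (qb_pY ..) ?_
  have g0 : (Pen.of T).G (af (q 0)) 0 = 0 :=
    (mul_eq_zero.mp ((nu_G hid _ 0).trans (dt_zero ..))).resolve_left a4
  rw [tri_pY, eval_quin3 h, hq, g0, mul_zero, mul_zero, mul_zero, sub_zero]

/-- From the member to the hypersurface. -/
lemma down (hR : Rel T) (hid : (Pen.of T).Id) {c : Polynomial ℂ} {φ : MvPolynomial (Fin 3) ℂ}
    (h : quin3 T = Polynomial.aeval (X 0) c * φ) {p : Pt} (hp : p ∈ (memX T).surface)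
    (hH : hh c.natDegree c.coeff (Pen.of T) p.U p.Y ≠ 0) :
    ∃ (q : Fin 3 → ℂ) (a b : ℂ), eval q φ = 0 ∧
      p = Sum.elim (fun i => a * (pq T q).U i) fun j => b * (pq T q).Y j := by
  obtain ⟨e1, e2⟩ := of_surf hR hid hp
  simp only [hh, mul_ne_zero_iff] at hH
  obtain ⟨⟨⟨⟨⟨⟨a0, a1⟩, -⟩, -⟩, a4⟩, a5⟩, a6⟩ := hH
  have hU : p.U = fun i => p.U 0 * af (p.U 1 / p.U 0) i := by
    funext i
    fin_cases i
    · simp
    · simp [mul_div_cancel₀ _ a0]
  obtain ⟨m1, m2, -, -, -, m3, -⟩ := thm_HOM ℂ (Pen.of T) (p.U 0) (af (p.U 1 / p.U 0))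
  rw [← hU] at m1 m2 m3
  set u := p.U 1 / p.U 0 with hu
  set k := (Pen.of T).ks (af u) with hk
  set y := p.Y 2 / p.Y 1 with hy
  set z := p.Y 3 / p.Y 1 with hz
  have y2 : p.Y 2 = p.Y 1 * y := (mul_div_cancel₀ _ a6).symm
  have y3 : p.Y 3 = p.Y 1 * z := (mul_div_cancel₀ _ a6).symm
  have hL : qL k y z ≠ 0 := fun e => a5 (by
    rw [m2, y2, y3]
    simp only [qL] at e
    linear_combination p.U 0 ^ 7 * p.Y 1 * e)
  have y0 : p.Y 0 * qL k y z = -(p.Y 1 * qQ k y z) := by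
    refine mul_left_cancel₀ (mul_ne_zero (mul_ne_zero two_ne_zero (pow_ne_zero 7 a0)) a6) ?_
    rw [m2] at e1
    simp only [qb, y2, y3] at e1
    simp only [qL, qQ]
    linear_combination e1
  have hY : p.Y = fun j => p.Y 1 / qL k y z * pY k y z j := by
    funext j
    fin_cases j <;> simp only [pY, Fin.zero_eta, Fin.mk_one, Fin.reduceFinMk, v4_0, v4_1, v4_2,
      v4_3] <;> field_simp
    · linear_combination y0
    · exact y2
    · exact y3
  have g0 : (Pen.of T).G (af u) 0 = 0 := by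
    refine (mul_eq_zero.mp ((nu_G hid _ 0).trans (dt_zero ..))).resolve_left fun e => a4 ?_
    rw [m3, e, mul_zero]
  have e3 : tri ((Pen.of T).G (af u)) (pY k y z) (pY k y z) (pY k y z) = 0 := by
    refine mul_left_cancel₀ (mul_ne_zero (pow_ne_zero 4 a0)
      (pow_ne_zero 3 (div_ne_zero a6 hL))) ?_
    rw [m1, hY] at e2
    simp only [tri] at e2 ⊢
    linear_combination e2
  have e4 := eval_quin3 h ![u, y, z]
  simp only [Matrix.cons_val_zero, Matrix.cons_val_one, Matrix.cons_val] at e4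
  rw [tri_pY, g0, mul_zero, sub_zero, e4] at e3
  refine ⟨![u, y, z], p.U 0, p.Y 1 / qL k y z, ?_, ?_⟩
  · refine (mul_eq_zero.mp ((mul_eq_zero.mp e3).resolve_left hL)).resolve_left fun e => a1 ?_
    rw [hU, bf_smul, bf_coeff, e, mul_zero]
  · exact (SC.T.elim_eta p).symm.trans (congrArg₂ Sum.elim hU hY)

end PAR

open PAR in
theorem thm_PAR : S_PAR := by
  intro cd s x hg hR hid hE c φ hq hc
  obtain ⟨⟨h6, h1, -, -, -, -⟩, -, ob⟩ := CH0.blocks hg
  set T := sq x with hT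
  let H : QQ := hh c.natDegree (fun i => C (c.coeff i)) (Pen.of fun i => C (T i))
    (fun i => X (.inl i)) fun i => X (.inr i)
  let e : Fin (7 + 1) ≃ Fin 2 × Fin 4 := (finProdFinEquiv (m := 2) (n := 4)).symm
  let N : Fin (7 + 1) → QQ := fun i => H * (X (.inl (e i).1) * X (.inr (e i).2))
  let par : Fin 2 ⊕ Fin 4 → MvPolynomial (Fin 3) ℂ :=
    Sum.elim (af (X 0)) (pY ((Pen.of fun i => C (T i)).ks (af (X 0))) (X 1) (X 2))
  have hN : ∀ i, IsWeightedHomogeneous bideg (N i) ((c.natDegree + 35, 2) + ((1, 0) + (0, 1))) :=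
    fun i => (whh _ _ T).mul ((isWeightedHomogeneous_X ℂ bideg (.inl (e i).1)).mul
      (isWeightedHomogeneous_X ℂ bideg (.inr (e i).2)))
  have eN : ∀ (p : Pt) i, eval p (N i)
      = hh c.natDegree c.coeff (Pen.of T) p.U p.Y * segre p (e i) := fun p i => by
    simp only [N, H, map_mul, map_hh, Pen.map_of, eval_C, eval_X, segre]
  have eP : ∀ (q : Fin 3 → ℂ) F, eval q (aeval par F) = eval (pq T q) F := fun q F => by
    have K := hom_ringHom (eval q : MvPolynomial (Fin 3) ℂ →+* ℂ)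
    rw [SC.T.eval_aeval, aeval_eq_eval]
    congr 2
    funext j
    rcases j with j | j
    · simp only [par, pq, Sum.elim_inl, K.af, eval_X]
    · simp only [par, pq, Sum.elim_inr, map_pY, K.ks, K.af, Pen.map_of, eval_C, eval_X]
  have hne : ∀ p : Pt, (fun i => eval p (N i)) ≠ 0 →
      hh c.natDegree c.coeff (Pen.of T) p.U p.Y ≠ 0 := fun p h h0 =>
    h (funext fun i => by rw [eN, h0, zero_mul]; rfl)
  have dn : ∀ p ∈ (memX T).surface, hh c.natDegree c.coeff (Pen.of T) p.U p.Y ≠ 0 →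
      ∃ (q : Fin 3 → ℂ) (a : ℂ), eval q φ = 0 ∧
        ∀ i, eval p (N i) = a * eval q (aeval par (N i)) := fun p hp h => by
    obtain ⟨q, a, b, h1, h2⟩ := down hR hid hq hp h
    exact ⟨q, _, h1, fun i => by
      rw [eP, h2, ← aeval_eq_eval, SC.T.N_scale (hN i), SC.T.elim_eta, aeval_eq_eval]⟩
  have hR' : RelA T (af (tu T)) := hR ℂ (RingHom.id ℂ) _
  have h6' : ∀ q, ty T (pa q) * ty T (pb q)
      = az (tA T (af (tu T))) (tz T) q + 1 * tE T 0 (af (tu T)) q := fun q => by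
    rw [one_mul]
    exact (sub_eq_zero.mp (h6 q)).symm
  have p0 : ptOf (parX T) ∈ (memX T).surface := by
    refine ⟨?_, 1, tz T, fun q => ?_, ?_⟩
    · rw [CH0.lin_memX]
      exact hR'.nu ▸ ob 1
    · rw [CH0.lin_memX, CH0.E_memX]
      exact h6' q
    · rw [CH0.lin_memX, one_mul, add_comm]
      exact h1 ()
  have y1 : ty T 1 ≠ 0 := ob 2
  have H0 : hh c.natDegree c.coeff (Pen.of T) (ptOf (parX T)).U (ptOf (parX T)).Y ≠ 0 := by
    change hh c.natDegree c.coeff (Pen.of T) (af (tu T)) (ty T) ≠ 0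
    simp only [hh, mul_ne_zero_iff, af_0, bf_coeff]
    refine ⟨⟨⟨⟨⟨⟨one_ne_zero, hc⟩, hE.hB⟩, fun e => ob 5 ?_⟩, ob 1⟩, hE.hL⟩, y1⟩
    exact (CH0.quadric hR' h6' 0).trans (by rw [e, mul_zero])
  have e1 : e 1 = (0, 1) := rfl
  have e2 : e 2 = (0, 2) := rfl
  have e5 : e 5 = (1, 1) := rfl
  have N0 : eval (ptOf (parX T)) (N 1) ≠ 0 := by
    rw [eN, e1]
    exact mul_ne_zero H0 (mul_ne_zero ((af_0 (tu T)).trans_ne one_ne_zero) y1)
  refine ⟨N, _, fun i => aeval par (N i), ⟨hN, fun j => isHomogeneous_X _ _, fun p _ =>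
    ⟨hh c.natDegree c.coeff (Pen.of T) p.U p.Y, fun j => ?_⟩⟩, ⟨1, N0⟩, ?_, ?_, ?_, ?_⟩
  · rw [RX, eval_X, eN]
    exact congrArg (_ * segre p ·) (e.apply_symm_apply j)
  · refine congrArg zariskiClosure (Set.ext fun w => ⟨?_, ?_⟩)
    · rintro ⟨p, hp, h, rfl⟩
      obtain ⟨q, a, h1, h2⟩ := dn p hp (hne p h)
      have h3 : (fun i => eval q (aeval par (N i))) ≠ 0 := fun h0 =>
        h (funext fun i => by rw [h2, congrFun h0 i]; exact mul_zero a)
      exact ⟨q, h1, h3, SC.T.mk_eq_of_smul h h3 h2⟩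
    · rintro ⟨q, h1, h, rfl⟩
      have h3 : (fun i => eval (pq T q) (N i)) ≠ 0 := by simpa only [eP] using h
      exact ⟨pq T q, up hR hid hq h1 (hne _ h3), h3, by simp only [eP]⟩
  · obtain ⟨q, a, h1, h2⟩ := dn _ p0 H0
    exact ⟨q, h1, right_ne_zero_of_mul (h2 1 ▸ N0)⟩
  · simp only [N, map_mul, aeval_X, e1, e5]
    generalize aeval par H = w
    simp only [par, Sum.elim_inl, af_0, af_1]
    ring
  · simp only [N, map_mul, aeval_X, e1, e2]
    generalize aeval par H = w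
    simp only [par, Sum.elim_inr, pY, v4_1, v4_2]
    ring

end

end Pool.Agent.P.MP_7ebcb6_ag.SC
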