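import Pool.Agent.P.MP_7ebcb6_ag.SC.St4
import Pool.Agent.P.MP_7ebcb6_ag.FD.Glue

/-! The closure of the image of an irreducible affine surface is an irreducible surface. -/

open scoped LinearAlgebra.Projectivization

namespace Pool.Agent.P.MP_7ebcb6_ag.SC

open MvPolynomial
open Pool.Agent.P.MP_68ca4e_ag.M (td td_lt td_bot le_td)

namespace SUR

theorem zl (φ : MvPolynomial (Fin 3) ℂ) :
    zeroLocus ℂ (Ideal.span {φ}) = {q : Fin 3 → ℂ | eval q φ = 0} := by
  ext q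
  refine ⟨fun h => h φ (Ideal.mem_span_singleton_self _), fun h P hP => ?_⟩
  obtain ⟨R, rfl⟩ := Ideal.mem_span_singleton.mp hP
  have h1 : aeval q φ = 0 := h
  rw [map_mul, h1, zero_mul]

theorem van {φ : MvPolynomial (Fin 3) ℂ} (hφ : Prime φ) :
    vanishingIdeal ℂ {q : Fin 3 → ℂ | eval q φ = 0} = Ideal.span {φ} := by
  have := (Ideal.span_singleton_prime hφ.ne_zero).mpr hφ
  rw [← zl, IsPrime.vanishingIdeal_zeroLocus]

theorem td_le {φ : MvPolynomial (Fin 3) ℂ} (hφ : Prime φ) : td (Ideal.span {φ}) ≤ 2 := by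
  have := (Ideal.span_singleton_prime hφ.ne_zero).mpr hφ
  have := Ideal.isPrime_bot (α := MvPolynomial (Fin 3) ℂ)
  have h1 : td (Ideal.span {φ}) < td (⊥ : Ideal (MvPolynomial (Fin 3) ℂ)) :=
    td_lt (bot_lt_iff_ne_bot.mpr fun h => hφ.ne_zero (Ideal.span_singleton_eq_bot.mp h))
  rw [td_bot, Fintype.card_fin] at h1
  omega

/-- The affine coordinates of the image of a point. -/
theorem mem_W {n : ℕ} {S : Set (Fin 3 → ℂ)} (N : Fin (n + 1) → MvPolynomial (Fin 3) ℂ)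
    (a : Fin (n + 1)) {q : Fin 3 → ℂ} (hq : q ∈ S) (ha : eval q (N a) ≠ 0) :
    (fun v : Fin 1 × Fin (n + 1) => eval q (N v.2) / eval q (N a)) ∈
      FD.W (fun _ => a) (Set.univ : Set (Fin 1 → zariskiClosure (FD.im S N))) := by
  have hne : (fun i => eval q (N i)) ≠ 0 := fun h => ha (congrFun h a)
  refine ⟨fun _ => div_self ha, fun _ => ⟨Projectivization.mk ℂ _ hne,
    fun P d _ h => h _ ⟨q, hq, hne, rfl⟩⟩, trivial, fun _ => ⟨fun h => ?_, ?_⟩⟩
  · exact one_ne_zero ((div_self ha).symm.trans (congrFun h a))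
  · refine (Projectivization.mk_eq_mk_iff' ℂ _ _ _ _).mpr ⟨eval q (N a), ?_⟩
    funext i
    exact mul_div_cancel₀ _ ha

end SUR

open SUR

theorem thm_SUR : S_SUR := by
  intro n φ N a b c hφ ⟨q₀, hq₀, ha₀⟩ hb hc hP
  have hpr := (Ideal.span_singleton_prime hφ.ne_zero).mpr hφ
  obtain ⟨hX, hI⟩ := FD.irrIm n (Fin 3) {q | eval q φ = 0} N
  replace hI := hI (by rw [van hφ]; exact hpr) ⟨q₀, hq₀, a, ha₀⟩
  have hd : FD.dimX (zariskiClosure (FD.im {q | eval q φ = 0} N)) ≤ 2 := by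
    refine FD.thm_DimIm n _ _ N 2 {Ideal.span {φ}} (Set.finite_singleton _) ?_ fun p hp => ?_
    · rintro _ rfl
      exact ⟨hpr, td_le hφ⟩
    · exact ⟨_, rfl, p, (zl φ).symm ▸ hp, 1, one_ne_zero, fun i => (one_mul _).symm⟩
  generalize hXe : zariskiClosure (FD.im {q | eval q φ = 0} N) = Y at hX hI hd
  have hW : ∀ q : Fin 3 → ℂ, eval q φ = 0 → eval q (N a) ≠ 0 →
      (fun v : Fin 1 × Fin (n + 1) => eval q (N v.2) / eval q (N a)) ∈
        FD.W (fun _ => a) (Set.univ : Set (Fin 1 → Y)) := by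
    subst hXe
    exact fun q hq ha => mem_W N a hq ha
  refine ⟨(FD.irr n Y).2.1 hI, le_antisymm ?_ ?_⟩
  · obtain ⟨-, -, h1, h2, h3, h4⟩ := FD.thm_Sym n Y 1
    refine ((FD.thm_Q1 _ _ (FD.pr Y 1) h1 h2 h3 h4).trans (FD.up n Y hX 1)).trans ?_
    rw [mul_one]
    exact_mod_cast hd
  · obtain ⟨ta, tb, -⟩ := FD.t2 n Y hX 1 fun _ => a
    have hp : (FD.I1 Y a).IsPrime := tb _ hI ⟨_, hW q₀ hq₀ ha₀⟩
    obtain ⟨Z, hZ, -⟩ := FD.chain n Y hX 1 (fun _ => a) (FD.I1 Y a) hp (ta _ isClosed_univ).le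
    refine le_trans ?_ ((FD.thm_Q2 n Y 1 _ Z hZ Set.univ fun _ _ _ => trivial).trans
      (FD.thm_Pt n Y 1 _).1)
    have h2 : 2 ≤ td (FD.I1 Y a) := by
      refine le_td (FD.I1 Y a) (fun j : Fin 2 => Ideal.Quotient.mk _ (X (0, ![b, c] j))) ?_
      refine algebraicIndependent_iff.mpr fun P h => hP P ?_
      have e1 : aeval (fun j : Fin 2 => Ideal.Quotient.mk (FD.I1 Y a) (X (0, ![b, c] j))) =
          (Ideal.Quotient.mkₐ ℂ (FD.I1 Y a)).comp (aeval fun j : Fin 2 => X (0, ![b, c] j)) := by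
        ext j
        simp
      rw [e1] at h
      have h1 : aeval (fun j : Fin 2 => X (0, ![b, c] j)) P ∈ FD.I1 Y a :=
        Ideal.Quotient.eq_zero_iff_mem.mp h
      have h3 : N a * rename Fin.castSucc P ∈ Ideal.span {φ} := by
        rw [← van hφ]
        intro q hq
        rw [map_mul]
        by_cases ha : eval q (N a) = 0
        · exact mul_eq_zero_of_left ha _
        · refine mul_eq_zero_of_right _ ?_
          have h4 := h1 _ (hW q hq ha)
          rw [FD.DimIm.aeval_aeval] at h4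
          rw [aeval_rename, ← h4]
          congr 2
          funext j
          fin_cases j
          · simp [hb, ha]
          · simp [hc, ha]
      rcases hφ.dvd_or_dvd (Ideal.mem_span_singleton.mp h3) with h5 | h5
      · obtain ⟨R, hR⟩ := h5
        exact absurd (by rw [hR, map_mul, hq₀, zero_mul]) ha₀
      · exact h5
    exact_mod_cast h2

end Pool.Agent.P.MP_7ebcb6_ag.SC
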