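import Pool.Agent.P.MP_7ebcb6_ag.SC.St3

/-! The generic good line specialises to every good line: the quadratic equation for one root. -/

namespace Pool.Agent.P.MP_7ebcb6_ag.SC

open G8 Function

noncomputable section

namespace A1

/-- A place through a quadratic extension. -/
lemma spec {R : Type} [CommRing R] [IsDomain R] [IsIntegrallyClosed R] (f φ : R →+* ℂ)
    (hf : Injective f) {A B C : R} {x y : ℂ} (hx : f A * x ^ 2 + f B * x + f C = 0)
    (hy : φ A * y ^ 2 + φ B * y + φ C = 0) (hA : φ A ≠ 0) (hD : ∀ s, B ^ 2 - 4 * A * C ≠ s ^ 2) :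
    ∃ ρ : Plc ℂ ℂ, (∀ r, (f r, φ r) ∈ ρ.G) ∧ (x, y) ∈ ρ.G := by
  let S : Subring (ℂ × ℂ) :=
    { carrier := {p | ∃ (k : ℕ) (α β : R), f A ^ k * p.1 = f α * x + f β ∧
        φ A ^ k * p.2 = φ α * y + φ β}
      mul_mem' := by
        rintro ⟨p, p'⟩ ⟨q, q'⟩ ⟨k, α, β, h1, h2⟩ ⟨l, γ, δ, h3, h4⟩
        refine ⟨k + l + 1, A * (α * δ + β * γ) - α * γ * B, A * β * δ - α * γ * C, ?_, ?_⟩ <;>
          simp only [Prod.fst_mul, Prod.snd_mul, map_add, map_sub, map_mul] at *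
        · linear_combination f A * (f A ^ l * q) * h1 + f A * (f α * x + f β) * h3 + f α * f γ * hx
        · linear_combination φ A * (φ A ^ l * q') * h2 + φ A * (φ α * y + φ β) * h4
            + φ α * φ γ * hy
      one_mem' := ⟨0, 0, 1, by simp, by simp⟩
      add_mem' := by
        rintro ⟨p, p'⟩ ⟨q, q'⟩ ⟨k, α, β, h1, h2⟩ ⟨l, γ, δ, h3, h4⟩
        refine ⟨k + l, A ^ l * α + A ^ k * γ, A ^ l * β + A ^ k * δ, ?_, ?_⟩ <;>
          simp only [Prod.fst_add, Prod.snd_add, map_add, map_pow, map_mul] at *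
        · linear_combination f A ^ l * h1 + f A ^ k * h3
        · linear_combination φ A ^ l * h2 + φ A ^ k * h4
      zero_mem' := ⟨0, 0, 0, by simp, by simp⟩
      neg_mem' := by
        rintro ⟨p, p'⟩ ⟨k, α, β, h1, h2⟩
        refine ⟨k, -α, -β, ?_, ?_⟩ <;> simp only [Prod.fst_neg, Prod.snd_neg, map_neg] at *
        · linear_combination -h1
        · linear_combination -h2 }
  have hS : ∀ b, (0, b) ∈ S → b = 0 := by
    rintro b ⟨k, α, β, h1, h2⟩
    dsimp only at h1 h2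
    have h3 : α = 0 := by
      by_contra h
      have h4 : (B * α - 2 * A * β) ^ 2 = α ^ 2 * (B ^ 2 - 4 * A * C) := hf (by
        simp only [map_sub, map_mul, map_pow, map_ofNat]
        linear_combination 4 * f A * f α ^ 2 * hx
          + 4 * f A * (f A * (f α * x - f β) + f B * f α) * h1)
      obtain ⟨s, hs⟩ := (IsIntegrallyClosed.pow_dvd_pow_iff two_ne_zero).mp ⟨_, h4⟩
      rw [hs, mul_pow] at h4
      exact hD s (mul_left_cancel₀ (pow_ne_zero 2 h) h4).symm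
    subst h3
    have h4 : β = 0 := hf (by simpa using h1.symm)
    subst h4
    simpa [hA] using h2
  obtain ⟨ρ, hρ⟩ := exists_pl (gfst S) (gfst_injective hS) (gsnd S)
  exact ⟨ρ, fun r => hρ ⟨(f r, φ r), 0, 0, r, by simp, by simp⟩,
    hρ ⟨(x, y), 0, 1, 0, by simp, by simp⟩⟩

section poly

variable {R : Type} [CommRing R]

def dd (p q p' q' r : R) : R := (r - p') * (r - q') - (r - p) * (r - q)

def nn (p q p' q' r : R) : R :=
  (r - p') * (r - q') * (p + q) - (r - p) * (r - q) * (p' + q') - dd p q p' q' r * r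

variable (v : Fin 12 → R)

def DD : R := dd (v 0) (v 1) (v 4) (v 5) (v 3) * dd (v 0) (v 2) (v 6) (v 7) (v 3)

def G0 (t : R) : R :=
  (dd (v 0) (v 1) (v 4) (v 5) (v 3) * t - nn (v 0) (v 1) (v 4) (v 5) (v 3))
    * (dd (v 0) (v 2) (v 6) (v 7) (v 3) * t - nn (v 0) (v 2) (v 6) (v 7) (v 3))

def g1 (t : R) : R := (t - v 1) * (t - v 2)

def m1 : R := (v 4 - v 6) * v 6 + g1 v (v 6)

def m0 : R := DD v * (v 5 - v 7) * v 7 + G0 v (v 7)

def wA : R := (v 4 - v 5) * (v 4 - v 6) * (DD v * (v 5 - v 7)) - g1 v (v 4) * (DD v * (v 5 - v 7))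
  + G0 v (v 5) * (v 4 - v 6)

def wB : R := g1 v (v 4) * (v 6 * (DD v * (v 5 - v 7)) + m0 v)
  - (v 4 - v 5) * (m1 v * (DD v * (v 5 - v 7)) + (v 4 - v 6) * m0 v)
  - G0 v (v 5) * (v 7 * (v 4 - v 6) + m1 v)

def wC : R := (v 4 - v 5) * m1 v * m0 v - g1 v (v 4) * v 6 * m0 v + G0 v (v 5) * v 7 * m1 v

variable {S : Type} [CommRing S] (f : R →+* S)

lemma map_wA : f (wA v) = wA fun i => f (v i) := by
  simp only [wA, DD, G0, g1, dd, nn, map_add, map_sub, map_mul]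

lemma map_wB : f (wB v) = wB fun i => f (v i) := by
  simp only [wB, m0, m1, DD, G0, g1, dd, nn, map_add, map_sub, map_mul]

lemma map_wC : f (wC v) = wC fun i => f (v i) := by
  simp only [wC, m0, m1, DD, G0, g1, dd, nn, map_add, map_sub, map_mul]

end poly

section rel

variable {l1 l2 l3 p1 q1 p2 q2 p3 q3 : ℂ} (h0 : l1 + l2 + l3 = 0)
  (h : ∀ t, l1 * ((t - p1) * (t - q1)) + l2 * ((t - p2) * (t - q2))
    + l3 * ((t - p3) * (t - q3)) = 0) (h1 : l1 ≠ 0)
include h0 h h1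

lemma rel1 : (p2 - q3) * ((p2 - p3) * (p3 - q2) + (p3 - p1) * (p3 - q1))
    = (p2 - p1) * (p2 - q1) * (p3 - q2) :=
  mul_left_cancel₀ h1 (by
    linear_combination (p2 - q3) * h p3 - (p3 - q2) * h p2 + (p2 - q3) * (p2 - p3) * (p3 - q2) * h0)

lemma rel2 : dd p1 q1 p3 q3 p2 * q2 = nn p1 q1 p3 q3 p2 :=
  mul_left_cancel₀ h1 (by
    unfold nn dd
    linear_combination (p3 + q3 - p2 - q2) * h p2
      + (p2 - p3) * (p2 - q3) * (h 1 - h 0) + (p2 - p3) * (p2 - q3) * (p2 + q2 - 1) * h0)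

omit h1 in
lemma rel3 (h2 : l2 ≠ 0) (e1 : p2 ≠ p3) (e2 : p2 ≠ q3) : dd p1 q1 p3 q3 p2 ≠ 0 := fun e =>
  mul_ne_zero h2 (mul_ne_zero (sub_ne_zero.mpr e1) (sub_ne_zero.mpr e2)) (by
    unfold dd at e
    linear_combination (p2 - p3) * (p2 - q3) * h0 - l1 * e - h p2)

end rel

lemma key {a : Fin 4 → Fin 4 → Fin 2 → ℂ} (h : GoodLine a) :
    wA (parA a) * (-a 2 3 0 / a 2 3 1) ^ 2 + wB (parA a) * (-a 2 3 0 / a 2 3 1) + wC (parA a) = 0 ∧
      wA (parA a) ≠ 0 := by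
  obtain ⟨-, hq, r, hr, hi, hl⟩ := h
  have e : ∀ i j, i ≠ j → -a i j 0 / a i j 1 = r i j := fun i j hij => by
    rw [div_eq_iff (hr i j hij).1]
    linear_combination -(hr i j hij).2
  have hc : ∀ i j, i ≠ j → a i j 1 ≠ 0 := fun i j hij => (hr i j hij).1
  have hn : ∀ i j k l, i ≠ j → k ≠ l → ¬ (i = k ∧ j = l) → r i j ≠ r k l :=
    fun i j k l h1 h2 h3 h4 => h3 (hi i j k l h1 h2 h4)
  have l0 : ∀ i j, lin a ![0, 1] i j = a i j 1 := fun i j => by simp [lin, form]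
  have l1 : ∀ t i j, i ≠ j → lin a ![1, t] i j = a i j 1 * (t - r i j) := fun t i j hij => by
    simp only [lin, form, Fin.sum_univ_succ, Fin.sum_univ_zero]
    simp
    linear_combination (hr i j hij).2
  have hs : ∀ i j k : Fin 4, i ≠ j → i ≠ k → j ≠ k →
      (∀ U, lin a U i j * lin a U i k + lin a U j i * lin a U j k + lin a U k i * lin a U k j = 0) →
      a i j 1 * a i k 1 + a j i 1 * a j k 1 + a k i 1 * a k j 1 = 0 ∧
      ∀ t, a i j 1 * a i k 1 * ((t - r i j) * (t - r i k))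
        + a j i 1 * a j k 1 * ((t - r j i) * (t - r j k))
        + a k i 1 * a k j 1 * ((t - r k i) * (t - r k j)) = 0 := fun i j k h1 h2 h3 H => by
    refine ⟨by simpa only [l0] using H ![0, 1], fun t => ?_⟩
    have := H ![1, t]
    rw [l1 t i j h1, l1 t i k h2, l1 t j i h1.symm, l1 t j k h3, l1 t k i h2.symm,
      l1 t k j h3.symm] at this
    linear_combination this
  obtain ⟨s3, t3⟩ := hs 0 1 2 (by decide) (by decide) (by decide) fun U => hq U 3
  obtain ⟨s2, t2⟩ := hs 0 1 3 (by decide) (by decide) (by decide) fun U => hq U 2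
  obtain ⟨s1, t1⟩ := hs 0 2 3 (by decide) (by decide) (by decide) fun U => hq U 1
  obtain ⟨s0, t0⟩ := hs 1 2 3 (by decide) (by decide) (by decide) fun U => hq U 0
  have a3 := rel2 s3 t3 (mul_ne_zero (hc _ _ (by decide)) (hc _ _ (by decide)))
  have a2 := rel2 s2 t2 (mul_ne_zero (hc _ _ (by decide)) (hc _ _ (by decide)))
  have b3 := rel3 s3 t3 (mul_ne_zero (hc _ _ (by decide)) (hc _ _ (by decide)))
    (hn _ _ _ _ (by decide) (by decide) (by decide)) (hn _ _ _ _ (by decide) (by decide) (by decide))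
  have b2 := rel3 s2 t2 (mul_ne_zero (hc _ _ (by decide)) (hc _ _ (by decide)))
    (hn _ _ _ _ (by decide) (by decide) (by decide)) (hn _ _ _ _ (by decide) (by decide) (by decide))
  have a1 := rel1 s1 t1 (mul_ne_zero (hc _ _ (by decide)) (hc _ _ (by decide)))
  have a0 := rel1 s0 t0 (mul_ne_zero (hc _ _ (by decide)) (hc _ _ (by decide)))
  have v0 : parA a 0 = r 0 1 := e 0 1 (by decide)
  have v1 : parA a 1 = r 0 2 := e 0 2 (by decide)
  have v2 : parA a 2 = r 0 3 := e 0 3 (by decide)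
  have v3 : parA a 3 = r 1 0 := e 1 0 (by decide)
  have v4 : parA a 4 = r 2 0 := e 2 0 (by decide)
  have v5 : parA a 5 = r 2 1 := e 2 1 (by decide)
  have v6 : parA a 6 = r 3 0 := e 3 0 (by decide)
  have v7 : parA a 7 = r 3 1 := e 3 1 (by decide)
  rw [e 2 3 (by decide)]
  simp only [wA, wB, wC, m0, m1, DD, G0, g1, v0, v1, v2, v3, v4, v5, v6, v7, ← a3, ← a2]
  generalize dd (r 0 1) (r 0 2) (r 2 0) (r 2 1) (r 1 0) = d3 at b3 ⊢
  generalize dd (r 0 1) (r 0 3) (r 3 0) (r 3 1) (r 1 0) = d2 at b2 ⊢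
  refine ⟨?_, fun h => mul_ne_zero (mul_ne_zero b3 b2) (sub_ne_zero.mpr hl) ?_⟩
  · linear_combination d3 * d2 * ((r 2 1 - r 3 1) * (r 3 1 - r 2 3)
      + (r 3 1 - r 1 2) * (r 3 1 - r 1 3)) * a1 - d3 * d2 * ((r 2 0 - r 3 0) * (r 3 0 - r 2 3)
      + (r 3 0 - r 0 2) * (r 3 0 - r 0 3)) * a0
  · linear_combination -h

end A1

open A1 MvPolynomial

theorem thm_A1 : S_A1 := by
  intro a a' ha ha' n x x' hx
  have e : ∀ (y : Fin 12 → ℂ) (z : Fin n → ℂ), (fun i => (aeval (Sum.elim y z) :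
      MvPolynomial (Fin 12 ⊕ Fin n) ℚ →ₐ[ℚ] ℂ).toRingHom (X (Sum.inl i))) = y :=
    fun y z => funext fun i => aeval_X _ _
  obtain ⟨ρ, h1, h2⟩ := spec (R := MvPolynomial (Fin 12 ⊕ Fin n) ℚ)
    (aeval (Sum.elim (parA a) x)).toRingHom (aeval (Sum.elim (parA a') x')).toRingHom hx
    (A := wA fun i => X (Sum.inl i)) (B := wB fun i => X (Sum.inl i))
    (C := wC fun i => X (Sum.inl i)) (x := -a 2 3 0 / a 2 3 1) (y := -a' 2 3 0 / a' 2 3 1)
    (by rw [map_wA, map_wB, map_wC, e]; exact (key ha).1)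
    (by rw [map_wA, map_wB, map_wC, e]; exact (key ha').1)
    (by rw [map_wA, e]; exact (key ha').2) fun s hs => by
      have h := congrArg (MvPolynomial.eval
        (Sum.elim ![-1, 0, 0, 0, 1, -2, -1, 1, 0, 0, 0, 0] fun _ => 0)) hs
      rw [map_sub, map_mul, map_mul, map_pow, map_pow, map_wA, map_wB, map_wC, map_ofNat] at h
      refine absurd (h ▸ sq_nonneg _ :) (not_le.mpr ?_)
      simp only [wA, wB, wC, m0, m1, DD, G0, g1, dd, nn, eval_X, Sum.elim_inl]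
      simp
      norm_num
  refine ⟨ρ, fun i => ?_, fun i => ?_, h2⟩
  · simpa using h1 (X (Sum.inl i))
  · simpa using h1 (X (Sum.inr i))

end

end Pool.Agent.P.MP_7ebcb6_ag.SC
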