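import Pool.Agent.P.MP_7ebcb6_ag.SC.St3

/-! All coefficients of a good line are determined by twelve parameters and one further root. -/

namespace Pool.Agent.P.MP_7ebcb6_ag.SC

open G8

namespace A2

section ring

variable {R : Type} [CommRing R]

/-- A linear relation between three split monic quadratic polynomials. -/
structure Tri (l1 l2 l3 p1 q1 p2 q2 p3 q3 : R) : Prop where
  e0 : l1 + l2 + l3 = 0
  e1 : l1 * (p1 + q1) + l2 * (p2 + q2) + l3 * (p3 + q3) = 0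
  e2 : l1 * (p1 * q1) + l2 * (p2 * q2) + l3 * (p3 * q3) = 0

/-- The subring is closed under division by its elements that are units of the big ring. -/
def Sat (S : Subring R) : Prop := ∀ d ∈ S, IsUnit d → ∀ x, d * x ∈ S → x ∈ S

variable {S : Subring R} {l1 l2 l3 p1 q1 p2 q2 p3 q3 : R}

lemma Tri.swap (h : Tri l1 l2 l3 p1 q1 p2 q2 p3 q3) : Tri l1 l3 l2 p1 q1 p3 q3 p2 q2 :=
  ⟨by linear_combination h.e0, by linear_combination h.e1, by linear_combination h.e2⟩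

lemma Tri.at2 (h : Tri l1 l2 l3 p1 q1 p2 q2 p3 q3) :
    l1 * ((p2 - p1) * (p2 - q1)) + l3 * ((p2 - p3) * (p2 - q3)) = 0 := by
  linear_combination p2 ^ 2 * h.e0 - p2 * h.e1 + h.e2

lemma Tri.root (h : Tri l1 l2 l3 p1 q1 p2 q2 p3 q3) (hS : Sat S) (u1 : IsUnit l1) (u2 : IsUnit l2)
    (v1 : IsUnit (p2 - p3)) (v2 : IsUnit (p2 - q3)) (a1 : p1 ∈ S) (b1 : q1 ∈ S) (a2 : p2 ∈ S)
    (a3 : p3 ∈ S) (b3 : q3 ∈ S) : q2 ∈ S := by
  have m3 : (p2 - p3) * (p2 - q3) ∈ S := mul_mem (sub_mem a2 a3) (sub_mem a2 b3)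
  have m1 : (p2 - p1) * (p2 - q1) ∈ S := mul_mem (sub_mem a2 a1) (sub_mem a2 b1)
  have e : l1 * ((p2 - p3) * (p2 - q3) - (p2 - p1) * (p2 - q1))
      = -(l2 * ((p2 - p3) * (p2 - q3))) := by
    linear_combination (p2 - p3) * (p2 - q3) * h.e0 - h.at2
  have u : IsUnit ((p2 - p3) * (p2 - q3) - (p2 - p1) * (p2 - q1)) :=
    isUnit_of_mul_isUnit_right (e ▸ (u2.mul (v1.mul v2)).neg)
  have e' : ((p2 - p3) * (p2 - q3) - (p2 - p1) * (p2 - q1)) * (p2 + q2)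
      = (p2 - p3) * (p2 - q3) * (p1 + q1) - (p2 - p1) * (p2 - q1) * (p3 + q3) := by
    refine u1.mul_left_cancel ?_
    linear_combination (p2 + q2) * e - (p2 - p3) * (p2 - q3) * h.e1 + (p3 + q3) * h.at2
  have m : p2 + q2 ∈ S := hS _ (sub_mem m3 m1) u _
    (e' ▸ sub_mem (mul_mem m3 (add_mem a1 b1)) (mul_mem m1 (add_mem a3 b3)))
  simpa using sub_mem m a2

lemma Tri.ratio (h : Tri l1 l2 l3 p1 q1 p2 q2 p3 q3) (hS : Sat S) (w1 : IsUnit (p2 - p1))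
    (w2 : IsUnit (p2 - q1)) (v1 : IsUnit (p2 - p3)) (v2 : IsUnit (p2 - q3)) (a1 : p1 ∈ S)
    (b1 : q1 ∈ S) (a2 : p2 ∈ S) (a3 : p3 ∈ S) (b3 : q3 ∈ S) :
    ∃ k ∈ S, IsUnit k ∧ l3 = k * l1 := by
  have m3 : (p2 - p3) * (p2 - q3) ∈ S := mul_mem (sub_mem a2 a3) (sub_mem a2 b3)
  have m1 : (p2 - p1) * (p2 - q1) ∈ S := mul_mem (sub_mem a2 a1) (sub_mem a2 b1)
  obtain ⟨w, hw⟩ := (v1.mul v2).exists_right_inv
  have mw : w ∈ S := hS _ m3 (v1.mul v2) w (hw ▸ one_mem S)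
  refine ⟨-((p2 - p1) * (p2 - q1) * w), neg_mem (mul_mem m1 mw),
    ((w1.mul w2).mul (IsUnit.of_mul_eq_one_right _ hw)).neg, ?_⟩
  linear_combination w * h.at2 - l3 * hw

lemma Tri.det (h : Tri l1 l2 l3 p1 q1 p2 q2 p3 q3) (u1 : IsUnit l1) :
    (p2 - q3) * ((p2 - p3) * (p3 - q2) + (p3 - p1) * (p3 - q1))
      = (p2 - p1) * (p2 - q1) * (p3 - q2) := by
  refine u1.mul_left_cancel ?_
  linear_combination (p3 * q3 - p2 * q2) * h.e1 - (p3 + q3 - (p2 + q2)) * h.e2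
    - ((p2 + q2) * (p3 * q3) - (p3 + q3) * (p2 * q2)) * h.e0

/-- Roots and leading coefficients of twelve linear forms on the four quadrics. -/
structure Line (r c : Fin 4 → Fin 4 → R) : Prop where
  uc : ∀ i j, i ≠ j → IsUnit (c i j)
  ur : ∀ i j k l, i ≠ j → k ≠ l → ¬ (i = k ∧ j = l) → IsUnit (r i j - r k l)
  t3 : Tri (c 0 1 * c 0 2) (c 1 0 * c 1 2) (c 2 0 * c 2 1)
    (r 0 1) (r 0 2) (r 1 0) (r 1 2) (r 2 0) (r 2 1)
  t2 : Tri (c 0 1 * c 0 3) (c 1 0 * c 1 3) (c 3 0 * c 3 1)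
    (r 0 1) (r 0 3) (r 1 0) (r 1 3) (r 3 0) (r 3 1)
  t1 : Tri (c 0 2 * c 0 3) (c 2 0 * c 2 3) (c 3 0 * c 3 2)
    (r 0 2) (r 0 3) (r 2 0) (r 2 3) (r 3 0) (r 3 2)
  t0 : Tri (c 1 2 * c 1 3) (c 2 1 * c 2 3) (c 3 1 * c 3 2)
    (r 1 2) (r 1 3) (r 2 1) (r 2 3) (r 3 1) (r 3 2)

/-- The twelve parameters lie in `S`. -/
structure Par (S : Subring R) (r c : Fin 4 → Fin 4 → R) : Prop where
  r01 : r 0 1 ∈ S
  r02 : r 0 2 ∈ S
  r03 : r 0 3 ∈ S
  r10 : r 1 0 ∈ S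
  r20 : r 2 0 ∈ S
  r21 : r 2 1 ∈ S
  r30 : r 3 0 ∈ S
  r31 : r 3 1 ∈ S
  c01 : c 0 1 ∈ S
  c10 : c 1 0 ∈ S
  c20 : c 2 0 ∈ S
  c31 : c 3 1 ∈ S

variable {r c : Fin 4 → Fin 4 → R}

lemma Line.u2 (h : Line r c) (i j k l : Fin 4) (h1 : i ≠ j) (h2 : k ≠ l) :
    IsUnit (c i j * c k l) := (h.uc i j h1).mul (h.uc k l h2)

lemma Line.d (h : Line r c) (i j k l : Fin 4) (h1 : i ≠ j) (h2 : k ≠ l)
    (h3 : ¬ (i = k ∧ j = l)) : IsUnit (r i j - r k l) := h.ur i j k l h1 h2 h3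

lemma Line.r12 (h : Line r c) (hS : Sat S) (m : Par S r c) : r 1 2 ∈ S :=
  h.t3.root hS (h.u2 0 1 0 2 (by decide) (by decide)) (h.u2 1 0 1 2 (by decide) (by decide)) (h.d 1 0 2 0 (by decide) (by decide) (by decide)) (h.d 1 0 2 1 (by decide) (by decide) (by decide)) m.r01 m.r02 m.r10 m.r20
    m.r21

lemma Line.r13 (h : Line r c) (hS : Sat S) (m : Par S r c) : r 1 3 ∈ S :=
  h.t2.root hS (h.u2 0 1 0 3 (by decide) (by decide)) (h.u2 1 0 1 3 (by decide) (by decide)) (h.d 1 0 3 0 (by decide) (by decide) (by decide)) (h.d 1 0 3 1 (by decide) (by decide) (by decide)) m.r01 m.r03 m.r10 m.r30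
    m.r31

lemma Line.all (h : Line r c) (hS : Sat S) (m : Par S r c) (r23 : r 2 3 ∈ S) :
    ∀ i j, i ≠ j → r i j ∈ S ∧ c i j ∈ S := by
  have r12 := h.r12 hS m
  have r13 := h.r13 hS m
  have r32 : r 3 2 ∈ S := h.t1.swap.root hS (h.u2 0 2 0 3 (by decide) (by decide)) (h.u2 3 0 3 2 (by decide) (by decide)) (h.d 3 0 2 0 (by decide) (by decide) (by decide))
    (h.d 3 0 2 3 (by decide) (by decide) (by decide)) m.r02 m.r03 m.r30 m.r20 r23
  obtain ⟨k1, m1, u1, e1⟩ := h.t3.ratio hS (h.d 1 0 0 1 (by decide) (by decide) (by decide)) (h.d 1 0 0 2 (by decide) (by decide) (by decide)) (h.d 1 0 2 0 (by decide) (by decide) (by decide)) (h.d 1 0 2 1 (by decide) (by decide) (by decide))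
    m.r01 m.r02 m.r10 m.r20 m.r21
  obtain ⟨k2, m2, u2, e2⟩ := h.t3.swap.ratio hS (h.d 2 0 0 1 (by decide) (by decide) (by decide)) (h.d 2 0 0 2 (by decide) (by decide) (by decide)) (h.d 2 0 1 0 (by decide) (by decide) (by decide))
    (h.d 2 0 1 2 (by decide) (by decide) (by decide)) m.r01 m.r02 m.r20 m.r10 r12
  obtain ⟨k4, m4, u4, e4⟩ := h.t2.ratio hS (h.d 1 0 0 1 (by decide) (by decide) (by decide)) (h.d 1 0 0 3 (by decide) (by decide) (by decide)) (h.d 1 0 3 0 (by decide) (by decide) (by decide)) (h.d 1 0 3 1 (by decide) (by decide) (by decide))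
    m.r01 m.r03 m.r10 m.r30 m.r31
  obtain ⟨k3, m3, u3, e3⟩ := h.t2.swap.ratio hS (h.d 3 0 0 1 (by decide) (by decide) (by decide)) (h.d 3 0 0 3 (by decide) (by decide) (by decide)) (h.d 3 0 1 0 (by decide) (by decide) (by decide))
    (h.d 3 0 1 3 (by decide) (by decide) (by decide)) m.r01 m.r03 m.r30 m.r10 r13
  obtain ⟨k6, m6, u6, e6⟩ := h.t1.ratio hS (h.d 2 0 0 2 (by decide) (by decide) (by decide)) (h.d 2 0 0 3 (by decide) (by decide) (by decide)) (h.d 2 0 3 0 (by decide) (by decide) (by decide)) (h.d 2 0 3 2 (by decide) (by decide) (by decide))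
    m.r02 m.r03 m.r20 m.r30 r32
  obtain ⟨k5, m5, u5, e5⟩ := h.t1.swap.ratio hS (h.d 3 0 0 2 (by decide) (by decide) (by decide)) (h.d 3 0 0 3 (by decide) (by decide) (by decide)) (h.d 3 0 2 0 (by decide) (by decide) (by decide))
    (h.d 3 0 2 3 (by decide) (by decide) (by decide)) m.r02 m.r03 m.r30 m.r20 r23
  obtain ⟨k8, m8, u8, e8⟩ := h.t0.ratio hS (h.d 2 1 1 2 (by decide) (by decide) (by decide)) (h.d 2 1 1 3 (by decide) (by decide) (by decide)) (h.d 2 1 3 1 (by decide) (by decide) (by decide)) (h.d 2 1 3 2 (by decide) (by decide) (by decide))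
    r12 r13 m.r21 m.r31 r32
  obtain ⟨k7, m7, u7, e7⟩ := h.t0.swap.ratio hS (h.d 3 1 1 2 (by decide) (by decide) (by decide)) (h.d 3 1 1 3 (by decide) (by decide) (by decide)) (h.d 3 1 2 1 (by decide) (by decide) (by decide))
    (h.d 3 1 2 3 (by decide) (by decide) (by decide)) r12 r13 m.r31 m.r21 r23
  have u01 := h.uc 0 1 (by decide)
  have u02 := h.uc 0 2 (by decide)
  have u03 := h.uc 0 3 (by decide)
  have u10 := h.uc 1 0 (by decide)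
  have u20 := h.uc 2 0 (by decide)
  have u30 := h.uc 3 0 (by decide)
  have u31 := h.uc 3 1 (by decide)
  have c02 : c 0 2 ∈ S := by
    have e : k1 * k5 * (c 1 0 * c 1 0) * c 0 2 = k7 * k2 * k3 * c 0 1 * (c 2 0 * c 2 0) := by
      refine (u01.mul (u02.mul u03)).mul_left_cancel ?_
      linear_combination (c 2 0 * c 2 0 * (c 1 0 * c 1 0)) * e7
        - (c 1 0 * c 1 0 * (c 2 0 * c 2 3)) * e1 - (c 1 0 * c 1 0 * (k1 * (c 0 1 * c 0 2))) * e5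
        + (c 2 0 * c 2 0 * k7 * (c 1 0 * c 1 3)) * e2
        + (c 2 0 * c 2 0 * k7 * (k2 * (c 0 1 * c 0 2))) * e3
    exact hS _ (mul_mem (mul_mem m1 m5) (mul_mem m.c10 m.c10)) ((u1.mul u5).mul (u10.mul u10)) _
      (e ▸ mul_mem (mul_mem (mul_mem (mul_mem m7 m2) m3) m.c01) (mul_mem m.c20 m.c20))
  have c03 : c 0 3 ∈ S := by
    have e : k8 * k2 * k3 * k4 * (c 0 1 * c 0 1 * c 0 1) * c 0 3
        = k6 * (c 3 1 * c 3 1) * (c 1 0 * c 1 0) := by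
      refine (u02.mul u03).mul_left_cancel ?_
      linear_combination (c 3 1 * c 3 1 * (c 1 0 * c 1 0)) * e6
        - (c 3 0 * c 3 1 * (c 1 0 * c 1 0)) * e8
        - (k8 * (c 1 0 * c 1 2) * (c 1 0 * c 1 3)) * e4
        - (k8 * (k4 * (c 0 1 * c 0 3)) * (c 1 0 * c 1 3)) * e2
        - (k8 * (k4 * (c 0 1 * c 0 3)) * (k2 * (c 0 1 * c 0 2))) * e3
    exact hS _ (mul_mem (mul_mem (mul_mem (mul_mem m8 m2) m3) m4)
      (mul_mem (mul_mem m.c01 m.c01) m.c01))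
      ((((u8.mul u2).mul u3).mul u4).mul ((u01.mul u01).mul u01)) _
      (e ▸ mul_mem (mul_mem m6 (mul_mem m.c31 m.c31)) (mul_mem m.c10 m.c10))
  have c21 : c 2 1 ∈ S := hS _ m.c20 u20 _ (e1 ▸ mul_mem m1 (mul_mem m.c01 c02))
  have c12 : c 1 2 ∈ S := hS _ m.c10 u10 _ (e2 ▸ mul_mem m2 (mul_mem m.c01 c02))
  have c13 : c 1 3 ∈ S := hS _ m.c10 u10 _ (e3 ▸ mul_mem m3 (mul_mem m.c01 c03))
  have c30 : c 3 0 ∈ S := hS _ m.c31 u31 _ (mul_comm (c 3 0) (c 3 1) ▸ e4 ▸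
    mul_mem m4 (mul_mem m.c01 c03))
  have c23 : c 2 3 ∈ S := hS _ m.c20 u20 _ (e5 ▸ mul_mem m5 (mul_mem c02 c03))
  have c32 : c 3 2 ∈ S := hS _ c30 u30 _ (e6 ▸ mul_mem m6 (mul_mem c02 c03))
  intro i j hij
  fin_cases i <;> fin_cases j
  exacts [absurd rfl hij, ⟨m.r01, m.c01⟩, ⟨m.r02, c02⟩, ⟨m.r03, c03⟩, ⟨m.r10, m.c10⟩,
    absurd rfl hij, ⟨r12, c12⟩, ⟨r13, c13⟩, ⟨m.r20, m.c20⟩, ⟨m.r21, c21⟩, absurd rfl hij,
    ⟨r23, c23⟩, ⟨m.r30, c30⟩, ⟨m.r31, m.c31⟩, ⟨r32, c32⟩, absurd rfl hij]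

/-- The quadratic equation of the root `r 2 3`, with the square completed. -/
lemma Line.quad (h : Line r c) (hS : Sat S) (m : Par S r c) : ∃ β ∈ S,
    (2 * ((r 2 0 - r 2 1) * (r 2 0 - r 3 0) * (r 2 1 - r 3 1)
      - (r 2 0 - r 0 2) * (r 2 0 - r 0 3) * (r 2 1 - r 3 1)
      + (r 2 1 - r 1 2) * (r 2 1 - r 1 3) * (r 2 0 - r 3 0)) * r 2 3 + β) ^ 2 ∈ S := by
  have r12 := h.r12 hS m
  have r13 := h.r13 hS m
  have d1 := h.t1.det (h.u2 0 2 0 3 (by decide) (by decide))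
  have d0 := h.t0.det (h.u2 1 2 1 3 (by decide) (by decide))
  obtain ⟨g20, hg20⟩ : ∃ g, g = (r 2 0 - r 0 2) * (r 2 0 - r 0 3) := ⟨_, rfl⟩
  obtain ⟨g30, hg30⟩ : ∃ g, g = (r 3 0 - r 0 2) * (r 3 0 - r 0 3) := ⟨_, rfl⟩
  obtain ⟨g21, hg21⟩ : ∃ g, g = (r 2 1 - r 1 2) * (r 2 1 - r 1 3) := ⟨_, rfl⟩
  obtain ⟨g31, hg31⟩ : ∃ g, g = (r 3 1 - r 1 2) * (r 3 1 - r 1 3) := ⟨_, rfl⟩
  have m20 : g20 ∈ S := hg20 ▸ mul_mem (sub_mem m.r20 m.r02) (sub_mem m.r20 m.r03)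
  have m30 : g30 ∈ S := hg30 ▸ mul_mem (sub_mem m.r30 m.r02) (sub_mem m.r30 m.r03)
  have m21 : g21 ∈ S := hg21 ▸ mul_mem (sub_mem m.r21 r12) (sub_mem m.r21 r13)
  have m31 : g31 ∈ S := hg31 ▸ mul_mem (sub_mem m.r31 r12) (sub_mem m.r31 r13)
  rw [← hg20, ← hg30] at d1
  rw [← hg21, ← hg31] at d0
  rw [← hg20, ← hg21]
  have h20 := m.r20
  have h21 := m.r21
  have h30 := m.r30
  have h31 := m.r31
  generalize r 2 0 = a at *
  generalize r 2 1 = b at *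
  generalize r 3 0 = a' at *
  generalize r 3 1 = b' at *
  generalize r 2 3 = x at *
  generalize r 3 2 = y at *
  have m2 : (2 : R) ∈ S := by exact_mod_cast natCast_mem S 2
  have n1 : (a - a') * a' + g30 ∈ S := add_mem (mul_mem (sub_mem h20 h30) h30) m30
  have n0 : (b - b') * b' + g31 ∈ S := add_mem (mul_mem (sub_mem h21 h31) h31) m31
  obtain ⟨n1', hn1⟩ : ∃ g, g = (a - a') * a' + g30 := ⟨_, rfl⟩
  obtain ⟨n0', hn0⟩ : ∃ g, g = (b - b') * b' + g31 := ⟨_, rfl⟩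
  rw [← hn1] at n1
  rw [← hn0] at n0
  have mA : (a - b) * (a - a') * (b - b') - g20 * (b - b') + g21 * (a - a') ∈ S :=
    add_mem (sub_mem (mul_mem (mul_mem (sub_mem h20 h21) (sub_mem h20 h30)) (sub_mem h21 h31))
      (mul_mem m20 (sub_mem h21 h31))) (mul_mem m21 (sub_mem h20 h30))
  have mB : g20 * (n0' + a' * (b - b')) - g21 * (n1' + b' * (a - a'))
      - (a - b) * (n1' * (b - b') + n0' * (a - a')) ∈ S :=
    sub_mem (sub_mem (mul_mem m20 (add_mem n0 (mul_mem h30 (sub_mem h21 h31))))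
      (mul_mem m21 (add_mem n1 (mul_mem h31 (sub_mem h20 h30)))))
      (mul_mem (sub_mem h20 h21) (add_mem (mul_mem n1 (sub_mem h21 h31))
        (mul_mem n0 (sub_mem h20 h30))))
  have mC : (a - b) * (n1' * n0') - g20 * (a' * n0') + g21 * (b' * n1') ∈ S :=
    add_mem (sub_mem (mul_mem (sub_mem h20 h21) (mul_mem n1 n0)) (mul_mem m20 (mul_mem h30 n0)))
      (mul_mem m21 (mul_mem h31 n1))
  have e : ((a - b) * (a - a') * (b - b') - g20 * (b - b') + g21 * (a - a')) * x ^ 2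
      + (g20 * (n0' + a' * (b - b')) - g21 * (n1' + b' * (a - a'))
        - (a - b) * (n1' * (b - b') + n0' * (a - a'))) * x
      + ((a - b) * (n1' * n0') - g20 * (a' * n0') + g21 * (b' * n1')) = 0 := by
    rw [hn1, hn0]
    linear_combination ((b - b') * (b' - x) + g31) * d1 - ((a - a') * (a' - x) + g30) * d0
  refine ⟨_, mB, ?_⟩
  generalize (a - b) * (a - a') * (b - b') - g20 * (b - b') + g21 * (a - a') = A at *
  generalize g20 * (n0' + a' * (b - b')) - g21 * (n1' + b' * (a - a'))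
      - (a - b) * (n1' * (b - b') + n0' * (a - a')) = B at *
  generalize (a - b) * (n1' * n0') - g20 * (a' * n0') + g21 * (b' * n1') = C at *
  have e' : (2 * A * x + B) ^ 2 = B * B - 2 * 2 * (A * C) := by linear_combination 4 * A * e
  rw [e']
  exact sub_mem (mul_mem mB mB) (mul_mem (mul_mem m2 m2) (mul_mem mA mC))

lemma Tri.prod {R' : Type} [CommRing R'] {l1 l2 l3 p1 q1 p2 q2 p3 q3 : R × R'}
    (h : Tri l1.1 l2.1 l3.1 p1.1 q1.1 p2.1 q2.1 p3.1 q3.1)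
    (h' : Tri l1.2 l2.2 l3.2 p1.2 q1.2 p2.2 q2.2 p3.2 q3.2) : Tri l1 l2 l3 p1 q1 p2 q2 p3 q3 :=
  ⟨Prod.ext h.e0 h'.e0, Prod.ext h.e1 h'.e1, Prod.ext h.e2 h'.e2⟩

lemma Line.prod {R' : Type} [CommRing R'] {r' c' : Fin 4 → Fin 4 → R'} (h : Line r c)
    (h' : Line r' c') : Line (fun i j => (r i j, r' i j)) fun i j => (c i j, c' i j) :=
  ⟨fun i j hij => Prod.isUnit_iff.mpr ⟨h.uc i j hij, h'.uc i j hij⟩,
    fun i j k l h1 h2 h3 => Prod.isUnit_iff.mpr ⟨h.ur i j k l h1 h2 h3, h'.ur i j k l h1 h2 h3⟩,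
    Tri.prod h.t3 h'.t3, Tri.prod h.t2 h'.t2, Tri.prod h.t1 h'.t1, Tri.prod h.t0 h'.t0⟩

end ring

/-- The roots of the linear forms. -/
noncomputable def rt (a : Fin 4 → Fin 4 → Fin 2 → ℂ) (i j : Fin 4) : ℂ := -a i j 0 / a i j 1

variable {a : Fin 4 → Fin 4 → Fin 2 → ℂ}

lemma lin_eq (U : Fin 2 → ℂ) (i j : Fin 4) : lin a U i j = a i j 0 * U 0 + a i j 1 * U 1 := by
  simp [lin, form, Fin.sum_univ_two]

lemma zero_eq (h : GoodLine a) {i j : Fin 4} (hij : i ≠ j) : a i j 0 = -(rt a i j * a i j 1) := by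
  obtain ⟨-, -, r, hr, -⟩ := h
  have := (hr i j hij).1
  rw [rt]; field_simp

lemma rt_eq {r : Fin 4 → Fin 4 → ℂ} (hr : ∀ i j, i ≠ j → a i j 1 ≠ 0 ∧ a i j 0 + r i j * a i j 1 = 0)
    (i j : Fin 4) (hij : i ≠ j) : rt a i j = r i j := by
  obtain ⟨h1, h2⟩ := hr i j hij
  rw [rt, div_eq_iff h1]
  linear_combination -h2

lemma tri_of (h : GoodLine a) (m : Fin 4) : Tri (a (c1 m) (c2 m) 1 * a (c1 m) (c3 m) 1)
    (a (c2 m) (c1 m) 1 * a (c2 m) (c3 m) 1) (a (c3 m) (c1 m) 1 * a (c3 m) (c2 m) 1)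
    (rt a (c1 m) (c2 m)) (rt a (c1 m) (c3 m)) (rt a (c2 m) (c1 m)) (rt a (c2 m) (c3 m))
    (rt a (c3 m) (c1 m)) (rt a (c3 m) (c2 m)) := by
  have h12 : c1 m ≠ c2 m := by revert m; decide
  have h13 : c1 m ≠ c3 m := by revert m; decide
  have h23 : c2 m ≠ c3 m := by revert m; decide
  have q0 := h.2.1 ![0, 1] m
  have q1 := h.2.1 ![1, 1] m
  have q2 := h.2.1 ![1, 0] m
  simp only [quadQ, lin_eq, Matrix.cons_val_zero, Matrix.cons_val_one, zero_eq h h12,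
    zero_eq h h13, zero_eq h h23, zero_eq h h12.symm, zero_eq h h13.symm,
    zero_eq h h23.symm] at q0 q1 q2
  exact ⟨by linear_combination q0, by linear_combination q0 + q2 - q1, by linear_combination q2⟩

lemma line_of (h : GoodLine a) : Line (rt a) fun i j => a i j 1 := by
  refine ⟨?_, ?_, tri_of h 3, tri_of h 2, tri_of h 1, tri_of h 0⟩
  · obtain ⟨-, -, r, hr, -⟩ := h
    exact fun i j hij => (hr i j hij).1.isUnit
  · obtain ⟨-, -, r, hr, hd, -⟩ := h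
    intro i j k l h1 h2 h3
    rw [rt_eq hr i j h1, rt_eq hr k l h2]
    exact (sub_ne_zero.mpr fun e => h3 (hd i j k l h1 h2 e)).isUnit

lemma lead_ne (h : GoodLine a) : (rt a 2 0 - rt a 2 1) * (rt a 2 0 - rt a 3 0) * (rt a 2 1 - rt a 3 1)
      - (rt a 2 0 - rt a 0 2) * (rt a 2 0 - rt a 0 3) * (rt a 2 1 - rt a 3 1)
      + (rt a 2 1 - rt a 1 2) * (rt a 2 1 - rt a 1 3) * (rt a 2 0 - rt a 3 0) ≠ 0 := by
  obtain ⟨-, -, r, hr, -, hl⟩ := h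
  rw [rt_eq hr 2 0 (by decide), rt_eq hr 2 1 (by decide), rt_eq hr 3 0 (by decide), rt_eq hr 3 1 (by decide), rt_eq hr 0 2 (by decide), rt_eq hr 0 3 (by decide),
    rt_eq hr 1 2 (by decide), rt_eq hr 1 3 (by decide)]
  exact fun e => hl (by linear_combination -e)

end A2

open A2

theorem thm_A2 : S_A2 := by
  intro a a' h h' ρ hp r23 i j
  have hS : Sat ρ.G := by
    rintro ⟨d, d'⟩ hd hu ⟨x, x'⟩ hx
    obtain ⟨u, u'⟩ := Prod.isUnit_iff.mp hu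
    have := mul_mem (ρ.loc d d' hd u'.ne_zero) hx
    simpa [u.ne_zero, u'.ne_zero] using this
  have m : Par ρ.G (fun i j => (rt a i j, rt a' i j)) fun i j => (a i j 1, a' i j 1) :=
    ⟨hp 0, hp 1, hp 2, hp 3, hp 4, hp 5, hp 6, hp 7, hp 8, hp 9, hp 10, hp 11⟩
  rcases eq_or_ne i j with rfl | hij
  · intro k
    rw [h.1 i, h'.1 i]
    exact zero_mem _
  obtain ⟨m1, m2⟩ := ((line_of h).prod (line_of h')).all hS m r23 i j hij
  refine Fin.forall_fin_two.mpr ⟨?_, m2⟩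
  rw [zero_eq h hij, zero_eq h' hij]
  exact neg_mem (mul_mem m1 m2)

theorem thm_A3 : S_A3 := by
  intro a h i j k
  let A := Algebra.adjoin ℚ (Set.range (parA a))
  let S : Subring ℂ := (Subalgebra.algebraicClosure A ℂ).toSubring
  have hS : Sat S := fun d hd hu x hx =>
    IsAlgebraic.of_mul (mem_nonZeroDivisors_of_ne_zero hu.ne_zero) hd hx
  have hp : ∀ s, parA a s ∈ S := fun s =>
    isAlgebraic_algebraMap (⟨parA a s, Algebra.subset_adjoin ⟨s, rfl⟩⟩ : A)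
  have m : Par S (rt a) fun i j => a i j 1 :=
    ⟨hp 0, hp 1, hp 2, hp 3, hp 4, hp 5, hp 6, hp 7, hp 8, hp 9, hp 10, hp 11⟩
  have hl := line_of h
  have r12 := hl.r12 hS m
  have r13 := hl.r13 hS m
  have r23 : rt a 2 3 ∈ S := by
    obtain ⟨β, hβ, hq⟩ := hl.quad hS m
    have h1 := sub_mem (show _ ∈ S from IsAlgebraic.of_pow two_pos hq) hβ
    rw [add_sub_cancel_right] at h1
    refine hS _ (mul_mem (by exact_mod_cast natCast_mem S 2) ?_)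
      (mul_ne_zero two_ne_zero (lead_ne h)).isUnit _ h1
    exact add_mem (sub_mem (mul_mem (mul_mem (sub_mem m.r20 m.r21) (sub_mem m.r20 m.r30))
      (sub_mem m.r21 m.r31)) (mul_mem (mul_mem (sub_mem m.r20 m.r02) (sub_mem m.r20 m.r03))
        (sub_mem m.r21 m.r31))) (mul_mem (mul_mem (sub_mem m.r21 r12) (sub_mem m.r21 r13))
          (sub_mem m.r20 m.r30))
  change a i j k ∈ S
  rcases eq_or_ne i j with rfl | hij
  · rw [h.1 i]
    exact zero_mem _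
  obtain ⟨m1, m2⟩ := hl.all hS m r23 i j hij
  revert k
  refine Fin.forall_fin_two.mpr ⟨?_, m2⟩
  rw [zero_eq h hij]
  exact neg_mem (mul_mem m1 m2)

end Pool.Agent.P.MP_7ebcb6_ag.SC
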