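import Pool.Agent.P.MP_7ebcb6_ag.SC.St1
import Pool.Agent.P.MP_7ebcb6_ag.G8.Lift

/-! Nondegenerate solutions and matrices of full rank go up and down along places. -/

namespace Pool.Agent.P.MP_7ebcb6_ag.SC

open G8 Function

namespace H2

variable {π σ τ K L : Type} [Field K] [Field L]

lemma inj_iff (hD : S_DEQ) [Fintype σ] [DecidableEq σ] (E : Sys π σ τ) (a : π → K) (x : σ → K) :
    E.Inj a x ↔ MI fun t s => E.d a x (fun _ => 0) (Pi.single s 1) t := by
  simp only [Sys.Inj, MI, ← hD π σ τ K E a x]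

lemma mem_d (E : Sys π σ τ) {G : Subring (K × L)} {a a1 : π → K} {a' a1' : π → L} {x x1 : σ → K}
    {x' x1' : σ → L} (ha : MV G a a') (hx : MV G x x') (ha1 : MV G a1 a1') (hx1 : MV G x1 x1')
    (t : τ) : (E.d a x a1 x1 t, E.d a' x' a1' x1' t) ∈ G :=
  mem_of_el (E.d ha.el hx.el ha1.el hx1.el t) (E.d_nat (homF G) ..) (E.d_nat (homS G) ..)

lemma mem_jac [DecidableEq σ] (E : Sys π σ τ) {G : Subring (K × L)} {a : π → K} {a' : π → L}
    {x : σ → K} {x' : σ → L} (ha : MV G a a') (hx : MV G x x') (t : τ) :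
    MV G (fun s => E.d a x (fun _ => 0) (Pi.single s 1) t)
      fun s => E.d a' x' (fun _ => 0) (Pi.single s 1) t := fun s =>
  mem_d E ha hx (fun _ => zero_mem G) (fun r => by
    by_cases h : r = s
    · subst h
      simp only [Pi.single_eq_same]
      exact one_mem G
    · simp only [Pi.single_eq_of_ne h]
      exact zero_mem G) t

lemma mv_nox (G : Subring (K × L)) : MV G nox nox := fun e => e.elim

end H2

open H2

theorem thm_MIU : S_MIU := by
  intro τ σ K L _ _ _ pl J J' hJ h e he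
  by_contra h0
  let q := Fintype.equivFin σ
  obtain ⟨Q, hQ, c, hc⟩ := pl.exists_red (P := fun i => e (q.symm i)) fun h1 =>
    h0 (funext fun s => by simpa using congrFun h1 (q s))
  have h2 := h (fun s => Q (q s)) fun t => pl.func _ (by
    have h3 := Plc.sum_mem (pl := pl) Finset.univ (f := fun s => J t s * (c * e s))
      (g := fun s => J' t s * Q (q s)) fun s _ => Plc.mul (hJ t s) (by simpa using hc (q s))
    have h4 : ∑ s, J t s * (c * e s) = 0 := by
      simp only [mul_left_comm _ c, ← Finset.mul_sum, he t, mul_zero]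
    rwa [h4] at h3)
  exact hQ (funext fun i => by simpa using congrFun h2 (q.symm i))

theorem thm_MID : S_MID := by
  intro τ σ _ _ J h
  classical
  have := Fintype.ofFinite τ
  obtain ⟨g, hg⟩ := (Matrix.toLin' (Matrix.of J)).exists_leftInverse_of_injective
    (LinearMap.ker_eq_bot'.2 fun e he => h e fun t => congrFun he t)
  have hB : LinearMap.toMatrix' g * Matrix.of J = 1 := by
    have := congrArg LinearMap.toMatrix' hg
    rwa [LinearMap.toMatrix'_comp, LinearMap.toMatrix'_toLin', LinearMap.toMatrix'_id] at this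
  generalize LinearMap.toMatrix' g = B at hB
  filter_upwards [ae_tv fun p : σ × τ => B p.1 p.2, ae_tv fun p : τ × σ => J p.1 p.2]
    with sp h1 h2 e he
  have h3 : (Matrix.of fun s t => lim sp (B s t)) * (Matrix.of fun t s => lim sp (J t s)) = 1 := by
    ext s r
    have h4 := Tends.sum Finset.univ fun t _ => (h1 (s, t)).mul (h2 (t, r))
    have h5 : ∑ t, B s t * J t r = (1 : Matrix σ σ Om) s r := congrFun (congrFun hB s) r
    simp only [h5] at h4
    refine h4.unique ?_
    rw [Matrix.one_apply, Matrix.one_apply]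
    split_ifs
    exacts [Tends.one, Tends.zero]
  have h6 : (Matrix.of fun t s => lim sp (J t s)).mulVec e = 0 := funext he
  rw [← Matrix.one_mulVec e, ← h3, ← Matrix.mulVec_mulVec, h6, Matrix.mulVec_zero]

open MvPolynomial in
theorem thm_UP (hD : S_DEQ) : S_UP := by
  intro π σ τ ο K L _ _ _ _ _ E O pl a a' x' hc ha hg
  classical
  let q := Fintype.equivFin σ
  let p : τ ≃ Fin (Fintype.card σ) := Fintype.equivFinOfCardEq hc.symm
  let f : Fin (Fintype.card σ) → MvPolynomial (Fin (Fintype.card σ)) pl.G := fun i =>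
    E.ev (fun j => C (ha.el j)) (fun s => X (q s)) (p.symm i)
  have hf : ∀ {T : Type} [CommRing T] (φ : pl.G →+* T) (y : Fin (Fintype.card σ) → T) i,
      eval₂ φ y (f i) = E.ev (fun j => φ (ha.el j)) (fun s => y (q s)) (p.symm i) := by
    intro T _ φ y i
    have := E.map (eval₂Hom φ y) (fun j => C (ha.el j)) (fun s => X (q s)) (p.symm i)
    simpa only [coe_eval₂Hom, eval₂_C, eval₂_X] using this
  obtain ⟨x, hx, hrel⟩ := exists_lift (gfst pl.G) pl.fst_injective (gsnd pl.G) f
    (fun k => x' (q.symm k)) (fun i => by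
      rw [hf]
      simp only [Equiv.symm_apply_apply]
      exact hg.eq _) (fun h0 => by
      obtain ⟨v, hv, e⟩ := Matrix.exists_mulVec_eq_zero_iff.2 h0
      have h1 := hg.inj (fun s => v (q s)) fun t => by
        have h2 := snd_eval₂ (gsnd pl.G) (fun k => x' (q.symm k)) v (f (p t))
        rw [hf] at h2
        simp only [Equiv.symm_apply_apply] at h2
        have h3 := E.nat hom_dn (fun i => (⟨a' i, 0⟩ : Du L)) (fun s => ⟨x' s, v (q s)⟩) t
        exact (congrArg Prod.snd (h3.trans h2)).trans (congrFun e (p t))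
      exact hv (funext fun k => by simpa using congrFun h1 (q.symm k)))
  have key : ∀ k b, (x k, b) ∈ pl.G → (x k, x' (q.symm k)) ∈ pl.G := fun k b hb => by
    have := hrel (X k - C ⟨_, hb⟩) (by rw [eval₂_sub, eval₂_X, eval₂_C]; exact sub_self _)
    rw [eval₂_sub, eval₂_X, eval₂_C, sub_eq_zero] at this
    rw [this]
    exact hb
  have hm : MV pl.G (fun s => x (q s)) x' := fun s => by
    suffices h : (x (q s), x' (q.symm (q s))) ∈ pl.G by rwa [q.symm_apply_apply] at h
    by_cases h0 : x (q s) = 0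
    · exact key _ 0 (h0 ▸ zero_mem _)
    rcases pl.val (x (q s)) with ⟨b, hb⟩ | ⟨b, hb⟩
    · exact key _ b hb
    · have := hrel (C ⟨_, hb⟩ * X (q s) - 1) (by
        rw [eval₂_sub, eval₂_mul, eval₂_X, eval₂_C, eval₂_one, sub_eq_zero]
        exact inv_mul_cancel₀ h0)
      rw [eval₂_sub, eval₂_mul, eval₂_X, eval₂_C, eval₂_one, sub_eq_zero] at this
      have h1 := pl.loc _ _ hb (left_ne_zero_of_mul_eq_one this)
      rw [inv_inv] at h1
      exact key _ _ h1
  refine ⟨_, hm, fun t => ?_, fun o => Plc.ne_zero (O.mem' ha hm o) (hg.op o), ?_⟩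
  · have := hx (p t)
    rwa [hf, p.symm_apply_apply] at this
  · exact (inj_iff hD E _ _).2
      (thm_MIU _ _ _ _ pl _ _ (mem_jac E ha hm) ((inj_iff hD E _ _).1 hg.inj))

theorem thm_DOWN (hD : S_DEQ) : S_DOWN := by
  intro π σ τ ο _ _ _ E O a x ha hg
  classical
  have := Fintype.ofFinite σ
  filter_upwards [ha, ae_tv x, Filter.eventually_all.2 fun o => ae_lim_ne (hg.op o),
    thm_MID _ _ _ ((inj_iff hD E a x).1 hg.inj)] with sp h1 h2 h3 h4
  refine ⟨fun t => (E.tends h1 h2 t).eq_zero (hg.eq t), fun o => ?_, (inj_iff hD E _ _).2 ?_⟩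
  · rw [← lim_eq (O.tends h1 h2 o)]
    exact h3 o
  · exact (funext₂ fun t s => lim_eq (mem_jac E (G := (spPl sp).G) h1 h2 t s)) ▸ h4

theorem thm_MUP : S_MUP := fun _ _ _ _ _ _ E _ pl _ _ ha h =>
  thm_MIU _ _ _ _ pl _ _ (fun _ _ => E.mem' ha (mv_nox _) _) h

theorem thm_MDOWN : S_MDOWN := by
  intro π τ _ E n a ha h
  filter_upwards [ha, thm_MID _ _ _ h] with sp h1 h2
  have e : (fun (t : τ) (s : Fin n) => lim sp (E.ev a nox (t, s))) =
      fun (t : τ) (s : Fin n) => E.ev (fun i => lim sp (a i)) nox (t, s) :=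
    funext₂ fun t s => lim_eq (E.mem' (G := (spPl sp).G) h1 (mv_nox _) _)
  rw [e] at h2
  exact h2

theorem thm_IDOWN : S_IDOWN := by
  intro ι _ u hu
  have h : ∀ p : ι × ι, ∀ᶠ sp in ae, p.1 ≠ p.2 → lim sp (u p.1 - u p.2) ≠ 0 := fun p => by
    by_cases e : p.1 = p.2
    · exact Filter.Eventually.of_forall fun _ h => absurd e h
    · exact (ae_lim_ne (sub_ne_zero.2 (hu.ne e))).mono fun _ h _ => h
  filter_upwards [ae_tv u, Filter.eventually_all.2 h] with sp h1 h2 i j e
  by_contra h3
  exact h2 (i, j) h3 ((lim_eq ((h1 i).sub (h1 j))).trans (sub_eq_zero.2 e))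

end Pool.Agent.P.MP_7ebcb6_ag.SC
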