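import Pool.Agent.P.MP_7ebcb6_ag.SC.St3
import Pool.Agent.P.MP_7ebcb6_ag.SC.H2
import Pool.Agent.P.MP_7ebcb6_ag.G8.Indep

/-! The generic solution of the linear system specialises to every solution. -/

namespace Pool.Agent.P.MP_7ebcb6_ag.SC

open G8 Function

namespace B

/-- A subspace of dimension at most `n` is detected by `n` coordinates. -/
lemma exists_coords {K σ : Type} [Field K] [Fintype σ] (s0 : σ) : ∀ (n : ℕ)
    (W : Submodule K (σ → K)), Module.finrank K W ≤ n →
    ∃ f : Fin n → σ, ∀ v ∈ W, (∀ j, v (f j) = 0) → v = 0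
  | 0, W, h => by
    have hW : W = ⊥ := Submodule.finrank_eq_zero.1 (Nat.le_zero.1 h)
    exact ⟨fun _ => s0, fun v hv _ => by rwa [hW] at hv⟩
  | n + 1, W, h => by
    by_cases hW : ∀ v ∈ W, v = 0
    · exact ⟨fun _ => s0, fun v hv _ => hW v hv⟩
    push Not at hW
    obtain ⟨w, hw, hw0⟩ := hW
    obtain ⟨s, hs⟩ := Function.ne_iff.1 hw0
    have hlt : W ⊓ LinearMap.ker (LinearMap.proj s : (σ → K) →ₗ[K] K) < W :=
      lt_of_le_of_ne inf_le_left fun e => hs (by
        have := e.symm ▸ hw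
        exact this.2)
    obtain ⟨f, hf⟩ := exists_coords s0 n _
      (Nat.le_of_lt_succ ((Submodule.finrank_lt_finrank_of_lt hlt).trans_le h))
    exact ⟨Fin.cons s f, fun v hv h0 => hf v ⟨hv, h0 0⟩ fun j => h0 j.succ⟩

lemma exists_free {K σ τ : Type} [Field K] [Fintype σ] [Fintype τ] (s0 : σ) (n : ℕ)
    (hn : Fintype.card σ = Fintype.card τ + n) (J : σ → τ → K) (h : MI J) :
    ∃ f : Fin n → σ, ∀ v : σ → K, (∀ t, ∑ s, J s t * v s = 0) → (∀ j, v (f j) = 0) → v = 0 := by
  classical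
  have h1 : (Matrix.of J).rank = Fintype.card τ := by
    rw [Matrix.rank, LinearMap.finrank_range_of_inj, Module.finrank_fintype_fun_eq_card]
    exact (injective_iff_map_eq_zero _).2 fun e he => h e fun s => congrFun he s
  have h2 := LinearMap.finrank_range_add_finrank_ker (Matrix.of J).transpose.mulVecLin
  rw [← Matrix.rank, Matrix.rank_transpose, h1, Module.finrank_fintype_fun_eq_card, hn] at h2
  obtain ⟨f, hf⟩ := exists_coords s0 n (LinearMap.ker (Matrix.of J).transpose.mulVecLin)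
    (by omega)
  exact ⟨f, fun v hv h0 => hf v (funext hv) h0⟩

/-- The solution of a system with trivial kernel lies in the field of the coefficients. -/
lemma mem_field {ι σ : Type} [Fintype σ] (k : Subfield ℂ) (J : ι → σ → ℂ) (h : MI J)
    (hJ : ∀ i s, J i s ∈ k) (v : σ → ℂ) (hb : ∀ i, ∑ s, J i s * v s ∈ k) (s : σ) : v s ∈ k := by
  obtain ⟨g, hg⟩ := (Algebra.linearMap k ℂ).exists_leftInverse_of_injective
    (LinearMap.ker_eq_bot.2 (algebraMap k ℂ).injective)
  have hg' : ∀ x : k, g x = x := fun x => LinearMap.congr_fun hg x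
  have h0 := h (fun s => v s - g (v s)) fun i => by
    have h1 := hg' ⟨_, hb i⟩
    have h2 : g (∑ s, J i s * v s) = ∑ s, (⟨_, hJ i s⟩ : k) * g (v s) := by
      rw [map_sum]
      exact Finset.sum_congr rfl fun s _ => g.map_smul (⟨_, hJ i s⟩ : k) (v s)
    have h3 := congrArg Subtype.val (h1.symm.trans h2)
    simp only [mul_sub, Finset.sum_sub_distrib]
    rw [sub_eq_zero]
    simpa using h3
  have h4 : v s = g (v s) := sub_eq_zero.1 (congrFun h0 s)
  rw [h4]
  exact (g (v s)).2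

/-- The solution of a system with trivial kernel at the place specialises. -/
lemma mem_place {K L ι σ : Type} [Field K] [Field L] [Fintype σ] (pl : Plc K L) {J : ι → σ → K}
    {J' : ι → σ → L} (hJ : ∀ i, MV pl.G (J i) (J' i)) (h : MI J') {v : σ → K} {v' : σ → L}
    (hb : ∀ i, (∑ s, J i s * v s, ∑ s, J' i s * v' s) ∈ pl.G) : MV pl.G v v' := by
  let q := Fintype.equivFin (Option σ)
  obtain ⟨Q, hQ, c, hc⟩ := pl.exists_red (P := fun i => (q.symm i).elim (1 : K) v) fun h1 =>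
    one_ne_zero (α := K) (by simpa using congrFun h1 (q none))
  have c0 : (c, Q (q none)) ∈ pl.G := by simpa using hc (q none)
  have c1 : ∀ s, (c * v s, Q (q (some s))) ∈ pl.G := fun s => by simpa using hc (q (some s))
  have h2 := h (fun s => Q (q (some s)) - Q (q none) * v' s) fun i => by
    have h3 := Plc.sum_mem (pl := pl) Finset.univ (f := fun s => J i s * (c * v s))
      (g := fun s => J' i s * Q (q (some s))) fun s _ => Plc.mul (hJ i s) (c1 s)
    have h4 := Plc.mul c0 (hb i)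
    simp only [mul_left_comm _ c, ← Finset.mul_sum] at h3
    simp only [mul_sub, Finset.sum_sub_distrib, mul_left_comm _ (Q (q none)), ← Finset.mul_sum]
    exact sub_eq_zero.2 (Plc.uniq h3 h4)
  have h5 : ∀ s, Q (q (some s)) = Q (q none) * v' s := fun s => sub_eq_zero.1 (congrFun h2 s)
  have h6 : Q (q none) ≠ 0 := fun e => hQ (funext fun i => by
    obtain ⟨j, rfl⟩ := q.surjective i
    cases j with
    | none => exact e
    | some s => rw [h5, e, zero_mul]; rfl)
  intro s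
  have h7 := Plc.mul (pl.loc _ _ c0 h6) (c1 s)
  rwa [h5, inv_mul_cancel_left₀ h6, inv_mul_cancel_left₀ (Plc.ne_zero c0 h6)] at h7

section lin

variable {K : Type} [Field K]

lemma bf_add {n : ℕ} (d : ℕ) (x y : Fin n → K) (U : Fin 2 → K) :
    bf d (sq fun c => x c + y c) U = bf d (sq x) U + bf d (sq y) U := by
  simp only [bf_eq, ← Finset.sum_add_distrib]
  refine Finset.sum_congr rfl fun i _ => ?_
  unfold sq
  split_ifs
  · ring
  · simp

lemma bf_mul {n : ℕ} (d : ℕ) (r : K) (x : Fin n → K) (U : Fin 2 → K) :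
    bf d (sq fun c => r * x c) U = r * bf d (sq x) U := by
  simp only [bf_eq, Finset.mul_sum]
  refine Finset.sum_congr rfl fun i _ => ?_
  unfold sq
  split_ifs
  · ring
  · simp

/-- The equations are linear in the unknowns. -/
def lm (a : πL → K) (t : τL) : (σL → K) →ₗ[K] K where
  toFun v := LM.ev a v t
  map_add' x y := by
    rcases t with i | i | i <;>
      simp only [LM, Sum.elim_inl, Sum.elim_inr, Pi.add_apply, bf_add, cmp, az, nfm] <;> ring
  map_smul' r x := by
    rcases t with i | i | i <;>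
      simp only [LM, Sum.elim_inl, Sum.elim_inr, Pi.smul_apply, smul_eq_mul, bf_mul, cmp, az, nfm,
        RingHom.id_apply] <;> ring

lemma ev_eq (a : πL → K) (v : σL → K) (t : τL) :
    ∑ s, LM.ev a (Pi.single s 1) t * v s = LM.ev a v t := by
  change _ = lm a t v
  conv_rhs => rw [pi_eq_sum_univ' v, map_sum]
  exact Finset.sum_congr rfl fun s _ => by rw [map_smul, smul_eq_mul, mul_comm]; rfl

/-- The right hand sides. -/
def RH : Sys πL Empty τL where
  ev {R} _ _ _ _ a _ t := Sum.elim (fun _ => ((0 : ℕ) : R)) (Sum.elim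
    (fun q => yOf a (pa q) * yOf a (pb q))
    fun _ => ng (cayl (lnv (aOf a) (af (uOf a))) (yOf a))) t
  nat {R S} _ _ _ _ _ _ _ _ f h a x t := by
    rcases t with i | i | i <;>
      simp only [Sum.elim_inl, Sum.elim_inr, h.mul, h.nat, h.ng, h.cayl, h.lnv, h.af] <;> rfl

lemma sol_eq {a : πL → K} {v : σL → K} (h : SolL a v) (t : τL) : LM.ev a v t = RH.ev a nox t := by
  rcases t with i | i | i
  · exact (h.1 i).trans Nat.cast_zero.symm
  · exact h.2.1 i
  · exact h.2.2.trans (ng_eq _).symm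

/-- The matrix of the system together with the free coordinates. -/
def JJ (a : πL → K) (f : Fin 13 → σL) : τL ⊕ Fin 13 → σL → K :=
  Sum.elim (fun t s => LM.ev a (Pi.single s 1) t) fun j s => if s = f j then 1 else 0

lemma JJ_sum {a : πL → K} {v : σL → K} (h : SolL a v) (f : Fin 13 → σL) (i : τL ⊕ Fin 13) :
    ∑ s, JJ a f i s * v s = Sum.elim (RH.ev a nox) (fun j => v (f j)) i := by
  rcases i with t | j
  · exact (ev_eq a v t).trans (sol_eq h t)
  · simp [JJ]

lemma exists_JJ {a : πL → K} (h : OntoL a) : ∃ f, MI (JJ a f) := by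
  obtain ⟨f, hf⟩ := exists_free (.inl 0) 13 (by simp) _ h
  exact ⟨f, fun v hv => hf v (fun t => hv (.inl t)) fun j => by simpa [JJ] using hv (.inr j)⟩

lemma mem_JJ {L : Type} [Field L] {G : Subring (K × L)} {a : πL → K} {a' : πL → L}
    (h : MV G a a') (f : Fin 13 → σL) (i : τL ⊕ Fin 13) : MV G (JJ a f i) (JJ a' f i) := by
  intro s
  rcases i with t | j
  · refine LM.mem' h (fun r => ?_) t
    by_cases h : r = s
    · subst h
      simp only [Pi.single_eq_same]
      exact one_mem G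
    · simp only [Pi.single_eq_of_ne h]
      exact zero_mem G
  · simp only [JJ, Sum.elim_inr]
    split_ifs
    · exact one_mem G
    · exact zero_mem G

end lin

/-- The parameters besides those of the line. -/
def xs (a : πL → ℂ) (v : σL → ℂ) (t : ℂ) (f : Fin 13 → σL) :
    (Unit ⊕ Fin 3) ⊕ Fin 13 ⊕ Unit → ℂ :=
  Sum.elim (Sum.elim (fun _ => uOf a) fun i => yOf a i.succ) (Sum.elim (fun j => v (f j)) fun _ => t)

lemma indep (h3 : S_A3) {a : πL → ℂ} {v : σL → ℂ} {t : ℂ} {s : Fin 30 → ℂ}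
    (hs : AlgebraicIndependent ℚ s) (hr : ∀ j, s j ∈ Set.range a ∪ Set.range v ∪ {t})
    (hg : GoodLine (aOf a)) (hy : yOf a 0 = 1) (hv : SolL a v) {f : Fin 13 → σL}
    (hf : MI (JJ a f)) : AlgebraicIndependent ℚ (Sum.elim (parA (aOf a)) (xs a v t f)) := by
  let e : Fin 30 ≃ Fin 12 ⊕ (Unit ⊕ Fin 3) ⊕ Fin 13 ⊕ Unit :=
    (Fintype.equivFinOfCardEq (by simp)).symm
  rw [← algebraicIndependent_equiv e]
  refine indep_of_algebraic hs fun j => ?_
  rw [e.surjective.range_comp]
  generalize hP : Sum.elim (parA (aOf a)) (xs a v t f) = P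
  let k : Subfield ℂ :=
    { (Subalgebra.algebraicClosure (Algebra.adjoin ℚ (Set.range P)) ℂ).toSubring with
      inv_mem' := fun x hx => IsAlgebraic.inv hx }
  have hk : ∀ x, x ∈ k ↔ IsAlgebraic (Algebra.adjoin ℚ (Set.range P)) x := fun x => Iff.rfl
  have hPk : ∀ i, P i ∈ k := fun i =>
    (hk _).2 (isAlgebraic_algebraMap (⟨P i, Algebra.subset_adjoin ⟨i, rfl⟩⟩ :
      Algebra.adjoin ℚ (Set.range P)))
  have ha : ∀ i, a i ∈ k := by
    rintro (⟨i, j, c⟩ | _ | i)
    · refine (hk _).2 ((h3 _ hg i j c).tower_top_of_subalgebra_le (Algebra.adjoin_mono ?_))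
      rintro _ ⟨i, rfl⟩
      exact ⟨.inl i, by rw [← hP]; rfl⟩
    · have := hPk (.inr (.inl (.inl ())))
      rwa [← hP] at this
    · refine Fin.cases ?_ (fun i => ?_) i
      · have : a (.inr (.inr 0)) = 1 := hy
        rw [this]
        exact one_mem k
      · have := hPk (.inr (.inl (.inr i)))
        rwa [← hP] at this
  have ha' : MV (k.toSubring.prod k.toSubring) a a := fun i => ⟨ha i, ha i⟩
  have hvk := mem_field k _ hf (fun i s => (mem_JJ ha' f i s).1) v fun i => by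
    rw [JJ_sum hv]
    rcases i with r | j
    · exact (RH.mem' ha' (H2.mv_nox _) r).1
    · have := hPk (.inr (.inr (.inl j)))
      rwa [← hP] at this
  rcases hr j with (⟨i, hi⟩ | ⟨i, hi⟩) | hi
  · exact hi ▸ (hk _).1 (ha i)
  · exact hi ▸ (hk _).1 (hvk i)
  · have := hPk (.inr (.inr (.inr ())))
    rw [← hP] at this
    rw [show s j = t from hi]
    exact (hk _).1 this

lemma step (h1 : S_A1) (h2 : S_A2) {a a' : πL → ℂ} {v v' : σL → ℂ} {t : ℂ}
    (hg : GoodLine (aOf a)) (hg' : GoodLine (aOf a')) (hy : yOf a 0 = 1) (hy' : yOf a' 0 = 1)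
    {f : Fin 13 → σL} (hi : AlgebraicIndependent ℚ (Sum.elim (parA (aOf a)) (xs a v t f))) :
    ∃ ρ : Plc ℂ ℂ, MV ρ.G a a' ∧ (∀ j, (v (f j), v' (f j)) ∈ ρ.G) ∧ (t, 0) ∈ ρ.G := by
  let e := (Fintype.equivFin ((Unit ⊕ Fin 3) ⊕ Fin 13 ⊕ Unit)).symm
  obtain ⟨ρ, r1, r2, r3⟩ := h1 _ _ hg hg' _ (xs a v t f ∘ e) (xs a' v' 0 f ∘ e) (by
    have := hi.comp (Sum.map id e) (Function.injective_id.sumMap e.injective)
    rwa [Sum.elim_comp_map] at this)
  have r4 : MV ρ.G (xs a v t f) (xs a' v' 0 f) := fun i => by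
    simpa using r2 (e.symm i)
  have r5 := h2 _ _ hg hg' ρ r1 r3
  refine ⟨ρ, ?_, fun j => r4 (.inr (.inl j)), r4 (.inr (.inr ()))⟩
  rintro (⟨i, j, c⟩ | _ | i)
  · exact r5 i j c
  · exact r4 (.inl (.inl ()))
  · refine Fin.cases ?_ (fun i => r4 (.inl (.inr i))) i
    have e1 : a (.inr (.inr 0)) = 1 := hy
    have e2 : a' (.inr (.inr 0)) = 1 := hy'
    rw [e1, e2]
    exact one_mem ρ.G

end B

open B in
theorem thm_B (h1 : S_A1) (h2 : S_A2) (h3 : S_A3) : S_B := by
  intro a a' v v' t s hs hr hg hg' hy hy' hv hv' ho ho'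
  obtain ⟨f0, hf0⟩ := exists_JJ ho
  obtain ⟨ρ0, r0, -⟩ := step h1 h2 (v' := v') hg hg' hy hy' (indep h3 hs hr hg hy hv hf0)
  obtain ⟨f, hf'⟩ := exists_JJ ho'
  have hf : MI (JJ a f) := thm_MIU _ _ _ _ ρ0 _ _ (mem_JJ r0 f) hf'
  obtain ⟨ρ, r1, r2, r3⟩ := step h1 h2 (v' := v') hg hg' hy hy' (indep h3 hs hr hg hy hv hf)
  refine ⟨ρ, r1, mem_place ρ (mem_JJ r1 f) hf' fun i => ?_, r3⟩
  rw [JJ_sum hv, JJ_sum hv']
  rcases i with r | j
  · exact RH.mem' r1 (H2.mv_nox _) r
  · exact r2 j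

end Pool.Agent.P.MP_7ebcb6_ag.SC
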