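import Pool.Agent.P.MP_7ebcb6_ag.SC.St1

/-! Quantitative uniqueness, the Jacobian of the equations of a line, Hensel's lemma for lines. -/

namespace Pool.Agent.P.MP_7ebcb6_ag.SC

open G8 Polynomial Function

noncomputable section

namespace H3

/-- The two lowest coefficients of a polynomial. -/
def co {R : Type} [CommRing R] (p : R[X]) : Du R := ⟨p.coeff 0, p.coeff 1⟩

lemma hom_co {R : Type} [CommRing R] : Hom (co : R[X] → Du R) where
  add x y := Du.ext (coeff_add x y 0) (coeff_add x y 1)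
  sub x y := Du.ext (coeff_sub x y 0) (coeff_sub x y 1)
  mul x y := Du.ext (mul_coeff_zero x y) (mul_coeff_one x y)
  nat n := Du.ext (by
    change ((n : R[X]).coeff 0) = (n : R)
    rw [← C_eq_natCast, coeff_C_zero]) (by
    change ((n : R[X]).coeff 1) = ((0 : ℕ) : R)
    rw [← C_eq_natCast, coeff_C_succ, Nat.cast_zero])

/-- The formula of Taylor to first order. -/
lemma taylor {π σ τ R : Type} [CommRing R] (E : Sys π σ τ) (a : π → R) (x ε : σ → R) (m : R)
    (t : τ) : ∃ w, E.ev a (fun s => x s + m * ε s) t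
      = E.ev a x t + m * (E.d a x (fun _ => 0) ε t + m * w) := by
  set P : R[X] := E.ev (fun i => C (a i)) (fun s => C (x s) + X * C (ε s)) t with hP
  have h1 : P.eval m = E.ev a (fun s => x s + m * ε s) t := by
    have := E.map (evalRingHom m) (fun i => C (a i)) (fun s => C (x s) + X * C (ε s)) t
    simpa only [coe_evalRingHom, eval_add, eval_mul, eval_C, eval_X] using this
  have h2 : co P = E.ev (fun i => (⟨a i, 0⟩ : Du R)) (fun s => ⟨x s, ε s⟩) t := by
    have := E.nat hom_co (fun i => C (a i)) (fun s => C (x s) + X * C (ε s)) t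
    rw [hP, this]
    congr 1
    · funext i
      exact Du.ext (coeff_C_zero) (coeff_C_succ)
    · funext s
      refine Du.ext ?_ ?_
      · change (C (x s) + X * C (ε s)).coeff 0 = x s
        simp
      · change (C (x s) + X * C (ε s)).coeff 1 = ε s
        simp [coeff_C_succ]
  have h3 : P.coeff 0 = E.ev a x t :=
    (congrArg Du.a h2).trans (E.nat hom_du_a _ _ t)
  have h4 : P.coeff 1 = E.d a x (fun _ => 0) ε t := congrArg Du.b h2
  refine ⟨(divX (divX P)).eval m, ?_⟩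
  have h5 := congrArg (Polynomial.eval m) (X_mul_divX_add P)
  have h6 := congrArg (Polynomial.eval m) (X_mul_divX_add (divX P))
  rw [coeff_divX] at h6
  simp only [eval_add, eval_mul, eval_X, eval_C, zero_add] at h5 h6
  rw [← h1, ← h3, ← h4, ← h5, ← h6]
  ring

section du

variable {R : Type} [CommRing R]

lemma add_a (x y : Du R) : (x + y).a = x.a + y.a := rfl
lemma add_b (x y : Du R) : (x + y).b = x.b + y.b := rfl
lemma mul_a (x y : Du R) : (x * y).a = x.a * y.a := rfl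
lemma mul_b (x y : Du R) : (x * y).b = x.a * y.b + x.b * y.a := rfl

/-- The derivative of the trilinear form. -/
lemma tri_b (g : Fin 20 → R) (a b c : Fin 4 → Du R) :
    (tri (fun i => (⟨g i, 0⟩ : Du R)) a b c).b
      = tri g (fun i => (a i).b) (fun i => (b i).a) (fun i => (c i).a)
        + tri g (fun i => (b i).b) (fun i => (a i).a) (fun i => (c i).a)
        + tri g (fun i => (c i).b) (fun i => (a i).a) (fun i => (b i).a) := by
  simp only [tri, add_a, add_b, mul_a, mul_b]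
  ring

lemma tri_lin (g : Fin 20 → R) (p q : R) (b c : Fin 4 → R) :
    tri g (v4 0 0 p q) b c = p * tri g (ee 2) b c + q * tri g (ee 3) b c := by
  simp only [tri, ee_eq, v4_0, v4_1, v4_2, v4_3]
  simp
  ring

lemma lA_a (W e : Fin 4 → R) : (fun i => (lA (fun s => (⟨W s, e s⟩ : Du R)) i).a) = lA W :=
  funext fun i => by fin_cases i <;> rfl

lemma lB_a (W e : Fin 4 → R) : (fun i => (lB (fun s => (⟨W s, e s⟩ : Du R)) i).a) = lB W :=
  funext fun i => by fin_cases i <;> rfl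

lemma lA_b (W e : Fin 4 → R) :
    (fun i => (lA (fun s => (⟨W s, e s⟩ : Du R)) i).b) = v4 0 0 (e 0) (e 1) :=
  funext fun i => by
    fin_cases i
    exacts [Nat.cast_zero, Nat.cast_zero, rfl, rfl]

lemma lB_b (W e : Fin 4 → R) :
    (fun i => (lB (fun s => (⟨W s, e s⟩ : Du R)) i).b) = v4 0 0 (e 2) (e 3) :=
  funext fun i => by
    fin_cases i
    exacts [Nat.cast_zero, Nat.cast_zero, rfl, rfl]

lemma tri_cb (g : Fin 20 → R) (w A B : Fin 4 → R) (s t : R) :
    tri g (cb s A t B) (cb s A t B) w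
      = tri g w A A * (s * s) + 2 * tri g w A B * (s * t) + tri g w B B * (t * t) := by
  simp only [tri, cb]
  ring

end du

lemma sylv {K : Type} [Field K] {a0 a1 a2 b0 b1 b2 d0 d1 d2 d3 : K}
    (hr : res22 a0 a1 a2 b0 b1 b2 ≠ 0) (e0 : d0 * a0 + d1 * b0 = 0)
    (e1 : d0 * a1 + d1 * b1 + d2 * a0 + d3 * b0 = 0)
    (e2 : d0 * a2 + d1 * b2 + d2 * a1 + d3 * b1 = 0) (e3 : d2 * a2 + d3 * b2 = 0) :
    d0 = 0 ∧ d1 = 0 ∧ d2 = 0 ∧ d3 = 0 := by
  refine ⟨(mul_eq_zero.mp ?_).resolve_left hr, (mul_eq_zero.mp ?_).resolve_left hr,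
    (mul_eq_zero.mp ?_).resolve_left hr, (mul_eq_zero.mp ?_).resolve_left hr⟩ <;> unfold res22
  · linear_combination (-(a1 * b1 * b2 - a2 * b1 ^ 2 - a0 * b2 ^ 2 + a2 * b0 * b2)) * e0
      - (-a1 * b0 * b2 + a2 * b0 * b1) * e1 - (a0 * b0 * b2 - a2 * b0 ^ 2) * e2
      - (-a0 * b0 * b1 + a1 * b0 ^ 2) * e3
  · linear_combination (-(-a1 ^ 2 * b2 + a1 * a2 * b1 + a0 * a2 * b2 - a2 ^ 2 * b0)) * e0
      - (a0 * a1 * b2 - a0 * a2 * b1) * e1 - (-a0 ^ 2 * b2 + a0 * a2 * b0) * e2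
      - (a0 ^ 2 * b1 - a0 * a1 * b0) * e3
  · linear_combination (-(a1 * b2 ^ 2 - a2 * b1 * b2)) * e0
      - (-a0 * b2 ^ 2 + a2 * b0 * b2) * e1 - (a0 * b1 * b2 - a1 * b0 * b2) * e2
      - (-a0 * b1 ^ 2 + a0 * b0 * b2 + a1 * b0 * b1 - a2 * b0 ^ 2) * e3
  · linear_combination (-(-a1 * a2 * b2 + a2 ^ 2 * b1)) * e0
      - (a0 * a2 * b2 - a2 ^ 2 * b0) * e1 - (-a0 * a2 * b1 + a1 * a2 * b0) * e2
      - (a0 * a1 * b1 - a0 ^ 2 * b2 - a1 ^ 2 * b0 + a0 * a2 * b0) * e3

lemma root {K : Type} [Field K] {a0 a1 a2 b0 b1 b2 s t : K} (hr : res22 a0 a1 a2 b0 b1 b2 ≠ 0)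
    (qa : a0 * (s * s) + a1 * (s * t) + a2 * (t * t) = 0)
    (qb : b0 * (s * s) + b1 * (s * t) + b2 * (t * t) = 0) : s = 0 ∧ t = 0 := by
  refine ⟨pow_eq_zero_iff (n := 3) (by norm_num) |>.mp ((mul_eq_zero.mp ?_).resolve_left hr),
    pow_eq_zero_iff (n := 3) (by norm_num) |>.mp ((mul_eq_zero.mp ?_).resolve_left hr)⟩ <;>
    unfold res22
  · linear_combination (((a0 * b2 - a2 * b0) * s - (a1 * b2 - a2 * b1) * t) * b2
        - (a1 * b2 - a2 * b1) * s * b1) * qa
      + (-((a0 * b2 - a2 * b0) * s - (a1 * b2 - a2 * b1) * t) * a2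
        + (a1 * b2 - a2 * b1) * s * a1) * qb
  · linear_combination (-((a0 * b2 - a2 * b0) * t - (a0 * b1 - a1 * b0) * s) * b0
        + (a0 * b1 - a1 * b0) * t * b1) * qa
      + (((a0 * b2 - a2 * b0) * t - (a0 * b1 - a1 * b0) * s) * a0
        - (a0 * b1 - a1 * b0) * t * a1) * qb

/-- The empty system. -/
def emp (π σ : Type) : Sys π σ Empty := ⟨fun _ _ o => o.elim, fun _ _ _ o => o.elim⟩

end H3

open H3

theorem thm_QU : S_QU := by
  intro π σ τ _ E sp e a a2 x x2 a' x' haa ha hx hx2 hinj hev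
  by_contra hcon
  obtain ⟨s0, hs0⟩ : ∃ s, sp.v e < sp.v (x s - x2 s) := by
    by_contra h
    push Not at h
    exact hcon fun s => ⟨(hx s).le_one, (hx2 s).le_one, h s⟩
  obtain ⟨s1, -, hs1⟩ := Finset.exists_max_image Finset.univ (fun s => sp.v (x s - x2 s))
    ⟨s0, Finset.mem_univ _⟩
  set m := x s1 - x2 s1 with hm
  have hem : sp.v e < sp.v m := hs0.trans_le (hs1 s0 (Finset.mem_univ _))
  have hm0 : sp.v m ≠ 0 := (zero_le.trans_lt hem).ne'
  have hm0' : m ≠ 0 := fun h => hm0 (by rw [h, map_zero])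
  have hmt : Tends sp.v m 0 := ((hx s1).sub (hx2 s1)).of_eq_right (sub_self _)
  set ε : σ → Om := fun s => (x s - x2 s) / m with hε
  have hε1 : ∀ s, sp.v (ε s) ≤ 1 := fun s => by
    rw [hε, map_div₀]
    exact div_le_one_of_le₀ (hs1 s (Finset.mem_univ _)) zero_le
  have hεt : TV sp ε fun s => lim sp (ε s) := fun s => tends_lim (hε1 s)
  have hz : (fun s => lim sp (ε s)) = 0 := by
    refine hinj _ fun t => ?_
    obtain ⟨w, hw⟩ := taylor (R := IR sp) E (MV.el (mv_sp.mpr ha)) (MV.el (mv_sp.mpr hx2))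
      (MV.el (mv_sp.mpr hεt)) ⟨(m, 0), hmt⟩ t
    set D := E.d (MV.el (mv_sp.mpr ha)) (MV.el (mv_sp.mpr hx2)) (fun _ => 0)
      (MV.el (mv_sp.mpr hεt)) t + (⟨(m, 0), hmt⟩ : IR sp) * w with hD
    have h1 := congrArg (gfst (spPl sp).G) hw
    rw [map_add, map_mul, E.map, E.map] at h1
    have h2 : (fun s => gfst (spPl sp).G (MV.el (mv_sp.mpr hx2) s
        + (⟨(m, 0), hmt⟩ : IR sp) * MV.el (mv_sp.mpr hεt) s)) = x := by
      funext s
      change x2 s + m * ((x s - x2 s) / m) = x s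
      field_simp
      ring
    rw [h2] at h1
    have h3 : E.ev a x t = E.ev a x2 t + m * gfst (spPl sp).G D := h1
    have h4 : sp.v (E.ev a x2 t - E.ev a2 x2 t) ≤ sp.v e :=
      (E.mem' haa (fun s => Cg_refl e (hx2 s).le_one) t).2.2
    have h5 : sp.v (m * gfst (spPl sp).G D) ≤ sp.v e := by
      have : m * gfst (spPl sp).G D
          = (E.ev a x t - E.ev a2 x2 t) - (E.ev a x2 t - E.ev a2 x2 t) := by
        rw [h3]
        ring
      rw [this]
      exact Valuation.map_sub_le _ (hev t) h4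
    have h6 : sp.v (gfst (spPl sp).G D) < 1 := by
      by_contra h
      push Not at h
      rw [map_mul] at h5
      exact absurd (hem.trans_le ((le_mul_of_one_le_right' h).trans h5)) (lt_irrefl _)
    have h7 : gsnd (spPl sp).G D = 0 := (tends_IR D).unique (Tends.zero_iff.mpr h6)
    rw [hD, map_add, map_mul, E.d_nat (hom_snd sp)] at h7
    have h8 : gsnd (spPl sp).G (⟨(m, 0), hmt⟩ : IR sp) = 0 := rfl
    rw [h8, zero_mul, add_zero] at h7
    exact h7
  have h1 : Tends sp.v (ε s1) 1 := by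
    have : ε s1 = 1 := div_self hm0'
    rw [this]
    exact Tends.one
  exact one_ne_zero ((lim_eq h1).symm.trans (congrFun hz s1))

theorem thm_LJ : S_LJ := by
  intro K _ g W h3 hJ e he
  have e0 : (tri (fun i => (⟨g i, 0⟩ : Du K)) (lA fun s => ⟨W s, e s⟩) (lA fun s => ⟨W s, e s⟩)
      (lA fun s => ⟨W s, e s⟩)).b = 0 := he 0
  have e1 : (tri (fun i => (⟨g i, 0⟩ : Du K)) (lA fun s => ⟨W s, e s⟩) (lA fun s => ⟨W s, e s⟩)
      (lB fun s => ⟨W s, e s⟩)).b = 0 := he 1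
  have e2 : (tri (fun i => (⟨g i, 0⟩ : Du K)) (lA fun s => ⟨W s, e s⟩) (lB fun s => ⟨W s, e s⟩)
      (lB fun s => ⟨W s, e s⟩)).b = 0 := he 2
  have e3 : (tri (fun i => (⟨g i, 0⟩ : Du K)) (lB fun s => ⟨W s, e s⟩) (lB fun s => ⟨W s, e s⟩)
      (lB fun s => ⟨W s, e s⟩)).b = 0 := he 3
  rw [tri_b] at e0 e1 e2 e3
  simp only [lA_a, lB_a, lA_b, lB_b, tri_lin] at e0 e1 e2 e3
  unfold lnJ at hJ
  obtain ⟨h0, h1, h2, h4⟩ := sylv (d0 := e 0) (d1 := e 1) (d2 := e 2) (d3 := e 3) hJ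
    (mul_left_cancel₀ h3 (by linear_combination e0))
    (by push_cast; linear_combination e1) (by push_cast; linear_combination e2)
    (mul_left_cancel₀ h3 (by linear_combination e3))
  funext i
  fin_cases i
  exacts [h0, h1, h2, h4]

theorem thm_LG : S_LG := by
  intro K _ g W s t hJ hst
  by_contra h
  push Not at h
  have h2 := h (ee 2)
  have h3 := h (ee 3)
  rw [tri_cb] at h2 h3
  unfold lnJ at hJ
  obtain ⟨hs, ht⟩ := root (s := s) (t := t) hJ (by push_cast; exact h2) (by push_cast; exact h3)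
  exact hst.elim (fun h => h hs) fun h => h ht

theorem thm_LH (hUP : S_UP) : S_LH := by
  intro sp e g g' W' he hg hE hJ
  have hinj : lnS.Inj g' W' := thm_LJ ℂ g' W' three_ne_zero hJ
  have hgt : TV sp g g' := hg.tv he
  obtain ⟨W, hW, hgood⟩ := hUP (Fin 20) (Fin 4) (Fin 4) Empty Om ℂ lnS (emp _ _) (spPl sp) g g' W'
    rfl (mv_sp.mpr hgt) ⟨hE, fun o => o.elim, hinj⟩
  have hWt : TV sp W W' := mv_sp.mp hW
  refine ⟨W, hgood.eq, ?_, fun W2 h2 ht => ?_⟩
  · refine thm_QU _ _ _ lnS sp e g (fun i => ct (g' i)) W (fun i => ct (W' i)) g' W' hg hgt hWt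
      (tv_ct sp W') hinj fun t => ?_
    have h1 : lnS.ev g' W' t = 0 := hE t
    rw [hgood.eq t, ← lnS.map ct g' W' t, h1]
    simp
  · have := thm_QU _ _ _ lnS sp 0 g g W2 W g' W' (fun i => Cg_refl 0 (hgt i).le_one) hgt ht hWt
      hinj fun t => by
        have h1 : lnS.ev g W2 t = 0 := h2 t
        rw [hgood.eq t, h1]
        simp
    funext i
    have h3 := (this i).2.2
    rw [map_zero, le_zero_iff, Valuation.zero_iff] at h3
    exact sub_eq_zero.mp h3

end

end Pool.Agent.P.MP_7ebcb6_ag.SC
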