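import Pool.Agent.P.MP_7ebcb6_ag.SC.St1

/-! The covariant that vanishes on the lines of a cubic surface: algebraic properties. -/

namespace Pool.Agent.P.MP_7ebcb6_ag.SC

namespace R1

section ring

variable {R : Type} [CommRing R]

lemma res23_shift (a0 a1 a2 b0 b1 b2 b3 u v : R) :
    res23 a0 a1 a2 (b0 + u * a0) (b1 + u * a1 + v * a0) (b2 + u * a2 + v * a1) (b3 + v * a2)
      = res23 a0 a1 a2 b0 b1 b2 b3 := by
  simp only [res23]; ring

lemma res23_gl (p0 p1 p2 c0 c1 c2 c3 m n r s : R) :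
    res23 (m * m * p0 + 2 * m * n * p1 + n * n * p2)
      ((m * r * p0 + (m * s + n * r) * p1 + n * s * p2)
        + (m * r * p0 + (m * s + n * r) * p1 + n * s * p2))
      (r * r * p0 + 2 * r * s * p1 + s * s * p2)
      (m ^ 3 * c0 + 3 * m ^ 2 * n * c1 + 3 * m * n ^ 2 * c2 + n ^ 3 * c3)
      (3 * (m ^ 2 * r * c0 + (m ^ 2 * s + 2 * m * n * r) * c1 + (2 * m * n * s + n ^ 2 * r) * c2
        + n ^ 2 * s * c3))
      (3 * (m * r ^ 2 * c0 + (2 * m * r * s + n * r ^ 2) * c1 + (m * s ^ 2 + 2 * n * r * s) * c2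
        + n * s ^ 2 * c3))
      (r ^ 3 * c0 + 3 * r ^ 2 * s * c1 + 3 * r * s ^ 2 * c2 + s ^ 3 * c3)
      = (m * s - n * r) ^ 6 * res23 p0 (p1 + p1) p2 c0 (3 * c1) (3 * c2) c3 := by
  simp only [res23]; ring

lemma res23_sc (a0 a1 a2 b0 b1 b2 b3 u v : R) :
    res23 (u * a0) (u * a1) (u * a2) (v * b0) (v * b1) (v * b2) (v * b3)
      = u ^ 3 * v ^ 2 * res23 a0 a1 a2 b0 b1 b2 b3 := by
  simp only [res23]; ring

variable (g : Fin 20 → R)

lemma tri_cb1 (s t : R) (a b y z : Fin 4 → R) :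
    tri g (cb s a t b) y z = s * tri g a y z + t * tri g b y z := by
  simp only [tri, cb]; ring

lemma tri_cb2 (s t : R) (a b y z : Fin 4 → R) :
    tri g y (cb s a t b) z = s * tri g y a z + t * tri g y b z := by
  rw [tri_swap12, tri_cb1, tri_swap12 g a, tri_swap12 g b]

lemma tri_cb3 (s t : R) (a b y z : Fin 4 → R) :
    tri g y z (cb s a t b) = s * tri g y z a + t * tri g y z b := by
  rw [tri_swap23, tri_cb2, tri_swap23 g y a, tri_swap23 g y b]

lemma tri_c3 (r s t : R) (a b c y z : Fin 4 → R) :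
    tri g y z (cb3 r a s b t c) = r * tri g y z a + s * tri g y z b + t * tri g y z c := by
  simp only [tri, cb3]; ring

/-- Change of basis by a matrix. -/
lemma Rs_gl (x a b : Fin 4 → R) (m n r s : R) :
    Rs g x (cb m a n b) (cb r a s b) = (m * s - n * r) ^ 6 * Rs g x a b := by
  have e1 : tri g x b a = tri g x a b := tri_swap23 g x b a
  have e2 : tri g a b a = tri g a a b := tri_swap23 g a b a
  have e3 : tri g b a a = tri g a a b := by rw [tri_swap12, e2]
  have e4 : tri g b a b = tri g a b b := tri_swap12 g b a b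
  have e5 : tri g b b a = tri g a b b := by rw [tri_swap23, e4]
  simp only [Rs, resL, Nat.cast_ofNat]
  rw [← res23_gl]
  simp only [tri_cb1, tri_cb2, tri_cb3, e1, e2, e3, e4, e5]
  congr 1 <;> ring

/-- Adding multiples of the point. -/
lemma Rs_shift (x a b : Fin 4 → R) (u v : R) (h0 : tri g x x x = 0) (ha : tri g x x a = 0)
    (hb : tri g x x b = 0) : Rs g x (cb 1 a u x) (cb 1 b v x) = Rs g x a b := by
  have a1 : tri g x a x = 0 := by rw [tri_swap23, ha]
  have a2 : tri g a x x = 0 := by rw [tri_swap12, a1]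
  have b1 : tri g x b x = 0 := by rw [tri_swap23, hb]
  have b2 : tri g b x x = 0 := by rw [tri_swap12, b1]
  have e1 : tri g a x a = tri g x a a := tri_swap12 g a x a
  have e2 : tri g a a x = tri g x a a := by rw [tri_swap23, e1]
  have e3 : tri g b x b = tri g x b b := tri_swap12 g b x b
  have e4 : tri g b b x = tri g x b b := by rw [tri_swap23, e3]
  have e5 : tri g a x b = tri g x a b := tri_swap12 g a x b
  have e6 : tri g a b x = tri g x a b := by rw [tri_swap23, e5]
  have e7 : tri g x b a = tri g x a b := tri_swap23 g x b a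
  simp only [Rs, resL, Nat.cast_ofNat]
  rw [← res23_shift (tri g x a a) _ _ _ _ _ _ (3 * u) (3 * v)]
  simp only [tri_cb1, tri_cb2, tri_cb3, h0, ha, hb, a1, a2, b1, b2, e1, e2, e3, e4, e5, e6]
  congr 1 <;> ring

lemma cramer (w x a b y : Fin 4 → R) (i : Fin 4) : det4 w x a b * y i
    = det4 y x a b * w i + det4 w y a b * x i + det4 w x y b * a i + det4 w x a y * b i := by
  fin_cases i <;> simp [det4, pp, plk] <;> ring

lemma cramer_tri (p q w x a b y : Fin 4 → R) : det4 w x a b * tri g p q y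
    = det4 y x a b * tri g p q w + det4 w y a b * tri g p q x + det4 w x y b * tri g p q a
      + det4 w x a y * tri g p q b := by
  have h := cramer w x a b y
  simp only [tri]
  linear_combination
    ((g 0 * p 0 + g 1 * p 1 + g 2 * p 2 + g 3 * p 3) * q 0
      + (g 1 * p 0 + g 4 * p 1 + g 5 * p 2 + g 6 * p 3) * q 1
      + (g 2 * p 0 + g 5 * p 1 + g 7 * p 2 + g 8 * p 3) * q 2
      + (g 3 * p 0 + g 6 * p 1 + g 8 * p 2 + g 9 * p 3) * q 3) * h 0
    + ((g 1 * p 0 + g 4 * p 1 + g 5 * p 2 + g 6 * p 3) * q 0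
      + (g 4 * p 0 + g 10 * p 1 + g 11 * p 2 + g 12 * p 3) * q 1
      + (g 5 * p 0 + g 11 * p 1 + g 13 * p 2 + g 14 * p 3) * q 2
      + (g 6 * p 0 + g 12 * p 1 + g 14 * p 2 + g 15 * p 3) * q 3) * h 1
    + ((g 2 * p 0 + g 5 * p 1 + g 7 * p 2 + g 8 * p 3) * q 0
      + (g 5 * p 0 + g 11 * p 1 + g 13 * p 2 + g 14 * p 3) * q 1
      + (g 7 * p 0 + g 13 * p 1 + g 16 * p 2 + g 17 * p 3) * q 2
      + (g 8 * p 0 + g 14 * p 1 + g 17 * p 2 + g 18 * p 3) * q 3) * h 2
    + ((g 3 * p 0 + g 6 * p 1 + g 8 * p 2 + g 9 * p 3) * q 0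
      + (g 6 * p 0 + g 12 * p 1 + g 14 * p 2 + g 15 * p 3) * q 1
      + (g 8 * p 0 + g 14 * p 1 + g 17 * p 2 + g 18 * p 3) * q 2
      + (g 9 * p 0 + g 15 * p 1 + g 18 * p 2 + g 19 * p 3) * q 3) * h 3

lemma det4_02 (x a b : Fin 4 → R) : det4 a x a b = 0 := by simp [det4, pp, plk]; ring

lemma det4_03 (x a b : Fin 4 → R) : det4 b x a b = 0 := by simp [det4, pp, plk]; ring

lemma det4_ch (w x a b : Fin 4 → R) (u v m n r s : R) :
    det4 w x (cb 1 (cb m a n b) u x) (cb 1 (cb r a s b) v x) = (m * s - n * r) * det4 w x a b := by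
  simp [det4, pp, plk, cb]; ring

end ring

variable {K : Type} [Field K] {g : Fin 20 → K} {x a b : V4 K} {d : K}

lemma ker_a (hd : d ≠ 0) (h : ∀ w, det4 w x a b = d * tri g x x w) : tri g x x a = 0 := by
  have := h a
  rw [det4_02] at this
  exact (mul_eq_zero.mp this.symm).resolve_left hd

lemma ker_b (hd : d ≠ 0) (h : ∀ w, det4 w x a b = d * tri g x x w) : tri g x x b = 0 := by
  have := h b
  rw [det4_03] at this
  exact (mul_eq_zero.mp this.symm).resolve_left hd

/-- The tangent plane is spanned by the point and the basis. -/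
lemma span (hw : ∃ w, tri g x x w ≠ 0) (hd : d ≠ 0) (h : ∀ w, det4 w x a b = d * tri g x x w)
    {y : V4 K} (hy : tri g x x y = 0) : ∃ r s t, y = cb3 r x s a t b := by
  obtain ⟨w, hw⟩ := hw
  have hD : det4 w x a b ≠ 0 := by rw [h]; exact mul_ne_zero hd hw
  refine ⟨det4 w y a b / det4 w x a b, det4 w x y b / det4 w x a b, det4 w x a y / det4 w x a b,
    funext fun i => ?_⟩
  have h1 := cramer w x a b y i
  rw [h y, hy, mul_zero, zero_mul, zero_add] at h1
  simp only [cb3]
  field_simp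
  linear_combination h1

lemma cb3_eq (r s t : K) (x a b : V4 K) : cb3 r x s a t b = cb 1 (cb s a t b) r x := by
  funext i
  simp only [cb3, cb]; ring

lemma rany {r : K} (hr : IsR g x r) (hd : d ≠ 0) (h : ∀ w, det4 w x a b = d * tri g x x w) :
    r * d ^ 6 = Rs g x a b := by
  obtain ⟨h0, hw, a0, b0, d0, hd0, h1, h2⟩ := hr
  obtain ⟨u, m, n, ha⟩ := span hw hd0 h1 (ker_a hd h)
  obtain ⟨v, p, q, hb⟩ := span hw hd0 h1 (ker_b hd h)
  rw [cb3_eq] at ha hb
  obtain ⟨w, hw⟩ := hw
  have hdd : d = (m * q - n * p) * d0 := by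
    have h3 := h w
    rw [ha, hb, det4_ch, h1] at h3
    exact mul_right_cancel₀ hw (by rw [← h3]; ring)
  have ka := ker_a hd0 h1
  have kb := ker_b hd0 h1
  rw [ha, hb, Rs_shift g x _ _ u v h0 (by rw [tri_cb3, ka, kb]; ring)
    (by rw [tri_cb3, ka, kb]; ring), Rs_gl, ← h2, hdd]
  ring

/-- Three independent vectors of the tangent plane give the linear form. -/
lemma form {w0 : V4 K} (hw : tri g x x w0 ≠ 0) (h0 : tri g x x x = 0) (ha : tri g x x a = 0)
    (hb : tri g x x b = 0) (w : V4 K) :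
    det4 w x a b = det4 w0 x a b / tri g x x w0 * tri g x x w := by
  have h := cramer_tri g x x w0 x a b w
  rw [h0, ha, hb] at h
  field_simp
  linear_combination -h

lemma exists_basis (h0 : tri g x x x = 0) (hw : ∃ w, tri g x x w ≠ 0) :
    ∃ (a b : V4 K) (d : K), d ≠ 0 ∧ ∀ w, det4 w x a b = d * tri g x x w := by
  obtain ⟨w, hw⟩ := hw
  have huv : ∃ u v, det4 w x u v ≠ 0 := by
    by_contra hc
    push Not at hc
    have h01 := hc (ee 2) (ee 3)
    have h02 := hc (ee 1) (ee 3)
    have h03 := hc (ee 1) (ee 2)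
    have h12 := hc (ee 0) (ee 3)
    have h13 := hc (ee 0) (ee 2)
    have h23 := hc (ee 0) (ee 1)
    simp [det4, pp, plk, ee_eq] at h01 h02 h03 h12 h13 h23
    have hx : ∀ j, (fun i => x j * w i) = fun i => w j * x i := fun j => funext fun i => by
      fin_cases i <;> fin_cases j <;> simp <;>
        first
        | ring1
        | linear_combination h01 | linear_combination -h01
        | linear_combination h02 | linear_combination -h02
        | linear_combination h03 | linear_combination -h03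
        | linear_combination h12 | linear_combination -h12
        | linear_combination h13 | linear_combination -h13
        | linear_combination h23 | linear_combination -h23
    have hz : ∀ j, x j = 0 := fun j => by
      have e1 : tri g x x (fun i => x j * w i) = x j * tri g x x w := by simp only [tri]; ring
      have e2 : tri g x x (fun i => w j * x i) = w j * tri g x x x := by simp only [tri]; ring
      rw [hx j, e2, h0, mul_zero] at e1
      exact (mul_eq_zero.mp e1.symm).resolve_right hw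
    exact hw (by simp [tri, hz])
  obtain ⟨u, v, huv⟩ := huv
  have hk : ∀ y, tri g x x (cb (tri g x x w) y (-tri g x x y) w) = 0 := fun y => by
    rw [tri_cb3]; ring
  refine ⟨_, _, _, div_ne_zero ?_ hw, form hw h0 (hk u) (hk v)⟩
  have e : ∀ s p q : K, det4 w x (cb s u p w) (cb s v q w) = s ^ 2 * det4 w x u v := fun s p q => by
    simp [det4, pp, plk, cb]; ring
  rw [e]
  exact mul_ne_zero (pow_ne_zero _ hw) huv

end R1

open R1

theorem thm_REX : S_REX := fun K _ g x h0 hw => by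
  obtain ⟨a, b, d, hd, h⟩ := exists_basis h0 hw
  exact ⟨Rs g x a b / d ^ 6, h0, hw, a, b, d, hd, h, div_mul_cancel₀ _ (pow_ne_zero _ hd)⟩

theorem thm_RANY : S_RANY := fun _ _ _ _ _ _ _ _ _ hr hd h => rany hr hd h

theorem thm_RUQ : S_RUQ := fun K _ _ g x r r' hr hr' => by
  obtain ⟨_, _, a, b, d, hd, h, h2⟩ := hr'
  exact mul_right_cancel₀ (pow_ne_zero 6 hd) ((rany hr hd h).trans h2.symm)

theorem thm_RSC : S_RSC := fun K _ g x r c d hr hc hd => by
  obtain ⟨h0, ⟨w0, hw⟩, a, b, d0, hd0, h1, h2⟩ := hr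
  have e3 : tri (fun i => d * g i) (fun i => c * x i) (fun i => c * x i) (fun i => c * x i)
      = d * c ^ 3 * tri g x x x := by simp only [tri]; ring
  have e2 : ∀ w, tri (fun i => d * g i) (fun i => c * x i) (fun i => c * x i) w
      = d * c ^ 2 * tri g x x w := fun w => by simp only [tri]; ring
  have e1 : ∀ y z, tri (fun i => d * g i) (fun i => c * x i) y z = d * c * tri g x y z :=
    fun y z => by simp only [tri]; ring
  have e0 : ∀ y z w, tri (fun i => d * g i) y z w = d * tri g y z w :=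
    fun y z w => by simp only [tri]; ring
  have ed : ∀ w, det4 w (fun i => c * x i) a b = c * det4 w x a b := fun w => by
    simp [det4, pp, plk]; ring
  refine ⟨by rw [e3, h0, mul_zero],
    ⟨w0, by rw [e2]; exact mul_ne_zero (mul_ne_zero hd (pow_ne_zero _ hc)) hw⟩,
    a, b, d0 / (d * c), div_ne_zero hd0 (mul_ne_zero hd hc), fun w => ?_, ?_⟩
  · rw [ed, h1, e2]
    field_simp
  · have e : Rs (fun i => d * g i) (fun i => c * x i) a b = (d * c) ^ 3 * d ^ 2 * Rs g x a b := by
      simp only [Rs, resL]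
      rw [← res23_sc, e1, e1, e1, e0, e0, e0, e0]
      congr 1 <;> ring
    rw [e, ← h2]
    field_simp

theorem thm_RMAP : S_RMAP := fun τ g x r hr => by
  obtain ⟨h0, ⟨w0, hw⟩, a, b, d, hd, h1, h2⟩ := hr
  have h : Hom fun z : Om => τ z := ⟨map_add τ, map_sub τ, map_mul τ, map_natCast τ⟩
  refine ⟨?_, ⟨fun i => τ (w0 i), ?_⟩, fun i => τ (a i), fun i => τ (b i), τ d,
    (map_ne_zero τ).mpr hd, fun w => ?_, ?_⟩
  · rw [← h.tri, h0, map_zero]
  · rw [← h.tri]
    exact (map_ne_zero τ).mpr hw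
  · have e : w = fun i => τ (τ.symm (w i)) := funext fun i => (τ.apply_symm_apply _).symm
    rw [e, ← h.det4, ← h.tri, h1, map_mul]
  · rw [← h.Rs, ← h2, map_mul, map_pow]

theorem thm_RTH : S_RTH := fun K _ g x h0 hx h3 => by
  have k1 : tri g x x (th1 g x) = 0 := by
    simp [th1, tri, ee_eq]; ring
  have k2 : tri g x x (th2 g x) = 0 := by
    simp [th2, tri, ee_eq]; ring
  have hd : -(x 0 * tri g x x (ee 3)) ≠ 0 := neg_ne_zero.mpr (mul_ne_zero hx h3)
  have h : ∀ w, det4 w x (th1 g x) (th2 g x) = -(x 0 * tri g x x (ee 3)) * tri g x x w :=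
    fun w => by
    rw [form h3 h0 k1 k2 w]
    congr 1
    rw [div_eq_iff h3]
    generalize hl : tri g x x (ee 3) = l
    simp [det4, pp, plk, th1, th2, ee_eq]
    rw [← ee_eq, hl]
    ring
  refine ⟨⟨h0, ⟨_, h3⟩, _, _, _, hd, h, ?_⟩, fun y => ⟨fun hy => span ⟨_, h3⟩ hd h hy, ?_⟩⟩
  · have := mul_ne_zero hx h3
    field_simp
  · rintro ⟨r, s, t, rfl⟩
    rw [tri_c3, h0, k1, k2]
    ring

theorem thm_RLN : S_RLN := fun K _ _ g x t r hr hl => by
  obtain ⟨hi, l1, l2, l3⟩ := hl
  have key : ∀ (b : V4 K) (d : K), d ≠ 0 → (∀ w, det4 w x t b = d * tri g x x w) → r = 0 :=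
    fun b d hd h => by
    have h1 := rany hr hd h
    have h2 : Rs g x t b = 0 := by
      simp only [Rs, resL, res23, l2, l3]
      ring
    rw [h2] at h1
    exact (mul_eq_zero.mp h1).resolve_right (pow_ne_zero _ hd)
  obtain ⟨_, hw, a, b, d, hd, h1, _⟩ := hr
  obtain ⟨u, m, n, ht⟩ := span hw hd h1 l1
  by_cases hm : m = 0
  · have hn : n ≠ 0 := by
      rintro rfl
      apply hi
      funext i
      fin_cases i <;> simp [plk, ht, cb3, hm] <;> ring
    refine key a (-n * d) (mul_ne_zero (neg_ne_zero.mpr hn) hd) fun w => ?_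
    rw [mul_assoc, ← h1, ht]
    simp [det4, pp, plk, cb3, hm]
    ring
  · refine key b (m * d) (mul_ne_zero hm hd) fun w => ?_
    rw [mul_assoc, ← h1, ht]
    simp [det4, pp, plk, cb3]
    ring

end Pool.Agent.P.MP_7ebcb6_ag.SC
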