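import Pool.Agent.P.MP_7ebcb6_ag.SC.St1

/-! The size of the covariant of lines under specialisation. -/

namespace Pool.Agent.P.MP_7ebcb6_ag.SC

open G8

namespace R2

section alg

variable {K : Type} [Field K] {l w x y a b t : V4 K}

/-- The linear form `g(a, b, ·)`. -/
def ll (g : Fin 20 → K) (a b : V4 K) : V4 K := fun i => tri g a b (ee i)

lemma dot_ll (g : Fin 20 → K) (a b y : V4 K) : dot (ll g a b) y = tri g a b y := by
  simp [dot, ll, tri, ee_eq]
  ring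

lemma dot_ee (l : V4 K) (i : Fin 4) : dot l (ee i) = l i := by
  fin_cases i <;> simp [dot, ee_eq]

lemma det_prop (hx : dot l x = 0) (ha : dot l a = 0) (hb : dot l b = 0) (w y : V4 K) :
    dot l w * det4 y x a b = dot l y * det4 w x a b := by
  have : dot l w * det4 y x a b - dot l y * det4 w x a b + dot l x * det4 w y a b
      - dot l a * det4 w y x b + dot l b * det4 w y x a = 0 := by
    simp only [dot, det4, pp, plk, v6_0, v6_1, v6_2, v6_3, v6_4, v6_5]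
    ring
  rw [hx, ha, hb] at this
  linear_combination this

lemma det_ne (hw : dot l w ≠ 0) (hx : dot l x = 0) (ha : dot l a = 0) (hb : dot l b = 0)
    (h : Ind3 x a b) : det4 w x a b ≠ 0 := fun e => by
  obtain ⟨y, hy⟩ := h
  have := det_prop hx ha hb w y
  rw [e, mul_zero] at this
  exact mul_ne_zero hw hy this

lemma dot_pr (hw : dot l w ≠ 0) (y : V4 K) : dot l (cb 1 y (-(dot l y / dot l w)) w) = 0 := by
  have : ∀ c, dot l (cb 1 y c w) = dot l y + c * dot l w := fun c => by simp only [dot, cb]; ring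
  rw [this, neg_mul, div_mul_cancel₀ _ hw, add_neg_cancel]

lemma third (hw : dot l w ≠ 0) (hx : dot l x = 0) (ht : dot l t = 0) (h : Ind x t) :
    ∃ b, det4 w x t b ≠ 0 := by
  by_contra h0
  push Not at h0
  have h1 := h0 (ee 0)
  have h2 := h0 (ee 1)
  have h3 := h0 (ee 2)
  have h4 := h0 (ee 3)
  simp [det4, pp, plk, ee_eq] at h1 h2 h3 h4
  simp only [dot] at hx ht
  refine h (funext fun i => mul_left_cancel₀ hw ?_)
  fin_cases i <;> simp only [dot, plk, Pi.zero_apply, mul_zero]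
  · change _ * (x 0 * t 1 - x 1 * t 0) = 0
    linear_combination l 2 * h4 - l 3 * h3 + (w 0 * t 1 - w 1 * t 0) * hx - (w 0 * x 1 - w 1 * x 0) * ht
  · change _ * (x 0 * t 2 - x 2 * t 0) = 0
    linear_combination l 3 * h2 - l 1 * h4 + (w 0 * t 2 - w 2 * t 0) * hx - (w 0 * x 2 - w 2 * x 0) * ht
  · change _ * (x 0 * t 3 - x 3 * t 0) = 0
    linear_combination l 1 * h3 - l 2 * h2 + (w 0 * t 3 - w 3 * t 0) * hx - (w 0 * x 3 - w 3 * x 0) * ht
  · change _ * (x 1 * t 2 - x 2 * t 1) = 0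
    linear_combination l 0 * h4 - l 3 * h1 + (w 1 * t 2 - w 2 * t 1) * hx - (w 1 * x 2 - w 2 * x 1) * ht
  · change _ * (x 1 * t 3 - x 3 * t 1) = 0
    linear_combination l 2 * h1 - l 0 * h3 + (w 1 * t 3 - w 3 * t 1) * hx - (w 1 * x 3 - w 3 * x 1) * ht
  · change _ * (x 2 * t 3 - x 3 * t 2) = 0
    linear_combination l 0 * h2 - l 1 * h1 + (w 2 * t 3 - w 3 * t 2) * hx - (w 2 * x 3 - w 3 * x 2) * ht

lemma third' (hw : dot l w ≠ 0) (hx : dot l x = 0) (ht : dot l t = 0) (h : Ind x t) :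
    ∃ b, dot l b = 0 ∧ Ind3 x t b := by
  obtain ⟨b, hb⟩ := third hw hx ht h
  refine ⟨_, dot_pr hw b, w, fun e => hb ?_⟩
  rw [← e]
  simp only [det4, pp, plk, cb, v6_0, v6_1, v6_2, v6_3, v6_4, v6_5]
  ring

lemma second (hw : dot l w ≠ 0) (hx : dot l x = 0) (h : x ≠ 0) :
    ∃ a b, dot l a = 0 ∧ dot l b = 0 ∧ Ind3 x a b := by
  obtain ⟨a, b, hab⟩ : ∃ a b, det4 w x a b ≠ 0 := by
    by_contra h0
    push Not at h0
    have h1 := h0 (ee 2) (ee 3)
    have h2 := h0 (ee 3) (ee 1)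
    have h3 := h0 (ee 1) (ee 2)
    have h4 := h0 (ee 0) (ee 3)
    have h5 := h0 (ee 2) (ee 0)
    have h6 := h0 (ee 0) (ee 1)
    simp [det4, pp, plk, ee_eq] at h1 h2 h3 h4 h5 h6
    simp only [dot] at hx
    refine h (funext fun i => mul_left_cancel₀ hw ?_)
    fin_cases i <;> simp only [dot, Pi.zero_apply, mul_zero]
    · change _ * x 0 = 0
      linear_combination w 0 * hx - l 1 * h1 - l 2 * h2 - l 3 * h3
    · change _ * x 1 = 0
      linear_combination w 1 * hx + l 0 * h1 - l 2 * h4 - l 3 * h5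
    · change _ * x 2 = 0
      linear_combination w 2 * hx + l 0 * h2 + l 1 * h4 - l 3 * h6
    · change _ * x 3 = 0
      linear_combination w 3 * hx + l 0 * h3 + l 1 * h5 + l 2 * h6
  refine ⟨_, _, dot_pr hw a, dot_pr hw b, w, fun e => hab ?_⟩
  rw [← e]
  simp only [det4, pp, plk, cb, v6_0, v6_1, v6_2, v6_3, v6_4, v6_5]
  ring

lemma ind_of_ind3 (h : Ind3 x a b) : Ind x b := fun e => by
  obtain ⟨y, hy⟩ := h
  refine hy (Eq.trans (b := -pp (plk y a) (plk x b)) ?_ ?_)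
  · simp only [det4, pp, plk, v6_0, v6_1, v6_2, v6_3, v6_4, v6_5]
    ring
  · rw [e]; simp [pp]

lemma ne_of_ind (h : Ind x t) : x ≠ 0 := fun e => h (by
  rw [e]; funext i; fin_cases i <;> simp [plk])

end alg

variable {sp : Sp} {e : Om} {g : Fin 20 → Om} {g' : Fin 20 → ℂ} {l x a b c : V4 Om}
  {l' x' a' b' c' w' y' : V4 ℂ} {r : Om}

lemma tv_tri (hg : TV sp g g') (ha : TV sp a a') (hb : TV sp b b') (hc : TV sp c c') :
    Tends sp.v (tri g a b c) (tri g' a' b' c') := mem_tri (G := (spPl sp).G) hg ha hb hc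

lemma tv_ll (hg : TV sp g g') (ha : TV sp a a') (hb : TV sp b b') :
    TV sp (ll g a b) (ll g' a' b') := fun i => tv_tri hg ha hb (mem_ee (G := (spPl sp).G) i)

lemma nr_tri (hg : Nr sp e g g') (ha : Nr sp e a a') (hb : Nr sp e b b') (hc : Nr sp e c c') :
    (tri g a b c, ct (tri g' a' b' c')) ∈ Cg sp e := by
  rw [(hom_ringHom ct).tri]; exact mem_tri hg ha hb hc

lemma nr_ct (sp : Sp) (e : Om) (y : V4 ℂ) : Nr sp e (fun i => ct (y i)) y := fun _ => Cg_ct sp e _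

lemma le_of_nr (hg : Nr sp e g g') (ha : Nr sp e a a') (hb : Nr sp e b b') (hc : Nr sp e c c')
    (h : tri g' a' b' c' = 0) : sp.v (tri g a b c) ≤ sp.v e := by
  have := (nr_tri hg ha hb hc).2.2
  rwa [h, map_zero, sub_zero] at this

lemma lift_tv (hl : TV sp l l') (hw : dot l' w' ≠ 0) (hy : dot l' y' = 0) :
    ∃ y, dot l y = 0 ∧ TV sp y y' := by
  have h1 := mem_spPl.1 (mem_dot (G := (spPl sp).G) hl (tv_ct sp w'))
  have h2 := mem_spPl.1 (mem_dot (G := (spPl sp).G) hl (tv_ct sp y'))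
  refine ⟨_, dot_pr (h1.ne_zero hw) fun i => ct (y' i), fun i => ?_⟩
  refine ((Tends.one.mul (Tends.const (y' i))).add
    ((h2.div h1 hw).neg.mul (Tends.const (w' i)))).of_eq_right ?_
  rw [hy]; ring

lemma lift_nr (he : sp.v e < 1) (hg : Nr sp e g g') (hx : Nr sp e x x')
    (hw : tri g' x' x' w' ≠ 0) (hy : tri g' x' x' y' = 0) :
    ∃ y, dot (ll g x x) y = 0 ∧ Nr sp e y y' := by
  have h1 := tends_of_Cg he (nr_tri hg hx hx (nr_ct sp e w'))
  have h2 := le_of_nr hg hx hx (nr_ct sp e y') hy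
  rw [← dot_ll] at h1 h2
  refine ⟨_, dot_pr (h1.ne_zero hw) fun i => ct (y' i), fun i => ?_⟩
  have h3 : sp.v (-(dot (ll g x x) (fun i => ct (y' i)) / dot (ll g x x) fun i => ct (w' i)) *
      ct (w' i)) ≤ sp.v e := by
    rw [map_mul, Valuation.map_neg, map_div₀, h1.eq_one hw, div_one]
    exact (mul_le_of_le_one_right' (Tends.const _).le_one).trans h2
  refine ⟨Valuation.map_add_le _ ?_ (h3.trans he.le), (Tends.const _).le_one, ?_⟩
  · rw [one_mul]; exact (Tends.const _).le_one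
  · simpa only [cb, one_mul, add_sub_cancel_left] using h3

lemma basis (hA : S_RANY) (hr : IsR g x r) {m : Om} (hm : m ≠ 0)
    (hl : ∀ y, tri g x x y = m * dot l y) (tl : TV sp l l') (tx : TV sp x x') (ta : TV sp a a')
    (tb : TV sp b b') (ha : dot l a = 0) (hb : dot l b = 0) (hw : dot l' w' ≠ 0)
    (h : Ind3 x' a' b') : ∃ d, sp.v d * sp.v m = 1 ∧ (∀ y, det4 y x a b = d * tri g x x y) ∧
      r * d ^ 6 = Rs g x a b := by
  have hx : dot l x = 0 := (mul_eq_zero.1 ((hl x).symm.trans hr.1)).resolve_left hm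
  have z : ∀ {y : V4 Om} {y' : V4 ℂ}, TV sp y y' → dot l y = 0 → dot l' y' = 0 := fun ty hy =>
    Tends.eq_zero (v := sp.v) (mem_dot (G := (spPl sp).G) tl ty) hy
  have h1 : Tends sp.v _ _ := mem_dot (G := (spPl sp).G) tl (tv_ct sp w')
  have h2 : Tends sp.v _ _ := mem_det4 (G := (spPl sp).G) (tv_ct sp w') tx ta tb
  have h3 := det_ne hw (z tx hx) (z ta ha) (z tb hb) h
  have h4 := h1.ne_zero hw
  have h5 : ∀ y, det4 y x a b = det4 (fun i => ct (w' i)) x a b / (dot l (fun i => ct (w' i)) * m) *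
      tri g x x y := fun y => by
    rw [hl, div_mul_eq_mul_div, eq_div_iff (mul_ne_zero h4 hm)]
    linear_combination m * det_prop hx ha hb (fun i => ct (w' i)) y
  refine ⟨_, ?_, h5, hA Om g x a b r _ hr (div_ne_zero (h2.ne_zero h3) (mul_ne_zero h4 hm)) h5⟩
  rw [map_div₀, map_mul, h1.eq_one hw, h2.eq_one h3, one_mul, div_mul_cancel₀]
  simpa using hm

lemma basis1 (hA : S_RANY) (hr : IsR g x r) (tg : TV sp g g') (tx : TV sp x x') (ta : TV sp a a')
    (tb : TV sp b b') (ha : dot (ll g x x) a = 0) (hb : dot (ll g x x) b = 0)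
    (hw : tri g' x' x' w' ≠ 0) (h : Ind3 x' a' b') : sp.v r = sp.v (Rs g x a b) := by
  obtain ⟨d, h1, -, h2⟩ := basis hA hr one_ne_zero (fun y => by rw [one_mul, dot_ll])
    (tv_ll tg tx tx) tx ta tb ha hb (w' := w') (by rwa [dot_ll]) h
  rw [map_one, mul_one] at h1
  rw [← h2, map_mul, map_pow, h1, one_pow, mul_one]

lemma exists_mul {p : Om} (h : sp.v p ≤ sp.v e) : ∃ q ∈ sp.O, p = e * q := by
  by_cases he : e = 0
  · exact ⟨0, zero_mem _, by simpa [he] using h⟩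
  · refine ⟨p / e, (sp.O.valuation_le_one_iff _).1 ?_, (mul_div_cancel₀ _ he).symm⟩
    rw [map_div₀]
    exact div_le_one_of_le₀ h zero_le

end R2

open R2

theorem thm_RB (hA : S_RANY) : S_RB := by
  intro sp g g' x x' r tg tx h0 hr
  have hl : ll g x x ≠ 0 := fun e => by
    obtain ⟨w, hw⟩ := hr.2.1
    exact hw (by rw [← dot_ll, e]; simp [dot])
  have hm := nv_ne_zero sp hl
  have h1 : ∀ y, tri g x x y = nv sp (ll g x x) * dot (nz sp (ll g x x)) y := fun y => by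
    rw [← dot_ll]
    simp only [dot, nz]
    field_simp
  have tl := tv_nz sp (ll g x x)
  obtain ⟨i, hi⟩ := Function.ne_iff.1 (rd_ne_zero sp hl)
  have hw : dot (rd sp (ll g x x)) (ee i) ≠ 0 := by rwa [dot_ee]
  obtain ⟨a', b', h2, h3, h4⟩ := second hw (Tends.eq_zero (v := sp.v)
    (mem_dot (G := (spPl sp).G) tl tx) ((mul_eq_zero.1 ((h1 x).symm.trans hr.1)).resolve_left hm)) h0
  obtain ⟨a, h5, ta⟩ := lift_tv tl hw h2
  obtain ⟨b, h6, tb⟩ := lift_tv tl hw h3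
  obtain ⟨d, h7, h8, h9⟩ := basis hA hr hm h1 tl tx ta tb h5 h6 hw h4
  refine ⟨a, b, a', b', d, ta, tb, h4, ?_, h8, h9⟩
  obtain ⟨j, hj⟩ := nv_mem sp (ll g x x)
  rw [← h7, hj]
  exact mul_le_of_le_one_right' (tv_ll tg tx tx j).le_one

theorem thm_L0 (hA : S_RANY) : S_L0 := by
  intro sp g g' x x' r tg tx h0 hr
  obtain ⟨a, b, a', b', d, ta, tb, -, h1, -, h2⟩ := thm_RB hA sp g g' x x' r tg tx h0 hr
  have h3 := Tends.le_one (v := sp.v) (mem_Rs (G := (spPl sp).G) tg tx ta tb)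
  change sp.v (Rs g x a b) ≤ 1 at h3
  rw [← h2, map_mul, map_pow] at h3
  exact (le_mul_of_one_le_right' (one_le_pow₀ h1)).trans h3

theorem thm_LA (hA : S_RANY) (hL : S_RLN) : S_LA := by
  intro sp g g' x x' t' r tg tx hr ht
  have h0 := ne_of_ind ht.1
  obtain ⟨a, b, a', b', d, ta, tb, ⟨y, hy⟩, h1, h2, h3⟩ := thm_RB hA sp g g' x x' r tg tx h0 hr
  have h4 : Tends sp.v (Rs g x a b) (Rs g' x' a' b') := mem_Rs (G := (spPl sp).G) tg tx ta tb
  rcases h1.lt_or_eq with h1 | h1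
  · by_contra h5
    have h6 := h4.le_one
    rw [← h3, map_mul, map_pow] at h6
    exact absurd ((le_mul_of_one_le_left' (not_lt.1 h5)).trans h6)
      (not_le.2 (one_lt_pow₀ h1 (by norm_num)))
  have td := tends_lim h1.ge
  have tr := tends_lim (thm_L0 hA sp g g' x x' r tg tx h0 hr)
  have h5 : ∀ w, det4 w x' a' b' = lim sp d * tri g' x' x' w := fun w =>
    Tends.eq_of_eq (v := sp.v) (mem_det4 (G := (spPl sp).G) (tv_ct sp w) tx ta tb)
      (td.mul (tv_tri tg tx tx (tv_ct sp w))) (h2 _)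
  rw [h5] at hy
  have := hL ℂ g' x' t' (lim sp r) ⟨(tv_tri tg tx tx tx).eq_zero hr.1, ⟨y, right_ne_zero_of_mul hy⟩,
    a', b', _, left_ne_zero_of_mul hy, h5, (tr.mul (td.pow 6)).eq_of_eq h4 h3⟩ ht
  rwa [this, Tends.zero_iff] at tr

theorem thm_LE1 (hA : S_RANY) : S_LE1 := by
  rintro sp e g g' x x' t' r he ng nx ⟨w, hw⟩ hr ht
  have tg := ng.tv he
  have tx := nx.tv he
  obtain ⟨b', h1, h2⟩ := third' (l := ll g' x' x') (w := w) (by rwa [dot_ll])
    (by rw [dot_ll]; exact (tv_tri tg tx tx tx).eq_zero hr.1) (by rw [dot_ll]; exact ht.2.1) ht.1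
  obtain ⟨a, h3, na⟩ := lift_nr he ng nx hw ht.2.1
  obtain ⟨b, h4, nb⟩ := lift_nr he ng nx hw (dot_ll g' x' x' b' ▸ h1)
  rw [basis1 hA hr tg tx (na.tv he) (nb.tv he) h3 h4 hw h2]
  have h5 := (mem_Rs ng nx na nb).2.2
  rwa [← (hom_ringHom ct).Rs, show Rs g' x' t' b' = 0 by
    simp only [Rs, resL, res23, ht.2.2.1, ht.2.2.2]; ring, map_zero, sub_zero] at h5

theorem thm_LE2 (hA : S_RANY) : S_LE2 := by
  rintro sp e g g' x x' t' s' r he ng nx ⟨w, hw⟩ hr ht hs h2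
  have tg := ng.tv he
  have tx := nx.tv he
  obtain ⟨a, h3, na⟩ := lift_nr he ng nx hw ht.2.1
  obtain ⟨b, h4, nb⟩ := lift_nr he ng nx hw hs.2.1
  rw [basis1 hA hr tg tx (na.tv he) (nb.tv he) h3 h4 hw h2]
  obtain ⟨a0, m0, e0⟩ := exists_mul (le_of_nr ng nx na na ht.2.2.1)
  obtain ⟨a2, m2, e2⟩ := exists_mul (le_of_nr ng nx nb nb hs.2.2.1)
  obtain ⟨b0, n0, f0⟩ := exists_mul (le_of_nr ng na na na ht.2.2.2)
  obtain ⟨b3, n3, f3⟩ := exists_mul (le_of_nr ng nb nb nb hs.2.2.2)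
  have m1 := (sp.O.valuation_le_one_iff _).1 (nr_tri ng nx na nb).1
  have n1 := (sp.O.valuation_le_one_iff _).1 (nr_tri ng na na nb).1
  have n2 := (sp.O.valuation_le_one_iff _).1 (nr_tri ng na nb nb).1
  have me := (sp.O.valuation_le_one_iff _).1 he.le
  simp only [Rs, resL, e0, e2, f0, f3] at m1 n1 n2 ⊢
  have m3 := add_mem m1 m1
  have n4 := mul_mem (natCast_mem sp.O 3) n1
  have n5 := mul_mem (natCast_mem sp.O 3) n2
  generalize tri g x a b + tri g x a b = a1 at m3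
  generalize ((3 : ℕ) : Om) * tri g a a b = b1 at n4
  generalize ((3 : ℕ) : Om) * tri g a b b = b2 at n5
  lift a0 to sp.O using m0
  lift a1 to sp.O using m3
  lift a2 to sp.O using m2
  lift b0 to sp.O using n0
  lift b1 to sp.O using n4
  lift b2 to sp.O using n5
  lift b3 to sp.O using n3
  lift e to sp.O using me
  have : res23 ((e : Om) * a0) a1 (e * a2) (e * b0) b1 b2 (e * b3) = (e : Om) ^ 2 *
      ((e ^ 3 * a0 ^ 3 * b3 ^ 2 - e * a0 ^ 2 * a1 * b2 * b3 + e * a0 ^ 2 * a2 * b2 ^ 2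
        - 2 * e ^ 2 * a0 ^ 2 * a2 * b1 * b3 + a0 * a1 ^ 2 * b1 * b3 - a0 * a1 * a2 * b1 * b2
        + 3 * e ^ 2 * a0 * a1 * a2 * b0 * b3 + e * a0 * a2 ^ 2 * b1 ^ 2
        - 2 * e ^ 2 * a0 * a2 ^ 2 * b0 * b2 - a1 ^ 3 * b0 * b3 + a1 ^ 2 * a2 * b0 * b2
        - e * a1 * a2 ^ 2 * b0 * b1 + e ^ 3 * a2 ^ 3 * b0 ^ 2 : sp.O) : Om) := by
    simp only [res23]
    push_cast
    rw [show ((2 : sp.O) : Om) = 2 from rfl, show ((3 : sp.O) : Om) = 3 from rfl]
    ring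
  rw [this, map_mul, map_pow]
  exact mul_le_of_le_one_right' (sp.O.valuation_le_one _)

theorem thm_LQ (hA : S_RANY) : S_LQ := by
  rintro sp e g g' x q x' q' r he0 he ng nx ⟨w, hw⟩ hr hre tq h1 h2 hq ⟨b', h3, h4⟩
  have tg := ng.tv he
  have tx := nx.tv he
  have h5 : Ind3 x' q' b' := by
    obtain ⟨y, hy⟩ := third (l := ll g' q' q') (w := b') (by rwa [dot_ll])
      (by rw [dot_ll, tri_swap23, tri_swap12]; exact hq.2.2.1) (by rw [dot_ll]; exact hq.2.2.2) hq.1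
    refine ⟨y, fun h => hy ?_⟩
    rw [← neg_eq_zero, ← h]
    simp only [det4, pp, plk, v6_0, v6_1, v6_2, v6_3, v6_4, v6_5]
    ring
  obtain ⟨b, h6, nb⟩ := lift_nr he ng nx hw h3
  have tb := nb.tv he
  have h7 := basis1 hA hr tg tx tq tb (by rwa [dot_ll]) h6 hw h5
  have t0 := tv_tri tg tx tq tq
  have t1 := tv_tri tg tx tq tb
  have t2 := tv_tri tg tx tb tb
  have s1 := tv_tri tg tq tq tb
  have s2 := tv_tri tg tq tb tb
  have s3 := tv_tri tg tb tb tb
  rw [hq.2.2.1] at t0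
  have key : ∀ {K : Type} [Field K] (a0 a1 a2 b1 b2 b3 : K),
      res23 a0 (a1 + a1) a2 0 (((3 : ℕ) : K) * b1) (((3 : ℕ) : K) * b2) b3 = a0 * (a0 * (a0 * b3 ^ 2
        - 6 * a1 * b2 * b3 + 9 * a2 * b2 ^ 2 - 6 * a2 * b1 * b3) + 3 * b1 * (4 * a1 ^ 2 * b3
          - 6 * a1 * a2 * b2 + 3 * a2 ^ 2 * b1)) := fun _ _ _ _ _ _ => by
    simp only [res23, Nat.cast_ofNat]; ring
  have c : ∀ (n : ℕ) [n.AtLeastTwo], Tends sp.v (OfNat.ofNat n) (OfNat.ofNat n) := fun n _ =>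
    Tends.ofNat n
  have h8 := (t0.mul ((((t0.mul (s3.pow 2)).sub ((((c 6).mul t1).mul s2).mul s3)).add
    (((c 9).mul t2).mul (s2.pow 2))).sub ((((c 6).mul t2).mul s1).mul s3))).add
    (((c 3).mul s1).mul (((((c 4).mul (t1.pow 2)).mul s3).sub ((((c 6).mul t1).mul t2).mul s2)).add
      (((c 3).mul (t2.pow 2)).mul s1)))
  rw [Rs, resL, h2, key, map_mul, h8.eq_one, mul_one] at h7
  · rw [← h7, hre]
  rw [zero_mul, zero_add]
  refine mul_ne_zero (mul_ne_zero three_ne_zero h4) fun h9 => ?_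
  obtain ⟨σ, k1, k2⟩ : ∃ σ, 2 * σ * tri g' x' q' b' + tri g' x' b' b' = 0 ∧
      3 * tri g' q' q' b' * (σ * σ) + 3 * tri g' q' b' b' * σ + tri g' b' b' b' = 0 := by
    by_cases h10 : tri g' x' q' b' = 0
    · obtain ⟨σ, hσ⟩ := exists_quadratic_eq_zero (b := 3 * tri g' q' b' b') (c := tri g' b' b' b')
        (mul_ne_zero three_ne_zero h4) (IsAlgClosed.exists_eq_mul_self _)
      refine ⟨σ, ?_, hσ⟩
      rw [h10] at h9 ⊢
      have : tri g' x' b' b' ^ 2 = 0 := mul_left_cancel₀ (mul_ne_zero three_ne_zero h4)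
        (by linear_combination h9)
      rw [pow_eq_zero_iff two_ne_zero] at this
      rw [this]; ring
    · refine ⟨-tri g' x' b' b' / (2 * tri g' x' q' b'), by field_simp; ring, ?_⟩
      field_simp
      linear_combination h9
  have h10 : Ind3 x' q' (cb σ q' 1 b') := by
    obtain ⟨y, hy⟩ := h5
    refine ⟨y, fun h => hy ?_⟩
    rw [← h]
    simp only [det4, pp, plk, cb, v6_0, v6_1, v6_2, v6_3, v6_4, v6_5]
    ring
  have l3 : ∀ u v : V4 ℂ, tri g' u v (cb σ q' 1 b') = σ * tri g' u v q' + tri g' u v b' :=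
    fun u v => by simp only [tri, cb]; ring
  have l2 : ∀ u v : V4 ℂ, tri g' u (cb σ q' 1 b') v = σ * tri g' u q' v + tri g' u b' v :=
    fun u v => by simp only [tri, cb]; ring
  have l1 : ∀ u v : V4 ℂ, tri g' (cb σ q' 1 b') u v = σ * tri g' q' u v + tri g' b' u v :=
    fun u v => by simp only [tri, cb]; ring
  have h11 := thm_LE2 hA sp e g g' x x' q' (cb σ q' 1 b') r he ng nx ⟨w, hw⟩ hr hq
    ⟨ind_of_ind3 h10, by rw [l3, hq.2.1, h3]; ring, ?_, ?_⟩ h10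
  · rw [hre, pow_two] at h11
    exact absurd h11 (not_le.2 (mul_lt_of_lt_one_right (zero_lt_iff.2 (by simpa using he0)) he))
  · rw [l3, l2, l2, hq.2.2.1, tri_swap23 g' x' b' q']
    linear_combination k1
  · simp only [l1, l2, l3]
    rw [hq.2.2.2, tri_swap23 g' q' b' q', tri_swap12 g' b' q' q', tri_swap23 g' q' b' q',
      tri_swap23 g' b' b' q', tri_swap12 g' b' q' b']
    linear_combination k2

end Pool.Agent.P.MP_7ebcb6_ag.SC
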