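import Pool.Agent.P.MP_7ebcb6_ag.SC.St1

/-! The covariant of lines on a cubic that degenerates to a quadric and a plane. -/

namespace Pool.Agent.P.MP_7ebcb6_ag.SC

open G8

namespace R3

section alg

variable {K : Type} [Field K]

lemma span3 {x a b w : V4 K} (h : Ind3 x a b) (h0 : det4 w x a b = 0) :
    ∃ r s t, w = cb3 r x s a t b := by
  obtain ⟨y, hy⟩ := h
  refine ⟨det4 y w a b / det4 y x a b, det4 y x w b / det4 y x a b,
    det4 y x a w / det4 y x a b, funext fun i => ?_⟩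
  have key : det4 y x a b * w i = det4 w x a b * y i + det4 y w a b * x i + det4 y x w b * a i
      + det4 y x a w * b i := by
    fin_cases i <;> simp [det4, pp, plk] <;> ring
  rw [h0] at key
  simp only [cb3]
  field_simp
  linear_combination key

lemma res_root {a0 a1 a2 b0 b1 b2 b3 s t : K} (h : res23 a0 a1 a2 b0 b1 b2 b3 ≠ 0)
    (h1 : a0 * s ^ 2 + a1 * s * t + a2 * t ^ 2 = 0)
    (h2 : b0 * s ^ 3 + b1 * s ^ 2 * t + b2 * s * t ^ 2 + b3 * t ^ 3 = 0) : s = 0 ∧ t = 0 := by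
  by_cases ht : t = 0
  · subst ht
    refine ⟨?_, rfl⟩
    by_contra hs
    have e1 : a0 = 0 := by simpa [hs] using h1
    have e2 : b0 = 0 := by simpa [hs] using h2
    exact h (by simp [res23, e1, e2])
  · exfalso
    obtain ⟨r, rfl⟩ : ∃ r, s = r * t := ⟨s / t, by field_simp⟩
    have e1 : a2 = -(a0 * r ^ 2 + a1 * r) :=
      mul_left_cancel₀ (pow_ne_zero 2 ht) (by linear_combination h1)
    have e2 : b3 = -(b0 * r ^ 3 + b1 * r ^ 2 + b2 * r) :=
      mul_left_cancel₀ (pow_ne_zero 3 ht) (by linear_combination h2)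
    apply h
    rw [e1, e2]
    simp only [res23]
    ring

lemma tri_cb (g : Fin 20 → K) (x a b e : V4 K) (A B E M N P : K) :
    tri g (cb A x M a) (cb B x N b) (cb E x P e) = A * B * E * tri g x x x
      + (A * B * P * tri g x x e + A * E * N * tri g x x b + B * E * M * tri g x x a)
      + (A * N * P * tri g x b e + B * M * P * tri g x a e + E * M * N * tri g x a b)
      + M * N * P * tri g a b e := by
  simp only [tri, cb]
  ring

lemma tri_l (g : Fin 20 → K) (y w a b : V4 K) (s t : K) :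
    tri g y w (cb s a t b) = s * tri g y w a + t * tri g y w b := by
  simp only [tri, cb]
  ring

lemma resL_root {aa ab bb s t : K} {g : Fin 20 → K} {a b : V4 K} (h : resL aa ab bb g a b ≠ 0)
    (h1 : aa * s ^ 2 + 2 * ab * s * t + bb * t ^ 2 = 0)
    (h2 : tri g (cb s a t b) (cb s a t b) (cb s a t b) = 0) : s = 0 ∧ t = 0 := by
  refine res_root h (by linear_combination h1) ?_
  rw [tri_cb] at h2
  push_cast
  linear_combination h2

lemma tri_x (g : Fin 20 → K) (x a b : V4 K) (r s t : K) :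
    tri g x (cb3 r x s a t b) (cb3 r x s a t b) = r ^ 2 * tri g x x x
      + 2 * r * (s * tri g x x a + t * tri g x x b)
      + (tri g x a a * s ^ 2 + 2 * tri g x a b * s * t + tri g x b b * t ^ 2) := by
  simp only [tri, cb3]
  ring

lemma onL {g : Fin 20 → K} {a b : V4 K} (h : OnL g a b) (s t s' t' s'' t'' : K) :
    tri g (cb s a t b) (cb s' a t' b) (cb s'' a t'' b) = 0 := by
  rw [tri_cb, h.1, h.2.1, h.2.2.1, h.2.2.2]
  ring

lemma cb_l (a b : V4 K) : cb 1 a 0 b = a := funext fun i => by simp [cb]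

lemma cb_r (a b : V4 K) : cb 0 a 1 b = b := funext fun i => by simp [cb]

lemma not_ind {x a b : V4 K} (h : Ind a b) {r s : K} (ha : a = fun i => r * x i)
    (hb : b = fun i => s * x i) : False := by
  apply h
  subst ha hb
  funext i
  fin_cases i <;> simp [plk] <;> ring

variable {g c : Fin 20 → K} {k : Fin 6 → K} {n : V4 K} {u be : K}

lemma triE (h : ∀ i, u * g i = qlc k n i - be * c i) (a b e : V4 K) :
    u * tri g a b e = qb k a b * dot n e + qb k a e * dot n b + qb k b e * dot n a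
      - be * tri c a b e := by
  have h1 : u * tri g a b e = tri (fun i => u * g i) a b e := by
    simp only [tri]
    ring
  rw [h1, funext h, ← tri_qlc]
  simp only [tri]
  ring

/-- The point of the line through `x` and `a` in the plane `n`. -/
def zz (n x a : V4 K) : V4 K := cb (dot n a) x (-dot n x) a

lemma dot_zz (n x a : V4 K) : dot n (zz n x a) = 0 := by
  simp only [zz, dot, cb]
  ring

lemma zzE (h : ∀ i, u * g i = qlc k n i - be * c i) {x a b e : V4 K} (h0 : tri g x x x = 0)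
    (ha : tri g x x a = 0) (hb : tri g x x b = 0) (he : tri g x x e = 0) :
    be * tri c (zz n x a) (zz n x b) (zz n x e) = u * dot n x ^ 3 * tri g a b e
      - u * dot n x ^ 2 * (dot n a * tri g x b e + dot n b * tri g x a e
        + dot n e * tri g x a b) := by
  have h1 := triE h (zz n x a) (zz n x b) (zz n x e)
  rw [dot_zz, dot_zz, dot_zz, zz, zz, zz, tri_cb, h0, ha, hb, he] at h1
  simp only [zz]
  linear_combination h1

lemma resC (h : ∀ i, u * g i = qlc k n i - be * c i) {x a b : V4 K} (h0 : tri g x x x = 0)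
    (ha : tri g x x a = 0) (hb : tri g x x b = 0) :
    (u * dot n x ^ 3) ^ 2 * Rs g x a b = be ^ 2 *
      resL (tri g x a a) (tri g x a b) (tri g x b b) c (zz n x a) (zz n x b) := by
  have e : ∀ a0 a1 a2 b0 b1 b2 b3 : K, be ^ 2 * res23 a0 a1 a2 b0 (((3 : ℕ) : K) * b1)
      (((3 : ℕ) : K) * b2) b3 = res23 a0 a1 a2 (be * b0) (3 * (be * b1)) (3 * (be * b2))
        (be * b3) := by
    intros
    simp only [res23]
    push_cast
    ring
  rw [resL, e, zzE h h0 ha ha ha, zzE h h0 ha ha hb, zzE h h0 ha hb hb, zzE h h0 hb hb hb]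
  simp only [Rs, resL, res23]
  push_cast
  ring

/-- The rescaled plane near a point off the quadric. -/
def mv (c : Fin 20 → K) (k : Fin 6 → K) (x : V4 K) : V4 K := fun i =>
  (tri c x x (ee i) - 2 * qb k x (ee i) * (tri c x x x * (3 * qb k x x)⁻¹)) * (qb k x x)⁻¹

/-- The rescaled cubic. -/
def g1 (c : Fin 20 → K) (k : Fin 6 → K) (x : V4 K) : Fin 20 → K := fun i =>
  qlc k (mv c k x) i - 1 * c i

lemma dot_mv (c : Fin 20 → K) (k : Fin 6 → K) (x w : V4 K) : dot (mv c k x) w =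
    (tri c x x w - 2 * qb k x w * (tri c x x x * (3 * qb k x x)⁻¹)) * (qb k x x)⁻¹ := by
  simp only [dot, mv]
  generalize tri c x x x * (3 * qb k x x)⁻¹ = m
  generalize (qb k x x)⁻¹ = j
  simp [tri, qb, ee, Nat.beq]
  ring

lemma tri_g1 (c : Fin 20 → K) (k : Fin 6 → K) (x a b e : V4 K) :
    tri (g1 c k x) a b e = qb k a b * dot (mv c k x) e + qb k a e * dot (mv c k x) b
      + qb k b e * dot (mv c k x) a - tri c a b e := by
  have := triE (u := 1) (be := 1) (g := g1 c k x) (c := c) (k := k) (n := mv c k x)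
    (fun i => one_mul _) a b e
  linear_combination this

variable [CharZero K]

lemma sing_g1 {x : V4 K} (hk : qb k x x ≠ 0) (w : V4 K) : tri (g1 c k x) x x w = 0 := by
  rw [tri_g1, dot_mv, dot_mv]
  field_simp
  ring

lemma dot_eq (h : ∀ i, u * g i = qlc k n i - be * c i) {x w : V4 K} (hk : qb k x x ≠ 0)
    (h0 : tri g x x x = 0) (hw : tri g x x w = 0) : dot n w = be * dot (mv c k x) w := by
  have h1 := triE h x x x
  have h2 := triE h x x w
  rw [h0] at h1
  rw [hw] at h2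
  rw [dot_mv]
  field_simp
  linear_combination (2 * qb k x w) * h1 - 3 * qb k x x * h2

lemma g1E (h : ∀ i, u * g i = qlc k n i - be * c i) {x a b e : V4 K} (hk : qb k x x ≠ 0)
    (h0 : tri g x x x = 0) (ha : tri g x x a = 0) (hb : tri g x x b = 0) (he : tri g x x e = 0) :
    u * tri g a b e = be * tri (g1 c k x) a b e := by
  rw [triE h, tri_g1, dot_eq h hk h0 ha, dot_eq h hk h0 hb, dot_eq h hk h0 he]
  ring

lemma resD (h : ∀ i, u * g i = qlc k n i - be * c i) {x a b : V4 K} (hk : qb k x x ≠ 0)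
    (h0 : tri g x x x = 0) (ha : tri g x x a = 0) (hb : tri g x x b = 0) :
    u ^ 5 * Rs g x a b = be ^ 5 * Rs (g1 c k x) x a b := by
  have e : ∀ (v : K) (f : Fin 20 → K), v ^ 5 * Rs f x a b = res23 (v * tri f x a a)
      (2 * (v * tri f x a b)) (v * tri f x b b) (v * tri f a a a) (3 * (v * tri f a a b))
      (3 * (v * tri f a b b)) (v * tri f b b b) := by
    intros
    simp only [Rs, resL, res23]
    push_cast
    ring
  rw [e, e, g1E h hk h0 h0 ha ha, g1E h hk h0 h0 ha hb, g1E h hk h0 h0 hb hb, g1E h hk h0 ha ha ha,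
    g1E h hk h0 ha ha hb, g1E h hk h0 ha hb hb, g1E h hk h0 hb hb hb]

end alg

lemma val_le {sp : Sp} {r d R e U Q : Om} {m : ℕ} (hd : 1 ≤ sp.v d) (hU : sp.v U = 1)
    (hR : sp.v R ≤ 1) (hQ : r * d ^ 6 = Q) (h : U * Q = e ^ m * R) :
    sp.v r ≤ sp.v e ^ m ∧ (e ≠ 0 → sp.v r = sp.v e ^ m → sp.v d ≤ 1 ∧ sp.v R = 1) := by
  have h1 := congrArg sp.v h
  rw [← hQ, map_mul, map_mul, map_mul, map_pow, map_pow, hU, one_mul] at h1
  have h2 : 1 ≤ sp.v d ^ 6 := one_le_pow₀ hd
  refine ⟨(le_mul_of_one_le_right' h2).trans (h1.le.trans (mul_le_of_le_one_right' hR)),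
    fun he hr => ?_⟩
  rw [hr] at h1
  have h3 := mul_left_cancel₀ (pow_ne_zero m (by simpa using he)) h1
  exact ⟨(pow_le_one_iff_of_nonneg zero_le (by norm_num)).1 (h3 ▸ hR), le_antisymm hR (h3 ▸ h2)⟩

lemma ne_of_v {sp : Sp} {R : Om} {R' : ℂ} (h : Tends sp.v R R') (h1 : sp.v R = 1) : R' ≠ 0 := by
  rintro rfl
  exact (Tends.zero_iff.1 h).ne h1

lemma ttri {sp : Sp} {g : Fin 20 → Om} {g' : Fin 20 → ℂ} (hg : TV sp g g') {a b e : V4 Om}
    {a' b' e' : V4 ℂ} (ha : TV sp a a') (hb : TV sp b b') (he : TV sp e e') :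
    Tends sp.v (tri g a b e) (tri g' a' b' e') := mem_tri (G := (spPl sp).G) hg ha hb he

lemma tdot {sp : Sp} {a b : V4 Om} {a' b' : V4 ℂ} (ha : TV sp a a') (hb : TV sp b b') :
    Tends sp.v (dot a b) (dot a' b') := mem_dot (G := (spPl sp).G) ha hb

lemma tqb {sp : Sp} {k : Fin 6 → Om} {k' : Fin 6 → ℂ} (hk : TV sp k k') {a b : V4 Om}
    {a' b' : V4 ℂ} (ha : TV sp a a') (hb : TV sp b b') :
    Tends sp.v (qb k a b) (qb k' a' b') := mem_qb (G := (spPl sp).G) hk ha hb

lemma tcb {sp : Sp} {a b : V4 Om} {a' b' : V4 ℂ} (ha : TV sp a a') (hb : TV sp b b') (s t : ℂ) :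
    TV sp (cb (ct s) a (ct t) b) (cb s a' t b') :=
  mem_cb (G := (spPl sp).G) (Tends.const (v := sp.v) s) ha (Tends.const (v := sp.v) t) hb

lemma tzz {sp : Sp} {n x a : V4 Om} {n' x' a' : V4 ℂ} (hn : TV sp n n') (hx : TV sp x x')
    (ha : TV sp a a') : TV sp (zz n x a) (zz n' x' a') :=
  mem_cb (G := (spPl sp).G) (tdot hn ha) hx (tdot hn hx).neg ha

lemma tg1 {sp : Sp} {c : Fin 20 → Om} {c' : Fin 20 → ℂ} (hc : TV sp c c') {k : Fin 6 → Om}
    {k' : Fin 6 → ℂ} (hk : TV sp k k') {x : V4 Om} {x' : V4 ℂ} (hx : TV sp x x')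
    (h0 : qb k' x' x' ≠ 0) : TV sp (g1 c k x) (g1 c' k' x') := by
  have he : ∀ j, TV sp (ee j) (ee j) := fun j => mem_ee (G := (spPl sp).G) j
  have hm : TV sp (mv c k x) (mv c' k' x') := fun i =>
    ((ttri hc hx hx (he i)).sub (((Tends.ofNat 2).mul (tqb hk hx (he i))).mul
      ((ttri hc hx hx hx).mul (((Tends.ofNat 3).mul (tqb hk hx hx)).inv
        (mul_ne_zero three_ne_zero h0))))).mul ((tqb hk hx hx).inv h0)
  exact fun i => Tends.sub (mem_qlc (G := (spPl sp).G) hk hm i) (Tends.one.mul (hc i))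

/-- The integral basis of the tangent plane. -/
lemma basis (hB : S_RB) {sp : Sp} {g : Fin 20 → Om} {g' : Fin 20 → ℂ} {x : V4 Om} {x' : V4 ℂ}
    {r : Om} (hg : TV sp g g') (hx : TV sp x x') (h0 : x' ≠ 0) (hr : IsR g x r) :
    ∃ (a b : V4 Om) (a' b' : V4 ℂ) (d : Om), TV sp a a' ∧ TV sp b b' ∧ 1 ≤ sp.v d ∧
      r * d ^ 6 = Rs g x a b ∧ tri g x x a = 0 ∧ tri g x x b = 0 ∧
      (sp.v d ≤ 1 → ∀ w, tri g' x' x' w = 0 → ∃ r s t, w = cb3 r x' s a' t b') := by
  obtain ⟨a, b, a', b', d, ha, hb, hI, hd, hw, hR⟩ := hB sp g g' x x' r hg hx h0 hr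
  have d0 : d ≠ 0 := by
    rintro rfl
    simp at hd
  refine ⟨a, b, a', b', d, ha, hb, hd, hR, (mul_eq_zero.1 ?_).resolve_left d0,
    (mul_eq_zero.1 ?_).resolve_left d0, fun hd1 w h => span3 hI ?_⟩
  · rw [← hw]
    simp [det4, pp, plk]
    ring
  · rw [← hw]
    simp [det4, pp, plk]
    ring
  · obtain ⟨d', hd'⟩ := sp.exists_tends hd1
    have h1 : Tends sp.v (det4 (fun i => ct (w i)) x a b) (det4 w x' a' b') :=
      mem_det4 (G := (spPl sp).G) (tv_ct sp w) hx ha hb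
    rw [h1.eq_of_eq (hd'.mul (ttri hg hx hx (tv_ct sp w))) (hw _), h, mul_zero]

variable {sp : Sp} {g c : Fin 20 → Om} {k : Fin 6 → Om} {n : V4 Om} {u be : Om}
  {g' c' : Fin 20 → ℂ} {k' : Fin 6 → ℂ} {n' : V4 ℂ} {x : V4 Om} {x' : V4 ℂ} {r : Om}

lemma coreC (hB : S_RB) (D : Deg sp g c k n u be g' c' k' n') (hx : TV sp x x')
    (hn : dot n' x' ≠ 0) (hr : IsR g x r) : sp.v r ≤ sp.v be ^ 2 ∧
    (be ≠ 0 → sp.v r = sp.v be ^ 2 → ∀ w, tri g' x' x' w = 0 → tri g' x' w w = 0 →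
      tri c' (zz n' x' w) (zz n' x' w) (zz n' x' w) = 0 → ∃ s, w = fun i => s * x' i) := by
  obtain ⟨a, b, a', b', d, ha, hb, hd, hR, e1, e2, hs⟩ := basis hB D.hg hx
    (by rintro rfl; simp [dot] at hn) hr
  have hz1 := tzz D.hn hx ha
  have hz2 := tzz D.hn hx hb
  have h3 : Tends sp.v (((3 : ℕ) : Om)) (((3 : ℕ) : ℂ)) := mem_nat (G := (spPl sp).G) 3
  have hT : Tends sp.v (resL (tri g x a a) (tri g x a b) (tri g x b b) c (zz n x a) (zz n x b))
      (resL (tri g' x' a' a') (tri g' x' a' b') (tri g' x' b' b') c' (zz n' x' a')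
        (zz n' x' b')) :=
    mem_res23 (G := (spPl sp).G) (ttri D.hg hx ha ha)
      ((ttri D.hg hx ha hb).add (ttri D.hg hx ha hb)) (ttri D.hg hx hb hb)
      (ttri D.hc hz1 hz1 hz1) (h3.mul (ttri D.hc hz1 hz1 hz2)) (h3.mul (ttri D.hc hz1 hz2 hz2))
      (ttri D.hc hz2 hz2 hz2)
  have h := val_le hd (U := (u * dot n x ^ 3) ^ 2)
    (by simp [D.hu, (tdot D.hn hx).eq_one hn]) hT.le_one hR (resC D.eq hr.1 e1 e2)
  refine ⟨h.1, fun hb0 hv w h1 h2 h4 => ?_⟩
  obtain ⟨h5, h6⟩ := h.2 hb0 hv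
  obtain ⟨q, s, t, rfl⟩ := hs h5 w h1
  rw [tri_x, (ttri D.hg hx hx hx).eq_zero hr.1, (ttri D.hg hx hx ha).eq_zero e1,
    (ttri D.hg hx hx hb).eq_zero e2] at h2
  have h7 : zz n' x' (cb3 q x' s a' t b') = cb s (zz n' x' a') t (zz n' x' b') := by
    funext i
    simp only [zz, cb, cb3, dot]
    ring
  obtain ⟨rfl, rfl⟩ := resL_root (ne_of_v hT h6) (by linear_combination h2) (h7 ▸ h4)
  exact ⟨q, funext fun i => by simp [cb3]⟩

lemma coreD (hB : S_RB) (D : Deg sp g c k n u be g' c' k' n') (hx : TV sp x x')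
    (hk : qb k' x' x' ≠ 0) (hr : IsR g x r) : sp.v r ≤ sp.v be ^ 5 ∧
    (be ≠ 0 → sp.v r = sp.v be ^ 5 → ∀ w, tri g' x' x' w = 0 → tri (g1 c' k' x') x' w w = 0 →
      tri (g1 c' k' x') w w w = 0 → ∃ s, w = fun i => s * x' i) := by
  obtain ⟨a, b, a', b', d, ha, hb, hd, hR, e1, e2, hs⟩ := basis hB D.hg hx
    (by rintro rfl; simp [qb] at hk) hr
  have hT : Tends sp.v (Rs (g1 c k x) x a b) (Rs (g1 c' k' x') x' a' b') :=
    mem_Rs (G := (spPl sp).G) (tg1 D.hc D.hk hx hk) hx ha hb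
  have h := val_le hd (U := u ^ 5) (by simp [D.hu]) hT.le_one hR
    (resD D.eq ((tqb D.hk hx hx).ne_zero hk) hr.1 e1 e2)
  refine ⟨h.1, fun hb0 hv w h1 h2 h4 => ?_⟩
  obtain ⟨h5, h6⟩ := h.2 hb0 hv
  obtain ⟨q, s, t, rfl⟩ := hs h5 w h1
  have h7 : cb s a' t b' = cb (-q) x' 1 (cb3 q x' s a' t b') := by
    funext i
    simp only [cb, cb3]
    ring
  obtain ⟨rfl, rfl⟩ := resL_root (s := s) (t := t) (ne_of_v hT h6) (by
    rw [tri_x, sing_g1 hk, sing_g1 hk, sing_g1 hk] at h2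
    linear_combination h2) (by
    rw [h7, tri_cb, h2, h4, sing_g1 hk, sing_g1 hk]
    ring)
  exact ⟨q, funext fun i => by simp [cb3]⟩

end R3

open R3

theorem thm_LC1 (hB : S_RB) : S_LC1 :=
  fun _ _ _ _ _ _ _ _ _ _ _ _ _ _ D hx hn hr => (coreC hB D hx hn hr).1

theorem thm_LD1 (hB : S_RB) : S_LD1 :=
  fun _ _ _ _ _ _ _ _ _ _ _ _ _ _ D hx hn hr => (coreD hB D hx hn hr).1

theorem thm_LC2 (hB : S_RB) : S_LC2 := by
  intro sp g c k n u be g' c' k' n' x x' r D hx hn hr hb hv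
  have core := (coreC hB D hx hn hr).2 hb hv
  have vn := (tdot D.hn hx).eq_one hn
  refine ⟨fun q q' hq q0 h1 h2 h3 h4 => ?_, fun a b a' b' ha hb' hI hL s t e => ?_⟩
  · have n0 := (tdot D.hn hx).ne_zero hn
    have e0 := triE D.eq x x x
    have e1 := triE D.eq x x q
    have e2 := triE D.eq x q q
    have e3 := triE D.eq q q q
    rw [hr.1] at e0
    rw [h1] at e1
    rw [h3] at e2
    rw [h2, h3] at e3
    have e4 : u * (3 * dot n x ^ 2) * tri g x q q = be * (3 * dot n x * dot n q * tri c x x q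
        - dot n q ^ 2 * tri c x x x - 3 * dot n x ^ 2 * tri c x q q) := by
      linear_combination (3 * dot n x ^ 2) * e2 - 3 * dot n x * dot n q * e1 + dot n q ^ 2 * e0
    have t3 : Tends sp.v (3 : Om) 3 := Tends.ofNat 3
    have v3 := t3.eq_one three_ne_zero
    have up : sp.v (tri g x q q) ≤ sp.v be := by
      have := congrArg sp.v e4
      rw [map_mul, map_mul, map_mul, map_mul, map_pow, D.hu, v3, vn, one_pow, one_mul, one_mul,
        one_mul] at this
      rw [this]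
      exact mul_le_of_le_one_right' (((((t3.mul (tdot D.hn hx)).mul (tdot D.hn hq)).mul
        (ttri D.hc hx hx hq)).sub (((tdot D.hn hq).pow 2).mul (ttri D.hc hx hx hx))).sub
        ((t3.mul ((tdot D.hn hx).pow 2)).mul (ttri D.hc hx hq hq))).le_one
    have hz := tzz D.hn hx hq
    have c0 : tri c' (zz n' x' q') (zz n' x' q') (zz n' x' q') ≠ 0 := fun e => by
      obtain ⟨s, rfl⟩ := core q' ((ttri D.hg hx hx hq).eq_zero h1)
        ((ttri D.hg hx hq hq).unique (Tends.zero_iff.2 (up.trans_lt D.hb))) e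
      have e5 := (ttri D.hc hq hq hq).eq_zero
        ((mul_eq_zero.1 (show be * tri c q q q = 0 by linear_combination e3)).resolve_left hb)
      have e6 : s ^ 3 * tri c' x' x' x' = 0 := by
        rw [← e5]
        simp only [tri]
        ring
      obtain rfl := pow_eq_zero_iff three_ne_zero |>.1 ((mul_eq_zero.1 e6).resolve_right h4)
      exact q0 (funext fun i => zero_mul _)
    refine le_antisymm up ?_
    have e7 : be * tri c (zz n x q) (zz n x q) (zz n x q) =
        -(u * (3 * dot n x ^ 2)) * dot n q * tri g x q q := by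
      rw [zzE D.eq hr.1 h1 h1 h1, h2]
      ring
    have := congrArg sp.v e7
    rw [map_mul, map_mul, map_mul, Valuation.map_neg, map_mul, map_mul, map_pow, D.hu, v3, vn,
      (ttri D.hc hz hz hz).eq_one c0, one_pow, one_mul, one_mul, one_mul, mul_one] at this
    rw [this]
    exact mul_le_of_le_one_left' (tdot D.hn hq).le_one
  · have hy := tcb ha hb' s t
    rw [← e] at hy
    have key : ∀ s' t' : ℂ, ∃ m, cb s' a' t' b' = fun i => m * x' i := fun s' t' => by
      have hw := tcb ha hb' s' t'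
      have hz := tzz D.hn hy hw
      have h0 := onL hL (ct s) (ct t) (ct s) (ct t) (ct s) (ct t)
      have h1 := onL hL (ct s) (ct t) (ct s) (ct t) (ct s') (ct t')
      have h2 := onL hL (ct s) (ct t) (ct s') (ct t') (ct s') (ct t')
      have h3 := onL hL (ct s') (ct t') (ct s') (ct t') (ct s') (ct t')
      have h4 := zzE D.eq h0 h1 h1 h1
      simp only [h2, h3, mul_zero, add_zero, sub_zero] at h4
      exact core (cb s' a' t' b') ((ttri D.hg hy hy hw).eq_zero h1)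
        ((ttri D.hg hy hw hw).eq_zero h2)
        ((ttri D.hc hz hz hz).eq_zero ((mul_eq_zero.1 h4).resolve_left hb))
    obtain ⟨m1, h1⟩ := key 1 0
    obtain ⟨m2, h2⟩ := key 0 1
    exact not_ind hI ((cb_l a' b').symm.trans h1) ((cb_r a' b').symm.trans h2)

theorem thm_LD2 (hB : S_RB) : S_LD2 := by
  intro sp g c k n u be g' c' k' n' x x' r D hx hk hr hb hv a b a' b' ha hb' hI hL s t e
  have core := (coreD hB D hx hk hr).2 hb hv
  have hy := tcb ha hb' s t
  rw [← e] at hy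
  have hg := tg1 D.hc D.hk hy hk
  have k0 := (tqb D.hk hy hy).ne_zero hk
  have key : ∀ s' t' : ℂ, ∃ m, cb s' a' t' b' = fun i => m * x' i := fun s' t' => by
    have hw := tcb ha hb' s' t'
    have h0 := onL hL (ct s) (ct t) (ct s) (ct t) (ct s) (ct t)
    have h1 := onL hL (ct s) (ct t) (ct s) (ct t) (ct s') (ct t')
    have h2 := g1E D.eq k0 h0 h0 h1 h1
    have h3 := g1E D.eq k0 h0 h1 h1 h1
    rw [onL hL, mul_zero] at h2 h3
    exact core (cb s' a' t' b') ((ttri D.hg hy hy hw).eq_zero h1)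
      ((ttri hg hy hw hw).eq_zero ((mul_eq_zero.1 h2.symm).resolve_left hb))
      ((ttri hg hw hw hw).eq_zero ((mul_eq_zero.1 h3.symm).resolve_left hb))
  obtain ⟨m1, h1⟩ := key 1 0
  obtain ⟨m2, h2⟩ := key 0 1
  exact not_ind hI ((cb_l a' b').symm.trans h1) ((cb_r a' b').symm.trans h2)

end Pool.Agent.P.MP_7ebcb6_ag.SC
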