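import Pool.Agent.P.MP_7ebcb6_ag.SC.St1

/-! Finite support of valuations, the product formula and the point `(1 : lam)`. -/

namespace Pool.Agent.P.MP_7ebcb6_ag.SC

open G8 Polynomial Function

noncomputable section

namespace V1

lemma unc_mem (K : IntermediateField (RatFunc ℂ) Om) : ∀ c, unc c ∈ K
  | some c => sub_mem (K.algebraMap_mem _) (by
      have : ct c = algebraMap (RatFunc ℂ) Om (algebraMap ℂ (RatFunc ℂ) c) :=
        IsScalarTower.algebraMap_apply ℂ (RatFunc ℂ) Om c
      rw [this]
      exact K.algebraMap_mem _)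
  | none => inv_mem (K.algebraMap_mem _)

lemma fs (a : Om) : (support fun c => av (sec c) a).Finite := by
  classical
  by_cases ha : a = 0
  · simp [ha]
  obtain ⟨K, hK, hT⟩ := exists_finK {a}
  let g : K := ⟨a, hT a (by simp)⟩
  have hg : g ≠ 0 := fun h => ha (congrArg Subtype.val h)
  obtain ⟨S, hS, -⟩ := (isCurveField_finK K).exists_divisor hg
  choose w hw hl using fun c => (sec c).exists_lies K
  have hinj : Injective w := by
    intro c d hcd
    have h1 : (sec c).v (unc c) < 1 := pt_eq_iff.mp (pt_sec c)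
    have h2 : w c ⟨unc c, unc_mem K c⟩ < 1 := ((hl c).lt_one _).mpr h1
    rw [hcd] at h2
    have h3 : (sec d).v (unc c) < 1 := ((hl d).lt_one _).mp h2
    exact (pt_eq_iff.mpr h3).symm.trans (pt_sec d)
  refine (S.finite_toSet.preimage hinj.injOn).subset fun c hc => ?_
  refine (hS _).mpr ⟨hw c, fun h => hc (av_of_v_one ?_)⟩
  exact (Valuation.IsEquiv.eq_one_iff_eq_one (hl c)).mp h

lemma one_lt_lam {sp : Sp} (h : pt sp = none) : 1 < sp.v lam :=
  (Valuation.one_lt_val_iff _ nonConst_lam.ne_zero).mpr (pt_eq_iff.mp h)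

lemma av_lam {sp : Sp} (h : pt sp = none) : av sp lam = -1 := by
  have := av_un sp
  rw [un, h, unc, av_inv] at this
  linarith

/-- The degree of the divisor of an element. -/
def dg (a : Om) : ℚ := ∑ᶠ c, av (sec c) a

lemma dg_mul {a b : Om} (ha : a ≠ 0) (hb : b ≠ 0) : dg (a * b) = dg a + dg b := by
  rw [dg, dg, dg, ← finsum_add_distrib (fs a) (fs b)]
  exact finsum_congr fun c => av_mul ha hb

lemma dg_ct (c : ℂ) : dg (ct c) = 0 := by simp [dg]

lemma dg_lin (r : ℂ) : dg (lam - ct r) = 0 := by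
  classical
  have h1 : av (sec (some r)) (lam - ct r) = 1 := by
    have := av_un (sec (some r))
    rwa [un_sec] at this
  have h2 : av (sec none) (lam - ct r) = -1 := by
    have h3 := one_lt_lam (pt_sec none)
    rw [← av_lam (pt_sec none)]
    exact (av_eq_iff (unc_ne_zero (some r)) nonConst_lam.ne_zero).mpr
      (Valuation.map_sub_eq_of_lt_left _ ((Tends.const r).le_one.trans_lt h3))
  rw [dg, finsum_eq_sum_of_support_subset (s := {some r, none}), Finset.sum_pair (by simp), h1, h2]
  · norm_num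
  · rintro (_ | c) hc
    · simp
    · by_contra hn
      have hcr : c ≠ r := by simpa using hn
      exact hc (av_of_v_one (((tends_sec c).sub (Tends.const r)).eq_one (sub_ne_zero.mpr hcr)))

lemma dg_prod (s : Multiset ℂ) : dg (aeval lam (s.map fun r => X - C r).prod) = 0 := by
  induction s using Multiset.induction_on with
  | empty => simpa using dg_ct 1
  | cons r s ih =>
    have h0 : (s.map fun r => (X - C r : ℂ[X])).prod ≠ 0 :=
      (monic_multisetProd_X_sub_C s).ne_zero
    rw [Multiset.map_cons, Multiset.prod_cons, map_mul,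
      dg_mul (nonConst_lam.aeval_ne_zero (X_sub_C_ne_zero r)) (nonConst_lam.aeval_ne_zero h0), ih,
      map_sub, aeval_X, aeval_C, dg_lin, add_zero]

lemma dg_poly {p : ℂ[X]} (hp : p ≠ 0) : dg (aeval lam p) = 0 := by
  have h0 : (p.roots.map fun r => (X - C r : ℂ[X])).prod ≠ 0 :=
    (monic_multisetProd_X_sub_C _).ne_zero
  rw [← C_leadingCoeff_mul_prod_multiset_X_sub_C (IsAlgClosed.card_roots_eq_natDegree (p := p)),
    map_mul, dg_mul (nonConst_lam.aeval_ne_zero (C_ne_zero.mpr (leadingCoeff_ne_zero.mpr hp)))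
      (nonConst_lam.aeval_ne_zero h0), dg_prod, aeval_C, dg_ct, add_zero]

lemma dg_rat {r : RatFunc ℂ} (hr : r ≠ 0) : dg (algebraMap _ Om r) = 0 := by
  have h1 : algebraMap _ Om r * aeval lam r.denom = aeval lam r.num := by
    rw [aeval_lam, aeval_lam, ← map_mul]
    congr 1
    rw [eq_comm, ← div_eq_iff (RatFunc.algebraMap_ne_zero r.denom_ne_zero), RatFunc.num_div_denom]
  have h2 := dg_mul (a := algebraMap _ Om r) (by simpa using hr)
    (nonConst_lam.aeval_ne_zero r.denom_ne_zero)
  rw [h1, dg_poly (RatFunc.num_ne_zero hr), dg_poly r.denom_ne_zero] at h2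
  linarith

lemma mu_some {sp : Sp} {c : ℂ} (h : pt sp = some c) : mu sp (af lam) = 0 := by
  have h1 : TV sp (fun i => 1 * af lam i) ![1, c] := by
    intro i
    fin_cases i
    · simpa using Tends.one
    · simpa using pt_eq_some.mp h
  rw [mu_of_tv h1 (by simp), av_one, neg_zero]

lemma tv_none {sp : Sp} (h : pt sp = none) : TV sp (fun i => lam⁻¹ * af lam i) ![0, 1] := by
  intro i
  fin_cases i
  · have : sp.v lam⁻¹ < 1 := pt_eq_iff.mp h
    simpa using Tends.zero_iff.mpr this
  · simpa [inv_mul_cancel₀ nonConst_lam.ne_zero] using Tends.one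

lemma mu_none {sp : Sp} (h : pt sp = none) : mu sp (af lam) = -1 := by
  rw [mu_of_tv (tv_none h) (by simp), av_inv, av_lam h, neg_neg]

end V1

open V1

theorem thm_FS : S_FS := fs

theorem thm_FM : S_FM := by
  intro n x
  refine (Set.finite_iUnion fun i => fs (x i)).subset fun c hc => ?_
  obtain ⟨i, hi⟩ := nv_mem (sec c) x
  refine Set.mem_iUnion.mpr ⟨i, ?_⟩
  rw [mem_support, ← hi]
  exact hc

theorem thm_PF : S_PF := by
  intro ι _ ψ h0 hG
  have hfix : ∏ i, ψ i ∈ Set.range (algebraMap (RatFunc ℂ) Om) := by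
    rw [InfiniteGalois.mem_range_algebraMap_iff_fixed]
    intro τ
    obtain ⟨e, he⟩ := hG τ
    rw [map_prod, ← e.prod_comp ψ]
    exact Finset.prod_congr rfl fun i _ => he i
  obtain ⟨r, hr⟩ := hfix
  have hr0 : r ≠ 0 := by
    rintro rfl
    exact Finset.prod_ne_zero_iff.mpr (fun i _ => h0 i) (hr.symm.trans (map_zero _))
  have := dg_rat hr0
  rw [hr, dg] at this
  rw [← this]
  exact finsum_congr fun c => (av_prod _ fun i _ => h0 i).symm

theorem thm_MU : S_MU := by
  refine ⟨fun sp c h => mu_some h, fun sp h => ⟨mu_none h, av_lam h, ?_⟩, ?_⟩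
  · obtain ⟨d, -, hd⟩ := rd_of_tv (tv_none h) (by simp)
    simp [hd]
  · rw [finsum_eq_single _ none, mu_none (pt_sec none)]
    rintro (_ | c) hc
    · exact absurd rfl hc
    · exact mu_some (pt_sec _)

theorem thm_PERM : S_PERM := by
  intro α ι _ p f hp hf h
  choose g hg using h
  have hinj : Injective g := fun i j hij => hp (hf (by rw [hg, hg, hij]))
  exact ⟨Equiv.ofBijective g (Finite.injective_iff_bijective.mp hinj), hg⟩

end

end Pool.Agent.P.MP_7ebcb6_ag.SC
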