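import Pool.Agent.P.MP_7ebcb6_ag.SC.St1

/-! Counting lemmas and the lemma of Gauss. -/

namespace Pool.Agent.P.MP_7ebcb6_ag.SC

open G8 Polynomial Function

namespace V2

lemma key {ι ζ : Type} [Fintype ι] [Fintype ζ] (b : Option ℂ → ι → ℚ) (f : ζ → Option ℂ × ι)
    (hb : ∀ i, (support fun c => b c i).Finite) : ∃ T : Finset (Option ℂ × ι), (∀ j, f j ∈ T) ∧
      (∀ p, p ∉ T → b p.1 p.2 = 0) ∧ ∑ᶠ c, ∑ i, b c i = ∑ p ∈ T, b p.1 p.2 := by
  classical
  let S : Finset (Option ℂ) := (Finset.univ.biUnion fun i => (hb i).toFinset) ∪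
    Finset.univ.image fun j => (f j).1
  have hS : ∀ c i, c ∉ S → b c i = 0 := fun c i hc => by
    by_contra h
    exact hc (Finset.mem_union_left _ (Finset.mem_biUnion.mpr
      ⟨i, Finset.mem_univ _, (hb i).mem_toFinset.mpr h⟩))
  refine ⟨S ×ˢ Finset.univ, fun j => Finset.mem_product.mpr ⟨Finset.mem_union_right _
    (Finset.mem_image_of_mem _ (Finset.mem_univ j)), Finset.mem_univ _⟩,
    fun p hp => hS _ _ fun h => hp (Finset.mem_product.mpr ⟨h, Finset.mem_univ _⟩), ?_⟩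
  rw [Finset.sum_product]
  refine finsum_eq_sum_of_support_subset _ fun c hc => ?_
  by_contra h
  exact hc (Finset.sum_eq_zero fun i _ => hS c i h)

lemma split {ι ζ : Type} [Fintype ι] [Fintype ζ] [DecidableEq ι] [DecidableEq (Option ℂ)]
    (b : Option ℂ → ι → ℚ) {f : ζ → Option ℂ × ι} (hf : Injective f)
    {T : Finset (Option ℂ × ι)} (hT : ∀ j, f j ∈ T) : ∑ p ∈ T, b p.1 p.2 =
      ∑ p ∈ T \ Finset.univ.image f, b p.1 p.2 + ∑ j, b (f j).1 (f j).2 := by
  rw [← Finset.sum_image (f := fun p : Option ℂ × ι => b p.1 p.2) hf.injOn, Finset.sum_sdiff]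
  intro p hp
  obtain ⟨j, -, rfl⟩ := Finset.mem_image.mp hp
  exact hT j

lemma af_ne (t : Om) : af t ≠ 0 := fun h => by simpa using congrFun h 0

end V2

theorem thm_LOW : S_LOW := by
  classical
  intro ι ζ _ _ b f w hb h0 hf hw
  obtain ⟨T, h1, -, h3⟩ := V2.key b f hb
  rw [h3, V2.split b hf h1]
  exact le_add_of_nonneg_of_le (Finset.sum_nonneg fun p _ => h0 _ _)
    (Finset.sum_le_sum fun j _ => hw j)

theorem thm_CNT : S_CNT := by
  classical
  intro ι ζ _ _ b f w hb h0 hf hw hs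
  obtain ⟨T, h1, h2, h3⟩ := V2.key b f hb
  rw [h3, V2.split b hf h1] at hs
  have a1 : 0 ≤ ∑ p ∈ T \ Finset.univ.image f, b p.1 p.2 := Finset.sum_nonneg fun p _ => h0 _ _
  have a2 : ∑ j, w j ≤ ∑ j, b (f j).1 (f j).2 := Finset.sum_le_sum fun j _ => hw j
  refine ⟨fun j => ((Finset.sum_eq_sum_iff_of_le fun j _ => hw j).mp (by linarith) j
    (Finset.mem_univ j)).symm, fun c i hc => ?_⟩
  by_cases h : (c, i) ∈ T
  · refine (Finset.sum_eq_zero_iff_of_nonneg fun p _ => h0 p.1 p.2).mp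
      (le_antisymm (by linarith) a1) (c, i) (Finset.mem_sdiff.mpr ⟨h, fun e => hc ?_⟩)
    obtain ⟨j, -, e⟩ := Finset.mem_image.mp e
    exact ⟨j, e⟩
  · exact h2 _ h

theorem thm_LST : S_LST := by
  classical
  intro ι ζ _ _ b f hf h
  obtain ⟨T, h1, -, h3⟩ := V2.key b f fun i =>
    (Set.finite_range fun j => (f j).1).subset fun c hc => by
      by_contra e
      refine hc (h c i fun ⟨j, hj⟩ => e ⟨j, ?_⟩)
      simp [hj]
  rw [h3, V2.split b hf h1, Finset.sum_eq_zero, zero_add]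
  intro p hp
  exact h _ _ fun ⟨j, hj⟩ => (Finset.mem_sdiff.mp hp).2
    (Finset.mem_image.mpr ⟨j, Finset.mem_univ _, hj⟩)

theorem thm_GR : S_GR := by
  intro sp ι _ t l q hl h
  let m : Om := l * ∏ k, nv sp (af (t k))
  have hn : ∀ k, nv sp (af (t k)) ≠ 0 := fun k => nv_ne_zero sp (V2.af_ne _)
  have hm : m ≠ 0 := mul_ne_zero hl (Finset.prod_ne_zero_iff.mpr fun k _ => hn k)
  have ha : av sp m = av sp l + ∑ k, mu sp (af (t k)) := by
    rw [av_mul hl (Finset.prod_ne_zero_iff.mpr fun k _ => hn k), av_prod _ fun k _ => hn k]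
    rfl
  let r : ι → Fin 2 → IR sp := fun k i =>
    ⟨(nz sp (af (t k)) i, rd sp (af (t k)) i), tv_nz sp (af (t k)) i⟩
  let P : (IR sp)[X] := ∏ k, (C (r k 0) * X - C (r k 1))
  let q0 : ℂ[X] := ∏ k, (C (rd sp (af (t k)) 0) * X - C (rd sp (af (t k)) 1))
  have e1 : P.map (gsnd _) = q0 := by
    simp only [P, q0, Polynomial.map_prod, Polynomial.map_sub, Polynomial.map_mul, map_C, map_X]
    rfl
  have e2 : C l * ∏ k, (X - C (t k)) = C m * P.map (gfst _) := by
    simp only [P, m, Polynomial.map_prod, Polynomial.map_sub, Polynomial.map_mul, map_C, map_X,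
      map_mul, map_prod, mul_assoc, ← Finset.prod_mul_distrib]
    refine congrArg _ (Finset.prod_congr rfl fun k _ => ?_)
    have : ∀ i, nv sp (af (t k)) * gfst _ (r k i) = af (t k) i := fun i =>
      mul_inv_cancel_left₀ (hn k) _
    rw [mul_sub, ← mul_assoc, ← C_mul, ← C_mul, this, this, af_0, af_1, C_1, one_mul]
  have hq : q0 ≠ 0 := Finset.prod_ne_zero_iff.mpr fun k _ e => rd_ne_zero sp (V2.af_ne (t k)) (by
    have a0 := congrArg (coeff · 0) e
    have a1 := congrArg (coeff · 1) e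
    simp only [coeff_sub, coeff_C_mul, coeff_X_zero, coeff_X_one, coeff_C_zero, coeff_C_succ,
      coeff_zero, mul_zero, mul_one, zero_sub, sub_zero, neg_eq_zero] at a0 a1
    funext i
    fin_cases i
    exacts [a1, a0])
  have hP : ∀ n, Tends sp.v ((P.map (gfst _)).coeff n) (q0.coeff n) := fun n => by
    rw [← e1, coeff_map, coeff_map]
    exact tends_IR _
  simp only [e2, coeff_C_mul] at h
  have h1 : sp.v m ≤ 1 := by
    have := (h q0.natDegree).le_one
    rwa [map_mul, (hP _).eq_one (leadingCoeff_ne_zero.mpr hq), mul_one] at this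
  have h2 : q = C (lim sp m) * q0 := ext fun n => by
    rw [coeff_C_mul]
    exact (h n).unique ((tends_lim h1).mul (hP n))
  have h3 : q ≠ 0 ↔ lim sp m ≠ 0 := by simp [h2, hq]
  refine ⟨ha ▸ av_nonneg h1, ?_, fun e => ⟨_, h3.mp e, h2⟩⟩
  rw [← ha, av_eq_zero_iff hm, h3]
  refine ⟨(tends_lim h1).eq_one, fun e e' => ?_⟩
  have := tends_lim h1
  rw [e', Tends.zero_iff, e] at this
  exact lt_irrefl _ this

end Pool.Agent.P.MP_7ebcb6_ag.SC
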