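import Pool.Agent.P.MP_7ebcb6_ag.SC.St2
import Pool.Agent.P.MP_7ebcb6_ag.SC.V1
import Pool.Agent.P.MP_7ebcb6_ag.SC.V2
import Pool.Agent.P.MP_7ebcb6_ag.SC.H3
import Pool.Agent.P.MP_7ebcb6_ag.SC.R1
import Pool.Agent.P.MP_7ebcb6_ag.SC.R2
import Pool.Agent.P.MP_7ebcb6_ag.SC.R3

/-! The counts `230 = 150 + 2 * 40` and `40` on a curve. -/

namespace Pool.Agent.P.MP_7ebcb6_ag.SC

open G8 Function

noncomputable section

namespace CB

lemma gal_ct (τ : Gal) (c : ℂ) : τ (ct c) = ct c := by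
  rw [IsScalarTower.algebraMap_apply ℂ (RatFunc ℂ) Om]
  exact τ.commutes _

lemma gal_lam (τ : Gal) : τ lam = lam := τ.commutes _

lemma hom_gal (τ : Gal) : Hom fun x => τ x := hom_ringHom (τ : Om →+* Om)

lemma gal_PO (τ : Gal) (X : ℕ → ℂ) : ((PO X).map fun x => τ x) = PO X := by
  simp only [PO, Pen.map_of, gal_ct]

lemma gal_U (τ : Gal) (C : Fin 70 → ℂ) (z : Om) : (fun i => τ (oU C z i)) = oU C (τ z) := by
  funext i
  simp only [(hom_gal τ).cU, gal_ct, gal_lam]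

lemma gal_Y (τ : Gal) (C : Fin 70 → ℂ) (z : Om) : (fun i => τ (oY C z i)) = oY C (τ z) := by
  funext i
  simp only [(hom_gal τ).cY, gal_ct, gal_lam]

lemma gal_perm {C : Fin 70 → ℂ} {z : Fin 4 → Om} (h : Rt4 C z) (τ : Gal) :
    ∃ e : Fin 4 ≃ Fin 4, ∀ i, τ (z i) = z (e i) := by
  refine thm_PERM Om (Fin 4) z τ h.inj τ.injective fun i => ?_
  have h1 := (hom_gal τ).cf (CO C) lam (z i)
  simp only [gal_ct, gal_lam, (h.all (z i)).mpr ⟨i, rfl⟩, map_zero] at h1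
  obtain ⟨j, hj⟩ := (h.all _).mp h1.symm
  exact ⟨j, hj.symm⟩

lemma b_nonneg (hH : S_HOM) (sp : Sp) (X : ℕ → ℂ) {U : V2 Om} {Y : V4 Om} {r : Om} (hU : U ≠ 0)
    (hY : Y ≠ 0) (hr : IsR ((PO X).G U) Y r) (h0 : r ≠ 0) :
    0 ≤ av sp r + 44 * -mu sp U + 9 * -mu sp Y := by
  have hu := inv_ne_zero (nv_ne_zero sp hU)
  have hy := inv_ne_zero (nv_ne_zero sp hY)
  have h1 := thm_RSC Om _ _ _ (nv sp Y)⁻¹ ((nv sp U)⁻¹ ^ 4) hr hy (pow_ne_zero _ hu)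
  rw [← (hH Om (PO X) (nv sp U)⁻¹ U).1] at h1
  have h2 := thm_L0 thm_RANY sp _ _ _ _ _
    (mv_sp.1 (mem_G (pm_ct sp (Pen.of X)) (mv_sp.2 (tv_nz sp U)))) (tv_nz sp Y)
    (rd_ne_zero sp hY) h1
  have h3 := av_nonneg h2
  rw [av_mul (mul_ne_zero (pow_ne_zero _ hy) (pow_ne_zero _ (pow_ne_zero _ hu))) h0,
    av_mul (pow_ne_zero _ hy) (pow_ne_zero _ (pow_ne_zero _ hu)), av_pow, av_pow, av_pow, av_inv,
    av_inv] at h3
  unfold mu
  push_cast at h3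
  linarith

lemma b2_nonneg (hH : S_HOM) (sp : Sp) (X : ℕ → ℂ) {U : V2 Om} (hU : U ≠ 0)
    (h0 : (PO X).B U ≠ 0) : 0 ≤ av sp ((PO X).B U) + 10 * -mu sp U := by
  have hu := inv_ne_zero (nv_ne_zero sp hU)
  have h2 : Tends sp.v _ _ := mem_B (pm_ct sp (Pen.of X)) (mv_sp.2 (tv_nz sp U))
  have h3 := av_nonneg h2.le_one
  have h4 : (PO X).B (nz sp U) = _ := (hH Om (PO X) (nv sp U)⁻¹ U).2.2.2.2.1
  rw [h4, av_mul (pow_ne_zero _ hu) h0, av_pow, av_inv] at h3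
  unfold mu
  push_cast at h3
  linarith

lemma fs_add {ι : Type} {a b : Option ℂ → ι → ℚ} (ha : ∀ i, (support fun c => a c i).Finite)
    (hb : ∀ i, (support fun c => b c i).Finite) (t : ℚ) (i : ι) :
    (support fun c => a c i + t * -b c i).Finite :=
  ((ha i).union (hb i)).subset fun c hc => by
    by_contra h
    simp only [Set.mem_union, mem_support, not_or, not_not] at h
    exact hc (by simp [h.1, h.2])

lemma fs_sum {ι : Type} [Fintype ι] {a : Option ℂ → ι → ℚ}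
    (ha : ∀ i, (support fun c => a c i).Finite) : (support fun c => ∑ i, a c i).Finite :=
  (Set.finite_iUnion ha).subset fun c hc => by
    obtain ⟨i, -, hi⟩ := Finset.exists_ne_zero_of_sum_ne_zero hc
    exact Set.mem_iUnion.mpr ⟨i, hi⟩

lemma fsum_add {ι : Type} [Fintype ι] {a b : Option ℂ → ι → ℚ}
    (ha : ∀ i, (support fun c => a c i).Finite) (hb : ∀ i, (support fun c => b c i).Finite)
    (t : ℚ) : ∑ᶠ c, ∑ i, (a c i + t * -b c i) = ∑ᶠ c, ∑ i, a c i + t * ∑ᶠ c, ∑ i, -b c i := by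
  have h1 : ∀ i, (support fun c => t * -b c i).Finite := fun i =>
    (hb i).subset fun c hc h => hc (by simp [h])
  simp only [Finset.sum_add_distrib]
  rw [finsum_add_distrib (fs_sum ha) (fs_sum h1), mul_finsum]
  simp only [Finset.mul_sum]

variable {sp : Sp} {e : Om}

lemma nr_U (C : Fin 70 → ℂ) {x0 z0 : ℂ} {z : Om} (hx : (lam, ct x0) ∈ Cg sp e)
    (hz : (z, ct z0) ∈ Cg sp e) : Nr sp e (oU C z) (cU (sq C) x0 z0) := fun i => by
  change (_, ct (cU (sq C) x0 z0 i)) ∈ _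
  rw [(hom_ringHom ct).cU]
  exact mem_cU (fun i => Cg_ct sp e _) hx hz i

lemma nr_Y (C : Fin 70 → ℂ) {x0 z0 : ℂ} {z : Om} (hx : (lam, ct x0) ∈ Cg sp e)
    (hz : (z, ct z0) ∈ Cg sp e) : Nr sp e (oY C z) (cY (sq C) x0 z0) := fun i => by
  change (_, ct (cY (sq C) x0 z0 i)) ∈ _
  rw [(hom_ringHom ct).cY]
  exact mem_cY (fun i => Cg_ct sp e _) hx hz i

lemma nr_G (P : Pen ℂ) {U : V2 Om} {U' : V2 ℂ} (h : Nr sp e U U') :
    Nr sp e ((P.map ct).G U) (P.G U') := fun i => by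
  change (_, ct (P.G U' i)) ∈ _
  rw [(hom_ringHom ct).G]
  exact mem_G (pm_Cg sp e P) h i

lemma v_B (P : Pen ℂ) {U : V2 Om} {U' : V2 ℂ} (h : Nr sp e U U') (h0 : P.B U' = 0) :
    sp.v ((P.map ct).B U) ≤ sp.v e := by
  have h1 := (mem_B (pm_Cg sp e P) h).2.2
  rw [← (hom_ringHom ct).B, h0, map_zero, sub_zero] at h1
  exact h1

lemma mu_zero {n : ℕ} {x : Fin (n + 1) → Om} {y : Fin (n + 1) → ℂ} (h : TV sp x y) (hy : y ≠ 0) :
    mu sp x = 0 := by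
  rw [mu_of_tv (c := 1) (by simpa using h) hy, av_one, neg_zero]

lemma tri_sm (d : ℂ) (g : Fin 20 → ℂ) (a b c : V4 ℂ) :
    tri (fun i => d * g i) a b c = d * tri g a b c := by
  simp only [tri]; ring

lemma tri_cb (g : Fin 20 → ℂ) (s t : ℂ) (a b x y : V4 ℂ) :
    tri g (cb s a t b) x y = s * tri g a x y + t * tri g b x y := by
  simp only [tri, cb]; ring

lemma lineAt {g : Fin 20 → ℂ} {W : V4 ℂ} (d : ℂ) {s : ℂ} (t : ℂ) (hs : s ≠ 0)
    (h1 : lnE g W 1 = 0) (h2 : lnE g W 2 = 0) (h3 : lnE g W 3 = 0) :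
    LineAt (fun i => d * g i) (cb s (lA W) t (lB W)) (lB W) := by
  simp only [lnE, v4_1, v4_2, v4_3] at h1 h2 h3
  refine ⟨fun h => hs ?_, ?_, ?_, ?_⟩
  · simpa [plk, cb, lA, lB] using congrFun h 0
  · rw [tri_sm, tri_cb, tri_swap12 g (lA W), tri_swap12 g (lB W), tri_cb, tri_cb,
      tri_swap12 g (lB W) (lA W), h1, h2, h3]
    ring
  · rw [tri_sm, tri_cb, h2, h3]
    ring
  · rw [tri_sm, h3, mul_zero]

variable {X : ℕ → ℂ} {C : Fin 70 → ℂ}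

lemma cU_eq {x : Fin 7 → ℂ} (h : L150E.Z (Sum.elim X C) x) :
    cU (sq C) (x 5) (x 6) = fun i => cU (sq C) (x 5) (x 6) 0 * af (x 0) i := by
  have h1 : x 0 * cU (sq C) (x 5) (x 6) 0 - cU (sq C) (x 5) (x 6) 1 = 0 := h 1
  funext i
  fin_cases i
  · simp
  · simp only [Fin.mk_one, af_1]
    linear_combination -h1

lemma cY_eq {x : Fin 7 → ℂ} (h : L150E.Z (Sum.elim X C) x) :
    cY (sq C) (x 5) (x 6) = cb (cY (sq C) (x 5) (x 6) 0) (lA (w4 (sq x)))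
      (cY (sq C) (x 5) (x 6) 1) (lB (w4 (sq x))) := by
  have h2 : cY (sq C) (x 5) (x 6) 2 - (cY (sq C) (x 5) (x 6) 0 * w4 (sq x) 0 +
    cY (sq C) (x 5) (x 6) 1 * w4 (sq x) 2) = 0 := h 2
  have h3 : cY (sq C) (x 5) (x 6) 3 - (cY (sq C) (x 5) (x 6) 0 * w4 (sq x) 1 +
    cY (sq C) (x 5) (x 6) 1 * w4 (sq x) 3) = 0 := h 3
  generalize cY (sq C) (x 5) (x 6) = Y at h2 h3 ⊢
  generalize w4 (sq x) = W at h2 h3 ⊢
  funext i
  fin_cases i
  · simp [cb, lA, lB]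
  · simp [cb, lA, lB]
  · simpa [cb, lA, lB, sub_eq_zero] using h2
  · simpa [cb, lA, lB, sub_eq_zero] using h3

/-- A point of the curve on a line of the cubic surface. -/
lemma low150 (hH : S_HOM) {x : Fin 7 → ℂ} (h : L150E.Z (Sum.elim X C) x)
    (ho : L150O.NZ (Sum.elim X C) x) {z r : Om} (hp : pt sp = some (x 5))
    (hz : (z, ct (x 6)) ∈ Cg sp (un sp)) (hr : IsR ((PO X).G (oU C z)) (oY C z) r) :
    mu sp (oU C z) = 0 ∧ mu sp (oY C z) = 0 ∧ sp.v r ≤ sp.v (un sp) := by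
  have hU := nr_U C (lam_Cg _ hp) hz
  have hY := nr_Y C (lam_Cg _ hp) hz
  have o1 : cU (sq C) (x 5) (x 6) 0 ≠ 0 := ho 1
  have o2 : cY (sq C) (x 5) (x 6) 0 ≠ 0 := ho 2
  have o3 : lnJ ((Pen.of X).G (af (x 0))) (w4 (sq x)) ≠ 0 := ho 3
  refine ⟨mu_zero (hU.tv (v_un_lt sp)) (ne_iff.mpr ⟨0, o1⟩),
    mu_zero (hY.tv (v_un_lt sp)) (ne_iff.mpr ⟨0, o2⟩), ?_⟩
  have e1 : (Pen.of X).G (cU (sq C) (x 5) (x 6)) =
      fun b => cU (sq C) (x 5) (x 6) 0 ^ 4 * (Pen.of X).G (af (x 0)) b := by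
    rw [← (hH ℂ (Pen.of X) _ _).1, ← cU_eq h]
  refine thm_LE1 thm_RANY sp _ _ _ _ _ (lB (w4 (sq x))) r (v_un_lt sp) (nr_G (Pen.of X) hU) hY ?_
    hr ?_
  · obtain ⟨w, hw⟩ := thm_LG ℂ _ _ _ (cY (sq C) (x 5) (x 6) 1) o3 (Or.inl o2)
    rw [← cY_eq h] at hw
    exact ⟨w, by rw [e1, tri_sm]; exact mul_ne_zero (pow_ne_zero _ o1) hw⟩
  · rw [e1, cY_eq h]
    exact lineAt _ _ o2 (h 4) (h 5) (h 6)

/-- A point of the curve on a reducible cubic surface. -/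
lemma low40 (hH : S_HOM) (hI : S_IDF) (hid : (Pen.of X).Id) {x : Fin 2 → ℂ}
    (h : Good L40E L40O (Sum.elim X C) x) {z r : Om} (hp : pt sp = some (x 0))
    (hz : (z, ct (x 1)) ∈ Cg sp (un sp)) (hr : IsR ((PO X).G (oU C z)) (oY C z) r) :
    mu sp (oU C z) = 0 ∧ mu sp (oY C z) = 0 ∧ sp.v ((PO X).B (oU C z)) ≤ sp.v (un sp) ∧
      sp.v r ≤ sp.v (un sp) ^ 2 := by
  have hU := nr_U C (lam_Cg _ hp) hz
  have hY := (nr_Y C (lam_Cg _ hp) hz).tv (v_un_lt sp)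
  have hU' := mv_sp.2 (hU.tv (v_un_lt sp))
  have e1 : (Pen.of X).B (cU (sq C) (x 0) (x 1)) = 0 := h.eq 1
  have o1 : (Pen.of X).ff 0 0 (cU (sq C) (x 0) (x 1)) ≠ 0 := h.op 1
  have o2 : (Pen.of X).nuv (cU (sq C) (x 0) (x 1)) ≠ 0 := h.op 2
  have o3 : dot ((Pen.of X).Pl (cU (sq C) (x 0) (x 1))) (cY (sq C) (x 0) (x 1)) ≠ 0 := h.op 3
  have hB := v_B (Pen.of X) hU e1
  have hP := pm_ct sp (Pen.of X)
  have t1 : Tends sp.v _ _ := mem_mul (mem_ff hP 0 0 hU') (mem_nuv hP hU')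
  have hD : Deg sp _ _ _ _ _ _ _ _ _ _ :=
    ⟨hI Om (PO X) (oU C z) (hid.eq Om ct (oU C z) 0), t1.eq_one (mul_ne_zero o1 o2),
      hB.trans_lt (v_un_lt sp), mv_sp.1 (mem_G hP hU'), mv_sp.1 (mem_cs hP hU'),
      mv_sp.1 (mem_ks hP hU'), mv_sp.1 (mem_Pl hP hU')⟩
  refine ⟨mu_zero (hU.tv (v_un_lt sp)) fun e => o1 ?_, mu_zero hY fun e => o3 ?_, hB,
    (thm_LC1 (thm_RB thm_RANY) _ _ _ _ _ _ _ _ _ _ _ _ _ _ hD hY o3 hr).trans
      (pow_le_pow_left₀ zero_le hB 2)⟩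
  · have h1 := (hH ℂ (Pen.of X) 0 (cU (sq C) (x 0) (x 1))).2.2.2.2.2.2.1 0 0
    rw [e] at h1 ⊢
    simpa [Pi.zero_def] using h1
  · simp [e, dot]

end CB

open CB in
theorem thm_CB (h1 : S_CH1) (h2 : S_CH2) (hI : S_IDF) (hH : S_HOM) : S_CB := by
  intro cd n X τ C J L l40 l24 z r q hc ho
  choose f hf using fun j => h1 C z (L j 5) (L j 6) ho.rt (hc.lz j 0) (hc.lo j 0)
  choose g hg using fun i => h1 C z (l40 i 0) (l40 i 1) ho.rt ((hc.att.g40 i).eq 0)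
    ((hc.att.g40 i).op 0)
  have hU : ∀ k, oU C (z k) ≠ 0 := fun k => ne_iff.mpr ⟨0, ho.rt.u0 k⟩
  have hY : ∀ k, oY C (z k) ≠ 0 := fun k => ne_iff.mpr ⟨0, ho.rt.y0 k⟩
  obtain ⟨d4, d6⟩ := h2 C J z ho.rt (fun b => hc.cs (.inr (.inl b)))
    (fun b m => hc.cs (.inr (.inr (.inl (b, m))))) hc.att.gJ.op
  have p1 := thm_PF (Fin 4) r ho.r0 fun σ => by
    obtain ⟨e, he⟩ := gal_perm ho.rt σ
    refine ⟨e, fun i => thm_RUQ Om _ _ _ _ ?_ (ho.isR (e i))⟩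
    have a := thm_RMAP σ _ _ _ (ho.isR i)
    simp only [(hom_gal σ).G, gal_PO, gal_U, gal_Y, he] at a
    exact a
  have p2 := thm_PF (Fin 4) (fun k => (PO X).B (oU C (z k))) ho.be fun σ => by
    obtain ⟨e, he⟩ := gal_perm ho.rt σ
    refine ⟨e, fun i => ?_⟩
    simp only [(hom_gal σ).B, gal_PO, gal_U, he]
  have fr : ∀ k, (support fun c => av (sec c) (r k)).Finite := fun k => thm_FS _
  have fB : ∀ k, (support fun c => av (sec c) ((PO X).B (oU C (z k)))).Finite := fun k => thm_FS _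
  have fU : ∀ k, (support fun c => mu (sec c) (oU C (z k))).Finite := fun k => thm_FM _ _
  have fY : ∀ k, (support fun c => mu (sec c) (oY C (z k))).Finite := fun k => thm_FM _ _
  have l1 := fun j => low150 hH (hc.lz j) (hc.lo j) (pt_sec _) (hf j) (ho.isR (f j))
  have l2 := fun i => low40 hH hI hc.hid (hc.att.g40 i) (pt_sec _) (hg i) (ho.isR (g i))
  have uq : ∀ {x x' y y' : ℂ} {k k' : Fin 4},
      (z k, ct y) ∈ Cg (sec (some x)) (un (sec (some x))) →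
      (z k', ct y') ∈ Cg (sec (some x')) (un (sec (some x'))) →
      (some x, k) = (some x', k') → x = x' ∧ y = y' := by
    intro x x' y y' k k' a b c
    cases c
    exact ⟨rfl, (tends_of_Cg (v_un_lt _) a).unique (tends_of_Cg (v_un_lt _) b)⟩
  have i1 : Injective fun j => (some (L j 5), f j) := fun j j' a => by
    obtain ⟨b, c⟩ := uq (hf j) (hf j') a
    have e1 := congrFun (cU_eq (hc.lz j)) 1
    have e2 := congrFun (cU_eq (hc.lz j')) 1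
    have o1 : cU (sq C) (L j' 5) (L j' 6) 0 ≠ 0 := hc.lo j' 1
    rw [b, c, e2] at e1
    exact hc.li (mul_left_cancel₀ o1 e1).symm
  have i2 : Injective fun i => (some (l40 i 0), g i) := fun i i' a =>
    hc.att.i40 (uq (hg i) (hg i') a).1
  have i3 : ∀ j i, (some (L j 5), f j) ≠ (some (l40 i 0), g i) := fun j i a => by
    obtain ⟨b, c⟩ := uq (hf j) (hg i) a
    have e1 : (Pen.of X).B (cU (sq C) (l40 i 0) (l40 i 1)) = 0 := (hc.att.g40 i).eq 1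
    have o1 : cU (sq C) (L j 5) (L j 6) 0 ≠ 0 := hc.lo j 1
    have o7 : (Pen.of X).B (af (L j 0)) ≠ 0 := hc.lo j 7
    rw [← b, ← c, cU_eq (hc.lz j), (hH ℂ (Pen.of X) _ _).2.2.2.2.1] at e1
    exact mul_ne_zero (pow_ne_zero _ o1) o7 e1
  obtain ⟨c1, c2⟩ := thm_CNT (Fin 4) (Fin 150 ⊕ Fin 40)
    (fun c k => av (sec c) (r k) + 44 * -mu (sec c) (oU C (z k)) + 9 * -mu (sec c) (oY C (z k)))
    (Sum.elim (fun j => (some (L j 5), f j)) fun i => (some (l40 i 0), g i))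
    (Sum.elim (fun _ => 1) fun _ => 2) (fs_add (fs_add fr fU 44) fY 9)
    (fun c k => b_nonneg hH _ X (hU k) (hY k) (ho.isR k) (ho.r0 k)) (i1.sumElim i2 i3)
    (by
      rintro (j | i)
      · have a := (le_av_iff (ho.r0 (f j)) 1).mpr (by rw [pow_one]; exact (l1 j).2.2)
        simp only [Sum.elim_inl, (l1 j).1, (l1 j).2.1]
        simpa using a
      · have a := (le_av_iff (ho.r0 (g i)) 2).mpr (l2 i).2.2.2
        simp only [Sum.elim_inr, (l2 i).1, (l2 i).2.1]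
        simpa using a)
    (by
      rw [fsum_add (fs_add fr fU 44) fY, fsum_add fr fU, p1]
      simp only [Fintype.sum_sum_type, Sum.elim_inl, Sum.elim_inr, Finset.sum_const,
        Finset.card_univ, Fintype.card_fin, nsmul_eq_mul]
      push_cast
      linarith)
  obtain ⟨c3, c4⟩ := thm_CNT (Fin 4) (Fin 40)
    (fun c k => av (sec c) ((PO X).B (oU C (z k))) + 10 * -mu (sec c) (oU C (z k)))
    (fun i => (some (l40 i 0), g i)) (fun _ => 1) (fs_add fB fU 10)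
    (fun c k => b2_nonneg hH _ X (hU k) (ho.be k)) i2
    (fun i => by
      have a := (le_av_iff (ho.be (g i)) 1).mpr (by rw [pow_one]; exact (l2 i).2.2.1)
      simp only [(l2 i).1]
      simpa using a)
    (by
      rw [fsum_add fB fU, p2]
      simp only [Finset.sum_const, Finset.card_univ, Fintype.card_fin, nsmul_eq_mul]
      push_cast
      linarith)
  refine ⟨f, fun j j' a => i1 ?_, fun j => ⟨hf j, ?_⟩, fun c k => ?_⟩
  · obtain ⟨a1, a2⟩ := Prod.mk.inj a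
    exact Prod.ext (congrArg some a1) a2
  · have a := c1 (.inl j)
    simp only [Sum.elim_inl, (l1 j).1, (l1 j).2.1, neg_zero, mul_zero, add_zero] at a
    rw [← pow_one ((sec _).v (un _)), ← av_eq_nat_iff (ho.r0 _), a, Nat.cast_one]
  by_cases a : ∃ j, c = some (L j 5) ∧ k = f j
  · exact Or.inl a
  by_cases b : ∃ i, c = some (l40 i 0) ∧ k = g i
  · obtain ⟨i, rfl, rfl⟩ := b
    refine Or.inr (Or.inl ⟨i, rfl, tends_of_Cg (v_un_lt _) (hg i), ?_⟩)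
    have a1 := c1 (.inr i)
    have a2 := c3 i
    simp only [Sum.elim_inr, (l2 i).1, (l2 i).2.1, neg_zero, mul_zero, add_zero] at a1 a2
    rw [(av_eq_nat_iff (ho.r0 _) 2).mp (by rw [a1, Nat.cast_ofNat]),
      (av_eq_nat_iff (ho.be _) 1).mp (by rw [a2, Nat.cast_one]), pow_one]
  · have a1 := c2 c k (by
      rintro ⟨j | i, e⟩
      · exact a ⟨j, (Prod.mk.inj e).1.symm, (Prod.mk.inj e).2.symm⟩
      · exact b ⟨i, (Prod.mk.inj e).1.symm, (Prod.mk.inj e).2.symm⟩)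
    have a2 := c4 c k (by
      rintro ⟨i, e⟩
      exact b ⟨i, (Prod.mk.inj e).1.symm, (Prod.mk.inj e).2.symm⟩)
    exact Or.inr (Or.inr ⟨by linarith, by linarith⟩)

end

end Pool.Agent.P.MP_7ebcb6_ag.SC
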