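import Pool.Agent.P.MP_7ebcb6_ag.SC.St1

/-! Linearity of the derivative of a system and criteria for injectivity. -/

namespace Pool.Agent.P.MP_7ebcb6_ag.SC

open G8 Polynomial Function

namespace H1

variable {R : Type} [CommRing R]

/-- First order jets in two directions. -/
@[ext] structure T3 (R : Type) where
  a : R
  b : R
  c : R

instance : Add (T3 R) := ⟨fun x y => ⟨x.a + y.a, x.b + y.b, x.c + y.c⟩⟩
instance : Sub (T3 R) := ⟨fun x y => ⟨x.a - y.a, x.b - y.b, x.c - y.c⟩⟩
instance : Mul (T3 R) := ⟨fun x y => ⟨x.a * y.a, x.a * y.b + x.b * y.a, x.a * y.c + x.c * y.a⟩⟩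
instance : NatCast (T3 R) := ⟨fun n => ⟨(n : R), 0, 0⟩⟩

/-- A linear form on the two directions. -/
def T3.du (u w : R) (x : T3 R) : Du R := ⟨x.a, u * x.b + w * x.c⟩

lemma hom_du (u w : R) : Hom (T3.du u w) where
  add x y := Du.ext rfl (by
    change u * (x.b + y.b) + w * (x.c + y.c) = u * x.b + w * x.c + (u * y.b + w * y.c)
    ring)
  sub x y := Du.ext rfl (by
    change u * (x.b - y.b) + w * (x.c - y.c) = u * x.b + w * x.c - (u * y.b + w * y.c)
    ring)
  mul x y := Du.ext rfl (by
    change u * (x.a * y.b + x.b * y.a) + w * (x.a * y.c + x.c * y.a)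
      = x.a * (u * y.b + w * y.c) + (u * x.b + w * x.c) * y.a
    ring)
  nat n := Du.ext rfl (by
    change u * 0 + w * 0 = ((0 : ℕ) : R)
    simp)

variable {π σ τ : Type}

lemma d_du (S : Sys π σ τ) (a : π → R) (x : σ → R) (a1 a2 : π → R) (x1 x2 : σ → R) (t : τ)
    (u w : R) : S.d a x (fun i => u * a1 i + w * a2 i) (fun s => u * x1 s + w * x2 s) t
      = u * (S.ev (fun i => (⟨a i, a1 i, a2 i⟩ : T3 R)) (fun s => ⟨x s, x1 s, x2 s⟩) t).b
        + w * (S.ev (fun i => (⟨a i, a1 i, a2 i⟩ : T3 R)) (fun s => ⟨x s, x1 s, x2 s⟩) t).c :=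
  (congrArg Du.b (S.nat (hom_du u w) (fun i => (⟨a i, a1 i, a2 i⟩ : T3 R))
    (fun s => ⟨x s, x1 s, x2 s⟩) t)).symm

lemma d_lin (S : Sys π σ τ) (a : π → R) (x : σ → R) (a1 a2 : π → R) (x1 x2 : σ → R) (t : τ)
    (u w : R) : S.d a x (fun i => u * a1 i + w * a2 i) (fun s => u * x1 s + w * x2 s) t
      = u * S.d a x a1 x1 t + w * S.d a x a2 x2 t := by
  have h1 := d_du S a x a1 a2 x1 x2 t 1 0
  have h2 := d_du S a x a1 a2 x1 x2 t 0 1
  simp only [one_mul, zero_mul, add_zero, zero_add] at h1 h2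
  rw [d_du, ← h1, ← h2]

/-- The derivative in the unknowns as a linear form. -/
def dl (S : Sys π σ τ) (a : π → R) (x : σ → R) (t : τ) : (σ → R) →ₗ[R] R where
  toFun e := S.d a x (fun _ => 0) e t
  map_add' e e' := by
    have := d_lin S a x (fun _ => 0) (fun _ => 0) e e' t 1 1
    simp only [one_mul, add_zero] at this
    exact this
  map_smul' c e := by
    have := d_lin S a x (fun _ => 0) (fun _ => 0) e e t c 0
    simp only [zero_mul, mul_zero, add_zero] at this
    exact this

lemma deq [Fintype σ] [DecidableEq σ] (S : Sys π σ τ) (a : π → R) (x e : σ → R) (t : τ) :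
    S.d a x (fun _ => 0) e t = ∑ s, S.d a x (fun _ => 0) (Pi.single s 1) t * e s := by
  change dl S a x t e = ∑ s, dl S a x t (Pi.single s 1) * e s
  conv_lhs => rw [← Finset.univ_sum_single e, map_sum]
  refine Finset.sum_congr rfl fun s _ => ?_
  rw [mul_comm, ← smul_eq_mul, ← map_smul, ← Pi.single_smul, smul_eq_mul, mul_one]

/-- A matrix with as many columns as selected rows and a right inverse has trivial kernel. -/
lemma mi_of_right {K : Type} [Field K] [Fintype σ] {n : ℕ} (hn : Fintype.card σ = n)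
    (J : τ → σ → K) (sel : Fin n → τ) (v : Fin n → σ → K)
    (h : ∀ i j, ∑ s, J (sel i) s * v j s = if i = j then 1 else 0) : MI J := by
  classical
  intro e he
  have h1 : (Matrix.of fun i s => J (sel i) s) * (Matrix.of fun s j => v j s) = 1 := by
    ext i j
    rw [Matrix.mul_apply, Matrix.one_apply]
    exact h i j
  have h2 := (Matrix.mul_eq_one_comm_of_equiv
    (Fintype.equivFinOfCardEq hn).symm).1 h1
  have h3 : (Matrix.of fun i s => J (sel i) s).mulVec e = 0 := funext fun i => he (sel i)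
  rw [← Matrix.one_mulVec e, ← h2, ← Matrix.mulVec_mulVec, h3, Matrix.mulVec_zero]

lemma mi_of_poly {K : Type} [Field K] [Fintype σ] {n : ℕ} (hn : Fintype.card σ = n)
    (J : τ → σ → K) (sel : Fin n → τ) (V : σ → K[X])
    (h : ∀ i, ∑ s, C (J (sel i) s) * V s = X ^ i.val) : MI J :=
  mi_of_right hn J sel (fun j s => (V s).coeff j) fun i j => by
    have := congrArg (fun p => p.coeff j) (h i)
    simp only [finsetSum_coeff, coeff_C_mul, coeff_X_pow] at this
    rw [this]
    exact if_congr (by rw [Fin.val_inj, eq_comm]) rfl rfl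

lemma inj_of_mi {K : Type} [Field K] [Fintype σ] [DecidableEq σ] {S : Sys π σ τ} {a : π → K}
    {x : σ → K} (h : MI fun t s => S.d a x (fun _ => 0) (Pi.single s 1) t) : S.Inj a x :=
  fun e he => h e fun t => by rw [← deq]; exact he t

end H1

open H1

theorem thm_DADD : S_DADD := fun _ _ _ _ _ S a x a1 a2 x1 x2 t => by
  simpa only [one_mul] using d_lin S a x a1 a2 x1 x2 t 1 1

theorem thm_DSM : S_DSM := fun _ _ _ _ _ S a x c a1 x1 t => by
  simpa only [zero_mul, add_zero] using d_lin S a x a1 a1 x1 x1 t c 0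

theorem thm_DEQ : S_DEQ := fun _ _ _ _ _ _ _ S a x e t => deq S a x e t

theorem thm_RI : S_RI := fun _ _ _ _ _ S a x sel v h =>
  inj_of_mi (mi_of_right (Fintype.card_fin _) _ sel v fun i j => by rw [← deq]; exact h i j)

theorem thm_PI : S_PI := by
  intro π σ τ K _ _ n S a x sel V hn h
  classical
  refine inj_of_mi (mi_of_poly hn _ sel V fun i => ?_)
  rw [← h i, deq]
  refine Finset.sum_congr rfl fun s _ => ?_
  rw [S.d_nat (hom_ringHom (C : K →+* K[X]))]
  congr 2
  · exact funext fun _ => map_zero _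
  · funext s'
    by_cases hs : s' = s
    · subst hs; simp
    · simp [Pi.single_eq_of_ne hs]

theorem thm_MPI : S_MPI := by
  intro π τ K _ n E a sel V h
  refine mi_of_poly (Fintype.card_fin n) _ sel (fun s => V s) fun i => ?_
  rw [← h i, sm_eq, Finset.sum_range]
  refine Finset.sum_congr rfl fun s _ => ?_
  rw [E.map (C : K →+* K[X]), map_nox]

end Pool.Agent.P.MP_7ebcb6_ag.SC
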