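import Pool.Agent.P.MP_7ebcb6_ag.SC.St2
import Pool.Agent.P.MP_7ebcb6_ag.SC.V1
import Pool.Agent.P.MP_7ebcb6_ag.SC.V2
import Pool.Agent.P.MP_7ebcb6_ag.SC.H1
import Pool.Agent.P.MP_7ebcb6_ag.SC.H2
import Pool.Agent.P.MP_7ebcb6_ag.SC.H3

/-! The plane quartic: lifting of simple points and the degrees of the two maps. -/

namespace Pool.Agent.P.MP_7ebcb6_ag.SC

open G8 Function

namespace CH

lemma tri_line {K : Type} [Field K] (g : Fin 20 → K) (c s t : K) (a b : V4 K) :
    tri (fun i => c * g i) (cb s a t b) (cb s a t b) (cb s a t b) = c * (s ^ 3 * tri g a a a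
      + 3 * s ^ 2 * t * tri g a a b + 3 * s * t ^ 2 * tri g a b b + t ^ 3 * tri g b b b) := by
  simp only [tri, cb]
  ring

/-- The equation of the quartic in the unknown `z`. -/
def QS : Sys (ℕ ⊕ Unit) Unit Unit :=
  ⟨fun a x _ => cf (fun i => a (.inl i)) (a (.inr ())) (x ()), fun h _ _ _ => h.cf ..⟩

/-- No conditions. -/
def ON : Sys (ℕ ⊕ Unit) Unit Empty := ⟨fun _ _ t => t.elim, fun _ _ _ t => t.elim⟩

lemma hom_c {K : Type} [CommRing K] : Hom fun a : K => (⟨a, 0⟩ : Du K) where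
  add _ _ := Du.ext rfl (add_zero _).symm
  sub _ _ := Du.ext rfl (sub_zero _).symm
  mul x y := Du.ext rfl (by
    change 0 = x * 0 + 0 * y
    ring)
  nat _ := Du.ext rfl Nat.cast_zero.symm

lemma QS_inj {K : Type} [Field K] {C : ℕ → K} {x z : K} (h : cfz C x z ≠ 0) :
    QS.Inj (pu C x) fun _ => z := by
  intro e he
  have h1 : (cf (fun i => (⟨C i, 0⟩ : Du K)) ⟨x, 0⟩ ⟨z, e ()⟩).b = 0 := he ()
  simp only [cf, ← hom_c.cq] at h1
  have h2 : z * z * (z * e () + e () * z) + (z * e () + e () * z) * (z * z) -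
      (0 + (cq C x 1 * e () + 0 * z) + (cq C x 2 * (z * e () + e () * z) + 0 * (z * z))
        + (cq C x 3 * (z * z * e () + (z * e () + e () * z) * z) + 0 * (z * z * z))) = 0 := h1
  funext u
  refine (mul_eq_zero.1 (?_ : cfz C x z * e () = 0)).resolve_left h
  simp only [cfz]
  push_cast
  linear_combination h2

lemma mem_CO (sp : Sp) (e : Om) (C : Fin 70 → ℂ) : MV (Cg sp e) (CO C) (CO C) :=
  fun _ => Cg_ct sp e _

variable {sp : Sp}

lemma one_le_nv (sp : Sp) : 1 ≤ sp.v (nv sp (af lam)) := by simpa using le_nv sp (af lam) 0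

/-- The size is at most the `n`-th power of the size of `(1, lam)`. -/
def Le (sp : Sp) (n : ℕ) (a : Om) : Prop := sp.v a ≤ sp.v (nv sp (af lam)) ^ n

lemma Le.add {n : ℕ} {a b : Om} (h : Le sp n a) (h' : Le sp n b) : Le sp n (a + b) :=
  Valuation.map_add_le _ h h'

lemma Le.sub {n : ℕ} {a b : Om} (h : Le sp n a) (h' : Le sp n b) : Le sp n (a - b) :=
  Valuation.map_sub_le _ h h'

lemma Le.mul {n m : ℕ} {a b : Om} (h : Le sp n a) (h' : Le sp m b) : Le sp (n + m) (a * b) := by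
  rw [Le, map_mul, pow_add]
  exact mul_le_mul' h h'

lemma Le.mono {n m : ℕ} {a : Om} (h : Le sp n a) (hm : n ≤ m) : Le sp m a :=
  le_trans h (pow_le_pow_right₀ (one_le_nv sp) hm)

lemma Le.c {n m : ℕ} {a : Om} (c : ℂ) (h : Le sp n a) (hm : n ≤ m) : Le sp m (ct c * a) :=
  (Le.mul (n := 0) ((Tends.const c).le_one.trans (pow_zero _).ge) h).mono (by omega)

lemma le_ct (c : ℂ) (n : ℕ) : Le sp n (ct c) := by
  simpa using Le.c (sp := sp) (a := 1) (n := 0) c (by simp [Le]) (Nat.zero_le n)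

lemma le_lam : Le sp 1 lam := by simpa [Le] using le_nv sp (af lam) 1

lemma le_pl (n : ℕ) (c : ℕ → ℂ) : Le sp n (pl (n + 1) (fun i => ct (c i)) lam) := by
  rw [pl_eq]
  refine Valuation.map_sum_le _ fun i hi => Le.c (n := i) _ ?_
    (Nat.lt_succ_iff.1 (Finset.mem_range.1 hi))
  rw [Le, map_pow]
  exact pow_le_pow_left' (by simpa [Le] using le_lam (sp := sp)) i

lemma le_root {C : Fin 70 → ℂ} {z : Om} (h : cf (CO C) lam z = 0) : Le sp 1 z := by
  have m0 := nv_ne_zero sp (V2.af_ne lam)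
  have v0 : 0 < sp.v (nv sp (af lam)) := zero_lt_one.trans_le (one_le_nv sp)
  have key : ∀ n a, Le sp n a → sp.v (-a / nv sp (af lam) ^ n) ≤ 1 := fun n a ha => by
    rw [map_div₀, Valuation.map_neg, map_pow, div_le_one₀ (pow_pos v0 n)]
    exact ha
  have := le_one_of_quartic sp.v (r := z / nv sp (af lam)) (key 1 _ (le_pl 1 fun i => sq C (12 + i)))
    (key 2 _ (le_pl 2 fun i => sq C (9 + i))) (key 3 _ (le_pl 3 fun i => sq C (5 + i)))
    (key 4 _ (le_pl 4 (sq C))) (by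
      simp only [cf, cq, v4_0, v4_1, v4_2, v4_3, CO] at h
      field_simp
      linear_combination h)
  rwa [map_div₀, div_le_one₀ v0, ← pow_one (sp.v (nv sp (af lam)))] at this

lemma le_cub (c : ℕ → ℂ) {x z : Om} (hx : Le sp 1 x) (hz : Le sp 1 z) :
    Le sp 3 (cub (fun i => ct (c i)) x z) :=
  (((((((((le_ct _ 3).add (hx.c _ (by omega))).add (hz.c _ (by omega))).add
    ((hx.mul hx).c _ (by omega))).add ((hx.mul hz).c _ (by omega))).add
    ((hz.mul hz).c _ (by omega))).add (((hx.mul hx).mul hx).c _ le_rfl)).add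
    (((hx.mul hx).mul hz).c _ le_rfl)).add ((hx.mul (hz.mul hz)).c _ le_rfl)).add
    (((hz.mul hz).mul hz).c _ le_rfl)

lemma deg_le {N : ℕ} (x : Fin 4 → Fin (N + 1) → Om) (d : ℕ) {ζ : Type} [Fintype ζ] (p : ζ → ℂ)
    (k : ζ → Fin 4) (hi : Injective fun j => (some (p j), k j)) (hx : ∀ l, x l ≠ 0)
    (h0 : ∀ sp l i, Le sp d (x l i))
    (h1 : ∀ j i, (x (k j) i, ct 0) ∈ Cg (sec (some (p j))) (un (sec (some (p j))))) :
    ∑ᶠ c, ∑ l, -mu (sec c) (x l) ≤ 4 * d - Fintype.card ζ := by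
  have f1 : ∀ l, HasFiniteSupport fun c => mu (sec c) (x l) := fun l => thm_FM _ _
  have f2 : HasFiniteSupport fun c => (d : ℚ) * mu (sec c) (af lam) :=
    (thm_FM _ (af lam)).subset fun c hc => right_ne_zero_of_mul hc
  have m0 : ∀ sp, nv sp (af lam) ≠ 0 := fun sp => nv_ne_zero sp (V2.af_ne lam)
  have := thm_LOW (Fin 4) ζ (fun c l => mu (sec c) (x l) - d * mu (sec c) (af lam)) _ (fun _ => 1)
    (fun l => (f1 l).sub f2) (fun c l => sub_nonneg.2 (le_mu (hx l) fun i hi => by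
      rw [mu, ← av_pow, av_le_iff hi (pow_ne_zero _ (m0 _)), map_pow]
      exact h0 _ l i)) hi fun j => by
      simp only [thm_MU.1 _ _ (pt_sec _), mul_zero, sub_zero]
      refine le_mu (hx _) fun i hi => ?_
      have := (h1 j i).2.2
      simp only [map_zero, sub_zero] at this
      exact_mod_cast (le_av_iff hi 1).2 (by rwa [pow_one])
  rw [finsum_sum_comm _ (fun c l => mu (sec c) (x l) - d * mu (sec c) (af lam))
    fun l _ => (f1 l).sub f2] at this
  simp only [finsum_sub_distrib (f1 _) f2, ← mul_finsum, thm_MU.2.2] at this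
  rw [finsum_sum_comm _ (fun c l => -mu (sec c) (x l)) fun l _ => (f1 l).neg]
  simp only [finsum_neg_distrib, Finset.sum_neg_distrib]
  simp only [Finset.sum_sub_distrib, Finset.sum_const, Finset.card_univ, Fintype.card_fin,
    nsmul_eq_mul] at this
  push_cast at this
  linarith

end CH

open CH

theorem thm_CL0 : S_CL0 := by
  intro cd n X τ C J L l40 l24 h j
  have e0 : cf (sq C) (L j 5) (L j 6) = 0 := h.lz j 0
  have e1 : L j 0 * cU (sq C) (L j 5) (L j 6) 0 - cU (sq C) (L j 5) (L j 6) 1 = 0 := h.lz j 1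
  have e2 : cY (sq C) (L j 5) (L j 6) 2 - (cY (sq C) (L j 5) (L j 6) 0 * L j 1
    + cY (sq C) (L j 5) (L j 6) 1 * L j 3) = 0 := h.lz j 2
  have e3 : cY (sq C) (L j 5) (L j 6) 3 - (cY (sq C) (L j 5) (L j 6) 0 * L j 2
    + cY (sq C) (L j 5) (L j 6) 1 * L j 4) = 0 := h.lz j 3
  have e4 : lnE ((Pen.of X).G (af (L j 0))) (w4 (sq (L j))) 1 = 0 := h.lz j 4
  have e5 : lnE ((Pen.of X).G (af (L j 0))) (w4 (sq (L j))) 2 = 0 := h.lz j 5
  have e6 : lnE ((Pen.of X).G (af (L j 0))) (w4 (sq (L j))) 3 = 0 := h.lz j 6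
  have o1 : cU (sq C) (L j 5) (L j 6) 0 ≠ 0 := h.lo j 1
  have o2 : cY (sq C) (L j 5) (L j 6) 0 ≠ 0 := h.lo j 2
  have e7 : tri ((Pen.of X).G (cU (sq C) (L j 5) (L j 6))) (cY (sq C) (L j 5) (L j 6))
      (cY (sq C) (L j 5) (L j 6)) (cY (sq C) (L j 5) (L j 6)) = 0 :=
    h.ont ℂ (RingHom.id ℂ) _ _ e0 0
  generalize cU (sq C) (L j 5) (L j 6) = U at *
  generalize cY (sq C) (L j 5) (L j 6) = Y at *
  have hU : U = fun i => U 0 * af (L j 0) i := funext fun i => by
    fin_cases i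
    · simp
    · simp only [Fin.mk_one, af_1]
      linear_combination -e1
  have hY : Y = cb (Y 0) (lA (w4 (sq (L j)))) (Y 1) (lB (w4 (sq (L j)))) := funext fun i => by
    fin_cases i
    · simp [cb, lA, lB]
    · simp [cb, lA, lB]
    · exact sub_eq_zero.1 e2
    · exact sub_eq_zero.1 e3
  have hG : (Pen.of X).G U = fun b => U 0 ^ 4 * (Pen.of X).G (af (L j 0)) b :=
    funext fun b => (congrArg (fun V => (Pen.of X).G V b) hU).trans (bf_smul 4 _ _ _)
  rw [hG, hY, tri_line] at e7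
  simp only [lnE, v4_1, v4_2, v4_3] at e4 e5 e6
  rw [e4, e5, e6] at e7
  have e8 : tri ((Pen.of X).G (af (L j 0))) (lA (w4 (sq (L j)))) (lA (w4 (sq (L j))))
      (lA (w4 (sq (L j)))) = 0 := by simpa [o1, o2] using e7
  refine ⟨fun t => ?_, fun t => ?_⟩
  · fin_cases t
    exacts [e8, e4, e5, e6]
  · fin_cases t
    exacts [h.lo j 3, h.lo j 4]

theorem thm_CH1 : S_CH1 := by
  intro C z x0 z0 hz h0 h1
  have ha : TV (sec (some x0)) (pu (CO C) lam) (pu (sq C) x0) := by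
    rintro (i | i)
    exacts [Tends.const _, tends_sec x0]
  obtain ⟨x, hx, hG⟩ := thm_UP thm_DEQ _ _ _ _ Om ℂ QS CH.ON (spPl (sec (some x0)))
    (pu (CO C) lam) (pu (sq C) x0) (fun _ => z0) rfl ha ⟨fun _ => h0, fun o => o.elim, QS_inj h1⟩
  obtain ⟨k, hk⟩ := (hz.all (x ())).1 (hG.eq ())
  refine ⟨k, hk ▸ thm_QU _ _ _ QS _ _ _ (pu (CO C) (ct x0)) x (fun _ => ct z0) _ _ ?_ ha hx
    (fun _ => Tends.const _) (QS_inj h1) (fun t => ?_) ()⟩
  · rintro (i | i)
    exacts [Cg_ct _ _ _, lam_Cg x0 (pt_sec _)]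
  · have h2 : QS.ev (pu (CO C) (ct x0)) (fun _ => ct z0) t = 0 :=
      ((hom_ringHom ct).cf ..).symm.trans ((congrArg ct h0).trans (map_zero _))
    rw [hG.eq, h2]
    simp

theorem thm_CH2 : S_CH2 := by
  intro C J z hz h0 hY hJ
  choose k hk using fun b : Fin 10 => thm_CH1 C z _ _ hz (h0 b) (hJ (.inl b))
  have hr : ∀ sp l, Le sp 1 (z l) := fun sp l => le_root ((hz.all _).2 ⟨l, rfl⟩)
  constructor
  · refine le_trans (deg_le (fun l => oU C (z l)) 2 (fun b : Fin 4 => bx (sq C) b.val)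
      (fun b => k (b.castLE (by omega))) (fun a b e => ?_)
      (fun l e => hz.u0 l (congrFun e 0)) (fun sp l i => ?_) fun b i => ?_) (by norm_num)
    · obtain ⟨e1, e2⟩ := Prod.mk.inj e
      have e3 := Option.some.inj e1
      have t1 := congrArg₂ (fun c l => lim (sec c) (z l)) e1 e2
      have e4 : bz (sq C) a.val = bz (sq C) b.val :=
        (lim_eq (tends_of_Cg (v_un_lt _) (hk (a.castLE (by omega))))).symm.trans
          (t1.trans (lim_eq (tends_of_Cg (v_un_lt _) (hk (b.castLE (by omega))))))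
      revert e3 e4
      fin_cases a <;> fin_cases b <;> simp [bx, bz, Nat.ble]
    · have h1 := (le_lam.mul le_lam).sub (le_lam.mono (sp := sp) (by omega))
      have h2 := ((hr sp l).mul (hr sp l)).sub ((hr sp l).mono (by omega))
      fin_cases i <;> exact (h1.c _ le_rfl).add (h2.c _ le_rfl)
    · have := mem_cU (mem_CO _ _ C) (lam_Cg _ (pt_sec _)) (hk (b.castLE (by omega))) i
      have e : cU (sq C) (bx (sq C) b.val) (bz (sq C) b.val) i = 0 := by
        fin_cases b <;> fin_cases i <;> simp [cU, bx, bz, Nat.ble]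
      rw [← (hom_ringHom ct).cU, Fin.val_castLE, e] at this
      exact this
  · refine le_trans (deg_le (fun l => oY C (z l)) 3 (fun b : Fin 6 => bx (sq C) (4 + b.val))
      (fun b => k (b.natAdd 4)) (fun a b e => ?_)
      (fun l e => hz.y0 l (congrFun e 0)) (fun sp l i => ?_) fun b i => ?_) (by norm_num)
    · by_contra hne
      have h1 : cond (Nat.beq a.val b.val) ((1 : ℕ) : ℂ)
        (bx (sq C) (4 + a.val) - bx (sq C) (4 + b.val)) ≠ 0 := hJ (.inr (a, b))
      rw [Bool.eq_false_iff.2 fun e => hne (Fin.ext (Nat.eq_of_beq_eq_true e))] at h1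
      exact h1 (sub_eq_zero.2 (Option.some.inj (Prod.mk.inj e).1))
    · fin_cases i
      exacts [le_cub (fun i => sq C (30 + i)) le_lam (hr sp l),
        le_cub (fun i => sq C (40 + i)) le_lam (hr sp l),
        le_cub (fun i => sq C (50 + i)) le_lam (hr sp l),
        le_cub (fun i => sq C (60 + i)) le_lam (hr sp l)]
    · have := mem_cY (mem_CO _ _ C) (lam_Cg _ (pt_sec _)) (hk (b.natAdd 4)) i
      rw [← (hom_ringHom ct).cY, Fin.val_natAdd, hY] at this
      exact this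

end Pool.Agent.P.MP_7ebcb6_ag.SC
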