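import Pool.Agent.P.MP_7ebcb6_ag.SC.St3

/-! The closed conditions specialise; scaling of members; the class of a good point vanishes. -/

namespace Pool.Agent.P.MP_7ebcb6_ag.SC

open G8

namespace CLO

section ring

variable {R S : Type} [CommRing R] [CommRing S]

theorem form_map (f : R →+* S) {d : ℕ} (c : Fin (d + 1) → R) (U : Fin 2 → R) :
    f (form c U) = form (fun i => f (c i)) fun i => f (U i) := by
  simp only [form, map_sum, map_mul, map_pow]

theorem form_scale {d : ℕ} (c : Fin (d + 1) → R) (s : R) (U : Fin 2 → R) :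
    form c (fun i => s * U i) = s ^ d * form c U := by
  rw [form, form, Finset.mul_sum]
  refine Finset.sum_congr rfl fun i _ => ?_
  have : s ^ d = s ^ (d - i) * s ^ (i : ℕ) := by
    rw [← pow_add, Nat.sub_add_cancel (Nat.lt_succ_iff.mp i.2)]
  rw [this, mul_pow, mul_pow]
  ring

theorem form_smul {d : ℕ} (c : Fin (d + 1) → R) (s : R) (U : Fin 2 → R) :
    form (fun i => s * c i) U = s * form c U := by
  simp only [form, Finset.mul_sum, mul_assoc]

theorem lin_scale (a : Fin 4 → Fin 4 → Fin 2 → R) (s : R) (U : Fin 2 → R) :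
    lin a (fun i => s * U i) = fun i j => s * lin a U i j := by
  funext i j
  rw [lin, form_scale, pow_one, lin]

/-- the six quadratic equations -/
def eq1 (D : Member R) (U : Fin 2 → R) (Y : Fin 4 → R) (l t : R) (z : Fin 4 → R) (q : Fin 6) : R :=
  l * (Y (pa q) * Y (pb q)) - (az (lin D.a U) z q + t * D.E U q)

/-- the cubic equation -/
def eq2 (D : Member R) (U : Fin 2 → R) (Y : Fin 4 → R) (l t : R) : R :=
  l * cayl (lin D.a U) Y + t * nfm (lin D.a U) D.ka Y

theorem lin_map (f : R →+* S) (D : Member R) (U : Fin 2 → R) :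
    (fun i j => f (lin D.a U i j)) = lin (D.map f).a fun i => f (U i) :=
  funext fun _ => funext fun _ => form_map f _ _

theorem eq1_map (f : R →+* S) (D : Member R) (U : Fin 2 → R) (Y : Fin 4 → R) (l t : R)
    (z : Fin 4 → R) (q : Fin 6) : f (eq1 D U Y l t z q)
      = eq1 (D.map f) (fun i => f (U i)) (fun i => f (Y i)) (f l) (f t) (fun i => f (z i)) q := by
  simp only [eq1, map_sub, map_add, map_mul, (hom_ringHom f).az, lin_map, Member.E, form_map]
  rfl

theorem eq2_map (f : R →+* S) (D : Member R) (U : Fin 2 → R) (Y : Fin 4 → R) (l t : R) :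
    f (eq2 D U Y l t) = eq2 (D.map f) (fun i => f (U i)) (fun i => f (Y i)) (f l) (f t) := by
  simp only [eq2, map_add, map_mul, (hom_ringHom f).cayl, (hom_ringHom f).nfm, lin_map]
  rfl

theorem eq1_scale (D : Member R) (U : Fin 2 → R) (Y : Fin 4 → R) (l t : R) (z : Fin 4 → R)
    (q : Fin 6) (c d e : R) : eq1 D (fun i => c * U i) (fun i => d * Y i) (e * (c ^ 3 * l))
      (e * (d ^ 2 * t)) (fun i => e * (c ^ 2 * d ^ 2 * z i)) q
        = e * c ^ 3 * d ^ 2 * eq1 D U Y l t z q := by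
  simp only [eq1, lin_scale, Member.E, form_scale, az]
  ring

theorem eq2_scale (D : Member R) (U : Fin 2 → R) (Y : Fin 4 → R) (l t : R) (c d e : R) :
    eq2 D (fun i => c * U i) (fun i => d * Y i) (e * (c ^ 3 * l)) (e * (d ^ 2 * t))
      = e * c ^ 9 * d ^ 3 * eq2 D U Y l t := by
  have h : ∀ m, nuM (fun i j => c * lin D.a U i j) m = c ^ 3 * nuM (lin D.a U) m := fun m => by
    simp only [nuM]
    ring
  simp only [eq2, lin_scale, cayl, nfm, muM, nhM, h]
  ring

theorem nuA_scale (a : Fin 4 → Fin 4 → Fin 2 → R) (U : Fin 2 → R) (c : R) :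
    nuA (lin a fun i => c * U i) = c ^ 12 * nuA (lin a U) := by
  have h : ∀ m, nuM (fun i j => c * lin a U i j) m = c ^ 3 * nuM (lin a U) m := fun m => by
    simp only [nuM]
    ring
  simp only [lin_scale, nuA, h]
  ring

end ring

variable {K L : Type} [Field K] [Field L]

theorem red_zero {pl : Plc K L} (r : pl.G) (h : gfst pl.G r = 0) : gsnd pl.G r = 0 := by
  rw [pl.fst_injective (h.trans (map_zero _).symm), map_zero]

theorem sc_ne {pl : Plc K L} {n : ℕ} {P : Fin n → K} {Q : Fin n → L} {c : K} (h0 : Q ≠ 0)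
    (h : ∀ i, (c * P i, Q i) ∈ pl.G) : c ≠ 0 := by
  rintro rfl
  exact h0 (funext fun i => pl.func _ (by simpa using h i))

/-- the member over the graph -/
def mel {G : Subring (K × L)} {D : Member K} {D' : Member L} (h : MM G D D') : Member G :=
  ⟨fun i j => (h.1 i j).el, fun p => (h.2.1 p).el, h.2.2.el⟩

theorem down {pl : Plc K L} {D : Member K} {D' : Member L} {U : V2 K} {Y : V4 K} {U' : V2 L}
    {Y' : V4 L} (hD : MM pl.G D D') (hU : pl.Red U U') (hY : pl.Red Y Y') {l t : K} {z : V4 K}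
    (h : l ≠ 0 ∨ t ≠ 0 ∨ z ≠ 0) : ∃ (l' t' : L) (z' : V4 L), (l' ≠ 0 ∨ t' ≠ 0 ∨ z' ≠ 0) ∧
      (l = 0 → l' = 0) ∧ (t = 0 → t' = 0) ∧
      (∀ q, eq1 D U Y l t z q = 0 → eq1 D' U' Y' l' t' z' q = 0) ∧
      (eq2 D U Y l t = 0 → eq2 D' U' Y' l' t' = 0) := by
  obtain ⟨u0, c, hc⟩ := hU
  obtain ⟨y0, d, hd⟩ := hY
  have c0 := sc_ne u0 hc
  have d0 := sc_ne y0 hd
  have w0 : (Fin.cons (c ^ 3 * l) (Fin.cons (d ^ 2 * t) fun i => c ^ 2 * d ^ 2 * z i) :
      Fin 6 → K) ≠ 0 := fun e => by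
    have e0 : c ^ 3 * l = 0 := congrFun e 0
    have e1 : d ^ 2 * t = 0 := congrFun e 1
    have e2 : ∀ i, c ^ 2 * d ^ 2 * z i = 0 := fun i => congrFun e i.succ.succ
    rcases h with h | h | h
    · exact mul_ne_zero (pow_ne_zero _ c0) h e0
    · exact mul_ne_zero (pow_ne_zero _ d0) h e1
    · exact h (funext fun i => (mul_eq_zero.mp (e2 i)).resolve_left
        (mul_ne_zero (pow_ne_zero _ c0) (pow_ne_zero _ d0)))
  obtain ⟨w, w1, e, he⟩ := pl.exists_red w0
  have m0 : (e * (c ^ 3 * l), w 0) ∈ pl.G := he 0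
  have m1 : (e * (d ^ 2 * t), w 1) ∈ pl.G := he 1
  have m2 : MV pl.G (fun i => e * (c ^ 2 * d ^ 2 * z i)) fun i : Fin 4 => w i.succ.succ :=
    fun i => he i.succ.succ
  have mU : MV pl.G (fun i => c * U i) U' := hc
  have mY : MV pl.G (fun i => d * Y i) Y' := hd
  refine ⟨w 0, w 1, fun i => w i.succ.succ, ?_, fun h => pl.func _ (by simpa [h] using m0),
    fun h => pl.func _ (by simpa [h] using m1), fun q hq => ?_, fun hq => ?_⟩
  · by_contra hn
    simp only [not_or, not_not] at hn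
    refine w1 (funext fun i => ?_)
    refine Fin.cases hn.1 (fun i => Fin.cases hn.2.1 (fun i => congrFun hn.2.2 i) i) i
  · have := red_zero (eq1 (mel hD) mU.el mY.el ⟨_, m0⟩ ⟨_, m1⟩ m2.el q)
      ((eq1_map _ _ _ _ _ _ _ _).trans ((eq1_scale D U Y l t z q c d e).trans (by rw [hq, mul_zero])))
    rwa [eq1_map] at this
  · have := red_zero (eq2 (mel hD) mU.el mY.el ⟨_, m0⟩ ⟨_, m1⟩)
      ((eq2_map _ _ _ _ _ _).trans ((eq2_scale D U Y l t c d e).trans (by rw [hq, mul_zero])))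
    rwa [eq2_map] at this

theorem unscale {D D' : Member K} {c : K} (hc : c ≠ 0) (ha : D'.a = D.a)
    (he : D'.e = fun p i => c * D.e p i) (hk : D'.ka = fun m => c * D.ka m) (U : V2 K) (Y : V4 K) :
    (D'.On U Y → D.On U Y) ∧ (D'.Bad U Y → D.Bad U Y) := by
  have hE : ∀ q, D'.E U q = c * D.E U q := fun q => by
    rw [Member.E, he]
    exact form_smul _ _ _
  constructor
  · rintro ⟨l, t, z, h0, h1, h2⟩
    refine ⟨l, t * c, z, h0.imp_right (Or.imp_left fun h => mul_ne_zero h hc), fun q => ?_, ?_⟩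
    · rw [h1 q, ha, hE, mul_assoc]
    · rw [← h2, ha, hk]
      simp only [nfm]
      ring
  · rintro (h | h | h | h | ⟨t, z, h0, h⟩)
    · exact .inl (ha ▸ h)
    · exact .inr (.inl h)
    · exact .inr (.inr (.inl h))
    · exact .inr (.inr (.inr (.inl (ha ▸ h))))
    · refine .inr (.inr (.inr (.inr ⟨t * c, z, h0.imp_left fun h => mul_ne_zero h hc, fun q => ?_⟩)))
      rw [← h q, ha, hE, mul_assoc]

end CLO

open CLO in
theorem thm_CLO : S_CLO := by
  intro K L _ _ pl D D' U Y U' Y' hD hU hY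
  constructor
  · rintro ⟨l, t, z, h0, h1, h2⟩
    obtain ⟨l', t', z', k0, -, -, k1, k2⟩ := down hD hU hY h0
    exact ⟨l', t', z', k0, fun q => sub_eq_zero.mp (k1 q (sub_eq_zero.mpr (h1 q))), k2 h2⟩
  · rintro (h | h | h | ⟨l, z, h0, h⟩ | ⟨t, z, h0, h⟩)
    · obtain ⟨-, c, hc⟩ := hU
      have mU : MV pl.G (fun i => c * U i) U' := hc
      have := red_zero (nuA (lin (mel hD).a mU.el)) (((homF _).nuA _).trans (by
        rw [lin_map]
        exact (nuA_scale D.a U c).trans (by rw [h, mul_zero])))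
      rw [(homS _).nuA, lin_map] at this
      exact .inl this
    · obtain ⟨-, c, hc⟩ := hU
      exact .inr (.inl (pl.func _ (by simpa [h] using hc 0)))
    · obtain ⟨-, c, hc⟩ := hY
      exact .inr (.inr (.inl (pl.func _ (by simpa [h] using hc 0))))
    · obtain ⟨l', t', z', k0, -, kt, k1, -⟩ := down hD hU hY (t := 0) (h0.imp_right .inr)
      obtain rfl := kt rfl
      refine .inr (.inr (.inr (.inl ⟨l', z', by simpa using k0, fun q => ?_⟩)))
      have := k1 q (by rw [eq1, h q, zero_mul, add_zero, sub_self])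
      rwa [eq1, zero_mul, add_zero, sub_eq_zero] at this
    · obtain ⟨l', t', z', k0, kl, -, k1, -⟩ := down hD hU hY (l := 0) (.inr h0)
      obtain rfl := kl rfl
      refine .inr (.inr (.inr (.inr ⟨t', z', by simpa using k0, fun q => ?_⟩)))
      have := k1 q (by rw [eq1, h q, zero_mul, sub_self])
      rwa [eq1, zero_mul, zero_sub, neg_eq_zero] at this

open CLO in
theorem thm_SCL : S_SCL := fun D t ht cl =>
  ⟨⟨cl.cls, cl.smul,
    fun U Y h => cl.bad U Y ((unscale (D := D) (D' := D.scale t) ht rfl rfl rfl U Y).2 h),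
    fun U Y hU hY h => cl.fam U Y hU hY ((unscale (D := D.map ct) (D' := (D.scale t).map ct)
      ((map_ne_zero ct).mpr ht) rfl (funext fun _ => funext fun _ => map_mul ct _ _)
      (funext fun _ => map_mul ct _ _) U Y).1 h)⟩, rfl⟩

theorem thm_ZERO (hB : S_B) (hM : S_M) (hCV : S_CV) : S_ZERO := by
  rintro ⟨a, v, y2, s, hs, hr, hg, y0, y1, hsol, hon, -, -, h⟩ D hG hC cl p pU pY hp hb hO
  obtain ⟨t, v', ht, hsol', e⟩ := hCV.2.2 D p hC pU pY hp hb
  have eU : af (p.U 1) = p.U := funext fun i => by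
    fin_cases i
    · exact (af_0 _).trans pU.symm
    · rfl
  have ep : ptOf (parOf D.a p) = p := funext fun i => by
    rcases i with i | i
    · exact congrFun eU i
    · rfl
  obtain ⟨ρ, ma, mv, mt⟩ := hB a (parOf D.a p) v v' (y2 0) s hs hr hg hG y0 pY hsol hsol' hon
    ((hCV.1 _).mpr (ep.symm ▸ hO))
  obtain ⟨cl', e'⟩ := thm_SCL D t ht cl
  obtain ⟨cl0, h0⟩ := hM (memOf a v) (D.scale t) ρ
    (e ▸ ⟨fun i j c => ma _, fun p c => mv _, fun m => mv _⟩) cl'
  have rU : ρ.Red (af (uOf a)) p.U := ⟨fun z => one_ne_zero (pU.symm.trans (congrFun z 0)), 1,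
    fun i => by rw [one_mul, ← eU]; exact mem_af (ma _) i⟩
  have rY : ρ.Red (yOf a) p.Y := ⟨fun z => one_ne_zero (pY.symm.trans (congrFun z 0)), 1,
    fun i => by rw [one_mul]; exact ma (.inr (.inr i))⟩
  obtain ⟨w, rw2⟩ := ρ.exists_red (P := y2) fun z => one_ne_zero (y1.symm.trans (congrFun z 1))
  have w0 : w 0 = 0 := by
    obtain ⟨-, c, hc⟩ := rw2
    have m1 := hc 1
    rw [y1, mul_one] at m1
    exact (Plc.uniq (hc 0) (Plc.mul m1 mt)).trans (mul_zero _)
  have := h cl0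
  rwa [h0 _ _ _ _ rU rY, h0 _ _ _ _ rU rw2, cl'.bad _ w (.inr (.inr (.inl w0))), add_zero,
    e'] at this

end Pool.Agent.P.MP_7ebcb6_ag.SC
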