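import Pool.Agent.P.MP_7ebcb6_ag.SC.St3

/-! The linear system and the conditions of the hand-in. -/

namespace Pool.Agent.P.MP_7ebcb6_ag.SC

open G8 Function MvPolynomial

namespace CV

lemma bf_sq {d : ℕ} (c : Fin (d + 1) → ℂ) (U : Fin 2 → ℂ) : bf d (sq c) U = form c U := by
  rw [bf_eq, form, Finset.sum_range]
  refine Finset.sum_congr rfl fun i _ => ?_
  simp only [sq, i.2, dif_pos]

lemma lnv_eq (a : Fin 4 → Fin 4 → Fin 2 → ℂ) (U : Fin 2 → ℂ) : lnv a U = lin a U := by
  funext i j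
  simp [lnv, lin, form, Fin.sum_univ_two]

lemma form_add {d : ℕ} (c c' : Fin (d + 1) → ℂ) (U : Fin 2 → ℂ) :
    form (fun i => c i + c' i) U = form c U + form c' U := by
  simp only [form, add_mul, Finset.sum_add_distrib]

lemma form_mul {d : ℕ} (t : ℂ) (c : Fin (d + 1) → ℂ) (U : Fin 2 → ℂ) :
    form (fun i => t * c i) U = t * form c U := by
  simp only [form, Finset.mul_sum, mul_assoc]

/-- The sextic forms among the unknowns. -/
def hOf (v : σL → ℂ) : Fin 4 → Fin 7 → ℂ := fun m c => v (.inr (.inl (m, c)))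

def zOf (v : σL → ℂ) : Fin 4 → ℂ := fun i => v (.inr (.inr (.inr i)))

lemma ev1 (a : πL → ℂ) (v : σL → ℂ) (m : Fin 4) (j : Fin 10) : LM.ev a v (.inl (m, j))
    = cmp (lin (aOf a) (af (j.val : ℂ))) ((memOf a v).E (af (j.val : ℂ))) (memOf a v).ka m
      - nuM (lin (aOf a) (af (j.val : ℂ))) m * form (hOf v m) (af (j.val : ℂ)) := by
  simp only [LM, Sum.elim_inl, bf_sq, lnv_eq]
  rfl

lemma ev2 (a : πL → ℂ) (v : σL → ℂ) (q : Fin 6) : LM.ev a v (.inr (.inl q))
    = az (lin (aOf a) (af (uOf a))) (zOf v) q + (memOf a v).E (af (uOf a)) q := by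
  simp only [LM, Sum.elim_inl, Sum.elim_inr, bf_sq, lnv_eq]
  rfl

lemma ev3 (a : πL → ℂ) (v : σL → ℂ) (q : Unit) : LM.ev a v (.inr (.inr q))
    = nfm (lin (aOf a) (af (uOf a))) (memOf a v).ka (yOf a) := by
  simp only [LM, Sum.elim_inr, lnv_eq]
  rfl

/-- The system as a linear map. -/
def lmap (a : πL → ℂ) : (σL → ℂ) →ₗ[ℂ] (τL → ℂ) where
  toFun v := LM.ev a v
  map_add' v w := by
    funext t
    rcases t with ⟨m, j⟩ | q | q
    · have h : form (hOf (v + w) m) = fun U => form (hOf v m) U + form (hOf w m) U :=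
        funext fun U => form_add _ _ U
      simp only [Pi.add_apply, ev1, cmp, Member.E, memOf, h, form_add]
      ring
    · simp only [Pi.add_apply, ev2, az, Member.E, memOf, zOf, form_add]
      ring
    · simp only [Pi.add_apply, ev3, nfm, memOf]
      ring
  map_smul' c v := by
    funext t
    rcases t with ⟨m, j⟩ | q | q
    · have h : form (hOf (c • v) m) = fun U => c * form (hOf v m) U :=
        funext fun U => form_mul _ _ U
      simp only [Pi.smul_apply, smul_eq_mul, RingHom.id_apply, ev1, cmp, Member.E, memOf, h,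
        form_mul]
      ring
    · simp only [Pi.smul_apply, smul_eq_mul, RingHom.id_apply, ev2, az, Member.E, memOf, zOf,
        form_mul]
      ring
    · simp only [Pi.smul_apply, smul_eq_mul, RingHom.id_apply, ev3, nfm, memOf]
      ring

lemma ev_sum (a : πL → ℂ) (v : σL → ℂ) (t : τL) :
    LM.ev a v t = ∑ s, v s * LM.ev a (Pi.single s 1) t := by
  have h : v = ∑ s, v s • (Pi.single s 1 : σL → ℂ) := pi_eq_sum_univ' v
  have h2 : lmap a v = ∑ s, v s • lmap a (Pi.single s 1) := by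
    conv_lhs => rw [h]
    simp only [map_sum, map_smul]
  have h3 := congrFun h2 t
  simp only [Finset.sum_apply, Pi.smul_apply, smul_eq_mul] at h3
  exact h3

lemma mi_iff {σ τ : Type} [Fintype σ] [Fintype τ] [DecidableEq σ] [DecidableEq τ]
    (L : (σ → ℂ) →ₗ[ℂ] (τ → ℂ)) :
    (MI fun (s : σ) (t : τ) => L (Pi.single s 1) t) ↔ Surjective L := by
  constructor
  · intro h
    by_contra hs
    have hlt : LinearMap.range L < ⊤ :=
      lt_top_iff_ne_top.2 fun h' => hs (LinearMap.range_eq_top.1 h')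
    obtain ⟨φ, hφ, hk⟩ := Submodule.exists_le_ker_of_lt_top _ hlt
    have h0 := h (fun t => φ (Pi.single t 1)) fun s => by
      have h1 : φ (L (Pi.single s 1)) = 0 := hk (LinearMap.mem_range_self L _)
      rw [pi_eq_sum_univ' (L (Pi.single s 1))] at h1
      simpa only [map_sum, map_smul, smul_eq_mul] using h1
    refine hφ (LinearMap.ext fun x => ?_)
    rw [pi_eq_sum_univ' x]
    simp only [map_sum, map_smul, smul_eq_mul, LinearMap.zero_apply, mul_zero,
      Finset.sum_const_zero]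
    exact Finset.sum_eq_zero fun t _ => by rw [congrFun h0 t, Pi.zero_apply, mul_zero]
  · intro h e he
    funext t
    obtain ⟨v, hv⟩ := h (Pi.single t 1)
    have h1 : ∑ t', L v t' * e t' = 0 := by
      rw [pi_eq_sum_univ' v]
      simp only [map_sum, map_smul, Finset.sum_apply, Pi.smul_apply, smul_eq_mul, Finset.sum_mul]
      rw [Finset.sum_comm]
      refine Finset.sum_eq_zero fun s _ => ?_
      simp only [mul_assoc, ← Finset.mul_sum, he s, mul_zero]
    rw [hv] at h1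
    simpa [Pi.single_apply] using h1

/-- The function is a binary form of degree `d`. -/
def IsF (d : ℕ) (f : (Fin 2 → ℂ) → ℂ) : Prop :=
  ∃ F : MvPolynomial (Fin 2) ℂ, F.IsHomogeneous d ∧ ∀ U, eval U F = f U

lemma IsF.add {d : ℕ} {f g : (Fin 2 → ℂ) → ℂ} (hf : IsF d f) (hg : IsF d g) :
    IsF d fun U => f U + g U := by
  obtain ⟨F, h1, h2⟩ := hf
  obtain ⟨G, h3, h4⟩ := hg
  exact ⟨F + G, h1.add h3, fun U => by rw [map_add, h2, h4]⟩

lemma IsF.sub {d : ℕ} {f g : (Fin 2 → ℂ) → ℂ} (hf : IsF d f) (hg : IsF d g) :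
    IsF d fun U => f U - g U := by
  obtain ⟨F, h1, h2⟩ := hf
  obtain ⟨G, h3, h4⟩ := hg
  exact ⟨F - G, h1.sub h3, fun U => by rw [map_sub, h2, h4]⟩

lemma IsF.mul {d e : ℕ} {f g : (Fin 2 → ℂ) → ℂ} (hf : IsF d f) (hg : IsF e g) :
    IsF (d + e) fun U => f U * g U := by
  obtain ⟨F, h1, h2⟩ := hf
  obtain ⟨G, h3, h4⟩ := hg
  exact ⟨F * G, h1.mul h3, fun U => by rw [map_mul, h2, h4]⟩

lemma IsF.cmul {d : ℕ} {f : (Fin 2 → ℂ) → ℂ} (c : ℂ) (hf : IsF d f) : IsF d fun U => c * f U := by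
  obtain ⟨F, h1, h2⟩ := hf
  exact ⟨C c * F, h1.C_mul c, fun U => by rw [map_mul, h2, eval_C]⟩

lemma isF_form {d : ℕ} (c : Fin (d + 1) → ℂ) : IsF d (form c) := by
  refine ⟨∑ i, C (c i) * (X 0 ^ (d - i) * X 1 ^ (i : ℕ)), ?_, fun U => by simp [form]⟩
  refine IsHomogeneous.sum _ _ _ fun i _ => ?_
  have h := ((isHomogeneous_X_pow (R := ℂ) (0 : Fin 2) (d - i)).mul
    (isHomogeneous_X_pow (R := ℂ) (1 : Fin 2) (i : ℕ))).C_mul (c i)
  rwa [Nat.sub_add_cancel (Nat.lt_succ_iff.1 i.2)] at h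

variable (a : Fin 4 → Fin 4 → Fin 2 → ℂ)

lemma isF_lin (i j : Fin 4) : IsF 1 fun U => lin a U i j := isF_form _

lemma isF_nuM (m : Fin 4) : IsF 3 fun U => nuM (lin a U) m :=
  (((isF_lin a _ _).mul (isF_lin a _ _)).mul (isF_lin a _ _)).add
    (((isF_lin a _ _).mul (isF_lin a _ _)).mul (isF_lin a _ _))

lemma isF_muM (m : Fin 4) : IsF 6 fun U => muM (lin a U) m :=
  (((isF_lin a _ _).mul (isF_lin a _ _)).mul (isF_lin a _ _)).mul (isF_nuM a m)

lemma isF_nhM (m : Fin 4) : IsF 9 fun U => nhM (lin a U) m :=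
  ((isF_nuM a _).mul (isF_nuM a _)).mul (isF_nuM a _)

lemma isF_cmp (D : Member ℂ) (m : Fin 4) : IsF 9 fun U => cmp (lin a U) (D.E U) D.ka m :=
  ((((isF_muM a _).mul (isF_form (D.e _))).add ((isF_muM a _).mul (isF_form (D.e _)))).add
    ((isF_muM a _).mul (isF_form (D.e _)))).add ((isF_nhM a m).cmul _)

/-- The compatibility condition can be tested at ten points. -/
lemma cmp_of (hHB : S_HB) (D : Member ℂ) (h : Fin 7 → ℂ) (c : Fin 10 → ℂ) (m : Fin 4)
    (H : ∀ j : Fin 10, cmp (lin a (af (j.val : ℂ))) (D.E (af (j.val : ℂ))) D.ka m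
      - nuM (lin a (af (j.val : ℂ))) m * form h (af (j.val : ℂ)) = form c (af (j.val : ℂ)))
    (U : Fin 2 → ℂ) : cmp (lin a U) (D.E U) D.ka m = nuM (lin a U) m * form h U + form c U := by
  obtain ⟨F, h1, h2⟩ := ((isF_cmp a D m).sub ((isF_nuM a m).mul (isF_form h))).sub (isF_form c)
  have h0 := hHB 9 F h1 fun j hj => by
    rw [h2]
    exact sub_eq_zero.2 (H ⟨j, Nat.lt_succ_of_le hj⟩)
  have h3 := h2 U
  rw [h0, map_zero] at h3
  linear_combination -h3

lemma interp (T : Fin 10 → ℂ) : ∃ c : Fin 10 → ℂ, ∀ j : Fin 10, form c (af (j.val : ℂ)) = T j := by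
  have hd : (Matrix.vandermonde fun j : Fin 10 => (j.val : ℂ)).det ≠ 0 :=
    Matrix.det_vandermonde_ne_zero_iff.2 fun i j h => Fin.ext (Nat.cast_injective h)
  obtain ⟨c, hc⟩ := Matrix.mulVec_surjective_iff_isUnit.2
    ((Matrix.isUnit_iff_isUnit_det _).2 (Ne.isUnit hd)) T
  refine ⟨c, fun j => ?_⟩
  rw [← congrFun hc j]
  simp only [form, af_0, af_1, one_pow, one_mul, Matrix.mulVec, dotProduct,
    Matrix.vandermonde_apply]
  exact Finset.sum_congr rfl fun i _ => mul_comm _ _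

lemma af_eq (p : Pt) (h : p.U 0 = 1) : af (p.U 1) = p.U := by
  funext i
  fin_cases i
  · exact (af_0 _).trans h.symm
  · rfl

end CV

open CV

theorem thm_CV (hHB : S_HB) : S_CV := by
  refine ⟨fun a => ?_, fun a v h => ⟨⟨hOf v, fun U m => ?_⟩, fun hn => ⟨hn, 1, zOf v, fun q => ?_,
    ?_⟩⟩, fun D p hc hU _ hs hb => ?_⟩
  · refine (mi_iff (lmap a)).trans ⟨fun h c w b => ?_, fun h T => ?_⟩
    · obtain ⟨v, hv⟩ := h (Sum.elim (fun i => form (c i.1) (af (i.2.val : ℂ)))
        (Sum.elim w fun _ => b))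
      refine ⟨memOf a v, hOf v, zOf v, rfl, fun U m => cmp_of _ hHB _ _ _ m (fun j => ?_) U,
        fun q => ?_, ?_⟩
      · exact (ev1 a v m j).symm.trans (congrFun hv (.inl (m, j)))
      · exact (ev2 a v q).symm.trans (congrFun hv (.inr (.inl q)))
      · exact (ev3 a v ()).symm.trans (congrFun hv (.inr (.inr ())))
    · choose c hc using fun m : Fin 4 => interp fun j => T (.inl (m, j))
      obtain ⟨D, g, z, hD, h1, h2, h3⟩ := h c (fun q => T (.inr (.inl q))) (T (.inr (.inr ())))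
      refine ⟨Sum.elim (fun i => D.e i.1 i.2) (Sum.elim (fun i => g i.1 i.2) (Sum.elim D.ka z)),
        funext fun t => ?_⟩
      rcases t with ⟨m, j⟩ | q | q
      · refine (ev1 a _ m j).trans ?_
        rw [← hc m j]
        exact sub_eq_iff_eq_add'.2 (h1 _ m)
      · exact (ev2 a _ q).trans (h2 q)
      · exact (ev3 a _ q).trans h3
  · have h0 := cmp_of _ hHB (memOf a v) (hOf v m) 0 m (fun j => by
      rw [← ev1, h.1]
      simp [form]) U
    have h1 : form (0 : Fin 10 → ℂ) U = 0 := by simp [form]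
    rwa [h1, add_zero] at h0
  · rw [one_mul]
    exact (h.2.1 q).symm.trans (ev2 a v q)
  · have h1 := (ev3 a v ()).symm.trans h.2.2
    rw [lnv_eq] at h1
    rw [one_mul]
    exact add_eq_zero_iff_eq_neg'.2 h1
  · obtain ⟨g, hg⟩ := hc
    obtain ⟨-, t, z, h1, h2⟩ := hs
    have ht : t ≠ 0 := by
      rintro rfl
      exact hb (.inr (.inr (.inr (.inl ⟨1, z, .inl one_ne_zero, fun q => by
        simpa using h1 q⟩))))
    have hu : af (uOf (parOf D.a p)) = p.U := af_eq p hU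
    refine ⟨t, Sum.elim (fun i => t * D.e i.1 i.2) (Sum.elim (fun i => t * g i.1 i.2)
      (Sum.elim (fun m => t * D.ka m) z)), ht, ⟨fun ⟨m, j⟩ => ?_, fun q => ?_, ?_⟩, rfl⟩
    · rw [ev1]
      have h3 := hg (af (j.val : ℂ)) m
      change cmp (lin D.a _) (fun q => form (fun c => t * D.e q c) _) (fun m => t * D.ka m) m
        - nuM (lin D.a _) m * form (fun c => t * g m c) _ = 0
      simp only [cmp, Member.E, form_mul] at h3 ⊢
      linear_combination t * h3
    · rw [ev2, hu]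
      change az (lin D.a p.U) z q + form (fun c => t * D.e q c) p.U = p.Y (pa q) * p.Y (pb q)
      rw [form_mul]
      exact (h1 q).symm
    · rw [ev3, hu, lnv_eq]
      change nfm (lin D.a p.U) (fun m => t * D.ka m) p.Y = -cayl (lin D.a p.U) p.Y
      simp only [nfm] at h2 ⊢
      linear_combination h2

end Pool.Agent.P.MP_7ebcb6_ag.SC
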