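import Pool.Agent.P.MP_7ebcb6_ag.SC.St1

/-! The tangent section at a point of a line. -/

namespace Pool.Agent.P.MP_7ebcb6_ag.SC

open G8 Function

noncomputable section

namespace LB

/-- The equations of the points of the tangent section on the quadric. -/
def sy : Sys ((Fin 20 ⊕ Fin 6) ⊕ Fin 4) (Fin 4) (Fin 4) where
  ev a y := v4 (y 0 - ((1 : ℕ) : _))
    (tri (fun i => a (.inl (.inl i))) (fun i => a (.inr i)) (fun i => a (.inr i)) y)
    (qb (fun i => a (.inl (.inr i))) y y) (tri (fun i => a (.inl (.inl i))) y y y)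
  nat {_ _ _ _ _ _ _ _ _ _ f} h a x t := by simp only [app_v4 f, h.sub, h.nat, h.tri, h.qb]

/-- No polynomial. -/
def so (π σ : Type) : Sys π σ Empty := ⟨fun _ _ e => e.elim, fun _ _ _ e => e.elim⟩

section alg

variable {K : Type} [Field K] {g : Fin 20 → K} {k : Fin 6 → K} {W x y : V4 K}

lemma add_a (x y : Du K) : (x + y).a = x.a + y.a := rfl
lemma add_b (x y : Du K) : (x + y).b = x.b + y.b := rfl
lemma mul_a (x y : Du K) : (x * y).a = x.a * y.a := rfl
lemma mul_b (x y : Du K) : (x * y).b = x.a * y.b + x.b * y.a := rfl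

lemma du_tri (g : Fin 20 → K) (a b c a' b' c' : V4 K) :
    (tri (fun i => (⟨g i, 0⟩ : Du K)) (fun i => ⟨a i, a' i⟩) (fun i => ⟨b i, b' i⟩)
      fun i => ⟨c i, c' i⟩).b = tri g b c a' + tri g a c b' + tri g a b c' := by
  simp only [tri, add_a, add_b, mul_a, mul_b]
  ring

lemma du_qb (k : Fin 6 → K) (a a' : V4 K) :
    (qb (fun i => (⟨k i, 0⟩ : Du K)) (fun i => ⟨a i, a' i⟩) fun i => ⟨a i, a' i⟩).b
      = 2 * qb k a a' := by
  simp only [qb, add_a, add_b, mul_a, mul_b]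
  ring

lemma lA_eq (W : V4 K) : lA W = v4 1 0 (W 0) (W 1) := by simp [lA]
lemma lB_eq (W : V4 K) : lB W = v4 0 1 (W 2) (W 3) := by simp [lB]
lemma ee2 : (ee 2 : V4 K) = v4 0 0 1 0 := funext fun i => by fin_cases i <;> simp [ee, Nat.beq]
lemma ee3 : (ee 3 : V4 K) = v4 0 0 0 1 := funext fun i => by fin_cases i <;> simp [ee, Nat.beq]
lemma lpt_eq (W : V4 K) (r : K) : lpt W r = cb 1 (lA W) r (lB W) := by simp [lpt]
lemma lpt_0 (W : V4 K) (r : K) : lpt W r 0 = 1 := by simp [lpt, cb, lA, lB]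
lemma lpt_1 (W : V4 K) (r : K) : lpt W r 1 = r := by simp [lpt, cb, lA, lB]

/-- Points of the line. -/
def OnS (W y : V4 K) : Prop := ∃ s t, y = cb s (lA W) t (lB W)

lemma onS_A : OnS W (lA W) := ⟨1, 0, funext fun i => by simp [cb]⟩
lemma onS_B : OnS W (lB W) := ⟨0, 1, funext fun i => by simp [cb]⟩
lemma onS_lpt (r : K) : OnS W (lpt W r) := ⟨1, r, lpt_eq W r⟩

lemma onl (hL : ∀ i, lnE g W i = 0) {a b c : V4 K} (ha : OnS W a) (hb : OnS W b) (hc : OnS W c) :
    tri g a b c = 0 := by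
  obtain ⟨s, t, rfl⟩ := ha
  obtain ⟨s', t', rfl⟩ := hb
  obtain ⟨u, v, rfl⟩ := hc
  have h0 : tri g (lA W) (lA W) (lA W) = 0 := hL 0
  have h1 : tri g (lA W) (lA W) (lB W) = 0 := hL 1
  have h2 : tri g (lA W) (lB W) (lB W) = 0 := hL 2
  have h3 : tri g (lB W) (lB W) (lB W) = 0 := hL 3
  generalize lA W = A at *
  generalize lB W = B at *
  simp only [tri, cb] at *
  linear_combination s * s' * u * h0 + (s * s' * v + s * t' * u + t * s' * u) * h1
    + (s * t' * v + t * s' * v + t * t' * u) * h2 + t * t' * v * h3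

lemma tri_cb3 (a b : V4 K) (r s t : K) (u v w : V4 K) :
    tri g a b (cb3 r u s v t w) = r * tri g a b u + s * tri g a b v + t * tri g a b w := by
  simp only [tri, cb3]
  ring

lemma tri_eta (a : V4 K) : tri g a a (eta g x)
    = tri g x x (ee 3) * tri g a a (ee 2) - tri g x x (ee 2) * tri g a a (ee 3) := by
  rw [eta]
  generalize tri g x x (ee 3) = p
  generalize tri g x x (ee 2) = q
  simp only [tri, cb, ng_eq]
  ring

lemma dec (hL : ∀ i, lnE g W i = 0) (hx : OnS W x)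
    (hl : tri g x x (ee 2) ≠ 0 ∨ tri g x x (ee 3) ≠ 0) (hy : tri g x x y = 0) :
    ∃ c, y = cb3 (y 0) (lA W) (y 1) (lB W) c (eta g x) := by
  have h : tri g x x y = y 0 * tri g x x (lA W) + y 1 * tri g x x (lB W)
      + (y 2 - y 0 * W 0 - y 1 * W 2) * tri g x x (ee 2)
      + (y 3 - y 0 * W 1 - y 1 * W 3) * tri g x x (ee 3) := by
    simp only [tri, lA_eq, lB_eq, ee2, ee3, v4_0, v4_1, v4_2, v4_3]
    ring
  rw [hy, onl hL hx hx onS_A, onl hL hx hx onS_B] at h
  rw [eta]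
  generalize tri g x x (ee 3) = p at *
  generalize tri g x x (ee 2) = q at *
  rcases hl with hl | hl
  · refine ⟨-(y 3 - y 0 * W 1 - y 1 * W 3) / q, funext fun i => ?_⟩
    fin_cases i <;> simp [cb3, cb, lA_eq, lB_eq, ee2, ee3] <;> field_simp
    · linear_combination -h
    · ring
  · refine ⟨(y 2 - y 0 * W 0 - y 1 * W 2) / p, funext fun i => ?_⟩
    fin_cases i <;> simp [cb3, cb, lA_eq, lB_eq, ee2, ee3] <;> field_simp
    · ring
    · linear_combination -h

lemma res_root (hr : resN k g x W ≠ 0) (r : K) (h : qb k (lpt W r) (lpt W r) = 0) :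
    tri g (lpt W r) (lpt W r) (eta g x) ≠ 0 := fun h' => hr (by
  have e1 : qb k (lpt W r) (lpt W r)
      = qb k (lA W) (lA W) + 2 * qb k (lA W) (lB W) * r + qb k (lB W) (lB W) * r ^ 2 := by
    simp only [lpt_eq, qb, cb]
    ring
  have e2 : tri g (lpt W r) (lpt W r) (eta g x) = tri g (eta g x) (lA W) (lA W)
      + 2 * tri g (eta g x) (lA W) (lB W) * r + tri g (eta g x) (lB W) (lB W) * r ^ 2 := by
    generalize eta g x = n
    simp only [lpt_eq, tri, cb]
    ring
  rw [e1] at h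
  rw [e2] at h'
  simp only [resN, res22, Nat.cast_ofNat]
  generalize qb k (lA W) (lA W) = a0 at *
  generalize 2 * qb k (lA W) (lB W) = a1 at *
  generalize qb k (lB W) (lB W) = a2 at *
  generalize tri g (eta g x) (lA W) (lA W) = b0 at *
  generalize 2 * tri g (eta g x) (lA W) (lB W) = b1 at *
  generalize tri g (eta g x) (lB W) (lB W) = b2 at *
  linear_combination ((a0 * b2 - a2 * b0 - (a1 * b2 - a2 * b1) * r) * b2
    - (a1 * b2 - a2 * b1) * b1) * h - ((a0 * b2 - a2 * b0 - (a1 * b2 - a2 * b1) * r) * a2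
    - (a1 * b2 - a2 * b1) * a1) * h')

lemma sy_inj [CharZero K] (hL : ∀ i, lnE g W i = 0) (hx : OnS W x)
    (hl : tri g x x (ee 2) ≠ 0 ∨ tri g x x (ee 3) ≠ 0) {r1 r2 : K} (hR : Rts k W r1 r2)
    (hB : qB k W ≠ 0) (hne : r1 ≠ r2) (hn : tri g (lpt W r1) (lpt W r1) (eta g x) ≠ 0) :
    sy.Inj (Sum.elim (Sum.elim g k) x) (lpt W r1) := by
  intro e he
  have h0 : e 0 - ((0 : ℕ) : K) = 0 := he 0
  have h1 := (du_tri g x x (lpt W r1) 0 0 e).symm.trans (he 1)
  have h2 := (du_qb k (lpt W r1) e).symm.trans (he 2)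
  have h3 := (du_tri g (lpt W r1) (lpt W r1) (lpt W r1) e e e).symm.trans (he 3)
  have z : ∀ a b : V4 K, tri g a b 0 = 0 := fun a b => by simp [tri]
  rw [z, zero_add, zero_add] at h1
  rw [Nat.cast_zero, sub_zero] at h0
  obtain ⟨c, hc⟩ := dec hL hx hl h1
  have h4 : tri g (lpt W r1) (lpt W r1) e = c * tri g (lpt W r1) (lpt W r1) (eta g x) := by
    rw [hc, tri_cb3, onl hL (onS_lpt _) (onS_lpt _) onS_A, onl hL (onS_lpt _) (onS_lpt _) onS_B]
    ring
  have h5 : c = 0 := by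
    refine (mul_eq_zero.mp ?_).resolve_right hn
    linear_combination h3 / 3 - h4
  have h6 : e 1 * (qB k W * (r1 - r2)) = 0 := by
    have a0 := hR 0
    have a1 := hR 1
    rw [hc, h0, h5] at h2
    generalize eta g x = n at h2
    generalize e 1 = t at h2
    simp only [lpt_eq, qB] at *
    generalize lA W = A at *
    generalize lB W = B at *
    simp only [qb, cb, cb3] at *
    linear_combination h2 - t * (a1 - a0)
  have h7 := (mul_eq_zero.mp h6).resolve_right (mul_ne_zero hB (sub_ne_zero.mpr hne))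
  rw [hc, h0, h5, h7]
  funext i
  simp [cb3]

lemma ind3 (hx : x = cb (x 0) (lA W) (x 1) (lB W)) (h0 : x 0 ≠ 0)
    (hl : tri g x x (ee 2) ≠ 0 ∨ tri g x x (ee 3) ≠ 0) (s t : K) {c : K} (hc : c ≠ 0) :
    Ind3 x (lB W) (cb3 s (lA W) t (lB W) c (eta g x)) ∧
      Ind x (cb3 s (lA W) t (lB W) c (eta g x)) := by
  have h2 : x 2 = x 0 * W 0 + x 1 * W 2 := by
    simpa [cb, lA_eq, lB_eq] using congrFun hx 2
  have h3 : x 3 = x 0 * W 1 + x 1 * W 3 := by
    simpa [cb, lA_eq, lB_eq] using congrFun hx 3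
  have key : Ind3 x (lB W) (cb3 s (lA W) t (lB W) c (eta g x)) := by
    rw [eta]
    generalize tri g x x (ee 3) = p at *
    generalize tri g x x (ee 2) = q at *
    rcases hl with hl | hl
    · refine ⟨ee 2, fun h => mul_ne_zero h0 (mul_ne_zero hc hl) ?_⟩
      simp [det4, pp, plk, cb3, cb, lA_eq, lB_eq, ee2, ee3, h2, h3] at h
      linear_combination -h
    · refine ⟨ee 3, fun h => mul_ne_zero h0 (mul_ne_zero hc hl) ?_⟩
      simp [det4, pp, plk, cb3, cb, lA_eq, lB_eq, ee2, ee3, h2, h3] at h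
      linear_combination -h
  refine ⟨key, fun h => ?_⟩
  obtain ⟨w, hw⟩ := key
  generalize cb3 s (lA W) t (lB W) c (eta g x) = z at *
  have e : det4 w x (lB W) z = -pp (plk w (lB W)) (plk x z) := by
    simp only [det4, pp, plk, v6_0, v6_1, v6_2, v6_3, v6_4, v6_5]
    ring
  rw [e, h] at hw
  simp [pp] at hw

lemma tri_sc (c : K) (a b : V4 K) : tri g a a (fun i => c * b i) = c * tri g a a b ∧
    tri g a (fun i => c * b i) (fun i => c * b i) = c ^ 2 * tri g a b b ∧
    tri g (fun i => c * b i) (fun i => c * b i) (fun i => c * b i) = c ^ 3 * tri g b b b ∧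
    qb k (fun i => c * b i) (fun i => c * b i) = c ^ 2 * qb k b b := by
  simp only [tri, qb]
  refine ⟨?_, ?_, ?_, ?_⟩ <;> ring

end alg

end LB

open LB

theorem thm_LB (hLE2 : S_LE2) (hLQ : S_LQ) (hUP : S_UP) (hQU : S_QU) (hAL : S_AL) : S_LB := by
  intro sp g k x r g' k' x' W' q φ hg hx hk hr hv hx' h0 hL hres hB hd hq hZ hφ
  have hu := v_un_lt sp
  have tg := hg.tv hu
  have tx := hx.tv hu
  have ox : OnS W' x' := ⟨_, _, hx'⟩
  have xl : x' = fun i => x' 0 * lpt W' (x' 1 / x' 0) i := by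
    rw [lpt_eq]
    refine hx'.trans (funext fun i => ?_)
    simp only [cb]
    field_simp
  obtain ⟨r1, r2, hR⟩ := hAL.1 ℂ k' W' hB
  have hne : r1 ≠ r2 := (hAL.2.1 ℂ k' W' r1 r2 hB hR).mp hd
  have hR' : Rts k' W' r2 r1 := fun s => (hR s).trans (by ring)
  have hl : tri g' x' x' (ee 2) ≠ 0 ∨ tri g' x' x' (ee 3) ≠ 0 := by
    by_contra h
    push Not at h
    exact res_root hres r1 (by rw [hR]; ring) (by rw [tri_eta, h.1, h.2]; ring)
  have hw : ∃ w, tri g' x' x' w ≠ 0 := hl.elim (fun h => ⟨_, h⟩) fun h => ⟨_, h⟩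
  have he : tri g' x' x' (eta g' x') = 0 := by rw [tri_eta]; ring
  have zq : ∀ j, q j 0 = 1 ∧ tri g x x (q j) = 0 ∧ qb k (q j) (q j) = 0 ∧
      tri g (q j) (q j) (q j) = 0 := fun j => (hZ _).mpr ⟨j, rfl⟩
  have ta : TV sp (Sum.elim (Sum.elim g k) x) (Sum.elim (Sum.elim g' k') x') := by
    rintro ((i | i) | i)
    exacts [tg i, hk i, tx i]
  have root : ∀ s1 s2, Rts k' W' s1 s2 → s1 ≠ s2 → ∃ j, TV sp (q j) (lpt W' s1) ∧
      (∀ i, TV sp (q i) (lpt W' s1) → i = j) ∧
      (av sp (tri g x (q j) (q j)) - 2 * mu sp (q j)) * φ (rd sp (q j)) = φ (lpt W' s1) := by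
    intro s1 s2 hS hs
    have k0 : qb k' (lpt W' s1) (lpt W' s1) = 0 := by rw [hS]; ring
    have hn := res_root hres s1 k0
    have inj := sy_inj hL ox hl hS hB hs hn
    obtain ⟨y, ty, hy⟩ := hUP _ _ _ _ _ _ sy (so _ _) (spPl sp) (Sum.elim (Sum.elim g k) x)
      (Sum.elim (Sum.elim g' k') x') (lpt W' s1) rfl ta
      ⟨fun t => by
        fin_cases t
        exacts [sub_eq_zero.mpr ((lpt_0 W' s1).trans Nat.cast_one.symm),
          onl hL ox ox (onS_lpt _), k0, onl hL (onS_lpt _) (onS_lpt _) (onS_lpt _)],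
        fun o => o.elim, inj⟩
    obtain ⟨j, rfl⟩ := (hZ y).mp ⟨(sub_eq_zero.mp (hy.eq 0)).trans Nat.cast_one, hy.eq 1, hy.eq 2,
      hy.eq 3⟩
    refine ⟨j, ty, fun i hi => hq (funext fun s => ?_), ?_⟩
    · have := hQU _ _ _ sy sp 0 (Sum.elim (Sum.elim g k) x) (Sum.elim (Sum.elim g k) x) (q i) (q j)
        _ _ (fun i => Cg_refl 0 (ta i).le_one) ta hi ty inj (fun t => by
          have e : sy.ev (Sum.elim (Sum.elim g k) x) (q i) t = 0 := by
            fin_cases t
            exacts [sub_eq_zero.mpr ((zq i).1.trans Nat.cast_one.symm), (zq i).2.1, (zq i).2.2.1,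
              (zq i).2.2.2]
          rw [e, hy.eq, sub_zero]) s
      simpa [sub_eq_zero] using this.2.2
    · have n0 : lpt W' s1 ≠ 0 := fun e => by simpa [e] using lpt_0 W' s1
      have ty' : TV sp (fun i => 1 * q j i) (lpt W' s1) := fun i => by
        beta_reduce
        rw [one_mul]
        exact ty i
      have ind : Ind x' (lpt W' s1) := fun e => by
        have e0 : x' 0 * lpt W' s1 1 - x' 1 * lpt W' s1 0 = 0 := congrFun e 0
        rw [lpt_0, lpt_1] at e0
        have e1 : x' 1 / x' 0 = s1 := by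
          field_simp
          linear_combination -e0
        rw [e1] at xl
        refine hn ?_
        have e2 : tri g' x' x' (eta g' x')
            = x' 0 ^ 2 * tri g' (lpt W' s1) (lpt W' s1) (eta g' x') := by
          generalize eta g' x' = n
          generalize x' 0 = c at xl
          rw [xl]
          simp only [tri]
          ring
        exact (mul_eq_zero.mp (e2.symm.trans he)).resolve_left (pow_ne_zero 2 h0)
      have lq := hLQ sp _ g g' x (q j) x' _ r (un_ne_zero sp) hu hg hx hw hr hv ty (zq j).2.1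
        (zq j).2.2.2 ⟨ind, onl hL ox ox (onS_lpt _), onl hL ox (onS_lpt _) (onS_lpt _),
          onl hL (onS_lpt _) (onS_lpt _) (onS_lpt _)⟩ ⟨_, he, hn⟩
      have nz : tri g x (q j) (q j) ≠ 0 := fun e => by
        rw [e, map_zero] at lq
        exact (v_un_pos sp).ne lq
      obtain ⟨d, hd, e⟩ := rd_of_tv ty' n0
      rw [(av_eq_iff nz (un_ne_zero sp)).mpr lq, av_un, mu_of_tv ty' n0, e, hφ d _ hd]
      simp
  obtain ⟨j1, t1, u1, v1⟩ := root r1 r2 hR hne
  obtain ⟨j2, t2, u2, v2⟩ := root r2 r1 hR' hne.symm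
  have hj : j1 ≠ j2 := fun e => hne (by
    subst e
    simpa only [lpt_1] using (t1 1).unique (t2 1))
  rw [hAL.2.2.2.1 φ k' W' r1 r2 hB hR, Fintype.sum_eq_add j1 j2 hj, v1, v2]
  rintro j ⟨n1, n2⟩
  have q0 : q j ≠ 0 := fun e => by simpa [e] using (zq j).1
  have tz := tv_nz sp (q j)
  have z0 := rd_ne_zero sp q0
  have m0 := nv_ne_zero sp q0
  obtain ⟨s1, s2, s3, s4⟩ := tri_sc (g := g) (k := k) (nv sp (q j))⁻¹ x (q j)
  have ez : nz sp (q j) = fun i => (nv sp (q j))⁻¹ * q j i := rfl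
  have a1 : tri g' x' x' (rd sp (q j)) = 0 :=
    (mem_spPl.mp (mem_tri (mv_sp.mpr tg) (mv_sp.mpr tx) (mv_sp.mpr tx) (mv_sp.mpr tz))).eq_zero (by
      rw [ez, s1, (zq j).2.1, mul_zero])
  have a2 : qb k' (rd sp (q j)) (rd sp (q j)) = 0 :=
    (mem_spPl.mp (mem_qb (mv_sp.mpr hk) (mv_sp.mpr tz) (mv_sp.mpr tz))).eq_zero (by
      rw [ez, s4, (zq j).2.2.1, mul_zero])
  have a3 : tri g' (rd sp (q j)) (rd sp (q j)) (rd sp (q j)) = 0 :=
    (mem_spPl.mp (mem_tri (mv_sp.mpr tg) (mv_sp.mpr tz) (mv_sp.mpr tz) (mv_sp.mpr tz))).eq_zero (by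
      rw [ez, s3, (zq j).2.2.2, mul_zero])
  have a4 := mem_spPl.mp (mem_tri (mv_sp.mpr tg) (mv_sp.mpr tx) (mv_sp.mpr tz) (mv_sp.mpr tz))
  obtain ⟨c, hc⟩ := dec hL ox hl a1
  generalize rd sp (q j) = z at *
  by_cases c0 : c = 0
  · exfalso
    have b0 : z 0 ≠ 0 := fun e => by
      rw [c0, e] at hc
      have b1 : z 1 ≠ 0 := fun e1 => z0 (by
        rw [hc, e1]
        funext i
        simp [cb3])
      refine mul_ne_zero (pow_ne_zero 2 b1) hB ?_
      rw [← a2, qB]
      generalize z 1 = t at hc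
      rw [hc]
      simp only [qb, cb3]
      ring
    have b1 : z = fun i => z 0 * lpt W' (z 1 / z 0) i := by
      rw [lpt_eq]
      refine hc.trans (funext fun i => ?_)
      simp only [cb, cb3, c0]
      field_simp
      ring
    generalize z 1 / z 0 = s at b1
    have b2 : TV sp (q j) (lpt W' s) := fun i => by
      have b3 := tz 0
      rw [nz, (zq j).1, mul_one] at b3
      refine (((b3.inv b0).mul (tz i)).of_eq_left ?_).of_eq_right ?_
      · rw [nz, inv_inv, mul_inv_cancel_left₀ m0]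
      · rw [congrFun b1 i, inv_mul_cancel_left₀ b0]
    have b4 := (tri_sc (g := g') (k := k') (z 0) x' (lpt W' s)).2.2.2
    rw [← b1, a2, hR, eq_comm, mul_eq_zero, mul_eq_zero, mul_eq_zero, sub_eq_zero, sub_eq_zero]
      at b4
    rcases b4 with b4 | b4 | rfl | rfl
    exacts [pow_ne_zero 2 b0 b4, hB b4, n1 (u1 j b2), n2 (u2 j b2)]
  · obtain ⟨i3, i2⟩ := ind3 hx' h0 hl (z 0) (z 1) c0
    rw [← hc] at i3 i2
    have b0 : tri g' x' z z ≠ 0 := fun e => by
      have := hLE2 sp _ g g' x x' (lB W') z r hu hg hx hw hr ⟨fun e => h0 (by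
        simpa [plk, lB_eq] using congrFun e 0), onl hL ox ox onS_B, onl hL ox onS_B onS_B,
        onl hL onS_B onS_B onS_B⟩ ⟨i2, a1, e, a3⟩ i3
      rw [hv, _root_.sq] at this
      exact absurd (mul_lt_of_lt_one_right (v_un_pos sp) hu) (not_lt.mpr this)
    have b1 := av_of_v_one (a4.eq_one b0)
    have b2 := a4.ne_zero b0
    rw [ez, s2] at b1 b2
    rw [av_mul (left_ne_zero_of_mul b2) (right_ne_zero_of_mul b2), av_pow, av_inv] at b1
    rw [mu, show av sp (tri g x (q j) (q j)) - 2 * av sp (nv sp (q j)) = 0 by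
      push_cast at b1
      linarith, zero_mul]

end

end Pool.Agent.P.MP_7ebcb6_ag.SC
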