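import Pool.Agent.P.MP_7ebcb6_ag.SC.St2
import Pool.Agent.P.MP_7ebcb6_ag.SC.R1
import Pool.Agent.P.MP_7ebcb6_ag.SC.R2
import Pool.Agent.P.MP_7ebcb6_ag.SC.R3
import Pool.Agent.P.MP_7ebcb6_ag.SC.H1
import Pool.Agent.P.MP_7ebcb6_ag.SC.H2
import Pool.Agent.P.MP_7ebcb6_ag.SC.H3
import Pool.Agent.P.MP_7ebcb6_ag.SC.L1
import Pool.Agent.P.MP_7ebcb6_ag.SC.LB

/-! The contribution of the tangent section at each specialisation. -/

namespace Pool.Agent.P.MP_7ebcb6_ag.SC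

open G8 Function

namespace CW1

lemma dich (sp : Sp) {q : V4 Om} (h : q 0 = 1) :
    rd sp q 0 = 0 ∨ (mu sp q = 0 ∧ ∃ q', TV sp q q' ∧ q' 0 = 1) := by
  have h1 : 1 ≤ sp.v (nv sp q) := by simpa [h] using le_nv sp q 0
  rcases h1.eq_or_lt with h2 | h2
  · refine Or.inr ⟨av_of_v_one h2.symm, fun i => lim sp (q i),
      fun i => tends_lim (h2 ▸ le_nv sp q i), ?_⟩
    change lim sp (q 0) = 1
    rw [h]
    exact lim_eq Tends.one
  · refine Or.inl (lim_eq (Tends.zero_iff.mpr ?_))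
    rw [nz, h, mul_one, map_inv₀]
    exact inv_lt_one_of_one_lt₀ h2

lemma tv_one {sp : Sp} {n : ℕ} {q : Fin n → Om} {q' : Fin n → ℂ} (h : TV sp q q') :
    TV sp (fun i => 1 * q i) q' := by simpa only [one_mul] using h

lemma lim_zero {sp : Sp} {a : Om} {c : ℂ} (h : (a, c) ∈ (spPl sp).G) (h0 : a = 0) : c = 0 := by
  have h1 : Tends sp.v a c := h
  rw [h0] at h1
  exact h1.unique (Tends.zero_iff.mpr (by simp))

lemma lim_ne {sp : Sp} {a : Om} {c : ℂ} (h : (a, c) ∈ (spPl sp).G) (h1 : sp.v a = 1) : c ≠ 0 := by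
  rintro rfl
  have h2 : Tends sp.v a 0 := h
  rw [Tends.zero_iff, h1] at h2
  exact lt_irrefl _ h2

lemma tri_sc {R : Type} [CommRing R] (d b : R) (g : Fin 20 → R) (x y w : Fin 4 → R) :
    tri (fun i => d * g i) (fun i => b * x i) y w = d * b * tri g x y w := by
  simp only [tri]; ring

lemma tri_sc0 {R : Type} [CommRing R] (d : R) (g : Fin 20 → R) (x y w : Fin 4 → R) :
    tri (fun i => d * g i) x y w = d * tri g x y w := by
  simp only [tri]; ring

lemma tri_sc2 {R : Type} [CommRing R] (d b : R) (g : Fin 20 → R) (x w : Fin 4 → R) :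
    tri (fun i => d * g i) (fun i => b * x i) (fun i => b * x i) w = d * b ^ 2 * tri g x x w := by
  simp only [tri]; ring

lemma qb_sc0 {R : Type} [CommRing R] (d : R) (k : Fin 6 → R) (x y : Fin 4 → R) :
    qb (fun i => d * k i) x y = d * qb k x y := by
  simp only [qb]; ring

lemma qb_sc {R : Type} [CommRing R] (b : R) (k : Fin 6 → R) (x : Fin 4 → R) :
    qb k (fun i => b * x i) (fun i => b * x i) = b ^ 2 * qb k x x := by
  simp only [qb]; ring

lemma qb_ks {R : Type} [CommRing R] (P : Pen R) (U : Fin 2 → R) (x : Fin 4 → R) :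
    qb (P.ks U) x x = P.ff 0 1 U * qb (P.kk 0 U) x x - P.ff 0 0 U * qb (P.kk 1 U) x x := by
  simp only [qb, Pen.ks]; ring

lemma qT_sc (hH : S_HOM) {K : Type} [Field K] (P : Pen K) (τ a b : K) (U : V2 K) (Y : V4 K) :
    qT P τ (fun i => a * U i) (fun i => b * Y i) = a ^ 7 * b ^ 2 * qT P τ U Y := by
  obtain ⟨-, -, -, -, -, -, h7, h8⟩ := hH K P a U
  simp only [qT, h7, h8, qb_sc, qb_sc0]
  ring

variable {X : ℕ → ℂ} {τ : ℂ} {C : Fin 70 → ℂ} {z r : Fin 4 → Om} {q : Fin 4 → Fin 6 → V4 Om}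

lemma onq (h : CurO X τ C z r q) (k : Fin 4) (j : Fin 6) : q k j 0 = 1 ∧
    tri ((PO X).G (oU C (z k))) (oY C (z k)) (oY C (z k)) (q k j) = 0 ∧
    qb ((PO X).ks (oU C (z k))) (q k j) (q k j) = 0 ∧
    tri ((PO X).G (oU C (z k))) (q k j) (q k j) (q k j) = 0 := (h.qa k _).2 ⟨j, rfl⟩

/-- If all weights that matter are equal, the contribution vanishes. -/
lemma const (hP : S_PSG) (hid : (Pen.of X).Id) (h : CurO X τ C z r q) (cl : PCl X) (k : Fin 4)
    (sp : Sp) (a : ℚ) (ha : ∀ j q', TV sp (q k j) q' → q' 0 = 1 →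
      cl.cls (rd sp (oU C (z k))) (rd sp (q k j)) = 0 ∨
      av sp (tri ((PO X).G (oU C (z k))) (oY C (z k)) (q k j) (q k j)) = a) :
    ctr cl C (z k) (q k) sp = 0 := by
  have h0 := hP X hid cl _ _ (q k) (h.be k) (h.f3 k) (h.isR k).1 (h.rt.y0 k) (h.g3 k) (h.gr k)
    (h.rq k) (h.qi k) (onq h k) sp
  rw [ctr, ← mul_zero a, ← h0, Finset.mul_sum]
  refine Finset.sum_congr rfl fun j _ => ?_
  rcases dich sp (onq h k j).1 with h1 | ⟨-, q', h1, h2⟩
  · rw [cl.bad _ _ (Or.inr (Or.inr (Or.inl h1))), mul_zero, mul_zero]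
  · rcases ha j q' h1 h2 with h3 | h3
    · rw [h3, mul_zero, mul_zero]
    · rw [h3]

lemma third (hP : S_PSG) (hH : S_HOM) (hid : (Pen.of X).Id) (h : CurO X τ C z r q) (cl : PCl X)
    (k : Fin 4) (sp : Sp)
    (h1 : av sp (r k) = 44 * mu sp (oU C (z k)) + 9 * mu sp (oY C (z k)))
    (h2 : av sp ((PO X).B (oU C (z k))) = 10 * mu sp (oU C (z k))) :
    ctr cl C (z k) (q k) sp = 0 := by
  refine const hP hid h cl k sp (4 * mu sp (oU C (z k)) + mu sp (oY C (z k))) fun j q' hq hq0 => ?_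
  obtain ⟨-, o1, o2, o3⟩ := onq h k j
  have hR := h.isR k
  have hr := h.r0 k
  have hB := h.be k
  have hT := h.qt k
  have hU0 : oU C (z k) ≠ 0 := fun e => h.rt.u0 k (congrFun e 0)
  have hY0 : oY C (z k) ≠ 0 := fun e => h.rt.y0 k (congrFun e 0)
  generalize oU C (z k) = U at *
  generalize oY C (z k) = Y at *
  generalize q k j = y at *
  have hU := tv_nz sp U
  have hY := tv_nz sp Y
  have ha : (nv sp U)⁻¹ ≠ 0 := inv_ne_zero (nv_ne_zero sp hU0)
  have hb : (nv sp Y)⁻¹ ≠ 0 := inv_ne_zero (nv_ne_zero sp hY0)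
  have ea : av sp (nv sp U)⁻¹ = -mu sp U := av_inv _ _
  have eb : av sp (nv sp Y)⁻¹ = -mu sp Y := av_inv _ _
  have hY' := rd_ne_zero sp hY0
  have hcl := cl.rd_eq hU (tv_one hq) (rd_ne_zero sp hU0) fun e => by simp [e] at hq0
  change TV sp (fun i => (nv sp U)⁻¹ * U i) _ at hU
  change TV sp (fun i => (nv sp Y)⁻¹ * Y i) _ at hY
  generalize (nv sp U)⁻¹ = a at *
  generalize (nv sp Y)⁻¹ = b at *
  generalize rd sp U = U' at *
  generalize rd sp Y = Y' at *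
  obtain ⟨g1, g2, -, -, g5, -⟩ := hH Om (PO X) a U
  have pm := pm_ct sp (Pen.of X)
  have hg := mem_G pm hU
  have hk := mem_ks pm hU
  have hB' := mem_B pm hU
  rw [g1] at hg
  rw [g2] at hk
  rw [g5] at hB'
  have ha4 := pow_ne_zero 4 ha
  have t1 := mem_tri hg hY hq hq
  rw [tri_sc] at t1
  by_cases h0 : tri ((Pen.of X).G U') Y' q' q' = 0
  · refine Or.inl ?_
    have hni : ¬ Ind Y' q' := fun hi => by
      have := thm_LA thm_RANY thm_RLN sp _ _ _ _ q' _ hg hY (thm_RSC Om _ _ _ b (a ^ 4) hR hb ha4)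
        ⟨hi, lim_zero (mem_tri hg hY hY hq) (by rw [tri_sc2, o1, mul_zero]), h0,
          lim_zero (mem_tri hg hq hq hq) (by rw [tri_sc0, o3, mul_zero])⟩
      have h9 := pow_ne_zero 9 hb
      have h11 := pow_ne_zero 11 ha4
      rw [← av_pos_iff (mul_ne_zero (mul_ne_zero h9 h11) hr), av_mul (mul_ne_zero h9 h11) hr,
        av_mul h9 h11, av_pow, av_pow, av_pow, ea, eb, h1] at this
      push_cast at this
      linarith
    have hp : plk Y' q' = 0 := not_not.mp hni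
    have hYq : Y' = fun i => Y' 0 * q' i := by
      have p0 := congrFun hp 0
      have p1 := congrFun hp 1
      have p2 := congrFun hp 2
      simp only [plk, v6_0, v6_1, v6_2, hq0, mul_one, Pi.zero_apply, sub_eq_zero] at p0 p1 p2
      funext i
      fin_cases i
      · simp [hq0]
      · exact p0.symm
      · exact p1.symm
      · exact p2.symm
    have hy0 : Y' 0 ≠ 0 := fun e => hY' (by rw [hYq, e]; funext i; simp)
    have hBu : (Pen.of X).B U' ≠ 0 := lim_ne hB' (by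
      rw [← av_eq_zero_iff (mul_ne_zero (pow_ne_zero _ ha) hB), av_mul (pow_ne_zero _ ha) hB,
        av_pow, ea, h2]
      push_cast
      ring)
    have k1 := lim_zero (mem_qb hk hq hq) (by rw [qb_sc0, o2, mul_zero])
    have hτ : (ct τ, τ) ∈ (spPl sp).G := Tends.const (v := sp.v) τ
    have k2 : qT (Pen.of X) τ U' Y' = 0 :=
      lim_zero (a := qT (PO X) (ct τ) (fun i => a * U i) fun i => b * Y i)
        (mem_sub (mem_mul (mem_add (mem_ff pm 1 1 hU) (mem_mul hτ (mem_ff pm 0 1 hU)))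
          (mem_qb (mem_kk pm 0 hU) hY hY))
          (mem_mul (mem_add (mem_ff pm 1 0 hU) (mem_mul hτ (mem_ff pm 0 0 hU)))
            (mem_qb (mem_kk pm 1 hU) hY hY))) (by rw [qT_sc hH, hT, mul_zero])
    rw [hYq] at k2
    simp only [qT, qb_sc] at k2
    rw [qb_ks] at k1
    rw [hcl]
    refine cl.bad _ _ (Or.inr (Or.inr (Or.inr fun i => ?_)))
    have hne := mul_ne_zero (pow_ne_zero 2 hy0) hBu
    refine (mul_eq_zero.mp ?_).resolve_left hne
    simp only [Pen.B, Pen.be]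
    fin_cases i
    · simp only [Fin.zero_eta]
      linear_combination (Pen.of X).ff 0 0 U' * k2 - Y' 0 ^ 2 *
        ((Pen.of X).ff 1 0 U' + τ * (Pen.of X).ff 0 0 U') * k1
    · simp only [Fin.mk_one]
      linear_combination (Pen.of X).ff 0 1 U' * k2 - Y' 0 ^ 2 *
        ((Pen.of X).ff 1 1 U' + τ * (Pen.of X).ff 0 1 U') * k1
  · refine Or.inr ?_
    have hv : sp.v (a ^ 4 * b * tri ((PO X).G U) Y y y) = 1 := Tends.eq_one t1 h0
    have hn : a ^ 4 * b * tri ((PO X).G U) Y y y ≠ 0 := fun e => by simp [e] at hv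
    have := av_of_v_one hv
    rw [av_mul (left_ne_zero_of_mul hn) (right_ne_zero_of_mul hn), av_mul ha4 hb, av_pow, ea,
      eb] at this
    push_cast at this
    linarith

lemma forty (hP : S_PSG) (hI : S_IDF) (hid : (Pen.of X).Id) (h : CurO X τ C z r q) (cl : PCl X)
    (k : Fin 4) {l : Fin 2 → ℂ} (hl : Good L40E L40O (Sum.elim X C) l)
    (hz : Tends (sec (some (l 0))).v (z k) (l 1))
    (hv : (sec (some (l 0))).v (r k) = (sec (some (l 0))).v ((PO X).B (oU C (z k))) ^ 2) :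
    ctr cl C (z k) (q k) (sec (some (l 0))) = 0 := by
  have hx := tends_sec (l 0)
  generalize sec (some (l 0)) = sp at *
  refine const hP hid h cl k sp (av sp ((PO X).B (oU C (z k)))) fun j q' hq hq0 => Or.inr ?_
  obtain ⟨-, o1, o2, o3⟩ := onq h k j
  have hC : MV (spPl sp).G (CO C) (sq C) := tv_ct sp _
  have hU : MV (spPl sp).G (oU C (z k)) (cU (sq C) (l 0) (l 1)) := mem_cU hC hx hz
  have hY : MV (spPl sp).G (oY C (z k)) (cY (sq C) (l 0) (l 1)) := mem_cY hC hx hz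
  have pm := pm_ct sp (Pen.of X)
  have e1 : (Pen.of X).B (cU (sq C) (l 0) (l 1)) = 0 := hl.eq 1
  have n1 : (Pen.of X).ff 0 0 (cU (sq C) (l 0) (l 1)) ≠ 0 := hl.op 1
  have n2 : (Pen.of X).nuv (cU (sq C) (l 0) (l 1)) ≠ 0 := hl.op 2
  have n3 : dot ((Pen.of X).Pl (cU (sq C) (l 0) (l 1))) (cY (sq C) (l 0) (l 1)) ≠ 0 := hl.op 3
  have n4 : tri ((Pen.of X).cs (cU (sq C) (l 0) (l 1))) (cY (sq C) (l 0) (l 1))
    (cY (sq C) (l 0) (l 1)) (cY (sq C) (l 0) (l 1)) ≠ 0 := hl.op 4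
  have hB := mem_B pm hU
  rw [e1] at hB
  have hd : Deg sp ((PO X).G (oU C (z k))) ((PO X).cs (oU C (z k))) ((PO X).ks (oU C (z k)))
      ((PO X).Pl (oU C (z k))) ((PO X).ff 0 0 (oU C (z k)) * (PO X).nuv (oU C (z k)))
      ((PO X).B (oU C (z k))) _ _ _ _ :=
    ⟨hI Om (PO X) _ fun b => hid.eq Om ct _ 0 b,
      Tends.eq_one (mem_mul (mem_ff pm 0 0 hU) (mem_nuv pm hU)) (mul_ne_zero n1 n2),
      Tends.zero_iff.mp hB, mem_G pm hU, mem_cs pm hU, mem_ks pm hU, mem_Pl pm hU⟩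
  have key := (thm_LC2 (thm_RB thm_RANY) sp _ _ _ _ _ _ _ _ _ _ _ _ _ hd hY n3 (h.isR k) (h.be k)
    hv).1 _ q' hq (fun e => by simp [e] at hq0) o1 o3 o2 n4
  refine (av_eq_iff (fun e => ?_) (h.be k)).mpr key
  rw [e, map_zero] at key
  exact h.be k ((Valuation.zero_iff _).mp key.symm)

lemma listed (hH : S_HOM) (h : CurO X τ C z r q) (cl : PCl X) (k : Fin 4) {l : Fin 7 → ℂ}
    (lz : L150E.Z (Sum.elim X C) l) (lo : L150O.NZ (Sum.elim X C) l)
    (hs : Simple X (l 0) (w4 (sq l)))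
    (hz : (z k, ct (l 6)) ∈ Cg (sec (some (l 5))) (un (sec (some (l 5)))))
    (hv : (sec (some (l 5))).v (r k) = (sec (some (l 5))).v (un (sec (some (l 5))))) :
    ctr cl C (z k) (q k) (sec (some (l 5))) = aX cl (l 0) (w4 (sq l)) := by
  have hx := lam_Cg (l 5) (pt_sec _)
  generalize sec (some (l 5)) = sp at *
  have hC : MV (Cg sp (un sp)) (CO C) (CO C) := fun i => Cg_ct _ _ _
  have hc := hom_ringHom ct
  have hU : Nr sp (un sp) (oU C (z k)) (cU (sq C) (l 5) (l 6)) := fun i => by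
    beta_reduce; rw [hc.cU]; exact mem_cU hC hx hz i
  have hY : Nr sp (un sp) (oY C (z k)) (cY (sq C) (l 5) (l 6)) := fun i => by
    beta_reduce; rw [hc.cY]; exact mem_cY hC hx hz i
  have e1 : l 0 * cU (sq C) (l 5) (l 6) 0 - cU (sq C) (l 5) (l 6) 1 = 0 := lz 1
  have e2 : cY (sq C) (l 5) (l 6) 2 - (cY (sq C) (l 5) (l 6) 0 * l 1
    + cY (sq C) (l 5) (l 6) 1 * l 3) = 0 := lz 2
  have e3 : cY (sq C) (l 5) (l 6) 3 - (cY (sq C) (l 5) (l 6) 0 * l 2
    + cY (sq C) (l 5) (l 6) 1 * l 4) = 0 := lz 3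
  have n1 : cU (sq C) (l 5) (l 6) 0 ≠ 0 := lo 1
  have n2 : cY (sq C) (l 5) (l 6) 0 ≠ 0 := lo 2
  have n4 : qB ((Pen.of X).ks (af (l 0))) (w4 (sq l)) ≠ 0 := lo 4
  have n5 : dsc ((Pen.of X).ks (af (l 0))) (w4 (sq l)) ≠ 0 := lo 5
  have n6 : resN ((Pen.of X).ks (af (l 0))) ((Pen.of X).G (af (l 0))) (cY (sq C) (l 5) (l 6))
    (w4 (sq l)) ≠ 0 := lo 6
  have ln : ∀ i, lnE ((Pen.of X).G (af (l 0))) (w4 (sq l)) i = 0 := hs.1
  have hR := h.isR k
  have hqa := h.qa k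
  have hon := onq h k
  unfold ctr aX
  generalize oU C (z k) = U at *
  generalize oY C (z k) = Y at *
  generalize cU (sq C) (l 5) (l 6) = U' at *
  generalize cY (sq C) (l 5) (l 6) = Y' at *
  have ha : ct (U' 0)⁻¹ ≠ 0 := (map_ne_zero ct).mpr (inv_ne_zero n1)
  have hU1 : Nr sp (un sp) (fun i => ct (U' 0)⁻¹ * U i) (af (l 0)) := fun i => by
    have e : af (l 0) i = (U' 0)⁻¹ * U' i := by
      fin_cases i
      · simp [n1]
      · simp only [Fin.mk_one, af_1]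
        field_simp
        linear_combination e1
    beta_reduce
    rw [e, map_mul]
    exact mem_mul (Cg_ct _ _ _) (hU i)
  obtain ⟨g1, g2, -⟩ := hH Om (PO X) (ct (U' 0)⁻¹) U
  have hg : Nr sp (un sp) (fun b => ct (U' 0)⁻¹ ^ 4 * (PO X).G U b) ((Pen.of X).G (af (l 0))) :=
    fun i => by
    rw [← g1]
    beta_reduce
    rw [hc.G]
    exact mem_G (pm_Cg sp _ _) hU1 i
  have hk : TV sp (fun b => ct (U' 0)⁻¹ ^ 7 * (PO X).ks U b) ((Pen.of X).ks (af (l 0))) := by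
    rw [← g2]
    exact mem_ks (pm_ct sp _) (hU1.tv (v_un_lt sp))
  have ha4 := pow_ne_zero 4 ha
  have ha7 := pow_ne_zero 7 ha
  have hv1 : sp.v (ct (U' 0)⁻¹) = 1 := (Tends.const _).eq_one (inv_ne_zero n1)
  have hR1 := thm_RSC Om _ _ _ 1 _ hR one_ne_zero ha4
  simp only [one_mul, one_pow] at hR1
  have key := thm_LB (thm_LE2 thm_RANY) (thm_LQ thm_RANY) (thm_UP thm_DEQ) thm_QU thm_AL sp _ _ Y _
    _ _ Y' (w4 (sq l)) (q k) (cl.cls (af (l 0))) hg hY hk hR1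
    (by rw [map_mul, map_pow, map_pow, hv1, one_pow, one_pow, one_mul, hv])
    (by
      funext i
      fin_cases i
      · simp [cb, lA, lB]
      · simp [cb, lA, lB]
      · exact sub_eq_zero.mp e2
      · exact sub_eq_zero.mp e3) n2 ln n6 n4 n5 (h.qi k)
    (fun y => by
      rw [← hqa y, tri_sc0, tri_sc0, qb_sc0, mul_eq_zero_iff_left ha4, mul_eq_zero_iff_left ha4,
        mul_eq_zero_iff_left ha7])
    (fun c y hc0 => by simpa using cl.smul 1 c (af (l 0)) y one_ne_zero hc0)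
  rw [← key]
  refine Finset.sum_congr rfl fun j _ => ?_
  obtain ⟨d, hd, ed⟩ := rd_of_tv (hU1.tv (v_un_lt sp)) fun e => by simpa using congrFun e 0
  have ecl : cl.cls (rd sp U) (rd sp (q k j)) = cl.cls (af (l 0)) (rd sp (q k j)) := by
    rw [ed]
    simpa using cl.smul d 1 (af (l 0)) (rd sp (q k j)) hd one_ne_zero
  rw [ecl]
  rcases dich sp (hon j).1 with h1 | ⟨h1, -⟩
  · rw [cl.bad _ _ (Or.inr (Or.inr (Or.inl h1))), mul_zero, mul_zero]
  · rw [h1, mul_zero, sub_zero, tri_sc0]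
    by_cases h0 : tri ((PO X).G U) Y (q k j) (q k j) = 0
    · rw [h0, mul_zero]
    · rw [av_mul ha4 h0, av_pow, av_ct, mul_zero, zero_add]

end CW1

theorem thm_CW1 (hP : S_PSG) (hC : S_CL0) (hI : S_IDF) (hH : S_HOM) : S_CW1 := by
  intro cd n X τ C J L l40 l24 z r q f hc ho hf cl
  refine ⟨fun j => CW1.listed hH ho cl (f j) (hc.lz j) (hc.lo j) (hC cd n X τ C J L l40 l24 hc j)
    (hf.2.1 j).1 (hf.2.1 j).2, fun c k hn => ?_⟩
  rcases hf.2.2 c k with h | ⟨i, rfl, h1, h2⟩ | ⟨h1, h2⟩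
  · exact absurd h hn
  · exact CW1.forty hP hI hc.hid ho cl k (hc.att.g40 i) h1 h2
  · exact CW1.third hP hH hc.hid ho cl k _ h1 h2

end Pool.Agent.P.MP_7ebcb6_ag.SC
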