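import Pool.Agent.P.MP_7ebcb6_ag.SC.St1

/-! Principal divisors on a Galois stable family of points have class zero. -/

set_option linter.unusedSectionVars false

open scoped WithZero IntermediateField Polynomial

namespace Pool.Agent.P.MP_7ebcb6_ag.SC

open G8 Polynomial Function

noncomputable section

namespace V3

/-- The uniformiser as a rational function. -/
def rf : Option ℂ → RatFunc ℂ
  | some c => RatFunc.X - algebraMap ℂ (RatFunc ℂ) c
  | none => RatFunc.X⁻¹

lemma rf_unc : ∀ c, algebraMap (RatFunc ℂ) Om (rf c) = unc c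
  | some c => by rw [rf, unc, map_sub, lam, ← IsScalarTower.algebraMap_apply]
  | none => by rw [rf, unc, map_inv₀, lam]

lemma unif_rf : ∀ c, Unif (rf c)
  | none => unif_inv
  | some c => by
    refine unif_of_poly (fun h => unc_ne_zero (some c) (by rw [← rf_unc, h, map_zero]))
      fun p hp => ?_
    obtain ⟨q, hq, hq'⟩ := Polynomial.exists_eq_pow_rootMultiplicity_mul_and_not_dvd p hp c
    refine ⟨p.rootMultiplicity c, fun sp hsp => ?_⟩
    rw [rf_unc] at hsp ⊢
    have h1 : Tends sp.v lam c := hsp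
    have h2 := (h1.aeval q).eq_one fun h => hq' (Polynomial.dvd_iff_isRoot.mpr h)
    conv_lhs => rw [hq]
    rw [map_mul, map_mul, h2, mul_one, map_pow, map_pow, map_sub, Polynomial.aeval_X,
      Polynomial.aeval_C, zpow_natCast]
    rfl

/-- The specialisation moved by an automorphism. -/
def cm (sp : Sp) (τ : Gal) : Sp where
  O := sp.O.comap (τ : Om →+* Om)
  const_mem c := by
    change τ (algebraMap ℂ Om c) ∈ sp.O
    rw [IsScalarTower.algebraMap_apply ℂ (RatFunc ℂ) Om, τ.commutes,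
      ← IsScalarTower.algebraMap_apply]
    exact sp.const_mem c
  ne_top h := sp.ne_top (eq_top_iff.mpr fun x _ => by
    have : τ.symm x ∈ sp.O.comap (τ : Om →+* Om) := h ▸ ValuationSubring.mem_top _
    change τ (τ.symm x) ∈ sp.O at this
    rwa [τ.apply_symm_apply] at this)

lemma cm_le (sp : Sp) (τ : Gal) (a : Om) : (cm sp τ).v a ≤ 1 ↔ sp.v (τ a) ≤ 1 :=
  ((cm sp τ).O.valuation_le_one_iff a).trans (sp.O.valuation_le_one_iff (τ a)).symm

lemma cm_lt (sp : Sp) (τ : Gal) (a : Om) : (cm sp τ).v a < 1 ↔ sp.v (τ a) < 1 :=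
  Valuation.IsEquiv.lt_one_iff_lt_one (v₁ := (cm sp τ).v) (v₂ := sp.v.comap (τ : Om →+* Om))
    (Valuation.isEquiv_iff_val_le_one.mpr fun {x} => cm_le sp τ x)

lemma cm_red (sp : Sp) (τ : Gal) {n : ℕ} {x y : Fin (n + 1) → Om} (hy : y ≠ 0)
    (h : ∀ m, τ (x m) = y m) : (spPl (cm sp τ)).Red x (rd sp y) := by
  obtain ⟨h0, c, hc⟩ := red_rd sp hy
  refine ⟨h0, τ.symm c, fun m => (cm_lt sp τ _).mpr ?_⟩
  rw [map_sub, map_mul, τ.apply_symm_apply, h, IsScalarTower.algebraMap_apply ℂ (RatFunc ℂ) Om,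
    τ.commutes, ← IsScalarTower.algebraMap_apply]
  exact hc m

lemma av_liesV {K : Type} [Field K] [Algebra ℂ K] {sp : Sp} {σ : K →ₐ[ℂ] Om}
    {w : Valuation K ℤᵐ⁰} (hl : LiesV sp σ w) {x y : K} (hx : x ≠ 0) (hy : σ y = un sp) :
    av sp (σ x) = (ord w x : ℚ) / ord w y := by
  have hy0 : y ≠ 0 := fun h => un_ne_zero sp (by rw [← hy, h, map_zero])
  have hpos := ord_pos_of_lt_one hy0 (hl.lt_one_iff_lt_one.mpr (by
    change sp.v (σ y) < 1
    rw [hy]; exact v_un_lt sp))
  obtain ⟨n, hn⟩ := Int.eq_ofNat_of_zero_le hpos.le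
  have h1 : w (x ^ n) = w (y ^ ord w x) := by
    have e1 : w x ≠ 0 := by simpa using hx
    have e2 : w y ≠ 0 := by simpa using hy0
    rw [map_pow, map_zpow₀, ← WithZero.exp_log e1, ← WithZero.exp_log e2, ← WithZero.exp_nsmul,
      ← WithZero.exp_zsmul, WithZero.exp_inj]
    simp only [ord] at hn ⊢
    rw [nsmul_eq_mul, ← hn, smul_eq_mul]
    ring
  have h2 : sp.v (σ (x ^ n)) = sp.v (σ (y ^ ord w x)) := (Valuation.IsEquiv.eq_iff hl).mp h1
  rw [map_pow, map_zpow₀, map_pow, map_zpow₀, hy] at h2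
  rw [av_of_pow ((map_ne_zero σ).mpr hx) (by omega) h2, hn]
  norm_cast

variable (K : IntermediateField (RatFunc ℂ) Om) [FiniteDimensional (RatFunc ℂ) K]

lemma exists_gal (σ : K →ₐ[RatFunc ℂ] Om) : ∃ τ : Gal, ∀ a : K, τ a = σ a :=
  ⟨AlgEquiv.ofBijective (σ.liftNormal Om) (AlgHom.normal_bijective (RatFunc ℂ) Om Om _),
    fun a => σ.liftNormal_commutes Om a⟩

lemma zeros (c : Option ℂ) : ∃ Z : Finset (Valuation K ℤᵐ⁰),
    (∀ w, w ∈ Z ↔ IsPlace w ∧ w (algebraMap _ K (rf c)) < 1) ∧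
      ∑ w ∈ Z, ord w (algebraMap _ K (rf c)) = Module.finrank (RatFunc ℂ) K := by
  have hC := isCurveField_finK K
  have htr : ∀ c, Transcendental ℂ (algebraMap _ K (rf c)) := fun c =>
    transcendental_of_notMem_range fun d hd => nonConst_unc c d (by
      rw [← rf_unc]; exact congrArg Subtype.val hd)
  have e0 : rf (some 0) = RatFunc.X := by simp [rf]
  have hadj : ℂ⟮algebraMap _ K (rf c)⟯ = ℂ⟮algebraMap _ K (rf (some 0))⟯ := by
    rw [e0]
    apply le_antisymm <;> rw [IntermediateField.adjoin_simple_le_iff]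
    · rcases c with _ | c
      · rw [rf, map_inv₀]
        exact inv_mem (IntermediateField.mem_adjoin_simple_self ℂ _)
      · rw [rf, map_sub, ← IsScalarTower.algebraMap_apply]
        exact sub_mem (IntermediateField.mem_adjoin_simple_self ℂ _)
          (IntermediateField.algebraMap_mem _ c)
    · rcases c with _ | c
      · have := inv_mem (IntermediateField.mem_adjoin_simple_self ℂ (algebraMap _ K (rf none)))
        rwa [rf, map_inv₀, inv_inv, ← map_inv₀] at this
      · have := add_mem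
          (IntermediateField.mem_adjoin_simple_self ℂ (algebraMap _ K (rf (some c))))
          (IntermediateField.algebraMap_mem _ c)
        rwa [IsScalarTower.algebraMap_apply ℂ (RatFunc ℂ) K c, ← map_add,
          show rf (some c) + algebraMap ℂ (RatFunc ℂ) c = RatFunc.X from sub_add_cancel _ _] at this
  obtain ⟨Z, hZ, e⟩ := hC.sum_ord_zeros (htr c)
  obtain ⟨Z0, hZ0, e1⟩ := hC.sum_ord_zeros (htr (some 0))
  have : FunctionField ℂ K := ‹FiniteDimensional (RatFunc ℂ) K›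
  have : IsScalarTower ℂ ℂ[X] K := IsScalarTower.of_algebraMap_eq fun c => by
    rw [IsScalarTower.algebraMap_apply ℂ[X] (RatFunc ℂ) K,
      ← IsScalarTower.algebraMap_apply ℂ ℂ[X] (RatFunc ℂ), ← IsScalarTower.algebraMap_apply]
  obtain ⟨Z1, hZ1, e2⟩ := sum_ord_X (K := K)
  have e3 : algebraMap ℂ[X] K X = algebraMap _ K (rf (some 0)) := by
    rw [e0, IsScalarTower.algebraMap_apply ℂ[X] (RatFunc ℂ) K, RatFunc.algebraMap_X]
  rw [e3] at hZ1 e2
  obtain rfl : Z0 = Z1 := Finset.ext fun w => (hZ0 w).trans (hZ1 w).symm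
  exact ⟨Z, hZ, by rw [e, hadj, ← e1, e2]⟩

lemma exists_pt : ∃ p : Valuation K ℤᵐ⁰ → Option ℂ, ∀ w, IsPlace w → ∀ c,
    (w (algebraMap _ K (rf c)) < 1 ↔ p w = c) := by
  have : ∀ w : Valuation K ℤᵐ⁰, ∃ d : Option ℂ, IsPlace w → ∀ c,
      (w (algebraMap _ K (rf c)) < 1 ↔ d = c) := fun w => by
    by_cases hw : IsPlace w
    · obtain ⟨sp, hl⟩ := exists_sp_lies K hw
      refine ⟨pt sp, fun _ c => (hl.lt_one _).trans ?_⟩
      rw [pt_eq_iff, ← rf_unc]
      rfl
    · exact ⟨none, fun h => absurd h hw⟩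
  exact ⟨_, fun w => (this w).choose_spec⟩

end V3

open V3 in
theorem thm_WF : S_WF := by
  classical
  intro On Bad cl ι _ U Y ψ hU hY hOn hψ hG
  choose δ hδ hδ' using fun i => cl.fam (U i) (Y i) (hU i) (hY i) (hOn i)
  choose T hT using hδ
  obtain ⟨K, hK, hsub⟩ := exists_finK (Finset.univ.biUnion T ∪ Finset.univ.image ψ)
  choose γ h1 h2 using fun i => hT i K hK fun a ha =>
    hsub a (Finset.mem_union_left _ (Finset.mem_biUnion.mpr ⟨i, Finset.mem_univ _, ha⟩))
  have hC := isCurveField_finK K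
  let f : ι → K := fun i => ⟨ψ i, hsub _ (Finset.mem_union_right _ (by simp))⟩
  have hf : ∀ i, f i ≠ 0 := fun i h => hψ i (congrArg Subtype.val h)
  choose D hD _ using fun i => hC.exists_divisor (hf i)
  obtain ⟨p, hp⟩ := exists_pt K
  let S := Finset.univ.biUnion D
  have hS : ∀ w ∈ S, IsPlace w := fun w hw => by
    obtain ⟨i, -, hi⟩ := Finset.mem_biUnion.mp hw
    exact ((hD i w).mp hi).1
  have hS' : ∀ i w, IsPlace w → w ∉ S → ord w (f i) = 0 := fun i w hw hwS =>
    ord_eq_zero_of_eq_one (by_contra fun h =>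
      hwS (Finset.mem_biUnion.mpr ⟨i, Finset.mem_univ _, (hD i w).mpr ⟨hw, h⟩⟩))
  have hN : (Module.finrank (RatFunc ℂ) K : ℚ) ≠ 0 := by exact_mod_cast Module.finrank_pos.ne'
  have key : ∀ c, ∑ i, av (sec c) (ψ i) * cl.cls (rd (sec c) (U i)) (rd (sec c) (Y i)) =
      (Module.finrank (RatFunc ℂ) K : ℚ)⁻¹ *
        ∑ w ∈ S.filter (fun w => p w = c), ∑ i, (ord w (f i) : ℚ) * γ i w := by
    intro c
    obtain ⟨Z, hZ, hsum⟩ := zeros K c
    obtain ⟨W, hW, e⟩ := sum_embeddings hC (unif_rf c) hZ hsum (sec c)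
      (by rw [rf_unc]; exact pt_eq_iff.mp (pt_sec c))
      fun w => ∑ i, (ord w (f i) : ℚ) / ord w (algebraMap _ K (rf c)) * γ i w
    have e1 : ∀ σ, ∑ i, (ord (W σ) (f i) : ℚ) / ord (W σ) (algebraMap _ K (rf c)) * γ i (W σ) =
        ∑ i, av (sec c) (ψ i) * cl.cls (rd (sec c) (U i)) (rd (sec c) (Y i)) := fun σ => by
      obtain ⟨τ, hτ⟩ := exists_gal K σ
      obtain ⟨e, he⟩ := hG τ
      rw [← e.sum_comp fun i => av (sec c) (ψ i) * cl.cls (rd (sec c) (U i)) (rd (sec c) (Y i))]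
      refine Finset.sum_congr rfl fun i _ => ?_
      have hl : Lies (cm (sec c) τ) K (W σ) := Valuation.isEquiv_iff_val_le_one.mpr fun {x} =>
        (hW σ).2.le_one_iff_le_one.trans (by
          change (sec c).v (σ x) ≤ 1 ↔ (cm (sec c) τ).v x ≤ 1
          rw [cm_le, hτ])
      rw [← h1 i _ _ (hW σ).1 hl, hδ' i _ _ _ (cm_red _ τ (hU (e i)) (he i).1)
        (cm_red _ τ (hY (e i)) (he i).2.1), ← av_liesV (hW σ).2 (hf i) (by
          rw [un_sec, ← rf_unc]; exact σ.commutes _), ← (he i).2.2]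
      exact congrArg (fun a => av (sec c) a * _) (hτ (f i)).symm
    have e2 : ∀ w ∈ Z, ord w (algebraMap _ K (rf c)) •
        ∑ i, (ord w (f i) : ℚ) / ord w (algebraMap _ K (rf c)) * γ i w =
          ∑ i, (ord w (f i) : ℚ) * γ i w := fun w hw => by
      have : (ord w (algebraMap _ K (rf c)) : ℚ) ≠ 0 := by
        exact_mod_cast (ord_pos_of_lt_one (by simpa using (unif_rf c).1) ((hZ w).mp hw).2).ne'
      rw [zsmul_eq_mul, Finset.mul_sum]
      exact Finset.sum_congr rfl fun i _ => by field_simp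
    rw [Finset.sum_congr rfl fun σ _ => e1 σ, Finset.sum_congr rfl e2, Finset.sum_const,
      Finset.card_univ, AlgHom.card, nsmul_eq_mul] at e
    rw [eq_inv_mul_iff_mul_eq₀ hN, e]
    refine (Finset.sum_subset (fun w hw => ?_) fun w hw hw' => ?_).symm
    · obtain ⟨h3, h4⟩ := Finset.mem_filter.mp hw
      exact (hZ w).mpr ⟨hS w h3, (hp w (hS w h3) c).mpr h4⟩
    · obtain ⟨h3, h4⟩ := (hZ w).mp hw
      refine Finset.sum_eq_zero fun i _ => ?_
      rw [hS' i w h3 fun h5 => hw' (Finset.mem_filter.mpr ⟨h5, (hp w h3 c).mp h4⟩)]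
      simp
  rw [finsum_eq_sum_of_support_subset (s := S.image p), Finset.sum_congr rfl fun c _ => key c,
    ← Finset.mul_sum, Finset.sum_fiberwise_of_maps_to fun w hw => Finset.mem_image_of_mem p hw,
    Finset.sum_comm, Finset.sum_eq_zero, mul_zero]
  · intro i _
    simpa only [zsmul_eq_mul] using h2 i (f i) S (hf i) hS (hS' i)
  · intro c hc
    by_contra h3
    refine hc ?_
    beta_reduce
    rw [key c, Finset.sum_eq_zero, mul_zero]
    intro w hw
    obtain ⟨h4, h5⟩ := Finset.mem_filter.mp hw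
    exact absurd (Finset.mem_coe.mpr (h5 ▸ Finset.mem_image_of_mem p h4)) h3

end

end Pool.Agent.P.MP_7ebcb6_ag.SC
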