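import Pool.Agent.P.MP_7ebcb6_ag.SC.St2
import Pool.Agent.P.MP_7ebcb6_ag.SC.V1
import Pool.Agent.P.MP_7ebcb6_ag.SC.V2
import Pool.Agent.P.MP_7ebcb6_ag.SC.V3
import Pool.Agent.P.MP_7ebcb6_ag.SC.R1

/-! The tangent sections along a curve have total class zero. -/

namespace Pool.Agent.P.MP_7ebcb6_ag.SC

open G8 Function

noncomputable section

namespace CW2

lemma hom_gal (τ : Gal) : Hom fun z : Om => τ z :=
  ⟨map_add τ, map_sub τ, map_mul τ, map_natCast τ⟩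

lemma gal_lam (τ : Gal) : τ lam = lam := τ.commutes _

lemma gal_ct (τ : Gal) (c : ℂ) : τ (ct c) = ct c := by
  rw [IsScalarTower.algebraMap_apply ℂ (RatFunc ℂ) Om, τ.commutes]

lemma gal_PO (τ : Gal) (X : ℕ → ℂ) : (PO X).map (fun z : Om => τ z) = PO X := by
  rw [Pen.map_map]
  simp only [gal_ct]

lemma gal_CO (τ : Gal) (C : Fin 70 → ℂ) : (fun i => τ (CO C i)) = CO C :=
  funext fun _ => gal_ct τ _

lemma gal_cf (τ : Gal) (C : Fin 70 → ℂ) (z : Om) :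
    τ (cf (CO C) lam z) = cf (CO C) lam (τ z) := by
  rw [(hom_gal τ).cf, gal_CO, gal_lam]

lemma gal_oU (τ : Gal) (C : Fin 70 → ℂ) (z : Om) : (fun m => τ (oU C z m)) = oU C (τ z) :=
  funext fun m => by rw [(hom_gal τ).cU, gal_CO, gal_lam]

lemma gal_oY (τ : Gal) (C : Fin 70 → ℂ) (z : Om) : (fun m => τ (oY C z m)) = oY C (τ z) :=
  funext fun m => by rw [(hom_gal τ).cY, gal_CO, gal_lam]

lemma gal_G (τ : Gal) (X : ℕ → ℂ) (C : Fin 70 → ℂ) (z : Om) :
    (fun b => τ ((PO X).G (oU C z) b)) = (PO X).G (oU C (τ z)) :=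
  funext fun b => by rw [(hom_gal τ).G, gal_PO, gal_oU]

lemma gal_ks (τ : Gal) (X : ℕ → ℂ) (C : Fin 70 → ℂ) (z : Om) :
    (fun b => τ ((PO X).ks (oU C z) b)) = (PO X).ks (oU C (τ z)) :=
  funext fun b => by rw [(hom_gal τ).ks, gal_PO, gal_oU]

/-- A vector that depends on a point of a quadric lies on the quadric. -/
lemma qb_of_dep {K : Type} [Field K] (k : Fin 6 → K) {x y : V4 K} (hy : y 0 = 1)
    (h : plk x y = 0) (hq : qb k y y = 0) : qb k x x = 0 := by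
  have h1 : x 0 * y 1 - x 1 * y 0 = 0 := congrFun h 0
  have h2 : x 0 * y 2 - x 2 * y 0 = 0 := congrFun h 1
  have h3 : x 0 * y 3 - x 3 * y 0 = 0 := congrFun h 2
  rw [hy, mul_one, sub_eq_zero] at h1 h2 h3
  have : qb k x x = x 0 ^ 2 * qb k y y := by
    simp only [qb, ← h1, ← h2, ← h3, hy]
    ring
  rw [this, hq, mul_zero]

end CW2

open CW2

theorem thm_CW2 (hON : S_ON) : S_CW2 := by
  intro X τ C z r q hid h cl
  have hq : ∀ k j, q k j 0 = 1 ∧
      tri ((PO X).G (oU C (z k))) (oY C (z k)) (oY C (z k)) (q k j) = 0 ∧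
      qb ((PO X).ks (oU C (z k))) (q k j) (q k j) = 0 ∧
      tri ((PO X).G (oU C (z k))) (q k j) (q k j) (q k j) = 0 :=
    fun k j => (h.qa k (q k j)).2 ⟨j, rfl⟩
  have key := thm_WF _ _ cl (Fin 4 × Fin 6) (fun i => oU C (z i.1)) (fun i => q i.1 i.2)
    (fun i => tri ((PO X).G (oU C (z i.1))) (oY C (z i.1)) (q i.1 i.2) (q i.1 i.2))
    (fun i e => h.rt.u0 i.1 (congrFun e 0))
    (fun i e => one_ne_zero ((hq i.1 i.2).1.symm.trans (congrFun e 0)))
    (fun i => hON X hid _ _ (h.be i.1) (h.f3 i.1) (hq i.1 i.2).2.2.1 (hq i.1 i.2).2.2.2)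
    (fun i e => ?_) (fun σ => ?_)
  · simpa only [Fintype.sum_prod_type, ctr] using key
  · by_cases hI : Ind (oY C (z i.1)) (q i.1 i.2)
    · exact h.r0 i.1 (thm_RLN Om _ _ _ _ (h.isR i.1)
        ⟨hI, (hq i.1 i.2).2.1, e, (hq i.1 i.2).2.2.2⟩)
    · exact h.qs i.1 (qb_of_dep _ (hq i.1 i.2).1 (not_not.mp hI) (hq i.1 i.2).2.2.1)
  · obtain ⟨e, he⟩ := thm_PERM (Om × V4 Om) (Fin 4 × Fin 6) (fun i => (z i.1, q i.1 i.2))
      (fun p => (σ p.1, fun m => σ (p.2 m)))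
      (fun i i' e => by
        obtain ⟨k, j⟩ := i
        obtain ⟨k', j'⟩ := i'
        obtain rfl : k = k' := h.rt.inj (congrArg Prod.fst e)
        exact congrArg _ (h.qi k (congrArg Prod.snd e)))
      (fun p p' e => Prod.ext (σ.injective (congrArg Prod.fst e))
        (funext fun m => σ.injective (congrFun (congrArg Prod.snd e) m)))
      (fun i => by
        obtain ⟨k', hk'⟩ := (h.rt.all (σ (z i.1))).1 (by
          rw [← gal_cf, (h.rt.all (z i.1)).2 ⟨_, rfl⟩, map_zero])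
        obtain ⟨h1, h2, h3, h4⟩ := hq i.1 i.2
        obtain ⟨j', hj'⟩ := (h.qa k' fun m => σ (q i.1 i.2 m)).1 ⟨by rw [h1, map_one], by
          rw [hk', ← gal_G, ← gal_oY, ← (hom_gal σ).tri, h2, map_zero], by
          rw [hk', ← gal_ks, ← (hom_gal σ).qb, h3, map_zero], by
          rw [hk', ← gal_G, ← (hom_gal σ).tri, h4, map_zero]⟩
        exact ⟨(k', j'), Prod.ext hk'.symm hj'.symm⟩)
    refine ⟨e, fun i => ?_⟩
    have e1 : σ (z i.1) = z (e i).1 := congrArg Prod.fst (he i)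
    have e2 : (fun m => σ (q i.1 i.2 m)) = q (e i).1 (e i).2 := congrArg Prod.snd (he i)
    refine ⟨fun m => ?_, fun m => congrFun e2 m, ?_⟩
    · rw [← e1]
      exact congrFun (gal_oU σ C (z i.1)) m
    · rw [(hom_gal σ).tri, gal_G, gal_oY, e1, e2]

theorem thm_CUR (hON : S_ON) (hCZ : S_CZ) (hCB : S_CB) (hCW1 : S_CW1) : S_CUR := by
  intro cd n X τ C J L l40 l24 h cl
  obtain ⟨z, r, q, hO⟩ := hCZ cd n X τ C J L l40 l24 h
  obtain ⟨f, hf⟩ := hCB cd n X τ C J L l40 l24 z r q h hO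
  obtain ⟨h1, h2⟩ := hCW1 cd n X τ C J L l40 l24 z r q f h hO hf cl
  have h3 := thm_CW2 hON X τ C z r q h.hid hO cl
  rw [thm_LST (Fin 4) (Fin 150) (fun c k => ctr cl C (z k) (q k) (sec c))
    (fun j => (some (L j 5), f j))
    (fun j j' e => hf.1 (Prod.ext (Option.some.inj (Prod.mk.inj e).1) (Prod.mk.inj e).2))
    (fun c k hn => h2 c k fun ⟨j, e1, e2⟩ => hn ⟨j, Prod.ext e1.symm e2.symm⟩)] at h3
  simpa only [h1] using h3

end

end Pool.Agent.P.MP_7ebcb6_ag.SC
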