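import Pool.Agent.P.MP_7ebcb6_ag.SC.St2

/-! The curve lies on the member. -/

namespace Pool.Agent.P.MP_7ebcb6_ag.SC

open Polynomial

namespace E1

variable {K : Type} [Field K]

/-- A model of the quartic algebra. -/
structure Mod (c : Fin 4 → K) {A : Type} [CommRing A] (φ : K →+* A) (z : A) : Prop where
  rel : z ^ 4 = φ (c 0) + φ (c 1) * z + φ (c 2) * z ^ 2 + φ (c 3) * z ^ 3
  ind : ∀ a0 a1 a2 a3 : K, φ a0 + φ a1 * z + φ a2 * z ^ 2 + φ a3 * z ^ 3 = 0 →
    a0 = 0 ∧ a1 = 0 ∧ a2 = 0 ∧ a3 = 0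

lemma exists_mod (c : Fin 4 → K) :
    ∃ (A : Type) (_ : CommRing A) (φ : K →+* A) (z : A), Mod c φ z := by
  let f : K[X] := X ^ 4 - (C (c 0) + C (c 1) * X + C (c 2) * X ^ 2 + C (c 3) * X ^ 3)
  have hf : f.natDegree = 4 := by
    simp only [f]
    compute_degree!
  refine ⟨AdjoinRoot f, inferInstance, AdjoinRoot.of f, AdjoinRoot.root f, ?_,
    fun a0 a1 a2 a3 h => ?_⟩
  · have h : AdjoinRoot.mk f (X ^ 4 - (C (c 0) + C (c 1) * X + C (c 2) * X ^ 2 + C (c 3) * X ^ 3))
      = 0 := AdjoinRoot.mk_self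
    simp only [map_sub, map_add, map_mul, map_pow, AdjoinRoot.mk_X, AdjoinRoot.mk_C] at h
    exact sub_eq_zero.mp h
  · have h1 : AdjoinRoot.mk f (C a0 + C a1 * X + C a2 * X ^ 2 + C a3 * X ^ 3) = 0 := by
      simpa only [map_add, map_mul, map_pow, AdjoinRoot.mk_X, AdjoinRoot.mk_C] using h
    have h2 : (C a0 + C a1 * X + C a2 * X ^ 2 + C a3 * X ^ 3 : K[X]).natDegree ≤ 3 := by
      compute_degree
    have h3 := eq_zero_of_dvd_of_natDegree_lt (AdjoinRoot.mk_eq_zero.mp h1) (by omega)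
    refine ⟨?_, ?_, ?_, ?_⟩
    · simpa using congrArg (coeff · 0) h3
    · simpa [coeff_X, coeff_C, coeff_X_pow] using congrArg (coeff · 1) h3
    · simpa [coeff_X, coeff_C, coeff_X_pow] using congrArg (coeff · 2) h3
    · simpa [coeff_X, coeff_C, coeff_X_pow] using congrArg (coeff · 3) h3

section model

variable {c : Fin 4 → K} {A : Type} [CommRing A] {φ : K →+* A} {z : A}

lemma Mod.hom (h : Mod c φ z) : Hom (Q4.ev φ z (c := c)) := (hom_ringHom φ).q4ev h.rel

lemma ev_sc (a : K) : Q4.ev φ z (Q4.sc c a) = φ a := by simp [Q4.ev, Q4.sc]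

lemma ev_zg : Q4.ev φ z (zg c) = z := by simp [Q4.ev, zg]

lemma Mod.co_sum (h : Mod c φ z) (q : Q4 c) (n : ℕ) (N : ℕ → K) (qs : ℕ → Q4 c)
    (e : Q4.ev φ z q = ∑ s ∈ Finset.range n, φ (N s) * Q4.ev φ z (qs s)) (j : Fin 4) :
    q.co j = ∑ s ∈ Finset.range n, N s * (qs s).co j := by
  have e2 : ∑ s ∈ Finset.range n, φ (N s) * Q4.ev φ z (qs s) =
      φ (∑ s ∈ Finset.range n, N s * (qs s).x0) + φ (∑ s ∈ Finset.range n, N s * (qs s).x1) * z
      + φ (∑ s ∈ Finset.range n, N s * (qs s).x2) * z ^ 2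
      + φ (∑ s ∈ Finset.range n, N s * (qs s).x3) * z ^ 3 := by
    simp only [map_sum, map_mul, Finset.sum_mul, ← Finset.sum_add_distrib, Q4.ev]
    exact Finset.sum_congr rfl fun s _ => by ring
  obtain ⟨h0, h1, h2, h3⟩ := h.ind (q.x0 - ∑ s ∈ Finset.range n, N s * (qs s).x0)
    (q.x1 - ∑ s ∈ Finset.range n, N s * (qs s).x1)
    (q.x2 - ∑ s ∈ Finset.range n, N s * (qs s).x2)
    (q.x3 - ∑ s ∈ Finset.range n, N s * (qs s).x3) (by
      rw [e2, Q4.ev] at e
      simp only [map_sub]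
      linear_combination e)
  fin_cases j
  · exact sub_eq_zero.mp h0
  · exact sub_eq_zero.mp h1
  · exact sub_eq_zero.mp h2
  · exact sub_eq_zero.mp h3

/-- The monomial `a z ^ l`. -/
noncomputable def mono (c : Fin 4 → K) (l : ℕ) (a : K) : Q4 c :=
  ⟨if l = 0 then a else 0, if l = 1 then a else 0, if l = 2 then a else 0, if l = 3 then a else 0⟩

lemma ev_mono {l : ℕ} (hl : l ≤ 3) (a : K) : Q4.ev φ z (mono c l a) = φ a * z ^ l := by
  interval_cases l <;> simp [Q4.ev, mono]

lemma co_mono (l : ℕ) (a : K) (j : Fin 4) : (mono c l a).co j = if l = j.val then a else 0 := by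
  fin_cases j <;> rfl

lemma Mod.cf (C : ℕ → K) (x : K) (h : Mod (cq C x) φ z) : cf (fun i => φ (C i)) (φ x) z = 0 := by
  have := h.rel
  simp only [(hom_ringHom φ).cq] at this
  unfold SC.cf
  linear_combination this

lemma Mod.ev_fT (C : ℕ → K) (P : Pen K) (t : K) (k : Fin 3) (x : K) (h : Mod (cq C x) φ z) :
    Q4.ev φ z (fT C P t k x) = cT (fun i => φ (C i)) (P.map φ) (φ t) k (φ x) z := by
  simp only [fT, h.hom.cT, ev_sc, ev_zg, Pen.map_map]

lemma Mod.ev_fG (C : ℕ → K) (P : Pen K) (p : Fin 6) (x : K) (h : Mod (cq C x) φ z) :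
    Q4.ev φ z (fG C P p x) = tri ((P.map φ).gg p (cU (fun i => φ (C i)) (φ x) z))
      (cY (fun i => φ (C i)) (φ x) z) (cY (fun i => φ (C i)) (φ x) z)
      (cY (fun i => φ (C i)) (φ x) z) := by
  simp only [fG, h.hom.tri, h.hom.gg, h.hom.cU, h.hom.cY, ev_sc, ev_zg, Pen.map_map]

end model

lemma hom_x0 : Hom (Q4.x0 : Q4 (j0 : Fin 4 → K) → K) where
  add _ _ := rfl
  sub _ _ := rfl
  mul x y := by
    change (Q4.mul x y).x0 = _
    simp [Q4.mul, j0]
  nat _ := rfl

lemma ej_le (s : ℕ) : ej s ≤ 3 := by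
  unfold ej
  cases Nat.ble (s % 66) 17 <;> cases Nat.ble (s % 66) 34 <;> cases Nat.ble (s % 66) 50 <;> simp

lemma tri_zero {R : Type} [CommRing R] (a b c : Fin 4 → R) : tri (fun _ => 0) a b c = 0 := by
  simp only [tri]; ring

lemma tri_smul {R : Type} [CommRing R] (g : Fin 20 → R) (e : R) (y : Fin 4 → R) :
    tri g (fun i => e * y i) (fun i => e * y i) (fun i => e * y i) = e ^ 3 * tri g y y y := by
  simp only [tri]; ring

lemma tri_lin {R : Type} [CommRing R] (g g' : Fin 20 → R) (t : R) (y : Fin 4 → R) :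
    tri (fun b => g b + t * g' b) y y y = tri g y y y + t * tri g' y y y := by
  simp only [tri]; ring

lemma cond_beq {R : Type} [Zero R] (a b : ℕ) (p : Bool) (x : R) :
    cond (Nat.beq a b && p) x 0 = if a = b then cond p x 0 else 0 := by
  by_cases h : a = b
  · subst h
    simp [Nat.beq_refl]
  · have : Nat.beq a b = false := by
      rw [← Bool.not_eq_true]
      exact fun e => h (Nat.eq_of_beq_eq_true e)
    simp [this, h]

/-- The normal form property. -/
def NFp (C : ℕ → K) (P : Pen K) (τ : K) (N : ℕ → K) : Prop :=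
  ∀ (A : Type) [CommRing A] (φ : K →+* A) (x z : A), cf (fun i => φ (C i)) x z = 0 →
    ∀ k : Fin 3, cT (fun i => φ (C i)) (P.map φ) (φ τ) k x z
      = ∑ s ∈ Finset.range 198, if ek s = k.val then φ (N s) * (x ^ ei s * z ^ ej s) else 0

variable {C : ℕ → K} {P : Pen K} {τ : K} {N : ℕ → K}

lemma row1 (hN : NFp C P τ N) (k : Fin 3) (x : K) (j : Fin 4) (h : fTc C P τ k x j = 0) :
    ∑ s ∈ Finset.range 198,
      cond (Nat.beq (ek s) k.val && Nat.beq (ej s) j.val) (pw x (ei s)) ((0 : ℕ) : K) * N s = 0 := by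
  obtain ⟨A, _, φ, z, hm⟩ := exists_mod (cq C x)
  have e := hm.co_sum (fT C P τ k x) 198 (fun s => if ek s = k.val then N s else 0)
    (fun s => mono _ (ej s) (x ^ ei s)) (by
      rw [hm.ev_fT, hN A φ _ _ (hm.cf C x) k]
      refine Finset.sum_congr rfl fun s _ => ?_
      rw [ev_mono (ej_le s), map_pow]
      split_ifs
      · rfl
      · rw [map_zero, zero_mul]) j
  refine Eq.trans (Finset.sum_congr rfl fun s _ => ?_) (e.symm.trans h)
  rw [Nat.cast_zero, cond_beq, co_mono, ← Bool.and_true (Nat.beq _ _), cond_beq, pw_eq]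
  split_ifs <;> simp [mul_comm]

lemma row2 (hN : NFp C P τ N) (J : Fin 10 × Fin 3 → K) (k : Fin 3) (b : Fin 10) (j : Fin 4)
    (h0 : cf C (bx C b.val) (bz C b.val) = 0) (hJ : ∀ l : Fin 3, jcc C J b l.succ = 0)
    (hY : 4 ≤ b.val → ∀ m, cY C (bx C b.val) (bz C b.val) m = 0) :
    ∑ s ∈ Finset.range 198, cond (Nat.beq (ek s) k.val && (Nat.ble b.val 3 || Nat.ble j.val 2))
      (jmc C J b (ei s) (ej s) j) ((0 : ℕ) : K) * N s = 0 := by
  obtain ⟨A, _, φ, ε, hm⟩ := exists_mod (j0 : Fin 4 → K)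
  have hε : ε ^ 4 = 0 := by simpa [j0] using hm.rel
  have hdiv : ∀ q : Q4 (j0 : Fin 4 → K), q.x0 = 0 → ∃ y, Q4.ev φ ε q = ε * y := fun q hq =>
    ⟨φ q.x1 + φ q.x2 * ε + φ q.x3 * ε ^ 2, by rw [Q4.ev, hq, map_zero]; ring⟩
  have hsc : ∀ a : K, (Q4.sc (j0 : Fin 4 → K) a).x0 = a := fun _ => rfl
  have hx : (jx C b.val).x0 = bx C b.val := rfl
  have hz : (jz C J b).x0 = bz C b.val := rfl
  set x := Q4.ev φ ε (jx C b.val) with hxd
  set z := Q4.ev φ ε (jz C J b) with hzd
  have hcf : cf (fun i => φ (C i)) x z = 0 := by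
    have e1 : cf (fun i => φ (C i)) x z =
        Q4.ev φ ε (cf (fun i => Q4.sc j0 (C i)) (jx C b.val) (jz C J b)) := by
      simp only [hm.hom.cf, ev_sc, hxd, hzd]
    have e2 : (cf (fun i => Q4.sc j0 (C i)) (jx C b.val) (jz C J b)).x0 = 0 := by
      rw [hom_x0.cf]
      exact h0
    have e3 : (cf (fun i => Q4.sc j0 (C i)) (jx C b.val) (jz C J b)).x1 = 0 := hJ 0
    have e4 : (cf (fun i => Q4.sc j0 (C i)) (jx C b.val) (jz C J b)).x2 = 0 := hJ 1
    have e5 : (cf (fun i => Q4.sc j0 (C i)) (jx C b.val) (jz C J b)).x3 = 0 := hJ 2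
    rw [e1, Q4.ev, e2, e3, e4, e5]
    simp
  set T := cT (fun i => Q4.sc j0 (C i)) (P.map (Q4.sc j0)) (Q4.sc j0 τ) k (jx C b.val) (jz C J b)
    with hT
  have eT : Q4.ev φ ε T = cT (fun i => φ (C i)) (P.map φ) (φ τ) k x z := by
    simp only [hT, hm.hom.cT, ev_sc, Pen.map_map, hxd, hzd]
  have e := hm.co_sum T 198 (fun s => if ek s = k.val then N s else 0)
    (fun s => pw (jx C b.val) (ei s) * pw (jz C J b) (ej s)) (by
      rw [eT, hN A φ _ _ hcf k]
      refine Finset.sum_congr rfl fun s _ => ?_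
      rw [hm.hom.mul, hm.hom.pw, hm.hom.pw, pw_eq, pw_eq]
      split_ifs
      · rfl
      · rw [map_zero, zero_mul]) j
  cases hp : (Nat.ble b.val 3 || Nat.ble j.val 2)
  · simp
  have hT0 : T.co j = 0 := by
    by_cases hb : b.val ≤ 3
    · have hU : ∀ i, ∃ y, cU (fun i => φ (C i)) x z i = ε * y := by
        intro i
        have e1 : cU (fun i => φ (C i)) x z i =
            Q4.ev φ ε (cU (fun i => Q4.sc j0 (C i)) (jx C b.val) (jz C J b) i) := by
          simp only [hm.hom.cU, ev_sc, hxd, hzd]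
        rw [e1]
        refine hdiv _ ?_
        rw [hom_x0.cU, hx, hz]
        generalize b.val = b' at hb
        fin_cases i <;> interval_cases b' <;> simp [cU, bx, bz, Nat.ble]
      choose u hu using hU
      have hg : ∀ p, (P.map φ).gg p (cU (fun i => φ (C i)) x z) = fun _ => 0 := by
        intro p
        funext b'
        rw [funext hu, Pen.gg, bf_smul, hε, zero_mul]
      have h1 : gT (P.map φ) (φ τ) k (cU (fun i => φ (C i)) x z) = fun _ => 0 := by
        funext b'
        simp [gT, hg]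
      rw [cT, h1, tri_zero] at eT
      obtain ⟨a0, a1, a2, a3⟩ := hm.ind _ _ _ _ eT
      fin_cases j
      exacts [a0, a1, a2, a3]
    · have hj : j.val ≤ 2 := by
        rw [Bool.or_eq_true, Nat.ble_eq, Nat.ble_eq] at hp
        exact hp.resolve_left hb
      have hV : ∀ i, ∃ y, cY (fun i => φ (C i)) x z i = ε * y := by
        intro i
        have e1 : cY (fun i => φ (C i)) x z i =
            Q4.ev φ ε (cY (fun i => Q4.sc j0 (C i)) (jx C b.val) (jz C J b) i) := by
          simp only [hm.hom.cY, ev_sc, hxd, hzd]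
        rw [e1]
        refine hdiv _ ?_
        rw [hom_x0.cY, hx, hz]
        exact hY (by omega) i
      choose y hy using hV
      rw [cT, funext hy, tri_smul, Q4.ev] at eT
      obtain ⟨-, a0, a1, a2⟩ := hm.ind 0 T.x0 T.x1 T.x2 (by
        rw [map_zero]
        linear_combination ε * eT + (tri (gT (P.map φ) (φ τ) k (cU (fun i => φ (C i)) x z)) y y y
          - φ T.x3) * hε)
      fin_cases j
      · exact a0
      · exact a1
      · exact a2
      · simp at hj
  refine Eq.trans (Finset.sum_congr rfl fun s _ => ?_) (e.symm.trans hT0)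
  rw [Nat.cast_zero, cond_beq, jmc]
  split_ifs <;> simp [mul_comm]

lemma row3 (hP : S_PLK) (hid : P.Id) (hN : NFp C P τ N) (x : K) (j : Fin 4) :
    ∑ s ∈ Finset.range 198, fEc C P (ek s) (ei s) (ej s) x j * N s = 0 := by
  obtain ⟨A, _, φ, z, hm⟩ := exists_mod (cq C x)
  have e := hm.co_sum (mono _ 0 0) 198 N
    (fun s => pw (Q4.sc (cq C x) x) (ei s) * (pw (zg (cq C x)) (ej s) * fH C P (ek s) x)) (by
      have h0 := hN A φ _ _ (hm.cf C x) 0
      have h1 := hN A φ _ _ (hm.cf C x) 1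
      have h2 := hN A φ _ _ (hm.cf C x) 2
      have hpl := hP K P hid A φ (cU (fun i => φ (C i)) (φ x) z) (cY (fun i => φ (C i)) (φ x) z)
      have g0 : gT (P.map φ) (φ τ) 0 (cU (fun i => φ (C i)) (φ x) z) =
        (P.map φ).gg 0 (cU (fun i => φ (C i)) (φ x) z) := rfl
      have g1 : gT (P.map φ) (φ τ) 1 (cU (fun i => φ (C i)) (φ x) z) = fun b =>
        (P.map φ).gg 3 (cU (fun i => φ (C i)) (φ x) z) b
          + φ τ * (P.map φ).gg 1 (cU (fun i => φ (C i)) (φ x) z) b := rfl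
      have g2 : gT (P.map φ) (φ τ) 2 (cU (fun i => φ (C i)) (φ x) z) = fun b =>
        (P.map φ).gg 4 (cU (fun i => φ (C i)) (φ x) z) b
          + φ τ * (P.map φ).gg 2 (cU (fun i => φ (C i)) (φ x) z) b := rfl
      rw [cT, g0] at h0
      rw [cT, g1, tri_lin] at h1
      rw [cT, g2, tri_lin] at h2
      simp only [← hm.ev_fG C P _ x] at h0 h1 h2 hpl
      have key : ∑ s ∈ Finset.range 198, φ (N s) * Q4.ev φ z
          (pw (Q4.sc (cq C x) x) (ei s) * (pw (zg (cq C x)) (ej s) * fH C P (ek s) x)) =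
          (∑ s ∈ Finset.range 198, if ek s = (0 : Fin 3).val then
              φ (N s) * (φ x ^ ei s * z ^ ej s) else 0) * Q4.ev φ z (fG C P 5 x)
          + (∑ s ∈ Finset.range 198, if ek s = (1 : Fin 3).val then
              φ (N s) * (φ x ^ ei s * z ^ ej s) else 0) * Q4.ev φ z (fG C P 2 x)
          - (∑ s ∈ Finset.range 198, if ek s = (2 : Fin 3).val then
              φ (N s) * (φ x ^ ei s * z ^ ej s) else 0) * Q4.ev φ z (fG C P 1 x) := by
        rw [Finset.sum_mul, Finset.sum_mul, Finset.sum_mul, ← Finset.sum_add_distrib,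
          ← Finset.sum_sub_distrib]
        refine Finset.sum_congr rfl fun s hs => ?_
        have hs3 : ek s < 3 := by
          have := Finset.mem_range.mp hs
          unfold ek
          omega
        rw [hm.hom.mul, hm.hom.mul, hm.hom.pw, hm.hom.pw, pw_eq, pw_eq, ev_sc, ev_zg]
        generalize ek s = k at hs3
        interval_cases k
        · have : fH C P 0 x = fG C P 5 x := rfl
          rw [this]
          simp only [Fin.val_zero, Fin.val_one, Fin.val_two, if_true, zero_ne_one, if_false,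
            OfNat.zero_ne_ofNat]
          ring
        · have : fH C P 1 x = fG C P 2 x := rfl
          rw [this]
          simp only [Fin.val_zero, Fin.val_one, Fin.val_two, if_true, one_ne_zero, if_false,
            OfNat.one_ne_ofNat]
          ring
        · have : fH C P 2 x = ng (fG C P 1 x) := rfl
          rw [this, hm.hom.ng, ng_eq]
          simp only [Fin.val_zero, Fin.val_one, Fin.val_two, if_true, OfNat.ofNat_ne_zero,
            OfNat.ofNat_ne_one, if_false]
          ring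
      rw [key, ← h0, ← h1, ← h2, ev_mono (by norm_num), map_zero, zero_mul]
      linear_combination -hpl) j
  rw [co_mono, ite_self] at e
  refine Eq.trans (Finset.sum_congr rfl fun s _ => ?_) e.symm
  rw [fEc, mul_comm]

end E1

open E1

theorem thm_E1 (hNF : S_NF) (hP : S_PLK) : S_E1 := by
  intro cd n X τ C J hid hC hJ hE
  obtain ⟨N, hN⟩ := hNF ℂ (sq C) (Pen.of X) τ
  have hN0 := hE (fun s => N s.val) fun t => by
    rw [Fin.sum_univ_eq_sum_range (fun s => (E198 cd n).ev (Sum.elim X (Sum.elim C J)) nox (t, s)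
      * N s) 198]
    rcases t with r | ⟨k, b, j⟩ | ⟨i, j⟩
    · exact row1 hN _ _ _ (hC (.inl r))
    · refine row2 hN J k b j (hC (.inr (.inl b))) (fun l => hJ (b, l)) fun hb m => ?_
      have := hC (.inr (.inr (.inl (⟨b.val - 4, by omega⟩, m))))
      have e : 4 + (b.val - 4) = b.val := by omega
      change cY (sq C) (bx (sq C) (4 + (b.val - 4))) (bz (sq C) (4 + (b.val - 4))) m = 0 at this
      rwa [e] at this
    · exact row3 hP hid hN _ j
  intro A _ φ x z hz k
  rw [hN A φ x z hz k]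
  refine Finset.sum_eq_zero fun s hs => ?_
  have : N s = 0 := congrFun hN0 ⟨s, Finset.mem_range.mp hs⟩
  rw [this, map_zero, zero_mul, ite_self]

end Pool.Agent.P.MP_7ebcb6_ag.SC
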