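import Pool.Agent.P.MP_7ebcb6_ag.SC.St3
import Pool.Agent.P.MP_7ebcb6_ag.Select

/-! A form that vanishes at the exceptional points of the projective model. -/

open scoped LinearAlgebra.Projectivization

namespace Pool.Agent.P.MP_7ebcb6_ag.SC

open MvPolynomial

namespace F

theorem ae {σ : Type} (x : σ → ℂ) (p : MvPolynomial σ ℂ) : aeval x p = eval x p := rfl

theorem form_smul {d : ℕ} (c : Fin (d + 1) → ℂ) (α : ℂ) (U : Fin 2 → ℂ) :
    form c (fun i => α * U i) = α ^ d * form c U := by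
  rw [form, form, Finset.mul_sum]
  refine Finset.sum_congr rfl fun i _ => ?_
  have : α ^ d = α ^ (d - i) * α ^ (i : ℕ) := by
    rw [← pow_add, Nat.sub_add_cancel (Nat.le_of_lt_succ i.2)]
  rw [this, mul_pow, mul_pow]
  ring

theorem on_smul {D : Member ℂ} {q : Pt} (hq : q ∈ D.surface) {α β : ℂ} (hα : α ≠ 0) :
    D.On (fun i => α * q.U i) fun j => β * q.Y j := by
  obtain ⟨-, t, z, h1, h2⟩ := hq
  have e1 : lin D.a (fun i => α * q.U i) = fun i j => α * lin D.a q.U i j := by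
    funext i j
    rw [lin, lin, form_smul, pow_one]
  have e2 : ∀ p, D.E (fun i => α * q.U i) p = α ^ 3 * D.E q.U p := fun p => form_smul _ _ _
  refine ⟨α ^ 3, β ^ 2 * t, fun i => α ^ 2 * β ^ 2 * z i, Or.inl (pow_ne_zero _ hα), fun p => ?_, ?_⟩
  · have h := h1 p
    rw [e1, e2]
    simp only [az] at h ⊢
    linear_combination α ^ 3 * β ^ 2 * h
  · rw [e1]
    simp only [cayl, nfm, muM, nhM, nuM] at h2 ⊢
    linear_combination α ^ 9 * β ^ 3 * h2

theorem mem_surface {D : Member ℂ} {p : Pt} (h : D.On p.U p.Y) (hb : ¬ D.Bad p.U p.Y) :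
    p ∈ D.surface := by
  obtain ⟨l, t, z, h0, h1, h2⟩ := h
  have hl : l ≠ 0 := by
    rintro rfl
    refine hb (Or.inr (Or.inr (Or.inr (Or.inr ⟨t, z, h0.resolve_left (not_not.mpr rfl),
      fun q => ?_⟩))))
    rw [← h1, zero_mul]
  refine ⟨fun e => hb (Or.inl e), t / l, fun i => z i / l, fun q => ?_, ?_⟩
  · have h := h1 q
    simp only [az] at h ⊢
    field_simp
    linear_combination h
  · field_simp
    linear_combination h2

/-- the Segre coordinates that give the affine coordinates -/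
def ee : Fin 2 ⊕ Fin 4 → Fin 2 × Fin 4 := Sum.elim (fun i => (i, 0)) fun j => (0, j)

/-- the point with the given Segre coordinates -/
noncomputable def spt (ρ : Fin 2 × Fin 4 → ℂ) : Pt := fun i => ρ (ee i) / ρ (0, 0)

theorem pt_segre {ρ : Fin 2 × Fin 4 → ℂ} {c : ℂ} {q : Pt} (h : ∀ j, ρ j = c * segre q j)
    (h0 : ρ (0, 0) ≠ 0) : q.U 0 ≠ 0 ∧ (spt ρ).U = (fun i => (q.U 0)⁻¹ * q.U i) ∧
      (spt ρ).Y = fun j => (q.Y 0)⁻¹ * q.Y j := by
  rw [h, segre] at h0
  have hc := left_ne_zero_of_mul h0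
  have hU := left_ne_zero_of_mul (right_ne_zero_of_mul h0)
  have hY := right_ne_zero_of_mul (right_ne_zero_of_mul h0)
  refine ⟨hU, funext fun i => ?_, funext fun j => ?_⟩
  · change ρ (i, 0) / ρ (0, 0) = _
    rw [h, h, segre, segre]
    field_simp
  · change ρ (0, j) / ρ (0, 0) = _
    rw [h, h, segre, segre]
    field_simp

variable {n e : ℕ}

theorem exists_hat {R : Fin 2 × Fin 4 → MvPolynomial (Fin (n + 1)) ℂ}
    (hR : ∀ j, (R j).IsHomogeneous e) (Δ : MvPolynomial (Fin 2 ⊕ Fin 4) ℂ) :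
    ∃ (G : MvPolynomial (Fin (n + 1)) ℂ) (r : ℕ), G.IsHomogeneous r ∧ ∀ w : Fin (n + 1) → ℂ,
      (eval w G ≠ 0 ↔ eval w (R (0, 0)) ≠ 0 ∧ eval (spt fun j => eval w (R j)) Δ ≠ 0) := by
  obtain ⟨k, P, hP, h⟩ := exists_homog ee (0, 0) Δ
  refine ⟨R (0, 0) * aeval R P, e + e * k, (hR _).mul (hP.aeval R hR), fun w => ?_⟩
  rw [map_mul, mul_ne_zero_iff]
  refine and_congr_right fun h0 => ?_
  have e1 : eval w (aeval R P) = aeval (fun j => eval w (R j)) P := by
    rw [← ae, ← AlgHom.comp_apply, comp_aeval]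
    rfl
  rw [e1, h ℂ _ h0, mul_ne_zero_iff]
  exact and_iff_right (pow_ne_zero _ h0)

theorem van {S : Set Pt} {N : Fin (n + 1) → MvPolynomial (Fin 2 ⊕ Fin 4) ℂ}
    {G : MvPolynomial (Fin (n + 1)) ℂ} {r : ℕ} (hG : G.IsHomogeneous r)
    (h : ∀ q ∈ S, eval (fun i => eval q (N i)) G = 0) (x : image S N) : eval x.1.rep G = 0 := by
  refine x.2 G r hG ?_
  rintro _ ⟨q, hq, h0, rfl⟩
  obtain ⟨c, hc⟩ := Projectivization.exists_smul_eq_mk_rep ℂ _ h0
  rw [← hc]
  exact (aeval_smul_homog hG (c : ℂ) fun i => eval q (N i)).trans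
    (mul_eq_zero_of_right _ (h q hq))

end F

open F

theorem thm_F (h1 : S_F1) (h2 : S_F2) : S_F := by
  intro D n N R d e hM p₀ hU hY hp hfree honto ⟨i, hi⟩ ⟨j, hj⟩
  obtain ⟨Δ, hΔ0, hΔ⟩ := h1 D p₀ hU hY hp hfree honto
  obtain ⟨T, hT⟩ := h2 D
  obtain ⟨G, r, hG, eG⟩ := exists_hat hM.hR (Δ * N i)
  refine ⟨G, r, hG, ?_, fun x hx => ?_⟩
  · obtain ⟨c, hc⟩ := hM.inv p₀ hp
    have h0 : eval (fun i => eval p₀ (N i)) (R (0, 0)) ≠ 0 := by
      rw [hc] at hj
      rw [hc, segre, hU, hY, mul_one, mul_one]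
      exact left_ne_zero_of_mul hj
    obtain ⟨-, e1, e2⟩ := pt_segre hc h0
    have e3 : (spt fun j => eval (fun i => eval p₀ (N i)) (R j)) = p₀ := by
      rw [hU] at e1
      rw [hY] at e2
      funext k
      rcases k with k | k
      · simpa using congrFun e1 k
      · simpa using congrFun e2 k
    rw [eG, e3, map_mul]
    exact ⟨h0, mul_ne_zero hΔ0 hi⟩
  · by_contra hne
    obtain ⟨h0, h3⟩ := (eG _).mp hne
    rw [map_mul] at h3
    have hU' : (spt fun j => eval x.1.rep (R j)).U 0 = 1 := div_self h0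
    have hY' : (spt fun j => eval x.1.rep (R j)).Y 0 = 1 := div_self h0
    obtain ⟨hb, ho⟩ := hΔ _ hU' hY' (left_ne_zero_of_mul h3)
    refine hx _ _ hU' hY' h0 (fun k => ?_) ⟨mem_surface ((hT _).mpr fun P hP => ?_) hb, hb, ho,
      fun h => right_ne_zero_of_mul h3 (congrFun h i)⟩
    · have h4 := van (((hM.hR k).mul (hM.hR (0, 0))).sub
        ((hM.hR (k.1, 0)).mul (hM.hR (0, k.2)))) (fun q hq => by
          obtain ⟨c, hc⟩ := hM.inv q hq
          simp only [map_sub, map_mul, hc, segre]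
          ring) x
      simp only [map_sub, map_mul] at h4
      change _ = _ * (eval x.1.rep (R (k.1, 0)) / _ * (eval x.1.rep (R (0, k.2)) / _))
      field_simp
      linear_combination h4
    · obtain ⟨G', r', hG', eG'⟩ := exists_hat hM.hR P
      by_contra h4
      refine (eG' _).mpr ⟨h0, h4⟩ (van hG' (fun q hq => ?_) x)
      by_contra h5
      obtain ⟨h6, h7⟩ := (eG' _).mp h5
      obtain ⟨c, hc⟩ := hM.inv q hq
      obtain ⟨h8, e1, e2⟩ := pt_segre hc h6
      refine h7 ((hT _).mp ?_ P hP)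
      rw [e1, e2]
      exact on_smul hq (inv_ne_zero h8)

end Pool.Agent.P.MP_7ebcb6_ag.SC
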