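import Pool.Agent.P.MP_7ebcb6_ag.SC.St3

/-! Polynomials that detect good points, and equations for the closed condition. -/

namespace Pool.Agent.P.MP_7ebcb6_ag.SC

open MvPolynomial

namespace F1

abbrev PR : Type := MvPolynomial (Fin 2 ⊕ Fin 4) ℂ

/-- The determinant of a matrix of polynomials after multiplication by a constant matrix. -/
noncomputable def dt {τ σ : Type} [Fintype τ] [Fintype σ] [DecidableEq σ] (M : τ → σ → PR)
    (L : Matrix σ τ ℂ) : PR :=
  Matrix.det ((L.map C : Matrix σ τ PR) * (Matrix.of M : Matrix τ σ PR) : Matrix σ σ PR)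

lemma eval_dt {τ σ : Type} [Fintype τ] [Fintype σ] [DecidableEq σ] (M : τ → σ → PR)
    (L : Matrix σ τ ℂ) (p : Pt) :
    eval p (dt M L) = (L * Matrix.of fun t s => eval p (M t s)).det := by
  rw [dt, RingHom.map_det, RingHom.mapMatrix_apply, Matrix.map_mul]
  congr 2
  ext i j
  simp

lemma mi_iff {τ σ : Type} [Fintype τ] [Fintype σ] [DecidableEq σ] (J : τ → σ → ℂ) :
    MI J ↔ ∃ L : Matrix σ τ ℂ, (L * Matrix.of J).det ≠ 0 := by
  classical
  constructor
  · intro h
    have hk : LinearMap.ker (Matrix.toLin' (Matrix.of J)) = ⊥ := by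
      rw [LinearMap.ker_eq_bot']
      intro e he
      refine h e fun t => ?_
      have := congrFun he t
      simpa [Matrix.toLin'_apply, Matrix.mulVec, dotProduct] using this
    obtain ⟨g, hg⟩ := LinearMap.exists_leftInverse_of_injective _ hk
    refine ⟨LinearMap.toMatrix' g, ?_⟩
    have : LinearMap.toMatrix' g * Matrix.of J = 1 := by
      have h2 := congrArg LinearMap.toMatrix' hg
      rwa [LinearMap.toMatrix'_comp, LinearMap.toMatrix'_toLin', LinearMap.toMatrix'_id] at h2
    rw [this, Matrix.det_one]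
    exact one_ne_zero
  · rintro ⟨L, hL⟩ e he
    have h1 : (Matrix.of J).mulVec e = 0 := by
      funext t
      simpa [Matrix.mulVec, dotProduct] using he t
    refine Matrix.eq_zero_of_mulVec_eq_zero hL ?_
    rw [← Matrix.mulVec_mulVec, h1, Matrix.mulVec_zero]

lemma mi_eval {τ σ : Type} [Fintype τ] [Fintype σ] [DecidableEq σ] (M : τ → σ → PR) (p : Pt) :
    MI (fun t s => eval p (M t s)) ↔ ∃ L, eval p (dt M L) ≠ 0 := by
  simp only [mi_iff, eval_dt]

/-- Trivial kernel is an open condition. -/
lemma mi_open {τ σ : Type} [Fintype τ] [Fintype σ] [DecidableEq σ] (M : τ → σ → PR) {p₀ : Pt}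
    (h : MI fun t s => eval p₀ (M t s)) :
    ∃ Δ : PR, eval p₀ Δ ≠ 0 ∧ ∀ p : Pt, eval p Δ ≠ 0 → MI fun t s => eval p (M t s) := by
  obtain ⟨L, hL⟩ := (mi_eval M p₀).mp h
  exact ⟨dt M L, hL, fun p hp => (mi_eval M p).mpr ⟨L, hp⟩⟩

section

variable {R : Type} [CommRing R]

lemma az_sum (A : Fin 4 → Fin 4 → R) (z : Fin 4 → R) (q : Fin 6) :
    ∑ i, az A (Pi.single i 1) q * z i = az A z q := by
  simp only [az, add_mul, Finset.sum_add_distrib, Pi.single_apply, mul_ite, mul_one, mul_zero,
    ite_mul, zero_mul, Finset.sum_ite_eq, Finset.mem_univ, if_true]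

/-- The matrix of `(l, z) ↦ l w + az z`. -/
def m1 (A : Fin 4 → Fin 4 → R) (w : Fin 6 → R) : Fin 6 → Option (Fin 4) → R :=
  fun q s => s.elim (w q) fun i => az A (Pi.single i 1) q

lemma mi_m1 (A : Fin 4 → Fin 4 → R) (w : Fin 6 → R) :
    MI (m1 A w) ↔ ∀ (l : R) (z : Fin 4 → R), (∀ q, az A z q + l * w q = 0) → l = 0 ∧ z = 0 := by
  constructor
  · intro h l z hq
    have := h (fun s => s.elim l z) fun q => by
      rw [Fintype.sum_option]
      simp only [m1, Option.elim_none, Option.elim_some, az_sum]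
      linear_combination hq q
    exact ⟨congrFun this none, funext fun i => congrFun this (some i)⟩
  · intro h e he
    obtain ⟨h1, h2⟩ := h (e none) (fun i => e (some i)) fun q => by
      have := he q
      rw [Fintype.sum_option] at this
      simp only [m1, Option.elim_none, Option.elim_some] at this
      rw [az_sum A (fun i => e (some i))] at this
      linear_combination this
    funext s
    cases s with
    | none => exact h1
    | some i => exact congrFun h2 i

/-- The matrix of `(l, t, z) ↦ (l w - az z - t E, l c + t n)`. -/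
def m2 (A : Fin 4 → Fin 4 → R) (w E : Fin 6 → R) (c n : R) :
    Option (Fin 6) → Option (Option (Fin 4)) → R :=
  fun r s => r.elim (s.elim c fun s => s.elim n fun _ => 0)
    fun q => s.elim (-w q) fun s => m1 A E q s

lemma sum_m2 (A : Fin 4 → Fin 4 → R) (w E : Fin 6 → R) (c n : R)
    (e : Option (Option (Fin 4)) → R) :
    (∀ r, ∑ s, m2 A w E c n r s * e s = 0) ↔
      (∀ q, e none * w q = az A (fun i => e (some (some i))) q + e (some none) * E q) ∧
        e none * c + e (some none) * n = 0 := by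
  have h0 : ∑ s, m2 A w E c n none s * e s = e none * c + e (some none) * n := by
    simp only [Fintype.sum_option, m2, Option.elim_none, Option.elim_some, zero_mul,
      Finset.sum_const_zero]
    ring
  have h1 : ∀ q, ∑ s, m2 A w E c n (some q) s * e s
      = az A (fun i => e (some (some i))) q + e (some none) * E q - e none * w q := by
    intro q
    simp only [Fintype.sum_option, m2, m1, Option.elim_none, Option.elim_some]
    rw [az_sum A (fun i => e (some (some i)))]
    ring
  constructor
  · intro h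
    exact ⟨fun q => by linear_combination h1 q - h (some q), h0 ▸ h none⟩
  · rintro ⟨ha, hb⟩ r
    cases r with
    | none => rw [h0, hb]
    | some q => rw [h1, ha q, sub_self]

lemma mi_m2 (A : Fin 4 → Fin 4 → R) (w E : Fin 6 → R) (c n : R) :
    ¬ MI (m2 A w E c n) ↔ ∃ (l t : R) (z : Fin 4 → R), (l ≠ 0 ∨ t ≠ 0 ∨ z ≠ 0) ∧
      (∀ q, l * w q = az A z q + t * E q) ∧ l * c + t * n = 0 := by
  constructor
  · intro h
    by_contra hn
    refine h fun e he => ?_
    by_contra h0
    refine hn ⟨e none, e (some none), fun i => e (some (some i)), ?_, (sum_m2 A w E c n e).mp he⟩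
    by_contra hc
    push Not at hc
    refine h0 (funext fun s => ?_)
    rcases s with _ | _ | i
    exacts [hc.1, hc.2.1, congrFun hc.2.2 i]
  · rintro ⟨l, t, z, h0, h1⟩ h
    have := h (fun s => s.elim l fun s => s.elim t z) ((sum_m2 A w E c n _).mpr h1)
    rcases h0 with h0 | h0 | h0
    exacts [h0 (congrFun this none), h0 (congrFun this (some none)),
      h0 (funext fun i => congrFun this (some (some i)))]

variable {S : Type} [CommRing S] (f : R →+* S)

lemma map_single {ι : Type} [DecidableEq ι] (i : ι) :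
    (fun j => f ((Pi.single i 1 : ι → R) j)) = Pi.single i 1 := by
  funext j
  simp only [Pi.single_apply, apply_ite f, map_one, map_zero]

lemma map_m1 (A : Fin 4 → Fin 4 → R) (w : Fin 6 → R) :
    (fun q s => f (m1 A w q s)) = m1 (fun i j => f (A i j)) fun q => f (w q) := by
  funext q s
  cases s with
  | none => rfl
  | some i => simp only [m1, Option.elim_some, (hom_ringHom f).az, map_single]

lemma map_m2 (A : Fin 4 → Fin 4 → R) (w E : Fin 6 → R) (c n : R) :
    (fun q s => f (m2 A w E c n q s))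
      = m2 (fun i j => f (A i j)) (fun q => f (w q)) (fun q => f (E q)) (f c) (f n) := by
  funext r s
  rcases r with _ | q
  · rcases s with _ | _ | i
    exacts [rfl, rfl, map_zero f]
  · rcases s with _ | s
    exacts [map_neg f _, congrFun (congrFun (map_m1 f A E) q) s]

lemma map_form {d : ℕ} (c : Fin (d + 1) → R) (U : Fin 2 → R) :
    f (form c U) = form (fun i => f (c i)) fun i => f (U i) := by
  simp only [form, map_sum, map_mul, map_pow]

end

/-- The coordinates as polynomials. -/
noncomputable def xU : Fin 2 → PR := fun i => X (.inl i)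
noncomputable def xY : Fin 4 → PR := fun i => X (.inr i)
noncomputable def xA (D : Member ℂ) : Fin 4 → Fin 4 → PR := lin (D.map C).a xU
noncomputable def xE (D : Member ℂ) : Fin 6 → PR := (D.map C).E xU

lemma ev_xY (p : Pt) : (fun i => eval p (xY i)) = p.Y := by
  funext i
  simp only [xY, eval_X]

lemma ev_xA (D : Member ℂ) (p : Pt) : (fun i j => eval p (xA D i j)) = lin D.a p.U := by
  funext i j
  simp only [xA, lin, map_form, Member.map, xU, eval_C, eval_X]

lemma ev_xE (D : Member ℂ) (p : Pt) : (fun q => eval p (xE D q)) = D.E p.U := by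
  funext q
  simp only [xE, Member.E, map_form, Member.map, xU, eval_C, eval_X]

/-- The parameters of the linear system as polynomials. -/
noncomputable def xP (D : Member ℂ) : πL → PR :=
  Sum.elim (fun i => C (D.a i.1 i.2.1 i.2.2)) (Sum.elim (fun _ => xU 1) xY)

lemma ev_xP (D : Member ℂ) (p : Pt) : (fun i => eval p (xP D i)) = parOf D.a p := by
  funext i
  rcases i with i | i | i <;> simp only [xP, parOf, Sum.elim_inl, Sum.elim_inr, xU, xY, eval_C,
    eval_X]

lemma ptOf_parOf (D : Member ℂ) {p : Pt} (h : p.U 0 = 1) : ptOf (parOf D.a p) = p := by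
  funext i
  rcases i with i | i
  · fin_cases i
    · exact (af_0 (p.U 1)).trans h.symm
    · rfl
  · rfl

lemma onto_iff (hV : S_CV) (D : Member ℂ) {p : Pt} (h : p.U 0 = 1) :
    (MI fun (s : σL) (t : τL) => eval p (LM.ev (xP D) (Pi.single s 1) t)) ↔ Onto D.a p := by
  have := hV.1 (parOf D.a p)
  rw [ptOf_parOf D h] at this
  refine Iff.trans ?_ this
  simp only [LM.map (eval p), ev_xP, map_single, OntoL]

end F1

open F1

theorem thm_F1 (hV : S_CV) : S_F1 := by
  intro D p₀ hU hY hp hf ho
  have e1 : ∀ p : Pt, (fun q s => eval p (m1 (xA D) (fun q => -(xY (pa q) * xY (pb q))) q s))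
      = m1 (lin D.a p.U) fun q => -(p.Y (pa q) * p.Y (pb q)) := fun p => by
    rw [map_m1, ev_xA]
    simp only [map_neg, map_mul, xY, eval_X]
  have e2 : ∀ p : Pt, (fun q s => eval p (m1 (xA D) (xE D) q s)) = m1 (lin D.a p.U) (D.E p.U) :=
    fun p => by rw [map_m1, ev_xA, ev_xE]
  have e0 : ∀ p : Pt, eval p (nuA (xA D)) = nuA (lin D.a p.U) := fun p => by
    rw [(hom_ringHom (eval p)).nuA, ev_xA]
  obtain ⟨hn, t0, z0, h0, -⟩ := hp
  obtain ⟨Δ1, a1, b1⟩ := mi_open (m1 (xA D) fun q => -(xY (pa q) * xY (pb q))) (p₀ := p₀) (by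
    rw [e1, mi_m1]
    exact fun l z h => hf l z fun q => by linear_combination -h q)
  obtain ⟨Δ2, a2, b2⟩ := mi_open (m1 (xA D) (xE D)) (p₀ := p₀) (by
    rw [e2, mi_m1]
    intro t z h
    have k := hf t (fun i => t * z0 i - t0 * z i) fun q => by
      have h1 := h0 q
      have h2 := h q
      simp only [az] at h1 h2 ⊢
      linear_combination t * h1 + t0 * h2
    refine ⟨k.1, (hf 0 z fun q => ?_).2⟩
    have h2 := h q
    rw [k.1] at h2
    linear_combination -h2)
  obtain ⟨Δ3, a3, b3⟩ := mi_open (fun (s : σL) (t : τL) => LM.ev (xP D) (Pi.single s 1) t)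
    (p₀ := p₀) ((onto_iff hV D hU).mpr ho)
  refine ⟨nuA (xA D) * (Δ1 * (Δ2 * Δ3)), ?_, fun p h1 h2 hp => ?_⟩
  · simp only [map_mul, e0]
    exact mul_ne_zero hn (mul_ne_zero a1 (mul_ne_zero a2 a3))
  · simp only [map_mul, e0, mul_ne_zero_iff] at hp
    obtain ⟨c0, c1, c2, c3⟩ := hp
    have d1 := b1 p c1
    have d2 := b2 p c2
    rw [e1, mi_m1] at d1
    rw [e2, mi_m1] at d2
    refine ⟨?_, (onto_iff hV D h1).mp (b3 p c3)⟩
    rintro (h | h | h | ⟨l, z, h, k⟩ | ⟨t, z, h, k⟩)
    · exact c0 h
    · exact one_ne_zero (h1.symm.trans h)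
    · exact one_ne_zero (h2.symm.trans h)
    · have := d1 l z fun q => by linear_combination -k q
      exact h.elim (· this.1) (· this.2)
    · have := d2 t z k
      exact h.elim (· this.1) (· this.2)

theorem thm_F2 : S_F2 := by
  intro D
  refine ⟨Set.range (dt (m2 (xA D) (fun q => xY (pa q) * xY (pb q)) (xE D) (cayl (xA D) xY)
    (nfm (xA D) (D.map C).ka xY))), fun p => ?_⟩
  rw [Set.forall_mem_range]
  have h := mi_eval (m2 (xA D) (fun q => xY (pa q) * xY (pb q)) (xE D) (cayl (xA D) xY)
    (nfm (xA D) (D.map C).ka xY)) p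
  rw [map_m2, ev_xA, ev_xE, (hom_ringHom (eval p)).cayl, (hom_ringHom (eval p)).nfm, ev_xA,
    ev_xY] at h
  have h2 := not_congr h
  rw [mi_m2] at h2
  simp only [not_exists, not_not] at h2
  refine Iff.trans ?_ h2
  simp only [map_mul, xY, eval_X, Member.map, eval_C, Member.On]

end Pool.Agent.P.MP_7ebcb6_ag.SC
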