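import Pool.Agent.P.MP_7ebcb6_ag.SC.St2
import Pool.Agent.P.MP_7ebcb6_ag.SC.L1
import Pool.Agent.P.MP_7ebcb6_ag.SC.V1
import Pool.Agent.P.MP_7ebcb6_ag.SC.H1
import Pool.Agent.P.MP_7ebcb6_ag.SC.H2
import Pool.Agent.P.MP_7ebcb6_ag.SC.H3

/-! Moving the chord: the class of its two points is constant, and zero at infinity. -/

namespace Pool.Agent.P.MP_7ebcb6_ag.SC

open G8 Function

noncomputable section

namespace FIN

/-- The fibre that contains a zero of the form. -/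
def fib : ζ1 → ζu := Sum.map id (Sum.map Prod.fst id)

lemma zu_eq {R : Type} (a : π1 → R) (x : σ1 → R) (j : ζ1) : zu a x j = uu a x (fib j) := by
  rcases j with j | j | j | j <;> rfl

lemma simple68 {cd : CD} {X : ℕ → ℂ} {b : Fin 5 → ℂ} (h : Good (B68E cd) B68O X b) :
    Simple X (b 0) (w4 (sq b)) := by
  refine ⟨fun t => ?_, fun t => ?_⟩
  · fin_cases t
    exacts [h.eq 0, h.eq 1, h.eq 2, h.eq 3]
  · fin_cases t
    exacts [h.op 0, h.op 1]

lemma lpt_0 {K : Type} [Field K] (W : V4 K) (r : K) : lpt W r 0 = 1 := by simp [lpt, cb, lA, lB]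

lemma lpt_ne {K : Type} [Field K] (W : V4 K) (r : K) : lpt W r ≠ 0 := fun e => by
  simpa [e] using lpt_0 W r

lemma af_ne {K : Type} [Field K] (u : K) : (af u : V2 K) ≠ 0 := fun e => by
  have : (((1 : ℕ) : K)) = 0 := congrFun e 0
  simp at this

lemma on_lpt {K : Type} [Field K] {g : Fin 20 → K} {W : V4 K} (hL : ∀ i, lnE g W i = 0) (r : K) :
    tri g (lpt W r) (lpt W r) (lpt W r) = 0 := by
  have h0 : tri g (lA W) (lA W) (lA W) = 0 := hL 0
  have h1 : tri g (lA W) (lA W) (lB W) = 0 := hL 1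
  have h2 : tri g (lA W) (lB W) (lB W) = 0 := hL 2
  have h3 : tri g (lB W) (lB W) (lB W) = 0 := hL 3
  unfold lpt
  generalize lA W = A at *
  generalize lB W = B at *
  simp only [tri, cb, Nat.cast_one] at *
  linear_combination h0 + 3 * r * h1 + 3 * r ^ 2 * h2 + r ^ 3 * h3

lemma tv_pu (sp : Sp) (X : ℕ → ℂ) {u : Om} {u' : ℂ} (h : Tends sp.v u u') :
    TV sp (pu (fun i => ct (X i)) u) (pu X u') := by
  rintro (i | i)
  exacts [Tends.const _, h]

lemma tv_mk (sp : Sp) (X : ℕ → ℂ) (b : Fin 68 → Fin 5 → ℂ) {u : Om} {u' : ℂ} {W : V4 Om}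
    {W' : V4 ℂ} (h : Tends sp.v u u') (hW : TV sp W W') :
    TV sp (mk1 (fun i => ct (X i)) (fun j i => ct (b j i)) u W) (mk1 X b u' W') := by
  rintro (i | i | i | i)
  exacts [Tends.const _, Tends.const _, h, hW i]

lemma red_of_tv {sp : Sp} {n : ℕ} {x : Fin n → Om} {y : Fin n → ℂ} (h : TV sp x y) (hy : y ≠ 0) :
    (spPl sp).Red x y := ⟨hy, 1, fun i => by rw [one_mul]; exact h i⟩

lemma tv_lpt {sp : Sp} {W : V4 Om} {W' : V4 ℂ} {r : Om} {s : ℂ} (hW : TV sp W W')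
    (h : Tends sp.v r s) : TV sp (lpt W r) (lpt W' s) :=
  mem_cb (G := (spPl sp).G) (mem_nat 1) (mem_lA hW) h (mem_lB hW)

lemma split (F : ζ1 → ℚ) (h1 : ∀ n, ∑ j, F (.inl (n, j)) = 0)
    (h2 : ∀ m, ∑ i, F (.inr (.inl (m, i))) = 0) :
    ∑ j, F j = F (.inr (.inr (.inr ()))) + ∑ j, F (.inr (.inr (.inl j))) := by
  rw [Fintype.sum_sum_type, Fintype.sum_sum_type, Fintype.sum_sum_type, Fintype.sum_prod_type,
    Fintype.sum_prod_type, Finset.sum_eq_zero fun n _ => h1 n,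
    Finset.sum_eq_zero fun m _ => h2 m, zero_add, zero_add, add_comm,
    Fintype.sum_unique fun a : Unit => F (.inr (.inr (.inr a)))]

lemma inj_pair {α β : Type} (U : ζu → α) (hU : Injective U) (u : ζ1 → α) (V : ζ1 → β)
    (h : ∀ j, u j = U (fib j)) (hV : ∀ m, Injective fun i => V (.inr (.inl (m, i)))) :
    Injective fun j => (u j, V j) := by
  intro j j' e
  have e1 : fib j = fib j' := hU (by rw [← h, ← h]; exact congrArg Prod.fst e)
  have e2 : V j = V j' := congrArg Prod.snd e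
  rcases j with j | ⟨m, i⟩ | j <;> rcases j' with j' | ⟨m', i'⟩ | j' <;>
    simp only [fib, Sum.map_inl, Sum.map_inr, id, Sum.inl.injEq, Sum.inr.injEq,
      reduceCtorEq] at e1
  · rw [e1]
  · subst e1
    rw [hV m e2]
  · rw [e1]

end FIN

open FIN in
theorem thm_SUM (hCUR : S_CUR) (hTRI : S_TRI) (hE1 : S_E1) (hCL0 : S_CL0) : S_SUM := by
  intro cd X b68 u W w d cl Φ hid h68 hS hG hL
  obtain ⟨zc, zr⟩ := Sys.Z_app.1 (show (S1 cd).Z _ _ from hG.s1.eq)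
  obtain ⟨zl, zr⟩ := Sys.Z_app.1 zr
  obtain ⟨zt, zr⟩ := Sys.Z_app.1 zr
  obtain ⟨zf, -⟩ := Sys.Z_app.1 zr
  obtain ⟨ol, ot⟩ := Sys.NZ_app.1 (show O1.NZ _ _ from hG.s1.op)
  have cur : ∀ n, Cur cd n X (xT d.x n) (xC d.x n) (d.J n) (xL d.x n) (d.l40 n) (d.l24 n) :=
    fun n => ⟨hid, fun t => zc (n, t),
      hE1 cd n X _ _ _ hid (fun t => zc (n, t)) (hG.att n).gJ.eq (hG.att n).e198, hG.att n,
      fun j t => zl (n, j, t), fun j t => ol (n, j, t), fun j j' e =>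
        (Prod.mk.inj (Sum.inl.inj (hG.iu (a₁ := .inl (n, j)) (a₂ := .inl (n, j')) e))).2⟩
  have tri := fun m : Fin 50 =>
    hTRI X hid (xU d.x m) (xR d.x m) (fun t => zt (m, t)) fun t => ot (m, t)
  have key := hL (zu (mk1 X b68 u W) d.x) (zW (mk1 X b68 u W) d.x) (xF d.x) ?_ ?_
    (fun j => by have := zf j; dsimp only [S1f] at this; exact this) hG.f27
  · exact (split _ (fun n => hCUR _ _ _ _ _ _ _ _ _ (cur n) cl) fun m => (tri m).2.2 cl).symm.trans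
      key
  · exact inj_pair _ hG.iu _ _ (zu_eq _ _) fun m => (tri m).2.1
  · rintro (⟨n, j⟩ | ⟨m, i⟩ | j | j)
    exacts [hCL0 _ _ _ _ _ _ _ _ _ (cur n) j, (tri m).1 i, simple68 (h68 j), hS]

open FIN in
theorem thm_FIN (hCUR : S_CUR) (hTRI : S_TRI) (hE1 : S_E1) (hCL0 : S_CL0) (hUP : S_UP1)
    (hDOWN : S_DOWN1) (hON : S_ON) : S_FIN := by
  intro cd X b68 u W w d cl Φ hid h27 h68 hS hG hL
  have hSUM := thm_SUM hCUR hTRI hE1 hCL0
  have s0 := hSUM cd X b68 u W w d cl Φ hid h68 hS hG hL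
  have l0 := tends_sec u
  obtain ⟨V, hV, hN, -⟩ := thm_LH (thm_UP thm_DEQ) (sec (some u)) (un (sec (some u)))
    ((PO X).G (af lam)) ((Pen.of X).G (af u)) W (v_un_lt _) (fun i => by
      have := mem_G (pm_Cg (sec (some u)) (un (sec (some u))) (Pen.of X))
        (mem_af (lam_Cg u (pt_sec _))) i
      simpa only [(hom_ringHom ct).G, (hom_ringHom ct).af] using this) hS.1 (hS.2 0)
  have tV : TV (sec (some u)) V W := hN.tv (v_un_lt _)
  have nz : OCH.NZ (pu (fun i => ct (X i)) lam) V := fun t =>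
    (OCH.tends (tv_pu _ X l0) tV t).ne_zero (hS.2 t)
  obtain ⟨d1, hd1⟩ := hUP cd Om ℂ (spPl (sec (some u)))
    (mk1 (fun i => ct (X i)) (fun j i => ct (b68 j i)) lam V) (mk1 X b68 u W)
    (fun j i => ct (w j i)) w d
    (tv_mk _ X b68 l0 tV) (fun j => tv_ct _ (w j)) hG
  have htv : ∀ᶠ sp in ae, TV sp (mk1 (fun i => ct (X i)) (fun j i => ct (b68 j i)) lam V)
      (mk1 X b68 (lim sp lam) fun i => lim sp (V i)) := by
    filter_upwards [ae_tends lam, ae_tv V] with sp h1 h2 using tv_mk sp X b68 h1 h2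
  have hdown := hDOWN cd _ w d1 (htv.mono fun sp h i => tends_lim (h i).le_one) hd1
  have hnz : ∀ᶠ sp in ae, ∀ t, lim sp (OCH.ev (pu (fun i => ct (X i)) lam) V t) ≠ 0 :=
    Filter.eventually_all.2 fun t => ae_lim_ne (nz t)
  have lus := tends_sec (cd.us : ℂ)
  have hB : (PO X).B (af lam) ≠ 0 :=
    Tends.ne_zero (v := (sec (some (cd.us : ℂ))).v) (c := (Pen.of X).B (af (cd.us : ℂ)))
      (mem_B (pm_ct _ (Pen.of X)) (mem_af (u := lam) lus)) ((h27.g27 0).op 4)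
  have hF : (PO X).ff 0 0 (af lam) ≠ 0 :=
    Tends.ne_zero (v := (sec (some (cd.us : ℂ))).v) (c := (Pen.of X).ff 0 0 (af (cd.us : ℂ)))
      (mem_ff (pm_ct _ (Pen.of X)) 0 0 (mem_af (u := lam) lus)) ((h27.g27 0).op 5)
  obtain ⟨r1, r2, hr⟩ := thm_AL.1 Om ((PO X).ks (af lam)) V (nz 1)
  obtain ⟨δ1, f1, e1⟩ := cl.fam _ _ (af_ne lam) (lpt_ne V r1)
    (hON X hid _ _ hB hF (by rw [hr]; ring) (on_lpt hV r1))
  obtain ⟨δ2, f2, e2⟩ := cl.fam _ _ (af_ne lam) (lpt_ne V r2)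
    (hON X hid _ _ hB hF (by rw [hr]; ring) (on_lpt hV r2))
  have hae : ∀ᶠ sp in ae, δ1 sp + δ2 sp = aX cl u W := by
    filter_upwards [ae_tends lam, ae_tv V, htv, hdown, hnz] with sp h1 h2 h3 h4 h5
    obtain ⟨d', hd'⟩ := h4
    rw [show (fun i => lim sp (mk1 (fun i => ct (X i)) (fun j i => ct (b68 j i)) lam V i)) =
      mk1 X b68 (lim sp lam) fun i => lim sp (V i) from funext fun i => lim_eq (h3 i)] at hd'
    have hs : Simple X (lim sp lam) fun i => lim sp (V i) :=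
      ⟨fun t => (LS.tends (tv_pu sp X h1) h2 t).eq_zero (hV t),
        fun t => by rw [← lim_eq (OCH.tends (tv_pu sp X h1) h2 t)]; exact h5 t⟩
    have s1 := hSUM cd X b68 _ _ w d' cl Φ hid h68 hs hd' hL
    have tU : TV sp (af lam) (af (lim sp lam)) := mem_af (G := (spPl sp).G) h1
    obtain ⟨t1, t2, a1, a2, a3⟩ := thm_AL.2.2.2.2 sp _ V ((Pen.of X).ks (af (lim sp lam))) _ r1 r2
      (mem_ks (pm_ct sp (Pen.of X)) tU) h2 (hs.2 1) hr
    rw [e1 sp _ _ (red_of_tv tU (af_ne _)) (red_of_tv (tv_lpt h2 a1) (lpt_ne _ _)),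
      e2 sp _ _ (red_of_tv tU (af_ne _)) (red_of_tv (tv_lpt h2 a2) (lpt_ne _ _)),
      ← thm_AL.2.2.2.1 _ _ _ t1 t2 (hs.2 1) a3]
    exact add_right_cancel (s1.trans s0.symm)
  have h0 := (thm_MU.2.1 (sec none) (pt_sec _)).2.2
  rw [← eq_of_ae (f1.add f2) hae (sec none),
    e1 _ _ _ (red_rd _ (af_ne lam)) (red_rd _ (lpt_ne V r1)),
    e2 _ _ _ (red_rd _ (af_ne lam)) (red_rd _ (lpt_ne V r2)),
    cl.bad _ _ (Or.inr (Or.inl h0)), cl.bad _ _ (Or.inr (Or.inl h0)), add_zero]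

end

end Pool.Agent.P.MP_7ebcb6_ag.SC
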