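import Pool.Agent.P.MP_7ebcb6_ag.SC.St2
import Pool.Agent.P.MP_7ebcb6_ag.SC.H1
import Pool.Agent.P.MP_7ebcb6_ag.SC.H2
import Pool.Agent.P.MP_7ebcb6_ag.SC.R1
import Pool.Agent.P.MP_7ebcb6_ag.SC.R2
import Pool.Agent.P.MP_7ebcb6_ag.SC.R3
import Pool.Agent.P.MP_7ebcb6_ag.SC.L1

/-! The three points of the fixed line and the limits of lines that meet the fixed line. -/

namespace Pool.Agent.P.MP_7ebcb6_ag.SC

open G8 Function

namespace FX1

section alg

variable {K : Type} [Field K]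

lemma cube (g : Fin 20 → K) (a b : V4 K) (s t : K) :
    tri g (cb s a t b) (cb s a t b) (cb s a t b) = s ^ 3 * tri g a a a + 3 * s ^ 2 * t * tri g a a b
      + 3 * s * t ^ 2 * tri g a b b + t ^ 3 * tri g b b b := by
  rw [R3.tri_cb]
  ring

lemma fpt_eq (cd : CD) (t : K) : fpt cd t = cb 1 (cst cd.n1) t (cst cd.n2) := by
  simp [fpt]

lemma quad {a b c : K} {t : Fin 3 → K} (ht : Injective t) (h : ∀ k, a + b * t k + c * t k ^ 2 = 0) :
    a = 0 ∧ b = 0 ∧ c = 0 := by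
  have n01 : t 0 - t 1 ≠ 0 := sub_ne_zero.2 (ht.ne (by decide))
  have n02 : t 0 - t 2 ≠ 0 := sub_ne_zero.2 (ht.ne (by decide))
  have n12 : t 1 - t 2 ≠ 0 := sub_ne_zero.2 (ht.ne (by decide))
  have e1 : b + c * (t 0 + t 1) = 0 :=
    (mul_eq_zero.1 (show (t 0 - t 1) * _ = 0 by linear_combination h 0 - h 1)).resolve_left n01
  have e2 : b + c * (t 0 + t 2) = 0 :=
    (mul_eq_zero.1 (show (t 0 - t 2) * _ = 0 by linear_combination h 0 - h 2)).resolve_left n02
  have hc : c = 0 :=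
    (mul_eq_zero.1 (show (t 1 - t 2) * _ = 0 by linear_combination e1 - e2)).resolve_left n12
  have hb : b = 0 := by linear_combination e1 - (t 0 + t 1) * hc
  exact ⟨by linear_combination h 0 - t 0 * hb - t 0 ^ 2 * hc, hb, hc⟩

lemma fac {g : Fin 20 → K} {a b : V4 K} {t : Fin 3 → K} (ht : Injective t)
    (h : ∀ k, tri g (cb 1 a (t k) b) (cb 1 a (t k) b) (cb 1 a (t k) b) = 0) (σ θ : K) :
    tri g (cb σ a θ b) (cb σ a θ b) (cb σ a θ b) = tri g b b b * ∏ k, (θ - t k * σ) := by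
  obtain ⟨h1, h2, h3⟩ := quad (a := tri g a a a + tri g b b b * (t 0 * t 1 * t 2))
    (b := 3 * tri g a a b - tri g b b b * (t 0 * t 1 + t 0 * t 2 + t 1 * t 2))
    (c := 3 * tri g a b b + tri g b b b * (t 0 + t 1 + t 2)) ht fun k => by
      have := h k
      rw [cube] at this
      fin_cases k <;> simp only [Fin.zero_eta, Fin.mk_one, Fin.reduceFinMk] at this ⊢ <;>
        linear_combination this
  rw [cube, Fin.prod_univ_three]
  linear_combination σ ^ 3 * h1 + σ ^ 2 * θ * h2 + σ * θ ^ 2 * h3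

lemma line {g : Fin 20 → K} {a b x : V4 K} (hL : OnL g a b) (hI : Ind a b) {α β : K}
    (hx : x = cb α a β b) (h0 : x ≠ 0) :
    ∃ t γ, γ ≠ 0 ∧ (plk x t = fun l => γ * plk a b l) ∧ LineAt g x t := by
  have key : ∀ p q : K, α * q - β * p ≠ 0 →
      ∃ t γ, γ ≠ 0 ∧ (plk x t = fun l => γ * plk a b l) ∧ LineAt g x t := fun p q h => by
    have e : plk x (cb p a q b) = fun l => (α * q - β * p) * plk a b l := by
      rw [hx]
      exact funext (L1.plk_cb _ _ _ _ _ _)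
    refine ⟨_, _, h, e, fun z => hI (funext fun l => ?_), ?_, ?_, ?_⟩
    · exact (mul_eq_zero.1 (congrFun (e.symm.trans z) l)).resolve_left h
    all_goals
      try rw [hx]
      exact R3.onL hL ..
  by_cases ha : α = 0
  · refine key 1 0 fun h => h0 ?_
    have hb : β = 0 := by linear_combination -h
    rw [hx, ha, hb]
    exact funext fun i => by simp [cb]
  · exact key 0 1 (by simpa using ha)

lemma on_line {W y : V4 K} (h2 : y 2 = y 0 * W 0 + y 1 * W 2) (h3 : y 3 = y 0 * W 1 + y 1 * W 3) :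
    y = cb (y 0) (lA W) (y 1) (lB W) := by
  funext i
  fin_cases i <;> simp [cb, lA, lB, h2, h3]

lemma det_eq (w x t s : V4 K) : det4 w x t s = pp (plk x t) (plk w s) := by
  simp only [det4, pp, plk, v6_0, v6_1, v6_2, v6_3, v6_4, v6_5]
  ring

lemma same {W x t s : V4 K} {δ : K} (hd : δ ≠ 0) (h : plk x t = fun l => δ * lP W l)
    (hx : x = cb (x 0) (lA W) (x 1) (lB W)) (hn : ¬ Ind3 x t s) :
    ∃ q, plk x s = fun l => q * lP W l := by
  have k : ∀ w, pp (lP W) (plk w s) = 0 := fun w => by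
    have : det4 w x t s = 0 := by
      by_contra e
      exact hn ⟨w, e⟩
    rw [det_eq, h] at this
    refine (mul_eq_zero.1 (Eq.trans ?_ this)).resolve_left hd
    simp only [pp]
    ring
  have k2 := k (ee 2)
  have k3 := k (ee 3)
  simp [pp, lP, plk, ee_eq] at k2 k3
  have hs : s = cb (s 0) (lA W) (s 1) (lB W) :=
    on_line (by linear_combination -k3) (by linear_combination k2)
  refine ⟨x 0 * s 1 - x 1 * s 0, funext fun l => ?_⟩
  rw [← plk_chart, ← L1.plk_cb, ← hx, ← hs]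

lemma fpt_on {cd : CD} {W : V4 K} {s : K}
    (h : pp (lP W) (plk (cst cd.n1) (cst cd.n2)) = 0)
    (h2 : fpt cd s 2 - (fpt cd s 0 * W 0 + fpt cd s 1 * W 2) = 0)
    (hn : cst cd.n2 2 - (cst cd.n2 0 * W 0 + cst cd.n2 1 * W 2) ≠ 0) :
    fpt cd s = cb (fpt cd s 0) (lA W) (fpt cd s 1) (lB W) := by
  refine on_line (sub_eq_zero.1 h2) (sub_eq_zero.1 ((mul_eq_zero.1 ?_).resolve_left hn))
  simp only [pp, lP, plk, fpt_eq, cb, v6_0, v6_1, v6_2, v6_3, v6_4, v6_5, ng_eq,
    Nat.cast_one] at h h2 ⊢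
  linear_combination -h + (cst cd.n2 3 - (cst cd.n2 0 * W 1 + cst cd.n2 1 * W 3)) * h2

lemma onL_sm {g : Fin 20 → K} {a b : V4 K} (h : OnL g a b) (c : K) :
    OnL (fun i => c * g i) a b := by
  have e : ∀ x y z, tri (fun i => c * g i) x y z = c * tri g x y z := fun x y z => by
    simp only [tri]
    ring
  obtain ⟨h1, h2, h3, h4⟩ := h
  simp only [OnL, e, h1, h2, h3, h4, mul_zero, and_self]

end alg

lemma onL_lim {sp : Sp} {g : Fin 20 → Om} {g' : Fin 20 → ℂ} {a b : V4 Om} {a' b' : V4 ℂ}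
    (hg : TV sp g g') (ha : TV sp a a') (hb : TV sp b b') (h : OnL g a b) : OnL g' a' b' :=
  ⟨(R3.ttri hg ha ha ha).eq_zero h.1, (R3.ttri hg ha ha hb).eq_zero h.2.1,
    (R3.ttri hg ha hb hb).eq_zero h.2.2.1, (R3.ttri hg hb hb hb).eq_zero h.2.2.2⟩

lemma tv_cst (sp : Sp) (v : Fin 4 → ℕ) : TV sp (cst v) (cst v) :=
  fun i => mem_nat (G := (spPl sp).G) (v i)

lemma mv_fpt {K L : Type} [Field K] [Field L] {G : Subring (K × L)} (cd : CD) {a : K} {b : L}
    (h : (a, b) ∈ G) : MV G (fpt cd a) (fpt cd b) :=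
  mem_cb (mem_nat 1) (fun _ => mem_nat _) h fun _ => mem_nat _

lemma tv_G (X : ℕ → ℂ) (sp : Sp) :
    TV sp ((PO X).G (nz sp (af lam))) ((Pen.of X).G (rd sp (af lam))) :=
  mem_G (pm_ct sp _) (mv_sp.2 (tv_nz sp _))

/-- The limit of a point of the fixed line that lies on the limit of a line on the cubic. -/
lemma root (hH : S_HOM) {cd : CD} {X : ℕ → ℂ} {t r : Fin 3 → Om} (hO : FxO cd X t r) {sp : Sp}
    (hm : av sp (tri ((PO X).G (af lam)) (cst cd.n2) (cst cd.n2) (cst cd.n2))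
      + ∑ k, mu sp (af (t k)) = 4 * mu sp (af lam)) {s' t' : ℂ}
    (h : tri ((Pen.of X).G (rd sp (af lam))) (cb s' (cst cd.n1) t' (cst cd.n2))
      (cb s' (cst cd.n1) t' (cst cd.n2)) (cb s' (cst cd.n1) t' (cst cd.n2)) = 0) :
    ∃ k, rd sp (af (t k)) 0 * t' = rd sp (af (t k)) 1 * s' := by
  have n0 : ∀ u : Om, nv sp (af u) ≠ 0 := fun u => nv_ne_zero sp fun e => by
    simpa using congrFun e 0
  set l := tri ((PO X).G (af lam)) (cst cd.n2) (cst cd.n2) (cst cd.n2) with hl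
  have hv : sp.v ((nv sp (af lam))⁻¹ ^ 4 * l * ∏ k, nv sp (af (t k))) = 1 := by
    have a1 := pow_ne_zero 4 (inv_ne_zero (n0 lam))
    have a2 := Finset.prod_ne_zero_iff.2 fun k (_ : k ∈ Finset.univ) => n0 (t k)
    rw [← av_eq_zero_iff (mul_ne_zero (mul_ne_zero a1 hO.lc) a2),
      av_mul (mul_ne_zero a1 hO.lc) a2, av_mul a1 hO.lc, av_pow, av_inv,
      av_prod _ fun k _ => n0 (t k)]
    simp only [mu] at hm
    push_cast
    linear_combination hm
  have h1 := R3.tcb (tv_cst sp cd.n1) (tv_cst sp cd.n2) s' t'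
  have h2 := R3.ttri (tv_G X sp) h1 h1 h1
  have h3 : ∀ k, Tends sp.v (nz sp (af (t k)) 0 * ct t' - nz sp (af (t k)) 1 * ct s')
      (rd sp (af (t k)) 0 * t' - rd sp (af (t k)) 1 * s') := fun k =>
    ((tv_nz sp _ 0).mul (Tends.const _)).sub ((tv_nz sp _ 1).mul (Tends.const _))
  have h4 := (tends_lim hv.le).mul (((h3 0).mul (h3 1)).mul (h3 2))
  have h5 := h2.eq_of_eq h4 (by
    have e := fac hO.inj (fun k => by rw [← fpt_eq, hO.fac,
      Finset.prod_eq_zero (Finset.mem_univ k) (sub_self _), mul_zero]) (ct s') (ct t')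
    have e2 : ∀ (c : Om) (g : Fin 20 → Om) y, tri (fun i => c * g i) y y y = c * tri g y y y :=
      fun c g y => by
        simp only [tri]
        ring
    have e3 : ∀ k, nv sp (af (t k)) * (nz sp (af (t k)) 0 * ct t' - nz sp (af (t k)) 1 * ct s')
        = ct t' - t k * ct s' := fun k => by
      have := n0 (t k)
      simp only [nz, af_0, af_1]
      field_simp
    unfold nz at e3 ⊢
    rw [(hH _ _ _ _).1, e2, e, ← hl]
    simp only [Fin.prod_univ_three, ← e3]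
    ring)
  rw [h] at h5
  have h6 := (mul_eq_zero.1 h5.symm).resolve_left (R3.ne_of_v (tends_lim hv.le) hv)
  simp only [mul_eq_zero, sub_eq_zero] at h6
  rcases h6 with (h6 | h6) | h6
  exacts [⟨_, h6⟩, ⟨_, h6⟩, ⟨_, h6⟩]

lemma prop {K : Type} [Field K] {p q s t : K} (h : p * t = q * s) (h0 : p ≠ 0 ∨ q ≠ 0) :
    ∃ d, s = d * p ∧ t = d * q := by
  rcases h0 with h0 | h0
  · exact ⟨s / p, by field_simp, by field_simp; linear_combination h⟩
  · exact ⟨t / q, by field_simp; linear_combination -h, by field_simp⟩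

end FX1

open FX1

theorem thm_FX1 : S_FX1 := by
  intro cd X b78 b10 b3 hF
  have ha : MV (spPl (sec (some (cd.us : ℂ)))).G (pu (fun i => ct (X i)) lam) (pu X (cd.us : ℂ)) :=
    fun i => by
      cases i
      exacts [mem_spPl.2 (Tends.const _), mem_spPl.2 (tends_sec _)]
  choose x hx hg using fun j => thm_UP thm_DEQ _ _ _ _ _ _ (B3E cd) (B3O cd) _ _ _ _ rfl ha
    (hF.g3 j)
  have hi : Injective fun j => x j 0 := fun j k e =>
    hF.i3 ((mem_spPl.1 (hx j 0)).eq_of_eq (mem_spPl.1 (hx k 0)) e)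
  have e0 : ∀ j, tri ((PO X).G (af lam)) (fpt cd (x j 0)) (fpt cd (x j 0)) (fpt cd (x j 0)) = 0 :=
    fun j => (hg j).eq 0
  have o0 : ∀ j, fpt cd (x j 0) 0 ≠ 0 := fun j => (hg j).op 0
  have o1 : ∀ j, tri ((PO X).G (af lam)) (fpt cd (x j 0)) (fpt cd (x j 0)) (ee 3) ≠ 0 :=
    fun j => (hg j).op 1
  refine ⟨fun j => x j 0, _, hi, (hg 0).op 3, fun s => ?_,
    fun k => (thm_RTH _ _ _ (e0 k) (o0 k) (o1 k)).1,
    fun k => div_ne_zero ((hg k).op 2) (pow_ne_zero _ (mul_ne_zero (o0 k) (o1 k)))⟩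
  simp only [fpt_eq] at e0 ⊢
  simpa only [mul_one] using fac hi e0 1 s

theorem thm_FX3 (hI : S_IDF) (hH : S_HOM) : S_FX3 := by
  intro cd X b78 b10 b3 t r hid _ hF hO hC c a b a' b' s1 t1 s' t' ha hb hab hL e h0
  have n0 : ∀ u : Om, af u ≠ 0 := fun u e => by simpa using congrFun e 0
  have tg := tv_G X (sec c)
  have eg : (PO X).G (nz (sec c) (af lam))
      = fun i => (nv (sec c) (af lam))⁻¹ ^ 4 * (PO X).G (af lam) i := (hH _ _ _ _).1
  have hL' := onL_lim tg ha hb (eg ▸ onL_sm hL _)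
  obtain ⟨k, hk⟩ := root hH hO (hC.1 c) (s' := s') (t' := t') (by rw [← e]; exact R3.onL hL' ..)
  obtain ⟨d, rfl, rfl⟩ := prop hk (by
    by_contra z
    push Not at z
    exact rd_ne_zero (sec c) (n0 (t k)) (funext fun i => by fin_cases i; exacts [z.1, z.2]))
  have hd : d ≠ 0 := fun z => h0 (by rw [e, z]; exact funext fun i => by simp [cb])
  have fin : ∀ s0, Tends (sec c).v (t k) s0 → ∃ α β, fpt cd s0 = cb α a' β b' := fun s0 h => by
    obtain ⟨d', hd', e'⟩ := rd_of_tv (c := 1) (x := af (t k)) (y := af s0)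
      (by simpa only [one_mul] using mv_sp.1 (mem_af (mem_spPl.2 h)))
      fun z => by simpa using congrFun z 0
    refine ⟨s1 / (d * d'), t1 / (d * d'), funext fun i => ?_⟩
    have := congrFun e i
    simp only [e', cb, af_0, af_1, fpt_eq] at this ⊢
    field_simp
    linear_combination -this
  rcases hC.2 c k with ⟨i, rfl, h1, h2⟩ | ⟨i, s0, rfl, h1, h2⟩ | h
  · refine ⟨i, rfl, ?_⟩
    have hu := v_un_lt (sec (some (b78 i 0)))
    obtain ⟨α, β, e1⟩ := fin _ (tends_of_Cg hu h1)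
    have g := hF.g78 i
    have sm : tri ((Pen.of X).G (af (b78 i 0))) (fpt cd (b78 i 5)) (fpt cd (b78 i 5)) (cst cd.n2)
      ≠ 0 := g.op 3
    have x0 : fpt cd (b78 i 5) ≠ 0 := fun z => sm (by rw [z]; simp [tri])
    have e2 := fpt_on (W := w4 (sq (b78 i))) (s := b78 i 5) (g.eq 4) (g.eq 5) (g.op 1)
    have ng : Nr (sec (some (b78 i 0))) (un (sec (some (b78 i 0)))) ((PO X).G (af lam))
        ((Pen.of X).G (af (b78 i 0))) := fun j => by
      simp only [(hom_ringHom ct).G, (hom_ringHom ct).af]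
      exact mem_G (pm_Cg _ _ _) (mem_af (lam_Cg _ (pt_sec _))) j
    have nx : Nr (sec (some (b78 i 0))) (un (sec (some (b78 i 0)))) (fpt cd (t k))
        (fpt cd (b78 i 5)) := fun j => by
      simp only [(hom_ringHom ct).fpt]
      exact mv_fpt cd h1 j
    obtain ⟨u, δ, hδ, p1, l1⟩ := line (g := (Pen.of X).G (af (b78 i 0)))
      ⟨g.eq 0, g.eq 1, g.eq 2, g.eq 3⟩ (fun z => by simpa [plk_chart, lP] using congrFun z 0) e2 x0
    obtain ⟨w, γ, hγ, p2, l2⟩ := line (onL_lim (ng.tv hu) ha hb hL) hab e1 x0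
    rw [plk_chart] at p1
    obtain ⟨q, hq⟩ := same (s := w) hδ p1 e2 fun h3 => by
      have := thm_LE2 thm_RANY _ _ _ _ _ _ _ _ _ hu ng nx ⟨_, sm⟩ (hO.isR k) l1 l2 h3
      rw [h2] at this
      exact absurd this (not_le.2 (pow_lt_self_of_lt_one₀ (v_un_pos _) hu one_lt_two))
    refine ⟨q / γ, funext fun m => ?_⟩
    have := congrFun (p2.symm.trans hq) m
    field_simp
    linear_combination this
  · exfalso
    obtain ⟨α, β, e1⟩ := fin _ h1
    have g := hF.g10 i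
    have tU := mem_af (mem_spPl.2 (tends_sec (b10 i 0)))
    have hP := pm_ct (sec (some (b10 i 0))) (Pen.of X)
    have D : Deg (sec (some (b10 i 0))) ((PO X).G (af lam)) ((PO X).cs (af lam))
        ((PO X).ks (af lam)) ((PO X).Pl (af lam)) ((PO X).ff 0 0 (af lam) * (PO X).nuv (af lam))
        ((PO X).B (af lam)) _ _ _ _ :=
      ⟨hI _ _ _ (hid.eq Om ct _ 0), (mem_spPl.1 (mem_mul (mem_ff hP 0 0 tU)
        (mem_nuv hP tU))).eq_one (mul_ne_zero (g.op 0) (g.op 1)),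
        Tends.zero_iff.1 ((mem_spPl.1 (mem_B hP tU)).of_eq_right (g.eq 0)), mem_G hP tU,
        mem_cs hP tU, mem_ks hP tU, mem_Pl hP tU⟩
    have tx := mv_sp.1 (mv_fpt cd (mem_spPl.2 h1))
    have hB : ∀ n, n ≠ 0 → (sec (some (b10 i 0))).v (r k)
        = (sec (some (b10 i 0))).v ((PO X).B (af lam)) ^ n → (PO X).B (af lam) ≠ 0 :=
      fun n hn h z => hO.ne k (by simpa [z, hn] using h)
    rcases h2 with ⟨h2, h3⟩ | ⟨h2, h3⟩
    · exact (thm_LC2 (thm_RB thm_RANY) _ _ _ _ _ _ _ _ _ _ _ _ _ _ D tx h2 (hO.isR k)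
        (hB 2 two_ne_zero h3) h3).2 a b a' b' ha hb hab hL α β e1
    · exact thm_LD2 (thm_RB thm_RANY) _ _ _ _ _ _ _ _ _ _ _ _ _ _ D tx h2 (hO.isR k)
        (hB 5 (by decide) h3) h3 a b a' b' ha hb hab hL α β e1
  · exfalso
    have m0 := fun u => inv_ne_zero (nv_ne_zero (sec c) (n0 u))
    have hr := thm_RSC _ _ _ _ _ _ (hO.isR k) (m0 (t k)) (pow_ne_zero 4 (m0 lam))
    have tx : TV (sec c) (fun i => (nv (sec c) (af (t k)))⁻¹ * fpt cd (t k) i)
        (cb (rd (sec c) (af (t k)) 0) (cst cd.n1) (rd (sec c) (af (t k)) 1) (cst cd.n2)) :=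
      fun i => (((tv_nz _ _ 0).mul (tv_cst _ cd.n1 i)).add ((tv_nz _ _ 1).mul
        (tv_cst _ cd.n2 i))).of_eq_left (by simp only [cb, nz, fpt_eq, af_0, af_1]; ring)
    have e1 : cb (rd (sec c) (af (t k)) 0) (cst cd.n1) (rd (sec c) (af (t k)) 1) (cst cd.n2)
        = cb (s1 / d) a' (t1 / d) b' := funext fun i => by
      have := congrFun e i
      simp only [cb] at this ⊢
      field_simp
      linear_combination -this
    obtain ⟨w, -, -, -, l⟩ := line hL' hab e1 fun z => h0 (funext fun i => by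
      have := congrFun (e1.symm.trans z) i
      simp only [cb, Pi.zero_apply] at this ⊢
      field_simp at this
      linear_combination this)
    have a1 := mul_ne_zero (pow_ne_zero 9 (m0 (t k))) (pow_ne_zero 11 (pow_ne_zero 4 (m0 lam)))
    have := (av_pos_iff (mul_ne_zero a1 (hO.ne k))).2
      (thm_LA thm_RANY thm_RLN _ _ _ _ _ _ _ (eg ▸ tg) tx hr l)
    rw [av_mul a1 (hO.ne k), av_mul (left_ne_zero_of_mul a1) (right_ne_zero_of_mul a1), av_pow,
      av_pow, av_pow, av_inv, av_inv, h] at this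
    simp only [mu] at this
    push_cast at this
    linarith

end Pool.Agent.P.MP_7ebcb6_ag.SC
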