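import Pool.Agent.P.MP_7ebcb6_ag.SC.St2
import Pool.Agent.P.MP_7ebcb6_ag.SC.V1
import Pool.Agent.P.MP_7ebcb6_ag.SC.V2
import Pool.Agent.P.MP_7ebcb6_ag.SC.R1
import Pool.Agent.P.MP_7ebcb6_ag.SC.R2
import Pool.Agent.P.MP_7ebcb6_ag.SC.R3
import Pool.Agent.P.MP_7ebcb6_ag.SC.L1

/-! The zeros of the covariant of lines along the three points of the fixed line. -/

namespace Pool.Agent.P.MP_7ebcb6_ag.SC

open G8 Polynomial Function

noncomputable section

namespace FX2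

section alg

variable {K : Type} [Field K] (cd : CD)

lemma fpt_eq (s : K) : fpt cd s = cb 1 (cst cd.n1) s (cst cd.n2) := by simp [fpt]

lemma fpt_add (s d : K) : fpt cd (s + d) = cb 1 (fpt cd s) d (cst cd.n2) := by
  funext i
  simp only [fpt, cb]
  push_cast
  ring

lemma tri_line (g : Fin 20 → K) (a b : V4 K) (s : K) :
    tri g (cb 1 a s b) (cb 1 a s b) (cb 1 a s b)
      = tri g a a a + 3 * tri g a a b * s + 3 * tri g a b b * s ^ 2 + tri g b b b * s ^ 3 := by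
  rw [R3.tri_cb]
  ring

lemma tri_sm (d : K) (g : Fin 20 → K) (a b e : V4 K) :
    tri (fun i => d * g i) a b e = d * tri g a b e := by
  simp only [tri]
  ring

/-- The cubic on a line as a polynomial. -/
def cubP (g : Fin 20 → K) (a b : V4 K) : K[X] :=
  C (tri g a a a) + C (3 * tri g a a b) * X + C (3 * tri g a b b) * X ^ 2 + C (tri g b b b) * X ^ 3

lemma eval_cubP (g : Fin 20 → K) (a b : V4 K) (s : K) :
    (cubP g a b).eval s = tri g (cb 1 a s b) (cb 1 a s b) (cb 1 a s b) := by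
  rw [tri_line]
  simp [cubP]

lemma coeff_cubP (g : Fin 20 → K) (a b : V4 K) (n : ℕ) : (cubP g a b).coeff n =
    (if n = 0 then tri g a a a else 0) + (if n = 1 then 3 * tri g a a b else 0)
      + (if n = 2 then 3 * tri g a b b else 0) + if n = 3 then tri g b b b else 0 := by
  simp only [cubP, coeff_add, coeff_C_mul, coeff_X_pow, coeff_X, coeff_C, mul_ite, mul_one,
    mul_zero, eq_comm (a := 1) (b := n)]

lemma on_line {W a b : V4 K} {s : K} (h1 : pp (lP W) (plk a b) = 0)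
    (h2 : cb 1 a s b 2 - (cb 1 a s b 0 * W 0 + cb 1 a s b 1 * W 2) = 0)
    (h3 : b 2 - (b 0 * W 0 + b 1 * W 2) ≠ 0) :
    cb 1 a s b = cb (cb 1 a s b 0) (lA W) (cb 1 a s b 1) (lB W) := by
  have h4 : cb 1 a s b 3 - (cb 1 a s b 0 * W 1 + cb 1 a s b 1 * W 3) = 0 := by
    refine (mul_eq_zero.mp ?_).resolve_left h3
    simp only [pp, lP, plk, cb, v6_0, v6_1, v6_2, v6_3, v6_4, v6_5, ng_eq, Nat.cast_one] at h1 h2 ⊢
    linear_combination (b 3 - (b 0 * W 1 + b 1 * W 3)) * h2 - h1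
  generalize cb 1 a s b = x at *
  funext i
  fin_cases i <;> simp [cb, lA, lB]
  · linear_combination h2
  · linear_combination h4

lemma lineAt {g : Fin 20 → K} {W x w : V4 K} (hL : ∀ i, lnE g W i = 0)
    (hx : x = cb (x 0) (lA W) (x 1) (lB W)) (hw : tri g x x w ≠ 0) :
    tri g x x x = 0 ∧ ∃ t, LineAt g x t := by
  have hO : OnL g (lA W) (lB W) := ⟨hL 0, hL 1, hL 2, hL 3⟩
  have key : ∀ s t, plk x (cb s (lA W) t (lB W)) 0 ≠ 0 → LineAt g x (cb s (lA W) t (lB W)) :=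
    fun s t h => ⟨ne_iff.mpr ⟨0, h⟩, by rw [hx]; exact R3.onL hO .., by rw [hx]; exact R3.onL hO ..,
      R3.onL hO ..⟩
  refine ⟨by rw [hx]; exact R3.onL hO .., ?_⟩
  by_cases h0 : x 0 = 0
  · refine ⟨_, key 1 0 fun h => hw ?_⟩
    have h1 : x 1 = 0 := by simpa [plk, cb, lA, lB] using h
    rw [hx, h0, h1]
    simp [tri, cb]
  · exact ⟨_, key 0 1 (by simpa [plk, cb, lA, lB] using h0)⟩

end alg

/-- The cubic surface over `Om`. -/
abbrev gO (X : ℕ → ℂ) : Fin 20 → Om := (PO X).G (af lam)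

/-- Its value at the second point of the fixed line. -/
abbrev lc (cd : CD) (X : ℕ → ℂ) : Om := tri (gO X) (cst cd.n2) (cst cd.n2) (cst cd.n2)

lemma mv_cst {K L : Type} [Field K] [Field L] (G : Subring (K × L)) {n : ℕ} (v : Fin n → ℕ) :
    MV G (cst v) (cst v) := fun i => mem_nat (v i)

lemma mv_fpt {K L : Type} [Field K] [Field L] {G : Subring (K × L)} (cd : CD) {s : K} {s' : L}
    (h : (s, s') ∈ G) : MV G (fpt cd s) (fpt cd s') :=
  mem_cb (mem_nat 1) (mv_cst G _) h (mv_cst G _)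

variable {cd : CD} {X : ℕ → ℂ} {t r : Fin 3 → Om} {sp : Sp}

lemma af_ne (u : Om) : af u ≠ 0 := ne_iff.mpr ⟨0, by simp⟩

lemma tv_g (hH : S_HOM) (sp : Sp) (X : ℕ → ℂ) :
    TV sp (fun b => (nv sp (af lam))⁻¹ ^ 4 * gO X b) ((Pen.of X).G (rd sp (af lam))) := by
  have e := (hH Om (PO X) (nv sp (af lam))⁻¹ (af lam)).1
  intro b
  exact Tends.of_eq_left (mem_G (pm_ct sp (Pen.of X)) (tv_nz sp (af lam)) b) (congrFun e b)

lemma b_nonneg (hH : S_HOM) (hI : Ind (cst cd.n1 : V4 ℂ) (cst cd.n2)) (hO : FxO cd X t r) (sp : Sp)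
    (k : Fin 3) : 0 ≤ av sp (r k) - 44 * mu sp (af lam) - 9 * mu sp (af (t k)) := by
  have h1 := nv_ne_zero sp (af_ne lam)
  have h2 := nv_ne_zero sp (af_ne (t k))
  have hx : TV sp (fun i => (nv sp (af (t k)))⁻¹ * fpt cd (t k) i)
      (cb (rd sp (af (t k)) 0) (cst cd.n1) (rd sp (af (t k)) 1) (cst cd.n2)) := fun i =>
    Tends.of_eq_left (mem_cb (G := (spPl sp).G) (tv_nz sp (af (t k)) 0) (mv_cst _ _)
      (tv_nz sp (af (t k)) 1) (mv_cst _ _) i) (by
        simp only [fpt, cb, af_0, af_1, Nat.cast_one]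
        ring)
  have h0 : cb (rd sp (af (t k)) 0) (cst cd.n1) (rd sp (af (t k)) 1) (cst cd.n2) ≠ 0 := fun e =>
    rd_ne_zero sp (af_ne (t k)) (funext (Fin.forall_fin_two.mpr (L1.ind hI e)))
  have h3 := av_nonneg (thm_L0 thm_RANY sp _ _ _ _ _ (tv_g hH sp X) hx h0
    (thm_RSC Om _ _ _ _ _ (hO.isR k) (inv_ne_zero h2) (pow_ne_zero 4 (inv_ne_zero h1))))
  rw [av_mul (by simp [h1, h2]) (hO.ne k), av_mul (by simp [h2]) (by simp [h1]), av_pow, av_pow,
    av_pow, av_inv, av_inv] at h3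
  simp only [mu]
  push_cast at h3
  linarith

lemma g_nonneg (hH : S_HOM) (hO : FxO cd X t r) (sp : Sp) :
    0 ≤ av sp (lc cd X) + ∑ k, mu sp (af (t k)) - 4 * mu sp (af lam) := by
  have h1 := nv_ne_zero sp (af_ne lam)
  have hg := tv_g hH sp X
  have e : C ((nv sp (af lam))⁻¹ ^ 4 * lc cd X) * ∏ k, (Polynomial.X - C (t k))
      = cubP (fun b => (nv sp (af lam))⁻¹ ^ 4 * gO X b) (cst cd.n1) (cst cd.n2) := by
    refine Polynomial.funext fun s => ?_
    rw [eval_cubP, tri_sm, ← fpt_eq, hO.fac, eval_mul, eval_C, eval_prod, mul_assoc]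
    simp only [eval_sub, eval_X, eval_C]
  have n1 : TV sp (cst cd.n1) (cst cd.n1) := mv_cst (spPl sp).G _
  have n2 : TV sp (cst cd.n2) (cst cd.n2) := mv_cst (spPl sp).G _
  have h2 := (thm_GR sp (Fin 3) t _ (cubP ((Pen.of X).G (rd sp (af lam))) (cst cd.n1) (cst cd.n2))
    (mul_ne_zero (pow_ne_zero 4 (inv_ne_zero h1)) hO.lc) (fun n => by
      rw [e, coeff_cubP, coeff_cubP]
      refine ((Tends.add ?_ ?_).add ?_).add ?_ <;> split_ifs
      exacts [R2.tv_tri hg n1 n1 n1, Tends.zero, (Tends.ofNat 3).mul (R2.tv_tri hg n1 n1 n2),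
        Tends.zero, (Tends.ofNat 3).mul (R2.tv_tri hg n1 n2 n2), Tends.zero,
        R2.tv_tri hg n2 n2 n2, Tends.zero])).1
  rw [av_mul (by simp [h1]) hO.lc, av_pow, av_inv] at h2
  simp only [mu] at h2 ⊢
  push_cast at h2
  linarith

lemma gal_ct (τ : Gal) (c : ℂ) : τ (ct c) = ct c := by
  rw [IsScalarTower.algebraMap_apply ℂ (RatFunc ℂ) Om, τ.commutes]

lemma gal_hom (τ : Gal) : Hom fun z : Om => τ z :=
  ⟨map_add τ, map_sub τ, map_mul τ, map_natCast τ⟩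

lemma gal_g (τ : Gal) (X : ℕ → ℂ) : (fun b => τ (gO X b)) = gO X := by
  funext b
  have h1 : τ lam = lam := τ.commutes _
  simp only [(gal_hom τ).G, (gal_hom τ).af, h1, Pen.map_map, gal_ct]

lemma gal_perm (hO : FxO cd X t r) (τ : Gal) :
    ∃ e : Fin 3 ≃ Fin 3, ∀ k, τ (r k * lc cd X ^ 3) = r (e k) * lc cd X ^ 3 := by
  have h1 : ∀ k, IsR (gO X) (fpt cd (τ (t k))) (τ (r k)) := fun k => by
    have h := thm_RMAP τ _ _ _ (hO.isR k)
    rwa [gal_g, funext ((gal_hom τ).fpt cd (t k))] at h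
  obtain ⟨e, he⟩ := thm_PERM Om (Fin 3) t τ hO.inj τ.injective fun k => by
    have h := (h1 k).1
    rw [hO.fac] at h
    obtain ⟨j, -, hj⟩ := Finset.prod_eq_zero_iff.mp ((mul_eq_zero.mp h).resolve_left hO.lc)
    exact ⟨j, sub_eq_zero.mp hj⟩
  refine ⟨e, fun k => ?_⟩
  have h2 : τ (lc cd X) = lc cd X := by
    rw [lc, (gal_hom τ).tri, gal_g, funext ((gal_hom τ).cst cd.n2)]
  have h3 := h1 k
  rw [he k] at h3
  rw [map_mul, map_pow, h2, thm_RUQ Om _ _ _ _ h3 (hO.isR (e k))]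

lemma nr_g {u : ℂ} (h : pt sp = some u) (X : ℕ → ℂ) :
    Nr sp (un sp) (gO X) ((Pen.of X).G (af u)) := fun b => by
  have := mem_G (pm_Cg sp (un sp) (Pen.of X)) (mem_af (lam_Cg u h)) b
  beta_reduce
  rwa [(hom_ringHom ct).G, funext ((hom_ringHom ct).af u)]

lemma nr_fpt (cd : CD) {e a : Om} {s : ℂ} (h : (a, ct s) ∈ Cg sp e) :
    Nr sp e (fpt cd a) (fpt cd s) := fun i => by
  beta_reduce
  rw [(hom_ringHom ct).fpt]
  exact mv_fpt cd h i

lemma tv_fpt (cd : CD) {a : Om} {s : ℂ} (h : Tends sp.v a s) : TV sp (fpt cd a) (fpt cd s) :=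
  mv_fpt (G := (spPl sp).G) cd h

lemma mu_af {a : Om} {s : ℂ} (h : Tends sp.v a s) : mu sp (af a) = 0 := by
  have h1 : TV sp (fun i => 1 * af a i) (af s) := fun i =>
    Tends.of_eq_left (mem_af (G := (spPl sp).G) h i) (one_mul _).symm
  rw [mu_of_tv h1 (ne_iff.mpr ⟨0, by simp⟩), av_one, neg_zero]

/-- The three points have limits on the fixed line. -/
lemma limits (hO : FxO cd X t r) {g' : Fin 20 → ℂ} (hg : TV sp (gO X) g')
    (hl : tri g' (cst cd.n2) (cst cd.n2) (cst cd.n2) ≠ 0) :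
    (∀ k, Tends sp.v (t k) (lim sp (t k))) ∧
      ∀ s, tri g' (fpt cd s) (fpt cd s) (fpt cd s) = 0 → ∃ k, s = lim sp (t k) := by
  have n1 : TV sp (cst cd.n1) (cst cd.n1) := mv_cst (spPl sp).G _
  have n2 : TV sp (cst cd.n2) (cst cd.n2) := mv_cst (spPl sp).G _
  have tl := R2.tv_tri hg n2 n2 n2
  have h1 : ∀ k, Tends sp.v (t k) (lim sp (t k)) := fun k => by
    have h := (hO.isR k).1
    rw [fpt_eq, tri_line] at h
    have h0 := hO.lc
    refine tends_lim (le_one_of_quartic sp.v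
      (((Tends.ofNat 3).mul (R2.tv_tri hg n1 n2 n2)).div tl hl).le_one
      (((Tends.ofNat 3).mul (R2.tv_tri hg n1 n1 n2)).div tl hl).le_one
      ((R2.tv_tri hg n1 n1 n1).div tl hl).le_one (Tends.zero (v := sp.v)).le_one ?_)
    field_simp
    linear_combination t k * h
  refine ⟨h1, fun s hs => ?_⟩
  have hx : TV sp (fpt cd (ct s)) (fpt cd s) := tv_fpt cd (Tends.const s)
  have h2 : Tends sp.v (∏ k, (ct s - t k)) (∏ k, (s - lim sp (t k))) := by
    simp only [Fin.prod_univ_three]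
    exact (((Tends.const s).sub (h1 0)).mul ((Tends.const s).sub (h1 1))).mul
      ((Tends.const s).sub (h1 2))
  have h3 := (R2.tv_tri hg hx hx hx).eq_of_eq (tl.mul h2) (hO.fac _)
  rw [hs] at h3
  obtain ⟨k, -, hk⟩ := Finset.prod_eq_zero_iff.mp ((mul_eq_zero.mp h3.symm).resolve_left hl)
  exact ⟨k, sub_eq_zero.mp hk⟩

/-- A line of the chart through a point of the fixed line. -/
lemma loc78 (hO : FxO cd X t r) {y : Fin 6 → ℂ} (hy : Good (B78E cd) (B78O cd) X y)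
    (h : pt sp = some (y 0)) : ∃ k, (t k, ct (y 5)) ∈ Cg sp (un sp) ∧ mu sp (af (t k)) = 0 ∧
      sp.v (r k) ≤ sp.v (un sp) := by
  have hL : ∀ i, lnE ((Pen.of X).G (af (y 0))) (w4 (sq y)) i = 0 := fun i => by
    fin_cases i
    exacts [hy.eq 0, hy.eq 1, hy.eq 2, hy.eq 3]
  have hx : fpt cd (y 5) = cb (fpt cd (y 5) 0) (lA (w4 (sq y))) (fpt cd (y 5) 1) (lB (w4 (sq y))) := by
    have e5 : fpt cd (y 5) 2 - (fpt cd (y 5) 0 * y 1 + fpt cd (y 5) 1 * y 3) = 0 := hy.eq 5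
    rw [fpt_eq] at e5 ⊢
    exact on_line (hy.eq 4) e5 (hy.op 1)
  have hw : tri ((Pen.of X).G (af (y 0))) (fpt cd (y 5)) (fpt cd (y 5)) (cst cd.n2) ≠ 0 := hy.op 3
  obtain ⟨h0, t', ht'⟩ := lineAt hL hx hw
  have ng := nr_g h X
  have hg := ng.tv (v_un_lt sp)
  obtain ⟨h1, h2⟩ := limits hO hg (hy.op 2)
  obtain ⟨k, hk⟩ := h2 _ h0
  have tk : Tends sp.v (t k) (y 5) := hk ▸ h1 k
  have nx : Nr sp (un sp) (fpt cd (ct (y 5))) (fpt cd (y 5)) := nr_fpt cd (Cg_ct sp _ _)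
  have tx := nx.tv (v_un_lt sp)
  have n2 : TV sp (cst cd.n2) (cst cd.n2) := mv_cst (spPl sp).G _
  have td : Tends sp.v (t k - ct (y 5)) 0 := (tk.sub (Tends.const _)).of_eq_right (sub_self _)
  have hc : (t k, ct (y 5)) ∈ Cg sp (un sp) := by
    refine ⟨tk.le_one, (Tends.const _).le_one, ?_⟩
    have h3 := (hO.isR k).1
    rw [← add_sub_cancel (ct (y 5)) (t k), fpt_add, tri_line] at h3
    have h4 := ((((Tends.ofNat 3).mul (R2.tv_tri hg tx tx n2)).add
      (((Tends.ofNat 3).mul (R2.tv_tri hg tx n2 n2)).mul td)).add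
      ((R2.tv_tri hg n2 n2 n2).mul (td.pow 2))).eq_one (by simpa using hw)
    refine le_trans (le_of_eq ?_) (R2.le_of_nr ng nx nx nx h0)
    rw [← mul_one (sp.v _), ← h4, ← map_mul, ← Valuation.map_neg]
    congr 1
    linear_combination -h3
  exact ⟨k, hc, mu_af tk, thm_LE1 thm_RANY sp _ _ _ _ _ t' _ (v_un_lt sp) ng (nr_fpt cd hc) ⟨_, hw⟩
    (hO.isR k) ht'⟩

open Classical in
/-- The weight of a point of the fixed line on a reducible cubic surface. -/
def wg (cd : CD) (X : ℕ → ℂ) (u s : ℂ) : ℕ :=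
  if dot ((Pen.of X).Pl (af u)) (fpt cd s) = 0 then 5 else 2

/-- A reducible cubic surface. -/
lemma loc10 (hF : S_IDF) (hP : (Pen.of X).Id) (hO : FxO cd X t r) {y : Fin 1 → ℂ}
    (hy : Good B10E (B10O cd) X y) (h : pt sp = some (y 0)) :
    sp.v ((PO X).B (af lam)) ≤ sp.v (un sp) ∧ 9 ≤ ∑ k, wg cd X (y 0) (lim sp (t k)) ∧
      ∀ k, Tends sp.v (t k) (lim sp (t k)) ∧
        sp.v (r k) ≤ sp.v ((PO X).B (af lam)) ^ wg cd X (y 0) (lim sp (t k)) ∧
        (dot ((Pen.of X).Pl (af (y 0))) (fpt cd (lim sp (t k))) = 0 →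
          qb ((Pen.of X).ks (af (y 0))) (fpt cd (lim sp (t k))) (fpt cd (lim sp (t k))) ≠ 0) := by
  have hB : (Pen.of X).B (af (y 0)) = 0 := hy.eq 0
  have hf : (Pen.of X).ff 0 0 (af (y 0)) ≠ 0 := hy.op 0
  have hn : (Pen.of X).nuv (af (y 0)) ≠ 0 := hy.op 1
  have hl : tri ((Pen.of X).G (af (y 0))) (cst cd.n2) (cst cd.n2) (cst cd.n2) ≠ 0 := hy.op 2
  have hq : qb ((Pen.of X).ks (af (y 0)))
    (cb (dot ((Pen.of X).Pl (af (y 0))) (cst cd.n2)) (cst cd.n1)
      (ng (dot ((Pen.of X).Pl (af (y 0))) (cst cd.n1))) (cst cd.n2))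
    (cb (dot ((Pen.of X).Pl (af (y 0))) (cst cd.n2)) (cst cd.n1)
      (ng (dot ((Pen.of X).Pl (af (y 0))) (cst cd.n1))) (cst cd.n2)) ≠ 0 := hy.op 3
  have hv : sp.v ((PO X).B (af lam)) ≤ sp.v (un sp) := by
    have h1 := (mem_B (pm_Cg sp (un sp) (Pen.of X)) (mem_af (lam_Cg _ h))).2.2
    rwa [← funext ((hom_ringHom ct).af (y 0)), ← (hom_ringHom ct).B, hB, map_zero, sub_zero] at h1
  have hg := (nr_g h X).tv (v_un_lt sp)
  have hP' := pm_ct sp (Pen.of X)
  have hU := mem_af (G := (spPl sp).G) (pt_eq_some.mp h)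
  have D : Deg sp (gO X) ((PO X).cs (af lam)) ((PO X).ks (af lam)) ((PO X).Pl (af lam))
      ((PO X).ff 0 0 (af lam) * (PO X).nuv (af lam)) ((PO X).B (af lam)) ((Pen.of X).G (af (y 0)))
      ((Pen.of X).cs (af (y 0))) ((Pen.of X).ks (af (y 0))) ((Pen.of X).Pl (af (y 0))) :=
    ⟨hF Om (PO X) (af lam) (hP.eq Om ct (af lam) 0),
      Tends.eq_one (mem_mul (mem_ff hP' 0 0 hU) (mem_nuv hP' hU)) (mul_ne_zero hf hn),
      hv.trans_lt (v_un_lt sp), hg, mem_cs hP' hU, mem_ks hP' hU, mem_Pl hP' hU⟩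
  have E := fun x => R3.triE (hF ℂ (Pen.of X) (af (y 0)) (hP.eq ℂ (RingHom.id ℂ) (af (y 0)) 0)) x x x
  simp only [hB, zero_mul, sub_zero] at E
  obtain ⟨h1, h2⟩ := limits hO hg hl
  generalize (Pen.of X).ks (af (y 0)) = k' at *
  have hw : ∀ s, wg cd X (y 0) s = if dot ((Pen.of X).Pl (af (y 0))) (fpt cd s) = 0 then 5 else 2 :=
    fun s => by unfold wg; congr
  generalize (Pen.of X).Pl (af (y 0)) = n' at *
  have hd : ∀ s, dot n' (fpt cd s) = dot n' (cst cd.n1) + s * dot n' (cst cd.n2) := fun s => by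
    simp only [dot, fpt_eq, cb]
    ring
  have h3 : ∀ s, dot n' (fpt cd s) = 0 → qb k' (fpt cd s) (fpt cd s) ≠ 0 := fun s hs e => hq (by
    have e1 : dot n' (cst cd.n1) = -(s * dot n' (cst cd.n2)) := by linear_combination hs - hd s
    rw [e1]
    generalize dot n' (cst cd.n2) = d
    simp only [qb, fpt_eq, cb, ng_eq] at e ⊢
    linear_combination d ^ 2 * e)
  refine ⟨hv, ?_, fun k => ⟨h1 k, ?_, h3 _⟩⟩
  · have h4 : dot n' (cst cd.n2) ≠ 0 := fun e => mul_ne_zero (mul_ne_zero hf hn) hl (by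
      rw [E, e]
      ring)
    have h5 : dot n' (fpt cd (-dot n' (cst cd.n1) / dot n' (cst cd.n2))) = 0 := by
      rw [hd, div_mul_cancel₀ _ h4, add_neg_cancel]
    obtain ⟨k, hk⟩ := h2 _ ((mul_eq_zero.mp ((E _).trans (by rw [h5]; ring))).resolve_left
      (mul_ne_zero hf hn))
    rw [hk] at h5
    have h6 : ∀ j, 2 + (if j = k then 3 else 0) ≤ wg cd X (y 0) (lim sp (t j)) := fun j => by
      rw [hw]
      split_ifs with a b b
      exacts [le_rfl, absurd (a ▸ h5) b, by norm_num, le_rfl]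
    refine le_trans (le_of_eq ?_) (Finset.sum_le_sum fun j _ => h6 j)
    simp [Finset.sum_add_distrib]
  · rw [hw]
    split_ifs with a
    exacts [thm_LD1 (thm_RB thm_RANY) _ _ _ _ _ _ _ _ _ _ _ _ _ _ D (tv_fpt cd (h1 k)) (h3 _ a)
      (hO.isR k), thm_LC1 (thm_RB thm_RANY) _ _ _ _ _ _ _ _ _ _ _ _ _ _ D (tv_fpt cd (h1 k)) a
      (hO.isR k)]

end FX2

open FX2 in
theorem thm_FX2 (hF : S_IDF) (hH : S_HOM) : S_FX2 := by
  intro cd X b78 b10 b3 t r hP hI hX hO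
  choose κ h78 using fun i => loc78 hO (hX.g78 i) (pt_sec _)
  have h10 := fun i => loc10 hF hP hO (hX.g10 i) (pt_sec _)
  let b : Option ℂ → Fin 3 → ℚ := fun c k =>
    av (sec c) (r k) - 44 * mu (sec c) (af lam) - 9 * mu (sec c) (af (t k))
  let γ : Option ℂ → ℚ := fun c =>
    av (sec c) (lc cd X) + ∑ k, mu (sec c) (af (t k)) - 4 * mu (sec c) (af lam)
  have hb : ∀ c k, 0 ≤ b c k := fun c k => b_nonneg hH hI hO _ k
  have hγ : ∀ c, 0 ≤ γ c := fun c => g_nonneg hH hO _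
  let f : Fin 78 ⊕ Fin 10 × Fin 3 → Option ℂ × Fin 3 :=
    Sum.elim (fun i => (some (b78 i 0), κ i)) fun p => (some (b10 p.1 0), p.2)
  let w : Fin 78 ⊕ Fin 10 × Fin 3 → ℚ := Sum.elim (fun _ => 1) fun p =>
    (wg cd X (b10 p.1 0) (lim (sec (some (b10 p.1 0))) (t p.2)) : ℕ)
  have hne : ∀ i j, b78 i 0 ≠ b10 j 0 := fun i j e => by
    have h1 : (Pen.of X).B (af (b78 i 0)) ≠ 0 := (hX.g78 i).op 4
    exact h1 (e ▸ (hX.g10 j).eq 0)
  have hf : Injective f := by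
    rintro (i | ⟨i, k⟩) (j | ⟨j, l⟩) e <;> simp only [f, Sum.elim_inl, Sum.elim_inr, Prod.mk.injEq,
      Option.some.injEq] at e
    · rw [hX.i78 e.1]
    · exact absurd e.1 (hne _ _)
    · exact absurd e.1.symm (hne _ _)
    · rw [hX.i10 e.1, e.2]
  have e78 : ∀ i, b (some (b78 i 0)) (κ i) = av (sec (some (b78 i 0))) (r (κ i)) := fun i => by
    simp only [b, thm_MU.1 _ _ (pt_sec _), (h78 i).2.1, mul_zero, sub_zero]
  have e10 : ∀ i k, b (some (b10 i 0)) k = av (sec (some (b10 i 0))) (r k) := fun i k => by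
    simp only [b, thm_MU.1 _ _ (pt_sec _), mu_af ((h10 i).2.2 k).1, mul_zero, sub_zero]
  have hw : ∀ j, w j ≤ b (f j).1 (f j).2 := by
    rintro (i | ⟨i, k⟩)
    · refine le_trans ?_ (e78 i).ge
      exact_mod_cast (le_av_iff (hO.ne _) 1).mpr (by rw [pow_one]; exact (h78 i).2.2)
    · exact le_trans ((le_av_iff (hO.ne k) _).mpr
        (((h10 i).2.2 k).2.1.trans (pow_le_pow_left' (h10 i).1 _))) (e10 i k).ge
  have hz : ∀ᶠ c in Filter.cofinite, (∀ k, av (sec c) (r k) = 0) ∧ av (sec c) (lc cd X) = 0 ∧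
      mu (sec c) (af lam) = 0 ∧ ∀ k, mu (sec c) (af (t k)) = 0 :=
    Filter.Eventually.and (Filter.eventually_all.mpr fun k => Filter.eventually_cofinite.mpr
      (thm_FS (r k))) (Filter.Eventually.and (thm_FS (lc cd X)) (Filter.Eventually.and
        (thm_FM 1 (af lam)) (Filter.eventually_all.mpr fun k => Filter.eventually_cofinite.mpr
          (thm_FM 1 _))))
  have hψ : ∀ k, r k * lc cd X ^ 3 ≠ 0 := fun k => mul_ne_zero (hO.ne k) (pow_ne_zero 3 hO.lc)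
  have hs : ∑ᶠ c, ∑ k, (b c k + 3 * γ c) = 168 := by
    have e : ∀ c, ∑ k, (b c k + 3 * γ c)
        = ∑ k, av (sec c) (r k * lc cd X ^ 3) + -168 * mu (sec c) (af lam) := fun c => by
      simp only [b, γ, av_mul (hO.ne _) (pow_ne_zero 3 hO.lc), av_pow, Fin.sum_univ_three]
      push_cast
      ring
    rw [finsum_congr e, finsum_add_distrib, thm_PF _ _ hψ (gal_perm hO), ← mul_finsum, thm_MU.2.2]
    · norm_num
    · refine Filter.Eventually.mono hz fun c h => ?_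
      simp [av_mul (hO.ne _) (pow_ne_zero 3 hO.lc), av_pow, h.1, h.2.1]
    · exact Filter.Eventually.mono hz fun c h => by simp [h.2.2.1]
  obtain ⟨h1, h2⟩ := thm_CNT _ _ (fun c k => b c k + 3 * γ c) f w
    (fun k => Filter.Eventually.mono hz fun c h => by simp [b, γ, h.1, h.2.1, h.2.2.1, h.2.2.2])
    (fun c k => by have := hb c k; have := hγ c; positivity) hf
    (fun j => by have := hw j; have := hγ (f j).1; linarith) (by
      rw [hs, Fintype.sum_sum_type, Fintype.sum_prod_type]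
      have h3 : ∑ _i : Fin 10, (9 : ℚ) ≤ ∑ i, ∑ k, w (.inr (i, k)) :=
        Finset.sum_le_sum fun i _ => by
          simp only [w, Sum.elim_inr]
          exact_mod_cast (h10 i).2.1
      simp only [w, Sum.elim_inl, Finset.sum_const, Finset.card_univ, Fintype.card_fin,
        nsmul_eq_mul] at h3 ⊢
      push_cast at h3 ⊢
      linarith)
  have h3 : ∀ j, b (f j).1 (f j).2 = w j := fun j => by
    have := h1 j; have := hw j; have := hγ (f j).1; linarith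
  refine ⟨fun c => ?_, fun c k => ?_⟩
  · have h4 : γ c = 0 := by
      by_cases h : (c, 0) ∈ Set.range f
      · obtain ⟨j, hj⟩ := h
        have h5 := h1 j
        rw [h3 j, hj] at h5
        linarith
      · have := h2 c 0 h; have := hb c 0; have := hγ c; linarith
    exact sub_eq_zero.mp h4
  by_cases h : (c, k) ∈ Set.range f
  · obtain ⟨i | ⟨i, l⟩, hj⟩ := h <;> obtain ⟨rfl, rfl⟩ := Prod.mk.inj hj
    · refine Or.inl ⟨i, rfl, (h78 i).1, ?_⟩
      rw [← pow_one ((sec _).v (un _)), ← av_eq_nat_iff (hO.ne _), ← e78 i]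
      exact_mod_cast h3 (.inl i)
    · obtain ⟨h4, h5, h6⟩ := (h10 i).2.2 l
      have h7 := (av_eq_nat_iff (hO.ne l) _).mp ((e10 i l).symm.trans (h3 (.inr (i, l))))
      have h8 := le_antisymm h5 ((pow_le_pow_left' (h10 i).1 _).trans h7.ge)
      refine Or.inr (Or.inl ⟨i, _, rfl, h4, ?_⟩)
      unfold wg at h8
      split_ifs at h8 with a
      exacts [Or.inr ⟨h6 a, h8⟩, Or.inl ⟨a, h8⟩]
  · have := h2 c k h; have := hb c k; have := hγ c
    refine Or.inr (Or.inr ?_)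
    simp only [b] at *
    linarith

end

end Pool.Agent.P.MP_7ebcb6_ag.SC
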