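import Pool.Agent.P.MP_7ebcb6_ag.SC.St3
import Pool.Agent.P.MP_7ebcb6_ag.G8.Indep

/-! The relation on the generic member and the main theorem, from the packages. -/

open scoped LinearAlgebra.Projectivization

namespace Pool.Agent.P.MP_7ebcb6_ag.SC

open G8 MvPolynomial

theorem genRel_of (cd : CD) (hC : S_CERT cd) (hU0 : S_UP0) (hU1 : S_UP1) (hID : S_ID)
    (hREL : S_REL) (hLN : S_LN) (h1 : S_FX1) (h2 : S_FX2) (h3 : S_FX3) (h78 : S_L78)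
    (hLAM : S_LAM) (hFIN : S_FIN) (hCH : S_CH0) (hQC : S_QC) (hG : S_G0) : GenRel := by
  obtain ⟨T, _, _, e0, e1, g0, g1⟩ := hC
  obtain ⟨s, hs⟩ := exists_indep 30
  have hz : AlgebraicIndependent ℤ s := hs.restrictScalars (algebraMap ℤ ℚ).injective_int
  obtain ⟨pl, hpl⟩ := exists_pl (aeval (R := ℤ) s).toRingHom hz (aeval (R := ℤ) e0.s).toRingHom
  have hv : MV pl.G s e0.s := fun i => by simpa using hpl (X i)
  obtain ⟨d, rfl, G0, hp, hw⟩ := hU0 cd ℂ T pl s e0 hv g0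
  obtain ⟨d1, G1⟩ := hU1 cd ℂ T pl _ _ _ _ e1 hp hw g1
  have hid := hID cd d G0
  have hrel := hREL cd _ _ G0.s0.eq
  obtain ⟨W, hW⟩ := hLN cd _ _ G0.t27
  obtain ⟨t, r, hO⟩ := h1 cd _ _ _ _ G0.fix
  have hI : Ind (cst cd.n1 : V4 ℂ) (cst cd.n2) := fun h => (G0.t27.g27 0).op 3 (by
    change pp _ (plk (cst cd.n1 : V4 ℂ) (cst cd.n2)) = 0
    rw [h]
    simp [pp])
  have hP := h3 cd _ _ _ _ t r hid hI G0.fix hO (h2 cd _ _ _ _ t r hid hI G0.fix hO)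
  have hL := hLAM cd _ _ W hid G0.t27 hW (h78 cd _ _ _ _ _ W G0.fix G0.t27 hW hP)
  obtain ⟨hS, hA⟩ := hCH cd _ _ G0.s0 hrel hid
  obtain ⟨k1, k2, k3, k4, k5⟩ := hG cd _ _ G0.s0 hrel
  refine ⟨parX (sq d.x), solX (sq d.x), ty2 (sq d.x), d.s, hs, k1, k2, Nat.cast_one, Nat.cast_one,
    k3, G0.onto, k4, k5, fun cl => ?_⟩
  obtain ⟨cl', e⟩ := hQC _ hrel cl
  obtain ⟨Φ, hΦ⟩ := hL cl'
  have := hFIN cd _ _ _ _ _ d1 cl' Φ hid G0.t27 G0.g68 hS G1 hΦ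
  rw [hA, e] at this
  exact this

theorem main_of (hG : GenRel) (hZ : S_ZERO) (hT : S_T) (hF : S_F) (D : Member ℂ)
    (hD : GoodLine D.a) (hC : D.Compat) {n : ℕ} {N : Fin (n + 1) → MvPolynomial (Fin 2 ⊕ Fin 4) ℂ}
    {R : Fin 2 × Fin 4 → MvPolynomial (Fin (n + 1)) ℂ} {d : ℕ × ℕ} {e : ℕ} (M : Model D N R d e)
    {p₀ : Pt} (hU : p₀.U 0 = 1) (hY : p₀.Y 0 = 1) (hp : p₀ ∈ D.surface) (hf : Free D.a p₀)
    (ho : Onto D.a p₀) (hN : ∃ i, eval p₀ (N i) ≠ 0)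
    (hR : ∃ j, eval (fun i => eval p₀ (N i)) (R j) ≠ 0) :
    ∃ (F : MvPolynomial (Fin (n + 1)) ℂ) (r : ℕ), F.IsHomogeneous r ∧
      eval (fun i => eval p₀ (N i)) F ≠ 0 ∧
      ∀ Z : image D.surface N →₀ ℤ, ∃ (k : ℕ) (Z' : image D.surface N →₀ ℤ), 0 < k ∧
        (∀ x ∈ Z'.support, eval x.1.rep F = 0) ∧
        k • Z - Z' ∈ ratTrivial (image D.surface N) := by
  obtain ⟨F, r, h1, h2, h3⟩ := hF D n N R d e M p₀ hU hY hp hf ho hN hR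
  refine ⟨F, r, h1, h2, fun Z => ?_⟩
  obtain ⟨k, Z', hk, h4, h5⟩ := hT D n N R d e M (hZ hG D hD hC) Z
  exact ⟨k, Z', hk, fun x hx => h3 x (h4 x hx), h5⟩

/-- The hypotheses of the main theorem can be satisfied. -/
theorem exists_member (hG : GenRel) (hV : S_CV) : ∃ (D : Member ℂ) (p₀ : Pt), GoodLine D.a ∧
    D.Compat ∧ p₀.U 0 = 1 ∧ p₀.Y 0 = 1 ∧ p₀ ∈ D.surface ∧ Free D.a p₀ ∧ Onto D.a p₀ := by
  obtain ⟨a, v, -, -, -, -, h1, h2, -, h3, h4, h5, h6, -⟩ := hG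
  obtain ⟨h7, h8⟩ := hV.2.1 a v h3
  exact ⟨memOf a v, ptOf a, h1, h7, af_0 (uOf a), h2, h8 h5, h6, (hV.1 a).mp h4⟩

end Pool.Agent.P.MP_7ebcb6_ag.SC
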