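import Pool.Agent.P.MP_7ebcb6_ag.SC.St2
import Pool.Agent.P.MP_7ebcb6_ag.SC.H2

/-! At most 27 lines, and the lines of the generic fibre. -/

namespace Pool.Agent.P.MP_7ebcb6_ag.SC

open G8 Function Module

namespace L27P

variable {K : Type} [Field K]

/-- The coordinate functions. -/
def xx (K : Type) (i : Fin 6) : (Fin 6 → K) → K := fun p => p i

/-- Linear forms. -/
def L1 (K : Type) [Field K] : Submodule K ((Fin 6 → K) → K) := Submodule.span K (Set.range (xx K))

/-- Quartic monomials. -/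
def mon (K : Type) [Field K] (m : Sym (Fin 6) 4) : (Fin 6 → K) → K := fun p => (m.1.map p).prod

/-- Quartic forms. -/
def Q4f (K : Type) [Field K] : Submodule K ((Fin 6 → K) → K) :=
  Submodule.span K (Set.range (mon K))

instance : FiniteDimensional K (Q4f K) := FiniteDimensional.span_of_finite K (Set.finite_range _)

lemma finrank_Q : finrank K (Q4f K) ≤ 126 := by
  have h := finrank_range_le_card (R := K) (mon K)
  rw [Sym.card_sym_eq_choose] at h
  exact h

lemma xx_mem (i : Fin 6) : xx K i ∈ L1 K := Submodule.subset_span ⟨i, rfl⟩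

lemma cmul (c : K) {f : (Fin 6 → K) → K} (h : f ∈ L1 K) : (fun _ => c) * f ∈ L1 K :=
  (L1 K).smul_mem c h

lemma quad {a b c d : (Fin 6 → K) → K} (ha : a ∈ L1 K) (hb : b ∈ L1 K) (hc : c ∈ L1 K)
    (hd : d ∈ L1 K) : a * (b * (c * d)) ∈ Q4f K := by
  have h : L1 K * (L1 K * (L1 K * L1 K)) ≤ Q4f K := by
    simp only [L1, Submodule.span_mul_span]
    refine Submodule.span_mono ?_
    rintro _ ⟨_, ⟨i, rfl⟩, _, ⟨_, ⟨j, rfl⟩, _, ⟨_, ⟨k, rfl⟩, _, ⟨l, rfl⟩, rfl⟩, rfl⟩, rfl⟩
    refine ⟨⟨{i, j, k, l}, rfl⟩, funext fun p => ?_⟩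
    simp [mon, xx]
  exact h (Submodule.mul_mem_mul ha (Submodule.mul_mem_mul hb (Submodule.mul_mem_mul hc hd)))

lemma tri_mem (g : Fin 20 → K) {x : (Fin 6 → K) → K} (hx : x ∈ L1 K)
    {u v w : Fin 4 → (Fin 6 → K) → K} (hu : ∀ a, u a ∈ L1 K) (hv : ∀ a, v a ∈ L1 K)
    (hw : ∀ a, w a ∈ L1 K) : x * tri (fun b _ => g b) u v w ∈ Q4f K := by
  have hl : ∀ a b c d : K, (fun _ => a) * u 0 + (fun _ => b) * u 1 + (fun _ => c) * u 2 +
      (fun _ => d) * u 3 ∈ L1 K := fun a b c d =>
    add_mem (add_mem (add_mem (cmul a (hu 0)) (cmul b (hu 1))) (cmul c (hu 2))) (cmul d (hu 3))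
  simp only [tri, mul_add]
  repeat' with_reducible apply add_mem
  all_goals exact quad hx (hl _ _ _ _) (hv _) (hw _)

lemma pv_mem (j a : Fin 4) : (fun p : Fin 6 → K => pv p j a) ∈ L1 K := by
  have h0 : (fun _ : Fin 6 → K => ((0 : ℕ) : K)) ∈ L1 K := by
    rw [Nat.cast_zero]; exact zero_mem _
  have h1 : ∀ i, (fun p : Fin 6 → K => ng (p i)) ∈ L1 K := fun i => sub_mem h0 (xx_mem i)
  fin_cases j <;> fin_cases a <;> first | exact h0 | exact h1 _ | exact xx_mem _

/-- The rows as functions of the Pluecker vector. -/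
def row (cd : CD) (g : Fin 20 → K) :
    (Fin 6 × Fin 6) ⊕ (Fin 6 × Fin 4 × Fin 4 × Fin 4) ⊕ Fin 27 → (Fin 6 → K) → K :=
  Sum.elim (fun i p => p i.1 * p i.2 * (p 0 * p 5 - p 1 * p 4 + p 2 * p 3))
    (Sum.elim (fun i p => p i.1 * tri g (pv p i.2.1) (pv p i.2.2.1) (pv p i.2.2.2))
      fun m p => p 0 * (p (cd.m27 m.val 0) * p (cd.m27 m.val 1) * p (cd.m27 m.val 2)))

lemma row_mem (cd : CD) (g : Fin 20 → K) (t) : row cd g t ∈ Q4f K := by
  rcases t with i | i | m
  · convert add_mem (sub_mem (quad (xx_mem (K := K) i.1) (xx_mem i.2) (xx_mem 0) (xx_mem 5))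
      (quad (xx_mem i.1) (xx_mem i.2) (xx_mem 1) (xx_mem 4)))
      (quad (xx_mem i.1) (xx_mem i.2) (xx_mem 2) (xx_mem 3)) using 1
    funext p
    simp only [row, Sum.elim_inl, xx, Pi.add_apply, Pi.sub_apply, Pi.mul_apply]
    ring
  · exact tri_mem g (xx_mem i.1) (pv_mem i.2.1) (pv_mem i.2.2.1) (pv_mem i.2.2.2)
  · convert quad (xx_mem (K := K) 0) (xx_mem (cd.m27 m.val 0)) (xx_mem (cd.m27 m.val 1))
      (xx_mem (cd.m27 m.val 2)) using 1
    funext p
    simp only [row, Sum.elim_inr, xx, Pi.mul_apply]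
    ring

lemma span_top {τ σ : Type} [Fintype σ] {J : τ → σ → K} (h : MI J) :
    Submodule.span K (Set.range J) = ⊤ := by
  classical
  by_contra hne
  obtain ⟨φ, h0, h1⟩ := Submodule.exists_le_ker_of_lt_top _ (lt_top_iff_ne_top.2 hne)
  have h2 := h (fun s => φ fun j => if s = j then 1 else 0) fun t => by
    have h3 : φ (J t) = 0 := h1 (Submodule.subset_span ⟨t, rfl⟩)
    rw [LinearMap.pi_apply_eq_sum_univ] at h3
    exact h3
  refine h0 (LinearMap.ext fun v => ?_)
  rw [LinearMap.pi_apply_eq_sum_univ]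
  exact Finset.sum_eq_zero fun s _ => by rw [congrFun h2 s]; simp

/-- The rows span all quartic forms. -/
lemma span_row (cd : CD) (g : Fin 20 → K) (pt : Fin 126 → Fin 6 → K)
    (h : MI fun t s => row cd g t (pt s)) : Submodule.span K (Set.range (row cd g)) = Q4f K := by
  have hle : Submodule.span K (Set.range (row cd g)) ≤ Q4f K :=
    Submodule.span_le.2 (by rintro _ ⟨t, rfl⟩; exact row_mem cd g t)
  have := Submodule.finiteDimensional_of_le hle
  refine Submodule.eq_of_le_of_finrank_le hle (finrank_Q.trans ?_)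
  have h1 := Submodule.finrank_map_le (LinearMap.funLeft K K pt)
    (Submodule.span K (Set.range (row cd g)))
  rw [Submodule.map_span, ← Set.range_comp, show ⇑(LinearMap.funLeft K K pt) ∘ row cd g =
    fun t s => row cd g t (pt s) from rfl, span_top h, finrank_top, finrank_fin_fun] at h1
  exact h1

lemma tri_cb (g : Fin 20 → K) (a b : Fin 4 → K) (s1 t1 s2 t2 s3 t3 : K) :
    tri g (cb s1 a t1 b) (cb s2 a t2 b) (cb s3 a t3 b) = s1 * s2 * s3 * tri g a a a +
      (s1 * s2 * t3 + s1 * t2 * s3 + t1 * s2 * s3) * tri g a a b +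
      (s1 * t2 * t3 + t1 * s2 * t3 + t1 * t2 * s3) * tri g a b b + t1 * t2 * t3 * tri g b b b := by
  simp only [tri, cb]
  ring

lemma pv_lP (W : V4 K) (j : Fin 4) : ∃ s t, pv (lP W) j = cb s (lA W) t (lB W) := by
  fin_cases j
  · refine ⟨0, -1, funext fun i => ?_⟩
    fin_cases i <;> simp [pv, lP, cb, lA, lB, ng]
  · refine ⟨1, 0, funext fun i => ?_⟩
    fin_cases i <;> simp [pv, lP, cb, lA, lB, ng]
  · refine ⟨W 2, -W 0, funext fun i => ?_⟩
    fin_cases i <;> simp [pv, lP, cb, lA, lB, ng] <;> ring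
  · refine ⟨W 3, -W 1, funext fun i => ?_⟩
    fin_cases i <;> simp [pv, lP, cb, lA, lB, ng] <;> ring

lemma tri_pv {g : Fin 20 → K} {W : V4 K} (h : ∀ i, lnE g W i = 0) (i j k : Fin 4) :
    tri g (pv (lP W) i) (pv (lP W) j) (pv (lP W) k) = 0 := by
  obtain ⟨s1, t1, e1⟩ := pv_lP W i
  obtain ⟨s2, t2, e2⟩ := pv_lP W j
  obtain ⟨s3, t3, e3⟩ := pv_lP W k
  have h0 : tri g (lA W) (lA W) (lA W) = 0 := h 0
  have h1 : tri g (lA W) (lA W) (lB W) = 0 := h 1
  have h2 : tri g (lA W) (lB W) (lB W) = 0 := h 2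
  have h3 : tri g (lB W) (lB W) (lB W) = 0 := h 3
  rw [e1, e2, e3, tri_cb, h0, h1, h2, h3]
  ring

lemma lP_zero (W : V4 K) : lP W 0 = 1 := by simp [lP]

lemma lP_inj {W W' : V4 K} (h : lP W = lP W') : W = W' := by
  have h1 := congrFun h 1
  have h2 := congrFun h 2
  have h3 := congrFun h 3
  have h4 := congrFun h 4
  simp [lP, ng] at h1 h2 h3 h4
  funext i
  fin_cases i
  exacts [h3, h4, h1, h2]

/-- A space of functions with `1` that is stable under separating functions is everything. -/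
lemma top_of_stable {ι κ : Type} [Fintype ι] (M : Submodule K (ι → K)) (x : κ → ι → K)
    (h1 : (1 : ι → K) ∈ M) (hs : ∀ i, ∀ f ∈ M, x i * f ∈ M)
    (hx : ∀ j k, (∀ i, x i j = x i k) → j = k) : M = ⊤ := by
  classical
  have key : ∀ j, ∀ s : Finset ι, ∃ f ∈ M, f j = 1 ∧ ∀ k ∈ s, k ≠ j → f k = 0 := by
    intro j s
    induction s using Finset.induction_on with
    | empty => exact ⟨1, h1, rfl, by simp⟩
    | insert k s _ ih =>
      obtain ⟨f, hf, e, hz⟩ := ih
      by_cases hk : k = j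
      · exact ⟨f, hf, e, fun l hl hj => hz l
          ((Finset.mem_insert.1 hl).resolve_left fun e' => hj (e'.trans hk)) hj⟩
      obtain ⟨i, hi⟩ := not_forall.1 (mt (hx j k) (Ne.symm hk))
      refine ⟨(x i j - x i k)⁻¹ • (x i * f - x i k • f),
        M.smul_mem _ (sub_mem (hs i f hf) (M.smul_mem _ hf)), ?_, fun l hl hj => ?_⟩
      · simp [e, inv_mul_cancel₀ (sub_ne_zero.2 hi)]
      · rcases Finset.mem_insert.1 hl with rfl | hl
        · simp
        · simp [hz l hl hj]
  refine eq_top_iff.2 fun v _ => ?_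
  rw [pi_eq_sum_univ v]
  refine sum_mem fun j _ => M.smul_mem _ ?_
  obtain ⟨f, hf, e, hz⟩ := key j Finset.univ
  convert hf using 1
  funext k
  split_ifs with hk
  · rw [← hk, e]
  · exact (hz k (Finset.mem_univ _) (Ne.symm hk)).symm

end L27P

open L27P

theorem thm_L27 : S_L27 := by
  intro cd K _ a h W hW hi
  set g := (PL a).G (af (a (.inr ()))) with hg
  have h1 : Submodule.span K (Set.range (row cd g)) = Q4f K :=
    span_row cd g (fun s => cst (cd.pt s)) fun e he => h e fun t => by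
      rcases t with i | i | i
      exacts [he (.inl i), he (.inr (.inl i)), he (.inr (.inr i))]
  let n : Fin 27 → Fin 28 → K := fun m j => row cd g (.inr (.inr m)) (lP (W j))
  have h2 : ∀ f ∈ Q4f K, (fun j => f (lP (W j))) ∈ Submodule.span K (Set.range n) := by
    intro f hf
    rw [← h1] at hf
    have h3 : (Submodule.span K (Set.range (row cd g))).map
        (LinearMap.funLeft K K fun j => lP (W j)) ≤ Submodule.span K (Set.range n) := by
      rw [Submodule.map_span, Submodule.span_le]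
      rintro _ ⟨_, ⟨t, rfl⟩, rfl⟩
      rcases t with i | i | m
      · convert zero_mem (Submodule.span K (Set.range n)) using 1
        refine iff_of_eq (congrArg (· ∈ _) (funext fun j => ?_))
        simp [row, LinearMap.funLeft_apply, lP, ng]
        right
        ring
      · convert zero_mem (Submodule.span K (Set.range n)) using 1
        refine iff_of_eq (congrArg (· ∈ _) (funext fun j => ?_))
        simp [row, LinearMap.funLeft_apply, tri_pv (g := g) (hW j)]
      · exact Submodule.subset_span ⟨m, rfl⟩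
    exact h3 ⟨f, hf, rfl⟩
  have h4 : Submodule.span K (Set.range n) = ⊤ := by
    refine top_of_stable _ (fun i j => lP (W j) i) ?_ (fun i f hf => ?_)
      fun j k e => hi (lP_inj (funext e))
    · convert h2 _ (quad (xx_mem 0) (xx_mem 0) (xx_mem 0) (xx_mem 0)) using 1
      funext j
      simp [xx, lP_zero]
    · induction hf using Submodule.span_induction with
      | mem f hf =>
        obtain ⟨m, rfl⟩ := hf
        convert h2 _ (quad (xx_mem i) (xx_mem (cd.m27 m.val 0)) (xx_mem (cd.m27 m.val 1))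
          (xx_mem (cd.m27 m.val 2))) using 1
        funext j
        simp [xx, n, row, lP_zero, mul_assoc]
      | zero => simp
      | add f f' _ _ h h' => rw [mul_add]; exact add_mem h h'
      | smul c f _ h => rw [mul_smul_comm]; exact Submodule.smul_mem _ _ h
  have h5 := finrank_range_le_card (R := K) n
  rw [Set.finrank, h4, finrank_top, finrank_fin_fun, Fintype.card_fin] at h5
  omega

theorem thm_LN (hLH : S_LH) : S_LN := by
  intro cd X w hT
  set sp := sec (some (cd.us : ℂ)) with hsp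
  have hN : Nr sp (un sp) ((PO X).G (af lam)) ((Pen.of X).G (af (cd.us : ℂ))) := by
    have h1 := mem_G (pm_Cg sp (un sp) (Pen.of X)) (mem_af (lam_Cg (cd.us : ℂ) (pt_sec _)))
    intro i
    beta_reduce
    rw [(hom_ringHom ct).G, funext ((hom_ringHom ct).af (cd.us : ℂ))]
    exact h1 i
  choose W hW hn _ using fun j =>
    hLH sp (un sp) _ _ (w j) (v_un_lt sp) hN (hT.g27 j).eq ((hT.g27 j).op 0)
  have hl : ∀ j, TV sp (W j) (w j) := fun j => (hn j).tv (v_un_lt sp)
  have hi : Injective W := fun j k e => hT.i27 ((hl j 0).unique (e ▸ hl k 0))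
  refine ⟨W, hi, fun V => ⟨fun hV => ?_, ?_⟩, hl⟩
  · by_contra hne
    have h1 : (L27 cd).MInj 126 (pu (fun i => ct (X i)) lam) := by
      refine thm_MUP _ _ _ _ (L27 cd) 126 (spPl sp) _ _ ?_ hT.l27
      rintro (i | i)
      · exact Tends.const (v := sp.v) (X i)
      · exact tends_sec _
    refine thm_L27 cd Om _ h1 (Fin.cons V W) (fun j => ?_) (Fin.cons_injective_iff.2 ⟨hne, hi⟩)
    refine Fin.cases ?_ (fun j => ?_) j
    · exact hV
    · exact hW j
  · rintro ⟨j, rfl⟩
    exact hW j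

end Pool.Agent.P.MP_7ebcb6_ag.SC
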