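import Pool.Agent.P.MP_7ebcb6_ag.SC.St2
import Pool.Agent.P.MP_7ebcb6_ag.SC.V1
import Pool.Agent.P.MP_7ebcb6_ag.SC.V2
import Pool.Agent.P.MP_7ebcb6_ag.SC.H1
import Pool.Agent.P.MP_7ebcb6_ag.SC.H2
import Pool.Agent.P.MP_7ebcb6_ag.SC.H3
import Pool.Agent.P.MP_7ebcb6_ag.SC.L1

/-! The curve of lines has Pluecker degree at most 78. -/

namespace Pool.Agent.P.MP_7ebcb6_ag.SC

open G8 Function

noncomputable section

namespace L78

lemma hom_gal (τ : Gal) : Hom fun z : Om => τ z :=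
  ⟨map_add τ, map_sub τ, map_mul τ, map_natCast τ⟩

lemma gal_lam (τ : Gal) : τ lam = lam := τ.commutes _

lemma gal_ct (τ : Gal) (c : ℂ) : τ (ct c) = ct c := by
  rw [IsScalarTower.algebraMap_apply ℂ (RatFunc ℂ) Om, τ.commutes]

lemma gal_G (τ : Gal) (X : ℕ → ℂ) :
    (fun b => τ ((PO X).G (af lam) b)) = (PO X).G (af lam) := by
  have h : (PO X).map (fun z : Om => τ z) = PO X := by
    rw [Pen.map_map]
    simp only [gal_ct]
  funext b
  rw [(hom_gal τ).G, h, funext ((hom_gal τ).af lam), gal_lam]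

lemma tv_cst (sp : Sp) {n : ℕ} (v : Fin n → ℕ) : TV sp (cst v) (cst v) :=
  fun i => mem_nat (G := (spPl sp).G) (v i)

lemma tv_fix (sp : Sp) (cd : CD) :
    TV sp (plk (cst cd.n1) (cst cd.n2)) (plk (cst cd.n1) (cst cd.n2)) :=
  mem_plk (G := (spPl sp).G) (tv_cst sp cd.n1) (tv_cst sp cd.n2)

lemma tri_cb {K : Type} [Field K] (g : Fin 20 → K) (a b : Fin 4 → K) (s1 t1 s2 t2 s3 t3 : K) :
    tri g (cb s1 a t1 b) (cb s2 a t2 b) (cb s3 a t3 b) = s1 * s2 * s3 * tri g a a a +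
      (s1 * s2 * t3 + s1 * t2 * s3 + t1 * s2 * s3) * tri g a a b +
      (s1 * t2 * t3 + t1 * s2 * t3 + t1 * t2 * s3) * tri g a b b + t1 * t2 * t3 * tri g b b b := by
  simp only [tri, cb]
  ring

lemma onL {K : Type} [Field K] {g : Fin 20 → K} {W : V4 K} (h : ∀ i, lnE g W i = 0)
    (s t s' t' : K) : OnL g (cb s (lA W) t (lB W)) (cb s' (lA W) t' (lB W)) := by
  have h0 : tri g (lA W) (lA W) (lA W) = 0 := h 0
  have h1 : tri g (lA W) (lA W) (lB W) = 0 := h 1
  have h2 : tri g (lA W) (lB W) (lB W) = 0 := h 2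
  have h3 : tri g (lB W) (lB W) (lB W) = 0 := h 3
  refine ⟨?_, ?_, ?_, ?_⟩ <;> rw [tri_cb, h0, h1, h2, h3] <;> ring

lemma lP_zero {K : Type} [Field K] (W : V4 K) : lP W 0 = 1 := by simp [lP]

lemma lP_ne {K : Type} [Field K] (W : V4 K) : lP W ≠ 0 :=
  fun h => one_ne_zero ((lP_zero W).symm.trans (congrFun h 0))

lemma pp_smul {K : Type} [Field K] (c : K) (p q : Fin 6 → K) :
    pp (fun i => c * p i) q = c * pp p q := by
  simp only [pp]
  ring

lemma mu_lP {sp : Sp} {W : V4 Om} {V : V4 ℂ} (h : TV sp W V) : mu sp (lP W) = 0 := by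
  have h1 : TV sp (lP W) (lP V) := mem_lP (G := (spPl sp).G) h
  have h2 : TV sp (fun i => 1 * lP W i) (lP V) := fun i => (h1 i).of_eq_left (one_mul _).symm
  rw [mu_of_tv h2 (lP_ne V), av_one, neg_zero]

/-- If the normalised Pluecker vector tends to a line of the chart, the coordinates converge. -/
lemma tv_of_rd {sp : Sp} {W : V4 Om} {V : V4 ℂ} {e : ℂ}
    (h : rd sp (lP W) = fun m => e * lP V m) : TV sp W V := by
  have he : e ≠ 0 := fun h0 => rd_ne_zero sp (lP_ne W) (by rw [h, h0]; funext m; simp)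
  have h1 := tv_nz sp (lP W)
  rw [h] at h1
  have h0 : Tends sp.v (nv sp (lP W))⁻¹ e := by
    have := h1 0
    simpa only [nz, lP_zero, mul_one] using this
  have h2 : ∀ m, Tends sp.v (lP W m) (lP V m) := fun m => by
    have h3 := (h1 m).div h0 he
    refine (h3.of_eq_left ?_).of_eq_right (by field_simp)
    have := nv_ne_zero sp (lP_ne W)
    simp only [nz]
    field_simp
  intro i
  fin_cases i
  · simpa [lP] using (h2 3).neg
  · simpa [lP] using (h2 4).neg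
  · simpa [lP] using h2 1
  · simpa [lP] using h2 2

/-- A place where the pairing vanishes to higher order is listed. -/
lemma listed {cd : CD} {X : ℕ → ℂ} {b78 : Fin 78 → Fin 6 → ℂ} (hF : FxP cd X b78)
    (hI : Ind (cst cd.n1 : V4 ℂ) (cst cd.n2)) {c : Option ℂ} {W : V4 Om}
    (hW : ∀ i, lnE ((PO X).G (af lam)) W i = 0)
    (hb : av (sec c) (pp (lP W) (plk (cst cd.n1) (cst cd.n2))) ≠ mu (sec c) (lP W)) :
    ∃ i, c = some (b78 i 0) ∧ TV (sec c) W (w4 (sq (b78 i))) := by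
  have h1 : Tends (sec c).v (pp (nz (sec c) (lP W)) (plk (cst cd.n1) (cst cd.n2)))
      (pp (rd (sec c) (lP W)) (plk (cst cd.n1) (cst cd.n2))) :=
    mem_pp (G := (spPl (sec c)).G) (tv_nz _ _) (tv_fix _ cd)
  have h2 : pp (rd (sec c) (lP W)) (plk (cst cd.n1) (cst cd.n2)) = 0 := by
    by_contra hne
    have h3 := h1.eq_one hne
    have h4 := h1.ne_zero hne
    rw [show nz (sec c) (lP W) = fun i => (nv (sec c) (lP W))⁻¹ * lP W i from rfl, pp_smul]
      at h3 h4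
    have h5 := av_of_v_one h3
    rw [av_mul (left_ne_zero_of_mul h4) (right_ne_zero_of_mul h4), av_inv] at h5
    exact hb (by rw [mu]; linarith)
  obtain ⟨a, b, a', b', ha, hb', hp, ⟨s, t, rfl⟩, s', t', rfl⟩ := thm_LIM (sec c) W
  have hab : Ind a' b' := by
    rw [Ind, hp]
    exact rd_ne_zero _ (lP_ne W)
  obtain ⟨s1, t1, s2, t2, e1, e2⟩ := thm_MEET ℂ a' b' _ _ hab hI (hp ▸ h2)
  obtain ⟨i, hc, e, he⟩ := hF c _ _ a' b' s1 t1 s2 t2 ha hb' hab (onL hW ..) e1 e2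
  exact ⟨i, hc, tv_of_rd (hp.symm.trans he)⟩

/-- At a listed place the pairing vanishes at most to the first order. -/
lemma simple {cd : CD} {X : ℕ → ℂ} {y : Fin 6 → ℂ} (hy : Good (B78E cd) (B78O cd) X y)
    {W : V4 Om} (hW : ∀ i, lnE ((PO X).G (af lam)) W i = 0)
    (hl : TV (sec (some (y 0))) W (w4 (sq y))) :
    (sec (some (y 0))).v (un (sec (some (y 0))))
      ≤ (sec (some (y 0))).v (pp (lP W) (plk (cst cd.n1) (cst cd.n2))) := by
  set sp := sec (some (y 0)) with hsp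
  have t0 : Tends sp.v (W 0) (y 1) := hl 0
  have t2 : Tends sp.v (W 2) (y 3) := hl 2
  have n1 := tv_cst sp cd.n1
  have n2 := tv_cst sp cd.n2
  have l1 := (n1 2).sub (((n1 0).mul t0).add ((n1 1).mul t2))
  have l2 := (n2 2).sub (((n2 0).mul t0).add ((n2 1).mul t2))
  have o1 : (cst cd.n2 2 : ℂ) - (cst cd.n2 0 * y 1 + cst cd.n2 1 * y 3) ≠ 0 := hy.op 1
  have e5 : fpt cd (y 5) 2 - (fpt cd (y 5) 0 * y 1 + fpt cd (y 5) 1 * y 3) = 0 := hy.eq 5
  have d2 := l2.ne_zero o1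
  have ts := (l1.div l2 o1).neg
  set s : Om := -((cst cd.n1 2 - (cst cd.n1 0 * W 0 + cst cd.n1 1 * W 2))
    / (cst cd.n2 2 - (cst cd.n2 0 * W 0 + cst cd.n2 1 * W 2))) with hs
  have ts' : Tends sp.v s (y 5) := by
    refine ts.of_eq_right ?_
    simp only [fpt, cb, Nat.cast_one] at e5
    rw [neg_eq_iff_eq_neg, div_eq_iff o1]
    linear_combination e5
  have hw : w4 (sq (v6 lam (W 0) (W 1) (W 2) (W 3) s)) = W := by
    funext i
    fin_cases i <;> rfl
  have key := thm_QU ℕ (Fin 6) (Fin 6) (B78E cd) sp (pp (lP W) (plk (cst cd.n1) (cst cd.n2)))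
    (fun i => ct (X i)) (fun i => ct (X i)) (v6 lam (W 0) (W 1) (W 2) (W 3) s)
    (fun i => ct (y i)) X y (fun i => Cg_ct _ _ _) (tv_ct sp X) (fun i => by
      fin_cases i
      exacts [tends_sec _, hl 0, hl 1, hl 2, hl 3, ts']) (tv_ct sp y) hy.inj fun t => by
      rw [← (B78E cd).map ct X y t, hy.eq t, map_zero, sub_zero]
      simp only [B78E, hw]
      fin_cases t
      · exact (congrArg sp.v (hW 0)).trans_le (by simp)
      · exact (congrArg sp.v (hW 1)).trans_le (by simp)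
      · exact (congrArg sp.v (hW 2)).trans_le (by simp)
      · exact (congrArg sp.v (hW 3)).trans_le (by simp)
      · exact le_rfl
      · have : fpt cd s 2 - (fpt cd s 0 * W 0 + fpt cd s 1 * W 2) = 0 := by
          have h := div_mul_cancel₀ (cst cd.n1 2 - (cst cd.n1 0 * W 0 + cst cd.n1 1 * W 2)) d2
          simp only [fpt, cb, Nat.cast_one, hs]
          linear_combination -h
        exact (congrArg sp.v this).trans_le (by simp)
  rw [hsp, un_sec]
  exact (key 0).2.2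

end L78

open L78

theorem thm_L78 : S_L78 := by
  intro cd X b78 b10 b3 w W hF hT hL hP
  have hW : ∀ j i, lnE ((PO X).G (af lam)) (W j) i = 0 := fun j => (hL.all _).2 ⟨j, rfl⟩
  have o3 : ∀ j, pp (lP (w j)) (plk (cst cd.n1) (cst cd.n2)) ≠ 0 := fun j => (hT.g27 j).op 3
  have hI : Ind (cst cd.n1 : V4 ℂ) (cst cd.n2) := fun h => o3 0 (by rw [h]; simp [pp])
  set ψ : Fin 27 → Om := fun j => pp (lP (W j)) (plk (cst cd.n1) (cst cd.n2)) with hψ
  have h0 : ∀ j, ψ j ≠ 0 := fun j => by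
    have h : Tends (sec (some (cd.us : ℂ))).v (ψ j) (pp (lP (w j)) (plk (cst cd.n1) (cst cd.n2))) :=
      mem_pp (G := (spPl _).G) (mem_lP (G := (spPl _).G) (hL.lim j)) (tv_fix _ cd)
    exact h.ne_zero (o3 j)
  have hpf := thm_PF (Fin 27) ψ h0 fun τ => by
    obtain ⟨e, he⟩ := thm_PERM (V4 Om) (Fin 27) W (fun V m => τ (V m)) hL.inj
      (fun V V' e => funext fun m => τ.injective (congrFun e m)) fun j => by
        obtain ⟨k, hk⟩ := (hL.all fun m => τ (W j m)).1 fun i => by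
          rw [← gal_G τ, ← (hom_gal τ).lnE, hW, map_zero]
        exact ⟨k, hk.symm⟩
    refine ⟨e, fun j => ?_⟩
    have h := hom_gal τ
    simp only [hψ, h.pp, h.lP, h.plk, h.cst, ← he j]
  have hN : ∀ u : ℂ, Nr (sec (some u)) (un (sec (some u))) ((PO X).G (af lam))
      ((Pen.of X).G (af u)) := fun u i => by
    beta_reduce
    rw [(hom_ringHom ct).G, funext ((hom_ringHom ct).af u)]
    exact mem_G (pm_Cg _ _ (Pen.of X)) (mem_af (lam_Cg u (pt_sec _))) i
  have hJ : ∀ i : Fin 78, ∃ j, TV (sec (some (b78 i 0))) (W j) (w4 (sq (b78 i))) ∧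
      ∀ k, TV (sec (some (b78 i 0))) (W k) (w4 (sq (b78 i))) → k = j := fun i => by
    obtain ⟨V, h1, h2, h3⟩ := thm_LH (thm_UP thm_DEQ) _ _ _ _ (w4 (sq (b78 i))) (v_un_lt _)
      (hN (b78 i 0)) (fun m => by
        fin_cases m
        exacts [(hF.g78 i).eq 0, (hF.g78 i).eq 1, (hF.g78 i).eq 2, (hF.g78 i).eq 3])
      ((hF.g78 i).op 0)
    obtain ⟨j, rfl⟩ := (hL.all V).1 h1
    exact ⟨j, h2.tv (v_un_lt _), fun k hk => hL.inj (h3 _ (hW k) hk)⟩
  choose J hJ1 hJ2 using hJ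
  have hsum := thm_LST (Fin 27) (Fin 78) (fun c j => av (sec c) (ψ j) - mu (sec c) (lP (W j)))
    (fun i => (some (b78 i 0), J i))
    (fun i i' e => hF.i78 (Option.some.inj (Prod.mk.inj e).1)) fun c j hn => by
      by_contra hne
      obtain ⟨i, rfl, hi⟩ := listed hP hI (hW j) (sub_ne_zero.1 hne)
      exact hn ⟨i, Prod.ext rfl (hJ2 i j hi).symm⟩
  have f1 : (support fun c => ∑ j, av (sec c) (ψ j)).Finite :=
    (Set.finite_iUnion fun j => thm_FS (ψ j)).subset fun c hc => by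
      obtain ⟨j, -, hj⟩ := Finset.exists_ne_zero_of_sum_ne_zero hc
      exact Set.mem_iUnion.2 ⟨j, hj⟩
  have f2 : (support fun c => ∑ j, -mu (sec c) (lP (W j))).Finite :=
    (Set.finite_iUnion fun j => thm_FM 5 (lP (W j))).subset fun c hc => by
      obtain ⟨j, -, hj⟩ := Finset.exists_ne_zero_of_sum_ne_zero hc
      exact Set.mem_iUnion.2 ⟨j, neg_ne_zero.1 hj⟩
  have h1 := finsum_add_distrib f1 f2
  simp only [← Finset.sum_add_distrib, ← sub_eq_add_neg] at h1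
  rw [hpf, zero_add, hsum] at h1
  rw [← h1]
  refine (Finset.sum_le_card_nsmul _ _ 1 fun i _ => ?_).trans (by simp)
  rw [mu_lP (hJ1 i), sub_zero, ← av_un (sec (some (b78 i 0))), av_le_iff (un_ne_zero _) (h0 _)]
  exact simple (hF.g78 i) (hW _) (hJ1 i)

end

end Pool.Agent.P.MP_7ebcb6_ag.SC
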