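import Pool.Agent.P.MP_7ebcb6_ag.SC.St3

/-! A class function on the special member induces one on the general member. -/

namespace Pool.Agent.P.MP_7ebcb6_ag.SC

open G8 Function

noncomputable section

namespace M

variable {K L : Type} [Field K] [Field L] {pl : Plc K L}

/-- The numbering of the Segre coordinates. -/
def e8 : Fin 2 × Fin 4 ≃ Fin (7 + 1) := finProdFinEquiv

/-- The Segre vector. -/
def sgv (U : V2 K) (Y : V4 K) : Fin (7 + 1) → K := fun m => U (e8.symm m).1 * Y (e8.symm m).2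

/-- `P` is proportional to the Segre vector of `(U, Y)`. -/
def Seg (P : Fin (7 + 1) → K) (U : V2 K) (Y : V4 K) : Prop :=
  U ≠ 0 ∧ Y ≠ 0 ∧ ∃ c, c ≠ 0 ∧ P = fun m => c * sgv U Y m

lemma sgv_ne {U : V2 K} {Y : V4 K} (hU : U ≠ 0) (hY : Y ≠ 0) : sgv U Y ≠ 0 := by
  obtain ⟨i, hi⟩ := ne_iff.mp hU
  obtain ⟨j, hj⟩ := ne_iff.mp hY
  exact ne_iff.mpr ⟨e8 (i, j), by simpa [sgv] using ⟨hi, hj⟩⟩

lemma seg_self {U : V2 K} {Y : V4 K} (hU : U ≠ 0) (hY : Y ≠ 0) : Seg (sgv U Y) U Y :=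
  ⟨hU, hY, 1, one_ne_zero, funext fun _ => (one_mul _).symm⟩

lemma Seg.ne {P : Fin (7 + 1) → K} {U : V2 K} {Y : V4 K} (h : Seg P U Y) : P ≠ 0 := by
  obtain ⟨hU, hY, c, hc, rfl⟩ := h
  exact fun h => sgv_ne hU hY (funext fun m => (mul_eq_zero.mp (congrFun h m)).resolve_left hc)

lemma Seg.smul {P : Fin (7 + 1) → K} {U : V2 K} {Y : V4 K} (h : Seg P U Y) {a : K} (ha : a ≠ 0) :
    Seg (fun m => a * P m) U Y := by
  obtain ⟨hU, hY, c, hc, rfl⟩ := h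
  exact ⟨hU, hY, a * c, mul_ne_zero ha hc, funext fun _ => (mul_assoc _ _ _).symm⟩

lemma Seg.uniq {P : Fin (7 + 1) → K} {U U' : V2 K} {Y Y' : V4 K} (h : Seg P U Y)
    (h' : Seg P U' Y') : ∃ a b, a ≠ 0 ∧ b ≠ 0 ∧ (U' = fun i => a * U i) ∧ Y' = fun j => b * Y j := by
  obtain ⟨-, -, c, hc, rfl⟩ := h
  obtain ⟨hU, hY, d, hd, e⟩ := h'
  obtain ⟨i, hi⟩ := ne_iff.mp hU
  obtain ⟨j, hj⟩ := ne_iff.mp hY
  have hi' : U' i ≠ 0 := hi
  have hj' : Y' j ≠ 0 := hj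
  have key : ∀ i j, c * (U i * Y j) = d * (U' i * Y' j) := fun i j => by
    simpa only [sgv, Equiv.symm_apply_apply] using congrFun e (e8 (i, j))
  have h0 : U i * Y j ≠ 0 := right_ne_zero_of_mul (key i j ▸ mul_ne_zero hd (mul_ne_zero hi' hj'))
  refine ⟨c * Y j / (d * Y' j), c * U i / (d * U' i),
    div_ne_zero (mul_ne_zero hc (right_ne_zero_of_mul h0)) (mul_ne_zero hd hj'),
    div_ne_zero (mul_ne_zero hc (left_ne_zero_of_mul h0)) (mul_ne_zero hd hi'),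
    funext fun k => ?_, funext fun k => ?_⟩
  · field_simp
    linear_combination -key k j
  · field_simp
    linear_combination -key i k

lemma red_smul {n : ℕ} {P : Fin n → K} {Q : Fin n → L} (h : pl.Red P Q) {a : K} (ha : a ≠ 0) :
    pl.Red (fun i => a * P i) Q := by
  obtain ⟨h0, c, hc⟩ := h
  exact ⟨h0, c / a, fun i => by rw [← mul_assoc, div_mul_cancel₀ _ ha]; exact hc i⟩

lemma red_sgv {U : V2 K} {Y : V4 K} {U' : V2 L} {Y' : V4 L} (hU : pl.Red U U')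
    (hY : pl.Red Y Y') : pl.Red (sgv U Y) (sgv U' Y') := by
  obtain ⟨h0, c, hc⟩ := hU
  obtain ⟨h1, d, hd⟩ := hY
  exact ⟨sgv_ne h0 h1, c * d, fun m => by
    rw [sgv, mul_mul_mul_comm]; exact Plc.mul (hc _) (hd _)⟩

lemma Seg.red {P : Fin (7 + 1) → K} {U : V2 K} {Y : V4 K} (h : Seg P U Y) {Q : Fin (7 + 1) → L}
    (hQ : pl.Red P Q) : ∃ U' Y', pl.Red U U' ∧ pl.Red Y Y' ∧ Seg Q U' Y' := by
  obtain ⟨hU, hY, c, hc, rfl⟩ := h
  obtain ⟨U', hU'⟩ := pl.exists_red hU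
  obtain ⟨Y', hY'⟩ := pl.exists_red hY
  exact ⟨U', Y', hU', hY', hU'.1, hY'.1, hQ.uniq (red_smul (red_sgv hU' hY') hc)⟩

lemma exists_gam (cls : V2 K → V4 K → ℚ) (h : ∀ (a b : K) U Y, a ≠ 0 → b ≠ 0 →
    cls (fun i => a * U i) (fun i => b * Y i) = cls U Y) : ∃ γ : (Fin (7 + 1) → K) → ℚ,
      (∀ (c : K) P, c ≠ 0 → γ (fun i => c * P i) = γ P) ∧ ∀ P U Y, Seg P U Y → γ P = cls U Y := by
  have hex : ∀ P, ∃ a : ℚ, (∀ U Y, Seg P U Y → a = cls U Y) ∧ ((¬ ∃ U Y, Seg P U Y) → a = 0) := by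
    intro P
    by_cases hP : ∃ U Y, Seg P U Y
    · obtain ⟨U, Y, hP⟩ := hP
      refine ⟨cls U Y, fun U' Y' h' => ?_, fun h' => absurd ⟨U, Y, hP⟩ h'⟩
      obtain ⟨a, b, ha, hb, rfl, rfl⟩ := hP.uniq h'
      exact (h a b U Y ha hb).symm
    · exact ⟨0, fun U Y h' => absurd ⟨U, Y, h'⟩ hP, fun _ => rfl⟩
  choose γ h1 h2 using hex
  refine ⟨γ, fun c P hc => ?_, h1⟩
  by_cases hP : ∃ U Y, Seg P U Y
  · obtain ⟨U, Y, hP⟩ := hP
    rw [h1 _ U Y hP, h1 _ U Y (hP.smul hc)]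
  · rw [h2 _ hP, h2 _ fun ⟨U, Y, h'⟩ => hP ⟨U, Y, by
      simpa only [inv_mul_cancel_left₀ hc] using h'.smul (inv_ne_zero hc)⟩]

end M

open M in
theorem thm_M (hCLO : S_CLO) : S_M := by
  intro D D' ρ hD cl'
  have hex : ∀ (U : V2 ℂ) (Y : V4 ℂ), ∃ a : ℚ,
      (∀ U' Y', ρ.Red U U' → ρ.Red Y Y' → a = cl'.cls U' Y') ∧ (U = 0 ∨ Y = 0 → a = 0) := by
    intro U Y
    by_cases h : U = 0 ∨ Y = 0
    · exact ⟨0, fun U' Y' h1 h2 => absurd h (not_or.mpr ⟨h1.ne_zero, h2.ne_zero⟩), fun _ => rfl⟩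
    · obtain ⟨U0, h1⟩ := ρ.exists_red (not_or.mp h).1
      obtain ⟨Y0, h2⟩ := ρ.exists_red (not_or.mp h).2
      refine ⟨cl'.cls U0 Y0, fun U' Y' h3 h4 => ?_, fun h' => absurd h' h⟩
      obtain ⟨a, ha, rfl⟩ := h1.uniq h3
      obtain ⟨b, hb, rfl⟩ := h2.uniq h4
      exact cl'.smul a b U' Y' ha hb
  choose cls hcls hz using hex
  have hsm : ∀ (a b : ℂ) U Y, a ≠ 0 → b ≠ 0 →
      cls (fun i => a * U i) (fun i => b * Y i) = cls U Y := by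
    intro a b U Y ha hb
    by_cases h : U = 0 ∨ Y = 0
    · rw [hz U Y h, hz _ _ (h.imp (fun e => funext fun i => by simp [e])
        fun e => funext fun i => by simp [e])]
    · obtain ⟨U0, h1⟩ := ρ.exists_red (not_or.mp h).1
      obtain ⟨Y0, h2⟩ := ρ.exists_red (not_or.mp h).2
      rw [hcls _ _ _ _ h1 h2, hcls _ _ _ _ (red_smul h1 ha) (red_smul h2 hb)]
  obtain ⟨γ, hγ, hγs⟩ := exists_gam cls hsm
  obtain ⟨γ', hγ', hγs'⟩ := exists_gam cl'.cls cl'.smul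
  have hγγ : ∀ Q U Y R, Seg Q U Y → ρ.Red Q R → γ Q = γ' R := fun Q U Y R hQ hR => by
    obtain ⟨U', Y', h1, h2, h3⟩ := hQ.red hR
    rw [hγs _ _ _ hQ, hγs' _ _ _ h3, hcls _ _ _ _ h1 h2]
  refine ⟨⟨cls, hsm, fun U Y hb => ?_, fun U Y hU hY hOn => ?_⟩, hcls⟩
  · by_cases h : U = 0 ∨ Y = 0
    · exact hz U Y h
    · obtain ⟨U0, h1⟩ := ρ.exists_red (not_or.mp h).1
      obtain ⟨Y0, h2⟩ := ρ.exists_red (not_or.mp h).2
      rw [hcls _ _ _ _ h1 h2, cl'.bad _ _ ((hCLO ℂ ℂ ρ D D' U Y U0 Y0 hD h1 h2).2 hb)]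
  obtain ⟨δ, hδ, hval⟩ := isFam_of_galois γ hγ (fun P => ∃ U Y, Seg P U Y ∧ (D.map ct).On U Y)
    (fun K η σ ⟨U, Y, hs, ho⟩ => by
      obtain ⟨pl, hpl⟩ := exists_pl (algebraMap K Om) Subtype.val_injective (σ : K →+* Om)
      have hc : ∀ a : ℂ, (ct a, ct a) ∈ pl.G := fun a => by
        have := hpl (algebraMap ℂ K a)
        rwa [RingHom.coe_coe, σ.commutes] at this
      have hr : pl.Red (fun i => (η i : Om)) fun i => σ (η i) :=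
        ⟨fun h => hs.ne (funext fun i => congrArg Subtype.val
          ((map_eq_zero σ).mp (congrFun h i))), 1, fun i => by rw [one_mul]; exact hpl (η i)⟩
      obtain ⟨U', Y', h1, h2, h3⟩ := hs.red hr
      exact ⟨U', Y', h3, (hCLO Om Om pl _ (D.map ct) U Y U' Y'
        ⟨fun _ _ _ => hc _, fun _ _ => hc _, fun _ => hc _⟩ h1 h2).1 ho⟩)
    (fun ι _ P hP hOn hG sp0 sp1 Q0 Q1 h0 h1 hQ0 hQ1 => by
      choose U Y hs ho using hOn
      choose R0 hR0 using fun j => ρ.exists_red (hQ0 j).1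
      choose R1 hR1 using fun j => ρ.exists_red (hQ1 j).1
      choose U0 Y0 _ _ s0 using fun j => (hs j).red (hQ0 j)
      choose U1 Y1 _ _ s1 using fun j => (hs j).red (hQ1 j)
      simp only [fun j => hγγ _ _ _ _ (s0 j) (hR0 j), fun j => hγγ _ _ _ _ (s1 j) (hR1 j)]
      refine fam_main hγ' ρ hP hG (fun pl hpl j P' hP' => ?_) h0 h1 hQ0 hQ1 hR0 hR1
      obtain ⟨U', Y', h2, h3, h4⟩ := (hs j).red hP'
      obtain ⟨δ, hδ, hv⟩ := cl'.fam U' Y' h2.1 h3.1 ((hCLO Om Om pl _ (D'.map ct) _ _ U' Y'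
        ⟨fun i k c => hpl _ _ (hD.1 i k c), fun p c => hpl _ _ (hD.2.1 p c),
          fun m => hpl _ _ (hD.2.2 m)⟩ h2 h3).1 (ho j))
      refine ⟨δ, hδ, fun sp Q hQ => ?_⟩
      obtain ⟨U2, Y2, h5, h6, h7⟩ := h4.red hQ
      rw [hv sp U2 Y2 h5 h6, hγs' _ _ _ h7])
    (sgv_ne hU hY) ⟨U, Y, seg_self hU hY, hOn⟩
  exact ⟨δ, hδ, fun sp U' Y' h1 h2 =>
    (hval sp _ (red_sgv h1 h2)).trans (hγs _ _ _ (seg_self h1.1 h2.1))⟩

end

end Pool.Agent.P.MP_7ebcb6_ag.SC
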