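import Pool.Agent.P.MP_7ebcb6_ag.SC.St2

/-! Normal forms modulo the plane quartic. -/

namespace Pool.Agent.P.MP_7ebcb6_ag.SC

noncomputable section

namespace NF

variable {K A : Type} [Field K] [CommRing A] [Algebra K A]

/-- The span of the reduced monomials of degree at most `d`. -/
def T (K : Type) [Field K] [Algebra K A] (x z : A) (d : ℕ) : Submodule K A :=
  Submodule.span K {a | ∃ i j, i + j ≤ d ∧ j ≤ 3 ∧ a = x ^ i * z ^ j}

variable {x z : A} {C : ℕ → K}

lemma mon {d i j : ℕ} (h : i + j ≤ d) (hj : j ≤ 3) : x ^ i * z ^ j ∈ T K x z d :=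
  Submodule.subset_span ⟨i, j, h, hj, rfl⟩

lemma mono {d e : ℕ} {a : A} (ha : a ∈ T K x z d) (h : d ≤ e) : a ∈ T K x z e :=
  Submodule.span_mono (by rintro _ ⟨i, j, h1, h2, h3⟩; exact ⟨i, j, h1.trans h, h2, h3⟩) ha

lemma cmul {d : ℕ} {a : A} (c : K) (ha : a ∈ T K x z d) : algebraMap K A c * a ∈ T K x z d := by
  rw [← Algebra.smul_def]
  exact Submodule.smul_mem _ c ha

lemma mul_gen {d e : ℕ} {b : A}
    (h : ∀ i j, i + j ≤ d → j ≤ 3 → x ^ i * z ^ j * b ∈ T K x z e) {a : A}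
    (ha : a ∈ T K x z d) : a * b ∈ T K x z e := by
  induction ha using Submodule.span_induction with
  | mem a ha =>
    obtain ⟨i, j, h1, h2, rfl⟩ := ha
    exact h i j h1 h2
  | zero => rw [zero_mul]; exact zero_mem _
  | add a a' _ _ h1 h2 => rw [add_mul]; exact add_mem h1 h2
  | smul c a _ h1 => rw [smul_mul_assoc]; exact Submodule.smul_mem _ c h1

lemma mul_x {d : ℕ} {a : A} (ha : a ∈ T K x z d) : a * x ∈ T K x z (d + 1) :=
  mul_gen (fun i j h1 h2 => by
    rw [mul_right_comm, ← pow_succ]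
    exact mon (by omega) h2) ha

lemma mul_z (h : cf (fun i => algebraMap K A (C i)) x z = 0) {d : ℕ} {a : A}
    (ha : a ∈ T K x z d) : a * z ∈ T K x z (d + 1) :=
  mul_gen (fun i j h1 h2 => by
    rcases h2.lt_or_eq with h2 | rfl
    · rw [mul_assoc, ← pow_succ]
      exact mon (by omega) h2
    · have key : ∀ (n l : ℕ) (c : ℕ → K), n + l ≤ 5 → l ≤ 3 →
          x ^ i * (pl n (fun m => algebraMap K A (c m)) x * z ^ l) ∈ T K x z (d + 1) := by
        intro n l c h3 h4
        rw [pl_eq, Finset.sum_mul, Finset.mul_sum]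
        refine sum_mem fun m hm => ?_
        have h5 := Finset.mem_range.mp hm
        have e : x ^ i * (algebraMap K A (c m) * x ^ m * z ^ l)
            = algebraMap K A (c m) * (x ^ (i + m) * z ^ l) := by ring
        rw [e]
        exact cmul _ (mon (by omega) h4)
      have e : x ^ i * z ^ 3 * z = x ^ i * (pl 5 (fun m => algebraMap K A (C m)) x * z ^ 0)
          + x ^ i * (pl 4 (fun m => algebraMap K A (C (5 + m))) x * z ^ 1)
          + x ^ i * (pl 3 (fun m => algebraMap K A (C (9 + m))) x * z ^ 2)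
          + x ^ i * (pl 2 (fun m => algebraMap K A (C (12 + m))) x * z ^ 3) := by
        simp only [cf, cq, v4_0, v4_1, v4_2, v4_3] at h
        linear_combination x ^ i * h
      rw [e]
      exact add_mem (add_mem (add_mem (key 5 0 C le_rfl (by omega)) (key 4 1 _ le_rfl (by omega)))
        (key 3 2 _ le_rfl (by omega))) (key 2 3 _ le_rfl le_rfl)) ha

lemma mul (h : cf (fun i => algebraMap K A (C i)) x z = 0) {d e : ℕ} {a b : A}
    (ha : a ∈ T K x z d) (hb : b ∈ T K x z e) : a * b ∈ T K x z (d + e) := by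
  have h1 : ∀ i, b * x ^ i ∈ T K x z (i + e) := fun i => by
    induction i with
    | zero => simpa using hb
    | succ i ih =>
      rw [pow_succ, ← mul_assoc, add_right_comm]
      exact mul_x ih
  have h2 : ∀ i j, b * x ^ i * z ^ j ∈ T K x z (i + j + e) := fun i j => by
    induction j with
    | zero => simpa using h1 i
    | succ j ih =>
      rw [pow_succ z, ← mul_assoc, ← add_assoc, add_right_comm]
      exact mul_z h ih
  refine mul_gen (fun i j h3 _ => ?_) ha
  rw [mul_comm, ← mul_assoc]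
  exact mono (h2 i j) (by omega)

lemma pow (h : cf (fun i => algebraMap K A (C i)) x z = 0) {d : ℕ} {a : A}
    (ha : a ∈ T K x z d) (n : ℕ) : a ^ n ∈ T K x z (d * n) := by
  induction n with
  | zero => simpa using mon (K := K) (x := x) (z := z) (i := 0) (j := 0) le_rfl (by omega)
  | succ n ih => rw [pow_succ, mul_add, mul_one]; exact mul h ih ha

lemma mem_cU (i : Fin 2) : cU (fun i => algebraMap K A (C i)) x z i ∈ T K x z 2 := by
  have h1 : x * x - x ∈ T K x z 2 := by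
    have := sub_mem (mon (K := K) (x := x) (z := z) (d := 2) (i := 2) (j := 0) le_rfl (by omega))
      (mon (i := 1) (j := 0) (by omega) (by omega))
    simpa [pow_two] using this
  have h2 : z * z - z ∈ T K x z 2 := by
    have := sub_mem (mon (K := K) (x := x) (z := z) (d := 2) (i := 0) (j := 2) le_rfl (by omega))
      (mon (i := 0) (j := 1) (by omega) (by omega))
    simpa [pow_two] using this
  fin_cases i <;> exact add_mem (cmul _ h1) (cmul _ h2)

lemma mem_cub (c : ℕ → K) : cub (fun i => algebraMap K A (c i)) x z ∈ T K x z 3 := by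
  have e : cub (fun i => algebraMap K A (c i)) x z = algebraMap K A (c 0) * (x ^ 0 * z ^ 0)
      + algebraMap K A (c 1) * (x ^ 1 * z ^ 0) + algebraMap K A (c 2) * (x ^ 0 * z ^ 1)
      + algebraMap K A (c 3) * (x ^ 2 * z ^ 0) + algebraMap K A (c 4) * (x ^ 1 * z ^ 1)
      + algebraMap K A (c 5) * (x ^ 0 * z ^ 2) + algebraMap K A (c 6) * (x ^ 3 * z ^ 0)
      + algebraMap K A (c 7) * (x ^ 2 * z ^ 1) + algebraMap K A (c 8) * (x ^ 1 * z ^ 2)
      + algebraMap K A (c 9) * (x ^ 0 * z ^ 3) := by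
    simp only [cub]
    ring
  rw [e]
  repeat' apply add_mem
  all_goals exact cmul _ (mon (by omega) (by omega))

lemma mem_cY (i : Fin 4) : cY (fun i => algebraMap K A (C i)) x z i ∈ T K x z 3 := by
  fin_cases i
  exacts [mem_cub fun i => C (30 + i), mem_cub fun i => C (40 + i), mem_cub fun i => C (50 + i),
    mem_cub fun i => C (60 + i)]

lemma mem_gg (h : cf (fun i => algebraMap K A (C i)) x z = 0) (P : Pen K) {U : Fin 2 → A}
    (hU : ∀ i, U i ∈ T K x z 2) (p : Fin 6) (b : Fin 20) :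
    (P.map (algebraMap K A)).gg p U b ∈ T K x z 8 := by
  rw [Pen.gg, bf_eq]
  refine sum_mem fun m hm => cmul _ (mono (mul h (pow h (hU 0) _) (pow h (hU 1) _)) ?_)
  have := Finset.mem_range.mp hm
  omega

lemma mem_gT (h : cf (fun i => algebraMap K A (C i)) x z = 0) (P : Pen K) (τ : K) (k : Fin 3)
    {U : Fin 2 → A} (hU : ∀ i, U i ∈ T K x z 2) (b : Fin 20) :
    gT (P.map (algebraMap K A)) (algebraMap K A τ) k U b ∈ T K x z 8 := by
  fin_cases k
  exacts [mem_gg h P hU 0 b, add_mem (mem_gg h P hU 3 b) (cmul _ (mem_gg h P hU 1 b)),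
    add_mem (mem_gg h P hU 4 b) (cmul _ (mem_gg h P hU 2 b))]

lemma mem_tri (h : cf (fun i => algebraMap K A (C i)) x z = 0) {g : Fin 20 → A} {Y : Fin 4 → A}
    (hg : ∀ b, g b ∈ T K x z 8) (hY : ∀ i, Y i ∈ T K x z 3) : tri g Y Y Y ∈ T K x z 17 := by
  have h0 : ∀ a i, g a * Y i ∈ T K x z 11 := fun a i => mono (mul h (hg a) (hY i)) le_rfl
  have h1 : ∀ a b c d, g a * Y 0 + g b * Y 1 + g c * Y 2 + g d * Y 3 ∈ T K x z 11 :=
    fun a b c d => add_mem (add_mem (add_mem (h0 a 0) (h0 b 1)) (h0 c 2)) (h0 d 3)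
  have h2 : ∀ i j, Y i * Y j ∈ T K x z 6 := fun i j => mono (mul h (hY i) (hY j)) le_rfl
  have h3 : ∀ a b c d i j, (g a * Y 0 + g b * Y 1 + g c * Y 2 + g d * Y 3) * (Y i * Y j)
      ∈ T K x z 17 := fun a b c d i j => mono (mul h (h1 a b c d) (h2 i j)) le_rfl
  have h4 : ∀ a b c d i j, (g a * Y 0 + g b * Y 1 + g c * Y 2 + g d * Y 3)
      * (Y i * Y j + Y j * Y i) ∈ T K x z 17 :=
    fun a b c d i j => mono (mul h (h1 a b c d) (add_mem (h2 i j) (h2 j i))) le_rfl
  unfold tri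
  exact add_mem (add_mem (add_mem (add_mem (add_mem (add_mem (add_mem (add_mem (add_mem
    (h3 0 1 2 3 0 0) (h4 1 4 5 6 0 1)) (h4 2 5 7 8 0 2)) (h4 3 6 8 9 0 3)) (h3 4 10 11 12 1 1))
    (h4 5 11 13 14 1 2)) (h4 6 12 14 15 1 3)) (h3 7 13 16 17 2 2)) (h4 8 14 17 18 2 3))
    (h3 9 15 18 19 3 3)

lemma idx : ∀ (k : Fin 3) (i : Fin 18) (j : Fin 4), i.val + j.val ≤ 17 →
    66 * k.val + ![0, 18, 35, 51] j + i.val < 198 ∧
      ek (66 * k.val + ![0, 18, 35, 51] j + i.val) = k.val ∧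
      ei (66 * k.val + ![0, 18, 35, 51] j + i.val) = i.val ∧
      ej (66 * k.val + ![0, 18, 35, 51] j + i.val) = j.val := by
  decide

lemma coef (k : Fin 3) {a : A} (ha : a ∈ T K x z 17) : ∃ c : ℕ → K, a
    = ∑ s ∈ Finset.range 198, if ek s = k.val then algebraMap K A (c s) * (x ^ ei s * z ^ ej s)
      else 0 := by
  have h1 : T K x z 17 ≤ Submodule.span K ((fun s => x ^ ei s * z ^ ej s) ''
      ((Finset.range 198).filter fun s => ek s = k.val : Finset ℕ)) := by
    refine Submodule.span_mono ?_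
    rintro _ ⟨i, j, h2, h3, rfl⟩
    obtain ⟨h4, h5, h6, h7⟩ := idx k ⟨i, by omega⟩ ⟨j, by omega⟩ h2
    exact ⟨_, Finset.mem_coe.mpr (Finset.mem_filter.mpr ⟨Finset.mem_range.mpr h4, h5⟩),
      by simp only [h6, h7]⟩
  obtain ⟨c, hc⟩ := (Submodule.mem_span_image_finset_iff_exists_fun' K).mp (h1 ha)
  refine ⟨c, ?_⟩
  rw [← hc, Finset.sum_filter]
  simp only [Algebra.smul_def]

end NF

open MvPolynomial in
theorem thm_NF : S_NF := by
  intro K _ c P τ
  let I : Ideal (MvPolynomial (Fin 2) K) := Ideal.span {cf (fun i => C (c i)) (X 0) (X 1)}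
  have h0 : cf (fun i => algebraMap K (MvPolynomial (Fin 2) K ⧸ I) (c i))
      (Ideal.Quotient.mk I (X 0)) (Ideal.Quotient.mk I (X 1)) = 0 :=
    ((hom_ringHom (Ideal.Quotient.mk I)).cf _ _ _).symm.trans
      (Ideal.Quotient.eq_zero_iff_mem.mpr (Ideal.mem_span_singleton_self _))
  choose N hN using fun k : Fin 3 => NF.coef k
    (NF.mem_tri h0 (NF.mem_gT h0 P τ k (NF.mem_cU (C := c))) (NF.mem_cY (C := c)))
  refine ⟨fun s => if h : ek s < 3 then N ⟨ek s, h⟩ s else 0, fun A _ φ x z hf k => ?_⟩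
  let ψ : MvPolynomial (Fin 2) K ⧸ I →+* A :=
    Ideal.Quotient.lift I (eval₂Hom φ ![x, z]) fun a ha => by
      obtain ⟨b, rfl⟩ := Ideal.mem_span_singleton'.mp ha
      rw [map_mul, (hom_ringHom _).cf]
      simp [hf]
  have h1 : ∀ a, ψ (algebraMap K _ a) = φ a := fun a => eval₂Hom_C φ ![x, z] a
  have h2 : ψ (Ideal.Quotient.mk I (X 0)) = x := eval₂Hom_X' φ ![x, z] 0
  have h3 : ψ (Ideal.Quotient.mk I (X 1)) = z := eval₂Hom_X' φ ![x, z] 1
  have h4 := (hom_ringHom ψ).cT (P.map (algebraMap K _)) (fun i => algebraMap K _ (c i))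
    (Ideal.Quotient.mk I (X 0)) (Ideal.Quotient.mk I (X 1)) (algebraMap K _ τ) k
  simp only [Pen.map_map, h1, h2, h3] at h4
  rw [← h4, cT, hN k, map_sum]
  refine Finset.sum_congr rfl fun s _ => ?_
  split_ifs with h5
  · have h6 : ek s < 3 := h5 ▸ k.2
    have h7 : (⟨ek s, h6⟩ : Fin 3) = k := Fin.ext h5
    simp only [map_mul, map_pow, h1, h2, h3, dif_pos h6, h7]
  · exact map_zero ψ

end

end Pool.Agent.P.MP_7ebcb6_ag.SC
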