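import Pool.Agent.P.MP_7ebcb6_ag.SC.St1

/-! A smooth conic and a cubic meet in at most six points, and six points are simple. -/

namespace Pool.Agent.P.MP_7ebcb6_ag.SC

open Polynomial

namespace BZ

variable {K : Type} [Field K]

/-- A common root kills the resultant. -/
lemma res_zero {a0 a1 a2 b0 b1 b2 b3 s t : K} (h : s ≠ 0 ∨ t ≠ 0)
    (ha : a0 * s ^ 2 + a1 * s * t + a2 * t ^ 2 = 0)
    (hb : b0 * s ^ 3 + b1 * s ^ 2 * t + b2 * s * t ^ 2 + b3 * t ^ 3 = 0) :
    res23 a0 a1 a2 b0 b1 b2 b3 = 0 := by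
  by_cases ht : t = 0
  · have hs : s ≠ 0 := h.resolve_right (not_not.2 ht)
    subst ht
    have h1 : a0 = 0 := by
      have : a0 * s ^ 2 = 0 := by linear_combination ha
      exact (mul_eq_zero.1 this).resolve_right (pow_ne_zero _ hs)
    have h2 : b0 = 0 := by
      have : b0 * s ^ 3 = 0 := by linear_combination hb
      exact (mul_eq_zero.1 this).resolve_right (pow_ne_zero _ hs)
    subst h1 h2
    simp only [res23]
    ring
  · obtain ⟨x, rfl⟩ : ∃ x, s = x * t := ⟨s / t, by field_simp⟩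
    have h1 : a2 = -(a0 * x ^ 2 + a1 * x) := by
      apply mul_right_cancel₀ (pow_ne_zero 2 ht)
      linear_combination ha
    have h2 : b3 = -(b0 * x ^ 3 + b1 * x ^ 2 + b2 * x) := by
      apply mul_right_cancel₀ (pow_ne_zero 3 ht)
      linear_combination hb
    subst h1 h2
    simp only [res23]
    ring

lemma card_le {α : Type} {S : Set α} {P : K[X]} (hP : P ≠ 0) {f : α → K} (hf : Set.InjOn f S)
    (h0 : ∀ p ∈ S, P.eval (f p) = 0) : S.Finite ∧ S.ncard ≤ P.natDegree := by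
  classical
  have hm : ∀ p ∈ S, f p ∈ (P.roots.toFinset : Set K) := fun p hp => by
    simpa [hP] using h0 p hp
  refine ⟨Set.Finite.of_injOn hm hf (Finset.finite_toSet _), ?_⟩
  refine (Set.ncard_le_ncard_of_injOn f hm hf (Finset.finite_toSet _)).trans ?_
  rw [Set.ncard_coe_finset]
  exact (Multiset.toFinset_card_le _).trans (card_roots' P)

/-- The other points of intersection, in coordinates centred at one of them. -/
lemma core [IsAlgClosed K] [CharZero K] (L1 L2 q11 q12 q22 a1 a2 c11 c12 c22 d0 d1 d2 d3 : K)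
    (hg : q11 * L2 ^ 2 - 2 * q12 * L1 * L2 + q22 * L1 ^ 2 ≠ 0)
    (hr : res23 q11 (q12 + q12) q22 d0 (3 * d1) (3 * d2) d3 ≠ 0) (S : Set (K × K))
    (hS : ∀ p ∈ S, p ≠ 0 ∧
      2 * (L1 * p.1 + L2 * p.2) + (q11 * p.1 ^ 2 + 2 * q12 * p.1 * p.2 + q22 * p.2 ^ 2) = 0 ∧
      3 * (a1 * p.1 + a2 * p.2) + 3 * (c11 * p.1 ^ 2 + 2 * c12 * p.1 * p.2 + c22 * p.2 ^ 2)
        + (d0 * p.1 ^ 3 + 3 * d1 * p.1 ^ 2 * p.2 + 3 * d2 * p.1 * p.2 ^ 2 + d3 * p.2 ^ 3) = 0) :
    S.Finite ∧ S.ncard ≤ 5 ∧ (L1 * a2 - L2 * a1 = 0 → S.ncard ≤ 4) := by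
  obtain ⟨w1, w2, hw⟩ : ∃ w1 w2 : K, L1 * w1 + L2 * w2 = 1 := by
    by_cases h1 : L1 = 0
    · have h2 : L2 ≠ 0 := by
        rintro rfl
        exact hg (by rw [h1]; ring)
      exact ⟨0, L2⁻¹, by field_simp; ring⟩
    · exact ⟨L1⁻¹, 0, by field_simp; ring⟩
  -- the forms on the direction `w + u v`
  let sU : K → K := fun u => w1 + L2 * u
  let tU : K → K := fun u => w2 - L1 * u
  let Qu : K → K := fun u => q11 * sU u ^ 2 + 2 * q12 * sU u * tU u + q22 * tU u ^ 2
  let Cu : K → K := fun u => c11 * sU u ^ 2 + 2 * c12 * sU u * tU u + c22 * tU u ^ 2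
  let Du : K → K := fun u =>
    d0 * sU u ^ 3 + 3 * d1 * sU u ^ 2 * tU u + 3 * d2 * sU u * tU u ^ 2 + d3 * tU u ^ 3
  let s : K[X] := C w1 + C L2 * X
  let t : K[X] := C w2 - C L1 * X
  let QP : K[X] := C q11 * s ^ 2 + C (2 * q12) * s * t + C q22 * t ^ 2
  let CP : K[X] := C c11 * s ^ 2 + C (2 * c12) * s * t + C c22 * t ^ 2
  let DP : K[X] := C d0 * s ^ 3 + C (3 * d1) * s ^ 2 * t + C (3 * d2) * s * t ^ 2 + C d3 * t ^ 3
  let AP : K[X] := C (a1 * w1 + a2 * w2) + C (a1 * L2 - a2 * L1) * X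
  let P : K[X] := C 3 * AP * QP ^ 2 - C 6 * CP * QP + C 4 * DP
  have hQd : QP.natDegree ≤ 2 := by
    simp only [QP, s, t]
    compute_degree
  have hCd : CP.natDegree ≤ 2 := by
    simp only [CP, s, t]
    compute_degree
  have hDd : DP.natDegree ≤ 3 := by
    simp only [DP, s, t]
    compute_degree
  have hdeg : ∀ m : ℕ, AP.natDegree ≤ m → P.natDegree ≤ m + 4 := by
    intro m hm
    have h1 : (C 3 * AP * QP ^ 2).natDegree ≤ m + 4 :=
      natDegree_mul_le.trans (add_le_add ((natDegree_C_mul_le _ _).trans hm)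
        (natDegree_pow_le.trans (by omega)))
    have h2 : (C 6 * CP * QP).natDegree ≤ m + 4 :=
      natDegree_mul_le.trans ((add_le_add ((natDegree_C_mul_le _ _).trans hCd) hQd).trans
        (by omega))
    have h3 : (C 4 * DP).natDegree ≤ m + 4 := (natDegree_C_mul_le _ _).trans (by omega)
    exact natDegree_add_le_of_degree_le ((natDegree_sub_le _ _).trans (max_le h1 h2)) h3
  have hev : ∀ u, P.eval u = 3 * (a1 * sU u + a2 * tU u) * Qu u ^ 2 - 6 * Cu u * Qu u
      + 4 * Du u := by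
    intro u
    simp only [P, AP, QP, CP, DP, s, t, sU, tU, Qu, Cu, Du, eval_add, eval_sub, eval_mul,
      eval_pow, eval_C, eval_X]
    ring
  have hP : P ≠ 0 := by
    obtain ⟨u, hu⟩ := IsAlgClosed.exists_root
      (C (q11 * L2 ^ 2 - 2 * q12 * L1 * L2 + q22 * L1 ^ 2) * X ^ 2
        + C (2 * q11 * w1 * L2 + 2 * q12 * (L2 * w2 - L1 * w1) - 2 * q22 * w2 * L1) * X
        + C (q11 * w1 ^ 2 + 2 * q12 * w1 * w2 + q22 * w2 ^ 2))
      (by rw [degree_quadratic hg]; decide)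
    have hQ : Qu u = 0 := by
      simp only [IsRoot.def, eval_add, eval_mul, eval_pow, eval_C, eval_X] at hu
      simp only [Qu, sU, tU]
      linear_combination hu
    intro h0
    have h1 := hev u
    rw [h0, eval_zero, hQ] at h1
    have hD : Du u = 0 := by
      have : (4 : K) * Du u = 0 := by linear_combination -h1
      exact (mul_eq_zero.1 this).resolve_left (by norm_num)
    refine hr (res_zero (s := sU u) (t := tU u) ?_ ?_ ?_)
    · by_contra hc
      rw [not_or, not_not, not_not] at hc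
      have : L1 * sU u + L2 * tU u = 1 := by
        simp only [sU, tU]
        linear_combination hw
      rw [hc.1, hc.2] at this
      simp at this
    · simp only [Qu] at hQ
      linear_combination hQ
    · simp only [Du] at hD
      linear_combination hD
  -- the direction of a point
  let f : K × K → K := fun p => (p.1 * w2 - p.2 * w1) / (L1 * p.1 + L2 * p.2)
  have hdir : ∀ p ∈ S, ∃ α : K, α ≠ 0 ∧ p.1 = α * sU (f p) ∧ p.2 = α * tU (f p) ∧
      α * Qu (f p) = -2 := by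
    rintro ⟨x, y⟩ hp
    obtain ⟨h0, h1, -⟩ := hS _ hp
    simp only at h1
    have hα : L1 * x + L2 * y ≠ 0 := by
      intro hα
      have hx : x = (x * w2 - y * w1) * L2 := by linear_combination (-x) * hw + w1 * hα
      have hy : y = -(x * w2 - y * w1) * L1 := by linear_combination (-y) * hw + w2 * hα
      generalize x * w2 - y * w1 = β at hx hy
      have hβ : β ≠ 0 := by
        rintro rfl
        exact h0 (Prod.ext (by simpa using hx) (by simpa using hy))
      refine mul_ne_zero (pow_ne_zero 2 hβ) hg ?_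
      rw [hα, hx, hy] at h1
      linear_combination h1
    have hf : (L1 * x + L2 * y) * f (x, y) = x * w2 - y * w1 := mul_div_cancel₀ _ hα
    have hx : x = (L1 * x + L2 * y) * sU (f (x, y)) := by
      simp only [sU]
      linear_combination (-x) * hw - L2 * hf
    have hy : y = (L1 * x + L2 * y) * tU (f (x, y)) := by
      simp only [tU]
      linear_combination (-y) * hw + L1 * hf
    refine ⟨_, hα, hx, hy, ?_⟩
    simp only [Qu]
    generalize sU (f (x, y)) = σ at hx hy ⊢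
    generalize tU (f (x, y)) = τ at hx hy ⊢
    generalize L1 * x + L2 * y = α at hα hx hy h1 ⊢
    subst hx hy
    apply mul_left_cancel₀ hα
    linear_combination h1
  have hinj : Set.InjOn f S := by
    intro p hp p' hp' he
    obtain ⟨α, -, h1, h2, h3⟩ := hdir p hp
    obtain ⟨α', -, h1', h2', h3'⟩ := hdir p' hp'
    rw [← he] at h1' h2' h3'
    have : α = α' := by
      have h4 : (2 : K) * (α - α') = 0 := by linear_combination α * h3' - α' * h3
      exact sub_eq_zero.1 ((mul_eq_zero.1 h4).resolve_left two_ne_zero)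
    exact Prod.ext (by rw [h1, h1', this]) (by rw [h2, h2', this])
  have hroot : ∀ p ∈ S, P.eval (f p) = 0 := by
    intro p hp
    obtain ⟨α, hα, h1, h2, h3⟩ := hdir p hp
    obtain ⟨-, -, h4⟩ := hS p hp
    rw [hev]
    simp only [Cu, Du]
    generalize Qu (f p) = Q at h3 ⊢
    generalize sU (f p) = σ at h1 ⊢
    generalize tU (f p) = τ at h2 ⊢
    rw [h1, h2] at h4
    apply mul_left_cancel₀ hα
    linear_combination Q ^ 2 * h4
      - (3 * α * Q * (c11 * σ ^ 2 + 2 * c12 * σ * τ + c22 * τ ^ 2)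
        + α * (α * Q - 2) * (d0 * σ ^ 3 + 3 * d1 * σ ^ 2 * τ + 3 * d2 * σ * τ ^ 2 + d3 * τ ^ 3))
        * h3
  obtain ⟨hfin, hle⟩ := card_le hP hinj hroot
  refine ⟨hfin, hle.trans (hdeg 1 ?_), fun hJ => hle.trans (hdeg 0 ?_)⟩
  · simp only [AP]
    compute_degree
  · have : a1 * L2 - a2 * L1 = 0 := by linear_combination -hJ
    simp only [AP, this, C_0, zero_mul, add_zero, natDegree_C, le_refl]

lemma ppt_shift (b0 b1 b2 : V4 K) (p0 p : K × K) :
    ppt b0 b1 b2 p = cb3 1 (ppt b0 b1 b2 p0) (p - p0).1 b1 (p - p0).2 b2 := by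
  funext i
  simp only [ppt, cb3, Prod.fst_sub, Prod.snd_sub]
  ring

lemma qb_exp (k : Fin 6 → K) (y b1 b2 : V4 K) (s t : K) :
    qb k (cb3 1 y s b1 t b2) (cb3 1 y s b1 t b2) = qb k y y + 2 * (qb k y b1 * s + qb k y b2 * t)
      + (qb k b1 b1 * s ^ 2 + 2 * qb k b1 b2 * s * t + qb k b2 b2 * t ^ 2) := by
  simp only [qb, cb3]
  ring

lemma tri_exp (g : Fin 20 → K) (y b1 b2 : V4 K) (s t : K) :
    tri g (cb3 1 y s b1 t b2) (cb3 1 y s b1 t b2) (cb3 1 y s b1 t b2) = tri g y y y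
      + 3 * (tri g y y b1 * s + tri g y y b2 * t)
      + 3 * (tri g y b1 b1 * s ^ 2 + 2 * tri g y b1 b2 * s * t + tri g y b2 b2 * t ^ 2)
      + (tri g b1 b1 b1 * s ^ 3 + 3 * tri g b1 b1 b2 * s ^ 2 * t + 3 * tri g b1 b2 b2 * s * t ^ 2
        + tri g b2 b2 b2 * t ^ 3) := by
  simp only [tri, cb3]
  ring

lemma qb_lin (k : Fin 6 → K) (y b1 b2 a : V4 K) (s t : K) :
    qb k (cb3 1 y s b1 t b2) a = qb k y a + s * qb k b1 a + t * qb k b2 a := by
  simp only [qb, cb3]
  ring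

lemma gram_shift (k : Fin 6 → K) (b0 b1 b2 : V4 K) (p : K × K) :
    gram k (ppt b0 b1 b2 p) b1 b2 = gram k b0 b1 b2 := by
  simp only [gram, ppt]
  rw [qb_exp]
  simp only [qb_lin, det3, qb_comm k b2 b1]
  ring

end BZ

theorem thm_BZ : S_BZ := by
  intro K _ _ _ k g b0 b1 b2 Z hg hr hZ
  have key : ∀ p0 ∈ Z, (Z \ {p0}).Finite ∧ (Z \ {p0}).ncard ≤ 5 ∧
      (qb k (ppt b0 b1 b2 p0) b1 * tri g (ppt b0 b1 b2 p0) (ppt b0 b1 b2 p0) b2
        - qb k (ppt b0 b1 b2 p0) b2 * tri g (ppt b0 b1 b2 p0) (ppt b0 b1 b2 p0) b1 = 0 →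
        (Z \ {p0}).ncard ≤ 4) := by
    intro p0 hp0
    obtain ⟨h1, h2⟩ := (hZ p0).1 hp0
    have hinj : Function.Injective fun p : K × K => p - p0 := sub_left_injective
    have h := BZ.core (qb k (ppt b0 b1 b2 p0) b1) (qb k (ppt b0 b1 b2 p0) b2) (qb k b1 b1)
      (qb k b1 b2) (qb k b2 b2) (tri g (ppt b0 b1 b2 p0) (ppt b0 b1 b2 p0) b1)
      (tri g (ppt b0 b1 b2 p0) (ppt b0 b1 b2 p0) b2) (tri g (ppt b0 b1 b2 p0) b1 b1)
      (tri g (ppt b0 b1 b2 p0) b1 b2) (tri g (ppt b0 b1 b2 p0) b2 b2) (tri g b1 b1 b1)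
      (tri g b1 b1 b2) (tri g b1 b2 b2) (tri g b2 b2 b2)
      (by
        intro h0
        apply hg
        rw [← BZ.gram_shift k b0 b1 b2 p0]
        simp only [gram, det3, h1]
        linear_combination -h0)
      (by simpa only [resQ, resL, Nat.cast_ofNat] using hr)
      ((fun p => p - p0) '' (Z \ {p0}))
      (by
        rintro _ ⟨p, ⟨hp, hne⟩, rfl⟩
        obtain ⟨h3, h4⟩ := (hZ p).1 hp
        rw [BZ.ppt_shift b0 b1 b2 p0 p] at h3 h4
        rw [BZ.qb_exp, h1, zero_add] at h3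
        rw [BZ.tri_exp, h2, zero_add] at h4
        exact ⟨sub_ne_zero.2 hne, h3, h4⟩)
    rw [Set.ncard_image_of_injective _ hinj] at h
    exact ⟨Set.Finite.of_finite_image h.1 hinj.injOn, h.2⟩
  rcases Z.eq_empty_or_nonempty with rfl | ⟨p0, hp0⟩
  · simp
  have hfin : Z.Finite := by
    have := (key p0 hp0).1.insert p0
    rwa [Set.insert_sdiff_singleton, Set.insert_eq_of_mem hp0] at this
  refine ⟨hfin, ?_, fun h6 p hp h0 => ?_⟩
  · have h1 := Set.ncard_sdiff_singleton_add_one hp0 hfin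
    have h2 := (key p0 hp0).2.1
    omega
  · have h1 := Set.ncard_sdiff_singleton_add_one hp hfin
    have h2 := (key p hp).2.2 h0
    omega

end Pool.Agent.P.MP_7ebcb6_ag.SC
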