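import Pool.Agent.P.MP_7ebcb6_ag.SC.St1

/-! A plane section of a fibre has class zero. -/

namespace Pool.Agent.P.MP_7ebcb6_ag.SC

open G8 Function

noncomputable section

namespace PS0

/-- The parameters: a quadric, a cubic and three vectors. -/
abbrev Par : Type := (Fin 6 ⊕ Fin 20) ⊕ (Fin 3 × Fin 4)

section defs

variable {R : Type} [Add R] [Sub R] [Mul R] [NatCast R]

/-- The point of the plane. -/
def pY (a : Par → R) (x : Fin 2 → R) : Fin 4 → R :=
  cb3 ((1 : ℕ) : R) (fun i => a (.inr (0, i))) (x 0) (fun i => a (.inr (1, i))) (x 1)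
    fun i => a (.inr (2, i))

/-- The two equations. -/
def pE (a : Par → R) (x : Fin 2 → R) : Fin 2 → R :=
  v2 (qb (fun i => a (.inl (.inl i))) (pY a x) (pY a x))
    (tri (fun i => a (.inl (.inr i))) (pY a x) (pY a x) (pY a x))

end defs

/-- The system of the two equations. -/
def eS : Sys Par (Fin 2) (Fin 2) where
  ev a x := pE a x
  nat {R S} _ _ _ _ _ _ _ _ {f} h a x t := by
    have e : (fun i => f (pY a x i)) = pY (fun i => f (a i)) fun i => f (x i) :=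
      funext fun i => by rw [pY, h.cb3, h.nat]; rfl
    rw [pE, app_v2 f, h.qb, h.tri, e]
    rfl

/-- The empty system. -/
def oS : Sys Par (Fin 2) Empty := ⟨fun _ _ e => e.elim, fun _ _ _ e => e.elim⟩

/-- The parameters as one family. -/
def par {R : Type} (k : Fin 6 → R) (g : Fin 20 → R) (b0 b1 b2 : Fin 4 → R) : Par → R :=
  Sum.elim (Sum.elim k g) fun q => ![b0, b1, b2] q.1 q.2

section du

variable {R : Type} [CommRing R]

lemma add_a (x y : Du R) : (x + y).a = x.a + y.a := rfl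
lemma add_b (x y : Du R) : (x + y).b = x.b + y.b := rfl
lemma mul_a (x y : Du R) : (x * y).a = x.a * y.a := rfl
lemma mul_b (x y : Du R) : (x * y).b = x.a * y.b + x.b * y.a := rfl
lemma nat_a (n : ℕ) : ((n : ℕ) : Du R).a = n := rfl
lemma nat_b (n : ℕ) : ((n : ℕ) : Du R).b = ((0 : ℕ) : R) := rfl

lemma qb_du (k : Fin 6 → R) (y z : Fin 4 → R) :
    (qb (fun i => (⟨k i, 0⟩ : Du R)) (fun i => ⟨y i, z i⟩) fun i => ⟨y i, z i⟩).b =
      2 * qb k y z := by
  simp only [qb, add_a, add_b, mul_a, mul_b]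
  ring

lemma tri_du (g : Fin 20 → R) (y z : Fin 4 → R) :
    (tri (fun i => (⟨g i, 0⟩ : Du R)) (fun i => ⟨y i, z i⟩) (fun i => ⟨y i, z i⟩)
      fun i => ⟨y i, z i⟩).b = 3 * tri g y y z := by
  simp only [tri, add_a, add_b, mul_a, mul_b]
  ring

lemma pY_du (a : Par → R) (x e : Fin 2 → R) :
    pY (fun i => (⟨a i, 0⟩ : Du R)) (fun s => ⟨x s, e s⟩) =
      fun i => ⟨pY a x i, cb (e 0) (fun i => a (.inr (1, i))) (e 1) (fun i => a (.inr (2, i))) i⟩ := by
  funext i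
  ext
  · rfl
  · simp only [pY, cb3, cb, add_b, mul_b, nat_a, nat_b]
    push_cast
    ring

end du

variable {K : Type} [Field K]

lemma pY_par (k : Fin 6 → K) (g : Fin 20 → K) (b0 b1 b2 : V4 K) (x : Fin 2 → K) :
    pY (par k g b0 b1 b2) x = ppt b0 b1 b2 (x 0, x 1) := by
  rw [pY, ppt, Nat.cast_one]
  rfl

lemma ev_zero (k : Fin 6 → K) (g : Fin 20 → K) (b0 b1 b2 : V4 K) (x : Fin 2 → K) :
    eS.ev (par k g b0 b1 b2) x 0 = qb k (ppt b0 b1 b2 (x 0, x 1)) (ppt b0 b1 b2 (x 0, x 1)) := by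
  rw [← pY_par k g]
  rfl

lemma ev_one (k : Fin 6 → K) (g : Fin 20 → K) (b0 b1 b2 : V4 K) (x : Fin 2 → K) :
    eS.ev (par k g b0 b1 b2) x 1 = tri g (ppt b0 b1 b2 (x 0, x 1)) (ppt b0 b1 b2 (x 0, x 1))
      (ppt b0 b1 b2 (x 0, x 1)) := by
  rw [← pY_par k g]
  rfl

lemma inj [CharZero K] (k : Fin 6 → K) (g : Fin 20 → K) (b0 b1 b2 : V4 K) (x : Fin 2 → K)
    (h : qb k (ppt b0 b1 b2 (x 0, x 1)) b1 *
        tri g (ppt b0 b1 b2 (x 0, x 1)) (ppt b0 b1 b2 (x 0, x 1)) b2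
      - qb k (ppt b0 b1 b2 (x 0, x 1)) b2 *
        tri g (ppt b0 b1 b2 (x 0, x 1)) (ppt b0 b1 b2 (x 0, x 1)) b1 ≠ 0) :
    eS.Inj (par k g b0 b1 b2) x := by
  intro e he
  have h0 : 2 * qb k (ppt b0 b1 b2 (x 0, x 1)) (cb (e 0) b1 (e 1) b2) = 0 := by
    rw [← he 0, ← qb_du, ← pY_par k g]
    exact congrArg (fun Y => (qb (fun i => (⟨k i, 0⟩ : Du K)) Y Y).b)
      (pY_du (par k g b0 b1 b2) x e).symm
  have h1 : 3 * tri g (ppt b0 b1 b2 (x 0, x 1)) (ppt b0 b1 b2 (x 0, x 1))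
      (cb (e 0) b1 (e 1) b2) = 0 := by
    rw [← he 1, ← tri_du, ← pY_par k g]
    exact congrArg (fun Y => (tri (fun i => (⟨g i, 0⟩ : Du K)) Y Y Y).b)
      (pY_du (par k g b0 b1 b2) x e).symm
  generalize ppt b0 b1 b2 (x 0, x 1) = Y at h h0 h1
  have e0 : qb k Y (cb (e 0) b1 (e 1) b2) = e 0 * qb k Y b1 + e 1 * qb k Y b2 := by
    simp only [qb, cb]; ring
  have e1 : tri g Y Y (cb (e 0) b1 (e 1) b2) = e 0 * tri g Y Y b1 + e 1 * tri g Y Y b2 := by
    simp only [tri, cb]; ring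
  rw [e0, mul_eq_zero, or_iff_right two_ne_zero] at h0
  rw [e1, mul_eq_zero, or_iff_right three_ne_zero] at h1
  have z0 : e 0 = 0 :=
    (mul_eq_zero.1 (by linear_combination tri g Y Y b2 * h0 - qb k Y b2 * h1)).resolve_right h
  have z1 : e 1 = 0 :=
    (mul_eq_zero.1 (by linear_combination qb k Y b1 * h1 - tri g Y Y b1 * h0)).resolve_right h
  funext s
  fin_cases s
  · exact z0
  · exact z1

lemma exists_dir {k : Fin 6 → K} {b0 b1 b2 : V4 K} (h0 : b0 0 ≠ 0) (h1 : b1 0 = 0)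
    (h2 : b2 0 = 0) (hg : gram k b0 b1 b2 ≠ 0) : ∃ e : V4 K, e 0 = 0 ∧ det4 e b0 b1 b2 ≠ 0 := by
  by_contra hn
  push Not at hn
  have d1 := hn (v4 0 1 0 0) rfl
  have d2 := hn (v4 0 0 1 0) rfl
  have d3 := hn (v4 0 0 0 1) rfl
  simp only [det4, pp, plk, v6_0, v6_1, v6_2, v6_3, v6_4, v6_5, v4_0, v4_1, v4_2, v4_3, h1, h2]
    at d1 d2 d3
  have p23 : b1 2 * b2 3 - b1 3 * b2 2 = 0 :=
    (mul_eq_zero.1 (by linear_combination -d1)).resolve_left h0
  have p13 : b1 1 * b2 3 - b1 3 * b2 1 = 0 :=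
    (mul_eq_zero.1 (by linear_combination d2)).resolve_left h0
  have p12 : b1 1 * b2 2 - b1 2 * b2 1 = 0 :=
    (mul_eq_zero.1 (by linear_combination -d3)).resolve_left h0
  apply hg
  have key : ∀ c : K, (∀ i, b2 i = c * b1 i) → gram k b0 b1 b2 = 0 := fun c hc => by
    simp only [gram, det3, qb, hc]; ring
  by_cases a1 : b1 1 = 0
  · by_cases a2 : b1 2 = 0
    · by_cases a3 : b1 3 = 0
      · simp only [gram, det3, qb, h1, a1, a2, a3]; ring
      · refine key (b2 3 / b1 3) fun i => ?_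
        fin_cases i <;> simp only [Fin.reduceFinMk, Fin.zero_eta, Fin.mk_one] <;> field_simp
        · rw [h1, h2]; ring
        · linear_combination -p13
        · linear_combination -p23
    · refine key (b2 2 / b1 2) fun i => ?_
      fin_cases i <;> simp only [Fin.reduceFinMk, Fin.zero_eta, Fin.mk_one] <;> field_simp
      · rw [h1, h2]; ring
      · linear_combination -p12
      · linear_combination p23
  · refine key (b2 1 / b1 1) fun i => ?_
    fin_cases i <;> simp only [Fin.reduceFinMk, Fin.zero_eta, Fin.mk_one] <;> field_simp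
    · rw [h1, h2]; ring
    · linear_combination p12
    · linear_combination p13

lemma mv_par {L : Type} [Field L] {G : Subring (K × L)} {k : Fin 6 → K} {g : Fin 20 → K}
    {b0 b1 b2 : V4 K} {k' : Fin 6 → L} {g' : Fin 20 → L} {b0' b1' b2' : V4 L} (hk : MV G k k')
    (hg : MV G g g') (h0 : MV G b0 b0') (h1 : MV G b1 b1') (h2 : MV G b2 b2') :
    MV G (par k g b0 b1 b2) (par k' g' b0' b1' b2') := by
  rintro ((i | i) | ⟨j, i⟩)
  · exact hk i
  · exact hg i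
  · fin_cases j
    · exact h0 i
    · exact h1 i
    · exact h2 i

lemma mv_ct (sp : Sp) {ι : Type} (a : ι → ℂ) : MV (spPl sp).G (fun i => ct (a i)) a :=
  fun i => Tends.const (v := sp.v) (a i)

end PS0

open PS0 in
theorem thm_PS0 (hBZ : S_BZ) (hUP : S_UP) : S_PS0 := by
  classical
  intro On Bad cl U k g b0 b1 b2 p hU hOn hBad h0 h1 h2 hgr hres hp hq ht
  obtain ⟨e, he0, he⟩ := exists_dir h0 h1 h2 hgr
  set B0 : V4 Om := fun i => ct (b0 i) + lam * ct (e i) with hB0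
  set B1 : V4 Om := fun i => ct (b1 i) with hB1
  set B2 : V4 Om := fun i => ct (b2 i) with hB2
  set kO : Fin 6 → Om := fun i => ct (k i) with hkO
  set gO : Fin 20 → Om := fun i => ct (g i) with hgO
  have tB0 : ∀ sp : Sp, Tends sp.v lam 0 → MV (spPl sp).G B0 b0 := fun sp h i =>
    ((Tends.const (b0 i)).add (h.mul (Tends.const (e i)))).of_eq_right (by ring)
  obtain ⟨sp0, hsp0⟩ := nonConst_lam.exists_sp 0
  have hgrO : gram kO B0 B1 B2 ≠ 0 :=
    Plc.ne_zero (mem_gram (mv_ct sp0 k) (tB0 sp0 hsp0) (mv_ct sp0 b1) (mv_ct sp0 b2)) hgr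
  have hresO : resQ kO gO B1 B2 ≠ 0 :=
    Plc.ne_zero (mem_resQ (mv_ct sp0 k) (mv_ct sp0 g) (mv_ct sp0 b1) (mv_ct sp0 b2)) hres
  obtain ⟨hfin, hle, -⟩ := hBZ Om kO gO B0 B1 B2 _ hgrO hresO fun _ => Iff.rfl
  obtain ⟨hfin', hle', hJ⟩ := hBZ ℂ k g b0 b1 b2 _ hgr hres fun _ => Iff.rfl
  have hsix : ∀ {α : Type} {Z : Set α} {f : Fin 6 → α}, Z.Finite → Z.ncard ≤ 6 → Injective f →
      (∀ j, f j ∈ Z) → Set.range f = Z ∧ Z.ncard = 6 := fun {α Z f} a1 a2 a3 a4 => by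
    have c : (Set.range f).ncard = 6 := by
      rw [Set.ncard_range_of_injective a3]; simp
    have s : Set.range f ⊆ Z := Set.range_subset_iff.2 a4
    have := Set.eq_of_subset_of_ncard_le s (by omega) a1
    exact ⟨this, this ▸ c⟩
  have hJ' := fun j => hJ (hsix hfin' hle' hp fun j => ⟨hq j, ht j⟩).2 (p j) ⟨hq j, ht j⟩
  have y0 : ∀ z, ppt B0 B1 B2 z 0 = ct (b0 0) := fun z => by
    simp [ppt, cb3, hB0, hB1, hB2, he0, h1, h2]
  have yne : ∀ z, ppt B0 B1 B2 z ≠ 0 := fun z h => by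
    have := y0 z
    rw [h] at this
    exact h0 (ct.injective (by rw [← this]; simp))
  have hUO : (fun i => ct (U i)) ≠ 0 := fun h => hU (funext fun i =>
    ct.injective (by rw [congrFun h i]; simp))
  have rU : ∀ sp : Sp, (spPl sp).Red (fun i => ct (U i)) U := fun sp =>
    ⟨hU, 1, fun i => by rw [one_mul]; exact mv_ct sp U i⟩
  have hδ : ∀ z : Om × Om, ∃ δ : Sp → ℚ, IsFam δ ∧ (z ∈ hfin.toFinset → ∀ sp Y',
      (spPl sp).Red (ppt B0 B1 B2 z) Y' → δ sp = cl.cls U Y') := fun z => by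
    by_cases hz : z ∈ hfin.toFinset
    · rw [Set.Finite.mem_toFinset] at hz
      obtain ⟨δ, d1, d2⟩ := cl.fam _ _ hUO (yne z) (hOn _ hz.1 hz.2)
      exact ⟨δ, d1, fun _ sp Y' h => d2 sp U Y' (rU sp) h⟩
    · exact ⟨_, IsFam.zero, fun h => absurd h hz⟩
  choose δ hd1 hd2 using hδ
  refine (isFam_sum hfin.toFinset hd1).eq_of_lam (fun sp hsp => ?_) fun sp hsp => ?_
  · have hx : ∀ j, ∃ z : Om × Om, z ∈ hfin.toFinset ∧ Tends sp.v z.1 (p j).1 ∧
        Tends sp.v z.2 (p j).2 := fun j => by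
      obtain ⟨x, x1, x2⟩ := hUP Par (Fin 2) (Fin 2) Empty Om ℂ eS oS (spPl sp)
        (par kO gO B0 B1 B2) (par k g b0 b1 b2) (v2 (p j).1 (p j).2) rfl
        (mv_par (mv_ct sp k) (mv_ct sp g) (tB0 sp hsp) (mv_ct sp b1) (mv_ct sp b2))
        ⟨fun t => by
          fin_cases t
          · exact (ev_zero ..).trans (hq j)
          · exact (ev_one ..).trans (ht j), fun o => o.elim, inj _ _ _ _ _ _ (hJ' j)⟩
      refine ⟨(x 0, x 1), ?_, x1 0, x1 1⟩
      rw [Set.Finite.mem_toFinset]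
      exact ⟨(ev_zero ..).symm.trans (x2.eq 0), (ev_one ..).symm.trans (x2.eq 1)⟩
    choose x x0 x1 x2 using hx
    have xi : Injective x := fun i j h => hp (Prod.ext ((x1 i).unique (h ▸ x1 j))
      ((x2 i).unique (h ▸ x2 j)))
    have hr := (hsix hfin hle xi fun j => (Set.Finite.mem_toFinset _).1 (x0 j)).1
    have hs : hfin.toFinset = Finset.univ.image x := by
      ext z
      rw [Set.Finite.mem_toFinset, ← hr]
      simp
    rw [hs, Finset.sum_image fun i _ j _ h => xi h]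
    refine Finset.sum_congr rfl fun j _ => hd2 _ (x0 j) sp _ ⟨fun h => h0 ?_, 1, fun i => ?_⟩
    · simpa [ppt, cb3, h1, h2] using congrFun h 0
    · rw [one_mul]
      exact mem_cb3 (one_mem _) (tB0 sp hsp) (x1 j) (mv_ct sp b1) (x2 j) (mv_ct sp b2) i
  · refine Finset.sum_eq_zero fun z hz => ?_
    obtain ⟨Y', hY⟩ := (spPl sp).exists_red (yne z)
    rw [hd2 z hz sp Y' hY]
    refine cl.bad _ _ (hBad _ ?_)
    obtain ⟨-, c, hc⟩ := hY
    have t1 : Tends sp.v (det4 (fun i => c * ppt B0 B1 B2 z i) (fun i => ct (b0 i)) B1 B2)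
        (det4 Y' b0 b1 b2) := mem_det4 hc (mv_ct sp b0) (mv_ct sp b1) (mv_ct sp b2)
    have e1 : det4 (fun i => c * ppt B0 B1 B2 z i) (fun i => ct (b0 i)) B1 B2 =
        c * lam * ct (det4 e b0 b1 b2) := by
      rw [(hom_ringHom ct).det4]
      simp only [det4, pp, plk, v6_0, v6_1, v6_2, v6_3, v6_4, v6_5, ppt, cb3, hB0, hB1, hB2]
      ring
    have t2 := ((t1.mul hsp).mul (Tends.const (det4 e b0 b1 b2)⁻¹)).mul (Tends.const (b0 0))
    refine (Tends.unique (mem_spPl.1 (hc 0)) (t2.of_eq_left ?_)).trans (by ring)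
    have n1 := nonConst_lam.ne_zero
    have n2 : ct (det4 e b0 b1 b2) ≠ 0 := by simpa using he
    rw [e1, y0, map_inv₀]
    field_simp

end

end Pool.Agent.P.MP_7ebcb6_ag.SC
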