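import Pool.Agent.P.MP_7ebcb6_ag.SC.St2
import Pool.Agent.P.MP_7ebcb6_ag.SC.PS0
import Pool.Agent.P.MP_7ebcb6_ag.SC.BZ
import Pool.Agent.P.MP_7ebcb6_ag.SC.H1
import Pool.Agent.P.MP_7ebcb6_ag.SC.H2
import Pool.Agent.P.MP_7ebcb6_ag.SC.R1
import Pool.Agent.P.MP_7ebcb6_ag.SC.L1

/-! Tangent sections and tritangent planes have class zero. -/

namespace Pool.Agent.P.MP_7ebcb6_ag.SC

open G8 Function

namespace PSG

lemma ne_of_ff {K : Type} [Field K] {P : Pen K} {U : V2 K} (h : P.ff 0 0 U ≠ 0) : U ≠ 0 := by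
  rintro rfl
  refine h ?_
  have := bf_smul 5 (P.f 0 0) (0 : K) 0
  simp only [zero_mul, ne_eq, OfNat.ofNat_ne_zero, not_false_eq_true, zero_pow] at this
  exact this

/-- The plane section of a fibre over the complex numbers. -/
lemma sec0 (hON : S_ON) {X : ℕ → ℂ} (hid : (Pen.of X).Id) (cl : PCl X) {U : V2 ℂ}
    {b0 b1 b2 : V4 ℂ} {p : Fin 6 → ℂ × ℂ} (hB : (Pen.of X).B U ≠ 0) (hf : (Pen.of X).ff 0 0 U ≠ 0)
    (h0 : b0 0 ≠ 0) (h1 : b1 0 = 0) (h2 : b2 0 = 0) (hg : gram ((Pen.of X).ks U) b0 b1 b2 ≠ 0)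
    (hr : resQ ((Pen.of X).ks U) ((Pen.of X).G U) b1 b2 ≠ 0) (hp : Injective p)
    (hq : ∀ j, qb ((Pen.of X).ks U) (ppt b0 b1 b2 (p j)) (ppt b0 b1 b2 (p j)) = 0)
    (ht : ∀ j, tri ((Pen.of X).G U) (ppt b0 b1 b2 (p j)) (ppt b0 b1 b2 (p j))
      (ppt b0 b1 b2 (p j)) = 0) :
    ∑ j, cl.cls U (ppt b0 b1 b2 (p j)) = 0 := by
  have h := hom_ringHom ct
  refine thm_PS0 thm_BZ (thm_UP thm_DEQ) _ _ cl U _ _ b0 b1 b2 p (ne_of_ff hf)
    (fun Y a1 a2 => hON X hid _ Y ?_ ?_ ?_ ?_) (fun Y e => Or.inr (Or.inr (Or.inl e))) h0 h1 h2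
    hg hr hp hq ht
  · rw [← h.B]
    exact (map_ne_zero ct).2 hB
  · rw [← h.ff]
    exact (map_ne_zero ct).2 hf
  · simpa only [h.ks] using a1
  · simpa only [h.G] using a2

lemma ne_lim {sp : Sp} {a : Om} {b : ℂ} (h : (a, b) ∈ (spPl sp).G) (hl : lim sp a ≠ 0) : b ≠ 0 :=
  lim_eq (sp := sp) (a := a) (c := b) h ▸ hl

lemma eq_lim {sp : Sp} {a : Om} {b : ℂ} (h : (a, b) ∈ (spPl sp).G) (ha : a = 0) : b = 0 :=
  Tends.eq_zero (v := sp.v) (a := a) (c := b) h ha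

/-- The tangent section over the complex numbers. -/
lemma tan0 (hON : S_ON) {X : ℕ → ℂ} (hid : (Pen.of X).Id) (cl : PCl X) {U : V2 ℂ} {x : V4 ℂ}
    {q : Fin 6 → V4 ℂ} (hB : (Pen.of X).B U ≠ 0) (hf : (Pen.of X).ff 0 0 U ≠ 0)
    (hx : tri ((Pen.of X).G U) x x x = 0) (h0 : x 0 ≠ 0)
    (h3 : tri ((Pen.of X).G U) x x (ee 3) ≠ 0)
    (hg : gram ((Pen.of X).ks U) x (th1 ((Pen.of X).G U) x) (th2 ((Pen.of X).G U) x) ≠ 0)
    (hr : resQ ((Pen.of X).ks U) ((Pen.of X).G U) (th1 ((Pen.of X).G U) x)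
      (th2 ((Pen.of X).G U) x) ≠ 0) (hi : Injective q)
    (hq : ∀ j, q j 0 = 1 ∧ tri ((Pen.of X).G U) x x (q j) = 0 ∧
      qb ((Pen.of X).ks U) (q j) (q j) = 0 ∧ tri ((Pen.of X).G U) (q j) (q j) (q j) = 0) :
    ∑ j, cl.cls U (q j) = 0 := by
  set g := (Pen.of X).G U with hgd
  set k := (Pen.of X).ks U with hkd
  have t1 : th1 g x 0 = 0 := by simp [th1]
  have t2 : th2 g x 0 = 0 := by simp [th2]
  have hp : ∀ j, ∃ p : ℂ × ℂ, ppt x (th1 g x) (th2 g x) p = fun i => x 0 * q j i := fun j => by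
    obtain ⟨r, s, t, e⟩ := ((thm_RTH ℂ g x hx h0 h3).2 (q j)).1 (hq j).2.1
    have e0 : r * x 0 = 1 := by
      have := (hq j).1
      rw [e] at this
      simpa only [cb3, t1, t2, mul_zero, add_zero] using this
    refine ⟨(x 0 * s, x 0 * t), funext fun i => ?_⟩
    rw [e]
    simp only [ppt, cb3]
    linear_combination (-x i) * e0
  choose p hp using hp
  have key := sec0 hON hid cl (p := p) hB hf h0 t1 t2 hg hr (fun i j e => hi (funext fun m =>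
      mul_left_cancel₀ h0 ((congrFun (hp i) m).symm.trans (e ▸ congrFun (hp j) m))))
    (fun j => by
      rw [hp]
      have := (hq j).2.2.1
      simp only [qb] at this ⊢
      linear_combination x 0 ^ 2 * this)
    fun j => by
      rw [hp]
      have := (hq j).2.2.2
      simp only [tri] at this ⊢
      linear_combination x 0 ^ 3 * this
  rw [← key]
  refine Finset.sum_congr rfl fun j _ => ?_
  rw [hp, ← cl.smul 1 (x 0) U (q j) one_ne_zero h0]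
  simp only [one_mul]

/-- A point of the tritangent plane. -/
def pln (y : ℕ → ℂ) (a b c : ℂ) : V4 ℂ := v4 a b c (a * y 0 + b * y 1 + c * y 2)

/-- The equation of the line number `i` in the plane. -/
def lnq (y : ℕ → ℂ) (i : ℕ) (a b c : ℂ) : ℂ := c - y (3 + 2 * i) * a - y (4 + 2 * i) * b

lemma tri_pln {g : Fin 20 → ℂ} {y : ℕ → ℂ} {m : ℂ}
    (h : ∀ t, tri g (tre y (tq1 t)) (tre y (tq2 t)) (tre y (tq3 t))
      - m * prm (trl y) (tq1 t) (tq2 t) (tq3 t) = 0) (a0 a1 a2 b0 b1 b2 c0 c1 c2 : ℂ) :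
    tri g (pln y a0 a1 a2) (pln y b0 b1 b2) (pln y c0 c1 c2) = m *
      (lnq y 0 a0 a1 a2 * (lnq y 1 b0 b1 b2 * lnq y 2 c0 c1 c2 + lnq y 1 c0 c1 c2 * lnq y 2 b0 b1 b2)
      + lnq y 0 b0 b1 b2 * (lnq y 1 a0 a1 a2 * lnq y 2 c0 c1 c2 + lnq y 1 c0 c1 c2 * lnq y 2 a0 a1 a2)
      + lnq y 0 c0 c1 c2 * (lnq y 1 a0 a1 a2 * lnq y 2 b0 b1 b2
        + lnq y 1 b0 b1 b2 * lnq y 2 a0 a1 a2)) := by
  have e0 : tre y 0 = v4 1 0 0 (y 0) := by simp [tre, Nat.beq]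
  have e1 : tre y 1 = v4 0 1 0 (y 1) := by simp [tre, Nat.beq]
  have e2 : tre y 2 = v4 0 0 1 (y 2) := by simp [tre, Nat.beq]
  have l0 : ∀ i, trl y i 0 = -y (3 + 2 * i.val) := fun i => by simp [trl, Nat.beq]
  have l1 : ∀ i, trl y i 1 = -y (4 + 2 * i.val) := fun i => by
    simp [trl, Nat.beq, show 3 + 2 * i.val + 1 = 4 + 2 * i.val by omega]
  have l2 : ∀ i, trl y i 2 = 1 := fun i => by simp [trl, Nat.beq]
  have h0 : tri g (tre y 0) (tre y 0) (tre y 0) - m * prm (trl y) 0 0 0 = 0 := h 0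
  have h1 : tri g (tre y 0) (tre y 0) (tre y 1) - m * prm (trl y) 0 0 1 = 0 := h 1
  have h2 : tri g (tre y 0) (tre y 0) (tre y 2) - m * prm (trl y) 0 0 2 = 0 := h 2
  have h3 : tri g (tre y 0) (tre y 1) (tre y 1) - m * prm (trl y) 0 1 1 = 0 := h 3
  have h4 : tri g (tre y 0) (tre y 1) (tre y 2) - m * prm (trl y) 0 1 2 = 0 := h 4
  have h5 : tri g (tre y 0) (tre y 2) (tre y 2) - m * prm (trl y) 0 2 2 = 0 := h 5
  have h6 : tri g (tre y 1) (tre y 1) (tre y 1) - m * prm (trl y) 1 1 1 = 0 := h 6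
  have h7 : tri g (tre y 1) (tre y 1) (tre y 2) - m * prm (trl y) 1 1 2 = 0 := h 7
  have h8 : tri g (tre y 1) (tre y 2) (tre y 2) - m * prm (trl y) 1 2 2 = 0 := h 8
  have h9 : tri g (tre y 2) (tre y 2) (tre y 2) - m * prm (trl y) 2 2 2 = 0 := h 9
  simp only [e0, e1, e2, prm, l0, l1, l2, tri, v4_0, v4_1, v4_2, v4_3, Fin.val_zero, Fin.val_one,
    Fin.val_two, mul_zero, mul_one, add_zero, zero_add] at h0 h1 h2 h3 h4 h5 h6 h7 h8 h9
  simp only [tri, pln, lnq, v4_0, v4_1, v4_2, v4_3, mul_zero, mul_one, add_zero]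
  linear_combination a0 * b0 * c0 * h0 + (a0 * b0 * c1 + a0 * b1 * c0 + a1 * b0 * c0) * h1
    + (a0 * b0 * c2 + a0 * b2 * c0 + a2 * b0 * c0) * h2
    + (a0 * b1 * c1 + a1 * b0 * c1 + a1 * b1 * c0) * h3
    + (a0 * b1 * c2 + a0 * b2 * c1 + a1 * b0 * c2 + a1 * b2 * c0 + a2 * b0 * c1 + a2 * b1 * c0) * h4
    + (a0 * b2 * c2 + a2 * b0 * c2 + a2 * b2 * c0) * h5 + a1 * b1 * c1 * h6
    + (a1 * b1 * c2 + a1 * b2 * c1 + a2 * b1 * c1) * h7
    + (a1 * b2 * c2 + a2 * b1 * c2 + a2 * b2 * c1) * h8 + a2 * b2 * c2 * h9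

/-- Three points of the line number `i`. -/
lemma tri_line {g : Fin 20 → ℂ} {y : ℕ → ℂ} {m : ℂ}
    (h : ∀ t, tri g (tre y (tq1 t)) (tre y (tq2 t)) (tre y (tq3 t))
      - m * prm (trl y) (tq1 t) (tq2 t) (tq3 t) = 0) (i : Fin 3) {a0 a1 a2 b0 b1 b2 c0 c1 c2 : ℂ}
    (ha : lnq y i a0 a1 a2 = 0) (hb : lnq y i b0 b1 b2 = 0) (hc : lnq y i c0 c1 c2 = 0) :
    tri g (pln y a0 a1 a2) (pln y b0 b1 b2) (pln y c0 c1 c2) = 0 := by
  rw [tri_pln h]
  fin_cases i <;> simp only at ha hb hc <;> rw [ha, hb, hc] <;> ring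

lemma lA_eq (y : ℕ → ℂ) (i : Fin 3) : lA (trW y i) = pln y 1 0 (y (3 + 2 * i.val)) := by
  funext m
  fin_cases m <;> simp [lA, trW, pln, mul_comm]

lemma lB_eq (y : ℕ → ℂ) (i : Fin 3) : lB (trW y i) = pln y 0 1 (y (4 + 2 * i.val)) := by
  funext m
  fin_cases m <;> simp [lB, trW, pln, mul_comm]

lemma lpt_eq (y : ℕ → ℂ) (i : Fin 3) (r : ℂ) :
    lpt (trW y i) r = pln y 1 r (y (3 + 2 * i.val) + r * y (4 + 2 * i.val)) := by
  funext m
  fin_cases m <;> simp [lpt, cb, lA, lB, trW, pln]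
  ring

lemma ppt_eq (y : ℕ → ℂ) (r s : ℂ) : ppt (tre y 0) (tre y 1) (tre y 2) (r, s) = pln y 1 r s := by
  funext m
  fin_cases m <;> simp [ppt, cb3, tre, pln, Nat.beq]

/-- The point where two of the lines meet is not on the quadric. -/
lemma meet {k : Fin 6 → ℂ} {y : ℕ → ℂ} (h : ∀ i, qb k (trX y i) (trX y i) ≠ 0) {i j : Fin 3}
    {r : ℂ} (hi : qb k (lpt (trW y i) r) (lpt (trW y i) r) = 0)
    (hj : qb k (lpt (trW y j) r) (lpt (trW y j) r) = 0)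
    (e : y (3 + 2 * i.val) + r * y (4 + 2 * i.val) = y (3 + 2 * j.val) + r * y (4 + 2 * j.val)) :
    i = j := by
  have key : ∀ i : Fin 3, qb k (lpt (trW y i) r) (lpt (trW y i) r) = 0 →
      y (3 + 2 * i.val) + r * y (4 + 2 * i.val)
        ≠ y (3 + 2 * (i + 1).val) + r * y (4 + 2 * (i + 1).val) := fun i a b => by
    refine h i ?_
    have : trX y i = fun m => (y (4 + 2 * (i + 1).val) - y (4 + 2 * i.val)) * lpt (trW y i) r m := by
      funext m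
      simp only [trX, lpt, cb, Nat.cast_one]
      linear_combination (lB (trW y i) m) * b
    rw [this]
    simp only [qb] at a ⊢
    linear_combination (y (4 + 2 * (i + 1).val) - y (4 + 2 * i.val)) ^ 2 * a
  by_contra hne
  rcases (by decide : ∀ i j : Fin 3, ¬ i = j → j = i + 1 ∨ i = j + 1) i j hne with rfl | rfl
  · exact key i hi e
  · exact key j hj e.symm

end PSG

open PSG in
theorem thm_PSG (hON : S_ON) : S_PSG := by
  intro X hid cl U x q hB hf hx h0 h3 hg hr hi hq sp0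
  have hU := ne_of_ff hf
  have q0 : ∀ j, q j ≠ 0 := fun j e => by
    have := (hq j).1
    rw [e] at this
    exact zero_ne_one this
  choose δ d1 d2 using fun j => cl.fam U (q j) hU (q0 j)
    (hON X hid U (q j) hB hf (hq j).2.2.1 (hq j).2.2.2)
  have hd : ∀ p : Fin 6 × Fin 6, ∀ᶠ sp in ae, p.1 ≠ p.2 →
      ∃ m, lim sp (q p.1 m - q p.2 m) ≠ 0 := fun p => by
    by_cases e : p.1 = p.2
    · exact Filter.Eventually.of_forall fun _ h => absurd e h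
    · obtain ⟨m, hm⟩ := Function.ne_iff.1 (hi.ne e)
      exact (ae_lim_ne (sub_ne_zero.2 hm)).mono fun sp h _ => ⟨m, h⟩
  have hz : ∀ᶠ sp in ae, ∑ j, δ j sp = 0 := by
    filter_upwards [ae_tv U, ae_tv x, Filter.eventually_all.2 fun j => ae_tv (q j), ae_lim_ne hB,
      ae_lim_ne hf, ae_lim_ne h0, ae_lim_ne h3, ae_lim_ne hg, ae_lim_ne hr,
      Filter.eventually_all.2 hd] with sp tU tx tq aB af a0 a3 ag ar ai
    have mP := pm_ct sp (Pen.of X)
    have mU : MV (spPl sp).G U _ := tU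
    have mx : MV (spPl sp).G x _ := tx
    have mq : ∀ j, MV (spPl sp).G (q j) _ := tq
    have mg := mem_G mP mU
    have mk := mem_ks mP mU
    have bf := ne_lim (mem_ff mP 0 0 mU) af
    have q1 : ∀ j, lim sp (q j 0) = 1 := fun j => by
      rw [(hq j).1]
      exact lim_eq Tends.one
    rw [← tan0 hON hid cl (q := fun j i => lim sp (q j i)) (ne_lim (mem_B mP mU) aB) bf
      (eq_lim (mem_tri mg mx mx mx) hx) a0 (ne_lim (mem_tri mg mx mx (mem_ee 3)) a3)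
      (ne_lim (mem_gram mk mx (mem_th1 mg mx) (mem_th2 mg mx)) ag)
      (ne_lim (mem_resQ mk mg (mem_th1 mg mx) (mem_th2 mg mx)) ar)
      (fun i j e => by
        by_contra hne
        obtain ⟨m, hm⟩ := ai (i, j) hne
        exact ne_lim (mem_sub (mq i m) (mq j m)) hm (sub_eq_zero.2 (congrFun e m)))
      fun j => ⟨q1 j, eq_lim (mem_tri mg mx mx (mq j)) (hq j).2.1,
        eq_lim (mem_qb mk (mq j) (mq j)) (hq j).2.2.1,
        eq_lim (mem_tri mg (mq j) (mq j) (mq j)) (hq j).2.2.2⟩]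
    refine Finset.sum_congr rfl fun j _ => d2 j sp _ _ ⟨ne_of_ff bf, 1, fun i => ?_⟩
      ⟨fun e => ?_, 1, fun i => ?_⟩
    · rw [one_mul]
      exact mU i
    · have := congrFun e 0
      rw [q1] at this
      exact one_ne_zero this
    · rw [one_mul]
      exact mq j i
  rw [← eq_of_ae (isFam_sum Finset.univ d1) hz sp0]
  exact Finset.sum_congr rfl fun j _ => (d2 j sp0 _ _ (red_rd sp0 hU) (red_rd sp0 (q0 j))).symm

open PSG in
theorem thm_TRI (hON : S_ON) : S_TRI := by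
  intro X hid u y hS hO
  set g := (Pen.of X).G (af u) with hgd
  set k := (Pen.of X).ks (af u) with hkd
  have hS' : ∀ t, tri g (tre (sq y) (tq1 t)) (tre (sq y) (tq2 t)) (tre (sq y) (tq3 t))
      - y 9 * prm (trl (sq y)) (tq1 t) (tq2 t) (tq3 t) = 0 := hS
  have o0 : ∀ i, lnJ g (trW (sq y) i) ≠ 0 := fun i => hO (.inl (i, 0))
  have o1 : ∀ i, qB k (trW (sq y) i) ≠ 0 := fun i => hO (.inl (i, 1))
  have o2 : ∀ i, dsc k (trW (sq y) i) ≠ 0 := fun i => hO (.inl (i, 2))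
  have o3 : ∀ i, qb k (trX (sq y) i) (trX (sq y) i) ≠ 0 := fun i => hO (.inl (i, 3))
  have o4 : gram k (tre (sq y) 0) (tre (sq y) 1) (tre (sq y) 2) ≠ 0 := hO (.inr 0)
  have o5 : resQ k g (tre (sq y) 1) (tre (sq y) 2) ≠ 0 := hO (.inr 1)
  have o6 : (Pen.of X).B (af u) ≠ 0 := hO (.inr 2)
  have o7 : (Pen.of X).ff 0 0 (af u) ≠ 0 := hO (.inr 3)
  obtain ⟨a1, a2, -, a4, -⟩ := thm_AL
  choose r1 r2 hr using fun i => a1 ℂ k _ (o1 i)
  let r : Fin 3 × Fin 2 → ℂ := fun p => v2 (r1 p.1) (r2 p.1) p.2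
  have hz : ∀ p, qb k (lpt (trW (sq y) p.1) (r p)) (lpt (trW (sq y) p.1) (r p)) = 0 := by
    rintro ⟨i, e⟩
    rw [hr]
    fin_cases e <;> simp [r]
  refine ⟨fun i => ⟨fun t => ?_, fun t => ?_⟩, fun i j e => ?_, fun cl => ?_⟩
  · change lnE g (trW (sq y) i) t = 0
    have hA : lnq (sq y) i 1 0 (sq y (3 + 2 * i.val)) = 0 := by simp [lnq]
    have hB : lnq (sq y) i 0 1 (sq y (4 + 2 * i.val)) = 0 := by simp [lnq]
    simp only [lnE, lA_eq, lB_eq]
    fin_cases t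
    exacts [tri_line hS' i hA hA hA, tri_line hS' i hA hA hB, tri_line hS' i hA hB hB,
      tri_line hS' i hB hB hB]
  · fin_cases t
    exacts [o0 i, o1 i]
  · refine meet o3 (hz (i, 0)) (e ▸ hz (i, 0)) ?_
    have e0 : sq y (3 + 2 * i.val) = sq y (3 + 2 * j.val) := congrFun e 0
    have e2 : sq y (4 + 2 * i.val) = sq y (4 + 2 * j.val) := congrFun e 2
    rw [e0, e2]
  · let P : Fin 3 × Fin 2 → ℂ × ℂ := fun p =>
      (r p, sq y (3 + 2 * p.1.val) + r p * sq y (4 + 2 * p.1.val))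
    have hP : ∀ p, ppt (tre (sq y) 0) (tre (sq y) 1) (tre (sq y) 2) (P p)
        = lpt (trW (sq y) p.1) (r p) := fun p => by rw [lpt_eq, ppt_eq]
    have iP : Injective P := by
      rintro ⟨i, e⟩ ⟨j, e'⟩ h
      have h1 : r (i, e) = r (j, e') := congrArg Prod.fst h
      have h2 : sq y (3 + 2 * i.val) + r (i, e) * sq y (4 + 2 * i.val)
          = sq y (3 + 2 * j.val) + r (j, e') * sq y (4 + 2 * j.val) := congrArg Prod.snd h
      obtain rfl : i = j := meet o3 (hz (i, e)) (h1 ▸ hz (j, e')) (h1 ▸ h2)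
      have hne := (a2 ℂ k _ _ _ (o1 i) (hr i)).1 (o2 i)
      fin_cases e <;> fin_cases e'
      exacts [rfl, absurd h1 hne, absurd h1.symm hne, rfl]
    have key := sec0 hON hid cl (p := P ∘ (finProdFinEquiv (m := 3) (n := 2)).symm) o6 o7
      (by simp [tre, Nat.beq]) (by simp [tre, Nat.beq]) (by simp [tre, Nat.beq]) o4 o5
      (iP.comp (Equiv.injective _)) (fun j => by rw [comp_apply, hP]; exact hz _) fun j => by
        rw [comp_apply, hP, lpt_eq]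
        refine tri_line hS' (finProdFinEquiv.symm j : Fin 3 × Fin 2).1 ?_ ?_ ?_ <;>
          simp only [lnq] <;> ring
    rw [← key, ← (finProdFinEquiv (m := 3) (n := 2)).sum_comp, Fintype.sum_prod_type]
    refine Finset.sum_congr rfl fun i _ => ?_
    simp only [comp_apply, Equiv.symm_apply_apply, hP, Fin.sum_univ_two]
    exact a4 _ k _ _ _ (o1 i) (hr i)

end Pool.Agent.P.MP_7ebcb6_ag.SC
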