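import Pool.Agent.P.MP_7ebcb6_ag.SC.St3

/-! The identities of stage 0 hold as identities of binary forms. -/

namespace Pool.Agent.P.MP_7ebcb6_ag.SC

open G8 Function MvPolynomial

namespace REL

abbrev PP : Type := MvPolynomial (Fin 2) ℂ

lemma eval_scale {d : ℕ} {F : PP} (hF : F.IsHomogeneous d) (c : ℂ) (U : Fin 2 → ℂ) :
    eval (fun i => c * U i) F = c ^ d * eval U F := by
  rw [eval_eq, eval_eq, Finset.mul_sum]
  refine Finset.sum_congr rfl fun s hs => ?_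
  rw [hF.degree_eq_sum_deg_support hs]
  simp only [mul_pow, Finset.prod_mul_distrib, Finset.prod_pow_eq_pow_sum]
  ring

/-- A binary form of degree `d` with more than `d` zeros vanishes. -/
lemma hb {ι : Type} [Fintype ι] {d : ℕ} {F : PP} (hF : F.IsHomogeneous d) {u : ι → ℂ}
    (hu : Injective u) (hc : d < Fintype.card ι) (h : ∀ j, eval (af (u j)) F = 0) : F = 0 := by
  set q : Polynomial ℂ := aeval (af (Polynomial.X : Polynomial ℂ)) F with hq
  have he : ∀ z : ℂ, q.eval z = eval (af z) F := fun z => by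
    have : (Polynomial.aeval z : Polynomial ℂ →ₐ[ℂ] ℂ).comp (aeval (af Polynomial.X))
        = aeval (af z) := by
      ext i
      fin_cases i <;> simp
    have h2 := congrArg (fun g : PP →ₐ[ℂ] ℂ => g F) this
    simpa [Polynomial.coe_aeval_eq_eval, coe_aeval_eq_eval] using h2
  have hd : q.natDegree ≤ d * 1 := by
    refine aeval_natDegree_le F hF.totalDegree_le _ fun i => ?_
    fin_cases i <;> simp
  have h0 : q = 0 := Polynomial.eq_zero_of_natDegree_lt_card_of_eval_eq_zero q hu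
    (fun j => (he _).trans (h j)) (by omega)
  have h1 : F * X 0 = 0 := by
    refine MvPolynomial.funext fun U => ?_
    rw [map_mul, eval_X, map_zero]
    by_cases hU : U 0 = 0
    · rw [hU, mul_zero]
    · have : U = fun i => U 0 * af (U 1 / U 0) i := by
        funext i
        fin_cases i
        · simp
        · simp [mul_div_cancel₀ _ hU]
      rw [this, eval_scale hF, ← he, h0]
      simp
  exact (mul_eq_zero.mp h1).resolve_right (X_ne_zero 0)

/-- An identity of degree `d` that holds at more than `d` points holds in every algebra. -/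
lemma lift {τ ι : Type} [Fintype ι] (S : Sys ℕ (Fin 2) τ) (a : ℕ → ℂ) (t : τ) {d : ℕ}
    (hh : (S.ev (fun i => (C (a i) : PP)) X t).IsHomogeneous d) {u : ι → ℂ} (hu : Injective u)
    (hc : d < Fintype.card ι) (h : ∀ j, S.ev a (af (u j)) t = 0)
    {A : Type} [CommRing A] (φ : ℂ →+* A) (U : Fin 2 → A) : S.ev (fun i => φ (a i)) U t = 0 := by
  have h0 := hb hh hu hc fun j => by
    rw [S.map (eval (af (u j)))]
    simpa only [eval_C, eval_X] using h j
  have h1 := S.map (eval₂Hom φ U) (fun i => (C (a i) : PP)) X t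
  rw [h0, map_zero] at h1
  simpa only [eval₂Hom_C, eval₂Hom_X'] using h1.symm

lemma liftN {τ : Type} (S : Sys ℕ (Fin 2) τ) (a : ℕ → ℂ) (t : τ) {d : ℕ}
    (hh : (S.ev (fun i => (C (a i) : PP)) X t).IsHomogeneous d)
    (h : ∀ j : Fin (d + 1), S.ev a (af ((j.val : ℕ) : ℂ)) t = 0)
    {A : Type} [CommRing A] (φ : ℂ →+* A) (U : Fin 2 → A) : S.ev (fun i => φ (a i)) U t = 0 :=
  lift S a t hh (u := fun j : Fin (d + 1) => ((j.val : ℕ) : ℂ))
    (fun _ _ e => Fin.ext (Nat.cast_injective e)) (by simp) h φ U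

/-! Homogeneity. -/

lemma hbf (d : ℕ) {c : ℕ → PP} (hc : ∀ i, (c i).IsHomogeneous 0) : (bf d c X).IsHomogeneous d := by
  rw [bf_eq]
  refine IsHomogeneous.sum _ _ _ fun i hi => ?_
  have h := (hc i).mul ((isHomogeneous_X_pow (R := ℂ) (0 : Fin 2) (d - i)).mul
    (isHomogeneous_X_pow (R := ℂ) (1 : Fin 2) i))
  have e : 0 + (d - i + i) = d := by
    have := Finset.mem_range.mp hi
    omega
  rwa [e] at h

lemma hz (d : ℕ) : (((0 : ℕ) : PP)).IsHomogeneous d := by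
  rw [Nat.cast_zero]
  exact isHomogeneous_zero _ _ _

section

variable {A : Fin 4 → Fin 4 → PP} (hA : ∀ i j, (A i j).IsHomogeneous 1)

include hA

lemma hnuM (m : Fin 4) : (nuM A m).IsHomogeneous 3 :=
  (((hA _ _).mul (hA _ _)).mul (hA _ _)).add (((hA _ _).mul (hA _ _)).mul (hA _ _))

lemma hmuM (m : Fin 4) : (muM A m).IsHomogeneous 6 :=
  (((hA _ _).mul (hA _ _)).mul (hA _ _)).mul (hnuM hA m)

lemma hnhM (m : Fin 4) : (nhM A m).IsHomogeneous 9 :=
  ((hnuM hA _).mul (hnuM hA _)).mul (hnuM hA _)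

lemma hnuA : (nuA A).IsHomogeneous 12 :=
  (((hnuM hA _).mul (hnuM hA _)).mul (hnuM hA _)).mul (hnuM hA _)

lemma hquadQ (m : Fin 4) : (quadQ A m).IsHomogeneous 2 :=
  (((hA _ _).mul (hA _ _)).add ((hA _ _).mul (hA _ _))).add ((hA _ _).mul (hA _ _))

lemma hatk {k : Fin 6 → PP} (hk : ∀ p, (k p).IsHomogeneous 2) (i : Fin 4) :
    (atk A k i).IsHomogeneous 3 :=
  (((hA _ _).mul (hk _)).add ((hA _ _).mul (hk _))).add ((hA _ _).mul (hk _))

lemma hcmp {E : Fin 6 → PP} (hE : ∀ p, (E p).IsHomogeneous 3) {ka : Fin 4 → PP}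
    (hk : ∀ p, (ka p).IsHomogeneous 0) (m : Fin 4) : (cmp A E ka m).IsHomogeneous 9 :=
  ((((hmuM hA _).mul (hE _)).add ((hmuM hA _).mul (hE _))).add ((hmuM hA _).mul (hE _))).add
    ((hk m).mul (hnhM hA m))

end

lemma hdot6 {k e : Fin 6 → PP} (hk : ∀ p, (k p).IsHomogeneous 2)
    (he : ∀ p, (e p).IsHomogeneous 3) : (dot6 k e).IsHomogeneous 5 :=
  ((((((hk _).mul (he _)).add ((hk _).mul (he _))).add ((hk _).mul (he _))).add
    ((hk _).mul (he _))).add ((hk _).mul (he _))).add ((hk _).mul (he _))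

lemma hqlc {k : Fin 6 → PP} {n : Fin 4 → PP} (hk : ∀ p, (k p).IsHomogeneous 2)
    (hn : ∀ p, (n p).IsHomogeneous 14) (b : Fin 20) : (qlc k n b).IsHomogeneous 16 := by
  have h : ∀ p m, (k p * n m).IsHomogeneous 16 := fun p m => (hk p).mul (hn m)
  unfold qlc
  split
  all_goals first
    | with_reducible exact hz _
    | with_reducible exact (h _ _).add (h _ _)
    | with_reducible exact ((h _ _).add (h _ _)).add (h _ _)

lemma hcay {mu : Fin 4 → PP} (hm : ∀ p, (mu p).IsHomogeneous 6) (b : Fin 20) :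
    (cay mu b).IsHomogeneous 6 := by
  unfold cay
  split
  all_goals first
    | with_reducible exact hz _
    | with_reducible exact hm _

section

variable (a : ℕ → ℂ)

/-- The table as constant polynomials. -/
noncomputable abbrev cc : ℕ → PP := fun i => C (a i)

lemma hc (i : ℕ) : (cc a i).IsHomogeneous 0 := isHomogeneous_C _ _

lemma htA (i j : Fin 4) : (tA (cc a) X i j).IsHomogeneous 1 := by
  have h : ∀ c, (ta (cc a) i j c).IsHomogeneous 0 := fun c => by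
    rw [← (hom_ringHom (C : ℂ →+* PP)).ta]
    exact isHomogeneous_C _ _
  exact ((h 0).mul (isHomogeneous_X ℂ 0)).add ((h 1).mul (isHomogeneous_X ℂ 1))

lemma hkk (s : Fin 2) (p : Fin 6) : ((Pen.of (cc a)).kk s X p).IsHomogeneous 2 :=
  hbf 2 fun _ => hc a _

lemma hff (s : Fin 4) (b : Fin 2) : ((Pen.of (cc a)).ff s b X).IsHomogeneous 5 :=
  hbf 5 fun _ => hc a _

lemma hnuv : ((Pen.of (cc a)).nuv X).IsHomogeneous 12 := hbf 12 fun _ => hc a _

lemma hgg (p : Fin 6) (b : Fin 20) : ((Pen.of (cc a)).gg p X b).IsHomogeneous 4 :=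
  hbf 4 fun _ => hc a _

lemma hnn (s m : Fin 4) : ((Pen.of (cc a)).nn s X m).IsHomogeneous 9 :=
  (hc a _).mul (hbf 9 fun _ => hc a _)

lemma hpi (s t : Fin 4) (b : Fin 2) (m : Fin 4) :
    ((Pen.of (cc a)).pi s t b X m).IsHomogeneous 14 :=
  ((hff a _ _).mul (hnn a _ _)).sub ((hff a _ _).mul (hnn a _ _))

lemma hbe (s t : Fin 4) : ((Pen.of (cc a)).be s t X).IsHomogeneous 10 :=
  ((hff a _ _).mul (hff a _ _)).sub ((hff a _ _).mul (hff a _ _))

lemma hgc (b : Fin 20) : ((Pen.of (cc a)).gc X b).IsHomogeneous 6 :=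
  hcay (fun _ => hbf 6 fun _ => hc a _) b

lemma hdt (s t : Fin 4) (b : Fin 20) : ((Pen.of (cc a)).dt s t X b).IsHomogeneous 16 :=
  ((hqlc (hkk a 0) (hpi a s t 1) b).sub (hqlc (hkk a 1) (hpi a s t 0) b)).sub
    ((hbe a s t).mul (hgc a b))

lemma htE (s : Fin 4) (p : Fin 6) : (tE (cc a) s X p).IsHomogeneous 3 := hbf 3 fun _ => hc a _

lemma htH (s m : Fin 4) : (tH (cc a) s m X).IsHomogeneous 6 := hbf 6 fun _ => hc a _

lemma hkmin (p q : Fin 6) : (kmin (Pen.of (cc a)) p q X).IsHomogeneous 4 :=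
  ((hkk a _ _).mul (hkk a _ _)).sub ((hkk a _ _).mul (hkk a _ _))

end

/-! The identities as systems in `U`. -/

def Tmu : Sys ℕ (Fin 2) (Fin 4) where
  ev {R} _ _ _ _ a U m := bf 6 ((Pen.of a).mu m) U - muM (tA a U) m
  nat {R S} _ _ _ _ _ _ _ _ f h a x t := by
    simp only [h.muM, h.tA, h.bf, h.sub, Pen.of]

def Tnh : Sys ℕ (Fin 2) (Fin 4) where
  ev {R} _ _ _ _ a U m := bf 9 ((Pen.of a).nh m) U - nhM (tA a U) m
  nat {R S} _ _ _ _ _ _ _ _ f h a x t := by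
    simp only [h.nhM, h.tA, h.bf, h.sub, Pen.of]

def Tnu : Sys ℕ (Fin 2) Unit where
  ev {R} _ _ _ _ a U _ := (Pen.of a).nuv U - nuA (tA a U)
  nat {R S} _ _ _ _ _ _ _ _ f h a x t := by
    simp only [h.nuA, h.tA, h.nuv, h.sub, Pen.map_of]

def Tff : Sys ℕ (Fin 2) (Fin 4 × Fin 2) where
  ev {R} _ _ _ _ a U t := (Pen.of a).ff t.1 t.2 U - dot6 ((Pen.of a).kk t.2 U) (tE a t.1 U)
  nat {R S} _ _ _ _ _ _ _ _ f h a x t := by
    simp only [h.dot6, h.tE, h.kk, h.ff, h.sub, Pen.map_of]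

def Tgg : Sys ℕ (Fin 2) (Fin 6 × Fin 20) where
  ev {R} _ _ _ _ a U t := (Pen.of a).nuv U * (Pen.of a).gg t.1 U t.2
    - (Pen.of a).dt (p1 t.1) (p2 t.1) U t.2
  nat {R S} _ _ _ _ _ _ _ _ f h a x t := by
    simp only [h.nuv, h.gg, h.dt, h.sub, h.mul, Pen.map_of]

def Tkk : Sys ℕ (Fin 2) (Fin 2 × Fin 4) where
  ev {R} _ _ _ _ a U t := atk (tA a U) ((Pen.of a).kk t.1 U) t.2
  nat {R S} _ _ _ _ _ _ _ _ f h a x t := by
    simp only [h.atk, h.tA, h.kk, Pen.map_of]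

def Tqq : Sys ℕ (Fin 2) (Fin 4) where
  ev {R} _ _ _ _ a U t := quadQ (tA a U) t
  nat {R S} _ _ _ _ _ _ _ _ f h a x t := by
    simp only [h.quadQ, h.tA]

def Tcp : Sys ℕ (Fin 2) (Fin 4 × Fin 4) where
  ev {R} _ _ _ _ a U t := cmp (tA a U) (tE a t.1 U) ((Pen.of a).ka t.1) t.2
    - nuM (tA a U) t.2 * tH a t.1 t.2 U
  nat {R S} _ _ _ _ _ _ _ _ f h a x t := by
    simp only [h.nuM, h.cmp, h.tA, h.tE, h.tH, h.sub, h.mul, Pen.of]

def Tbz : Sys ℕ (Fin 2) Unit where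
  ev {R} _ _ _ _ a U _ := bf 3 (fun i => a (873 + i)) U * kmin (Pen.of a) 0 1 U
    + bf 3 (fun i => a (877 + i)) U * kmin (Pen.of a) 4 5 U - pw (U 0) 7
  nat {R S} _ _ _ _ _ _ _ _ f h a x t := by
    simp only [h.kmin, h.bf, h.pw, h.add, h.sub, h.mul, Pen.map_of]

end REL

open REL

theorem thm_HB : S_HB := fun d F hF h =>
  hb hF (u := fun j : Fin (d + 1) => ((j.val : ℕ) : ℂ))
    (fun _ _ e => Fin.ext (Nat.cast_injective e)) (by simp) fun j => h j (Nat.lt_succ_iff.mp j.2)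

theorem thm_REL : S_REL := by
  intro cd s x hZ A _ φ U
  simp only [S0, Sys.Z_app] at hZ
  obtain ⟨h1, h2, h3, h4, -, h6, h7, h8, -, -, h11, -⟩ := hZ
  refine ⟨fun m => ?_, fun m => ?_, ?_, fun t b => ?_, fun b i => ?_, fun m => ?_, fun t m => ?_,
    fun hU => ?_⟩
  · exact sub_eq_zero.mp (liftN Tmu (sq x) m (d := 6)
      ((hbf 6 fun _ => hc _ _).sub (hmuM (htA _) m)) (fun j => h1 (m, j)) φ U)
  · exact sub_eq_zero.mp (liftN Tnh (sq x) m (d := 9)
      ((hbf 9 fun _ => hc _ _).sub (hnhM (htA _) m)) (fun j => h2 (m, j)) φ U)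
  · exact sub_eq_zero.mp (liftN Tnu (sq x) () (d := 12)
      ((hnuv _).sub (hnuA (htA _))) (fun j => h3 j) φ U)
  · exact sub_eq_zero.mp (liftN Tff (sq x) (t, b) (d := 5)
      ((hff _ _ _).sub (hdot6 (hkk _ _) (htE _ _))) (fun j => h4 (t, b, j)) φ U)
  · exact liftN Tkk (sq x) (b, i) (d := 3) (hatk (htA _) (hkk _ _) _) (fun j => h6 (b, i, j)) φ U
  · exact liftN Tqq (sq x) m (d := 2) (hquadQ (htA _) _) (fun j => h7 (m, j)) φ U
  · exact sub_eq_zero.mp (liftN Tcp (sq x) (t, m) (d := 9)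
      ((hcmp (htA _) (htE _ _) (fun _ => hc _ _) _).sub ((hnuM (htA _) _).mul (htH _ _ _)))
      (fun j => h8 (t, m, j)) φ U)
  · have h := liftN Tbz (sq x) () (d := 7)
      ((((hbf 3 fun _ => hc _ _).mul (hkmin _ _ _)).add
        ((hbf 3 fun _ => hc _ _).mul (hkmin _ _ _))).sub (by
          rw [pw_eq]
          exact isHomogeneous_X_pow _ _)) (fun j => by
        have := h11 j
        simp only [Sbz] at this
        simp only [Tbz, bf_af, pw_eq, af_0, one_pow]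
        simpa only [Nat.cast_one] using this) φ U
    have e : U = af (U 1) := by
      funext i
      fin_cases i
      · simpa using hU
      · simp
    simp only [Tbz, pw_eq, hU, one_pow] at h
    have e1 : ∀ c : ℕ → A, bf 3 c U = pl 4 c (U 1) := fun c => by
      rw [← bf_af, ← e]
    rw [e1, e1] at h
    exact sub_eq_zero.mp h

theorem thm_ID (hDT0 : S_DT0) : S_ID := by
  intro cd d G
  have hR := thm_REL cd _ _ G.s0.eq
  have hZ : (S0 cd).Z d.s d.x := G.s0.eq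
  have hN : O0.NZ d.s d.x := G.s0.op
  simp only [S0, Sys.Z_app] at hZ
  simp only [O0, Sys.NZ_app] at hN
  obtain ⟨-, -, -, -, h5, -⟩ := hZ
  obtain ⟨-, -, hc⟩ := hN
  have hr : ∀ j, (Pen.of (sq d.x)).nuv (af (d.b12 j 0)) = 0 := fun j => (G.g12 j).eq 0
  have hn : ∀ j : Fin 5, (Pen.of (sq d.x)).nuv (af ((j.val : ℕ) : ℂ)) ≠ 0 := hc
  refine ⟨fun A _ φ U p b => ?_, _, hn 0⟩
  have hu : Injective (Sum.elim (fun j => d.b12 j 0) fun j : Fin 5 => ((j.val : ℕ) : ℂ)) :=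
    G.i12.sumElim (fun _ _ e => Fin.ext (Nat.cast_injective e)) fun i j e => hn j (e ▸ hr i)
  refine sub_eq_zero.mp (lift Tgg (sq d.x) (p, b) (d := 16)
    (((hnuv _).mul (hgg _ _ _)).sub (hdt _ _ _ _)) hu (by simp) ?_ φ U)
  rintro (j | j)
  · have := hDT0 (sq d.x) (d.b12 j) hR (G.g12 j).eq (G.g12 j).op (p1 p) (p2 p) b
    simp only [Tgg, Sum.elim_inl, hr j, this, zero_mul, sub_zero]
  · exact h5 (p, b, j)

end Pool.Agent.P.MP_7ebcb6_ag.SC
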