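import Pool.Agent.P.MP_7ebcb6_ag.SC.St2
import Pool.Agent.P.MP_7ebcb6_ag.SC.H1
import Pool.Agent.P.MP_7ebcb6_ag.SC.H2

/-! The certificate goes up and down along places. -/

namespace Pool.Agent.P.MP_7ebcb6_ag.SC

open G8 Function

namespace UP

section

variable {K L : Type} [Field K] [Field L] {G : Subring (K × L)}

lemma mem_sq {n : ℕ} {x : Fin n → K} {x' : Fin n → L} (h : MV G x x') : MV G (sq x) (sq x') :=
  fun i => mem_of_el (sq h.el i) ((homF G).sq ..) ((homS G).sq ..)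

lemma mv_elim {α β : Type} {a : α → K} {a' : α → L} {b : β → K} {b' : β → L} (ha : MV G a a')
    (hb : MV G b b') : MV G (Sum.elim a b) (Sum.elim a' b') := fun i => by
  cases i
  exacts [ha _, hb _]

lemma mv_pu {a : ℕ → K} {a' : ℕ → L} (ha : MV G a a') (n : ℕ) :
    MV G (pu a (n : K)) (pu a' (n : L)) := mv_elim ha fun _ => mem_nat n

lemma mv_single {σ : Type} [DecidableEq σ] (s : σ) :
    MV G (Pi.single s 1 : σ → K) (Pi.single s 1 : σ → L) := fun r => by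
  by_cases h : r = s
  · subst h
    simp only [Pi.single_eq_same]
    exact one_mem G
  · simp only [Pi.single_eq_of_ne h]
    exact zero_mem G

lemma mv_parX {X : ℕ → K} {X' : ℕ → L} (h : MV G X X') : MV G (parX X) (parX X') :=
  mv_elim (fun i => mem_of_el (ta h.el i.1 i.2.1 i.2.2) ((homF G).ta ..) ((homS G).ta ..))
    (mv_elim (fun _ => h _) fun i => mem_of_el (ty h.el i) ((homF G).ty ..) ((homS G).ty ..))

lemma mem_FF (cd : CD) {c : Fin 1362 → K} {c' : Fin 1362 → L} (hc : MV G c c') (n : ℕ)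
    {W : Fin 4 → K} {W' : Fin 4 → L} (hW : MV G W W') :
    (FF cd c (n : K) W, FF cd c' (n : L) W') ∈ G :=
  mem_Fev _ _ _ (mem_sq hc) (mem_nat n) (mem_lP hW)

lemma mv_uu {a : π1 → K} {a' : π1 → L} {x : σ1 → K} {x' : σ1 → L} (ha : MV G a a')
    (hx : MV G x x') : MV G (uu a x) (uu a' x') :=
  mv_elim (fun _ => hx _) (mv_elim (fun _ => hx _) (mv_elim (fun _ => ha _) fun _ => ha _))

lemma inj_up {pl : Plc K L} {ι : Type} {u : ι → K} {u' : ι → L} (h : MV pl.G u u')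
    (hu : Injective u') : Injective u := fun i j e =>
  hu (Plc.uniq (h i) (e ▸ h j))

lemma up [IsAlgClosed K] {π σ ο ι : Type} [Fintype σ] {E : Sys π σ σ} {O : Sys π σ ο}
    {pl : Plc K L} {a : π → K} {a' : π → L} {x' : ι → σ → L} (ha : MV pl.G a a')
    (h : ∀ j, Good E O a' (x' j)) : ∃ x : ι → σ → K, (∀ j, MV pl.G (x j) (x' j)) ∧
      ∀ j, Good E O a (x j) := by
  choose x h1 h2 using fun j => thm_UP thm_DEQ _ _ _ _ _ _ E O pl a a' (x' j) rfl ha (h j)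
  exact ⟨x, h1, h2⟩

end

lemma tv_lim {π : Type} {a : π → Om} {a' : Sp → π → ℂ} (ha : ∀ᶠ sp in ae, TV sp a (a' sp)) :
    ∀ᶠ sp in ae, TV sp a fun i => lim sp (a i) :=
  ha.mono fun sp h i => by
    show Tends sp.v (a i) (lim sp (a i))
    rw [lim_eq (h i)]
    exact h i

lemma down {π σ τ ο ι : Type} [Finite σ] [Finite τ] [Finite ο] [Finite ι] {E : Sys π σ τ}
    {O : Sys π σ ο} {a : π → Om} {a' : Sp → π → ℂ} {x : ι → σ → Om}
    (ha : ∀ᶠ sp in ae, TV sp a (a' sp)) (h : ∀ j, Good E O a (x j)) :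
    ∀ᶠ sp in ae, ∀ j, Good E O (a' sp) fun s => lim sp (x j s) := by
  filter_upwards [ha, Filter.eventually_all.2 fun j =>
    thm_DOWN thm_DEQ _ _ _ _ E O a (x j) (tv_lim ha) (h j)] with sp h1 h2
  rwa [show (fun i => lim sp (a i)) = a' sp from funext fun i => lim_eq (h1 i)] at h2

lemma mdown {π τ : Type} [Finite τ] {E : Sys π Empty (τ × ℕ)} {n : ℕ} {a : π → Om}
    {a' : Sp → π → ℂ} (ha : ∀ᶠ sp in ae, TV sp a (a' sp)) (h : E.MInj n a) :
    ∀ᶠ sp in ae, E.MInj n (a' sp) := by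
  filter_upwards [ha, thm_MDOWN _ _ E n a (tv_lim ha) h] with sp h1 h2
  rwa [show (fun i => lim sp (a i)) = a' sp from funext fun i => lim_eq (h1 i)] at h2

lemma ff_down (cd : CD) {sp : Sp} {c : Fin 1362 → Om} {c' : Fin 1362 → ℂ} {w : Fin 4 → ℂ}
    (hc : TV sp c c') (h : lim sp (FF cd c (cd.us : Om) fun i => ct (w i)) ≠ 0) :
    FF cd c' (cd.us : ℂ) w ≠ 0 := by
  have h1 := mem_FF cd (mv_sp.2 hc) cd.us (mv_sp.2 (tv_ct sp w))
  generalize FF cd c (cd.us : Om) (fun i => ct (w i)) = A at h h1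
  generalize FF cd c' (cd.us : ℂ) w = B at h1 ⊢
  rwa [lim_eq (show Tends sp.v A B from h1)] at h

lemma att_up {K L : Type} [Field K] [IsAlgClosed K] [Field L] {pl : Plc K L} {cd : CD} {n : Fin 8}
    {X : ℕ → K} {X' : ℕ → L} {C : Fin 70 → K} {C' : Fin 70 → L} {J' : Fin 10 × Fin 3 → L}
    {l40' : Fin 40 → Fin 2 → L} {l24' : Fin 24 → Fin 4 → L} (hX : MV pl.G X X')
    (hC : MV pl.G C C') (h : Att cd n X' C' J' l40' l24') :
    ∃ J l40 l24, Att cd n X C J l40 l24 := by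
  obtain ⟨J, hJ, gJ⟩ := thm_UP thm_DEQ _ _ _ _ _ _ JS JO pl C C' J' rfl hC h.gJ
  obtain ⟨l40, h40, g40⟩ := up (mv_elim hX hC) h.g40
  obtain ⟨l24, h24, g24⟩ := up (mv_elim hX (mv_elim hC fun _ => mem_nat (cd.x0 n))) h.g24
  exact ⟨J, l40, l24, gJ, thm_MUP _ _ _ _ _ _ pl _ _ (mv_elim hX (mv_elim hC hJ)) h.e198, g40,
    inj_up (fun j => h40 j 0) h.i40, g24, inj_up (fun j => h24 j 1) h.i24⟩

lemma att_down {cd : CD} {n : Fin 8} {X : ℕ → Om} {C : Fin 70 → Om} {J : Fin 10 × Fin 3 → Om}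
    {l40 : Fin 40 → Fin 2 → Om} {l24 : Fin 24 → Fin 4 → Om}
    (hX : ∀ᶠ sp in ae, TV sp X fun i => lim sp (X i)) (h : Att cd n X C J l40 l24) :
    ∀ᶠ sp in ae, Att cd n (fun i => lim sp (X i)) (fun i => lim sp (C i)) (fun i => lim sp (J i))
      (fun j i => lim sp (l40 j i)) fun j i => lim sp (l24 j i) := by
  have h1 : ∀ᶠ sp in ae, TV sp (Sum.elim X (Sum.elim C J))
      (Sum.elim (fun i => lim sp (X i)) (Sum.elim (fun i => lim sp (C i)) fun i => lim sp (J i))) := by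
    filter_upwards [hX, ae_tv C, ae_tv J] with sp a b c
    exact mv_sp.1 (mv_elim (mv_sp.2 a) (mv_elim (mv_sp.2 b) (mv_sp.2 c)))
  have h2 : ∀ᶠ sp in ae, TV sp (Sum.elim X C)
      (Sum.elim (fun i => lim sp (X i)) fun i => lim sp (C i)) := by
    filter_upwards [hX, ae_tv C] with sp a b
    exact mv_sp.1 (mv_elim (mv_sp.2 a) (mv_sp.2 b))
  have h3 : ∀ᶠ sp in ae, TV sp (Sum.elim X (Sum.elim C fun _ : Unit => (cd.x0 n : Om)))
      (Sum.elim (fun i => lim sp (X i))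
        (Sum.elim (fun i => lim sp (C i)) fun _ : Unit => (cd.x0 n : ℂ))) := by
    filter_upwards [hX, ae_tv C] with sp a b
    exact mv_sp.1 (mv_elim (mv_sp.2 a) (mv_elim (mv_sp.2 b) fun _ => mem_nat _))
  filter_upwards [thm_DOWN thm_DEQ _ _ _ _ JS JO C J (ae_tv C) h.gJ, mdown h1 h.e198,
    down h2 h.g40, thm_IDOWN _ _ h.i40, down h3 h.g24, thm_IDOWN _ _ h.i24] with sp a b c d e f
  exact ⟨a, b, c, d, e, f⟩

end UP

open UP

theorem thm_UP0 : S_UP0 := by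
  intro cd K L _ _ _ pl s d' hs h
  obtain ⟨x, hx, g0⟩ := thm_UP thm_DEQ _ _ _ _ _ _ (S0 cd) O0 pl s d'.s d'.x
    (by simp [Fintype.card_sum, Fintype.card_prod]) hs h.s0
  have hX := mem_sq hx
  obtain ⟨b12, h12, g12⟩ := up hX h.g12
  obtain ⟨b78, h78, g78⟩ := up hX h.fix.g78
  obtain ⟨b10, h10, g10⟩ := up hX h.fix.g10
  obtain ⟨b3, h3, g3⟩ := up (mv_pu hX cd.us) h.fix.g3
  obtain ⟨b27, h27, g27⟩ := up (mv_pu hX cd.us) h.t27.g27
  obtain ⟨b68, h68, g68⟩ := up hX h.g68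
  refine ⟨⟨s, x, b12, b78, b10, b27, b3, b68⟩, rfl, ⟨g0, g12, inj_up (fun j => h12 j 0) h.i12,
    ⟨g78, inj_up (fun j => h78 j 0) h.fix.i78, g10, inj_up (fun j => h10 j 0) h.fix.i10, g3,
      inj_up (fun j => h3 j 0) h.fix.i3⟩,
    ⟨g27, inj_up (fun j => h27 j 0) h.t27.i27,
      thm_MUP _ _ _ _ _ _ pl _ _ (mv_pu hX cd.us) h.t27.l27⟩, g68, ?_⟩, ?_, h27⟩
  · exact thm_MIU _ _ _ _ pl _ _ (fun s t => LM.mem' (mv_parX hX) (mv_single s) t) h.onto
  · exact mv_elim hX (mv_elim (fun i => h68 i.1 i.2) (mv_elim (fun _ => hX _) fun _ => hX _))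

theorem thm_UP1 : S_UP1 := by
  intro cd K L _ _ _ pl a a' w w' d' ha hw h
  obtain ⟨x, hx, g1⟩ := thm_UP thm_DEQ _ _ _ _ _ _ (S1 cd) O1 pl a a' d'.x
    (by simp [Fintype.card_sum, Fintype.card_prod]) ha h.s1
  choose J l40 l24 hatt using fun n => att_up (X := aP a) (C := xC x n) (fun _ => ha _)
    (fun _ => hx _) (h.att n)
  exact ⟨⟨x, J, l40, l24⟩, g1, inj_up (mv_uu ha hx) h.iu, hatt,
    fun j => Plc.ne_zero (mem_FF cd (fun _ => hx _) cd.us (hw j)) (h.f27 j)⟩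

theorem thm_DOWN1 : S_DOWN1 := by
  intro cd a w d ha h
  filter_upwards [ha, ae_tv d.x, thm_DOWN thm_DEQ _ _ _ _ (S1 cd) O1 a d.x ha h.s1,
    thm_IDOWN _ _ h.iu, Filter.eventually_all.2 fun n =>
      att_down (ha.mono fun _ b i => b (.inl i)) (h.att n),
    Filter.eventually_all.2 fun j => ae_lim_ne (h.f27 j)] with sp h1 h2 h3 h4 h5 h6
  refine ⟨⟨fun s => lim sp (d.x s), fun n i => lim sp (d.J n i), fun n j i => lim sp (d.l40 n j i),
    fun n j i => lim sp (d.l24 n j i)⟩, h3, ?_, h5, fun j => ?_⟩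
  · rwa [show (fun i => lim sp (uu a d.x i)) = uu (fun i => lim sp (a i)) fun s => lim sp (d.x s)
      from funext fun i => lim_eq (mv_uu (mv_sp.2 h1) (mv_sp.2 h2) i)] at h4
  · exact ff_down cd (fun _ => h2 _) (h6 j)

end Pool.Agent.P.MP_7ebcb6_ag.SC
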