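import Pool.Agent.P.MP_7ebcb6_ag.SC.A1
import Pool.Agent.P.MP_7ebcb6_ag.SC.A2
import Pool.Agent.P.MP_7ebcb6_ag.SC.B
import Pool.Agent.P.MP_7ebcb6_ag.SC.CB
import Pool.Agent.P.MP_7ebcb6_ag.SC.CH
import Pool.Agent.P.MP_7ebcb6_ag.SC.CH0
import Pool.Agent.P.MP_7ebcb6_ag.SC.CLO
import Pool.Agent.P.MP_7ebcb6_ag.SC.CV
import Pool.Agent.P.MP_7ebcb6_ag.SC.CW1
import Pool.Agent.P.MP_7ebcb6_ag.SC.CW2
import Pool.Agent.P.MP_7ebcb6_ag.SC.CZ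
import Pool.Agent.P.MP_7ebcb6_ag.SC.DT0
import Pool.Agent.P.MP_7ebcb6_ag.SC.E1
import Pool.Agent.P.MP_7ebcb6_ag.SC.F
import Pool.Agent.P.MP_7ebcb6_ag.SC.F1
import Pool.Agent.P.MP_7ebcb6_ag.SC.FIN
import Pool.Agent.P.MP_7ebcb6_ag.SC.FX1
import Pool.Agent.P.MP_7ebcb6_ag.SC.FX2
import Pool.Agent.P.MP_7ebcb6_ag.SC.Idn
import Pool.Agent.P.MP_7ebcb6_ag.SC.L27
import Pool.Agent.P.MP_7ebcb6_ag.SC.L78
import Pool.Agent.P.MP_7ebcb6_ag.SC.LAM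
import Pool.Agent.P.MP_7ebcb6_ag.SC.M
import Pool.Agent.P.MP_7ebcb6_ag.SC.NF
import Pool.Agent.P.MP_7ebcb6_ag.SC.PSG
import Pool.Agent.P.MP_7ebcb6_ag.SC.REL
import Pool.Agent.P.MP_7ebcb6_ag.SC.T
import Pool.Agent.P.MP_7ebcb6_ag.SC.UP
import Pool.Agent.P.MP_7ebcb6_ag.SC.Gen

/-! All packages put together; only the certificate is left. -/

namespace Pool.Agent.P.MP_7ebcb6_ag.SC

theorem all_CV : S_CV := thm_CV thm_HB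

theorem all_ZERO : S_ZERO := thm_ZERO (thm_B thm_A1 thm_A2 thm_A3) (thm_M thm_CLO) all_CV

theorem all_T : S_T := thm_T thm_CLO

theorem all_F : S_F := thm_F (thm_F1 all_CV) thm_F2

theorem all_CUR : S_CUR := thm_CUR thm_ON (thm_CZ thm_E2) (thm_CB thm_CH1 thm_CH2 thm_IDF thm_HOM)
  (thm_CW1 (thm_PSG thm_ON) thm_CL0 thm_IDF thm_HOM)

theorem genRel_of_cert (cd : CD) (h : S_CERT cd) : GenRel :=
  genRel_of cd h thm_UP0 thm_UP1 (thm_ID thm_DT0) thm_REL (thm_LN (thm_LH (thm_UP thm_DEQ)))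
    thm_FX1 (thm_FX2 thm_IDF thm_HOM) (thm_FX3 thm_IDF thm_HOM) thm_L78 (thm_LAM thm_ON)
    (thm_FIN all_CUR (thm_TRI thm_ON) (thm_E1 thm_NF thm_PLK) thm_CL0 thm_UP1 thm_DOWN1 thm_ON)
    thm_CH0 (thm_QC thm_LAK) thm_G0

end Pool.Agent.P.MP_7ebcb6_ag.SC
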