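import Pool.Agent.P.MP_7ebcb6_ag.SC.Form

/-! The forms commute with maps that respect the ring operations. -/

namespace Pool.Agent.P.MP_7ebcb6_ag.SC

lemma app_cond {R S : Type} (f : R → S) (b : Bool) (x y : R) :
    f (cond b x y) = cond b (f x) (f y) := by cases b <;> rfl

lemma app_v2 {R S : Type} (f : R → S) (a b : R) (i : Fin 2) :
    f (v2 a b i) = v2 (f a) (f b) i := congrFun (map_v2 f a b) i

lemma app_v4 {R S : Type} (f : R → S) (a b c d : R) (i : Fin 4) :
    f (v4 a b c d i) = v4 (f a) (f b) (f c) (f d) i := congrFun (map_v4 f a b c d) i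

lemma app_v6 {R S : Type} (f : R → S) (a b c d e g : R) (i : Fin 6) :
    f (v6 a b c d e g i) = v6 (f a) (f b) (f c) (f d) (f e) (f g) i :=
  congrFun (map_v6 f a b c d e g) i

namespace Hom

variable {R S : Type} [Add R] [Sub R] [Mul R] [NatCast R] [Add S] [Sub S] [Mul S] [NatCast S]
  {f : R → S} (h : Hom f)

include h

lemma sq {n : ℕ} (a : Fin n → R) (k : ℕ) : f (sq a k) = SC.sq (fun i => f (a i)) k := by
  unfold SC.sq
  split_ifs
  exacts [rfl, h.nat 0]

lemma pw (x : R) : ∀ n, f (pw x n) = SC.pw (f x) n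
  | 0 => h.nat 1
  | n + 1 => (h.mul _ _).trans (congrArg (· * f x) (pw x n))

lemma sm (g : ℕ → R) : ∀ n, f (sm g n) = SC.sm (fun i => f (g i)) n
  | 0 => h.nat 0
  | n + 1 => (h.add _ _).trans (congrArg (· + f (g n)) (sm g n))

lemma pl (n : ℕ) (c : ℕ → R) (x : R) : f (pl n c x) = SC.pl n (fun i => f (c i)) (f x) := by
  simp only [SC.pl, h.sm, h.mul, h.pw]

lemma bf (d : ℕ) (c : ℕ → R) (U : Fin 2 → R) :
    f (bf d c U) = SC.bf d (fun i => f (c i)) fun i => f (U i) := by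
  simp only [SC.bf, h.sm, h.mul, h.pw]

lemma af (u : R) (i : Fin 2) : f (af u i) = SC.af (f u) i := by
  simp only [SC.af, app_v2 f, h.nat]

lemma ng (x : R) : f (ng x) = SC.ng (f x) := by simp only [SC.ng, h.sub, h.nat]

lemma ee (j i : Fin 4) : f (ee j i) = SC.ee j i := by simp only [SC.ee, app_cond f, h.nat]

lemma dot (n y : Fin 4 → R) : f (dot n y) = SC.dot (fun i => f (n i)) fun i => f (y i) := by
  simp only [SC.dot, h.add, h.mul]

lemma cb (s : R) (a : Fin 4 → R) (t : R) (b : Fin 4 → R) (i : Fin 4) :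
    f (cb s a t b i) = SC.cb (f s) (fun i => f (a i)) (f t) (fun i => f (b i)) i := by
  simp only [SC.cb, h.add, h.mul]

lemma cb3 (r : R) (a : Fin 4 → R) (s : R) (b : Fin 4 → R) (t : R) (c : Fin 4 → R) (i : Fin 4) :
    f (cb3 r a s b t c i) = SC.cb3 (f r) (fun i => f (a i)) (f s) (fun i => f (b i)) (f t)
      (fun i => f (c i)) i := by
  simp only [SC.cb3, h.add, h.mul]

lemma qb (k : Fin 6 → R) (a b : Fin 4 → R) :
    f (qb k a b) = SC.qb (fun i => f (k i)) (fun i => f (a i)) fun i => f (b i) := by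
  simp only [SC.qb, h.add, h.mul]

lemma tri (g : Fin 20 → R) (a b c : Fin 4 → R) : f (tri g a b c)
    = SC.tri (fun i => f (g i)) (fun i => f (a i)) (fun i => f (b i)) fun i => f (c i) := by
  simp only [SC.tri, h.add, h.mul]

lemma qlc (k : Fin 6 → R) (n : Fin 4 → R) (i : Fin 20) :
    f (qlc k n i) = SC.qlc (fun i => f (k i)) (fun i => f (n i)) i := by
  unfold SC.qlc
  split <;> simp only [h.add, h.mul, h.nat]

lemma cay (m : Fin 4 → R) (i : Fin 20) : f (cay m i) = SC.cay (fun i => f (m i)) i := by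
  unfold SC.cay
  split <;> simp only [h.nat]

lemma det3 (a0 a1 a2 b0 b1 b2 c0 c1 c2 : R) : f (det3 a0 a1 a2 b0 b1 b2 c0 c1 c2)
    = SC.det3 (f a0) (f a1) (f a2) (f b0) (f b1) (f b2) (f c0) (f c1) (f c2) := by
  simp only [SC.det3, h.add, h.sub, h.mul]

lemma plk (a b : Fin 4 → R) (i : Fin 6) :
    f (plk a b i) = SC.plk (fun i => f (a i)) (fun i => f (b i)) i := by
  simp only [SC.plk, app_v6 f, h.sub, h.mul]

lemma pp (p q : Fin 6 → R) : f (pp p q) = SC.pp (fun i => f (p i)) fun i => f (q i) := by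
  simp only [SC.pp, h.add, h.sub, h.mul]

lemma det4 (a b c d : Fin 4 → R) : f (det4 a b c d)
    = SC.det4 (fun i => f (a i)) (fun i => f (b i)) (fun i => f (c i)) fun i => f (d i) := by
  simp only [SC.det4, h.pp, h.plk]

lemma res22 (a0 a1 a2 b0 b1 b2 : R) : f (res22 a0 a1 a2 b0 b1 b2)
    = SC.res22 (f a0) (f a1) (f a2) (f b0) (f b1) (f b2) := by
  simp only [SC.res22, h.sub, h.mul]

lemma res23 (a0 a1 a2 b0 b1 b2 b3 : R) : f (res23 a0 a1 a2 b0 b1 b2 b3)
    = SC.res23 (f a0) (f a1) (f a2) (f b0) (f b1) (f b2) (f b3) := by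
  simp only [SC.res23, h.add, h.sub, h.mul]

lemma resL (aa ab bb : R) (g : Fin 20 → R) (a b : Fin 4 → R) : f (resL aa ab bb g a b)
    = SC.resL (f aa) (f ab) (f bb) (fun i => f (g i)) (fun i => f (a i)) fun i => f (b i) := by
  simp only [SC.resL, h.res23, h.add, h.mul, h.tri, h.nat]

lemma Rs (g : Fin 20 → R) (x a b : Fin 4 → R) : f (Rs g x a b)
    = SC.Rs (fun i => f (g i)) (fun i => f (x i)) (fun i => f (a i)) fun i => f (b i) := by
  simp only [SC.Rs, h.resL, h.tri]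

lemma resQ (k : Fin 6 → R) (g : Fin 20 → R) (a b : Fin 4 → R) : f (resQ k g a b)
    = SC.resQ (fun i => f (k i)) (fun i => f (g i)) (fun i => f (a i)) fun i => f (b i) := by
  simp only [SC.resQ, h.resL, h.qb]

lemma gram (k : Fin 6 → R) (a b c : Fin 4 → R) : f (gram k a b c)
    = SC.gram (fun i => f (k i)) (fun i => f (a i)) (fun i => f (b i)) fun i => f (c i) := by
  simp only [SC.gram, h.det3, h.qb]

lemma thd (g : Fin 20 → R) (x t : Fin 4 → R) (i : Fin 4) : f (thd g x t i)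
    = SC.thd (fun i => f (g i)) (fun i => f (x i)) (fun i => f (t i)) i := by
  simp only [SC.thd, h.cb, h.tri, h.ng, h.mul, h.nat]

lemma th1 (g : Fin 20 → R) (x : Fin 4 → R) (i : Fin 4) :
    f (th1 g x i) = SC.th1 (fun i => f (g i)) (fun i => f (x i)) i := by
  simp only [SC.th1, app_v4 f, h.tri, h.ng, h.nat, h.ee]

lemma th2 (g : Fin 20 → R) (x : Fin 4 → R) (i : Fin 4) :
    f (th2 g x i) = SC.th2 (fun i => f (g i)) (fun i => f (x i)) i := by
  simp only [SC.th2, app_v4 f, h.tri, h.ng, h.nat, h.ee]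

lemma sx (k : Fin 6 → R) (g : Fin 20 → R) (x t : Fin 4 → R) : f (sx k g x t)
    = SC.sx (fun i => f (k i)) (fun i => f (g i)) (fun i => f (x i)) fun i => f (t i) := by
  simp only [SC.sx, h.qb, h.thd]

lemma lA (W : Fin 4 → R) (i : Fin 4) : f (lA W i) = SC.lA (fun i => f (W i)) i := by
  simp only [SC.lA, app_v4 f, h.nat]

lemma lB (W : Fin 4 → R) (i : Fin 4) : f (lB W i) = SC.lB (fun i => f (W i)) i := by
  simp only [SC.lB, app_v4 f, h.nat]

lemma lP (W : Fin 4 → R) (i : Fin 6) : f (lP W i) = SC.lP (fun i => f (W i)) i := by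
  simp only [SC.lP, app_v6 f, h.nat, h.ng, h.sub, h.mul]

lemma lnE (g : Fin 20 → R) (W : Fin 4 → R) (i : Fin 4) :
    f (lnE g W i) = SC.lnE (fun i => f (g i)) (fun i => f (W i)) i := by
  simp only [SC.lnE, app_v4 f, h.tri, h.lA, h.lB]

lemma lnJ (g : Fin 20 → R) (W : Fin 4 → R) :
    f (lnJ g W) = SC.lnJ (fun i => f (g i)) fun i => f (W i) := by
  simp only [SC.lnJ, h.res22, h.tri, h.lA, h.lB, h.mul, h.nat, h.ee]

lemma col (i : ℕ) (al : Fin 4 → Fin 6) (u : R) (p : Fin 6 → R) :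
    f (col i al u p) = SC.col i al (f u) fun i => f (p i) := by
  simp only [SC.col, h.mul, h.pw]

lemma Fev (n : ℕ) (ie : ℕ → ℕ) (al : ℕ → Fin 4 → Fin 6) (c : ℕ → R) (u : R) (p : Fin 6 → R) :
    f (Fev n ie al c u p) = SC.Fev n ie al (fun i => f (c i)) (f u) fun i => f (p i) := by
  simp only [SC.Fev, h.sm, h.mul, h.col]

variable (P : Pen R) (U : Fin 2 → R)

lemma kk (a : Fin 2) (p : Fin 6) : f (P.kk a U p) = (P.map f).kk a (fun i => f (U i)) p :=
  h.bf _ _ _

lemma gc (b : Fin 20) : f (P.gc U b) = (P.map f).gc (fun i => f (U i)) b := by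
  simp only [Pen.gc, h.cay, h.bf, Pen.map]

lemma nuv : f (P.nuv U) = (P.map f).nuv fun i => f (U i) := h.bf _ _ _

lemma ff (s : Fin 4) (a : Fin 2) : f (P.ff s a U) = (P.map f).ff s a fun i => f (U i) :=
  h.bf _ _ _

lemma nn (s m : Fin 4) : f (P.nn s U m) = (P.map f).nn s (fun i => f (U i)) m := by
  simp only [Pen.nn, h.mul, h.bf, Pen.map]

lemma gg (p : Fin 6) (b : Fin 20) : f (P.gg p U b) = (P.map f).gg p (fun i => f (U i)) b :=
  h.bf _ _ _

lemma be (s t : Fin 4) : f (P.be s t U) = (P.map f).be s t fun i => f (U i) := by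
  simp only [Pen.be, h.sub, h.mul, h.ff]

lemma pi (s t : Fin 4) (a : Fin 2) (m : Fin 4) :
    f (P.pi s t a U m) = (P.map f).pi s t a (fun i => f (U i)) m := by
  simp only [Pen.pi, h.sub, h.mul, h.ff, h.nn]

lemma dt (s t : Fin 4) (b : Fin 20) :
    f (P.dt s t U b) = (P.map f).dt s t (fun i => f (U i)) b := by
  simp only [Pen.dt, h.sub, h.mul, h.qlc, h.kk, h.pi, h.be, h.gc]

lemma ks (p : Fin 6) : f (P.ks U p) = (P.map f).ks (fun i => f (U i)) p := by
  simp only [Pen.ks, h.sub, h.mul, h.ff, h.kk]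

lemma cs (b : Fin 20) : f (P.cs U b) = (P.map f).cs (fun i => f (U i)) b := by
  simp only [Pen.cs, h.add, h.mul, h.qlc, h.kk, h.nn, h.ff, h.gc]

lemma G (b : Fin 20) : f (P.G U b) = (P.map f).G (fun i => f (U i)) b := h.gg P U 0 b

lemma B : f (P.B U) = (P.map f).B fun i => f (U i) := h.be P U 0 1

lemma Pl (m : Fin 4) : f (P.Pl U m) = (P.map f).Pl (fun i => f (U i)) m := h.pi P U 0 1 0 m

lemma d023 (Y : Fin 4 → R) :
    f (P.d023 U Y) = (P.map f).d023 (fun i => f (U i)) fun i => f (Y i) := by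
  simp only [Pen.d023, h.det3, h.ff, h.dot, h.nn]

variable (C : ℕ → R) (x z : R)

lemma cq (i : Fin 4) : f (cq C x i) = SC.cq (fun i => f (C i)) (f x) i := by
  simp only [SC.cq, app_v4 f, h.pl]

lemma cf : f (cf C x z) = SC.cf (fun i => f (C i)) (f x) (f z) := by
  simp only [SC.cf, h.sub, h.add, h.mul, h.cq]

lemma cfz : f (cfz C x z) = SC.cfz (fun i => f (C i)) (f x) (f z) := by
  simp only [SC.cfz, h.sub, h.add, h.mul, h.cq, h.nat]

lemma cU (i : Fin 2) : f (cU C x z i) = SC.cU (fun i => f (C i)) (f x) (f z) i := by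
  simp only [SC.cU, app_v2 f, h.sub, h.add, h.mul]

lemma cub : f (cub C x z) = SC.cub (fun i => f (C i)) (f x) (f z) := by
  simp only [SC.cub, h.add, h.mul]

lemma cY (i : Fin 4) : f (cY C x z i) = SC.cY (fun i => f (C i)) (f x) (f z) i := by
  simp only [SC.cY, app_v4 f, h.cub]

lemma bx (i : ℕ) : f (bx C i) = SC.bx (fun i => f (C i)) i := by
  simp only [SC.bx, app_cond f, h.nat]

lemma bz (i : ℕ) : f (bz C i) = SC.bz (fun i => f (C i)) i := by
  simp only [SC.bz, app_cond f, h.nat]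

lemma gT (ta : R) (k : Fin 3) (b : Fin 20) :
    f (gT P ta k U b) = SC.gT (P.map f) (f ta) k (fun i => f (U i)) b := by
  simp only [SC.gT, app_cond f, h.add, h.mul, h.gg]

lemma cT (ta : R) (k : Fin 3) :
    f (cT C P ta k x z) = SC.cT (fun i => f (C i)) (P.map f) (f ta) k (f x) (f z) := by
  simp only [SC.cT, h.tri, h.gT, h.cU, h.cY]

end Hom

lemma Pen.map_of {R S : Type} (φ : R → S) (a : ℕ → R) :
    (Pen.of a).map φ = Pen.of fun i => φ (a i) := rfl

lemma Pen.map_map {R S T : Type} (φ : R → S) (ψ : S → T) (P : Pen R) :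
    (P.map φ).map ψ = P.map fun a => ψ (φ a) := rfl

end Pool.Agent.P.MP_7ebcb6_ag.SC
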