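import Pool.Agent.P.MP_7ebcb6_ag.G8.Emb
import Pool.Agent.P.MP_7ebcb6_ag.SC.FormN

/-! Additive valuations, limits and the filter of almost all specialisations. -/

open scoped WithZero

namespace Pool.Agent.P.MP_7ebcb6_ag.SC

open G8

noncomputable section

abbrev V2 (K : Type) : Type := Fin 2 → K
abbrev V4 (K : Type) : Type := Fin 4 → K

/-- The inclusion of the constants. -/
abbrev ct : ℂ →+* Om := algebraMap ℂ Om

/-- The Galois group of `Om` over `ℂ(lam)`. -/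
abbrev Gal : Type := Om ≃ₐ[RatFunc ℂ] Om

/-- Limits of vectors. -/
def TV (sp : Sp) {ι : Type} (x : ι → Om) (y : ι → ℂ) : Prop := ∀ i, Tends sp.v (x i) (y i)

open Classical in
/-- The limit of an element (zero if there is none). -/
def lim (sp : Sp) (a : Om) : ℂ := if h : ∃ c, Tends sp.v a c then h.choose else 0

lemma lim_eq {sp : Sp} {a : Om} {c : ℂ} (h : Tends sp.v a c) : lim sp a = c := by
  rw [lim, dif_pos ⟨c, h⟩]
  exact (Exists.choose_spec ⟨c, h⟩).unique h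

lemma tends_lim {sp : Sp} {a : Om} (h : sp.v a ≤ 1) : Tends sp.v a (lim sp a) := by
  obtain ⟨c, hc⟩ := sp.exists_tends h
  rwa [lim_eq hc]

lemma lim_ct (sp : Sp) (c : ℂ) : lim sp (ct c) = c := lim_eq (Tends.const c)

/-- The uniformiser at a point of the projective line. -/
def unc : Option ℂ → Om
  | some c => lam - ct c
  | none => lam⁻¹

lemma nonConst_unc : ∀ c, NonConst (unc c)
  | some c => fun d h => nonConst_lam (d + c) (by rw [map_add, ← h]; simp [unc])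
  | none => nonConst_lam.inv

lemma unc_ne_zero (c : Option ℂ) : unc c ≠ 0 := (nonConst_unc c).ne_zero

open Classical in
/-- The point of the projective line below a specialisation. -/
def pt (sp : Sp) : Option ℂ := if sp.v lam ≤ 1 then some (lim sp lam) else none

lemma pt_eq_iff {sp : Sp} : ∀ {c : Option ℂ}, pt sp = c ↔ sp.v (unc c) < 1
  | some c => by
    unfold pt
    split_ifs with h
    · exact ⟨fun e => Option.some.inj e ▸ tends_lim h, fun e => congrArg some (lim_eq e)⟩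
    · exact ⟨fun e => absurd e (by simp), fun e => absurd (Tends.le_one e) h⟩
  | none => by
    rw [unc, ← Valuation.one_lt_val_iff _ nonConst_lam.ne_zero, ← not_le]
    unfold pt
    split_ifs with h <;> simp [h]

lemma pt_eq_some {sp : Sp} {c : ℂ} : pt sp = some c ↔ Tends sp.v lam c := pt_eq_iff

/-- The uniformiser of the base at a specialisation. -/
def un (sp : Sp) : Om := unc (pt sp)

lemma un_ne_zero (sp : Sp) : un sp ≠ 0 := unc_ne_zero _

lemma v_un_lt (sp : Sp) : sp.v (un sp) < 1 := pt_eq_iff.mp rfl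

lemma v_un_pos (sp : Sp) : 0 < sp.v (un sp) := zero_lt_iff.mpr (by simpa using un_ne_zero sp)

/-- A chosen specialisation over each point. -/
def sec (c : Option ℂ) : Sp := ((nonConst_unc c).exists_sp 0).choose

lemma pt_sec (c : Option ℂ) : pt (sec c) = c :=
  pt_eq_iff.mpr (Tends.zero_iff.mp ((nonConst_unc c).exists_sp 0).choose_spec)

lemma un_sec (c : Option ℂ) : un (sec c) = unc c := by rw [un, pt_sec]

lemma tends_sec (c : ℂ) : Tends (sec (some c)).v lam c := pt_eq_some.mp (pt_sec _)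

lemma exists_av (sp : Sp) {a : Om} (ha : a ≠ 0) :
    ∃ (n : ℕ) (m : ℤ), 0 < n ∧ sp.v a ^ n = sp.v (un sp) ^ m := by
  classical
  obtain ⟨K, hK, hT⟩ := exists_finK {a, un sp}
  obtain ⟨w, hw, hl⟩ := sp.exists_lies K
  let x : K := ⟨a, hT _ (by simp)⟩
  let y : K := ⟨un sp, hT _ (by simp)⟩
  have hx : x ≠ 0 := fun h => ha (congrArg Subtype.val h)
  have hy : y ≠ 0 := fun h => un_ne_zero sp (congrArg Subtype.val h)
  have hpos := ord_pos_of_lt_one hy ((hl.lt_one y).mpr (v_un_lt sp))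
  obtain ⟨n, hn⟩ := Int.eq_ofNat_of_zero_le hpos.le
  refine ⟨n, ord w x, by omega, ?_⟩
  have h1 : w (x ^ n) = w (y ^ ord w x) := by
    have e1 : w x ≠ 0 := by simpa using hx
    have e2 : w y ≠ 0 := by simpa using hy
    rw [map_pow, map_zpow₀, ← WithZero.exp_log e1, ← WithZero.exp_log e2, ← WithZero.exp_nsmul,
      ← WithZero.exp_zsmul, WithZero.exp_inj]
    simp only [ord] at hn ⊢
    rw [nsmul_eq_mul, ← hn, smul_eq_mul]
    ring
  have h2 := (Valuation.IsEquiv.eq_iff hl).mp h1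
  rw [← map_pow, ← map_zpow₀]
  simpa using h2

open Classical in
/-- The additive valuation normalised by the uniformiser of the base (zero at zero). -/
def av (sp : Sp) (a : Om) : ℚ :=
  if h : a = 0 then 0
  else ((exists_av sp h).choose_spec.choose : ℚ) / ((exists_av sp h).choose : ℚ)

@[simp] lemma av_zero (sp : Sp) : av sp 0 = 0 := dif_pos rfl

lemma av_spec (sp : Sp) {a : Om} (ha : a ≠ 0) :
    ∃ (n : ℕ) (m : ℤ), 0 < n ∧ sp.v a ^ n = sp.v (un sp) ^ m ∧ av sp a = m / n :=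
  ⟨_, _, (exists_av sp ha).choose_spec.choose_spec.1, (exists_av sp ha).choose_spec.choose_spec.2,
    dif_neg ha⟩

lemma av_le_iff {sp : Sp} {a b : Om} (ha : a ≠ 0) (hb : b ≠ 0) :
    av sp b ≤ av sp a ↔ sp.v a ≤ sp.v b := by
  obtain ⟨n, m, hn, h, e⟩ := av_spec sp ha
  obtain ⟨n', m', hn', h', e'⟩ := av_spec sp hb
  have hq : (0 : ℚ) < n := by exact_mod_cast hn
  have hq' : (0 : ℚ) < n' := by exact_mod_cast hn'
  rw [e, e', div_le_div_iff₀ hq' hq,
    ← pow_le_pow_iff_left₀ (a := sp.v a) zero_le zero_le (Nat.mul_pos hn hn').ne', pow_mul, h,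
    mul_comm n, pow_mul, h', ← zpow_natCast, ← zpow_natCast, ← zpow_mul, ← zpow_mul,
    zpow_le_zpow_iff_right_of_lt_one₀ (v_un_pos sp) (v_un_lt sp)]
  exact_mod_cast Iff.rfl

lemma av_lt_iff {sp : Sp} {a b : Om} (ha : a ≠ 0) (hb : b ≠ 0) :
    av sp b < av sp a ↔ sp.v a < sp.v b := by
  rw [← not_le, av_le_iff hb ha, not_le]

lemma av_eq_iff {sp : Sp} {a b : Om} (ha : a ≠ 0) (hb : b ≠ 0) :
    av sp a = av sp b ↔ sp.v a = sp.v b := by
  rw [le_antisymm_iff, le_antisymm_iff, av_le_iff ha hb, av_le_iff hb ha, and_comm]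

lemma av_of_pow {sp : Sp} {a : Om} (ha : a ≠ 0) {n : ℕ} {m : ℤ} (hn : 0 < n)
    (h : sp.v a ^ n = sp.v (un sp) ^ m) : av sp a = m / n := by
  obtain ⟨n', m', hn', h', e⟩ := av_spec sp ha
  have hq : (n : ℚ) ≠ 0 := by exact_mod_cast hn.ne'
  have hq' : (n' : ℚ) ≠ 0 := by exact_mod_cast hn'.ne'
  have h1 : sp.v (un sp) ^ (m' * n) = sp.v (un sp) ^ (m * n') := by
    rw [zpow_mul, zpow_mul, ← h, ← h', zpow_natCast, zpow_natCast, ← pow_mul, ← pow_mul, mul_comm]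
  rw [e, div_eq_div_iff hq' hq]
  exact_mod_cast zpow_right_injective₀ (v_un_pos sp) (v_un_lt sp).ne h1

lemma av_mul {sp : Sp} {a b : Om} (ha : a ≠ 0) (hb : b ≠ 0) :
    av sp (a * b) = av sp a + av sp b := by
  obtain ⟨n, m, hn, h, e⟩ := av_spec sp ha
  obtain ⟨n', m', hn', h', e'⟩ := av_spec sp hb
  have hq : (n : ℚ) ≠ 0 := by exact_mod_cast hn.ne'
  have hq' : (n' : ℚ) ≠ 0 := by exact_mod_cast hn'.ne'
  rw [av_of_pow (mul_ne_zero ha hb) (Nat.mul_pos hn hn') (m := m * n' + m' * n), e, e']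
  · push_cast
    field_simp
  · rw [map_mul, mul_pow, pow_mul, h, mul_comm n, pow_mul, h', zpow_add₀ (v_un_pos sp).ne',
      zpow_mul, zpow_mul, zpow_natCast, zpow_natCast]

lemma av_un (sp : Sp) : av sp (un sp) = 1 := by
  rw [av_of_pow (un_ne_zero sp) one_pos (m := 1) (by simp)]
  simp

@[simp] lemma av_one (sp : Sp) : av sp 1 = 0 := by
  rw [av_of_pow one_ne_zero one_pos (m := 0) (by simp)]
  simp

lemma av_eq_zero_iff {sp : Sp} {a : Om} (ha : a ≠ 0) : av sp a = 0 ↔ sp.v a = 1 := by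
  rw [← av_one sp, av_eq_iff ha one_ne_zero, map_one]

lemma av_of_v_one {sp : Sp} {a : Om} (h : sp.v a = 1) : av sp a = 0 :=
  (av_eq_zero_iff fun e => by simp [e] at h).mpr h

lemma av_nonneg_iff {sp : Sp} {a : Om} (ha : a ≠ 0) : 0 ≤ av sp a ↔ sp.v a ≤ 1 := by
  rw [← av_one sp, av_le_iff ha one_ne_zero, map_one]

lemma av_nonneg {sp : Sp} {a : Om} (h : sp.v a ≤ 1) : 0 ≤ av sp a := by
  by_cases ha : a = 0
  · simp [ha]
  · exact (av_nonneg_iff ha).mpr h

lemma av_pos_iff {sp : Sp} {a : Om} (ha : a ≠ 0) : 0 < av sp a ↔ sp.v a < 1 := by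
  rw [← av_one sp, av_lt_iff ha one_ne_zero, map_one]

@[simp] lemma av_ct (sp : Sp) (c : ℂ) : av sp (ct c) = 0 := by
  by_cases hc : c = 0
  · simp [hc]
  · exact av_of_v_one ((Tends.const c).eq_one hc)

lemma av_inv (sp : Sp) (a : Om) : av sp a⁻¹ = -av sp a := by
  by_cases ha : a = 0
  · simp [ha]
  · rw [eq_neg_iff_add_eq_zero, ← av_mul (inv_ne_zero ha) ha, inv_mul_cancel₀ ha, av_one]

lemma av_div {sp : Sp} {a b : Om} (ha : a ≠ 0) (hb : b ≠ 0) :
    av sp (a / b) = av sp a - av sp b := by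
  rw [div_eq_mul_inv, av_mul ha (inv_ne_zero hb), av_inv, sub_eq_add_neg]

lemma av_pow (sp : Sp) (a : Om) (n : ℕ) : av sp (a ^ n) = n * av sp a := by
  by_cases ha : a = 0
  · rcases n with _ | n <;> simp [ha]
  induction n with
  | zero => simp
  | succ n ih =>
    rw [pow_succ, av_mul (pow_ne_zero _ ha) ha, ih]
    push_cast
    ring

lemma av_neg (sp : Sp) (a : Om) : av sp (-a) = av sp a := by
  by_cases ha : a = 0
  · simp [ha]
  · exact (av_eq_iff (neg_ne_zero.mpr ha) ha).mpr (Valuation.map_neg _ _)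

lemma av_prod {sp : Sp} {ι : Type} (s : Finset ι) {a : ι → Om} (ha : ∀ i ∈ s, a i ≠ 0) :
    av sp (∏ i ∈ s, a i) = ∑ i ∈ s, av sp (a i) := by
  classical
  induction s using Finset.induction_on with
  | empty => simp
  | insert i s hi ih =>
    rw [Finset.prod_insert hi, Finset.sum_insert hi, av_mul (ha i (by simp))
      (Finset.prod_ne_zero_iff.mpr fun j hj => ha j (by simp [hj])),
      ih fun j hj => ha j (by simp [hj])]

lemma le_av_iff {sp : Sp} {a : Om} (ha : a ≠ 0) (n : ℕ) :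
    (n : ℚ) ≤ av sp a ↔ sp.v a ≤ sp.v (un sp) ^ n := by
  rw [← map_pow, ← av_le_iff ha (pow_ne_zero _ (un_ne_zero sp)), av_pow, av_un, mul_one]

lemma av_eq_nat_iff {sp : Sp} {a : Om} (ha : a ≠ 0) (n : ℕ) :
    av sp a = n ↔ sp.v a = sp.v (un sp) ^ n := by
  rw [← map_pow, ← av_eq_iff ha (pow_ne_zero _ (un_ne_zero sp)), av_pow, av_un, mul_one]

section vec

variable {n : ℕ}

lemma exists_nv (sp : Sp) (x : Fin (n + 1) → Om) : ∃ i, ∀ j, sp.v (x j) ≤ sp.v (x i) := by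
  obtain ⟨i, -, hi⟩ := Finset.exists_max_image Finset.univ (fun i => sp.v (x i))
    Finset.univ_nonempty
  exact ⟨i, fun j => hi j (Finset.mem_univ j)⟩

/-- An entry of maximal size. -/
def nv (sp : Sp) (x : Fin (n + 1) → Om) : Om := x (exists_nv sp x).choose

/-- The valuation of a vector. -/
def mu (sp : Sp) (x : Fin (n + 1) → Om) : ℚ := av sp (nv sp x)

/-- The normalised vector. -/
def nz (sp : Sp) (x : Fin (n + 1) → Om) : Fin (n + 1) → Om := fun i => (nv sp x)⁻¹ * x i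

/-- The limit of the normalised vector. -/
def rd (sp : Sp) (x : Fin (n + 1) → Om) : Fin (n + 1) → ℂ := fun i => lim sp (nz sp x i)

variable {sp : Sp} {x : Fin (n + 1) → Om}

lemma le_nv (sp : Sp) (x : Fin (n + 1) → Om) (j : Fin (n + 1)) : sp.v (x j) ≤ sp.v (nv sp x) :=
  (exists_nv sp x).choose_spec j

lemma nv_mem (sp : Sp) (x : Fin (n + 1) → Om) : ∃ i, nv sp x = x i := ⟨_, rfl⟩

lemma nv_ne_zero (sp : Sp) (hx : x ≠ 0) : nv sp x ≠ 0 := fun h =>
  hx (funext fun j => by simpa [h] using le_nv sp x j)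

lemma eq_nv_mul (sp : Sp) (hx : x ≠ 0) : x = fun i => nv sp x * nz sp x i :=
  funext fun _ => (mul_inv_cancel_left₀ (nv_ne_zero sp hx) _).symm

lemma tv_nz (sp : Sp) (x : Fin (n + 1) → Om) : TV sp (nz sp x) (rd sp x) := fun i => by
  refine tends_lim ?_
  by_cases h : nv sp x = 0
  · simp [nz, h]
  · rw [nz, map_mul, map_inv₀, inv_mul_le_one₀ (zero_lt_iff.mpr (by simpa using h))]
    exact le_nv sp x i

lemma rd_ne_zero (sp : Sp) (hx : x ≠ 0) : rd sp x ≠ 0 := fun h => by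
  obtain ⟨i, hi⟩ := nv_mem sp x
  have := tv_nz sp x i
  rw [h, nz, ← hi, inv_mul_cancel₀ (nv_ne_zero sp hx)] at this
  exact zero_ne_one (this.unique Tends.one)

lemma red_rd (sp : Sp) (hx : x ≠ 0) : (spPl sp).Red x (rd sp x) :=
  ⟨rd_ne_zero sp hx, _, tv_nz sp x⟩

lemma mu_le (sp : Sp) {j : Fin (n + 1)} (hj : x j ≠ 0) : mu sp x ≤ av sp (x j) :=
  (av_le_iff hj (nv_ne_zero sp (Function.ne_iff.mpr ⟨j, hj⟩))).mpr (le_nv sp x j)

lemma le_mu {q : ℚ} (hx : x ≠ 0) (h : ∀ j, x j ≠ 0 → q ≤ av sp (x j)) : q ≤ mu sp x :=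
  h _ (nv_ne_zero sp hx)

/-- A scalar that makes a vector converge to a nonzero limit has the size of the normaliser. -/
lemma v_nv_of_tv {c : Om} {y : Fin (n + 1) → ℂ} (h : TV sp (fun i => c * x i) y) (hy : y ≠ 0) :
    sp.v (c * nv sp x) = 1 := by
  obtain ⟨j, hj⟩ := Function.ne_iff.mp hy
  obtain ⟨i, hi⟩ := nv_mem sp x
  refine le_antisymm (hi ▸ (h i).le_one) ?_
  rw [← (h j).eq_one hj, map_mul, map_mul]
  exact mul_le_mul_right (le_nv sp x j) _

lemma mu_of_tv {c : Om} {y : Fin (n + 1) → ℂ} (h : TV sp (fun i => c * x i) y) (hy : y ≠ 0) :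
    mu sp x = -av sp c := by
  have h1 := v_nv_of_tv h hy
  have h2 : c * nv sp x ≠ 0 := fun e => by simp [e] at h1
  rw [eq_neg_iff_add_eq_zero, add_comm, mu, ← av_mul (left_ne_zero_of_mul h2)
    (right_ne_zero_of_mul h2), av_of_v_one h1]

lemma rd_of_tv {c : Om} {y : Fin (n + 1) → ℂ} (h : TV sp (fun i => c * x i) y) (hy : y ≠ 0) :
    ∃ d : ℂ, d ≠ 0 ∧ rd sp x = fun i => d * y i := by
  have h1 : (spPl sp).Red x y := ⟨hy, c, h⟩
  exact (red_rd sp h1.ne_zero).uniq h1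

end vec

/-- Almost all specialisations. -/
def ae : Filter Sp where
  sets := {S | ∃ G : Finset Om, ∀ sp : Sp, (∀ g ∈ G, sp.v g ≤ 1) → sp ∈ S}
  univ_sets := ⟨∅, fun _ _ => trivial⟩
  sets_of_superset := fun ⟨G, h⟩ hs => ⟨G, fun sp hsp => hs (h sp hsp)⟩
  inter_sets := by
    classical
    rintro S T ⟨G, h⟩ ⟨G', h'⟩
    exact ⟨G ∪ G', fun sp hsp => ⟨h sp fun g hg => hsp g (Finset.mem_union_left _ hg),
      h' sp fun g hg => hsp g (Finset.mem_union_right _ hg)⟩⟩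

lemma ae_int (a : Om) : ∀ᶠ sp in ae, sp.v a ≤ 1 := ⟨{a}, fun _ h => h a (by simp)⟩

lemma ae_tends (a : Om) : ∀ᶠ sp in ae, Tends sp.v a (lim sp a) :=
  (ae_int a).mono fun _ => tends_lim

lemma ae_tv {ι : Type} [Finite ι] (x : ι → Om) : ∀ᶠ sp in ae, TV sp x fun i => lim sp (x i) :=
  Filter.eventually_all.mpr fun i => ae_tends (x i)

lemma ae_unit {a : Om} (ha : a ≠ 0) : ∀ᶠ sp in ae, sp.v a = 1 := by
  filter_upwards [ae_int a, ae_int a⁻¹] with sp h1 h2
  exact le_antisymm h1 ((Valuation.one_le_val_iff _ ha).mpr h2)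

lemma ae_lim_ne {a : Om} (ha : a ≠ 0) : ∀ᶠ sp in ae, lim sp a ≠ 0 := by
  filter_upwards [ae_unit ha] with sp h e
  have := tends_lim h.le
  rw [e, Tends.zero_iff, h] at this
  exact lt_irrefl _ this

lemma eq_of_ae {M : Type} [AddCommGroup M] {γ : Sp → M} (h : IsFam γ) {β : M}
    (hβ : ∀ᶠ sp in ae, γ sp = β) (sp0 : Sp) : γ sp0 = β := by
  obtain ⟨G, hG⟩ := hβ
  exact h.eq_of_finite G β hG sp0

/-- A class function on the points `(U, Y)` of a surface in `ℙ¹ × ℙ³`. -/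
structure Cl (On : V2 Om → V4 Om → Prop) (Bad : V2 ℂ → V4 ℂ → Prop) where
  cls : V2 ℂ → V4 ℂ → ℚ
  smul : ∀ (a b : ℂ) U Y, a ≠ 0 → b ≠ 0 → cls (fun i => a * U i) (fun i => b * Y i) = cls U Y
  bad : ∀ U Y, Bad U Y → cls U Y = 0
  fam : ∀ U Y, U ≠ 0 → Y ≠ 0 → On U Y → ∃ δ : Sp → ℚ, IsFam δ ∧
    ∀ sp U' Y', (spPl sp).Red U U' → (spPl sp).Red Y Y' → δ sp = cls U' Y'

lemma Cl.rd_eq {On : V2 Om → V4 Om → Prop} {Bad : V2 ℂ → V4 ℂ → Prop} (cl : Cl On Bad) {sp : Sp}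
    {a b : Om} {U : V2 Om} {Y : V4 Om} {U' : V2 ℂ} {Y' : V4 ℂ} (hU : TV sp (fun i => a * U i) U')
    (hY : TV sp (fun i => b * Y i) Y') (h0 : U' ≠ 0) (h1 : Y' ≠ 0) :
    cl.cls (rd sp U) (rd sp Y) = cl.cls U' Y' := by
  obtain ⟨c, hc, e⟩ := rd_of_tv hU h0
  obtain ⟨d, hd, e'⟩ := rd_of_tv hY h1
  rw [e, e', cl.smul c d U' Y' hc hd]

end

end Pool.Agent.P.MP_7ebcb6_ag.SC
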