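import Pool.Agent.P.MP_7ebcb6_ag.Defs

/-!
The family of surfaces in `ℙ¹ × ℙ³`, fibred in curves of genus four through the coordinate
points, that is attached to lines in the complete intersection of four quadrics in `ℙ¹¹`.
-/

open scoped LinearAlgebra.Projectivization

namespace Pool.Agent.P.MP_7ebcb6_ag.SC

/-- `c1 m < c2 m < c3 m` are the three indices different from `m`. -/
def c1 : Fin 4 → Fin 4 := ![1, 0, 0, 0]
def c2 : Fin 4 → Fin 4 := ![2, 2, 1, 1]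
def c3 : Fin 4 → Fin 4 := ![3, 3, 3, 2]

/-- The pairs `01, 02, 03, 12, 13, 23`: first index, second index, number of a pair. -/
def pa : Fin 6 → Fin 4 := ![0, 0, 0, 1, 1, 2]
def pb : Fin 6 → Fin 4 := ![1, 2, 3, 2, 3, 3]
def pr : Fin 4 → Fin 4 → Fin 6 := ![![0, 0, 1, 2], ![0, 0, 3, 4], ![1, 3, 0, 5], ![2, 4, 5, 0]]

section

variable {R : Type} [Add R] [Mul R] (A : Fin 4 → Fin 4 → R)

/-- The four quadrics in the twelve variables `A i j`. -/
def quadQ (m : Fin 4) : R :=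
  A (c1 m) (c2 m) * A (c1 m) (c3 m) + A (c2 m) (c1 m) * A (c2 m) (c3 m)
    + A (c3 m) (c1 m) * A (c3 m) (c2 m)

def nuM (m : Fin 4) : R :=
  A (c1 m) (c2 m) * A (c2 m) (c3 m) * A (c3 m) (c1 m)
    + A (c1 m) (c3 m) * A (c3 m) (c2 m) * A (c2 m) (c1 m)

def muM (m : Fin 4) : R := A (c1 m) m * A (c2 m) m * A (c3 m) m * nuM A m

def nhM (m : Fin 4) : R := nuM A (c1 m) * nuM A (c2 m) * nuM A (c3 m)

def nuA : R := nuM A 0 * nuM A 1 * nuM A 2 * nuM A 3

def cmp (E : Fin 6 → R) (ka : Fin 4 → R) (m : Fin 4) : R :=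
  muM A (c3 m) * E (pr (c1 m) (c2 m)) + muM A (c2 m) * E (pr (c1 m) (c3 m))
    + muM A (c1 m) * E (pr (c2 m) (c3 m)) + ka m * nhM A m

def cayl (Y : Fin 4 → R) : R :=
  muM A 0 * (Y 1 * Y 2 * Y 3) + muM A 1 * (Y 0 * Y 2 * Y 3) + muM A 2 * (Y 0 * Y 1 * Y 3)
    + muM A 3 * (Y 0 * Y 1 * Y 2)

def nfm (ka Y : Fin 4 → R) : R :=
  ka 0 * nhM A 0 * Y 0 + ka 1 * nhM A 1 * Y 1 + ka 2 * nhM A 2 * Y 2 + ka 3 * nhM A 3 * Y 3

def az (z : Fin 4 → R) (p : Fin 6) : R := A (pa p) (pb p) * z (pa p) + A (pb p) (pa p) * z (pb p)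

end

/-- The binary form of degree `d` with coefficients `c`. -/
def form {R : Type} [CommRing R] {d : ℕ} (c : Fin (d + 1) → R) (U : Fin 2 → R) : R :=
  ∑ i, c i * (U 0 ^ (d - i) * U 1 ^ (i : ℕ))

/-- The values of the linear forms `a i j`. -/
def lin {R : Type} [CommRing R] (a : Fin 4 → Fin 4 → Fin 2 → R) (U : Fin 2 → R) :
    Fin 4 → Fin 4 → R := fun i j => form (a i j) U

/-- The linear forms `a i j` give a line on the four quadrics, their twelve roots `r i j` are finite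
and distinct, and one further polynomial in the roots does not vanish. -/
def GoodLine (a : Fin 4 → Fin 4 → Fin 2 → ℂ) : Prop :=
  (∀ i, a i i = 0) ∧ (∀ U m, quadQ (lin a U) m = 0) ∧ ∃ r : Fin 4 → Fin 4 → ℂ,
    (∀ i j, i ≠ j → a i j 1 ≠ 0 ∧ a i j 0 + r i j * a i j 1 = 0) ∧
    (∀ i j k l, i ≠ j → k ≠ l → r i j = r k l → i = k ∧ j = l) ∧
    (r 3 0 - r 2 0) * (r 2 1 * r 3 1 - r 2 1 * (r 1 2 + r 1 3) + r 1 2 * r 1 3)
      ≠ (r 3 1 - r 2 1) * (r 2 0 * r 3 0 - r 2 0 * (r 0 2 + r 0 3) + r 0 2 * r 0 3)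

/-- Twelve linear forms, six cubic forms and four constants. -/
structure Member (R : Type) where
  a : Fin 4 → Fin 4 → Fin 2 → R
  e : Fin 6 → Fin 4 → R
  ka : Fin 4 → R

/-- The values of the cubic forms. -/
def Member.E {R : Type} [CommRing R] (D : Member R) (U : Fin 2 → R) : Fin 6 → R :=
  fun p => form (D.e p) U

/-- The compatibility condition: `nuM m` divides `cmp m`. -/
def Member.Compat (D : Member ℂ) : Prop :=
  ∃ h : Fin 4 → Fin 7 → ℂ, ∀ U m, cmp (lin D.a U) (D.E U) D.ka m = nuM (lin D.a U) m * form (h m) U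

/-- The point `(U, Y)`. -/
abbrev Pt : Type := Fin 2 ⊕ Fin 4 → ℂ

abbrev Pt.U (p : Pt) : Fin 2 → ℂ := fun i => p (.inl i)
abbrev Pt.Y (p : Pt) : Fin 4 → ℂ := fun i => p (.inr i)

/-- The cone over the open part `nuA ≠ 0` of the surface in `ℙ¹ × ℙ³`. -/
def Member.surface (D : Member ℂ) : Set Pt :=
  {p | nuA (lin D.a p.U) ≠ 0 ∧ ∃ (t : ℂ) (z : Fin 4 → ℂ),
    (∀ q, p.Y (pa q) * p.Y (pb q) = az (lin D.a p.U) z q + t * D.E p.U q) ∧
      cayl (lin D.a p.U) p.Y + t * nfm (lin D.a p.U) D.ka p.Y = 0}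

/-- The point is not a base point of the family over the given line. -/
def Free (a : Fin 4 → Fin 4 → Fin 2 → ℂ) (p : Pt) : Prop :=
  ∀ (l : ℂ) (z : Fin 4 → ℂ), (∀ q, l * (p.Y (pa q) * p.Y (pb q)) = az (lin a p.U) z q) →
    l = 0 ∧ z = 0

/-- The linear conditions for a member to be compatible and to pass through the point are
independent. -/
def Onto (a : Fin 4 → Fin 4 → Fin 2 → ℂ) (p : Pt) : Prop :=
  ∀ (c : Fin 4 → Fin 10 → ℂ) (w : Fin 6 → ℂ) (b : ℂ), ∃ (D : Member ℂ) (h : Fin 4 → Fin 7 → ℂ)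
    (z : Fin 4 → ℂ), D.a = a ∧
    (∀ U m, cmp (lin a U) (D.E U) D.ka m = nuM (lin a U) m * form (h m) U + form (c m) U) ∧
    (∀ q, az (lin a p.U) z q + D.E p.U q = w q) ∧ nfm (lin a p.U) D.ka p.Y = b

/-- The bidegree of the variables. -/
def bideg : Fin 2 ⊕ Fin 4 → ℕ × ℕ := Sum.elim (fun _ => (1, 0)) fun _ => (0, 1)

/-- The Segre coordinates. -/
def segre (p : Pt) (j : Fin 2 × Fin 4) : ℂ := p.U j.1 * p.Y j.2

/-- The Zariski closure of the image of `S` under the map given by the forms `N`. -/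
def image {n : ℕ} (S : Set Pt) (N : Fin (n + 1) → MvPolynomial (Fin 2 ⊕ Fin 4) ℂ) :
    Set (ℙ ℂ (Fin (n + 1) → ℂ)) :=
  zariskiClosure {z | ∃ p ∈ S, ∃ h : (fun i => MvPolynomial.eval p (N i)) ≠ 0,
    z = Projectivization.mk ℂ _ h}

end Pool.Agent.P.MP_7ebcb6_ag.SC
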