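import Pool.Agent.P.MP_7ebcb6_ag.SC.St1
import Pool.Agent.P.MP_7ebcb6_ag.SC.Defs

/-! The polynomial systems of the certificate. -/

namespace Pool.Agent.P.MP_7ebcb6_ag.SC

/-- Two systems side by side. -/
def Sys.app {π σ τ τ' : Type} (S : Sys π σ τ) (T : Sys π σ τ') : Sys π σ (τ ⊕ τ') :=
  ⟨fun a x t => Sum.elim (S.ev a x) (T.ev a x) t, fun h a x t => by
    cases t
    exacts [S.nat h a x _, T.nat h a x _]⟩

/-- All equations hold. -/
def Sys.Z {π σ τ K : Type} [CommRing K] (S : Sys π σ τ) (a : π → K) (x : σ → K) : Prop :=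
  ∀ t, S.ev a x t = 0

/-- No polynomial vanishes. -/
def Sys.NZ {π σ τ K : Type} [CommRing K] (S : Sys π σ τ) (a : π → K) (x : σ → K) : Prop :=
  ∀ t, S.ev a x t ≠ 0

lemma Sys.Z_app {π σ τ τ' K : Type} [CommRing K] {S : Sys π σ τ} {T : Sys π σ τ'} {a : π → K}
    {x : σ → K} : (S.app T).Z a x ↔ S.Z a x ∧ T.Z a x := Sum.forall

lemma Sys.NZ_app {π σ τ τ' K : Type} [CommRing K] {S : Sys π σ τ} {T : Sys π σ τ'} {a : π → K}
    {x : σ → K} : (S.app T).NZ a x ↔ S.NZ a x ∧ T.NZ a x := Sum.forall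

/-- The combinatorial choices of the certificate. -/
structure CD where
  us : ℕ
  n1 : Fin 4 → ℕ
  n2 : Fin 4 → ℕ
  pt : ℕ → Fin 6 → ℕ
  m27 : ℕ → Fin 3 → Fin 6
  g68 : ℕ → ℕ
  ie : ℕ → ℕ
  al : ℕ → Fin 4 → Fin 6
  x0 : Fin 8 → ℕ
  fk : Fin 8 → ℕ → Fin 3
  fx : Fin 8 → ℕ → ℕ
  fj : Fin 8 → ℕ → Fin 4
  ci : Fin 8 → ℕ → ℕ
  cv : Fin 8 → ℕ → ℕ
  s0 : ℕ → ℕ
  ni : ℕ → ℕ
  nv : ℕ → ℕ

section defs

variable {R : Type} [Add R] [Sub R] [Mul R] [NatCast R]

/-- Entry `k` of a list (zero beyond its end). -/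
def pick : List R → ℕ → R
  | [], _ => ((0 : ℕ) : R)
  | a :: _, 0 => a
  | _ :: l, k + 1 => pick l k

/-- A vector of natural numbers. -/
def cst {n : ℕ} (v : Fin n → ℕ) : Fin n → R := fun i => (v i : R)

/-- A table and one more parameter. -/
def pu {R : Type} (a : ℕ → R) (u : R) : ℕ ⊕ Unit → R := Sum.elim a fun _ => u

/-- The table of coefficients inside a family of parameters. -/
abbrev PL {R β : Type} (a : ℕ ⊕ β → R) : Pen R := Pen.of fun i => a (.inl i)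

/-- Entries `1 … 4`. -/
def w4 (x : ℕ → R) : Fin 4 → R := v4 (x 1) (x 2) (x 3) (x 4)

/-- The point `n1 + t n2` of the fixed line. -/
def fpt (cd : CD) (t : R) : Fin 4 → R := cb ((1 : ℕ) : R) (cst cd.n1) t (cst cd.n2)

/-- The points in which a line with Plücker vector `p` meets the coordinate planes. -/
def pv (p : Fin 6 → R) (j : Fin 4) : Fin 4 → R :=
  v4 (v4 ((0 : ℕ) : R) (ng (p 0)) (ng (p 1)) (ng (p 2))) (v4 (p 0) ((0 : ℕ) : R) (ng (p 3)) (ng (p 4)))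
    (v4 (p 1) (p 3) ((0 : ℕ) : R) (ng (p 5))) (v4 (p 2) (p 4) (p 5) ((0 : ℕ) : R)) j

def dot6 (k e : Fin 6 → R) : R :=
  k 0 * e 0 + k 1 * e 1 + k 2 * e 2 + k 3 * e 3 + k 4 * e 4 + k 5 * e 5

/-- The transpose of `az`. -/
def atk (A : Fin 4 → Fin 4 → R) (k : Fin 6 → R) (i : Fin 4) : R :=
  A i (c1 i) * k (pr i (c1 i)) + A i (c2 i) * k (pr i (c2 i)) + A i (c3 i) * k (pr i (c3 i))

/-- The values of twelve linear forms. -/
def lnv (a : Fin 4 → Fin 4 → Fin 2 → R) (U : Fin 2 → R) : Fin 4 → Fin 4 → R :=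
  fun i j => a i j 0 * U 0 + a i j 1 * U 1

/-- The number of an ordered pair of different indices. -/
def opr (i j : Fin 4) : ℕ := 3 * i.val + cond (Nat.ble i.val j.val) (j.val - 1) j.val

/-! The table of stage 0 has 1049 entries: `0 … 780` the coefficients `Pen.of`, `781 … 804` the
linear forms, `805 … 856` cubics and sextics of the member `0`, `857 … 860` z, `861` u,
`862 … 864` y, `865 … 867` the second point, `868` its scalar, `869 … 872` the chord, `873 … 880`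
a Bezout identity, `881 … 892` the roots, `893 … 1048` the members `1, 2, 3`. -/

variable (X : ℕ → R)

def ta (i j : Fin 4) (c : Fin 2) : R :=
  cond (Nat.beq i.val j.val) ((0 : ℕ) : R) (X (781 + 2 * opr i j + c.val))

def tA (U : Fin 2 → R) : Fin 4 → Fin 4 → R := lnv (ta X) U

def tb (s : Fin 4) : ℕ := cond (Nat.beq s.val 0) 805 (841 + 52 * s.val)

def tE (s : Fin 4) (U : Fin 2 → R) : Fin 6 → R :=
  fun p => bf 3 (fun c => X (tb s + 4 * p.val + c)) U

def tH (s m : Fin 4) (U : Fin 2 → R) : R := bf 6 (fun c => X (tb s + 24 + 7 * m.val + c)) U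

def tz : Fin 4 → R := fun i => X (857 + i.val)
def tu : R := X 861
def ty : Fin 4 → R := v4 ((1 : ℕ) : R) (X 862) (X 863) (X 864)
def ty2 : Fin 4 → R := v4 (X 865) ((1 : ℕ) : R) (X 866) (X 867)
def tW : Fin 4 → R := fun i => X (869 + i.val)
def tr (i j : Fin 4) : R := X (881 + opr i j)

/-- The 89 coordinates among which the independent parameters are chosen. -/
def gc0 (i : ℕ) : R := cond (Nat.ble i 3) (X (165 + i)) (X (777 + i))

/-- A minor of the two kernel vectors. -/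
def kmin (P : Pen R) (p q : Fin 6) (U : Fin 2 → R) : R :=
  P.kk 0 U p * P.kk 1 U q - P.kk 0 U q * P.kk 1 U p

/-! Curves. -/

/-- The class of `z` in the quartic algebra. -/
def zg (c : Fin 4 → R) : Q4 c := ⟨((0 : ℕ) : R), ((1 : ℕ) : R), ((0 : ℕ) : R), ((0 : ℕ) : R)⟩

/-- The value of `cT` in the algebra of the fibre over `x`. -/
def fT (C : ℕ → R) (P : Pen R) (t : R) (k : Fin 3) (x : R) : Q4 (cq C x) :=
  cT (fun i => Q4.sc (cq C x) (C i)) (P.map (Q4.sc (cq C x))) (Q4.sc (cq C x) t) k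
    (Q4.sc (cq C x) x) (zg (cq C x))

/-- The value of the cubic of the pair `p` in the algebra of the fibre over `x`. -/
def fG (C : ℕ → R) (P : Pen R) (p : Fin 6) (x : R) : Q4 (cq C x) :=
  tri ((P.map (Q4.sc (cq C x))).gg p
      (cU (fun i => Q4.sc (cq C x) (C i)) (Q4.sc (cq C x) x) (zg (cq C x))))
    (cY (fun i => Q4.sc (cq C x) (C i)) (Q4.sc (cq C x) x) (zg (cq C x)))
    (cY (fun i => Q4.sc (cq C x) (C i)) (Q4.sc (cq C x) x) (zg (cq C x)))
    (cY (fun i => Q4.sc (cq C x) (C i)) (Q4.sc (cq C x) x) (zg (cq C x)))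

/-- The coefficients of the Plücker relation. -/
def fH (C : ℕ → R) (P : Pen R) (k : ℕ) (x : R) : Q4 (cq C x) :=
  cond (Nat.beq k 0) (fG C P 5 x) (cond (Nat.beq k 1) (fG C P 2 x) (ng (fG C P 1 x)))

/-- Truncated power series of length four are `Q4 j0`. -/
def j0 : Fin 4 → R := fun _ => ((0 : ℕ) : R)

def jx (C : ℕ → R) (b : ℕ) : Q4 (j0 : Fin 4 → R) :=
  ⟨bx C b, ((1 : ℕ) : R), ((0 : ℕ) : R), ((0 : ℕ) : R)⟩

def jz (C : ℕ → R) (J : Fin 10 × Fin 3 → R) (b : Fin 10) : Q4 (j0 : Fin 4 → R) :=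
  ⟨bz C b.val, J (b, 0), J (b, 1), J (b, 2)⟩

def fTc (C : ℕ → R) (P : Pen R) (t : R) (k : Fin 3) (x : R) (j : Fin 4) : R := (fT C P t k x).co j

/-- A component of `x ^ i * z ^ l * fH k` in the algebra of the fibre over `x`. -/
def fEc (C : ℕ → R) (P : Pen R) (k i l : ℕ) (x : R) (j : Fin 4) : R :=
  (pw (Q4.sc (cq C x) x) i * (pw (zg (cq C x)) l * fH C P k x)).co j

/-- A coefficient of the equation of the curve along the jet at the base point `b`. -/
def jcc (C : ℕ → R) (J : Fin 10 × Fin 3 → R) (b : Fin 10) (j : Fin 4) : R :=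
  (cf (fun i => Q4.sc j0 (C i)) (jx C b.val) (jz C J b)).co j

/-- A coefficient of `x ^ i * z ^ l` along the jet at the base point `b`. -/
def jmc (C : ℕ → R) (J : Fin 10 × Fin 3 → R) (b : Fin 10) (i l : ℕ) (j : Fin 4) : R :=
  (pw (jx C b.val) i * pw (jz C J b) l).co j

/-- Column `s < 198` is the monomial `x ^ ei s * z ^ ej s` of the form number `ek s`. -/
def ek (s : ℕ) : ℕ := s / 66
def ej (s : ℕ) : ℕ :=
  cond (Nat.ble (s % 66) 17) 0 (cond (Nat.ble (s % 66) 34) 1 (cond (Nat.ble (s % 66) 50) 2 3))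
def ei (s : ℕ) : ℕ :=
  s % 66 - cond (Nat.ble (s % 66) 17) 0
    (cond (Nat.ble (s % 66) 34) 18 (cond (Nat.ble (s % 66) 50) 35 51))

/-! Tritangent planes: `y 0, y 1, y 2` the plane, `y (3 + 2 i), y (4 + 2 i)` the lines. -/

def tre (y : ℕ → R) (i : Fin 3) : Fin 4 → R :=
  v4 (cond (Nat.beq i.val 0) ((1 : ℕ) : R) ((0 : ℕ) : R))
    (cond (Nat.beq i.val 1) ((1 : ℕ) : R) ((0 : ℕ) : R))
    (cond (Nat.beq i.val 2) ((1 : ℕ) : R) ((0 : ℕ) : R)) (y i.val)

def trl (y : ℕ → R) (i j : Fin 3) : R :=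
  cond (Nat.beq j.val 2) ((1 : ℕ) : R) (ng (y (3 + 2 * i.val + j.val)))

def trW (y : ℕ → R) (i : Fin 3) : Fin 4 → R :=
  v4 (y (3 + 2 * i.val)) (y 0 + y 2 * y (3 + 2 * i.val)) (y (4 + 2 * i.val))
    (y 1 + y 2 * y (4 + 2 * i.val))

def prm (l : Fin 3 → Fin 3 → R) (a b c : Fin 3) : R :=
  l 0 a * (l 1 b * l 2 c + l 1 c * l 2 b) + l 0 b * (l 1 a * l 2 c + l 1 c * l 2 a)
    + l 0 c * (l 1 a * l 2 b + l 1 b * l 2 a)

/-- The point where the lines `i` and `i + 1` meet. -/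
def trX (y : ℕ → R) (i : Fin 3) : Fin 4 → R :=
  cb (y (4 + 2 * (i + 1).val) - y (4 + 2 * i.val)) (lA (trW y i))
    (y (3 + 2 * i.val) - y (3 + 2 * (i + 1).val)) (lB (trW y i))

end defs

def tq1 : Fin 10 → Fin 3 := ![0, 0, 0, 0, 0, 0, 1, 1, 1, 2]
def tq2 : Fin 10 → Fin 3 := ![0, 0, 0, 1, 1, 2, 1, 1, 2, 2]
def tq3 : Fin 10 → Fin 3 := ![0, 1, 2, 1, 2, 2, 1, 2, 2, 2]

lemma app_w4 {R S : Type} (f : R → S) (x : ℕ → R) (i : Fin 4) :
    f (w4 x i) = w4 (fun i => f (x i)) i := app_v4 f ..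

lemma app_gc0 {R S : Type} (f : R → S) (X : ℕ → R) (i : ℕ) :
    f (gc0 X i) = gc0 (fun i => f (X i)) i := app_cond f ..

namespace Hom

variable {R S : Type} [Add R] [Sub R] [Mul R] [NatCast R] [Add S] [Sub S] [Mul S] [NatCast S]
  {f : R → S} (h : Hom f)

include h

lemma pick : ∀ (l : List R) (k : ℕ), f (pick l k) = SC.pick (l.map f) k
  | [], _ => h.nat 0
  | _ :: _, 0 => rfl
  | _ :: l, k + 1 => pick l k

lemma cst {n : ℕ} (v : Fin n → ℕ) (i : Fin n) : f (cst v i) = SC.cst v i := h.nat _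

lemma fpt (cd : CD) (t : R) (i : Fin 4) : f (fpt cd t i) = SC.fpt cd (f t) i := by
  simp only [SC.fpt, h.cb, h.nat, h.cst]

lemma pv (p : Fin 6 → R) (j i : Fin 4) : f (pv p j i) = SC.pv (fun i => f (p i)) j i := by
  fin_cases j <;> simp only [SC.pv, Fin.zero_eta, Fin.mk_one, Fin.reduceFinMk, v4_0, v4_1, v4_2,
    v4_3, app_v4 f, h.ng, h.nat]

lemma lpt (W : Fin 4 → R) (r : R) (i : Fin 4) :
    f (lpt W r i) = SC.lpt (fun i => f (W i)) (f r) i := by
  simp only [SC.lpt, h.cb, h.nat, h.lA, h.lB]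

lemma eta (g : Fin 20 → R) (x : Fin 4 → R) (i : Fin 4) :
    f (eta g x i) = SC.eta (fun i => f (g i)) (fun i => f (x i)) i := by
  simp only [SC.eta, h.cb, h.tri, h.ng, h.ee]

lemma resN (k : Fin 6 → R) (g : Fin 20 → R) (x W : Fin 4 → R) : f (resN k g x W)
    = SC.resN (fun i => f (k i)) (fun i => f (g i)) (fun i => f (x i)) fun i => f (W i) := by
  simp only [SC.resN, h.res22, h.qb, h.tri, h.mul, h.nat, h.lA, h.lB, h.eta]

lemma dsc (k : Fin 6 → R) (W : Fin 4 → R) :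
    f (dsc k W) = SC.dsc (fun i => f (k i)) fun i => f (W i) := by
  simp only [SC.dsc, h.sub, h.mul, h.qb, h.lA, h.lB]

lemma qB (k : Fin 6 → R) (W : Fin 4 → R) :
    f (qB k W) = SC.qB (fun i => f (k i)) fun i => f (W i) := by
  simp only [SC.qB, h.qb, h.lB]

lemma dot6 (k e : Fin 6 → R) : f (dot6 k e) = SC.dot6 (fun i => f (k i)) fun i => f (e i) := by
  simp only [SC.dot6, h.add, h.mul]

variable (A : Fin 4 → Fin 4 → R)

lemma atk (k : Fin 6 → R) (i : Fin 4) :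
    f (atk A k i) = SC.atk (fun i j => f (A i j)) (fun i => f (k i)) i := by
  simp only [SC.atk, h.add, h.mul]

lemma quadQ (m : Fin 4) : f (quadQ A m) = SC.quadQ (fun i j => f (A i j)) m := by
  simp only [SC.quadQ, h.add, h.mul]

lemma nuM (m : Fin 4) : f (nuM A m) = SC.nuM (fun i j => f (A i j)) m := by
  simp only [SC.nuM, h.add, h.mul]

lemma muM (m : Fin 4) : f (muM A m) = SC.muM (fun i j => f (A i j)) m := by
  simp only [SC.muM, h.nuM, h.mul]

lemma nhM (m : Fin 4) : f (nhM A m) = SC.nhM (fun i j => f (A i j)) m := by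
  simp only [SC.nhM, h.nuM, h.mul]

lemma nuA : f (nuA A) = SC.nuA fun i j => f (A i j) := by
  simp only [SC.nuA, h.nuM, h.mul]

lemma cmp (E : Fin 6 → R) (ka : Fin 4 → R) (m : Fin 4) : f (cmp A E ka m)
    = SC.cmp (fun i j => f (A i j)) (fun i => f (E i)) (fun i => f (ka i)) m := by
  simp only [SC.cmp, h.add, h.mul, h.muM, h.nhM]

lemma cayl (Y : Fin 4 → R) : f (cayl A Y) = SC.cayl (fun i j => f (A i j)) fun i => f (Y i) := by
  simp only [SC.cayl, h.add, h.mul, h.muM]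

lemma nfm (ka Y : Fin 4 → R) :
    f (nfm A ka Y) = SC.nfm (fun i j => f (A i j)) (fun i => f (ka i)) fun i => f (Y i) := by
  simp only [SC.nfm, h.add, h.mul, h.nhM]

lemma az (z : Fin 4 → R) (p : Fin 6) :
    f (az A z p) = SC.az (fun i j => f (A i j)) (fun i => f (z i)) p := by
  simp only [SC.az, h.add, h.mul]

lemma lnv (a : Fin 4 → Fin 4 → Fin 2 → R) (U : Fin 2 → R) (i j : Fin 4) :
    f (lnv a U i j) = SC.lnv (fun i j c => f (a i j c)) (fun i => f (U i)) i j := by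
  simp only [SC.lnv, h.add, h.mul]

variable (X : ℕ → R)

lemma ta (i j : Fin 4) (c : Fin 2) : f (ta X i j c) = SC.ta (fun i => f (X i)) i j c := by
  simp only [SC.ta, app_cond f, h.nat]

lemma tA (U : Fin 2 → R) (i j : Fin 4) :
    f (tA X U i j) = SC.tA (fun i => f (X i)) (fun i => f (U i)) i j := by
  simp only [SC.tA, h.lnv, h.ta]

lemma tE (s : Fin 4) (U : Fin 2 → R) (p : Fin 6) :
    f (tE X s U p) = SC.tE (fun i => f (X i)) s (fun i => f (U i)) p := h.bf ..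

lemma tH (s m : Fin 4) (U : Fin 2 → R) :
    f (tH X s m U) = SC.tH (fun i => f (X i)) s m fun i => f (U i) := h.bf ..

lemma ty (i : Fin 4) : f (ty X i) = SC.ty (fun i => f (X i)) i := by
  simp only [SC.ty, app_v4 f, h.nat]

lemma ty2 (i : Fin 4) : f (ty2 X i) = SC.ty2 (fun i => f (X i)) i := by
  simp only [SC.ty2, app_v4 f, h.nat]

lemma kmin (P : Pen R) (p q : Fin 6) (U : Fin 2 → R) :
    f (kmin P p q U) = SC.kmin (P.map f) p q fun i => f (U i) := by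
  simp only [SC.kmin, h.sub, h.mul, h.kk]

lemma tre (i : Fin 3) (j : Fin 4) : f (tre X i j) = SC.tre (fun i => f (X i)) i j := by
  simp only [SC.tre, app_v4 f, app_cond f, h.nat]

lemma trl (i j : Fin 3) : f (trl X i j) = SC.trl (fun i => f (X i)) i j := by
  simp only [SC.trl, app_cond f, h.nat, h.ng]

lemma trW (i : Fin 3) (j : Fin 4) : f (trW X i j) = SC.trW (fun i => f (X i)) i j := by
  simp only [SC.trW, app_v4 f, h.add, h.mul]

lemma prm (l : Fin 3 → Fin 3 → R) (a b c : Fin 3) :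
    f (prm l a b c) = SC.prm (fun i j => f (l i j)) a b c := by
  simp only [SC.prm, h.add, h.mul]

lemma trX (i : Fin 3) (j : Fin 4) : f (trX X i j) = SC.trX (fun i => f (X i)) i j := by
  simp only [SC.trX, h.cb, h.sub, h.lA, h.lB, h.trW]

/-- The map of quartic algebras, with the new relation written as `c'`. -/
lemma q4' {c : Fin 4 → R} {c' : Fin 4 → S} (hc : ∀ i, f (c i) = c' i) :
    ∃ F : Q4 c → Q4 c', Hom F ∧ (∀ x i, f (x.co i) = (F x).co i) ∧
      (∀ a, F (Q4.sc c a) = Q4.sc c' (f a)) ∧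
      ∀ a0 a1 a2 a3, F ⟨a0, a1, a2, a3⟩ = ⟨f a0, f a1, f a2, f a3⟩ := by
  obtain rfl : (fun i => f (c i)) = c' := funext hc
  refine ⟨Q4.map f, h.q4 c, fun x i => ?_, fun a => ?_, fun _ _ _ _ => rfl⟩
  · fin_cases i <;> rfl
  · simp only [Q4.map, Q4.sc, h.nat]

lemma fTc (C : ℕ → R) (P : Pen R) (t : R) (k : Fin 3) (x : R) (j : Fin 4) :
    f (fTc C P t k x j) = SC.fTc (fun i => f (C i)) (P.map f) (f t) k (f x) j := by
  obtain ⟨F, hF, h1, h2, h3⟩ := h.q4' (h.cq C x)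
  simp only [SC.fTc, fT, h1, hF.cT, h2, zg, h3, h.nat, Pen.map_map]

lemma fEc (C : ℕ → R) (P : Pen R) (k i l : ℕ) (x : R) (j : Fin 4) :
    f (fEc C P k i l x j) = SC.fEc (fun i => f (C i)) (P.map f) k i l (f x) j := by
  obtain ⟨F, hF, h1, h2, h3⟩ := h.q4' (h.cq C x)
  simp only [SC.fEc, fH, fG, h1, hF.mul, hF.pw, app_cond F, hF.ng, hF.tri, hF.gg, hF.cU, hF.cY, h2,
    zg, h3, h.nat, Pen.map_map]

lemma jcc (C : ℕ → R) (J : Fin 10 × Fin 3 → R) (b : Fin 10) (j : Fin 4) :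
    f (jcc C J b j) = SC.jcc (fun i => f (C i)) (fun i => f (J i)) b j := by
  obtain ⟨F, hF, h1, h2, h3⟩ := h.q4' (c := j0) (c' := j0) fun _ => h.nat 0
  simp only [SC.jcc, h1, hF.cf, h2, jx, jz, h3, h.nat, h.bx, h.bz]

lemma jmc (C : ℕ → R) (J : Fin 10 × Fin 3 → R) (b : Fin 10) (i l : ℕ) (j : Fin 4) :
    f (jmc C J b i l j) = SC.jmc (fun i => f (C i)) (fun i => f (J i)) b i l j := by
  obtain ⟨F, hF, h1, h2, h3⟩ := h.q4' (c := j0) (c' := j0) fun _ => h.nat 0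
  simp only [SC.jmc, h1, hF.mul, hF.pw, jx, jz, h3, h.nat, h.bx, h.bz]

end Hom

end Pool.Agent.P.MP_7ebcb6_ag.SC
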