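import Pool.Agent.P.MP_7ebcb6_ag.SC.Blk

/-! The blocks of the certificate as systems. -/

namespace Pool.Agent.P.MP_7ebcb6_ag.SC

/-! ## Lines -/

/-- Lines on the cubic surface over the parameter `u`. -/
def LS : Sys (ℕ ⊕ Unit) (Fin 4) (Fin 4) where
  ev {R} _ _ _ _ a x t := lnE ((PL a).G (af (a (.inr ())))) x t
  nat {R S} _ _ _ _ _ _ _ _ f h a x t := by
    simp only [h.af, h.lnE, h.G, Pen.map_of]

def OCH : Sys (ℕ ⊕ Unit) (Fin 4) (Fin 2) where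
  ev {R} _ _ _ _ a x t := pick [lnJ ((PL a).G (af (a (.inr ())))) x, qB ((PL a).ks (af (a (.inr
    ())))) x] t.val
  nat {R S} _ _ _ _ _ _ _ _ f h a x t := by
    simp only [h.pick, h.qB, h.af, h.lnJ, h.ks, h.G, List.map, Pen.map_of]

def O27 (cd : CD) : Sys (ℕ ⊕ Unit) (Fin 4) (Fin 6) where
  ev {R} _ _ _ _ a x t := pick [lnJ ((PL a).G (af (a (.inr ())))) x, qB ((PL a).ks (af (a (.inr
    ())))) x, dsc ((PL a).ks (af (a (.inr ())))) x, pp (lP x) (plk (cst cd.n1) (cst cd.n2)), (PL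
    a).B (af (a (.inr ()))), (PL a).ff 0 0 (af (a (.inr ())))] t.val
  nat {R S} _ _ _ _ _ _ _ _ f h a x t := by
    simp only [h.pick, h.cst, h.dsc, h.qB, h.af, h.plk, h.pp, h.lP, h.lnJ, h.ff, h.ks, h.G, h.B,
      List.map, Pen.map_of]

/-- Quartic forms in the Plücker coordinates (rows) at the points `cd.pt` (columns). -/
def L27 (cd : CD) : Sys (ℕ ⊕ Unit) Empty (((Fin 6 × Fin 6) ⊕ (Fin 6 × Fin 4 × Fin 4 × Fin 4) ⊕ Fin 27) × ℕ) where
  ev {R} _ _ _ _ a _ t := Sum.elim (fun i => cst (cd.pt t.2) i.1 * cst (cd.pt t.2) i.2 * (cst (cd.pt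
    t.2) 0 * cst (cd.pt t.2) 5 - cst (cd.pt t.2) 1 * cst (cd.pt t.2) 4 + cst (cd.pt t.2) 2 * cst
    (cd.pt t.2) 3)) (Sum.elim (fun i => cst (cd.pt t.2) i.1 * tri ((PL a).G (af (a (.inr ())))) (pv
    (cst (cd.pt t.2)) i.2.1) (pv (cst (cd.pt t.2)) i.2.2.1) (pv (cst (cd.pt t.2)) i.2.2.2)) fun m =>
    cst (cd.pt t.2) 0 * (cst (cd.pt t.2) (cd.m27 m.val 0) * cst (cd.pt t.2) (cd.m27 m.val 1) * cst
    (cd.pt t.2) (cd.m27 m.val 2))) t.1
  nat {R S} _ _ _ _ _ _ _ _ f h a x t := by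
    rcases t with ⟨i | i | i, s⟩ <;>
      simp only [Sum.elim_inl, Sum.elim_inr, h.add, h.sub, h.mul, h.cst, h.tri, h.G, h.af, h.pv,
        Pen.map_of]

/-- The points of the fixed line on the cubic surface. -/
def B3E (cd : CD) : Sys (ℕ ⊕ Unit) (Fin 1) (Fin 1) where
  ev {R} _ _ _ _ a x _ := tri ((PL a).G (af (a (.inr ())))) (fpt cd (x 0)) (fpt cd (x 0)) (fpt cd (x
    0))
  nat {R S} _ _ _ _ _ _ _ _ f h a x t := by
    simp only [h.fpt, h.af, h.tri, h.G, Pen.map_of]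

def B3O (cd : CD) : Sys (ℕ ⊕ Unit) (Fin 1) (Fin 4) where
  ev {R} _ _ _ _ a x t := pick [fpt cd (x 0) 0, tri ((PL a).G (af (a (.inr ())))) (fpt cd (x 0))
    (fpt cd (x 0)) (ee 3), Rs ((PL a).G (af (a (.inr ())))) (fpt cd (x 0)) (th1 ((PL a).G (af (a
    (.inr ())))) (fpt cd (x 0))) (th2 ((PL a).G (af (a (.inr ())))) (fpt cd (x 0))), tri ((PL a).G
    (af (a (.inr ())))) (cst cd.n2) (cst cd.n2) (cst cd.n2)] t.val
  nat {R S} _ _ _ _ _ _ _ _ f h a x t := by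
    simp only [h.pick, h.cst, h.fpt, h.af, h.ee, h.tri, h.Rs, h.th1, h.th2, h.G, List.map,
      Pen.map_of]

/-- Lines `(u, W) = (x 0, x 1 … x 4)` that meet the fixed line in `fpt cd (x 5)`. -/
def B78E (cd : CD) : Sys ℕ (Fin 6) (Fin 6) where
  ev {R} _ _ _ _ a x t := pick [lnE ((Pen.of a).G (af (x 0))) (w4 (sq x)) 0, lnE ((Pen.of a).G (af
    (x 0))) (w4 (sq x)) 1, lnE ((Pen.of a).G (af (x 0))) (w4 (sq x)) 2, lnE ((Pen.of a).G (af (x
    0))) (w4 (sq x)) 3, pp (lP (w4 (sq x))) (plk (cst cd.n1) (cst cd.n2)), fpt cd (x 5) 2 - (fpt cd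
    (x 5) 0 * x 1 + fpt cd (x 5) 1 * x 3)] t.val
  nat {R S} _ _ _ _ _ _ _ _ f h a x t := by
    simp only [h.pick, h.cst, h.fpt, h.sq, h.af, h.plk, h.pp, h.lP, h.lnE, h.G, h.add, h.sub, h.mul,
      List.map, app_w4 f, Pen.map_of]

def B78O (cd : CD) : Sys ℕ (Fin 6) (Fin 5) where
  ev {R} _ _ _ _ a x t := pick [lnJ ((Pen.of a).G (af (x 0))) (w4 (sq x)), cst cd.n2 2 - (cst cd.n2
    0 * x 1 + cst cd.n2 1 * x 3), tri ((Pen.of a).G (af (x 0))) (cst cd.n2) (cst cd.n2) (cst cd.n2),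
    tri ((Pen.of a).G (af (x 0))) (fpt cd (x 5)) (fpt cd (x 5)) (cst cd.n2), (Pen.of a).B (af (x
    0))] t.val
  nat {R S} _ _ _ _ _ _ _ _ f h a x t := by
    simp only [h.pick, h.cst, h.fpt, h.sq, h.af, h.tri, h.lnJ, h.G, h.B, h.add, h.sub, h.mul,
      List.map, app_w4 f, Pen.map_of]

/-- The reducible cubic surfaces. -/
def B10E : Sys ℕ (Fin 1) (Fin 1) where
  ev {R} _ _ _ _ a x _ := (Pen.of a).B (af (x 0))
  nat {R S} _ _ _ _ _ _ _ _ f h a x t := by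
    simp only [h.af, h.B, Pen.map_of]

def B10O (cd : CD) : Sys ℕ (Fin 1) (Fin 4) where
  ev {R} _ _ _ _ a x t := pick [(Pen.of a).ff 0 0 (af (x 0)), (Pen.of a).nuv (af (x 0)), tri
    ((Pen.of a).G (af (x 0))) (cst cd.n2) (cst cd.n2) (cst cd.n2), qb ((Pen.of a).ks (af (x 0))) (cb
    (dot ((Pen.of a).Pl (af (x 0))) (cst cd.n2)) (cst cd.n1) (ng (dot ((Pen.of a).Pl (af (x 0)))
    (cst cd.n1))) (cst cd.n2)) (cb (dot ((Pen.of a).Pl (af (x 0))) (cst cd.n2)) (cst cd.n1) (ng (dot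
    ((Pen.of a).Pl (af (x 0))) (cst cd.n1))) (cst cd.n2))] t.val
  nat {R S} _ _ _ _ _ _ _ _ f h a x t := by
    simp only [h.pick, h.cst, h.af, h.ng, h.dot, h.cb, h.qb, h.tri, h.nuv, h.ff, h.ks, h.G, h.Pl,
      List.map, Pen.map_of]

/-- The fixed lines. -/
def B68E (cd : CD) : Sys ℕ (Fin 5) (Fin 5) where
  ev {R} _ _ _ _ a x t := pick [lnE ((Pen.of a).G (af (x 0))) (w4 (sq x)) 0, lnE ((Pen.of a).G (af
    (x 0))) (w4 (sq x)) 1, lnE ((Pen.of a).G (af (x 0))) (w4 (sq x)) 2, lnE ((Pen.of a).G (af (x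
    0))) (w4 (sq x)) 3, pl 69 (fun i => (cd.g68 i : R)) (x 0)] t.val
  nat {R S} _ _ _ _ _ _ _ _ f h a x t := by
    simp only [h.pick, h.sq, h.pl, h.af, h.lnE, h.G, h.nat, List.map, app_w4 f, Pen.map_of]

def B68O : Sys ℕ (Fin 5) (Fin 2) where
  ev {R} _ _ _ _ a x t := pick [lnJ ((Pen.of a).G (af (x 0))) (w4 (sq x)), qB ((Pen.of a).ks (af (x
    0))) (w4 (sq x))] t.val
  nat {R S} _ _ _ _ _ _ _ _ f h a x t := by
    simp only [h.pick, h.qB, h.sq, h.af, h.lnJ, h.ks, h.G, List.map, app_w4 f, Pen.map_of]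

/-- The roots of `nu`. -/
def B12E : Sys ℕ (Fin 1) (Fin 1) where
  ev {R} _ _ _ _ a x _ := (Pen.of a).nuv (af (x 0))
  nat {R S} _ _ _ _ _ _ _ _ f h a x t := by
    simp only [h.af, h.nuv, Pen.map_of]

def B12O : Sys ℕ (Fin 1) ((Fin 4 × Fin 4) ⊕ Unit) where
  ev {R} _ _ _ _ a x t := Sum.elim (fun i => cond (Nat.beq i.1.val i.2.val) ((1 : ℕ) : R) (tA a (af
    (x 0)) i.1 i.2)) (fun _ => nhM (tA a (af (x 0))) 0 + nhM (tA a (af (x 0))) 1 + nhM (tA a (af (x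
    0))) 2 + nhM (tA a (af (x 0))) 3) t
  nat {R S} _ _ _ _ _ _ _ _ f h a x t := by
    rcases t with i | i <;>
      simp only [Sum.elim_inl, Sum.elim_inr, h.add, h.tA, h.af, h.nhM, h.nat, app_cond f]

/-! ## Stage 0 -/

def Smu : Sys (Fin 30) (Fin 1049) (Fin 4 × Fin 7) where
  ev {R} _ _ _ _ _ x t := bf 6 ((Pen.of (sq x)).mu t.1) (af ((t.2.val : ℕ) : R)) - muM (tA (sq x)
    (af ((t.2.val : ℕ) : R))) t.1
  nat {R S} _ _ _ _ _ _ _ _ f h a x t := by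
    simp only [h.muM, h.tA, h.sq, h.bf, h.af, h.sub, h.nat, Pen.of]

def Snh : Sys (Fin 30) (Fin 1049) (Fin 4 × Fin 10) where
  ev {R} _ _ _ _ _ x t := bf 9 ((Pen.of (sq x)).nh t.1) (af ((t.2.val : ℕ) : R)) - nhM (tA (sq x)
    (af ((t.2.val : ℕ) : R))) t.1
  nat {R S} _ _ _ _ _ _ _ _ f h a x t := by
    simp only [h.nhM, h.tA, h.sq, h.bf, h.af, h.sub, h.nat, Pen.of]

def Snu : Sys (Fin 30) (Fin 1049) (Fin 13) where
  ev {R} _ _ _ _ _ x t := (Pen.of (sq x)).nuv (af ((t.val : ℕ) : R)) - nuA (tA (sq x) (af ((t.val :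
    ℕ) : R)))
  nat {R S} _ _ _ _ _ _ _ _ f h a x t := by
    simp only [h.nuA, h.tA, h.sq, h.af, h.nuv, h.sub, h.nat, Pen.map_of]

def Sff : Sys (Fin 30) (Fin 1049) (Fin 4 × Fin 2 × Fin 6) where
  ev {R} _ _ _ _ _ x t := (Pen.of (sq x)).ff t.1 t.2.1 (af ((t.2.2.val : ℕ) : R)) - dot6 ((Pen.of
    (sq x)).kk t.2.1 (af ((t.2.2.val : ℕ) : R))) (tE (sq x) t.1 (af ((t.2.2.val : ℕ) : R)))
  nat {R S} _ _ _ _ _ _ _ _ f h a x t := by
    simp only [h.dot6, h.tE, h.sq, h.af, h.kk, h.ff, h.sub, h.nat, Pen.map_of]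

def Sgg : Sys (Fin 30) (Fin 1049) (Fin 6 × Fin 20 × Fin 5) where
  ev {R} _ _ _ _ _ x t := (Pen.of (sq x)).nuv (af ((t.2.2.val : ℕ) : R)) * (Pen.of (sq x)).gg t.1
    (af ((t.2.2.val : ℕ) : R)) t.2.1 - (Pen.of (sq x)).dt (p1 t.1) (p2 t.1) (af ((t.2.2.val : ℕ) :
    R)) t.2.1
  nat {R S} _ _ _ _ _ _ _ _ f h a x t := by
    simp only [h.sq, h.af, h.nuv, h.gg, h.dt, h.sub, h.mul, h.nat, Pen.map_of]

def Skk : Sys (Fin 30) (Fin 1049) (Fin 2 × Fin 4 × Fin 4) where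
  ev {R} _ _ _ _ _ x t := atk (tA (sq x) (af ((t.2.2.val : ℕ) : R))) ((Pen.of (sq x)).kk t.1 (af
    ((t.2.2.val : ℕ) : R))) t.2.1
  nat {R S} _ _ _ _ _ _ _ _ f h a x t := by
    simp only [h.atk, h.tA, h.sq, h.af, h.kk, h.nat, Pen.map_of]

def Sqq : Sys (Fin 30) (Fin 1049) (Fin 4 × Fin 3) where
  ev {R} _ _ _ _ _ x t := quadQ (tA (sq x) (af ((t.2.val : ℕ) : R))) t.1
  nat {R S} _ _ _ _ _ _ _ _ f h a x t := by
    simp only [h.quadQ, h.tA, h.sq, h.af, h.nat]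

def Scp : Sys (Fin 30) (Fin 1049) (Fin 4 × Fin 4 × Fin 10) where
  ev {R} _ _ _ _ _ x t := cmp (tA (sq x) (af ((t.2.2.val : ℕ) : R))) (tE (sq x) t.1 (af ((t.2.2.val
    : ℕ) : R))) ((Pen.of (sq x)).ka t.1) t.2.1 - nuM (tA (sq x) (af ((t.2.2.val : ℕ) : R))) t.2.1 *
    tH (sq x) t.1 t.2.1 (af ((t.2.2.val : ℕ) : R))
  nat {R S} _ _ _ _ _ _ _ _ f h a x t := by
    simp only [h.nuM, h.cmp, h.tA, h.tE, h.tH, h.sq, h.af, h.sub, h.mul, h.nat, Pen.of]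

def Sp6 : Sys (Fin 30) (Fin 1049) (Fin 6) where
  ev {R} _ _ _ _ _ x t := az (tA (sq x) (af (tu (sq x)))) (tz (sq x)) t + tE (sq x) 0 (af (tu (sq
    x))) t - ty (sq x) (pa t) * ty (sq x) (pb t)
  nat {R S} _ _ _ _ _ _ _ _ f h a x t := by
    simp only [h.add, h.sub, h.mul, h.az, h.tA, h.tE, h.ty, h.af, h.sq, tu, tz]
    rfl

def Sp1 : Sys (Fin 30) (Fin 1049) Unit where
  ev {R} _ _ _ _ _ x _ := nfm (tA (sq x) (af (tu (sq x)))) ((Pen.of (sq x)).ka 0) (ty (sq x)) + cayl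
    (tA (sq x) (af (tu (sq x)))) (ty (sq x))
  nat {R S} _ _ _ _ _ _ _ _ f h a x t := by
    simp only [h.cayl, h.nfm, h.tA, h.ty, h.sq, h.af, h.add, tu, Pen.of]

def Sbz : Sys (Fin 30) (Fin 1049) (Fin 8) where
  ev {R} _ _ _ _ _ x t := pl 4 (fun i => sq x (873 + i)) (t.val : R) * kmin (Pen.of (sq x)) 0 1 (af
    ((t.val : ℕ) : R)) + pl 4 (fun i => sq x (877 + i)) (t.val : R) * kmin (Pen.of (sq x)) 4 5 (af
    ((t.val : ℕ) : R)) - ((1 : ℕ) : R)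
  nat {R S} _ _ _ _ _ _ _ _ f h a x t := by
    simp only [h.kmin, h.sq, h.pl, h.af, h.add, h.sub, h.mul, h.nat, Pen.map_of]

def Sy2 : Sys (Fin 30) (Fin 1049) (Fin 3) where
  ev {R} _ _ _ _ _ x t := pick [qb ((Pen.of (sq x)).kk 0 (af (tu (sq x)))) (ty2 (sq x)) (ty2 (sq x))
    - ((2 : ℕ) : R) * sq x 868 * (Pen.of (sq x)).ff 0 0 (af (tu (sq x))), qb ((Pen.of (sq x)).kk 1
    (af (tu (sq x)))) (ty2 (sq x)) (ty2 (sq x)) - ((2 : ℕ) : R) * sq x 868 * (Pen.of (sq x)).ff 0 1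
    (af (tu (sq x))), tri ((Pen.of (sq x)).gc (af (tu (sq x)))) (ty2 (sq x)) (ty2 (sq x)) (ty2 (sq
    x)) + ((6 : ℕ) : R) * sq x 868 * dot ((Pen.of (sq x)).nn 0 (af (tu (sq x)))) (ty2 (sq x))] t.val
  nat {R S} _ _ _ _ _ _ _ _ f h a x t := by
    simp only [h.pick, h.ty2, h.sq, h.af, h.dot, h.qb, h.tri, h.kk, h.gc, h.ff, h.nn, h.add, h.sub,
      h.mul, h.nat, List.map, Pen.map_of, tu]

def Sch : Sys (Fin 30) (Fin 1049) (Fin 6) where
  ev {R} _ _ _ _ _ x t := pick [sq x 863 - (sq x 869 + sq x 862 * sq x 871), sq x 864 - (sq x 870 +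
    sq x 862 * sq x 872), sq x 866 - (sq x 865 * sq x 869 + sq x 871), sq x 867 - (sq x 865 * sq x
    870 + sq x 872), lnE ((Pen.of (sq x)).G (af (tu (sq x)))) (tW (sq x)) 0, lnE ((Pen.of (sq x)).G
    (af (tu (sq x)))) (tW (sq x)) 3] t.val
  nat {R S} _ _ _ _ _ _ _ _ f h a x t := by
    simp only [h.pick, List.map, h.add, h.sub, h.mul, h.lnE, h.G, h.af, h.sq, tu, tW, Pen.map_of]
    rfl

def Srt : Sys (Fin 30) (Fin 1049) (Fin 12) where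
  ev {R} _ _ _ _ _ x t := sq x (781 + 2 * t.val) + sq x (881 + t.val) * sq x (782 + 2 * t.val)
  nat {R S} _ _ _ _ _ _ _ _ f h a x t := by
    simp only [h.sq, h.add, h.mul]

def Spar (cd : CD) : Sys (Fin 30) (Fin 1049) (Fin 30) where
  ev {R} _ _ _ _ a x t := gc0 (sq x) (cd.s0 t.val % 89) - a t
  nat {R S} _ _ _ _ _ _ _ _ f h a x t := by
    simp only [h.sq, h.sub, app_gc0 f]

def Snrm (cd : CD) : Sys (Fin 30) (Fin 1049) (Fin 50) where
  ev {R} _ _ _ _ _ x t := sq x (cd.ni t.val) - (cd.nv t.val : R)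
  nat {R S} _ _ _ _ _ _ _ _ f h a x t := by
    simp only [h.sq, h.sub, h.nat]

/-- The equations of stage 0. -/
def S0 (cd : CD) := Smu.app (Snh.app (Snu.app (Sff.app (Sgg.app (Skk.app (Sqq.app (Scp.app
  (Sp6.app (Sp1.app (Sbz.app (Sy2.app (Sch.app (Srt.app ((Spar cd).app (Snrm cd)))))))))))))))

def O0a : Sys (Fin 30) (Fin 1049) (Fin 12 × Fin 12) where
  ev {R} _ _ _ _ _ x t := cond (Nat.beq t.1.val t.2.val) (sq x (782 + 2 * t.1.val)) (sq x (881 +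
    t.1.val) - sq x (881 + t.2.val))
  nat {R S} _ _ _ _ _ _ _ _ f h a x t := by
    simp only [h.sq, h.sub, app_cond f]

def O0b : Sys (Fin 30) (Fin 1049) (Fin 9) where
  ev {R} _ _ _ _ _ x t := pick [(tr (sq x) 3 0 - tr (sq x) 2 0) * (tr (sq x) 2 1 * tr (sq x) 3 1 -
    tr (sq x) 2 1 * (tr (sq x) 1 2 + tr (sq x) 1 3) + tr (sq x) 1 2 * tr (sq x) 1 3) - (tr (sq x) 3
    1 - tr (sq x) 2 1) * (tr (sq x) 2 0 * tr (sq x) 3 0 - tr (sq x) 2 0 * (tr (sq x) 0 2 + tr (sq x)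
    0 3) + tr (sq x) 0 2 * tr (sq x) 0 3), (Pen.of (sq x)).nuv (af (tu (sq x))), sq x 862, sq x 865,
    sq x 862 * sq x 865 - ((1 : ℕ) : R), qb ((Pen.of (sq x)).kk 0 (af (tu (sq x)))) (ty (sq x)) (ty
    (sq x)), tA (sq x) (af (tu (sq x))) 3 0, lnJ ((Pen.of (sq x)).G (af (tu (sq x)))) (tW (sq x)),
    qB ((Pen.of (sq x)).ks (af (tu (sq x)))) (tW (sq x))] t.val
  nat {R S} _ _ _ _ _ _ _ _ f h a x t := by
    simp only [h.pick, List.map, h.add, h.sub, h.mul, h.nat, h.lnJ, h.qB, h.G, h.ks, h.kk, h.qb,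
      h.nuv, h.ty, h.tA, h.af, h.sq, tu, tW, tr, Pen.map_of]
    rfl

def O0c : Sys (Fin 30) (Fin 1049) (Fin 5) where
  ev {R} _ _ _ _ _ x t := (Pen.of (sq x)).nuv (af ((t.val : ℕ) : R))
  nat {R S} _ _ _ _ _ _ _ _ f h a x t := by
    simp only [h.sq, h.af, h.nuv, h.nat, Pen.map_of]

def O0 := O0a.app (O0b.app O0c)

/-- Parameters `(a, u, y)`, unknowns `(e, h, ka, z)` and equations of the linear system. -/
abbrev πL : Type := (Fin 4 × Fin 4 × Fin 2) ⊕ Unit ⊕ Fin 4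
abbrev σL : Type := (Fin 6 × Fin 4) ⊕ (Fin 4 × Fin 7) ⊕ Fin 4 ⊕ Fin 4
abbrev τL : Type := (Fin 4 × Fin 10) ⊕ Fin 6 ⊕ Unit

/-- The linear conditions on a member through a point. -/
def LM : Sys πL σL τL where
  ev {R} _ _ _ _ a x t := Sum.elim (fun i => cmp (lnv (fun i j c => a (.inl (i, j, c))) (af
    ((i.2.val : ℕ) : R))) (fun p => bf 3 (sq fun c => x (.inl (p, c))) (af ((i.2.val : ℕ) : R)))
    (fun m => x (.inr (.inr (.inl m)))) i.1 - nuM (lnv (fun i j c => a (.inl (i, j, c))) (af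
    ((i.2.val : ℕ) : R))) i.1 * bf 6 (sq fun c => x (.inr (.inl (i.1, c)))) (af ((i.2.val : ℕ) :
    R))) (Sum.elim (fun p => az (lnv (fun i j c => a (.inl (i, j, c))) (af (a (.inr (.inl ())))))
    (fun i => x (.inr (.inr (.inr i)))) p + bf 3 (sq fun c => x (.inl (p, c))) (af (a (.inr (.inl
    ()))))) fun _ => nfm (lnv (fun i j c => a (.inl (i, j, c))) (af (a (.inr (.inl ()))))) (fun m =>
    x (.inr (.inr (.inl m)))) fun i => a (.inr (.inr i))) t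
  nat {R S} _ _ _ _ _ _ _ _ f h a x t := by
    rcases t with i | i | i <;>
      simp only [Sum.elim_inl, Sum.elim_inr, h.add, h.sub, h.mul, h.nat, h.cmp, h.lnv, h.af, h.bf,
        h.sq, h.nuM, h.az, h.nfm]

/-! ## Curves -/

/-- The curve number `n` on the member `1 + τ 0`; the last parameter is `τ`. -/
def CS (cd : CD) (n : Fin 8) : Sys (ℕ ⊕ Unit) (Fin 70) (Fin 30 ⊕ Fin 10 ⊕ (Fin 6 × Fin 4) ⊕ Fin 6) where
  ev {R} _ _ _ _ a x t := Sum.elim (fun r => fTc (sq x) (PL a) (a (.inr ())) (cd.fk n r.val) (cd.fx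
    n r.val : R) (cd.fj n r.val)) (Sum.elim (fun b => cf (sq x) (bx (sq x) b.val) (bz (sq x) b.val))
    (Sum.elim (fun b => cY (sq x) (bx (sq x) (4 + b.1.val)) (bz (sq x) (4 + b.1.val)) b.2) fun j =>
    sq x (cd.ci n j.val) - (cd.cv n j.val : R))) t
  nat {R S} _ _ _ _ _ _ _ _ f h a x t := by
    rcases t with i | i | i | i <;>
      simp only [Sum.elim_inl, Sum.elim_inr, h.sub, h.nat, h.fTc, h.cf, h.cY, h.bx, h.bz, h.sq,
        Pen.map_of]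

/-- The jets of the curve at the ten base points. -/
def JS : Sys (Fin 70) (Fin 10 × Fin 3) (Fin 10 × Fin 3) where
  ev {R} _ _ _ _ a x t := jcc (sq a) x t.1 t.2.succ
  nat {R S} _ _ _ _ _ _ _ _ f h a x t := by
    simp only [h.jcc, h.sq]

def JO : Sys (Fin 70) (Fin 10 × Fin 3) (Fin 10 ⊕ (Fin 6 × Fin 6)) where
  ev {R} _ _ _ _ a _ t := Sum.elim (fun b => cfz (sq a) (bx (sq a) b.val) (bz (sq a) b.val)) (fun i
    => cond (Nat.beq i.1.val i.2.val) ((1 : ℕ) : R) (bx (sq a) (4 + i.1.val) - bx (sq a) (4 +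
    i.2.val))) t
  nat {R S} _ _ _ _ _ _ _ _ f h a x t := by
    rcases t with i | i <;>
      simp only [Sum.elim_inl, Sum.elim_inr, h.sub, h.nat, h.cfz, h.bx, h.bz, h.sq, app_cond f]

/-- Linear conditions (rows) on the 198 coefficients of three normal forms (columns). -/
def E198 (cd : CD) (n : Fin 8) : Sys (ℕ ⊕ Fin 70 ⊕ (Fin 10 × Fin 3)) Empty ((Fin 30 ⊕ (Fin 3 × Fin 10 × Fin 4) ⊕ (Fin 24 × Fin 4)) × ℕ) where
  ev {R} _ _ _ _ a _ t := Sum.elim (fun r => cond (Nat.beq (ek t.2) (cd.fk n r.val).val && Nat.beq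
    (ej t.2) (cd.fj n r.val).val) (pw (cd.fx n r.val : R) (ei t.2)) ((0 : ℕ) : R)) (Sum.elim (fun i
    => cond (Nat.beq (ek t.2) i.1.val && (Nat.ble i.2.1.val 3 || Nat.ble i.2.2.val 2)) (jmc (sq fun
    i => a (.inr (.inl i))) (fun i => a (.inr (.inr i))) i.2.1 (ei t.2) (ej t.2) i.2.2) ((0 : ℕ) :
    R)) fun i => fEc (sq fun i => a (.inr (.inl i))) (PL a) (ek t.2) (ei t.2) (ej t.2) ((i.1.val + 2
    : ℕ) : R) i.2) t.1
  nat {R S} _ _ _ _ _ _ _ _ f h a x t := by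
    rcases t with ⟨i | i | i, s⟩
    · simp only [Sum.elim_inl, app_cond f, h.pw, h.nat]
    · simp only [Sum.elim_inl, Sum.elim_inr, app_cond f, h.jmc, h.nat, h.sq]
    · simp only [Sum.elim_inr, h.fEc, h.nat, h.sq, Pen.map_of]

/-- Lines `(u, W) = (x 0, x 1 … x 4)` through the point `(x 5, x 6)` of the curve. -/
def L150E : Sys (ℕ ⊕ Fin 70) (Fin 7) (Fin 7) where
  ev {R} _ _ _ _ a x t := pick [cf (sq fun i => a (.inr i)) (x 5) (x 6), x 0 * cU (sq fun i => a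
    (.inr i)) (x 5) (x 6) 0 - cU (sq fun i => a (.inr i)) (x 5) (x 6) 1, cY (sq fun i => a (.inr i))
    (x 5) (x 6) 2 - (cY (sq fun i => a (.inr i)) (x 5) (x 6) 0 * x 1 + cY (sq fun i => a (.inr i))
    (x 5) (x 6) 1 * x 3), cY (sq fun i => a (.inr i)) (x 5) (x 6) 3 - (cY (sq fun i => a (.inr i))
    (x 5) (x 6) 0 * x 2 + cY (sq fun i => a (.inr i)) (x 5) (x 6) 1 * x 4), lnE ((PL a).G (af (x
    0))) (w4 (sq x)) 1, lnE ((PL a).G (af (x 0))) (w4 (sq x)) 2, lnE ((PL a).G (af (x 0))) (w4 (sq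
    x)) 3] t.val
  nat {R S} _ _ _ _ _ _ _ _ f h a x t := by
    simp only [h.pick, h.sq, h.af, h.lnE, h.G, h.cf, h.cU, h.cY, h.add, h.sub, h.mul, List.map,
      app_w4 f, Pen.map_of]

def L150O : Sys (ℕ ⊕ Fin 70) (Fin 7) (Fin 8) where
  ev {R} _ _ _ _ a x t := pick [cfz (sq fun i => a (.inr i)) (x 5) (x 6), cU (sq fun i => a (.inr
    i)) (x 5) (x 6) 0, cY (sq fun i => a (.inr i)) (x 5) (x 6) 0, lnJ ((PL a).G (af (x 0))) (w4 (sq
    x)), qB ((PL a).ks (af (x 0))) (w4 (sq x)), dsc ((PL a).ks (af (x 0))) (w4 (sq x)), resN ((PL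
    a).ks (af (x 0))) ((PL a).G (af (x 0))) (cY (sq fun i => a (.inr i)) (x 5) (x 6)) (w4 (sq x)),
    (PL a).B (af (x 0))] t.val
  nat {R S} _ _ _ _ _ _ _ _ f h a x t := by
    simp only [h.pick, h.resN, h.dsc, h.qB, h.sq, h.af, h.lnJ, h.ks, h.G, h.B, h.cfz, h.cU, h.cY,
      List.map, app_w4 f, Pen.map_of]

/-- Points of the curve on the reducible cubic surfaces. -/
def L40E : Sys (ℕ ⊕ Fin 70) (Fin 2) (Fin 2) where
  ev {R} _ _ _ _ a x t := pick [cf (sq fun i => a (.inr i)) (x 0) (x 1), (PL a).B (cU (sq fun i => a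
    (.inr i)) (x 0) (x 1))] t.val
  nat {R S} _ _ _ _ _ _ _ _ f h a x t := by
    simp only [h.pick, h.sq, h.B, h.cf, h.cU, List.map, Pen.map_of]

def L40O : Sys (ℕ ⊕ Fin 70) (Fin 2) (Fin 5) where
  ev {R} _ _ _ _ a x t := pick [cfz (sq fun i => a (.inr i)) (x 0) (x 1), (PL a).ff 0 0 (cU (sq fun
    i => a (.inr i)) (x 0) (x 1)), (PL a).nuv (cU (sq fun i => a (.inr i)) (x 0) (x 1)), dot ((PL
    a).Pl (cU (sq fun i => a (.inr i)) (x 0) (x 1))) (cY (sq fun i => a (.inr i)) (x 0) (x 1)), tri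
    ((PL a).cs (cU (sq fun i => a (.inr i)) (x 0) (x 1))) (cY (sq fun i => a (.inr i)) (x 0) (x 1))
    (cY (sq fun i => a (.inr i)) (x 0) (x 1)) (cY (sq fun i => a (.inr i)) (x 0) (x 1))] t.val
  nat {R S} _ _ _ _ _ _ _ _ f h a x t := by
    simp only [h.pick, h.sq, h.dot, h.tri, h.nuv, h.ff, h.cs, h.Pl, h.cfz, h.cU, h.cY, List.map,
      Pen.map_of]

/-- The tangent sections at the four points over one value of `x` (the last parameter). -/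
def L24E : Sys (ℕ ⊕ Fin 70 ⊕ Unit) (Fin 4) (Fin 4) where
  ev {R} _ _ _ _ a x t := pick [cf (sq fun i => a (.inr (.inl i))) (a (.inr (.inr ()))) (x 0), tri
    ((PL a).G (cU (sq fun i => a (.inr (.inl i))) (a (.inr (.inr ()))) (x 0))) (cY (sq fun i => a
    (.inr (.inl i))) (a (.inr (.inr ()))) (x 0)) (cY (sq fun i => a (.inr (.inl i))) (a (.inr (.inr
    ()))) (x 0)) (v4 ((1 : ℕ) : R) (x 1) (x 2) (x 3)), qb ((PL a).ks (cU (sq fun i => a (.inr (.inl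
    i))) (a (.inr (.inr ()))) (x 0))) (v4 ((1 : ℕ) : R) (x 1) (x 2) (x 3)) (v4 ((1 : ℕ) : R) (x 1)
    (x 2) (x 3)), tri ((PL a).G (cU (sq fun i => a (.inr (.inl i))) (a (.inr (.inr ()))) (x 0))) (v4
    ((1 : ℕ) : R) (x 1) (x 2) (x 3)) (v4 ((1 : ℕ) : R) (x 1) (x 2) (x 3)) (v4 ((1 : ℕ) : R) (x 1) (x
    2) (x 3))] t.val
  nat {R S} _ _ _ _ _ _ _ _ f h a x t := by
    simp only [h.pick, h.sq, h.qb, h.tri, h.ks, h.G, h.cf, h.cU, h.cY, h.nat, List.map, app_v4 f,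
      Pen.map_of]

def L24O : Sys (ℕ ⊕ Fin 70 ⊕ Unit) (Fin 4) (Fin 11) where
  ev {R} _ _ _ _ a x t := pick [cU (sq fun i => a (.inr (.inl i))) (a (.inr (.inr ()))) (x 0) 0, cY
    (sq fun i => a (.inr (.inl i))) (a (.inr (.inr ()))) (x 0) 0, (PL a).nuv (cU (sq fun i => a
    (.inr (.inl i))) (a (.inr (.inr ()))) (x 0)), (PL a).B (cU (sq fun i => a (.inr (.inl i))) (a
    (.inr (.inr ()))) (x 0)), (PL a).ff 0 0 (cU (sq fun i => a (.inr (.inl i))) (a (.inr (.inr ())))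
    (x 0)), (PL a).d023 (cU (sq fun i => a (.inr (.inl i))) (a (.inr (.inr ()))) (x 0)) (cY (sq fun
    i => a (.inr (.inl i))) (a (.inr (.inr ()))) (x 0)), tri ((PL a).G (cU (sq fun i => a (.inr
    (.inl i))) (a (.inr (.inr ()))) (x 0))) (cY (sq fun i => a (.inr (.inl i))) (a (.inr (.inr ())))
    (x 0)) (cY (sq fun i => a (.inr (.inl i))) (a (.inr (.inr ()))) (x 0)) (ee 3), Rs ((PL a).G (cU
    (sq fun i => a (.inr (.inl i))) (a (.inr (.inr ()))) (x 0))) (cY (sq fun i => a (.inr (.inl i)))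
    (a (.inr (.inr ()))) (x 0)) (th1 ((PL a).G (cU (sq fun i => a (.inr (.inl i))) (a (.inr (.inr
    ()))) (x 0))) (cY (sq fun i => a (.inr (.inl i))) (a (.inr (.inr ()))) (x 0))) (th2 ((PL a).G
    (cU (sq fun i => a (.inr (.inl i))) (a (.inr (.inr ()))) (x 0))) (cY (sq fun i => a (.inr (.inl
    i))) (a (.inr (.inr ()))) (x 0))), gram ((PL a).ks (cU (sq fun i => a (.inr (.inl i))) (a (.inr
    (.inr ()))) (x 0))) (cY (sq fun i => a (.inr (.inl i))) (a (.inr (.inr ()))) (x 0)) (th1 ((PL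
    a).G (cU (sq fun i => a (.inr (.inl i))) (a (.inr (.inr ()))) (x 0))) (cY (sq fun i => a (.inr
    (.inl i))) (a (.inr (.inr ()))) (x 0))) (th2 ((PL a).G (cU (sq fun i => a (.inr (.inl i))) (a
    (.inr (.inr ()))) (x 0))) (cY (sq fun i => a (.inr (.inl i))) (a (.inr (.inr ()))) (x 0))), resQ
    ((PL a).ks (cU (sq fun i => a (.inr (.inl i))) (a (.inr (.inr ()))) (x 0))) ((PL a).G (cU (sq
    fun i => a (.inr (.inl i))) (a (.inr (.inr ()))) (x 0))) (th1 ((PL a).G (cU (sq fun i => a (.inr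
    (.inl i))) (a (.inr (.inr ()))) (x 0))) (cY (sq fun i => a (.inr (.inl i))) (a (.inr (.inr ())))
    (x 0))) (th2 ((PL a).G (cU (sq fun i => a (.inr (.inl i))) (a (.inr (.inr ()))) (x 0))) (cY (sq
    fun i => a (.inr (.inl i))) (a (.inr (.inr ()))) (x 0))), qb ((PL a).ks (cU (sq fun i => a (.inr
    (.inl i))) (a (.inr (.inr ()))) (x 0))) (cY (sq fun i => a (.inr (.inl i))) (a (.inr (.inr ())))
    (x 0)) (cY (sq fun i => a (.inr (.inl i))) (a (.inr (.inr ()))) (x 0))] t.val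
  nat {R S} _ _ _ _ _ _ _ _ f h a x t := by
    simp only [h.pick, h.sq, h.ee, h.qb, h.tri, h.Rs, h.resQ, h.gram, h.th1, h.th2, h.nuv, h.ff,
      h.ks, h.G, h.B, h.d023, h.cU, h.cY, List.map, Pen.map_of]

/-! ## Tritangent planes and the form -/

/-- A tritangent plane over the parameter `u`. -/
def TS : Sys (ℕ ⊕ Unit) (Fin 10) (Fin 10) where
  ev {R} _ _ _ _ a x t := tri ((PL a).G (af (a (.inr ())))) (tre (sq x) (tq1 t)) (tre (sq x) (tq2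
    t)) (tre (sq x) (tq3 t)) - x 9 * prm (trl (sq x)) (tq1 t) (tq2 t) (tq3 t)
  nat {R S} _ _ _ _ _ _ _ _ f h a x t := by
    simp only [h.tre, h.trl, h.prm, h.sq, h.af, h.tri, h.G, h.sub, h.mul, Pen.map_of]

def TO : Sys (ℕ ⊕ Unit) (Fin 10) ((Fin 3 × Fin 4) ⊕ Fin 4) where
  ev {R} _ _ _ _ a x t := Sum.elim (fun i => pick [lnJ ((PL a).G (af (a (.inr ())))) (trW (sq x)
    i.1), qB ((PL a).ks (af (a (.inr ())))) (trW (sq x) i.1), dsc ((PL a).ks (af (a (.inr ()))))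
    (trW (sq x) i.1), qb ((PL a).ks (af (a (.inr ())))) (trX (sq x) i.1) (trX (sq x) i.1)] i.2.val)
    (fun i => pick [gram ((PL a).ks (af (a (.inr ())))) (tre (sq x) 0) (tre (sq x) 1) (tre (sq x)
    2), resQ ((PL a).ks (af (a (.inr ())))) ((PL a).G (af (a (.inr ())))) (tre (sq x) 1) (tre (sq x)
    2), (PL a).B (af (a (.inr ()))), (PL a).ff 0 0 (af (a (.inr ())))] i.val) t
  nat {R S} _ _ _ _ _ _ _ _ f h a x t := by
    rcases t with i | i <;>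
      simp only [Sum.elim_inl, Sum.elim_inr, h.pick, List.map, h.lnJ, h.qB, h.dsc, h.qb, h.gram,
        h.resQ, h.G, h.ks, h.B, h.ff, h.af, h.trW, h.trX, h.tre, h.sq, Pen.map_of]

/-! ## Stage 1 -/

/-- Parameters (table, fixed lines, moving line) and unknowns (form, eight members, fifty fibres,
curves, lines through the curves, tritangent planes) of stage 1. -/
abbrev π1 : Type := ℕ ⊕ (Fin 68 × Fin 5) ⊕ Unit ⊕ Fin 4
abbrev σ1 : Type := Fin 1362 ⊕ Fin 8 ⊕ Fin 50 ⊕ (Fin 8 × Fin 70) ⊕ (Fin 8 × Fin 150 × Fin 7)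
  ⊕ (Fin 50 × Fin 10)

/-- The 1419 zeros of the form. -/
abbrev ζ1 : Type := (Fin 8 × Fin 150) ⊕ (Fin 50 × Fin 3) ⊕ Fin 68 ⊕ Unit

/-- The fibres that contain the zeros. -/
abbrev ζu : Type := (Fin 8 × Fin 150) ⊕ Fin 50 ⊕ Fin 68 ⊕ Unit

section

variable {R : Type} (a : π1 → R) (x : σ1 → R)

abbrev aP : ℕ → R := fun i => a (.inl i)
abbrev a68 (j : Fin 68) : Fin 5 → R := fun i => a (.inr (.inl (j, i)))
abbrev aU : R := a (.inr (.inr (.inl ())))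
abbrev aW : Fin 4 → R := fun i => a (.inr (.inr (.inr i)))
abbrev xF : Fin 1362 → R := fun i => x (.inl i)
abbrev xT (n : Fin 8) : R := x (.inr (.inl n))
abbrev xU (m : Fin 50) : R := x (.inr (.inr (.inl m)))
abbrev xC (n : Fin 8) : Fin 70 → R := fun i => x (.inr (.inr (.inr (.inl (n, i)))))
abbrev xL (n : Fin 8) (j : Fin 150) : Fin 7 → R :=
  fun i => x (.inr (.inr (.inr (.inr (.inl (n, j, i))))))
abbrev xR (m : Fin 50) : Fin 10 → R := fun i => x (.inr (.inr (.inr (.inr (.inr (m, i))))))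

/-- The parameters of stage 1. -/
def mk1 (X : ℕ → R) (b : Fin 68 → Fin 5 → R) (u : R) (W : Fin 4 → R) : π1 → R :=
  Sum.elim X (Sum.elim (fun i => b i.1 i.2) (Sum.elim (fun _ => u) W))

def uu : ζu → R :=
  Sum.elim (fun i => xL x i.1 i.2 0) (Sum.elim (xU x) (Sum.elim (fun j => a68 a j 0) fun _ => aU a))

def zu : ζ1 → R := Sum.elim (fun i => xL x i.1 i.2 0)
  (Sum.elim (fun i => xU x i.1) (Sum.elim (fun j => a68 a j 0) fun _ => aU a))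

variable [Add R] [Sub R] [Mul R] [NatCast R]

def zW : ζ1 → Fin 4 → R := Sum.elim (fun i => w4 (sq (xL x i.1 i.2)))
  (Sum.elim (fun i => trW (sq (xR x i.1)) i.2) (Sum.elim (fun j => w4 (sq (a68 a j))) fun _ => aW a))

/-- The form of bidegree `(41, 4)` with coefficients `c` on the line `(u, W)`. -/
def FF (cd : CD) (c : Fin 1362 → R) (u : R) (W : Fin 4 → R) : R :=
  Fev 1362 (fun k => cd.ie k % 42) cd.al (sq c) u (lP W)

end

lemma map_pu {R S : Type} (f : R → S) (a : ℕ → R) (u : R) :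
    (fun i => f (pu a u i)) = pu (fun i => f (a i)) (f u) := map_elim f a _

lemma Hom.FF {R S : Type} [Add R] [Sub R] [Mul R] [NatCast R] [Add S] [Sub S] [Mul S] [NatCast S]
    {f : R → S} (h : Hom f) (cd : CD) (c : Fin 1362 → R) (u : R) (W : Fin 4 → R) :
    f (FF cd c u W) = SC.FF cd (fun i => f (c i)) (f u) fun i => f (W i) := by
  simp only [SC.FF, h.Fev, h.sq, h.lP]

def S1c (cd : CD) : Sys π1 σ1 (Fin 8 × (Fin 30 ⊕ Fin 10 ⊕ (Fin 6 × Fin 4) ⊕ Fin 6)) where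
  ev {R} _ _ _ _ a x t := (CS cd t.1).ev (pu (aP a) (xT x t.1)) (xC x t.1) t.2
  nat {R S} _ _ _ _ _ _ _ _ f h a x t := by
    rw [(CS cd t.1).nat h, map_pu]

def S1l : Sys π1 σ1 (Fin 8 × Fin 150 × Fin 7) where
  ev {R} _ _ _ _ a x t := L150E.ev (Sum.elim (aP a) (xC x t.1)) (xL x t.1 t.2.1) t.2.2
  nat {R S} _ _ _ _ _ _ _ _ f h a x t := by
    rw [L150E.nat h, map_elim]

def S1t : Sys π1 σ1 (Fin 50 × Fin 10) where
  ev {R} _ _ _ _ a x t := TS.ev (pu (aP a) (xU x t.1)) (xR x t.1) t.2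
  nat {R S} _ _ _ _ _ _ _ _ f h a x t := by
    rw [TS.nat h, map_pu]

def S1f (cd : CD) : Sys π1 σ1 ζ1 where
  ev {R} _ _ _ _ a x t := FF cd (xF x) (zu a x t) (zW a x t)
  nat {R S} _ _ _ _ _ _ _ _ f h a x t := by
    rcases t with i | i | i | i <;>
      simp only [h.FF, zu, zW, Sum.elim_inl, Sum.elim_inr, app_w4 f, h.sq, h.trW]

def S1n : Sys π1 σ1 Unit where
  ev {R} _ _ _ _ _ x _ := xF x 0 - ((1 : ℕ) : R)
  nat {R S} _ _ _ _ _ _ _ _ f h a x t := by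
    simp only [h.sub, h.nat]

def O1l : Sys π1 σ1 (Fin 8 × Fin 150 × Fin 8) where
  ev {R} _ _ _ _ a x t := L150O.ev (Sum.elim (aP a) (xC x t.1)) (xL x t.1 t.2.1) t.2.2
  nat {R S} _ _ _ _ _ _ _ _ f h a x t := by
    rw [L150O.nat h, map_elim]

def O1t : Sys π1 σ1 (Fin 50 × ((Fin 3 × Fin 4) ⊕ Fin 4)) where
  ev {R} _ _ _ _ a x t := TO.ev (pu (aP a) (xU x t.1)) (xR x t.1) t.2
  nat {R S} _ _ _ _ _ _ _ _ f h a x t := by
    rw [TO.nat h, map_pu]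

/-- The equations of stage 1. -/
def S1 (cd : CD) := (S1c cd).app (S1l.app (S1t.app ((S1f cd).app S1n)))

def O1 := O1l.app O1t

end Pool.Agent.P.MP_7ebcb6_ag.SC
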