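import Pool.Agent.P.MP_7ebcb6_ag.SC.St2
import Pool.Agent.P.MP_7ebcb6_ag.SC.R1
import Pool.Agent.P.MP_7ebcb6_ag.SC.BZ
import Pool.Agent.P.MP_7ebcb6_ag.SC.H1
import Pool.Agent.P.MP_7ebcb6_ag.SC.H2

/-! The generic points of a curve and their tangent sections. -/

namespace Pool.Agent.P.MP_7ebcb6_ag.SC

open G8 Function

noncomputable section

namespace CZ

lemma enum {α : Type} {S : Set α} {n : ℕ} (hf : S.Finite) (hn : S.ncard = n) :
    ∃ q : Fin n → α, Injective q ∧ ∀ y, y ∈ S ↔ y ∈ Set.range q := by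
  rw [Set.ncard_eq_toFinset_card S hf] at hn
  let e := (hf.toFinset.equivFinOfCardEq hn).symm
  refine ⟨fun i => e i, Subtype.val_injective.comp e.injective, fun y => ⟨fun h => ?_, ?_⟩⟩
  · exact ⟨e.symm ⟨y, hf.mem_toFinset.2 h⟩, by simp⟩
  · rintro ⟨i, rfl⟩
    exact hf.mem_toFinset.1 (e i).2

lemma count {α β : Type} (R : Set α) (S : α → Set β) (z : Fin 24 → α) (y : Fin 24 → β)
    (hR : R.Finite ∧ R.ncard ≤ 4) (hz : ∀ j, z j ∈ R) (hy : ∀ j, y j ∈ S (z j))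
    (hS : ∀ j, (S (z j)).Finite ∧ (S (z j)).ncard ≤ 6) (hi : Injective y) :
    R.ncard = 4 ∧ (∀ w ∈ R, ∃ j, z j = w) ∧ ∀ j, (S (z j)).ncard = 6 := by
  classical
  let T := Finset.univ.image z
  let F : α → ℕ := fun t => (Finset.univ.filter fun j => z j = t).card
  have hT : (T : Set α) ⊆ R := by
    intro w hw
    obtain ⟨j, -, rfl⟩ := Finset.mem_image.1 hw
    exact hz j
  have h1 : T.card ≤ R.ncard := by
    rw [← Set.ncard_coe_finset]; exact Set.ncard_le_ncard hT hR.1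
  have h2 : 24 = ∑ t ∈ T, F t := by
    simpa using Finset.card_eq_sum_card_image z Finset.univ
  have h3 : ∀ j, F (z j) ≤ (S (z j)).ncard := fun j => by
    simp only [F]
    rw [← Finset.card_image_of_injective _ hi, ← Set.ncard_coe_finset]
    refine Set.ncard_le_ncard (fun v hv => ?_) (hS j).1
    obtain ⟨i, hi', rfl⟩ := Finset.mem_image.1 hv
    rw [← (Finset.mem_filter.1 hi').2]
    exact hy i
  have h4 : ∀ t ∈ T, F t ≤ 6 := fun t ht => by
    obtain ⟨j, -, rfl⟩ := Finset.mem_image.1 ht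
    exact (h3 j).trans (hS j).2
  have h5 : ∑ t ∈ T, F t ≤ T.card * 6 := Finset.sum_le_card_nsmul T F 6 h4
  have h6 : T.card = 4 := by omega
  refine ⟨by omega, fun w hw => ?_, fun j => le_antisymm (hS j).2 (le_trans ?_ (h3 j))⟩
  · rw [← Set.eq_of_subset_of_ncard_le hT (by rw [Set.ncard_coe_finset]; omega) hR.1] at hw
    obtain ⟨j, -, rfl⟩ := Finset.mem_image.1 hw
    exact ⟨j, rfl⟩
  · by_contra h
    have := Finset.sum_lt_sum h4 ⟨z j, Finset.mem_image_of_mem z (Finset.mem_univ j), not_le.1 h⟩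
    rw [Finset.sum_const, smul_eq_mul] at this
    omega

variable {K : Type} [Field K]

open Polynomial in
lemma roots (c : ℕ → K) (x : K) :
    {w | cf c x w = 0}.Finite ∧ {w | cf c x w = 0}.ncard ≤ 4 := by
  classical
  let P : K[X] := X ^ 4 - (C (cq c x 0) + C (cq c x 1) * X + C (cq c x 2) * X ^ 2
    + C (cq c x 3) * X ^ 3)
  have hd : P.natDegree = 4 := by
    simp only [P]
    compute_degree!
  have h0 : P ≠ 0 := fun h => by simp [h] at hd
  have hs : {w | cf c x w = 0} ⊆ P.roots.toFinset := fun w hw => by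
    have hw' : cf c x w = 0 := hw
    rw [Finset.mem_coe, Multiset.mem_toFinset, mem_roots h0, IsRoot.def, ← hw']
    simp only [P, cf, eval_sub, eval_add, eval_mul, eval_pow, eval_X, eval_C]
    ring
  refine ⟨(Finset.finite_toSet _).subset hs,
    (Set.ncard_le_ncard hs (Finset.finite_toSet _)).trans ?_⟩
  rw [Set.ncard_coe_finset, ← hd]
  exact (Multiset.toFinset_card_le _).trans (card_roots' P)

/-- the tangent section -/
def TSec (k : Fin 6 → K) (g : Fin 20 → K) (Y : V4 K) : Set (V4 K) :=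
  {y | y 0 = 1 ∧ tri g Y Y y = 0 ∧ qb k y y = 0 ∧ tri g y y y = 0}

lemma six [IsAlgClosed K] [CharZero K] {k : Fin 6 → K} {g : Fin 20 → K} {Y : V4 K}
    (h0 : tri g Y Y Y = 0) (h1 : Y 0 ≠ 0) (h3 : tri g Y Y (ee 3) ≠ 0)
    (hg : gram k Y (th1 g Y) (th2 g Y) ≠ 0) (hr : resQ k g (th1 g Y) (th2 g Y) ≠ 0) :
    (TSec k g Y).Finite ∧ (TSec k g Y).ncard ≤ 6 := by
  obtain ⟨hf, hc, -⟩ := thm_BZ K k g Y (th1 g Y) (th2 g Y) {p | _} hg hr fun p => Iff.rfl
  have hs := (thm_RTH K g Y h0 h1 h3).2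
  have e1 : th1 g Y 0 = 0 := by simp [th1]
  have e2 : th2 g Y 0 = 0 := by simp [th2]
  generalize th1 g Y = b1 at *
  generalize th2 g Y = b2 at *
  refine (fun h => ⟨(hf.image _).subset h, (Set.ncard_le_ncard h (hf.image _)).trans
    ((Set.ncard_image_le hf).trans hc)⟩) (?_ : TSec k g Y ⊆
      (fun p i => (Y 0)⁻¹ * ppt Y b1 b2 p i) '' _)
  rintro y ⟨a0, a1, a2, a3⟩
  obtain ⟨r, s, t, rfl⟩ := (hs y).1 a1
  have hr0 : r * Y 0 = 1 := by simpa [cb3, e1, e2] using a0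
  have e : ppt Y b1 b2 (Y 0 * s, Y 0 * t) = fun i => Y 0 * cb3 r Y s b1 t b2 i := by
    funext i
    simp only [ppt, cb3]
    linear_combination -Y i * hr0
  refine ⟨(Y 0 * s, Y 0 * t), ?_, ?_⟩
  · rw [Set.mem_ofPred_eq, e]
    generalize cb3 r Y s b1 t b2 = y at *
    constructor
    · rw [← mul_zero (Y 0 ^ 2), ← a2]
      simp only [qb]
      ring
    · rw [← mul_zero (Y 0 ^ 3), ← a3]
      simp only [tri]
      ring
  · funext i
    simp only [e]
    rw [inv_mul_cancel_left₀ h1]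

/-- the content of a good point of the block -/
structure GPt (P : Pen K) (c : ℕ → K) (u z : K) (y : V4 K) : Prop where
  rt : cf c u z = 0
  mem : y ∈ TSec (P.ks (cU c u z)) (P.G (cU c u z)) (cY c u z)
  u0 : cU c u z 0 ≠ 0
  y0 : cY c u z 0 ≠ 0
  be : P.B (cU c u z) ≠ 0
  f3 : P.ff 0 0 (cU c u z) ≠ 0
  dd : P.d023 (cU c u z) (cY c u z) ≠ 0
  g3 : tri (P.G (cU c u z)) (cY c u z) (cY c u z) (ee 3) ≠ 0
  rs : Rs (P.G (cU c u z)) (cY c u z) (th1 (P.G (cU c u z)) (cY c u z))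
    (th2 (P.G (cU c u z)) (cY c u z)) ≠ 0
  gr : gram (P.ks (cU c u z)) (cY c u z) (th1 (P.G (cU c u z)) (cY c u z))
    (th2 (P.G (cU c u z)) (cY c u z)) ≠ 0
  rq : resQ (P.ks (cU c u z)) (P.G (cU c u z)) (th1 (P.G (cU c u z)) (cY c u z))
    (th2 (P.G (cU c u z)) (cY c u z)) ≠ 0
  qs : qb (P.ks (cU c u z)) (cY c u z) (cY c u z) ≠ 0

lemma pt_of {X : ℕ → K} {C : Fin 70 → K} {u : K} {x : Fin 4 → K}
    (h : Good L24E L24O (Sum.elim X (Sum.elim C fun _ => u)) x) :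
    GPt (Pen.of X) (sq C) u (x 0) (v4 ((1 : ℕ) : K) (x 1) (x 2) (x 3)) :=
  ⟨h.eq 0, ⟨Nat.cast_one, h.eq 1, h.eq 2, h.eq 3⟩, h.op 0, h.op 1, h.op 3, h.op 4, h.op 5, h.op 6,
    h.op 7, h.op 8, h.op 9, h.op 10⟩

end CZ

open CZ

theorem thm_CZ (hE : S_E2) : S_CZ := by
  intro cd n X τ C J L l40 l24 h
  let sp := sec (some (cd.x0 n : ℂ))
  have hm : MV (spPl sp).G (Sum.elim (fun i => ct (X i)) (Sum.elim (fun i => ct (C i))
      fun _ : Unit => lam)) (Sum.elim X (Sum.elim C fun _ => (cd.x0 n : ℂ))) := by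
    rintro (i | i | i)
    · exact Tends.const (v := sp.v) _
    · exact Tends.const (v := sp.v) _
    · exact tends_sec _
  choose x hx hg using fun j => thm_UP thm_DEQ _ _ _ _ Om ℂ L24E L24O (spPl sp) _ _ (l24 j) rfl hm
    (h.att.g24 j)
  have eC : sq (fun i => ct (C i)) = CO C := funext fun i => ((hom_ringHom ct).sq C i).symm
  have hp : ∀ j, GPt (PO X) (CO C) lam (x j 0) (v4 ((1 : ℕ) : Om) (x j 1) (x j 2) (x j 3)) :=
    fun j => eC ▸ pt_of (hg j)
  have hi : Injective fun j => v4 ((1 : ℕ) : Om) (x j 1) (x j 2) (x j 3) := fun i j e => by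
    have e1 : x i 1 = x j 1 := congrFun e 1
    exact h.att.i24 ((spPl sp).uniq (hx i 1) (e1 ▸ hx j 1))
  have hT : ∀ w, cf (CO C) lam w = 0 → ∀ k,
      tri (gT (PO X) (ct τ) k (oU C w)) (oY C w) (oY C w) (oY C w) = 0 :=
    fun w hw k => h.ont Om ct lam w hw k
  have hG : ∀ j, tri ((PO X).G (oU C (x j 0))) (oY C (x j 0)) (oY C (x j 0)) (oY C (x j 0)) = 0 :=
    fun j => hT _ (hp j).rt 0
  have h6 := fun j => six (hG j) (hp j).y0 (hp j).g3 (hp j).gr (hp j).rq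
  obtain ⟨c4, hall, c6⟩ := count {w | cf (CO C) lam w = 0}
    (fun w => TSec ((PO X).ks (oU C w)) ((PO X).G (oU C w)) (oY C w)) (fun j => x j 0) _
    (roots _ _) (fun j => (hp j).rt) (fun j => (hp j).mem) h6 hi
  obtain ⟨z, zi, za⟩ := enum (roots (CO C) lam).1 c4
  choose f hf using fun k => hall (z k) ((za _).2 ⟨k, rfl⟩)
  obtain rfl : (fun k => x (f k) 0) = z := funext hf
  choose q qi qa using fun k => enum (h6 (f k)).1 (c6 (f k))
  exact ⟨_, _, q, ⟨zi, za, fun k => (hp _).u0, fun k => (hp _).y0⟩,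
    fun k => (thm_RTH Om _ _ (hG (f k)) (hp _).y0 (hp _).g3).1,
    fun k => div_ne_zero (hp _).rs (pow_ne_zero _ (mul_ne_zero (hp _).y0 (hp _).g3)),
    fun k => (hp _).be, fun k => (hp _).f3,
    fun k => hE X h.hid _ _ _ (hp _).dd (hT _ (hp _).rt), fun k => (hp _).qs, fun k => (hp _).g3,
    fun k => (hp _).gr, fun k => (hp _).rq, qi, qa⟩

end

end Pool.Agent.P.MP_7ebcb6_ag.SC
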