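import Pool.Agent.P.MP_7ebcb6_ag.SC.Cb2
import Pool.Agent.P.MP_7ebcb6_ag.SC.B

/-! Linear algebra for the certificate, part A. -/

namespace Pool.Agent.P.MP_7ebcb6_ag.SC

open Function

variable {K : Type} [Field K]

/-- The rows in the list are the rows `o, o + 1, …` of a lower unitriangular matrix with `n`
columns. -/
def TriL {τ : Type} (D : τ → ℕ → K) (n : ℕ) : ℕ → List τ → Prop
  | _, [] => True
  | o, t :: l => (D t o = 1 ∧ ∀ j, o < j → j < n → D t j = 0) ∧ TriL D n (o + 1) l

theorem TriL.append {τ : Type} {D : τ → ℕ → K} {n o : ℕ} {l1 l2 : List τ} (h1 : TriL D n o l1)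
    (h2 : TriL D n (o + l1.length) l2) : TriL D n o (l1 ++ l2) := by
  induction l1 generalizing o with
  | nil => exact h2
  | cons t l ih =>
    refine ⟨h1.1, ih h1.2 ?_⟩
    rwa [List.length_cons, add_comm l.length, ← add_assoc] at h2

/-- Only the columns `j < n` matter (and `o + l.length ≤ n`). -/
theorem TriL.congr {τ : Type} {D D' : τ → ℕ → K} {n o : ℕ} {l : List τ} (h : TriL D n o l)
    (hl : o + l.length ≤ n) (e : ∀ t j, j < n → D' t j = D t j) : TriL D' n o l := by
  induction l generalizing o with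
  | nil => trivial
  | cons t l ih =>
    rw [List.length_cons] at hl
    exact ⟨⟨(e t o (by omega)).trans h.1.1, fun j h1 h2 => (e t j h2).trans (h.1.2 j h1 h2)⟩,
      ih h.2 (by omega)⟩

theorem TriL.get {τ : Type} {D : τ → ℕ → K} {n o : ℕ} {l : List τ} (h : TriL D n o l) (i : ℕ)
    (hi : i < l.length) : D l[i] (o + i) = 1 ∧ ∀ j, o + i < j → j < n → D l[i] j = 0 := by
  induction l generalizing o i with
  | nil => simp at hi
  | cons t l ih =>
    cases i with
    | zero => exact h.1
    | succ i =>
      have := ih h.2 i (by simpa using hi)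
      rwa [add_assoc, add_comm 1 i] at this

theorem mi_of_triL {τ σ : Type} [Fintype σ] (J : τ → σ → K) (v : ℕ → σ → K) (l : List τ) {n : ℕ}
    (hn : Fintype.card σ = n) (hl : l.length = n)
    (h : TriL (fun t j => ∑ s, J t s * v j s) n 0 l) : MI J := by
  subst hl
  have hM : MI fun (i : Fin l.length) s => J l[i.val] s :=
    Cb2.mi_of_left (by simpa using hn) _ fun y hy => by
      have key : ∀ m, ∀ j : Fin l.length, l.length - j = m → y j = 0 := by
        intro m
        induction m using Nat.strong_induction_on with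
        | _ m ih =>
        intro j hj
        have h1 : ∑ i : Fin l.length, y i * ∑ s, J l[i.val] s * v j s = 0 := by
          simp only [Finset.mul_sum, ← mul_assoc]
          rw [Finset.sum_comm]
          exact Finset.sum_eq_zero fun s _ => by rw [← Finset.sum_mul, hy, zero_mul]
        rw [Finset.sum_eq_single j (fun i _ hi => ?_) (by simp)] at h1
        · have h2 := (h.get j j.2).1
          rw [zero_add] at h2
          rwa [h2, mul_one] at h1
        · rcases lt_or_gt_of_ne (Fin.val_ne_of_ne hi) with h2 | h2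
          · rw [(h.get i i.2).2 j (by omega) j.2, mul_zero]
          · rw [ih _ (by have := i.2; omega) i rfl, zero_mul]
      exact funext fun j => key _ j rfl
  exact fun e he => hM e fun i => he _

theorem inj_of_triL {π σ τ : Type} [Fintype σ] (S : Sys π σ τ) (a : π → K) (x : σ → K)
    (v : ℕ → σ → K) (l : List τ) {n : ℕ} (hn : Fintype.card σ = n) (hl : l.length = n)
    (h : TriL (fun t j => S.d a x (fun _ => 0) (v j) t) n 0 l) : S.Inj a x := by
  classical
  refine H1.inj_of_mi (mi_of_triL _ v l hn hl (h.congr (by omega) fun t j _ => ?_))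
  exact (H1.deq S a x (v j) t).symm

theorem minj_of_triL {π τ : Type} (E : Sys π Empty (τ × ℕ)) (a : π → K) (v : ℕ → ℕ → K)
    (l : List τ) {n : ℕ} (hl : l.length = n)
    (h : TriL (fun t j => sm (fun s => E.ev a nox (t, s) * v j s) n) n 0 l) : E.MInj n a :=
  mi_of_triL _ (fun j (s : Fin n) => v j s) l (Fintype.card_fin n) hl
    (h.congr (by omega) fun t j _ => by rw [sm_eq, Finset.sum_range])

open Polynomial in
theorem exists_roots [IsAlgClosed K] (N : ℕ) (f : ℕ → K) (hN : f N ≠ 0)
    (h : ∀ ω, pl (N + 1) f ω = 0 → pl N (fun i => ((i + 1 : ℕ) : K) * f (i + 1)) ω ≠ 0) :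
    ∃ ω : Fin N → K, Injective ω ∧ ∀ j, pl (N + 1) f (ω j) = 0 := by
  classical
  let p : K[X] := ∑ i ∈ Finset.range (N + 1), monomial i (f i)
  have ev : ∀ ω, p.eval ω = pl (N + 1) f ω := fun ω => by
    simp only [p, eval_finsetSum, eval_monomial, pl_eq]
  have ev' : ∀ ω, p.derivative.eval ω = pl N (fun i => ((i + 1 : ℕ) : K) * f (i + 1)) ω :=
    fun ω => by
      simp only [p, derivative_sum, derivative_monomial, eval_finsetSum, eval_monomial, pl_eq]
      rw [Finset.sum_range_succ']
      simp [mul_comm]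
  have hc : p.coeff N = f N := by
    simp [p, coeff_monomial]
  have hd : p.natDegree = N := by
    refine le_antisymm (natDegree_sum_le_of_forall_le _ _ fun i hi => ?_)
      (le_natDegree_of_ne_zero (hc ▸ hN))
    exact (natDegree_monomial_le _).trans (Nat.lt_succ_iff.1 (Finset.mem_range.1 hi))
  have hp : p ≠ 0 := fun h0 => hN (by rw [← hc, h0, coeff_zero])
  have hnd : p.roots.Nodup := Multiset.nodup_iff_count_le_one.2 fun ω => by
    rw [count_roots]
    by_contra! h1
    have h2 := (one_lt_rootMultiplicity_iff_isRoot hp).1 h1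
    exact h ω (ev ω ▸ h2.1) (ev' ω ▸ h2.2)
  have hcard : p.roots.toFinset.card = N := by
    rw [Multiset.toFinset_card_of_nodup hnd, ← hd]
    exact (IsAlgClosed.splits p).natDegree_eq_card_roots.symm
  let e := (Finset.equivFinOfCardEq hcard).symm
  refine ⟨fun j => e j, Subtype.val_injective.comp e.injective, fun j => ?_⟩
  rw [← ev]
  exact (mem_roots hp).1 (Multiset.mem_toFinset.1 (e j).2)

theorem onto_of (a : πL → K) (x : τL → σL → K)
    (h : ∀ t t', LM.ev a (x t) t' = if t = t' then 1 else 0) : OntoL a := by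
  intro e he
  funext t
  have h1 : ∑ t', LM.ev a (x t) t' * e t' = 0 := by
    simp only [← B.ev_eq a (x t), Finset.sum_mul]
    rw [Finset.sum_comm]
    refine Finset.sum_eq_zero fun s _ => ?_
    rw [← mul_zero (x t s), ← he s, Finset.mul_sum]
    exact Finset.sum_congr rfl fun _ _ => by ring
  simpa [h] using h1

/-- The families of fibres. -/
def fam : ζu → ℕ :=
  Sum.elim (fun i => i.1.val) (Sum.elim (fun _ => 9) (Sum.elim (fun _ => 8) fun _ => 10))

theorem uu_inj (a : π1 → K) (x : σ1 → K) (G : ℕ → K → K)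
    (h1 : ∀ n, Injective fun j => xL x n j 0) (h2 : Injective (xU x))
    (h3 : Injective fun j => a68 a j 0) (hz : ∀ r, G (fam r) (uu a x r) = 0)
    (hn : ∀ r β, fam r < β → β ≤ 10 → G β (uu a x r) ≠ 0) : Injective (uu a x) := by
  have hb : ∀ r, fam r ≤ 10 := fun r => by
    rcases r with ⟨n, j⟩ | m | j | _ <;> simp only [fam, Sum.elim_inl, Sum.elim_inr] <;> omega
  intro r r' e
  have hf : fam r = fam r' := by
    rcases lt_trichotomy (fam r) (fam r') with h | h | h
    · exact absurd (e ▸ hz r') (hn r _ h (hb _))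
    · exact h
    · exact absurd (e ▸ hz r) (hn r' _ h (hb _))
  rcases r with ⟨n, j⟩ | m | j | _ <;> rcases r' with ⟨n', j'⟩ | m' | j' | _ <;>
    simp only [fam, Sum.elim_inl, Sum.elim_inr] at hf <;>
    first
      | rfl
      | omega
      | skip
  · obtain rfl : n = n' := Fin.ext hf
    rw [show j = j' from h1 n e]
  · rw [h2 e]
  · rw [h3 e]

end Pool.Agent.P.MP_7ebcb6_ag.SC
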