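import Pool.Agent.P.MP_7ebcb6_ag.SC.Bs

/-! Statements, part 2: the certificate and the geometry of the pencil. -/

namespace Pool.Agent.P.MP_7ebcb6_ag.SC

open G8 Function

noncomputable section

/-! ## The certificate -/

/-- The parameters of the linear system read off from the table of stage 0. -/
def parX {R : Type} [Add R] [Sub R] [Mul R] [NatCast R] (X : ℕ → R) : πL → R :=
  Sum.elim (fun i => ta X i.1 i.2.1 i.2.2) (Sum.elim (fun _ => tu X) (ty X))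

/-- The rows of the linear system are independent. -/
def OntoL {K : Type} [Field K] (a : πL → K) : Prop :=
  MI fun (s : σL) (t : τL) => LM.ev a (Pi.single s 1) t

structure Dat0 (K : Type) where
  s : Fin 30 → K
  x : Fin 1049 → K
  b12 : Fin 12 → Fin 1 → K
  b78 : Fin 78 → Fin 6 → K
  b10 : Fin 10 → Fin 1 → K
  b27 : Fin 27 → Fin 4 → K
  b3 : Fin 3 → Fin 1 → K
  b68 : Fin 68 → Fin 5 → K

/-- The blocks that belong to the fixed line. -/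
structure Fix (cd : CD) {K : Type} [Field K] (X : ℕ → K) (b78 : Fin 78 → Fin 6 → K)
    (b10 : Fin 10 → Fin 1 → K) (b3 : Fin 3 → Fin 1 → K) : Prop where
  g78 : ∀ j, Good (B78E cd) (B78O cd) X (b78 j)
  i78 : Injective fun j => b78 j 0
  g10 : ∀ j, Good B10E (B10O cd) X (b10 j)
  i10 : Injective fun j => b10 j 0
  g3 : ∀ j, Good (B3E cd) (B3O cd) (pu X (cd.us : K)) (b3 j)
  i3 : Injective fun j => b3 j 0

/-- The 27 lines of one fibre. -/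
structure T27 (cd : CD) {K : Type} [Field K] (X : ℕ → K) (b27 : Fin 27 → Fin 4 → K) : Prop where
  g27 : ∀ j, Good LS (O27 cd) (pu X (cd.us : K)) (b27 j)
  i27 : Injective fun j => b27 j 0
  l27 : (L27 cd).MInj 126 (pu X (cd.us : K))

structure Good0 (cd : CD) {K : Type} [Field K] (d : Dat0 K) : Prop where
  s0 : Good (S0 cd) O0 d.s d.x
  g12 : ∀ j, Good B12E B12O (sq d.x) (d.b12 j)
  i12 : Injective fun j => d.b12 j 0
  fix : Fix cd (sq d.x) d.b78 d.b10 d.b3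
  t27 : T27 cd (sq d.x) d.b27
  g68 : ∀ j, Good (B68E cd) B68O (sq d.x) (d.b68 j)
  onto : OntoL (parX (sq d.x))

structure Dat1 (K : Type) where
  x : σ1 → K
  J : Fin 8 → Fin 10 × Fin 3 → K
  l40 : Fin 8 → Fin 40 → Fin 2 → K
  l24 : Fin 8 → Fin 24 → Fin 4 → K

/-- The blocks that are attached to one curve after stage 1. -/
structure Att (cd : CD) (n : Fin 8) {K : Type} [Field K] (X : ℕ → K) (C : Fin 70 → K)
    (J : Fin 10 × Fin 3 → K) (l40 : Fin 40 → Fin 2 → K) (l24 : Fin 24 → Fin 4 → K) : Prop where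
  gJ : Good JS JO C J
  e198 : (E198 cd n).MInj 198 (Sum.elim X (Sum.elim C J))
  g40 : ∀ j, Good L40E L40O (Sum.elim X C) (l40 j)
  i40 : Injective fun j => l40 j 0
  g24 : ∀ j, Good L24E L24O (Sum.elim X (Sum.elim C fun _ => (cd.x0 n : K))) (l24 j)
  i24 : Injective fun j => l24 j 1

structure Good1 (cd : CD) {K : Type} [Field K] (a : π1 → K) (w : Fin 27 → Fin 4 → K)
    (d : Dat1 K) : Prop where
  s1 : Good (S1 cd) O1 a d.x
  iu : Injective (uu a d.x)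
  att : ∀ n, Att cd n (aP a) (xC d.x n) (d.J n) (d.l40 n) (d.l24 n)
  f27 : ∀ j, FF cd (xF d.x) (cd.us : K) (w j) ≠ 0

/-- The parameters of stage 1 given by the data of stage 0. -/
def Dat0.par {K : Type} [Field K] (d : Dat0 K) : π1 → K :=
  mk1 (sq d.x) d.b68 (tu (sq d.x)) (tW (sq d.x))

def S_CERT (cd : CD) : Prop := ∃ (T : Type) (_ : Field T) (_ : IsAlgClosed T) (d0 : Dat0 T)
  (d1 : Dat1 T), Good0 cd d0 ∧ Good1 cd d0.par d0.b27 d1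

def S_UP0 : Prop := ∀ (cd : CD) (K L : Type) [Field K] [IsAlgClosed K] [Field L] (pl : Plc K L)
  (s : Fin 30 → K) (d' : Dat0 L), MV pl.G s d'.s → Good0 cd d' →
  ∃ d : Dat0 K, d.s = s ∧ Good0 cd d ∧ MV pl.G d.par d'.par ∧ ∀ j, MV pl.G (d.b27 j) (d'.b27 j)

def S_UP1 : Prop := ∀ (cd : CD) (K L : Type) [Field K] [IsAlgClosed K] [Field L] (pl : Plc K L)
  (a : π1 → K) (a' : π1 → L) (w : Fin 27 → Fin 4 → K) (w' : Fin 27 → Fin 4 → L) (d' : Dat1 L),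
  MV pl.G a a' → (∀ j, MV pl.G (w j) (w' j)) → Good1 cd a' w' d' → ∃ d : Dat1 K, Good1 cd a w d

def S_DOWN1 : Prop := ∀ (cd : CD) (a : π1 → Om) (w : Fin 27 → Fin 4 → ℂ) (d : Dat1 Om),
  (∀ᶠ sp in ae, TV sp a fun i => lim sp (a i)) → Good1 cd a (fun j i => ct (w j i)) d →
  ∀ᶠ sp in ae, ∃ d' : Dat1 ℂ, Good1 cd (fun i => lim sp (a i)) w d'

/-! ## The pencil -/

/-- The point lies on the member `0`. -/
def Pen.On {K : Type} [Field K] (P : Pen K) (U : V2 K) (Y : V4 K) : Prop :=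
  ∃ t, (∀ a, qb (P.kk a U) Y Y = 2 * t * P.ff 0 a U) ∧
    tri (P.gc U) Y Y Y + 6 * t * dot (P.nn 0 U) Y = 0

def Pen.Bad {K : Type} [Field K] (P : Pen K) (U : V2 K) (Y : V4 K) : Prop :=
  P.nuv U = 0 ∨ U 0 = 0 ∨ Y 0 = 0 ∨ ∀ a, qb (P.kk a U) Y Y = 0

/-- `nu * gg = dt` in every algebra, and `nu` is not the zero form. -/
structure Pen.Id {K : Type} [Field K] (P : Pen K) : Prop where
  eq : ∀ (A : Type) [CommRing A] (φ : K →+* A) (U : Fin 2 → A) (p : Fin 6) (b : Fin 20),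
    (P.map φ).nuv U * (P.map φ).gg p U b = (P.map φ).dt (p1 p) (p2 p) U b
  ne : ∃ U, P.nuv U ≠ 0

/-- The table with entries in `Om`. -/
abbrev PO (X : ℕ → ℂ) : Pen Om := (Pen.of X).map ct

abbrev PCl (X : ℕ → ℂ) : Type := Cl (PO X).On (Pen.of X).Bad

/-- The class of the two points of the member `0` on the line `(u, W)`. -/
def aX {X : ℕ → ℂ} (cl : PCl X) (u : ℂ) (W : V4 ℂ) : ℚ :=
  aL (cl.cls (af u)) ((Pen.of X).ks (af u)) W

/-- `(u, W)` is a simple line whose second point is not on the quadric. -/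
def Simple {K : Type} [Field K] (X : ℕ → K) (u : K) (W : V4 K) : Prop :=
  LS.Z (pu X u) W ∧ OCH.NZ (pu X u) W

def S_IDF : Prop := ∀ (R : Type) [CommRing R] (P : Pen R) (U : Fin 2 → R),
  (∀ b, P.nuv U * P.G U b = P.dt 0 1 U b) →
  ∀ b, P.ff 0 0 U * P.nuv U * P.G U b = qlc (P.ks U) (P.Pl U) b - P.B U * P.cs U b

def S_ON : Prop := ∀ (X : ℕ → ℂ), (Pen.of X).Id → ∀ (U : V2 Om) (Y : V4 Om), (PO X).B U ≠ 0 →
  (PO X).ff 0 0 U ≠ 0 → qb ((PO X).ks U) Y Y = 0 → tri ((PO X).G U) Y Y Y = 0 → (PO X).On U Y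

/-- The forms are homogeneous in `U`. -/
def S_HOM : Prop := ∀ (R : Type) [CommRing R] (P : Pen R) (c : R) (U : Fin 2 → R),
  (P.G fun i => c * U i) = (fun b => c ^ 4 * P.G U b) ∧
  (P.ks fun i => c * U i) = (fun b => c ^ 7 * P.ks U b) ∧
  (P.cs fun i => c * U i) = (fun b => c ^ 11 * P.cs U b) ∧
  (P.Pl fun i => c * U i) = (fun b => c ^ 14 * P.Pl U b) ∧
  (P.B fun i => c * U i) = c ^ 10 * P.B U ∧ (P.nuv fun i => c * U i) = c ^ 12 * P.nuv U ∧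
  (∀ s a, (P.ff s a fun i => c * U i) = c ^ 5 * P.ff s a U) ∧
  ∀ a, (P.kk a fun i => c * U i) = fun b => c ^ 2 * P.kk a U b

/-- The Plücker relation between the six cubics. -/
def S_PLK : Prop := ∀ (K : Type) [Field K] (P : Pen K), P.Id →
  ∀ (A : Type) [CommRing A] (φ : K →+* A) (U : Fin 2 → A) (Y : Fin 4 → A),
    tri ((P.map φ).gg 0 U) Y Y Y * tri ((P.map φ).gg 5 U) Y Y Y
      - tri ((P.map φ).gg 1 U) Y Y Y * tri ((P.map φ).gg 4 U) Y Y Y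
      + tri ((P.map φ).gg 2 U) Y Y Y * tri ((P.map φ).gg 3 U) Y Y Y = 0

/-- The quadric through the fibre of the member `1 + τ 0`. -/
def qT {K : Type} [Field K] (P : Pen K) (τ : K) (U : V2 K) (Y : V4 K) : K :=
  (P.ff 1 1 U + τ * P.ff 0 1 U) * qb (P.kk 0 U) Y Y
    - (P.ff 1 0 U + τ * P.ff 0 0 U) * qb (P.kk 1 U) Y Y

def S_E2 : Prop := ∀ (X : ℕ → ℂ), (Pen.of X).Id → ∀ (τ : Om) (U : V2 Om) (Y : V4 Om),
  (PO X).d023 U Y ≠ 0 → (∀ k, tri (gT (PO X) τ k U) Y Y Y = 0) → qT (PO X) τ U Y = 0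

/-- The tangent section has class zero at every specialisation. -/
def S_PSG : Prop := ∀ (X : ℕ → ℂ), (Pen.of X).Id → ∀ (cl : PCl X) (U : V2 Om) (x : V4 Om)
  (q : Fin 6 → V4 Om), (PO X).B U ≠ 0 → (PO X).ff 0 0 U ≠ 0 → tri ((PO X).G U) x x x = 0 →
  x 0 ≠ 0 → tri ((PO X).G U) x x (ee 3) ≠ 0 →
  gram ((PO X).ks U) x (th1 ((PO X).G U) x) (th2 ((PO X).G U) x) ≠ 0 →
  resQ ((PO X).ks U) ((PO X).G U) (th1 ((PO X).G U) x) (th2 ((PO X).G U) x) ≠ 0 → Injective q →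
  (∀ j, q j 0 = 1 ∧ tri ((PO X).G U) x x (q j) = 0 ∧ qb ((PO X).ks U) (q j) (q j) = 0 ∧
    tri ((PO X).G U) (q j) (q j) (q j) = 0) →
  ∀ sp : Sp, ∑ j, cl.cls (rd sp U) (rd sp (q j)) = 0

/-- A tritangent plane. -/
def S_TRI : Prop := ∀ (X : ℕ → ℂ), (Pen.of X).Id → ∀ (u : ℂ) (y : Fin 10 → ℂ),
  TS.Z (pu X u) y → TO.NZ (pu X u) y →
  (∀ i, Simple X u (trW (sq y) i)) ∧ Injective (trW (sq y)) ∧
    ∀ cl : PCl X, ∑ i, aX cl u (trW (sq y) i) = 0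

/-! ## The curve of lines -/

def S_L27 : Prop := ∀ (cd : CD) (K : Type) [Field K] (a : ℕ ⊕ Unit → K), (L27 cd).MInj 126 a →
  ∀ W : Fin 28 → V4 K, (∀ j, LS.Z a (W j)) → ¬ Injective W

/-- The lines of the generic fibre. -/
structure Lines (cd : CD) (X : ℕ → ℂ) (w : Fin 27 → V4 ℂ) (W : Fin 27 → V4 Om) : Prop where
  inj : Injective W
  all : ∀ V, (∀ i, lnE ((PO X).G (af lam)) V i = 0) ↔ V ∈ Set.range W
  lim : ∀ j, TV (sec (some (cd.us : ℂ))) (W j) (w j)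

def S_LN : Prop := ∀ (cd : CD) (X : ℕ → ℂ) (w : Fin 27 → V4 ℂ), T27 cd X w → ∃ W, Lines cd X w W

/-- Every limit of a line that meets the fixed line is listed. -/
def FxP (cd : CD) (X : ℕ → ℂ) (b78 : Fin 78 → Fin 6 → ℂ) : Prop :=
  ∀ (c : Option ℂ) (a b : V4 Om) (a' b' : V4 ℂ) (s t s' t' : ℂ), TV (sec c) a a' →
    TV (sec c) b b' → Ind a' b' → OnL ((PO X).G (af lam)) a b →
    cb s a' t b' = cb s' (cst cd.n1) t' (cst cd.n2) → cb s a' t b' ≠ 0 →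
    ∃ i, c = some (b78 i 0) ∧ ∃ e : ℂ, plk a' b' = fun m => e * lP (w4 (sq (b78 i))) m

/-- The three points of the fixed line with their values of the covariant. -/
structure FxO (cd : CD) (X : ℕ → ℂ) (t r : Fin 3 → Om) : Prop where
  inj : Injective t
  lc : tri ((PO X).G (af lam)) (cst cd.n2) (cst cd.n2) (cst cd.n2) ≠ 0
  fac : ∀ s, tri ((PO X).G (af lam)) (fpt cd s) (fpt cd s) (fpt cd s)
    = tri ((PO X).G (af lam)) (cst cd.n2) (cst cd.n2) (cst cd.n2) * ∏ k, (s - t k)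
  isR : ∀ k, IsR ((PO X).G (af lam)) (fpt cd (t k)) (r k)
  ne : ∀ k, r k ≠ 0

def S_FX1 : Prop := ∀ (cd : CD) (X : ℕ → ℂ) b78 b10 b3, Fix cd X b78 b10 b3 → ∃ t r, FxO cd X t r

/-- The count `168 = 78 + 10 * 9`. -/
def FxC (cd : CD) (X : ℕ → ℂ) (b78 : Fin 78 → Fin 6 → ℂ) (b10 : Fin 10 → Fin 1 → ℂ)
    (t r : Fin 3 → Om) : Prop :=
  (∀ c, av (sec c) (tri ((PO X).G (af lam)) (cst cd.n2) (cst cd.n2) (cst cd.n2))
    + ∑ k, mu (sec c) (af (t k)) = 4 * mu (sec c) (af lam)) ∧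
  ∀ c k, (∃ i, c = some (b78 i 0) ∧ (t k, ct (b78 i 5)) ∈ Cg (sec c) (un (sec c)) ∧
      (sec c).v (r k) = (sec c).v (un (sec c))) ∨
    (∃ i s, c = some (b10 i 0) ∧ Tends (sec c).v (t k) s ∧
      ((dot ((Pen.of X).Pl (af (b10 i 0))) (fpt cd s) ≠ 0 ∧
          (sec c).v (r k) = (sec c).v ((PO X).B (af lam)) ^ 2) ∨
        (qb ((Pen.of X).ks (af (b10 i 0))) (fpt cd s) (fpt cd s) ≠ 0 ∧
          (sec c).v (r k) = (sec c).v ((PO X).B (af lam)) ^ 5))) ∨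
    av (sec c) (r k) = 44 * mu (sec c) (af lam) + 9 * mu (sec c) (af (t k))

def S_FX2 : Prop := ∀ (cd : CD) (X : ℕ → ℂ) b78 b10 b3 t r, (Pen.of X).Id →
  Ind (cst cd.n1 : V4 ℂ) (cst cd.n2) → Fix cd X b78 b10 b3 → FxO cd X t r → FxC cd X b78 b10 t r

def S_FX3 : Prop := ∀ (cd : CD) (X : ℕ → ℂ) b78 b10 b3 t r, (Pen.of X).Id →
  Ind (cst cd.n1 : V4 ℂ) (cst cd.n2) → Fix cd X b78 b10 b3 → FxO cd X t r →
  FxC cd X b78 b10 t r → FxP cd X b78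

/-- The curve of lines has Plücker degree at most 78. -/
def S_L78 : Prop := ∀ (cd : CD) (X : ℕ → ℂ) b78 b10 b3 w W, Fix cd X b78 b10 b3 → T27 cd X w →
  Lines cd X w W → FxP cd X b78 → ∑ᶠ c, ∑ j, -mu (sec c) (lP (W j)) ≤ 78

/-- The class of the zeros of a form does not depend on the form. -/
def LamP (cd : CD) (X : ℕ → ℂ) (w : Fin 27 → V4 ℂ) (cl : PCl X) (Φ : ℚ) : Prop :=
  ∀ (u : ζ1 → ℂ) (V : ζ1 → V4 ℂ) (c : Fin 1362 → ℂ), (Injective fun j => (u j, V j)) →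
    (∀ j, Simple X (u j) (V j)) → (∀ j, FF cd c (u j) (V j) = 0) →
    (∀ j, FF cd c (cd.us : ℂ) (w j) ≠ 0) → ∑ j, aX cl (u j) (V j) = Φ

def S_LAM : Prop := ∀ (cd : CD) (X : ℕ → ℂ) w W, (Pen.of X).Id → T27 cd X w → Lines cd X w W →
  ∑ᶠ c, ∑ j, -mu (sec c) (lP (W j)) ≤ 78 → ∀ cl : PCl X, ∃ Φ, LamP cd X w cl Φ

/-! ## Curves on other members -/

/-- Normal forms modulo the quartic. -/
def S_NF : Prop := ∀ (K : Type) [Field K] (C : ℕ → K) (P : Pen K) (τ : K), ∃ N : ℕ → K,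
  ∀ (A : Type) [CommRing A] (φ : K →+* A) (x z : A), cf (fun i => φ (C i)) x z = 0 →
    ∀ k : Fin 3, cT (fun i => φ (C i)) (P.map φ) (φ τ) k x z
      = ∑ s ∈ Finset.range 198, if ek s = k.val then φ (N s) * (x ^ ei s * z ^ ej s) else 0

/-- The curve lies on the member `1 + τ 0`. -/
def OnT {K : Type} [Field K] (X : ℕ → K) (τ : K) (C : Fin 70 → K) : Prop :=
  ∀ (A : Type) [CommRing A] (φ : K →+* A) (x z : A), cf (fun i => φ (sq C i)) x z = 0 →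
    ∀ k, cT (fun i => φ (sq C i)) ((Pen.of X).map φ) (φ τ) k x z = 0

def S_E1 : Prop := ∀ (cd : CD) (n : Fin 8) (X : ℕ → ℂ) (τ : ℂ) (C : Fin 70 → ℂ)
  (J : Fin 10 × Fin 3 → ℂ), (Pen.of X).Id → (CS cd n).Z (pu X τ) C → JS.Z C J →
  (E198 cd n).MInj 198 (Sum.elim X (Sum.elim C J)) → OnT X τ C

/-- Everything that is known about one curve. -/
structure Cur (cd : CD) (n : Fin 8) (X : ℕ → ℂ) (τ : ℂ) (C : Fin 70 → ℂ) (J : Fin 10 × Fin 3 → ℂ)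
    (L : Fin 150 → Fin 7 → ℂ) (l40 : Fin 40 → Fin 2 → ℂ) (l24 : Fin 24 → Fin 4 → ℂ) : Prop where
  hid : (Pen.of X).Id
  cs : (CS cd n).Z (pu X τ) C
  ont : OnT X τ C
  att : Att cd n X C J l40 l24
  lz : ∀ j, L150E.Z (Sum.elim X C) (L j)
  lo : ∀ j, L150O.NZ (Sum.elim X C) (L j)
  li : Injective fun j => L j 0

def S_CL0 : Prop := ∀ cd n X τ C J L l40 l24, Cur cd n X τ C J L l40 l24 →
  ∀ j, Simple X (L j 0) (w4 (sq (L j)))

/-- The curve over `Om`, with `x = lam`. -/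
abbrev CO (C : Fin 70 → ℂ) : ℕ → Om := fun i => ct (sq C i)
abbrev oU (C : Fin 70 → ℂ) (z : Om) : V2 Om := cU (CO C) lam z
abbrev oY (C : Fin 70 → ℂ) (z : Om) : V4 Om := cY (CO C) lam z

/-- The four roots of the quartic. -/
structure Rt4 (C : Fin 70 → ℂ) (z : Fin 4 → Om) : Prop where
  inj : Injective z
  all : ∀ w, cf (CO C) lam w = 0 ↔ w ∈ Set.range z
  u0 : ∀ k, oU C (z k) 0 ≠ 0
  y0 : ∀ k, oY C (z k) 0 ≠ 0

/-- The generic points of the curve and their tangent sections. -/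
structure CurO (X : ℕ → ℂ) (τ : ℂ) (C : Fin 70 → ℂ) (z r : Fin 4 → Om) (q : Fin 4 → Fin 6 → V4 Om) :
    Prop where
  rt : Rt4 C z
  isR : ∀ k, IsR ((PO X).G (oU C (z k))) (oY C (z k)) (r k)
  r0 : ∀ k, r k ≠ 0
  be : ∀ k, (PO X).B (oU C (z k)) ≠ 0
  f3 : ∀ k, (PO X).ff 0 0 (oU C (z k)) ≠ 0
  qt : ∀ k, qT (PO X) (ct τ) (oU C (z k)) (oY C (z k)) = 0
  qs : ∀ k, qb ((PO X).ks (oU C (z k))) (oY C (z k)) (oY C (z k)) ≠ 0
  g3 : ∀ k, tri ((PO X).G (oU C (z k))) (oY C (z k)) (oY C (z k)) (ee 3) ≠ 0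
  gr : ∀ k, gram ((PO X).ks (oU C (z k))) (oY C (z k)) (th1 ((PO X).G (oU C (z k))) (oY C (z k)))
    (th2 ((PO X).G (oU C (z k))) (oY C (z k))) ≠ 0
  rq : ∀ k, resQ ((PO X).ks (oU C (z k))) ((PO X).G (oU C (z k)))
    (th1 ((PO X).G (oU C (z k))) (oY C (z k))) (th2 ((PO X).G (oU C (z k))) (oY C (z k))) ≠ 0
  qi : ∀ k, Injective (q k)
  qa : ∀ k y, (y 0 = 1 ∧ tri ((PO X).G (oU C (z k))) (oY C (z k)) (oY C (z k)) y = 0 ∧
    qb ((PO X).ks (oU C (z k))) y y = 0 ∧ tri ((PO X).G (oU C (z k))) y y y = 0) ↔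
    y ∈ Set.range (q k)

def S_CZ : Prop := ∀ cd n X τ C J L l40 l24, Cur cd n X τ C J L l40 l24 →
  ∃ z r q, CurO X τ C z r q

/-- A simple point of the plane quartic is the limit of a root. -/
def S_CH1 : Prop := ∀ (C : Fin 70 → ℂ) (z : Fin 4 → Om) (x0 z0 : ℂ), Rt4 C z →
  cf (sq C) x0 z0 = 0 → cfz (sq C) x0 z0 ≠ 0 →
  ∃ k, (z k, ct z0) ∈ Cg (sec (some x0)) (un (sec (some x0)))

/-- The degrees of the two maps are at most four and six. -/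
def S_CH2 : Prop := ∀ (C : Fin 70 → ℂ) (J : Fin 10 × Fin 3 → ℂ) (z : Fin 4 → Om), Rt4 C z →
  (∀ b : Fin 10, cf (sq C) (bx (sq C) b.val) (bz (sq C) b.val) = 0) →
  (∀ (b : Fin 6) (m : Fin 4), cY (sq C) (bx (sq C) (4 + b.val)) (bz (sq C) (4 + b.val)) m = 0) →
  JO.NZ C J → ∑ᶠ c, ∑ k, -mu (sec c) (oU C (z k)) ≤ 4 ∧ ∑ᶠ c, ∑ k, -mu (sec c) (oY C (z k)) ≤ 6

/-- The counts `230 = 150 + 2 * 40` and `40`. -/
def CurC (X : ℕ → ℂ) (C : Fin 70 → ℂ) (L : Fin 150 → Fin 7 → ℂ) (l40 : Fin 40 → Fin 2 → ℂ)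
    (z r : Fin 4 → Om) (f : Fin 150 → Fin 4) : Prop :=
  (Injective fun j => (L j 5, f j)) ∧
  (∀ j, (z (f j), ct (L j 6)) ∈ Cg (sec (some (L j 5))) (un (sec (some (L j 5)))) ∧
    (sec (some (L j 5))).v (r (f j)) = (sec (some (L j 5))).v (un (sec (some (L j 5))))) ∧
  ∀ c k, (∃ j, c = some (L j 5) ∧ k = f j) ∨
    (∃ i, c = some (l40 i 0) ∧ Tends (sec c).v (z k) (l40 i 1) ∧
      (sec c).v (r k) = (sec c).v ((PO X).B (oU C (z k))) ^ 2) ∨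
    (av (sec c) (r k) = 44 * mu (sec c) (oU C (z k)) + 9 * mu (sec c) (oY C (z k)) ∧
      av (sec c) ((PO X).B (oU C (z k))) = 10 * mu (sec c) (oU C (z k)))

def S_CB : Prop := ∀ cd n X τ C J L l40 l24 z r q, Cur cd n X τ C J L l40 l24 →
  CurO X τ C z r q → ∃ f, CurC X C L l40 z r f

/-- The contribution of the tangent section at one specialisation. -/
def ctr {X : ℕ → ℂ} (cl : PCl X) (C : Fin 70 → ℂ) (z : Om) (q : Fin 6 → V4 Om) (sp : Sp) : ℚ :=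
  ∑ j, av sp (tri ((PO X).G (oU C z)) (oY C z) (q j) (q j)) * cl.cls (rd sp (oU C z)) (rd sp (q j))

def S_CW1 : Prop := ∀ cd n X τ C J L l40 l24 z r q f, Cur cd n X τ C J L l40 l24 →
  CurO X τ C z r q → CurC X C L l40 z r f → ∀ cl : PCl X,
  (∀ j, ctr cl C (z (f j)) (q (f j)) (sec (some (L j 5))) = aX cl (L j 0) (w4 (sq (L j)))) ∧
  ∀ c k, (¬ ∃ j, c = some (L j 5) ∧ k = f j) → ctr cl C (z k) (q k) (sec c) = 0

def S_CW2 : Prop := ∀ X τ C z r q, (Pen.of X).Id → CurO X τ C z r q → ∀ cl : PCl X,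
  ∑ᶠ c, ∑ k, ctr cl C (z k) (q k) (sec c) = 0

def S_CUR : Prop := ∀ cd n X τ C J L l40 l24, Cur cd n X τ C J L l40 l24 →
  ∀ cl : PCl X, ∑ j, aX cl (L j 0) (w4 (sq (L j))) = 0

/-! ## Moving the chord -/

def S_SUM : Prop := ∀ (cd : CD) (X : ℕ → ℂ) (b68 : Fin 68 → Fin 5 → ℂ) (u : ℂ) (W : V4 ℂ) w d
  (cl : PCl X) (Φ : ℚ), (Pen.of X).Id → (∀ j, Good (B68E cd) B68O X (b68 j)) → Simple X u W →
  Good1 cd (mk1 X b68 u W) w d → LamP cd X w cl Φ →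
  aX cl u W + ∑ j, aX cl (b68 j 0) (w4 (sq (b68 j))) = Φ

def S_FIN : Prop := ∀ (cd : CD) (X : ℕ → ℂ) (b68 : Fin 68 → Fin 5 → ℂ) (u : ℂ) (W : V4 ℂ) w d
  (cl : PCl X) (Φ : ℚ), (Pen.of X).Id → T27 cd X w → (∀ j, Good (B68E cd) B68O X (b68 j)) →
  Simple X u W → Good1 cd (mk1 X b68 u W) w d → LamP cd X w cl Φ → aX cl u W = 0

end

end Pool.Agent.P.MP_7ebcb6_ag.SC
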