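import Pool.Agent.P.MP_7ebcb6_ag.SC.Jac
import Pool.Agent.P.MP_7ebcb6_ag.SC.St2

/-! Linear algebra for the certificate, part B. -/

namespace Pool.Agent.P.MP_7ebcb6_ag.SC

open Function

variable {K : Type} [Field K]

/-- Groups of columns of the form: a number of powers of `u` and a monomial. -/
abbrev Grp : Type := List (ℕ × (Fin 4 → Fin 6))

def gie : Grp → ℕ → ℕ
  | [], _ => 0
  | g :: l, k => cond (Nat.blt k g.1) k (gie l (k - g.1))

def gal : Grp → ℕ → Fin 4 → Fin 6
  | [], _ => fun _ => 0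
  | g :: l, k => cond (Nat.blt k g.1) g.2 (gal l (k - g.1))

def mon {R : Type} [Mul R] (al : Fin 4 → Fin 6) (p : Fin 6 → R) : R :=
  p (al 0) * p (al 1) * (p (al 2) * p (al 3))

def FG (u : K) (p : Fin 6 → K) : Grp → (ℕ → K) → K
  | [], _ => 0
  | g :: l, c => pl g.1 c u * mon g.2 p + FG u p l fun k => c (g.1 + k)

namespace Cb2

lemma grp (u : K) (p : Fin 6 → K) : ∀ (l : Grp) (c : ℕ → K), (∀ g ∈ l, g.1 ≤ 42) →
    ∑ k ∈ Finset.range (l.map Prod.fst).sum, c k * col (gie l k % 42) (gal l k) u p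
      = FG u p l c
  | [], c, _ => by simp [FG]
  | g :: l, c, h => by
    rw [List.map_cons, List.sum_cons, Finset.sum_range_add, FG,
      ← grp u p l _ fun g' hg => h g' (List.mem_cons_of_mem _ hg), pl_eq, Finset.sum_mul]
    congr 1
    · refine Finset.sum_congr rfl fun k hk => ?_
      have h1 := Finset.mem_range.1 hk
      have h2 := h g List.mem_cons_self
      have h3 : Nat.blt k g.1 = true := by simpa [Nat.blt_eq] using h1
      rw [gie, gal, h3, cond_true, cond_true, Nat.mod_eq_of_lt (by omega), col, pw_eq, mon,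
        mul_assoc (c k)]
    · refine Finset.sum_congr rfl fun k _ => ?_
      have h3 : Nat.blt (g.1 + k) g.1 = false := by
        rw [← Bool.not_eq_true, Nat.blt_eq]; omega
      rw [gie, gal, h3, cond_false, cond_false, Nat.add_sub_cancel_left]

lemma FF_sum (cd : CD) (c : Fin 1362 → K) (u : K) (W : Fin 4 → K) :
    FF cd c u W = ∑ k : Fin 1362, col (cd.ie k % 42) (cd.al k) u (lP W) * c k := by
  rw [FF, Fev, sm_eq, Finset.sum_range]
  refine Finset.sum_congr rfl fun k _ => ?_
  rw [sq, dif_pos k.2, mul_comm]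

/-- A square matrix with trivial left kernel has trivial kernel. -/
lemma mi_of_left {ρ ι : Type} [Fintype ρ] [Fintype ι] (hc : Fintype.card ι = Fintype.card ρ)
    (M : ρ → ι → K) (h : ∀ y : ρ → K, (∀ i, ∑ r, y r * M r i = 0) → y = 0) : MI M := by
  classical
  let e : ι ≃ ρ := Fintype.equivOfCardEq hc
  let A : Matrix ι ι K := Matrix.of fun i j => M (e i) j
  have h1 : Injective A.vecMul := by
    intro y z hyz
    have := h (fun r => y (e.symm r) - z (e.symm r)) fun i => by
      rw [← e.sum_comp]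
      have := congrFun hyz i
      simp only [Matrix.vecMul, dotProduct, A, Matrix.of_apply] at this
      simp only [Equiv.symm_apply_apply, sub_mul, Finset.sum_sub_distrib, this, sub_self]
    funext i
    have := congrFun this (e i)
    simpa [sub_eq_zero] using this
  have h2 := Matrix.mulVec_injective_iff_isUnit.2 (Matrix.vecMul_injective_iff_isUnit.1 h1)
  intro v hv
  refine h2 ?_
  rw [Matrix.mulVec_zero]
  exact funext fun i => hv (e i)

end Cb2

open Cb2

theorem FF_grp (cd : CD) (l : Grp) (h1 : cd.ie = gie l) (h2 : cd.al = gal l)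
    (h3 : (l.map Prod.fst).sum = 1362) (h4 : ∀ g ∈ l, g.1 ≤ 42) (c : ℕ → K) (u : K)
    (W : Fin 4 → K) : FF cd (fun i => c i.val) u W = FG u (lP W) l c := by
  rw [← grp u (lP W) l c h4, h3, FF, Fev, sm_eq, h1, h2]
  refine Finset.sum_congr rfl fun k hk => ?_
  rw [sq, dif_pos (Finset.mem_range.1 hk)]

/-- Blocks of rows of the reduced system. -/
def bl : Unit ⊕ ζ1 → ℕ := Sum.elim (fun _ => 0) (Sum.elim (fun i => 6 + i.1.val)
  (Sum.elim (fun i => 2 + i.2.val) (Sum.elim (fun _ => 5) fun _ => 1)))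

/-- Their sizes. -/
def sz (β : ℕ) : ℕ :=
  if β < 2 then 1 else if β < 5 then 50 else if β = 5 then 68 else if β < 14 then 150 else 0

/-- The rows of the reduced system. -/
def Phi (cd : CD) (a : π1 → K) (x : σ1 → K) (D1 : Fin 8 → Fin 150 → K) (D2 : Fin 50 → Fin 3 → K)
    (vF : Fin 1362 → K) (vT : Fin 8 → K) (vU : Fin 50 → K) : Unit ⊕ ζ1 → K :=
  Sum.elim (fun _ => vF 0) fun r => FF cd vF (zu a x r) (zW a x r)
    + Sum.elim (fun i => vT i.1 * D1 i.1 i.2)
      (Sum.elim (fun i => vU i.1 * D2 i.1 i.2) fun _ => 0) r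

def RowOK (cd : CD) (a : π1 → K) (x : σ1 → K) (D1 : Fin 8 → Fin 150 → K)
    (D2 : Fin 50 → Fin 3 → K) (β d : ℕ) : Prop :=
  ∃ (vF : Fin 1362 → K) (vT : Fin 8 → K) (vU : Fin 50 → K) (c : ℕ → K), c d = 1 ∧ ∀ r,
    (bl r = β → Phi cd a x D1 D2 vF vT vU r
      = pl (d + 1) c (Sum.elim (fun _ => 0) (zu a x) r)) ∧
    (β < bl r → Phi cd a x D1 D2 vF vT vU r = 0)

open Polynomial in
theorem tri_blocks {ρ α : Type} [Fintype ρ] (b : ρ → ℕ) (nd : ρ → K) (Φ : α → ρ → K)
    (hi : ∀ r r', b r = b r' → nd r = nd r' → r = r') (s : ℕ → ℕ)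
    (hs : ∀ β, (Finset.univ.filter fun r => b r = β).card ≤ s β)
    (h : ∀ β d, d < s β → ∃ (v : α) (c : ℕ → K), c d = 1 ∧ ∀ r,
      (b r = β → Φ v r = pl (d + 1) c (nd r)) ∧ (β < b r → Φ v r = 0))
    (y : ρ → K) (hy : ∀ v, ∑ r, y r * Φ v r = 0) : y = 0 := by
  classical
  have key : ∀ β r, b r = β → y r = 0 := by
    intro β
    induction β using Nat.strong_induction_on with
    | _ β ih =>
    set B := Finset.univ.filter fun r => b r = β with hB
    have mem : ∀ r, r ∈ B ↔ b r = β := fun r => by simp [hB]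
    have pw0 : ∀ d, d < s β → ∑ r ∈ B, y r * nd r ^ d = 0 := by
      intro d
      induction d using Nat.strong_induction_on with
      | _ d ihd =>
      intro hd
      obtain ⟨v, c, hc, hv⟩ := h β d hd
      have h1 : ∑ r ∈ B, y r * Φ v r = 0 := by
        rw [← hy v]
        refine Finset.sum_subset (Finset.subset_univ _) fun r _ hr => ?_
        rcases lt_trichotomy (b r) β with h2 | h2 | h2
        · rw [ih _ h2 r rfl, zero_mul]
        · exact absurd ((mem r).2 h2) hr
        · rw [(hv r).2 h2, mul_zero]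
      rw [Finset.sum_congr rfl fun r hr => by
        rw [(hv r).1 ((mem r).1 hr), pl_eq, Finset.mul_sum], Finset.sum_comm,
        Finset.sum_range_succ, Finset.sum_eq_zero fun i hi => by
          have h3 := Finset.mem_range.1 hi
          rw [← mul_zero (c i), ← ihd i h3 (h3.trans hd), Finset.mul_sum]
          exact Finset.sum_congr rfl fun r _ => by ring] at h1
      simpa [hc] using h1
    intro r0 hr0
    let q : K[X] := ∏ r ∈ B.erase r0, (X - C (nd r))
    have hq : q.natDegree < s β := by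
      have h1 : q.natDegree = (B.erase r0).card := by
        rw [natDegree_prod_of_monic _ _ fun r _ => monic_X_sub_C _]
        simp
      have h2 := Finset.card_erase_lt_of_mem ((mem r0).2 hr0)
      exact h1 ▸ h2.trans_le (hs β)
    have h1 : ∑ r ∈ B, y r * q.eval (nd r) = 0 := by
      simp only [eval_eq_sum_range, Finset.mul_sum]
      rw [Finset.sum_comm]
      refine Finset.sum_eq_zero fun i hi => ?_
      have h3 := Finset.mem_range.1 hi
      rw [← mul_zero (q.coeff i), ← pw0 i (by omega), Finset.mul_sum]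
      exact Finset.sum_congr rfl fun r _ => by ring
    rw [Finset.sum_eq_single_of_mem r0 ((mem r0).2 hr0) fun r hr hne => by
      rw [eval_prod, Finset.prod_eq_zero (Finset.mem_erase.2 ⟨hne, hr⟩) (by simp), mul_zero]] at h1
    refine (mul_eq_zero.1 h1).resolve_right ?_
    rw [eval_prod]
    refine Finset.prod_ne_zero_iff.2 fun r hr => ?_
    obtain ⟨h2, h3⟩ := Finset.mem_erase.1 hr
    simp only [eval_sub, eval_X, eval_C, sub_ne_zero]
    exact fun h4 => h2 (hi _ _ (((mem r).1 h3).trans hr0.symm) h4.symm)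
  exact funext fun r => key _ r rfl

namespace Cb2

/-- The position of a row inside its block. -/
def ps : Unit ⊕ ζ1 → ℕ := Sum.elim (fun _ => 0) (Sum.elim (fun i => i.2.val)
  (Sum.elim (fun i => i.1.val) (Sum.elim (fun j => j.val) fun _ => 0)))

lemma ps_lt (r : Unit ⊕ ζ1) : ps r < sz (bl r) := by
  rcases r with _ | ⟨n, j⟩ | ⟨m, i⟩ | j | _
  · simp [ps, sz, bl]
  · have := n.2
    have := j.2
    simp only [ps, sz, bl, Sum.elim_inl, Sum.elim_inr]
    split_ifs <;> omega
  · have := m.2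
    have := i.2
    simp only [ps, sz, bl, Sum.elim_inl, Sum.elim_inr]
    split_ifs <;> omega
  · simp [ps, sz, bl]
  · simp [ps, sz, bl]

lemma ps_inj (r r' : Unit ⊕ ζ1) (h1 : bl r = bl r') (h2 : ps r = ps r') : r = r' := by
  rcases r with _ | ⟨n, j⟩ | ⟨m, i⟩ | j | _ <;> rcases r' with _ | ⟨n', j'⟩ | ⟨m', i'⟩ | j' | _ <;>
    simp only [ps, bl, Sum.elim_inl, Sum.elim_inr] at h1 h2 <;>
    first
      | rfl
      | omega
      | (congr <;> ext <;> omega)

lemma card_le {ρ : Type} [Fintype ρ] (b p : ρ → ℕ) (s : ℕ → ℕ) (h1 : ∀ r, p r < s (b r))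
    (h2 : ∀ r r', b r = b r' → p r = p r' → r = r') (β : ℕ) :
    (Finset.univ.filter fun r => b r = β).card ≤ s β := by
  rw [← Finset.card_range (s β)]
  refine Finset.card_le_card_of_injOn p (fun r hr => ?_) fun r hr r' hr' h => ?_
  · have h3 : b r = β := by simpa using hr
    simpa [← h3] using h1 r
  · have h3 : b r = β := by simpa using hr
    have h4 : b r' = β := by simpa using hr'
    exact h2 r r' (h3.trans h4.symm) h

lemma nd_inj {a : π1 → K} {x : σ1 → K} (hu : Injective (uu a x)) (r r' : Unit ⊕ ζ1)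
    (h1 : bl r = bl r') (h2 : Sum.elim (fun _ => (0 : K)) (zu a x) r
      = Sum.elim (fun _ => (0 : K)) (zu a x) r') : r = r' := by
  refine ps_inj r r' h1 ?_
  rcases r with _ | ⟨n, j⟩ | ⟨m, i⟩ | j | _ <;> rcases r' with _ | ⟨n', j'⟩ | ⟨m', i'⟩ | j' | _ <;>
    simp only [ps, bl, Sum.elim_inl, Sum.elim_inr] at h1 ⊢ <;>
    first
      | rfl
      | omega
      | skip
  · have := @hu (.inl (n, j)) (.inl (n', j')) h2
    simp only [Sum.inl.injEq, Prod.mk.injEq] at this
    rw [this.2]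
  · have := @hu (.inr (.inl m)) (.inr (.inl m')) h2
    simp only [Sum.inl.injEq, Sum.inr.injEq] at this
    rw [this]
  · have := @hu (.inr (.inr (.inl j))) (.inr (.inr (.inl j'))) h2
    simp only [Sum.inl.injEq, Sum.inr.injEq] at this
    rw [this]

/-- The matrix of the reduced system. -/
def Mx (cd : CD) (a : π1 → K) (x : σ1 → K) (D1 : Fin 8 → Fin 150 → K) (D2 : Fin 50 → Fin 3 → K)
    (r : Unit ⊕ ζ1) : Fin 1362 ⊕ Fin 8 ⊕ Fin 50 → K :=
  Sum.elim (fun k => Sum.elim (fun _ => if k = 0 then 1 else 0)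
      (fun r => col (cd.ie k % 42) (cd.al k) (zu a x r) (lP (zW a x r))) r)
    (Sum.elim (fun n => Sum.elim (fun _ => 0)
        (Sum.elim (fun i => if n = i.1 then D1 i.1 i.2 else 0) fun _ => 0) r)
      fun m => Sum.elim (fun _ => 0) (Sum.elim (fun _ => 0)
        (Sum.elim (fun i => if m = i.1 then D2 i.1 i.2 else 0) fun _ => 0)) r)

lemma Phi_eq (cd : CD) (a : π1 → K) (x : σ1 → K) (D1 : Fin 8 → Fin 150 → K)
    (D2 : Fin 50 → Fin 3 → K) (vF : Fin 1362 → K) (vT : Fin 8 → K) (vU : Fin 50 → K)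
    (r : Unit ⊕ ζ1) : Phi cd a x D1 D2 vF vT vU r
      = ∑ i, Mx cd a x D1 D2 r i * Sum.elim vF (Sum.elim vT vU) i := by
  rw [Fintype.sum_sum_type, Fintype.sum_sum_type]
  rcases r with _ | ⟨n, j⟩ | ⟨m, i⟩ | j | _ <;>
    simp only [Phi, Mx, Sum.elim_inl, Sum.elim_inr, FF_sum, ite_mul, zero_mul, one_mul,
      Finset.sum_ite_eq', Finset.mem_univ, if_true, Finset.sum_const_zero, add_zero, zero_add,
      mul_comm (vT _), mul_comm (vU _)]

end Cb2

attribute [local irreducible] FF

theorem red1_of (cd : CD) (a : π1 → K) (x : σ1 → K) (L' : Fin 8 → Fin 150 → Fin 7 → K)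
    (R' : Fin 50 → Fin 10 → K) (D1 : Fin 8 → Fin 150 → K) (D2 : Fin 50 → Fin 3 → K)
    (e1 : ∀ n j, (FL cd).d (xF x) (xL x n j) (fun _ => 0) (L' n j) () = D1 n j)
    (e2 : ∀ m i, (FR cd).d (Sum.elim (xF x) fun _ => xU x m) (xR x m)
      (Sum.elim (fun _ => 0) fun _ => 1) (R' m) i = D2 m i)
    (hu : Injective (uu a x)) (h : ∀ β d, d < sz β → RowOK cd a x D1 D2 β d) :
    Red1 cd a x L' R' := by
  have hM : MI (Mx cd a x D1 D2) := mi_of_left (by simp) _ fun y hy =>
    tri_blocks (α := (Fin 1362 → K) × (Fin 8 → K) × (Fin 50 → K)) bl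
      (Sum.elim (fun _ => 0) (zu a x)) (fun v => Phi cd a x D1 D2 v.1 v.2.1 v.2.2)
      (nd_inj hu) sz (card_le bl ps sz ps_lt ps_inj) (fun β d hd => by
        obtain ⟨vF, vT, vU, c, hc, hr⟩ := h β d hd
        exact ⟨(vF, vT, vU), c, hc, hr⟩) y fun v => by
      simp only [Phi_eq, Finset.mul_sum]
      rw [Finset.sum_comm]
      refine Finset.sum_eq_zero fun i _ => ?_
      simp only [← mul_assoc]
      rw [← Finset.sum_mul, hy, zero_mul]
  intro dF dT dU h0 h1 h2 h3 h4
  have := hM (Sum.elim dF (Sum.elim dT dU)) fun r => by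
    rw [← Phi_eq]
    rcases r with _ | ⟨n, j⟩ | ⟨m, i⟩ | j | _
    · exact h0
    · rw [← h1 n j, e1]; rfl
    · rw [← h2 m i, e2]; rfl
    · rw [← h3 j]; exact add_zero _
    · rw [← h4]; exact add_zero _
  exact ⟨funext fun i => congrFun this (.inl i), funext fun i => congrFun this (.inr (.inl i)),
    funext fun i => congrFun this (.inr (.inr i))⟩

end Pool.Agent.P.MP_7ebcb6_ag.SC
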