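import Pool.Agent.P.MP_7ebcb6_ag.SC.D2

/-! The checks imply the conditions of the certificate. -/

namespace Pool.Agent.P.MP_7ebcb6_ag.SC

open Function

variable {K : Type} [Field K]

lemma gok : GOK cd grp := ⟨rfl, rfl, by decide +kernel, by decide +kernel⟩

lemma grp_len : grp.length ≤ 100 := by decide +kernel

lemma sq_tX : sq (fun i : Fin 1049 => tk K tX i.val) = tk K tX := sq_tk (by decide +kernel)

lemma tu_tX : tu (tk K tX) = 1 := by
  rw [tu, tk, show dg tX 861 = 1 by decide +kernel, Nat.cast_one]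

lemma tf_v (t k : ℕ) : ((tf t k).v : K) = tk K t k := rfl

lemma sv_zero (ω : K) {n t : ℕ} (h : ∀ i < n, dg t i = 0) : sv ω n t = 0 := by
  rw [sv, pl_eq]
  exact Finset.sum_eq_zero fun i hi => by rw [h i (Finset.mem_range.mp hi), Nat.cast_zero, zero_mul]

lemma sv_one (ω : K) (t n : ℕ) : sv ω 1 (t >>> (7 * n)) = tk K t n := by
  simp [sv, pl_eq, dg_shift, tk]

lemma blk_cur (n : ℕ) : blk (6 + n) = ⟨(cv n).bL, 7, PL4 7, (cv n).tD, n, 1⟩ := by
  rw [blk, show Nat.blt (6 + n) 5 = false by simp [← Bool.not_eq_true, Nat.blt_eq]; omega,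
    show Nat.beq (6 + n) 5 = false by simp [← Bool.not_eq_true]; omega, cond_false, cond_false,
    Nat.add_sub_cancel_left]

lemma blk_tri (i : Fin 3) : blk (2 + i.val) = ⟨b50, 10, PLt i, nth 0 tD3 i.val, 8, 50⟩ := by
  rw [blk, show Nat.blt (2 + i.val) 5 = true by simp [Nat.blt_eq]; omega, cond_true,
    Nat.add_sub_cancel_left, Fin.ofNat_val_eq_self]

lemma blk_5 : blk 5 = ⟨b68, 5, PL4 5, 0, 0, 0⟩ := rfl

lemma mem_later {k m : ℕ} (h1 : k < m) (h2 : m ≤ 13) : blk m ∈ later k :=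
  List.mem_map_of_mem (List.mem_range'_1.mpr ⟨h1, by omega⟩)

lemma gl_cur (n : Fin 8) : gl n.val = (151, (cv n.val).bL.gn) := by
  rw [gl, Nat.blt_eq.mpr n.2, cond_true]

lemma gl_8 : gl 8 = (69, b68.gn) := rfl
lemma gl_9 : gl 9 = (51, b50.gn) := rfl
lemma gl_10 : gl 10 = (2, 228) := rfl

lemma FF_tk (t : ℕ) (u : K) (W : Fin 4 → K) :
    FF cd (fun i => tk K t i.val) u W = FG u (lP W) grp (tk K t) :=
  FF_grp cd grp gok.ie gok.al gok.sum gok.le (tk K t) u W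

lemma fs_ok [CharP K 101] {g : Grp} {x s n : ℕ} (h : ((FS g).ev
    (Sum.elim (fun i => tf s i.val) fun _ => tu (tf x)) (tW (tf x)) ()).eq n = true) :
    FGb (sq fun i : Fin 1362 => tk K s i.val) (tu (tk K x)) (lP (tW (tk K x))) g 0 = n :=
  fp_eq (FS g) (a' := Sum.elim (fun i => tk K s i.val) fun _ => tu (tk K x))
    (x' := tW (tk K x)) (fun i => by
      cases i
      · exact tf_v s _
      · simp only [Sum.elim_inr, tu, tf_v]) (fun i => tf_v x (869 + i.val)) h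

lemma fch_ok [CharP K 101] {s n : ℕ} (h : (fch s).eq n = true) :
    FF cd (fun i => tk K s i.val) (tu (tk K tX)) (tW (tk K tX)) = n := by
  unfold fch at h
  rw [gok.eq, fs_ok h]

attribute [local irreducible] FF FG FGb cv b50 b68 b27 tX tF grp cd gl blk tD3 dR

/-- The roots that are used in stage 1. -/
structure Rt1 (K : Type) [Field K] where
  L : Fin 8 → Fin 150 → K
  T : Fin 50 → K
  B : Fin 68 → K
  iL : ∀ n, Injective (L n)
  iT : Injective T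
  iB : Injective B
  hL : ∀ n j, (cv n.val).bL.c.ok (L n j) ∧ sv (L n j) 151 (cv n.val).bL.gn = 0 ∧
    svl (L n j) (cv n.val).bL.N (cv n.val).bL.xs (0 : Fin 7) = L n j
  hT : ∀ m, b50.c.ok (T m) ∧ sv (T m) 51 b50.gn = 0 ∧ sv (T m) b50.N 128 = T m
  hB : ∀ j, b68.c.ok (B j) ∧ sv (B j) 69 b68.gn = 0 ∧ svl (B j) b68.N b68.xs (0 : Fin 5) = B j

namespace Rt1

variable (ρ : Rt1 K)

noncomputable def w68 : Fin 68 → Fin 5 → K := fun j => svl (ρ.B j) b68.N b68.xs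

noncomputable def a : π1 → K := mk1 (tk K tX) ρ.w68 (tu (tk K tX)) (tW (tk K tX))

noncomputable def x : σ1 → K := Sum.elim (fun i => tk K tF i.val)
  (Sum.elim (fun n => tk K (cv n.val).ta 0) (Sum.elim ρ.T (Sum.elim (fun p => (cv p.1.val).C K p.2)
    (Sum.elim (fun p => svl (ρ.L p.1 p.2.1) (cv p.1.val).bL.N (cv p.1.val).bL.xs p.2.2)
      fun p => svl (ρ.T p.1) b50.N b50.xs p.2))))

noncomputable def D1 (n : Fin 8) (j : Fin 150) : K := sv (ρ.L n j) (cv n.val).bL.N (cv n.val).tD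

noncomputable def D2 (m : Fin 50) (i : Fin 3) : K := sv (ρ.T m) b50.N (nth 0 tD3 i.val)

/-- The rows of the reduced system at the vector with table `t`. -/
noncomputable def ph (t : ℕ) : Unit ⊕ ζ1 → K := Phi cd ρ.a ρ.x ρ.D1 ρ.D2
  (fun i => tk K (t >>> 406) i.val) (fun n => tk K t n.val) fun m => sv (ρ.T m) 50 (t >>> (7 * 8))

lemma ph_eq (t : ℕ) : ∀ r : ζ1, 2 ≤ bl (.inr r) → (blk (bl (.inr r))).B.c.ok (zu ρ.a ρ.x r) ∧
    ρ.ph t (.inr r) = (blk (bl (.inr r))).val grp (zu ρ.a ρ.x r) t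
  | .inl (n, j), _ => by
    have e : zu ρ.a ρ.x (.inl (n, j)) = ρ.L n j := (ρ.hL n j).2.2
    have e1 : bl (.inr (.inl (n, j))) = 6 + n.val := rfl
    have e2 : ρ.ph t (.inr (.inl (n, j))) = FF cd (fun i => tk K (t >>> 406) i.val)
      (zu ρ.a ρ.x (.inl (n, j))) (w4 (sq (svl (n := 7) (ρ.L n j) (cv n.val).bL.N (cv n.val).bL.xs)))
        + tk K t n.val * ρ.D1 n j := rfl
    rw [e2, e, e1, blk_cur, FF_tk, ← sv_one (ρ.L n j)]
    exact ⟨(ρ.hL n j).1, rfl⟩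
  | .inr (.inl (m, i)), _ => by
    have e1 : bl (.inr (.inr (.inl (m, i)))) = 2 + i.val := rfl
    have e2 : ρ.ph t (.inr (.inr (.inl (m, i)))) = FF cd (fun i => tk K (t >>> 406) i.val)
      (ρ.T m) (trW (sq (svl (n := 10) (ρ.T m) b50.N b50.xs)) i)
        + sv (ρ.T m) 50 (t >>> (7 * 8)) * ρ.D2 m i := rfl
    rw [e2, e1, blk_tri, FF_tk]
    exact ⟨(ρ.hT m).1, rfl⟩
  | .inr (.inr (.inl j)), _ => by
    have e : zu ρ.a ρ.x (.inr (.inr (.inl j))) = ρ.B j := (ρ.hB j).2.2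
    have e1 : bl (.inr (.inr (.inr (.inl j)))) = 5 := rfl
    have e2 : ρ.ph t (.inr (.inr (.inr (.inl j)))) = FF cd (fun i => tk K (t >>> 406) i.val)
      (zu ρ.a ρ.x (.inr (.inr (.inl j)))) (w4 (sq (svl (n := 5) (ρ.B j) b68.N b68.xs))) + 0 := rfl
    rw [e2, e, e1, blk_5, FF_tk, B0.val, sv_zero (n := 0) _ fun _ h => absurd h (Nat.not_lt_zero _),
      zero_mul]
    exact ⟨(ρ.hB j).1, rfl⟩
  | .inr (.inr (.inr _)), h => absurd (show 2 ≤ 1 from h) (by omega)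

lemma bl_le : ∀ r : Unit ⊕ ζ1, bl r ≤ 13
  | .inl _ => Nat.zero_le _
  | .inr (.inl (n, _)) => show 6 + n.val ≤ 13 by omega
  | .inr (.inr (.inl (_, i))) => show 2 + i.val ≤ 13 by omega
  | .inr (.inr (.inr (.inl _))) => show 5 ≤ 13 by omega
  | .inr (.inr (.inr (.inr _))) => show 1 ≤ 13 by omega

lemma bl_lt : ∀ r : Unit ⊕ ζ1, bl r < 2 → r = .inl () ∨ r = .inr (.inr (.inr (.inr ())))
  | .inl _, _ => .inl rfl
  | .inr (.inl (n, _)), h => absurd (show 6 + n.val < 2 from h) (by omega)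
  | .inr (.inr (.inl (_, i))), h => absurd (show 2 + i.val < 2 from h) (by omega)
  | .inr (.inr (.inr (.inl _))), h => absurd (show 5 < 2 from h) (by omega)
  | .inr (.inr (.inr (.inr _))), _ => .inr rfl

lemma ph_zero {t k : ℕ} (h : ∀ b ∈ later k, ∀ ω : K, b.B.c.ok ω → b.val grp ω t = 0) (hk : 1 ≤ k) :
    ∀ r, k < bl r → ρ.ph t r = 0
  | .inl _, hr => absurd hr (Nat.not_lt_zero _)
  | .inr r, hr => (ρ.ph_eq t r (by omega)).2.trans
    (h _ (mem_later hr (bl_le _)) _ (ρ.ph_eq t r (by omega)).1)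

lemma rowOK {k d : ℕ} (hk : 2 ≤ k) (h : Row K grp (blk k) (later k) d) :
    RowOK cd ρ.a ρ.x ρ.D1 ρ.D2 k d := by
  obtain ⟨t, q, h1, h2, h3⟩ := h
  refine ⟨_, _, _, q, h1, fun r => ⟨fun hr => ?_, ρ.ph_zero h3 (by omega) r⟩⟩
  subst hr
  rcases r with r | r
  · exact absurd (show 2 ≤ 0 from hk) (by omega)
  · exact (ρ.ph_eq t r hk).2.trans (h2 _ (ρ.ph_eq t r hk).1)

variable [CharP K 101]

lemma ph_ch {t n : ℕ} (h : (fch (t >>> 406)).eq n = true) :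
    ρ.ph t (.inr (.inr (.inr (.inr ())))) = n := by
  have e : ρ.ph t (.inr (.inr (.inr (.inr ())))) = FF cd (fun i => tk K (t >>> 406) i.val)
    (tu (tk K tX)) (tW (tk K tX)) + 0 := rfl
  rw [e, add_zero, fch_ok h]

lemma zF (G : Glob) : (S1f cd).Z ρ.a ρ.x := fun r => by
  have e0 : tF <<< 406 >>> 406 = tF := Nat.shiftLeft_shiftRight ..
  have h : ρ.ph (tF <<< 406) (.inr r) = 0 := by
    by_cases hr : 1 < bl (.inr r)
    · exact ρ.ph_zero (fun b hb ω hc => chkR0_ok grp_len G.r0 List.mem_cons_self hb hc) le_rfl _ hr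
    · obtain h | h := bl_lt (.inr r) (by omega)
      · cases h
      · rw [h, ρ.ph_ch (n := 0) (e0.symm ▸ G.f0), Nat.cast_zero]
  have e1 : (fun n : Fin 8 => tk K (tF <<< 406) n.val) = fun _ => 0 := funext fun n => by
    rw [tk, (by decide +kernel : ∀ n : Fin 8, dg (tF <<< 406) n.val = 0), Nat.cast_zero]
  have e2 : (fun m => sv (ρ.T m) 50 (tF <<< 406 >>> (7 * 8))) = fun _ => 0 := funext fun m =>
    sv_zero _ (by decide +kernel)
  rw [ph, e0, e1, e2] at h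
  refine Eq.trans ?_ h
  rcases r with r | r | r <;> simp only [Phi, Sum.elim_inl, Sum.elim_inr, zero_mul, add_zero] <;> rfl

lemma f0 : xF ρ.x 0 = 1 := by
  change tk K tF 0 = 1
  rw [tk, show dg tF 0 = 1 by decide +kernel, Nat.cast_one]

lemma row0 (G : Glob) : RowOK cd ρ.a ρ.x ρ.D1 ρ.D2 0 0 := by
  refine ⟨xF ρ.x, fun _ => 0, fun _ => 0, fun _ => 1, rfl, fun r => ⟨fun hr => ?_, fun hr => ?_⟩⟩
  · obtain rfl | rfl := bl_lt r (by omega)
    · exact ρ.f0.trans (by simp [pl_eq])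
    · exact absurd hr (by decide)
  · rcases r with r | r
    · exact absurd hr (Nat.lt_irrefl 0)
    · refine Eq.trans ?_ (ρ.zF G r)
      rcases r with r | r | r <;>
        simp only [Phi, Sum.elim_inl, Sum.elim_inr, zero_mul, add_zero] <;> rfl

lemma row1 (G : Glob) : RowOK cd ρ.a ρ.x ρ.D1 ρ.D2 1 0 := by
  obtain ⟨t, h1, h2⟩ := G.r1
  refine ⟨_, _, _, fun _ => 1, rfl, fun r => ⟨fun hr => ?_, ρ.ph_zero (t := t)
    (fun b hb ω hc => chkR0_ok grp_len h1 List.mem_cons_self hb hc) le_rfl r⟩⟩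
  obtain rfl | rfl := bl_lt r (by omega)
  · exact absurd hr (by decide)
  · exact (ρ.ph_ch h2).trans (by simp [pl_eq])

lemma inj (G : Glob) (hC : ∀ n : Fin 8, CP (cv n.val).bL n.val) : Injective (uu ρ.a ρ.x) := by
  have cp : ∀ {B : BD} {k : ℕ} {ω : K}, CP B k → B.c.ok ω → ∀ β, k < β → β ≤ 10 →
      sv ω (gl β).1 (gl β).2 ≠ 0 := fun ⟨i, hi⟩ hc β h1 h2 => BD.cop_ok _ hi hc
    (List.mem_map_of_mem (List.mem_range'_1.mpr ⟨h1, by omega⟩))
  refine uu_inj ρ.a ρ.x (fun β ω => sv ω (gl β).1 (gl β).2)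
    (fun n => inj_of_eq (ρ.iL n) fun j => (ρ.hL n j).2.2) ρ.iT
    (inj_of_eq ρ.iB fun j => (ρ.hB j).2.2) ?_ ?_
  · rintro (⟨n, j⟩ | m | j | r)
    · have e : uu ρ.a ρ.x (.inl (n, j)) = ρ.L n j := (ρ.hL n j).2.2
      rw [e, show fam (.inl (n, j)) = n.val from rfl, gl_cur]
      exact (ρ.hL n j).2.1
    · rw [show fam (.inr (.inl m)) = 9 from rfl, gl_9]
      exact (ρ.hT m).2.1
    · have e : uu ρ.a ρ.x (.inr (.inr (.inl j))) = ρ.B j := (ρ.hB j).2.2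
      rw [e, show fam (.inr (.inr (.inl j))) = 8 from rfl, gl_8]
      exact (ρ.hB j).2.1
    · have e : uu ρ.a ρ.x (.inr (.inr (.inr r))) = 1 := tu_tX
      rw [e, show fam (.inr (.inr (.inr r))) = 10 from rfl, gl_10, ← c101 (K := K)]
      simp [sv, pl_eq, Finset.sum_range_succ, dg_eq]
      norm_num
  · rintro (⟨n, j⟩ | m | j | r) β h1 h2
    · have e : uu ρ.a ρ.x (.inl (n, j)) = ρ.L n j := (ρ.hL n j).2.2
      rw [e]
      exact cp (hC n) (ρ.hL n j).1 β h1 h2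
    · exact cp G.p9 (ρ.hT m).1 β h1 h2
    · have e : uu ρ.a ρ.x (.inr (.inr (.inl j))) = ρ.B j := (ρ.hB j).2.2
      rw [e]
      exact cp G.p8 (ρ.hB j).1 β h1 h2
    · exact absurd (show 10 < β from h1) (by omega)

lemma rk_u (m : Fin 50) : RK (ρ.T m) (inp b50.c 128) (ρ.T m) := by
  have := rk_inp (c := b50.c) (ω := ρ.T m) 128
  rwa [show sv (ρ.T m) b50.c.N 128 = ρ.T m from (ρ.hT m).2.2] at this

theorem good (G : Glob) (hK : ∀ n : Fin 8, Chk cd grp tX tF n (cv n.val))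
    (hC : ∀ n : Fin 8, CP (cv n.val).bL n.val)
    (hR : ∀ k d, 2 ≤ k → d < sz k → Row K grp (blk k) (later k) d) :
    Good (S1 cd) O1 ρ.a ρ.x := by
  have hL := fun n j => (hK n).lin gok (ρ.hL n j).1
  have hu := fun m => rk_elim (rk_tb7 (ρ.hT m).1 tX) fun _ : Unit => ρ.rk_u m
  have hT := fun m => b50.good G.c50 (mem_sl mem_fr2 List.mem_finRange) (ρ.hT m).1 (hu m)
  refine ⟨Sys.Z_app.mpr ⟨fun t => (hK t.1).cur.1 t.2, Sys.Z_app.mpr ⟨fun t =>
    (hL t.1 t.2.1).1.eq t.2.2, Sys.Z_app.mpr ⟨fun t => (hT t.1).eq t.2, Sys.Z_app.mpr ⟨ρ.zF G,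
      fun _ => sub_eq_zero.mpr (ρ.f0.trans Nat.cast_one.symm)⟩⟩⟩⟩,
    Sys.NZ_app.mpr ⟨fun t => (hL t.1 t.2.1).1.op t.2.2, fun t => (hT t.1).op t.2⟩,
    s1_inj (C' := fun n => (cv n.val).C' K)
      (L' := fun n j => svl (ρ.L n j) (cv n.val).bL.N (cv n.val).dL)
      (R' := fun m => svl (ρ.T m) b50.N dR)
      ⟨fun n => (hK n).cur.2.1, fun n j => (hL n j).1.inj, fun m => (hT m).inj,
        fun n => (hK n).cur.2.2, fun n j => (hL n j).2.1, fun m => b50.tan_ok G.t50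
          List.mem_finRange (ρ.hT m).1 (hu m) (rk_elim (fun _ => rk_zero (ρ.hT m).1)
            fun _ => rk_one (ρ.hT m).1) fun _ => rk_zero (ρ.hT m).1⟩
      (red1_of cd _ _ _ _ ρ.D1 ρ.D2 (fun n j => (hL n j).2.2) (fun m i => (gok.dR ..).trans
        (b50.tan_ok (z' := ρ.D2 m) G.d50 List.mem_finRange (ρ.hT m).1
          (rk_elim (fun i => rk_tb7 (ρ.hT m).1 tF i.val) fun _ => ρ.rk_u m)
          (rk_elim (fun _ => rk_zero (ρ.hT m).1) fun _ => rk_one (ρ.hT m).1)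
          (fun _ => rk_inp _) i)) (ρ.inj G hC) fun k d hd => ?_)⟩
  by_cases hk : 2 ≤ k
  · exact ρ.rowOK hk (hR k d hk hd)
  · rw [sz, if_pos (by omega)] at hd
    obtain rfl : d = 0 := by omega
    obtain rfl | rfl : k = 0 ∨ k = 1 := by omega
    exacts [ρ.row0 G, ρ.row1 G]

end Rt1

end Pool.Agent.P.MP_7ebcb6_ag.SC
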