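import Pool.Agent.P.MP_7ebcb6_ag.SC.St3
import Pool.Agent.P.MP_7ebcb6_ag.FD.St

/-! Statements, part 4: the generic member is an irreducible surface. -/

open scoped LinearAlgebra.Projectivization

namespace Pool.Agent.P.MP_7ebcb6_ag.SC

open G8 MvPolynomial

noncomputable section

section

variable {R : Type} [Add R] [Sub R] [Mul R] [NatCast R] (k : Fin 6 → R) (g : Fin 20 → R) (y z : R)

def qL : R := k 0 + k 1 * y + k 2 * z
def qQ : R := k 3 * y + k 4 * z + k 5 * (y * z)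
def qw : Fin 4 → R := v4 ((0 : ℕ) : R) ((1 : ℕ) : R) y z

/-- The projection of the curve `k = g = 0` from the point `ee 0`, in the chart `Y 1 = 1`. -/
def quin : R :=
  ((3 : ℕ) : R) * (qQ k y z * qQ k y z) * tri g (ee 0) (ee 0) (qw y z)
    - ((3 : ℕ) : R) * (qQ k y z * qL k y z) * tri g (ee 0) (qw y z) (qw y z)
    + qL k y z * qL k y z * tri g (qw y z) (qw y z) (qw y z)

end

/-- The plane quintic of the fibre through the point of the table. -/
def quinP {K : Type} [Field K] (T : ℕ → K) : MvPolynomial (Fin 2) K :=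
  quin (fun i => C ((Pen.of T).ks (af (tu T)) i)) (fun i => C ((Pen.of T).G (af (tu T)) i))
    (X 0) (X 1)

/-- The equation of the projected surface in the variables `u, y, z`. -/
def quin3 (T : ℕ → ℂ) : MvPolynomial (Fin 3) ℂ :=
  quin ((Pen.of fun i => C (T i)).ks (af (X 0))) ((Pen.of fun i => C (T i)).G (af (X 0)))
    (X 1) (X 2)

structure Ext {K : Type} [Field K] (T : ℕ → K) : Prop where
  irr : Irreducible (quinP T)
  deg : (quinP T).totalDegree = 5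
  hB : (Pen.of T).B (af (tu T)) ≠ 0
  hL : (Pen.of T).ks (af (tu T)) 0 * ty T 1 + (Pen.of T).ks (af (tu T)) 1 * ty T 2
    + (Pen.of T).ks (af (tu T)) 2 * ty T 3 ≠ 0

instance fact101 : Fact (Nat.Prime 101) := ⟨by norm_num⟩

/-- The algebraic closure of the field with 101 elements. -/
abbrev T101 : Type := AlgebraicClosure (ZMod 101)

def kv : Fin 6 → ℕ := ![95, 76, 9, 48, 70, 28]
def gv : Fin 20 → ℕ := ![0, 15, 13, 78, 27, 13, 74, 98, 100, 97, 0, 91, 91, 22, 40, 53, 0, 28, 54, 0]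
def yv : Fin 4 → ℕ := ![1, 39, 34, 91]

/-- Some values of the table of the certificate. -/
structure Vals (T : ℕ → T101) : Prop where
  k : (Pen.of T).ks (af (tu T)) = cst kv
  g : (Pen.of T).G (af (tu T)) = cst gv
  b : (Pen.of T).B (af (tu T)) = ((100 : ℕ) : T101)
  y : ty T = cst yv

def S_CERT2 (cd : CD) : Prop := ∃ (d0 : Dat0 T101) (d1 : Dat1 T101),
  Good0 cd d0 ∧ Good1 cd d0.par d0.b27 d1 ∧ Vals (sq d0.x)

/-- A plane curve that is irreducible over the prime field and smooth at the origin is absolutely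
irreducible. -/
def S_ABS : Prop := ∀ (p : ℕ) [Fact p.Prime] (φ : MvPolynomial (Fin 2) (ZMod p)), Irreducible φ →
  coeff 0 φ = 0 → (∃ i, coeff (Finsupp.single i 1) φ ≠ 0) →
  Irreducible (map (algebraMap (ZMod p) (AlgebraicClosure (ZMod p))) φ)

def S_EXT0 : Prop := ∀ T : ℕ → T101, Vals T → Ext T

def S_EXTU : Prop := ∀ (K L : Type) [Field K] [Field L] (pl : Plc K L) (T : ℕ → K) (T' : ℕ → L),
  MV pl.G T T' → Ext T' → Ext T

def S_FAC : Prop := ∀ T : ℕ → ℂ, Ext T → ∃ (c : Polynomial ℂ) (φ : MvPolynomial (Fin 3) ℂ),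
  quin3 T = Polynomial.aeval (X 0) c * φ ∧ c.eval (tu T) ≠ 0 ∧ Prime φ ∧
    ∀ P : MvPolynomial (Fin 2) ℂ, φ ∣ rename Fin.castSucc P → P = 0

/-- The coordinates of `ℙ⁷` as Segre coordinates. -/
def RX : Fin 2 × Fin 4 → MvPolynomial (Fin (7 + 1)) ℂ := fun j => X (finProdFinEquiv j)

def S_PAR : Prop := ∀ (cd : CD) (s : Fin 30 → ℂ) (x : Fin 1049 → ℂ), Good (S0 cd) O0 s x →
  Rel (sq x) → (Pen.of (sq x)).Id → Ext (sq x) →
  ∀ (c : Polynomial ℂ) (φ : MvPolynomial (Fin 3) ℂ), quin3 (sq x) = Polynomial.aeval (X 0) c * φ →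
  c.eval (tu (sq x)) ≠ 0 →
  ∃ (N : Fin (7 + 1) → MvPolynomial (Fin 2 ⊕ Fin 4) ℂ) (d : ℕ × ℕ)
    (N' : Fin (7 + 1) → MvPolynomial (Fin 3) ℂ), Model (memX (sq x)) N RX d 1 ∧
    (∃ i, eval (ptOf (parX (sq x))) (N i) ≠ 0) ∧
    image (memX (sq x)).surface N = zariskiClosure (FD.im {q | eval q φ = 0} N') ∧
    (∃ q, eval q φ = 0 ∧ eval q (N' 1) ≠ 0) ∧ N' 5 = X 0 * N' 1 ∧ N' 2 = X 1 * N' 1

def S_SUR : Prop := ∀ (n : ℕ) (φ : MvPolynomial (Fin 3) ℂ) (N : Fin (n + 1) → MvPolynomial (Fin 3) ℂ)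
  (a b c : Fin (n + 1)), Prime φ → (∃ q, eval q φ = 0 ∧ eval q (N a) ≠ 0) → N b = X 0 * N a →
  N c = X 1 * N a → (∀ P : MvPolynomial (Fin 2) ℂ, φ ∣ rename Fin.castSucc P → P = 0) →
  FD.IsSurface (zariskiClosure (FD.im {q | eval q φ = 0} N))

end

end Pool.Agent.P.MP_7ebcb6_ag.SC
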