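import Pool.Agent.P.MP_7ebcb6_ag.SC.Cq
import Pool.Agent.P.MP_7ebcb6_ag.SC.St4

/-! The certificate from the checks. -/

namespace Pool.Agent.P.MP_7ebcb6_ag.SC

open Function

section

variable {K : Type} [Field K] [CharP K 101]

lemma tf_par (t : ℕ) (i : πL) : ((parX (tf t) i).v : K) = parX (tk K t) i := by
  rcases i with i | i | i
  exacts [hom_fp.ta .., tf_v t 861, hom_fp.ty ..]

lemma lm_ok {x t : ℕ} (h : (lT.all fun r => fr1 (t >>> (420 * eT r)) fun v => lT.all fun r' =>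
    (LM.ev (parX (tf x)) (fun s => tf v (eS s)) r').eq (if r = r' then 1 else 0)) = true) :
    OntoL (parX (tk K x)) := by
  have m : ∀ r, r ∈ lT := mem_sl mem_fr2 (mem_sl List.mem_finRange mem_unit)
  simp only [fr1_eq, List.all_eq_true] at h
  refine onto_of _ (fun r s => tk K (t >>> (420 * eT r)) (eS s)) fun r r' => ?_
  rw [fp_eq LM (tf_par x) (fun s => tf_v _ (eS s)) (h r (m r) r' (m r'))]
  split_ifs <;> simp

lemma vs_ok {x : ℕ} (h : ((sl (List.finRange 6) (sl (List.finRange 20) (sl [()]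
    (List.finRange 4)))).all fun t => (VS.ev (tf x) (fun _ => tf 0 0) t).eq (vsv t)) = true) (t) :
    VS.ev (tk K x) (fun _ => tk K 0 0) t = vsv t :=
  fp_eq VS (tf_v x) (fun _ => tf_v 0 0) (List.all_eq_true.mp h t (mem_sl List.mem_finRange
    (mem_sl List.mem_finRange (mem_sl mem_unit List.mem_finRange)) t))

lemma rk_s {c : Cfg} {ω : K} (hc : c.ok ω) (i : ℕ ⊕ Unit) :
    RK ω (aXs c i) (pu (tk K tX) (cd.us : K) i) :=
  rk_elim (rk_tb7 hc tX) (fun _ => (cp_RK hc).nat _) i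

lemma rc_ok {k d n : ℕ} (h : RC k d n) {i : ℕ} (h1 : d ≤ i) (h2 : i < d + n) :
    Row K grp (blk k) (later k) i :=
  let ⟨_, e, h⟩ := h
  chkR_ok grp_len h h1 (e ▸ h2)

end

instance : CharP T101 101 := inferInstance

theorem cert_of (G : Glob) {s : Fin 30 → T101}
    (hS : Good (S0 cd) O0 s fun i => tk T101 tX i.val)
    (hK : ∀ n : Fin 8, Chk cd grp tX tF n (cv n.val)) (hC : ∀ n : Fin 8, CP (cv n.val).bL n.val)
    (hR : ∀ k d, 2 ≤ k → d < sz k → Row T101 grp (blk k) (later k) d) : S_CERT2 cd := by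
  obtain ⟨ω12, a1, a2⟩ := b12.fam (K := T101) G.s12 (N := 12) rfl (k := (0 : Fin 1))
    (by decide +kernel)
  obtain ⟨ω78, b1, b2⟩ := b78.fam (K := T101) G.s78 (N := 78) rfl (k := (0 : Fin 6))
    (by decide +kernel)
  obtain ⟨ω10, c1, c2⟩ := b10.fam (K := T101) G.s10 (N := 10) rfl (k := (0 : Fin 1))
    (by decide +kernel)
  obtain ⟨ω3, d1, d2⟩ := b3.fam (K := T101) G.s3 (N := 3) rfl (k := (0 : Fin 1))
    (by decide +kernel)
  obtain ⟨ω27, e1, e2⟩ := b27.fam (K := T101) G.s27 (N := 27) rfl (k := (0 : Fin 4))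
    (by decide +kernel)
  obtain ⟨B, f1, f2⟩ := b68.fam (K := T101) G.s68 (N := 68) rfl (k := (0 : Fin 5))
    (by decide +kernel)
  obtain ⟨T, g1, g2⟩ := b50.roots (K := T101) G.s50 (N := 50) rfl
  choose L h1 h2 using fun n : Fin 8 =>
    (cv n.val).bL.fam (K := T101) (hK n).s1 (hK n).n1 (k := (0 : Fin 7)) (hK n).x1
  choose l40 l24 hA using fun n : Fin 8 => (hK n).att (K := T101)
  obtain ⟨V, l, h27⟩ := G.l27
  obtain ⟨t, hlm⟩ := G.lm
  obtain ⟨i27, hf⟩ := G.f27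
  let ρ : Rt1 T101 := ⟨L, T, B, h1, g1, f1, fun n j => by
    have := h2 n j
    rwa [show (cv n.val).bL.N + 1 = 151 by rw [(hK n).n1]] at this, g2, f2⟩
  refine ⟨⟨s, fun i => tk T101 tX i.val, fun j => svl (ω12 j) b12.N b12.xs,
    fun j => svl (ω78 j) b78.N b78.xs, fun j => svl (ω10 j) b10.N b10.xs,
    fun j => svl (ω27 j) b27.N b27.xs, fun j => svl (ω3 j) b3.N b3.xs, ρ.w68⟩,
    ⟨ρ.x, fun n => (cv n.val).J T101, l40, l24⟩, ⟨hS, ?_, inj_of_eq a1 fun j => (a2 j).2.2,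
      ⟨?_, inj_of_eq b1 fun j => (b2 j).2.2, ?_, inj_of_eq c1 fun j => (c2 j).2.2, ?_,
        inj_of_eq d1 fun j => (d2 j).2.2⟩, ⟨?_, inj_of_eq e1 fun j => (e2 j).2.2, ?_⟩, ?_, ?_⟩,
    ?_, ?_⟩ <;> simp only [Dat0.par, sq_tX]
  · exact fun j => b12.good G.c12 (mem_sl mem_fr2 mem_unit) (a2 j).1 (rk_tb7 (a2 j).1 tX)
  · exact fun j => b78.good G.c78 List.mem_finRange (b2 j).1 (rk_tb7 (b2 j).1 tX)
  · exact fun j => b10.good G.c10 List.mem_finRange (c2 j).1 (rk_tb7 (c2 j).1 tX)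
  · exact fun j => b3.good G.c3 List.mem_finRange (d2 j).1 (rk_s (d2 j).1)
  · exact fun j => b27.good G.c27 List.mem_finRange (e2 j).1 (rk_s (e2 j).1)
  · exact chkM_ok (l27_eq cd _) h27 fun i => by
      cases i
      exacts [tf_v tX _, rfl]
  · exact fun j => b68.good G.c68 List.mem_finRange (f2 j).1 (rk_tb7 (f2 j).1 tX)
  · exact lm_ok hlm
  · refine ⟨ρ.good G hK hC hR, ρ.inj G hC, hA, fun j => ?_⟩
    rw [gok.eq]
    exact b27.opn_ok (a' := Sum.elim (fun i => tk T101 tF i.val) fun _ => (cd.us : T101)) hf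
      (e2 j).1 (rk_elim (fun i => rk_tb7 (e2 j).1 tF i.val) fun _ => (cp_RK (e2 j).1).nat _)
      (mem_unit ())
  · have h := vs_ok (K := T101) G.vals
    exact ⟨funext fun i => h (.inl i), funext fun i => h (.inr (.inl i)), h (.inr (.inr (.inl ()))),
      funext fun i => h (.inr (.inr (.inr i)))⟩

end Pool.Agent.P.MP_7ebcb6_ag.SC
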