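import Pool.Agent.P.MP_7ebcb6_ag.SC.D1

/-! The list of the remaining checks. -/

namespace Pool.Agent.P.MP_7ebcb6_ag.SC

noncomputable def aX7 (c : Cfg) : ℕ → PK c := tb7 c tX

noncomputable def aXs (c : Cfg) : ℕ ⊕ Unit → PK c := pu (tb7 c tX) ((cd.us : ℕ) : PK c)

noncomputable def aXu (c : Cfg) : ℕ ⊕ Unit → PK c := pu (tb7 c tX) (inp c 128)

def eT : τL → ℕ :=
  Sum.elim (fun i => 10 * i.1.val + i.2.val) (Sum.elim (fun p => 40 + p.val) fun _ => 46)

def eS : σL → ℕ := Sum.elim (fun i => 4 * i.1.val + i.2.val) (Sum.elim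
  (fun i => 24 + 7 * i.1.val + i.2.val) (Sum.elim (fun m => 52 + m.val) fun i => 56 + i.val))

def lT : List τL := sl (fr2 4 10) (sl (List.finRange 6) [()])

/-- Some values of the table. -/
def VS : Sys ℕ Unit (Fin 6 ⊕ Fin 20 ⊕ Unit ⊕ Fin 4) where
  ev {R} _ _ _ _ a _ t := Sum.elim ((Pen.of a).ks (af (tu a))) (Sum.elim ((Pen.of a).G (af (tu a)))
    (Sum.elim (fun _ => (Pen.of a).B (af (tu a))) (ty a))) t
  nat {R S} _ _ _ _ _ _ _ _ f h a x t := by
    rcases t with i | i | i | i <;>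
      simp only [Sum.elim_inl, Sum.elim_inr, h.ks, h.G, h.B, h.ty, h.af, tu, Pen.map_of]

def vsv : Fin 6 ⊕ Fin 20 ⊕ Unit ⊕ Fin 4 → ℕ := Sum.elim ![95, 76, 9, 48, 70, 28] (Sum.elim
  ![0, 15, 13, 78, 27, 13, 74, 98, 100, 97, 0, 91, 91, 22, 40, 53, 0, 28, 54, 0]
  (Sum.elim (fun _ => 100) ![1, 39, 34, 91]))

/-- The form with table `t` on the chord. -/
noncomputable def fch (t : ℕ) : Fp :=
  (FS grp).ev (Sum.elim (fun i => tf t i.val) fun _ => tu (tf tX)) (tW (tf tX)) ()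

structure Glob : Prop where
  s12 : b12.sep = true
  c12 : b12.chk B12E B12O aX7 (sl (fr2 4 4) [()]) = true
  s78 : b78.sep = true
  c78 : b78.chk (B78E cd) (B78O cd) aX7 (List.finRange 5) = true
  s10 : b10.sep = true
  c10 : b10.chk B10E (B10O cd) aX7 (List.finRange 4) = true
  s3 : b3.sep = true
  c3 : b3.chk (B3E cd) (B3O cd) aXs (List.finRange 4) = true
  s27 : b27.sep = true
  c27 : b27.chk LS (O27 cd) aXs (List.finRange 6) = true
  s68 : b68.sep = true
  c68 : b68.chk (B68E cd) B68O aX7 (List.finRange 2) = true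
  s50 : b50.sep = true
  c50 : b50.chk TS TO aXu (sl (fr2 3 4) (List.finRange 4)) = true
  t50 : b50.tan TS aXu (fun c => pu (zr c) ((1 : ℕ) : PK c)) dR zr (List.finRange 10) = true
  d50 : b50.tan (FRf grp) (fun c => Sum.elim (fun i => tb7 c tF i.val) fun _ => inp c 128)
    (fun c => Sum.elim (zr c) fun _ => ((1 : ℕ) : PK c)) dR (fun c i => inp c (nth 0 tD3 i.val))
    (List.finRange 3) = true
  f27 : ∃ i, b27.opn (FS grp)
    (fun c => Sum.elim (fun i => tb7 c tF i.val) fun _ => ((cd.us : ℕ) : PK c)) [()] i = true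
  l27 : ∃ V l, chkM (l27 cd (pu (tf tX) (cd.us : Fp))) 126 V l = true
  lm : ∃ t, (lT.all fun r => fr1 (t >>> (420 * eT r)) fun v => lT.all fun r' =>
    (LM.ev (parX (tf tX)) (fun s => tf v (eS s)) r').eq (if r = r' then 1 else 0)) = true
  vals : ((sl (List.finRange 6) (sl (List.finRange 20) (sl [()] (List.finRange 4)))).all fun t =>
    (VS.ev (tf tX) (fun _ => tf 0 0) t).eq (vsv t)) = true
  p8 : CP b68 8
  p9 : CP b50 9
  r0 : chkR0 grp (later 1) [tF <<< 406] = true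
  f0 : (fch tF).eq 0 = true
  r1 : ∃ t, chkR0 grp (later 1) [t] = true ∧ (fch (t >>> 406)).eq 1 = true

end Pool.Agent.P.MP_7ebcb6_ag.SC
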