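import Pool.Agent.P.MP_7ebcb6_ag.SC.All
import Pool.Agent.P.MP_7ebcb6_ag.SC.St4
import Pool.Agent.P.MP_7ebcb6_ag.FD.Glue

/-! The main theorem and an example, from the certificate. -/

open scoped LinearAlgebra.Projectivization

namespace Pool.Agent.P.MP_7ebcb6_ag.SC

open G8 MvPolynomial

theorem cert_of_cert2 {cd : CD} (h : S_CERT2 cd) : S_CERT cd :=
  let ⟨d0, d1, g0, g1, _⟩ := h
  ⟨T101, inferInstance, inferInstance, d0, d1, g0, g1⟩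

theorem finDim_of (hG : GenRel) (D : Member ℂ)
    (hD : GoodLine D.a) (hC : D.Compat) {n : ℕ} {N : Fin (n + 1) → MvPolynomial (Fin 2 ⊕ Fin 4) ℂ}
    {R : Fin 2 × Fin 4 → MvPolynomial (Fin (n + 1)) ℂ} {d : ℕ × ℕ} {e : ℕ} (M : Model D N R d e)
    {p₀ : Pt} (hU : p₀.U 0 = 1) (hY : p₀.Y 0 = 1) (hp : p₀ ∈ D.surface) (hf : Free D.a p₀)
    (ho : Onto D.a p₀) (hN : ∃ i, eval p₀ (N i) ≠ 0)
    (hR : ∃ j, eval (fun i => eval p₀ (N i)) (R j) ≠ 0) (hS : FD.IsSurface (image D.surface N)) :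
    FD.FinDim (image D.surface N) := by
  obtain ⟨F, r, h1, h2, h3⟩ := main_of hG all_ZERO all_T all_F D hD hC M hU hY hp hf ho hN hR
  have hne : (fun i => eval p₀ (N i)) ≠ 0 := Function.ne_iff.mpr hN
  exact FD.w2 n _ (FD.irrIm n _ D.surface N).1 hS F r h1 ⟨Projectivization.mk ℂ _ hne,
    fun P d _ h => h _ ⟨p₀, hp, hne, rfl⟩, fun h => h2 ((FD.IrrP.eval_rep_mk h1 _ hne).1 h)⟩ h3

theorem example_of {cd : CD} (hC : S_CERT2 cd) (h0 : S_EXT0) (hU : S_EXTU) (hF : S_FAC)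
    (hP : S_PAR) (hS : S_SUR) : ∃ (D : Member ℂ) (p₀ : Pt) (d : ℕ × ℕ)
    (N : Fin (7 + 1) → MvPolynomial (Fin 2 ⊕ Fin 4) ℂ), GoodLine D.a ∧ D.Compat ∧
    Model D N RX d 1 ∧ p₀.U 0 = 1 ∧ p₀.Y 0 = 1 ∧ p₀ ∈ D.surface ∧ Free D.a p₀ ∧ Onto D.a p₀ ∧
    (∃ i, eval p₀ (N i) ≠ 0) ∧ (∃ j, eval (fun i => eval p₀ (N i)) (RX j) ≠ 0) ∧
    FD.IsSurface (image D.surface N) := by
  obtain ⟨e0, -, g0, -, hv⟩ := hC
  obtain ⟨s, hs⟩ := exists_indep 30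
  have hz : AlgebraicIndependent ℤ s := hs.restrictScalars (algebraMap ℤ ℚ).injective_int
  obtain ⟨pl, hpl⟩ := exists_pl (aeval (R := ℤ) s).toRingHom hz (aeval (R := ℤ) e0.s).toRingHom
  have hm : MV pl.G s e0.s := fun i => by simpa using hpl (X i)
  obtain ⟨d, rfl, G0, hp, -⟩ := thm_UP0 cd ℂ T101 pl s e0 hm g0
  have hE : Ext (sq d.x) := hU ℂ T101 pl _ _ (fun i => hp (.inl i)) (h0 _ hv)
  have hrel := thm_REL cd _ _ G0.s0.eq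
  obtain ⟨-, k2, k3, k4, k5⟩ := thm_G0 cd _ _ G0.s0 hrel
  obtain ⟨h7, h8⟩ := all_CV.2.1 _ _ k3
  obtain ⟨c, φ, e, hc, hφ, hd⟩ := hF _ hE
  obtain ⟨N, dd, N', M, ⟨i, hi⟩, eI, hq, e5, e2⟩ :=
    hP cd _ _ G0.s0 hrel (thm_ID thm_DT0 cd d G0) hE c φ e hc
  refine ⟨memX (sq d.x), ptOf (parX (sq d.x)), dd, N, k2, h7, M, af_0 (tu (sq d.x)), Nat.cast_one,
    h8 k4, k5, (all_CV.1 _).mp G0.onto, ⟨i, hi⟩, ⟨finProdFinEquiv.symm i, ?_⟩, ?_⟩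
  · rwa [RX, Equiv.apply_symm_apply, eval_X]
  · rw [eI]
    exact hS 7 φ N' 1 5 2 hφ hq e5 e2 hd

end Pool.Agent.P.MP_7ebcb6_ag.SC
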