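import Pool.Agent.P.MP_7ebcb6_ag.SC.Ops

/-! Forms on `ℙ¹ × ℙ³` written over bare ring operations. -/

namespace Pool.Agent.P.MP_7ebcb6_ag.SC

section defs

variable {R : Type} [Add R] [Sub R] [Mul R] [NatCast R]

/-- A vector of length two. -/
def v2 {R : Type} (a b : R) : Fin 2 → R := fun i => cond (Nat.beq i.val 0) a b

/-- A vector of length four. -/
def v4 {R : Type} (a b c d : R) : Fin 4 → R := fun i =>
  cond (Nat.ble i.val 1) (cond (Nat.beq i.val 0) a b) (cond (Nat.beq i.val 2) c d)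

/-- A vector of length six. -/
def v6 {R : Type} (a b c d e f : R) : Fin 6 → R := fun i =>
  cond (Nat.ble i.val 2) (cond (Nat.beq i.val 0) a (cond (Nat.beq i.val 1) b c))
    (cond (Nat.beq i.val 3) d (cond (Nat.beq i.val 4) e f))

/-- A finite family as a sequence. -/
def sq {n : ℕ} (a : Fin n → R) (k : ℕ) : R := if h : k < n then a ⟨k, h⟩ else ((0 : ℕ) : R)

def pw (x : R) (n : ℕ) : R := Nat.rec ((1 : ℕ) : R) (fun _ r => r * x) n

def sm (f : ℕ → R) (n : ℕ) : R := Nat.rec ((0 : ℕ) : R) (fun k r => r + f k) n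

/-- A polynomial with `n` coefficients. -/
def pl (n : ℕ) (c : ℕ → R) (x : R) : R := sm (fun i => c i * pw x i) n

/-- A binary form of degree `d`. -/
def bf (d : ℕ) (c : ℕ → R) (U : Fin 2 → R) : R :=
  sm (fun i => c i * (pw (U 0) (d - i) * pw (U 1) i)) (d + 1)

/-- The point `(1 : u)`. -/
def af (u : R) : Fin 2 → R := v2 ((1 : ℕ) : R) u

def ng (x : R) : R := ((0 : ℕ) : R) - x

/-- The standard basis. -/
def ee (j : Fin 4) : Fin 4 → R := fun i => cond (Nat.beq i.val j.val) ((1 : ℕ) : R) ((0 : ℕ) : R)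

def dot (n y : Fin 4 → R) : R := n 0 * y 0 + n 1 * y 1 + n 2 * y 2 + n 3 * y 3

/-- `s a + t b`. -/
def cb (s : R) (a : Fin 4 → R) (t : R) (b : Fin 4 → R) : Fin 4 → R := fun i => s * a i + t * b i

/-- `r a + s b + t c`. -/
def cb3 (r : R) (a : Fin 4 → R) (s : R) (b : Fin 4 → R) (t : R) (c : Fin 4 → R) : Fin 4 → R :=
  fun i => r * a i + s * b i + t * c i

/-- The bilinear form of a quadric without squares; pairs `01, 02, 03, 12, 13, 23`. -/
def qb (k : Fin 6 → R) (a b : Fin 4 → R) : R :=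
  k 0 * (a 0 * b 1 + a 1 * b 0) + k 1 * (a 0 * b 2 + a 2 * b 0) + k 2 * (a 0 * b 3 + a 3 * b 0)
    + k 3 * (a 1 * b 2 + a 2 * b 1) + k 4 * (a 1 * b 3 + a 3 * b 1)
    + k 5 * (a 2 * b 3 + a 3 * b 2)

/-- The symmetric trilinear form with coefficients `000, 001, 002, 003, 011, 012, 013, 022, 023,
033, 111, 112, 113, 122, 123, 133, 222, 223, 233, 333`. -/
def tri (g : Fin 20 → R) (a b c : Fin 4 → R) : R :=
  (g 0 * a 0 + g 1 * a 1 + g 2 * a 2 + g 3 * a 3) * (b 0 * c 0)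
    + (g 1 * a 0 + g 4 * a 1 + g 5 * a 2 + g 6 * a 3) * (b 0 * c 1 + b 1 * c 0)
    + (g 2 * a 0 + g 5 * a 1 + g 7 * a 2 + g 8 * a 3) * (b 0 * c 2 + b 2 * c 0)
    + (g 3 * a 0 + g 6 * a 1 + g 8 * a 2 + g 9 * a 3) * (b 0 * c 3 + b 3 * c 0)
    + (g 4 * a 0 + g 10 * a 1 + g 11 * a 2 + g 12 * a 3) * (b 1 * c 1)
    + (g 5 * a 0 + g 11 * a 1 + g 13 * a 2 + g 14 * a 3) * (b 1 * c 2 + b 2 * c 1)
    + (g 6 * a 0 + g 12 * a 1 + g 14 * a 2 + g 15 * a 3) * (b 1 * c 3 + b 3 * c 1)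
    + (g 7 * a 0 + g 13 * a 1 + g 16 * a 2 + g 17 * a 3) * (b 2 * c 2)
    + (g 8 * a 0 + g 14 * a 1 + g 17 * a 2 + g 18 * a 3) * (b 2 * c 3 + b 3 * c 2)
    + (g 9 * a 0 + g 15 * a 1 + g 18 * a 2 + g 19 * a 3) * (b 3 * c 3)

/-- The coefficients of the product of a quadric and a linear form. -/
def qlc (k : Fin 6 → R) (n : Fin 4 → R) : Fin 20 → R := fun i =>
  match i.val with
  | 1 => k 0 * n 0 + k 0 * n 0
  | 2 => k 1 * n 0 + k 1 * n 0
  | 3 => k 2 * n 0 + k 2 * n 0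
  | 4 => k 0 * n 1 + k 0 * n 1
  | 5 => k 0 * n 2 + k 1 * n 1 + k 3 * n 0
  | 6 => k 0 * n 3 + k 2 * n 1 + k 4 * n 0
  | 7 => k 1 * n 2 + k 1 * n 2
  | 8 => k 1 * n 3 + k 2 * n 2 + k 5 * n 0
  | 9 => k 2 * n 3 + k 2 * n 3
  | 11 => k 3 * n 1 + k 3 * n 1
  | 12 => k 4 * n 1 + k 4 * n 1
  | 13 => k 3 * n 2 + k 3 * n 2
  | 14 => k 3 * n 3 + k 4 * n 2 + k 5 * n 1
  | 15 => k 4 * n 3 + k 4 * n 3
  | 17 => k 5 * n 2 + k 5 * n 2
  | 18 => k 5 * n 3 + k 5 * n 3
  | _ => ((0 : ℕ) : R)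

/-- The coefficients of the Cayley cubic `∑ m, μ m ∏ (j ≠ m), y j`. -/
def cay (mu : Fin 4 → R) : Fin 20 → R := fun i =>
  match i.val with
  | 5 => mu 3
  | 6 => mu 2
  | 8 => mu 1
  | 14 => mu 0
  | _ => ((0 : ℕ) : R)

def det3 (a0 a1 a2 b0 b1 b2 c0 c1 c2 : R) : R :=
  a0 * (b1 * c2 - b2 * c1) - a1 * (b0 * c2 - b2 * c0) + a2 * (b0 * c1 - b1 * c0)

/-- Plücker coordinates `01, 02, 03, 12, 13, 23`. -/
def plk (a b : Fin 4 → R) : Fin 6 → R :=
  v6 (a 0 * b 1 - a 1 * b 0) (a 0 * b 2 - a 2 * b 0) (a 0 * b 3 - a 3 * b 0)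
    (a 1 * b 2 - a 2 * b 1) (a 1 * b 3 - a 3 * b 1) (a 2 * b 3 - a 3 * b 2)

/-- The pairing of Plücker vectors. -/
def pp (p q : Fin 6 → R) : R :=
  p 0 * q 5 - p 1 * q 4 + p 2 * q 3 + p 3 * q 2 - p 4 * q 1 + p 5 * q 0

def det4 (a b c d : Fin 4 → R) : R := pp (plk a b) (plk c d)

/-- The resultant of two binary quadrics. -/
def res22 (a0 a1 a2 b0 b1 b2 : R) : R :=
  (a0 * b2 - a2 * b0) * (a0 * b2 - a2 * b0) - (a0 * b1 - a1 * b0) * (a1 * b2 - a2 * b1)

/-- The resultant of `a0 s² + a1 s t + a2 t²` and `b0 s³ + b1 s² t + b2 s t² + b3 t³`. -/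
def res23 (a0 a1 a2 b0 b1 b2 b3 : R) : R :=
  a0 * a0 * a0 * (b3 * b3) - a0 * a0 * a1 * (b2 * b3) + a0 * a0 * a2 * (b2 * b2)
    - (a0 * a0 * a2 * (b1 * b3) + a0 * a0 * a2 * (b1 * b3)) + a0 * a1 * a1 * (b1 * b3)
    - a0 * a1 * a2 * (b1 * b2) + (a0 * a1 * a2 * (b0 * b3) + a0 * a1 * a2 * (b0 * b3)
      + a0 * a1 * a2 * (b0 * b3)) + a0 * a2 * a2 * (b1 * b1)
    - (a0 * a2 * a2 * (b0 * b2) + a0 * a2 * a2 * (b0 * b2)) - a1 * a1 * a1 * (b0 * b3)
    + a1 * a1 * a2 * (b0 * b2) - a1 * a2 * a2 * (b0 * b1) + a2 * a2 * a2 * (b0 * b0)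

/-- The resultant of a binary quadric (bilinear values) and of the cubic `g` on the line `a b`. -/
def resL (aa ab bb : R) (g : Fin 20 → R) (a b : Fin 4 → R) : R :=
  res23 aa (ab + ab) bb (tri g a a a) (((3 : ℕ) : R) * tri g a a b) (((3 : ℕ) : R) * tri g a b b)
    (tri g b b b)

/-- The resultant of the second polar and of the cubic in the tangent plane at `x`. -/
def Rs (g : Fin 20 → R) (x a b : Fin 4 → R) : R :=
  resL (tri g x a a) (tri g x a b) (tri g x b b) g a b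

/-- The resultant of a quadric and of a cubic on the line `a b`. -/
def resQ (k : Fin 6 → R) (g : Fin 20 → R) (a b : Fin 4 → R) : R :=
  resL (qb k a a) (qb k a b) (qb k b b) g a b

def gram (k : Fin 6 → R) (a b c : Fin 4 → R) : R :=
  det3 (qb k a a) (qb k a b) (qb k a c) (qb k a b) (qb k b b) (qb k b c) (qb k a c) (qb k b c)
    (qb k c c)

/-- The third point of the cubic on the tangent line through `x` with direction `t`. -/
def thd (g : Fin 20 → R) (x t : Fin 4 → R) : Fin 4 → R :=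
  cb (tri g t t t) x (ng (((3 : ℕ) : R) * tri g x t t)) t

/-- A basis of the tangent plane at `x` modulo `x`, inside `y 0 = 0`. -/
def th1 (g : Fin 20 → R) (x : Fin 4 → R) : Fin 4 → R :=
  v4 ((0 : ℕ) : R) (tri g x x (ee 3)) ((0 : ℕ) : R) (ng (tri g x x (ee 1)))

def th2 (g : Fin 20 → R) (x : Fin 4 → R) : Fin 4 → R :=
  v4 ((0 : ℕ) : R) ((0 : ℕ) : R) (tri g x x (ee 3)) (ng (tri g x x (ee 2)))

/-- The sextic whose roots are the points of the tangent section on the quadric. -/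
def sx (k : Fin 6 → R) (g : Fin 20 → R) (x t : Fin 4 → R) : R := qb k (thd g x t) (thd g x t)

/-- The two points spanning the line with chart coordinates `W`. -/
def lA (W : Fin 4 → R) : Fin 4 → R := v4 ((1 : ℕ) : R) ((0 : ℕ) : R) (W 0) (W 1)

def lB (W : Fin 4 → R) : Fin 4 → R := v4 ((0 : ℕ) : R) ((1 : ℕ) : R) (W 2) (W 3)

def lP (W : Fin 4 → R) : Fin 6 → R :=
  v6 ((1 : ℕ) : R) (W 2) (W 3) (ng (W 0)) (ng (W 1)) (W 0 * W 3 - W 1 * W 2)

/-- The four equations for the line to lie on the cubic. -/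
def lnE (g : Fin 20 → R) (W : Fin 4 → R) : Fin 4 → R :=
  v4 (tri g (lA W) (lA W) (lA W)) (tri g (lA W) (lA W) (lB W)) (tri g (lA W) (lB W) (lB W))
    (tri g (lB W) (lB W) (lB W))

/-- The Jacobian determinant of these equations, up to a constant. -/
def lnJ (g : Fin 20 → R) (W : Fin 4 → R) : R :=
  res22 (tri g (ee 2) (lA W) (lA W)) (((2 : ℕ) : R) * tri g (ee 2) (lA W) (lB W))
    (tri g (ee 2) (lB W) (lB W)) (tri g (ee 3) (lA W) (lA W))
    (((2 : ℕ) : R) * tri g (ee 3) (lA W) (lB W)) (tri g (ee 3) (lB W) (lB W))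

/-- A monomial of bidegree `(i, 4)` in `u` and the Plücker coordinates. -/
def col (i : ℕ) (al : Fin 4 → Fin 6) (u : R) (p : Fin 6 → R) : R :=
  pw u i * (p (al 0) * p (al 1) * (p (al 2) * p (al 3)))

/-- A form in `u` and the Plücker coordinates. -/
def Fev (n : ℕ) (ie : ℕ → ℕ) (al : ℕ → Fin 4 → Fin 6) (c : ℕ → R) (u : R) (p : Fin 6 → R) : R :=
  sm (fun k => c k * col (ie k) (al k) u p) n

end defs

/-- Coefficients of the forms attached to four members of the family. -/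
structure Pen (R : Type) where
  k : Fin 2 → Fin 6 → ℕ → R
  mu : Fin 4 → ℕ → R
  nh : Fin 4 → ℕ → R
  nu : ℕ → R
  f : Fin 4 → Fin 2 → ℕ → R
  ka : Fin 4 → Fin 4 → R
  g : Fin 6 → Fin 20 → ℕ → R

def Pen.map {R S : Type} (φ : R → S) (P : Pen R) : Pen S :=
  ⟨fun a p i => φ (P.k a p i), fun m i => φ (P.mu m i), fun m i => φ (P.nh m i),
    fun i => φ (P.nu i), fun s a i => φ (P.f s a i), fun s m => φ (P.ka s m),
    fun p a i => φ (P.g p a i)⟩

/-- The data read off from a table with 781 entries. -/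
def Pen.of {R : Type} (a : ℕ → R) : Pen R :=
  ⟨fun s p i => a (18 * s.val + 3 * p.val + i), fun m i => a (36 + 7 * m.val + i),
    fun m i => a (64 + 10 * m.val + i), fun i => a (104 + i),
    fun s b i => a (117 + 12 * s.val + 6 * b.val + i), fun s m => a (165 + 4 * s.val + m.val),
    fun p b i => a (181 + 100 * p.val + 5 * b.val + i)⟩

namespace Pen

variable {R : Type} [Add R] [Sub R] [Mul R] [NatCast R] (P : Pen R)

/-- The two quadrics. -/
def kk (a : Fin 2) (U : Fin 2 → R) : Fin 6 → R := fun p => bf 2 (P.k a p) U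
/-- The Cayley cubic. -/
def gc (U : Fin 2 → R) : Fin 20 → R := cay fun m => bf 6 (P.mu m) U
def nuv (U : Fin 2 → R) : R := bf 12 P.nu U
def ff (s : Fin 4) (a : Fin 2) (U : Fin 2 → R) : R := bf 5 (P.f s a) U
def nn (s : Fin 4) (U : Fin 2 → R) : Fin 4 → R := fun m => P.ka s m * bf 9 (P.nh m) U
/-- The cubic of the pair with number `p` (pairs `01, 02, 03, 12, 13, 23`). -/
def gg (p : Fin 6) (U : Fin 2 → R) : Fin 20 → R := fun b => bf 4 (P.g p b) U
def be (s t : Fin 4) (U : Fin 2 → R) : R := P.ff s 0 U * P.ff t 1 U - P.ff s 1 U * P.ff t 0 U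
def pi (s t : Fin 4) (a : Fin 2) (U : Fin 2 → R) : Fin 4 → R :=
  fun m => P.ff s a U * P.nn t U m - P.ff t a U * P.nn s U m
/-- The determinant of the rows `(q₃, q₄, -G)`, `(f₃, f₄, n)` of `s` and of `t`. -/
def dt (s t : Fin 4) (U : Fin 2 → R) : Fin 20 → R := fun b =>
  qlc (P.kk 0 U) (P.pi s t 1 U) b - qlc (P.kk 1 U) (P.pi s t 0 U) b - P.be s t U * P.gc U b
/-- The quadric through the fibre of the member `0`. -/
def ks (U : Fin 2 → R) : Fin 6 → R := fun p => P.ff 0 1 U * P.kk 0 U p - P.ff 0 0 U * P.kk 1 U p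
/-- A cubic through the fibre of the member `0`. -/
def cs (U : Fin 2 → R) : Fin 20 → R :=
  fun b => qlc (P.kk 0 U) (P.nn 0 U) b + P.ff 0 0 U * P.gc U b
/-- The cubic surface of the pencil spanned by the members `0` and `1`. -/
def G (U : Fin 2 → R) : Fin 20 → R := P.gg 0 U
def B (U : Fin 2 → R) : R := P.be 0 1 U
def Pl (U : Fin 2 → R) : Fin 4 → R := P.pi 0 1 0 U
/-- The determinant of the rows of the members `0, 2, 3`. -/
def d023 (U : Fin 2 → R) (Y : Fin 4 → R) : R :=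
  det3 (P.ff 0 0 U) (P.ff 0 1 U) (dot (P.nn 0 U) Y) (P.ff 2 0 U) (P.ff 2 1 U) (dot (P.nn 2 U) Y)
    (P.ff 3 0 U) (P.ff 3 1 U) (dot (P.nn 3 U) Y)

end Pen

/-- First and second member of the pair with a given number. -/
def p1 : Fin 6 → Fin 4 := v6 0 0 0 1 1 2
def p2 : Fin 6 → Fin 4 := v6 1 2 3 2 3 3

section curve

variable {R : Type} [Add R] [Sub R] [Mul R] [NatCast R] (C : ℕ → R)

/-! A plane quartic `z ^ 4 = c 0 + c 1 z + c 2 z ^ 2 + c 3 z ^ 3` (entries `0 … 13` of the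
table), a map to `ℙ¹` (entries `14 … 17`), six points (`18 … 23` and `24 … 29`) and four cubics
(`30 … 69`). -/

def cq (x : R) : Fin 4 → R :=
  v4 (pl 5 C x) (pl 4 (fun i => C (5 + i)) x) (pl 3 (fun i => C (9 + i)) x)
    (pl 2 (fun i => C (12 + i)) x)

def cf (x z : R) : R :=
  z * z * (z * z) - (cq C x 0 + cq C x 1 * z + cq C x 2 * (z * z) + cq C x 3 * (z * z * z))

def cfz (x z : R) : R :=
  ((4 : ℕ) : R) * (z * z * z)
    - (cq C x 1 + ((2 : ℕ) : R) * cq C x 2 * z + ((3 : ℕ) : R) * cq C x 3 * (z * z))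

def cU (x z : R) : Fin 2 → R :=
  v2 (C 14 * (x * x - x) + C 15 * (z * z - z)) (C 16 * (x * x - x) + C 17 * (z * z - z))

def cub (c : ℕ → R) (x z : R) : R :=
  c 0 + c 1 * x + c 2 * z + c 3 * (x * x) + c 4 * (x * z) + c 5 * (z * z) + c 6 * (x * x * x)
    + c 7 * (x * x * z) + c 8 * (x * (z * z)) + c 9 * (z * z * z)

def cY (x z : R) : Fin 4 → R :=
  v4 (cub (fun i => C (30 + i)) x z) (cub (fun i => C (40 + i)) x z)
    (cub (fun i => C (50 + i)) x z) (cub (fun i => C (60 + i)) x z)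

/-- The ten base points. -/
def bx (i : ℕ) : R := cond (Nat.ble i 3) ((i % 2 : ℕ) : R) (C (14 + i))
def bz (i : ℕ) : R := cond (Nat.ble i 3) ((i / 2 : ℕ) : R) (C (20 + i))

/-- The cubics of the pairs `(0, t)`, `(t, 2)`, `(t, 3)` for `t = 1 + τ 0`. -/
def gT (P : Pen R) (ta : R) (k : Fin 3) (U : Fin 2 → R) : Fin 20 → R := fun b =>
  cond (Nat.beq k.val 0) (P.gg 0 U b)
    (cond (Nat.beq k.val 1) (P.gg 3 U b + ta * P.gg 1 U b) (P.gg 4 U b + ta * P.gg 2 U b))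

/-- Their values on the curve. -/
def cT (P : Pen R) (ta : R) (k : Fin 3) (x z : R) : R :=
  tri (gT P ta k (cU C x z)) (cY C x z) (cY C x z) (cY C x z)

end curve

section simp

variable {R : Type}

@[simp] lemma v2_0 (a b : R) : v2 a b 0 = a := rfl
@[simp] lemma v2_1 (a b : R) : v2 a b 1 = b := rfl
@[simp] lemma v4_0 (a b c d : R) : v4 a b c d 0 = a := rfl
@[simp] lemma v4_1 (a b c d : R) : v4 a b c d 1 = b := rfl
@[simp] lemma v4_2 (a b c d : R) : v4 a b c d 2 = c := rfl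
@[simp] lemma v4_3 (a b c d : R) : v4 a b c d 3 = d := rfl
@[simp] lemma v6_0 (a b c d e f : R) : v6 a b c d e f 0 = a := rfl
@[simp] lemma v6_1 (a b c d e f : R) : v6 a b c d e f 1 = b := rfl
@[simp] lemma v6_2 (a b c d e f : R) : v6 a b c d e f 2 = c := rfl
@[simp] lemma v6_3 (a b c d e f : R) : v6 a b c d e f 3 = d := rfl
@[simp] lemma v6_4 (a b c d e f : R) : v6 a b c d e f 4 = e := rfl
@[simp] lemma v6_5 (a b c d e f : R) : v6 a b c d e f 5 = f := rfl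

lemma map_v2 {S : Type} (φ : R → S) (a b : R) : (fun i => φ (v2 a b i)) = v2 (φ a) (φ b) :=
  funext fun i => by fin_cases i <;> rfl
lemma map_v4 {S : Type} (φ : R → S) (a b c d : R) :
    (fun i => φ (v4 a b c d i)) = v4 (φ a) (φ b) (φ c) (φ d) :=
  funext fun i => by fin_cases i <;> rfl
lemma map_v6 {S : Type} (φ : R → S) (a b c d e f : R) :
    (fun i => φ (v6 a b c d e f i)) = v6 (φ a) (φ b) (φ c) (φ d) (φ e) (φ f) :=
  funext fun i => by fin_cases i <;> rfl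

variable [CommRing R]

lemma pw_eq (x : R) : ∀ n, pw x n = x ^ n
  | 0 => by simp [pw]
  | n + 1 => by rw [pow_succ, ← pw_eq x n]; rfl

lemma sm_eq (f : ℕ → R) : ∀ n, sm f n = ∑ i ∈ Finset.range n, f i
  | 0 => by simp [sm]
  | n + 1 => by rw [Finset.sum_range_succ, ← sm_eq f n]; rfl

lemma pl_eq (n : ℕ) (c : ℕ → R) (x : R) : pl n c x = ∑ i ∈ Finset.range n, c i * x ^ i := by
  simp only [pl, sm_eq, pw_eq]

lemma bf_eq (d : ℕ) (c : ℕ → R) (U : Fin 2 → R) :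
    bf d c U = ∑ i ∈ Finset.range (d + 1), c i * (U 0 ^ (d - i) * U 1 ^ i) := by
  simp only [bf, sm_eq, pw_eq]

lemma bf_smul (d : ℕ) (c : ℕ → R) (a : R) (U : Fin 2 → R) :
    bf d c (fun i => a * U i) = a ^ d * bf d c U := by
  simp only [bf_eq, Finset.mul_sum]
  refine Finset.sum_congr rfl fun i hi => ?_
  have : a ^ d = a ^ (d - i) * a ^ i := by
    rw [← pow_add, Nat.sub_add_cancel (Nat.lt_succ_iff.mp (Finset.mem_range.mp hi))]
  rw [this, mul_pow, mul_pow]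
  ring

@[simp] lemma ng_eq (x : R) : ng x = -x := by simp [ng]
@[simp] lemma af_0 (u : R) : af u 0 = 1 := by simp [af]
@[simp] lemma af_1 (u : R) : af u 1 = u := rfl

lemma bf_af (d : ℕ) (c : ℕ → R) (u : R) : bf d c (af u) = pl (d + 1) c u := by
  simp only [bf_eq, pl_eq, af_0, af_1, one_pow, one_mul]

lemma ee_eq (j : Fin 4) : (ee j : Fin 4 → R) = Pi.single j 1 := by
  funext i
  fin_cases i <;> fin_cases j <;> simp [ee, Nat.beq]

lemma tri_qlc (k : Fin 6 → R) (n a b c : Fin 4 → R) :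
    tri (qlc k n) a b c = qb k a b * dot n c + qb k a c * dot n b + qb k b c * dot n a := by
  simp only [tri, qlc, qb, dot, Fin.coe_ofNat_eq_mod, Nat.reduceMod,
    Nat.cast_zero]
  ring

lemma tri_swap12 (g : Fin 20 → R) (a b c : Fin 4 → R) : tri g a b c = tri g b a c := by
  simp only [tri]; ring

lemma tri_swap23 (g : Fin 20 → R) (a b c : Fin 4 → R) : tri g a b c = tri g a c b := by
  simp only [tri]; ring

lemma qb_comm (k : Fin 6 → R) (a b : Fin 4 → R) : qb k a b = qb k b a := by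
  simp only [qb]; ring

lemma plk_chart (W : Fin 4 → R) : plk (lA W) (lB W) = lP W := by
  funext i
  fin_cases i <;> simp [plk, lA, lB, lP]

end simp

end Pool.Agent.P.MP_7ebcb6_ag.SC
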