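import Pool.Agent.P.MP_7ebcb6_ag.SC.Bs
import Pool.Agent.P.MP_7ebcb6_ag.SC.H1

/-! The Jacobian of stage 1 is reduced to a system in 1420 unknowns. -/

namespace Pool.Agent.P.MP_7ebcb6_ag.SC

/-- The form on a line through a curve. -/
def FL (cd : CD) : Sys (Fin 1362) (Fin 7) Unit where
  ev {R} _ _ _ _ a x _ := FF cd a (x 0) (w4 (sq x))
  nat {R S} _ _ _ _ _ _ _ _ f h a x t := by
    simp only [h.FF, app_w4 f, h.sq]

/-- The form on the lines of a tritangent plane. -/
def FR (cd : CD) : Sys (Fin 1362 ⊕ Unit) (Fin 10) (Fin 3) where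
  ev {R} _ _ _ _ a x t := FF cd (fun i => a (.inl i)) (a (.inr ())) (trW (sq x) t)
  nat {R S} _ _ _ _ _ _ _ _ f h a x t := by
    simp only [h.FF, h.trW, h.sq]

variable {K : Type} [CommRing K]

/-- Nondegenerate blocks and their tangent vectors. -/
structure Tan (cd : CD) (a : π1 → K) (x : σ1 → K) (C' : Fin 8 → Fin 70 → K)
    (L' : Fin 8 → Fin 150 → Fin 7 → K) (R' : Fin 50 → Fin 10 → K) : Prop where
  iC : ∀ n, (CS cd n).Inj (pu (aP a) (xT x n)) (xC x n)
  iL : ∀ n j, L150E.Inj (Sum.elim (aP a) (xC x n)) (xL x n j)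
  iR : ∀ m, TS.Inj (pu (aP a) (xU x m)) (xR x m)
  tC : ∀ n t, (CS cd n).d (pu (aP a) (xT x n)) (xC x n) (pu (fun _ => 0) 1) (C' n) t = 0
  tL : ∀ n j t, L150E.d (Sum.elim (aP a) (xC x n)) (xL x n j) (Sum.elim (fun _ => 0) (C' n))
    (L' n j) t = 0
  tR : ∀ m t, TS.d (pu (aP a) (xU x m)) (xR x m) (pu (fun _ => 0) 1) (R' m) t = 0

/-- The reduced system has only the trivial solution. -/
def Red1 (cd : CD) (a : π1 → K) (x : σ1 → K) (L' : Fin 8 → Fin 150 → Fin 7 → K)
    (R' : Fin 50 → Fin 10 → K) : Prop :=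
  ∀ (dF : Fin 1362 → K) (dT : Fin 8 → K) (dU : Fin 50 → K), dF 0 = 0 →
    (∀ n j, FF cd dF (xL x n j 0) (w4 (sq (xL x n j)))
      + dT n * (FL cd).d (xF x) (xL x n j) (fun _ => 0) (L' n j) () = 0) →
    (∀ m i, FF cd dF (xU x m) (trW (sq (xR x m)) i) + dU m * (FR cd).d
      (Sum.elim (xF x) fun _ => xU x m) (xR x m) (Sum.elim (fun _ => 0) fun _ => 1) (R' m) i = 0) →
    (∀ j, FF cd dF (a68 a j 0) (w4 (sq (a68 a j))) = 0) → FF cd dF (aU a) (aW a) = 0 →
    dF = 0 ∧ dT = 0 ∧ dU = 0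

namespace Jac

lemma duC : Hom fun r : K => (⟨r, 0⟩ : Du K) where
  add x y := Du.ext rfl (add_zero 0).symm
  sub x y := Du.ext rfl (sub_zero 0).symm
  mul x y := Du.ext rfl (by
    change 0 = x * 0 + 0 * y
    ring)
  nat n := Du.ext rfl Nat.cast_zero.symm

lemma sm_b (f : ℕ → Du K) : ∀ n, (sm f n).b = sm (fun k => (f k).b) n
  | 0 => rfl
  | n + 1 => congrArg (· + (f n).b) (sm_b f n)

lemma sq_du {n : ℕ} (c e : Fin n → K) (k : ℕ) :
    sq (fun i => (⟨c i, e i⟩ : Du K)) k = ⟨sq c k, sq e k⟩ := by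
  unfold sq
  split_ifs <;> rfl

lemma FF_b (cd : CD) (c e : Fin 1362 → K) (u : K) (W : Fin 4 → K) :
    (FF cd (fun i => (⟨c i, e i⟩ : Du K)) ⟨u, 0⟩ fun i => ⟨W i, 0⟩).b = FF cd e u W := by
  have h1 : (lP fun i => (⟨W i, 0⟩ : Du K)) = fun i => ⟨lP W i, 0⟩ :=
    funext fun i => (duC.lP W i).symm
  simp only [FF, Fev, sm_b, sq_du, h1]
  congr 1
  funext k
  rw [← duC.col]
  change _ * 0 + _ = _
  rw [mul_zero, zero_add]

lemma solve {π σ τ : Type} {S : Sys π σ τ} {a a1 a2 : π → K} {x x1 x2 : σ → K} (hI : S.Inj a x)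
    (h1 : ∀ t, S.d a x a1 x1 t = 0) (h2 : ∀ t, S.d a x a2 x2 t = 0) {c : K}
    (ha : ∀ i, a1 i = c * a2 i) (s : σ) : x1 s = c * x2 s := by
  have := hI (fun s => 1 * x1 s + -c * x2 s) fun t => by
    have h := H1.d_lin S a x a1 a2 x1 x2 t 1 (-c)
    rw [h1, h2, mul_zero, mul_zero, add_zero] at h
    rwa [show (fun i => 1 * a1 i + -c * a2 i) = fun _ => 0 from funext fun i => by
      rw [ha]; ring] at h
  have h := congrFun this s
  simp only [Pi.zero_apply] at h
  linear_combination h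

lemma split {π σ τ : Type} (S : Sys π σ τ) (a a0 a1 a2 : π → K) (x x0 x2 : σ → K) (t : τ) {c : K}
    (ha : ∀ i, a0 i = a1 i + c * a2 i) (hx : ∀ s, x0 s = c * x2 s) :
    S.d a x a0 x0 t = S.d a x a1 (fun _ => 0) t + c * S.d a x a2 x2 t := by
  have h := H1.d_lin S a x a1 a2 (fun _ => 0) x2 t 1 c
  simp only [one_mul, zero_add] at h
  rw [← h, funext ha, funext hx]

omit [CommRing K] in
lemma du_elim {α β : Type} (a a' : α → K) (b b' : β → K) :
    (Sum.elim (fun i => ⟨a i, a' i⟩) fun i => ⟨b i, b' i⟩ : α ⊕ β → Du K)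
      = fun i => ⟨Sum.elim a b i, Sum.elim a' b' i⟩ := funext fun i => by cases i <;> rfl

end Jac

open Jac

attribute [local irreducible] FF

theorem s1_inj {cd : CD} {a : π1 → K} {x : σ1 → K} {C' : Fin 8 → Fin 70 → K}
    {L' : Fin 8 → Fin 150 → Fin 7 → K} {R' : Fin 50 → Fin 10 → K} (hT : Tan cd a x C' L' R')
    (hR : Red1 cd a x L' R') : (S1 cd).Inj a x := by
  intro e he
  have hC : ∀ n s, xC e n s = xT e n * C' n s := fun n =>
    solve (a1 := pu (fun _ => 0) (xT e n)) (hT.iC n) (fun t => by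
      have := he (.inl (n, t))
      unfold Sys.d pu
      rw [← du_elim]
      exact this) (hT.tC n) fun i => by rcases i with i | i <;> simp [pu]
  have hL : ∀ n j s, xL e n j s = xT e n * L' n j s := fun n j =>
    solve (a1 := Sum.elim (fun _ => 0) (xC e n)) (hT.iL n j) (fun t => by
      have := he (.inr (.inl (n, j, t)))
      unfold Sys.d
      rw [← du_elim]
      exact this) (hT.tL n j) fun i => by rcases i with i | i <;> simp [hC]
  have hM : ∀ m s, xR e m s = xU e m * R' m s := fun m =>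
    solve (a1 := pu (fun _ => 0) (xU e m)) (hT.iR m) (fun t => by
      have := he (.inr (.inr (.inl (m, t))))
      unfold Sys.d pu
      rw [← du_elim]
      exact this) (hT.tR m) fun i => by rcases i with i | i <;> simp [pu]
  obtain ⟨h1, h2, h3⟩ := hR (xF e) (xT e) (xU e) (by
      have : xF e 0 - ((0 : ℕ) : K) = 0 := he (.inr (.inr (.inr (.inr ()))))
      simpa using this)
    (fun n j => by
      have h : (FL cd).d (xF x) (xL x n j) (xF e) (xL e n j) () = 0 :=
        he (.inr (.inr (.inr (.inl (.inl (n, j))))))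
      rw [split (FL cd) _ _ (xF e) (fun _ => 0) _ _ (L' n j) _ (by simp) (hL n j)] at h
      rw [← FF_b cd (xF x)]
      simp only [app_w4 fun r : K => (⟨r, 0⟩ : Du K), duC.sq]
      exact h)
    (fun m i => by
      have h : (FR cd).d (Sum.elim (xF x) fun _ => xU x m) (xR x m)
          (Sum.elim (xF e) fun _ => xU e m) (xR e m) i = 0 :=
        he (.inr (.inr (.inr (.inl (.inr (.inl (m, i)))))))
      rw [split (FR cd) _ _ (Sum.elim (xF e) fun _ => 0) (Sum.elim (fun _ => 0) fun _ => 1) _ _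
        (R' m) _ (fun i => by rcases i with i | i <;> simp) (hM m)] at h
      rw [← FF_b cd (xF x)]
      simp only [duC.trW, duC.sq]
      exact h)
    (fun j => by
      rw [← FF_b cd (xF x)]
      simp only [app_w4 fun r : K => (⟨r, 0⟩ : Du K), duC.sq]
      exact he (.inr (.inr (.inr (.inl (.inr (.inr (.inl j))))))))
    (by
      rw [← FF_b cd (xF x)]
      exact he (.inr (.inr (.inr (.inl (.inr (.inr (.inr ()))))))))
  funext s
  rcases s with i | n | m | ⟨n, i⟩ | ⟨n, j, i⟩ | ⟨m, i⟩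
  · exact congrFun h1 i
  · exact congrFun h2 n
  · exact congrFun h3 m
  · exact (hC n i).trans (by rw [h2]; exact zero_mul _)
  · exact (hL n j i).trans (by rw [h2]; exact zero_mul _)
  · exact (hM m i).trans (by rw [h3]; exact zero_mul _)

end Pool.Agent.P.MP_7ebcb6_ag.SC
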