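import Pool.Agent.P.MP_7ebcb6_ag.SC.St2
import Pool.Agent.P.MP_7ebcb6_ag.SC.V1
import Pool.Agent.P.MP_7ebcb6_ag.SC.V2
import Pool.Agent.P.MP_7ebcb6_ag.SC.V3
import Pool.Agent.P.MP_7ebcb6_ag.SC.H1
import Pool.Agent.P.MP_7ebcb6_ag.SC.H2
import Pool.Agent.P.MP_7ebcb6_ag.SC.H3
import Pool.Agent.P.MP_7ebcb6_ag.SC.L1

/-! The class of the zeros of a form on the curve of lines does not depend on the form. -/

namespace Pool.Agent.P.MP_7ebcb6_ag.SC

open G8 Function

noncomputable section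

namespace LAM

lemma hom_gal (τ : Gal) : Hom fun z : Om => τ z :=
  ⟨map_add τ, map_sub τ, map_mul τ, map_natCast τ⟩

lemma gal_lam (τ : Gal) : τ lam = lam := τ.commutes _

lemma gal_ct (τ : Gal) (c : ℂ) : τ (ct c) = ct c := by
  rw [IsScalarTower.algebraMap_apply ℂ (RatFunc ℂ) Om, τ.commutes]

lemma gal_PO (τ : Gal) (X : ℕ → ℂ) : (PO X).map (fun z : Om => τ z) = PO X := by
  rw [Pen.map_map]
  simp only [gal_ct]

lemma gal_af (τ : Gal) : (fun m => τ (af lam m)) = af lam :=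
  funext fun m => by rw [(hom_gal τ).af, gal_lam]

lemma gal_G (τ : Gal) (X : ℕ → ℂ) :
    (fun b => τ ((PO X).G (af lam) b)) = (PO X).G (af lam) :=
  funext fun b => by rw [(hom_gal τ).G, gal_PO, gal_af]

lemma gal_ks (τ : Gal) (X : ℕ → ℂ) :
    (fun b => τ ((PO X).ks (af lam) b)) = (PO X).ks (af lam) :=
  funext fun b => by rw [(hom_gal τ).ks, gal_PO, gal_af]

lemma gal_FF (τ : Gal) (cd : CD) (c : Fin 1362 → ℂ) (W : V4 Om) :
    τ (FF cd (fun i => ct (c i)) lam W) = FF cd (fun i => ct (c i)) lam fun i => τ (W i) := by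
  rw [(hom_gal τ).FF, gal_lam]
  simp only [gal_ct]

lemma mem_FF {K L : Type} [Field K] [Field L] {G : Subring (K × L)} (cd : CD) {c : Fin 1362 → K}
    {c' : Fin 1362 → L} (hc : MV G c c') {u : K} {u' : L} (hu : (u, u') ∈ G) {W : V4 K}
    {W' : V4 L} (hW : MV G W W') : (FF cd c u W, FF cd c' u' W') ∈ G :=
  mem_of_el (FF cd hc.el ⟨_, hu⟩ hW.el) ((homF G).FF ..) ((homS G).FF ..)

lemma tends_FF {sp : Sp} (cd : CD) (c : Fin 1362 → ℂ) {u : ℂ} (hu : Tends sp.v lam u)
    {W : V4 Om} {W' : V4 ℂ} (hW : TV sp W W') :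
    Tends sp.v (FF cd (fun i => ct (c i)) lam W) (FF cd c u W') := by
  have h := mem_FF (G := (spPl sp).G) cd (c := fun i => ct (c i)) (c' := c) (u := lam) (u' := u)
    (W := W) (W' := W') (tv_ct sp c) hu hW
  generalize FF cd (fun i => ct (c i)) lam W = a at h ⊢
  generalize FF cd c u W' = b at h ⊢
  exact h

lemma tri_lpt {K : Type} [Field K] {g : Fin 20 → K} {W : V4 K} (h : ∀ i, lnE g W i = 0) (r : K) :
    tri g (lpt W r) (lpt W r) (lpt W r) = 0 := by
  have e : tri g (lpt W r) (lpt W r) (lpt W r)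
      = lnE g W 0 + 3 * r * lnE g W 1 + 3 * r ^ 2 * lnE g W 2 + r ^ 3 * lnE g W 3 := by
    simp only [lnE, v4_0, v4_1, v4_2, v4_3, lpt, tri, cb, Nat.cast_one]
    ring
  rw [e, h 0, h 1, h 2, h 3]
  ring

lemma lpt_0 {K : Type} [Field K] (W : V4 K) (r : K) : lpt W r 0 = 1 := by simp [lpt, cb, lA, lB]

lemma lpt_1 {K : Type} [Field K] (W : V4 K) (r : K) : lpt W r 1 = r := by simp [lpt, cb, lA, lB]

lemma lpt_ne {K : Type} [Field K] (W : V4 K) (r : K) : lpt W r ≠ 0 := fun e =>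
  one_ne_zero ((lpt_0 W r).symm.trans (congrFun e 0))

lemma af_ne {K : Type} [Field K] (u : K) : af u ≠ 0 := fun e =>
  one_ne_zero ((af_0 u).symm.trans (congrFun e 0))

lemma lP_ne {K : Type} [Field K] (W : V4 K) : lP W ≠ 0 := fun e => by
  simpa [lP] using congrFun e 0

lemma v_FF (sp : Sp) (cd : CD) (c : Fin 1362 → ℂ) (W : V4 Om) :
    sp.v (FF cd (fun i => ct (c i)) lam W) ≤ sp.v (nv sp (lP W) ^ 4 * nv sp (af lam) ^ 41) := by
  have h1 : 1 ≤ sp.v (nv sp (af lam)) := by simpa using le_nv sp (af lam) 0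
  have h2 : sp.v lam ≤ sp.v (nv sp (af lam)) := le_nv sp (af lam) 1
  rw [FF, Fev, sm_eq]
  refine Valuation.map_sum_le _ fun k _ => ?_
  have h3 : sp.v (sq (fun i => ct (c i)) k) ≤ 1 := by
    rw [← (hom_ringHom ct).sq]
    exact (Tends.const _).le_one
  have h4 : sp.v lam ^ (cd.ie k % 42) ≤ sp.v (nv sp (af lam)) ^ 41 :=
    (pow_le_pow_left₀ zero_le h2 _).trans (pow_le_pow_right₀ h1 (by omega))
  have h5 := le_nv sp (lP W)
  simp only [col, pw_eq, map_mul, map_pow]
  refine (mul_le_of_le_one_left' h3).trans ?_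
  rw [mul_comm, show sp.v (nv sp (lP W)) ^ 4 = sp.v (nv sp (lP W)) * sp.v (nv sp (lP W)) *
    (sp.v (nv sp (lP W)) * sp.v (nv sp (lP W))) by simp only [pow_succ, pow_zero, one_mul,
      mul_assoc]]
  exact mul_le_mul' (mul_le_mul' (mul_le_mul' (h5 _) (h5 _)) (mul_le_mul' (h5 _) (h5 _))) h4

lemma av_FF (sp : Sp) (cd : CD) (c : Fin 1362 → ℂ) (W : V4 Om)
    (h : FF cd (fun i => ct (c i)) lam W ≠ 0) :
    4 * mu sp (lP W) + 41 * mu sp (af lam) ≤ av sp (FF cd (fun i => ct (c i)) lam W) := by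
  have h1 := pow_ne_zero 4 (nv_ne_zero sp (lP_ne W))
  have h2 := pow_ne_zero 41 (nv_ne_zero sp (af_ne lam))
  have h3 := (av_le_iff h (mul_ne_zero h1 h2)).2 (v_FF sp cd c W)
  rw [av_mul h1 h2, av_pow, av_pow] at h3
  exact_mod_cast h3

lemma fin_sum {ι : Type} [Fintype ι] {f : Option ℂ → ι → ℚ}
    (h : ∀ i, (support fun c => f c i).Finite) : (support fun c => ∑ i, f c i).Finite :=
  (Set.finite_iUnion h).subset fun c hc => by
    obtain ⟨i, -, hi⟩ := Finset.exists_ne_zero_of_sum_ne_zero hc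
    exact Set.mem_iUnion.2 ⟨i, hi⟩

lemma fin_add {f g : Option ℂ → ℚ} (hf : (support f).Finite) (hg : (support g).Finite) :
    (support fun c => f c + g c).Finite := (hf.union hg).subset (support_add f g)

lemma fin_mul {f : Option ℂ → ℚ} (hf : (support f).Finite) (g : Option ℂ → ℚ) :
    (support fun c => f c * g c).Finite := hf.subset fun _ hc => left_ne_zero_of_mul hc

lemma fin_mul' {f : Option ℂ → ℚ} (hf : (support f).Finite) (a : ℚ) :
    (support fun c => a * f c).Finite := hf.subset fun _ hc => right_ne_zero_of_mul hc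

lemma nr_G (X : ℕ → ℂ) (u : ℂ) : Nr (sec (some u)) (un (sec (some u))) ((PO X).G (af lam))
    ((Pen.of X).G (af u)) := by
  have h1 := mem_G (pm_Cg (sec (some u)) (un (sec (some u))) (Pen.of X))
    (mem_af (lam_Cg u (pt_sec _)))
  intro i
  beta_reduce
  rw [(hom_ringHom ct).G, funext ((hom_ringHom ct).af u)]
  exact h1 i

lemma tv_one {sp : Sp} {ι : Type} {x : ι → Om} {y : ι → ℂ} (h : TV sp x y) :
    TV sp (fun i => 1 * x i) y := fun i => (h i).of_eq_left (one_mul _).symm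

lemma tv_af (u : ℂ) : TV (sec (some u)) (af lam) (af u) :=
  mem_af (G := (spPl (sec (some u))).G) (tends_sec u)

end LAM

open LAM

theorem thm_LAM (hON : S_ON) : S_LAM := by
  intro cd X w W hid hT hL h78 cl
  obtain ⟨al1, al2, -, al4, al5⟩ := thm_AL
  obtain ⟨mu1, -, mu3⟩ := thm_MU
  have hks : ∀ u : ℂ, MV (spPl (sec (some u))).G ((PO X).ks (af lam)) ((Pen.of X).ks (af u)) :=
    fun u => mem_ks (pm_ct _ _) (tv_af u)
  have hA : ∀ j, MV (spPl (sec (some (cd.us : ℂ)))).G _ _ := fun j => mem_lA (hL.lim j)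
  have hB : ∀ j, MV (spPl (sec (some (cd.us : ℂ)))).G _ _ := fun j => mem_lB (hL.lim j)
  have hq : ∀ j, qB ((PO X).ks (af lam)) (W j) ≠ 0 := fun j =>
    Tends.ne_zero (v := (sec (some (cd.us : ℂ))).v) (mem_qb (hks _) (hB j) (hB j))
      ((hT.g27 j).op 1)
  have hd : ∀ j, dsc ((PO X).ks (af lam)) (W j) ≠ 0 := fun j =>
    Tends.ne_zero (v := (sec (some (cd.us : ℂ))).v)
      (mem_sub (mem_mul (mem_qb (hks _) (hA j) (hB j)) (mem_qb (hks _) (hA j) (hB j)))
        (mem_mul (mem_qb (hks _) (hA j) (hA j)) (mem_qb (hks _) (hB j) (hB j))))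
      ((hT.g27 j).op 2)
  have hb : (PO X).B (af lam) ≠ 0 :=
    Tends.ne_zero (v := (sec (some (cd.us : ℂ))).v) (mem_B (pm_ct _ _) (tv_af _))
      ((hT.g27 0).op 4)
  have hf : (PO X).ff 0 0 (af lam) ≠ 0 :=
    Tends.ne_zero (v := (sec (some (cd.us : ℂ))).v) (mem_ff (pm_ct _ _) 0 0 (tv_af _))
      ((hT.g27 0).op 5)
  choose r1 r2 hr using fun j => al1 Om _ (W j) (hq j)
  have hne : ∀ j, r1 j ≠ r2 j := fun j => (al2 Om _ (W j) _ _ (hq j) (hr j)).1 (hd j)
  have hW : ∀ j i, lnE ((PO X).G (af lam)) (W j) i = 0 := fun j => (hL.all (W j)).2 ⟨j, rfl⟩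
  have hτ : ∀ (τ : Gal) j, ∃ j', (fun m => τ (W j m)) = W j' := fun τ j => by
    obtain ⟨j', e⟩ := (hL.all fun m => τ (W j m)).1 fun i => by
      rw [← gal_G τ, ← (hom_gal τ).lnE, hW, map_zero]
    exact ⟨j', e.symm⟩
  let y : Fin 27 × Bool → V4 Om := fun i => lpt (W i.1) (cond i.2 (r1 i.1) (r2 i.1))
  have hy : ∀ i, qb ((PO X).ks (af lam)) (y i) (y i) = 0 := by
    rintro ⟨j, _ | _⟩ <;> exact (hr j _).trans (by simp)
  let s : Option ℂ → Fin 27 → ℚ := fun c j =>
    cl.cls (rd (sec c) (af lam)) (rd (sec c) (y (j, true)))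
      + cl.cls (rd (sec c) (af lam)) (rd (sec c) (y (j, false)))
  let m : Option ℂ → Fin 27 → ℚ := fun c j =>
    4 * mu (sec c) (lP (W j)) + 41 * mu (sec c) (af lam)
  have fm : ∀ j, (support fun c => m c j).Finite := fun j =>
    fin_add (fin_mul' (thm_FM 5 _) 4) (fin_mul' (thm_FM 1 _) 41)
  refine ⟨-∑ᶠ c, ∑ j, m c j * s c j, fun u V c hi hS hF h0 => ?_⟩
  let ψ : Fin 27 → Om := fun j => FF cd (fun i => ct (c i)) lam (W j)
  have hψ : ∀ j, ψ j ≠ 0 := fun j =>
    (tends_FF cd c (tends_sec _) (hL.lim j)).ne_zero (h0 j)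
  let b : Option ℂ → Fin 27 → ℚ := fun c j => av (sec c) (ψ j) - m c j
  have fb : ∀ j, (support fun c => b c j).Finite := fun j =>
    ((thm_FS (ψ j)).union (fm j)).subset (support_sub _ _)
  have hPF : ∑ᶠ c, ∑ j, av (sec c) (ψ j) = 0 := thm_PF _ ψ hψ fun τ => by
    obtain ⟨e, he⟩ := thm_PERM (V4 Om) (Fin 27) W (fun V m => τ (V m)) hL.inj
      (fun p p' e => funext fun m => τ.injective (congrFun e m)) (hτ τ)
    exact ⟨e, fun j => (gal_FF τ cd c (W j)).trans (by rw [he j])⟩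
  have hsum : ∑ᶠ c, ∑ j, b c j ≤ ∑ _ : ζ1, (1 : ℚ) := by
    have e1 : ∀ c, ∑ j, b c j = ∑ j, av (sec c) (ψ j) + (4 * ∑ j, -mu (sec c) (lP (W j))
        + (-1107) * mu (sec c) (af lam)) := fun c => by
      simp only [b, m, Finset.sum_sub_distrib, Finset.sum_add_distrib, Finset.sum_neg_distrib,
        ← Finset.mul_sum, Finset.sum_const, Finset.card_univ, Fintype.card_fin, nsmul_eq_mul]
      push_cast
      ring
    have f1 : (support fun c => ∑ j, -mu (sec c) (lP (W j))).Finite :=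
      fin_sum fun j => (thm_FM 5 (lP (W j))).subset fun _ hc => neg_ne_zero.1 hc
    simp only [e1]
    rw [finsum_add_distrib (fin_sum fun j => thm_FS (ψ j))
        (fin_add (fin_mul' f1 _) (fin_mul' (thm_FM 1 _) _)),
      finsum_add_distrib (fin_mul' f1 _) (fin_mul' (thm_FM 1 _) _), ← mul_finsum, ← mul_finsum,
      hPF, mu3]
    simp only [Finset.sum_const, Finset.card_univ, Fintype.card_sum, Fintype.card_prod,
      Fintype.card_fin, Fintype.card_unit, nsmul_eq_mul]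
    push_cast
    linarith
  have hJ : ∀ z, ∃ j, Nr (sec (some (u z))) (un (sec (some (u z)))) (W j) (V z) := fun z => by
    obtain ⟨W', h1, h2, -⟩ := thm_LH (thm_UP thm_DEQ) _ _ _ _ (V z) (v_un_lt _) (nr_G X (u z))
      (hS z).1 ((hS z).2 0)
    obtain ⟨j, rfl⟩ := (hL.all W').1 h1
    exact ⟨j, h2⟩
  choose J hJ using hJ
  have hJt : ∀ z, TV (sec (some (u z))) (W (J z)) (V z) := fun z => (hJ z).tv (v_un_lt _)
  have hfi : Injective fun z => ((some (u z), J z) : Option ℂ × Fin 27) := fun z z' e => by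
    have e1 : u z = u z' := Option.some.inj (congrArg Prod.fst e)
    have e2 : J z = J z' := congrArg Prod.snd e
    refine hi (Prod.ext e1 (funext fun i => (hJt z i).unique ?_))
    rw [e1, e2]
    exact hJt z' i
  obtain ⟨c1, c2⟩ := thm_CNT (Fin 27) ζ1 b _ (fun _ => 1) fb
    (fun c' j => sub_nonneg.2 (av_FF _ cd c (W j) (hψ j))) hfi (fun z => by
      have h1 : mu (sec (some (u z))) (lP (W (J z))) = 0 := by
        rw [mu_of_tv (c := 1) (y := lP (V z))
          (tv_one (mem_lP (G := (spPl _).G) (hJt z))) (lP_ne _), av_one, neg_zero]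
      have h2 := mem_FF cd (fun i => Cg_ct (sec (some (u z))) (un (sec (some (u z)))) (c i))
        (lam_Cg (u z) (pt_sec _)) (hJ z)
      rw [← (hom_ringHom ct).FF, hF z, map_zero] at h2
      have h3 := (le_av_iff (sp := sec (some (u z))) (hψ (J z)) 1).2 (by
        simpa only [pow_one, sub_zero] using h2.2.2)
      simp only [b, m, h1, mu1 _ _ (pt_sec _)]
      simpa using h3) hsum
  have hWF := thm_WF _ _ cl (Fin 27 × Bool) (fun _ => af lam) y (fun i => ψ i.1)
    (fun _ => af_ne lam) (fun i => lpt_ne _ _)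
    (fun i => hON X hid _ _ hb hf (hy i) (tri_lpt (hW i.1) _)) (fun i => hψ i.1) fun τ => by
      obtain ⟨e, he⟩ := thm_PERM (V4 Om × V4 Om) (Fin 27 × Bool) (fun i => (W i.1, y i))
        (fun p => (fun m => τ (p.1 m), fun m => τ (p.2 m)))
        (by
          rintro ⟨j, ε⟩ ⟨j', ε'⟩ e
          obtain rfl : j = j' := hL.inj (congrArg Prod.fst e)
          have e2 := congrFun (congrArg Prod.snd e) 1
          simp only [y, lpt_1] at e2
          cases ε <;> cases ε'
          exacts [rfl, absurd e2.symm (hne j), absurd e2 (hne j), rfl])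
        (fun p p' e => Prod.ext (funext fun m => τ.injective (congrFun (congrArg Prod.fst e) m))
          (funext fun m => τ.injective (congrFun (congrArg Prod.snd e) m)))
        (fun i => by
          obtain ⟨j', hj'⟩ := hτ τ i.1
          have e1 : (fun m => τ (y i m)) = lpt (W j') (τ (cond i.2 (r1 i.1) (r2 i.1))) :=
            funext fun m => by rw [(hom_gal τ).lpt, hj']
          have e2 := congrArg τ (hy i)
          rw [(hom_gal τ).qb, gal_ks, e1, map_zero, hr j'] at e2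
          rcases mul_eq_zero.1 ((mul_eq_zero.1 e2).resolve_left (hq j')) with h | h
          · exact ⟨(j', true), Prod.ext hj' (e1.trans (by rw [sub_eq_zero.1 h]; rfl))⟩
          · exact ⟨(j', false), Prod.ext hj' (e1.trans (by rw [sub_eq_zero.1 h]; rfl))⟩)
      refine ⟨e, fun i => ⟨congrFun (gal_af τ), congrFun (congrArg Prod.snd (he i)), ?_⟩⟩
      have e1 : (fun m => τ (W i.1 m)) = W (e i).1 := congrArg Prod.fst (he i)
      exact (gal_FF τ cd c (W i.1)).trans (by rw [e1])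
  have e3 : ∀ c', ∑ i : Fin 27 × Bool, av (sec c') (ψ i.1)
      * cl.cls (rd (sec c') (af lam)) (rd (sec c') (y i))
      = ∑ j, b c' j * s c' j + ∑ j, m c' j * s c' j := fun c' => by
    rw [Fintype.sum_prod_type, ← Finset.sum_add_distrib]
    refine Finset.sum_congr rfl fun j _ => ?_
    simp only [Fintype.sum_bool, b, s]
    ring
  simp only [e3] at hWF
  rw [finsum_add_distrib (fin_sum fun j => fin_mul (fb j) _) (fin_sum fun j => fin_mul (fm j) _),
    thm_LST (Fin 27) ζ1 (fun c' j => b c' j * s c' j) _ hfi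
      (fun c' j h => by rw [c2 c' j h, zero_mul])] at hWF
  rw [eq_neg_iff_add_eq_zero, ← hWF]
  congr 1
  refine Finset.sum_congr rfl fun z _ => ?_
  have hqz : qB ((Pen.of X).ks (af (u z))) (V z) ≠ 0 := (hS z).2 1
  obtain ⟨s1, s2, t1, t2, hs⟩ := al5 _ _ _ ((Pen.of X).ks (af (u z))) (V z) _ _ (hks (u z))
    (hJt z) hqz (hr (J z))
  have key : ∀ (r : Om) (t : ℂ), Tends (sec (some (u z))).v r t →
      cl.cls (rd (sec (some (u z))) (af lam)) (rd (sec (some (u z))) (lpt (W (J z)) r))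
        = cl.cls (af (u z)) (lpt (V z) t) := fun r t h =>
    cl.rd_eq (a := 1) (b := 1) (tv_one (tv_af (u z)))
      (tv_one (mem_cb (G := (spPl _).G) (mem_nat 1) (mem_lA (hJt z)) h (mem_lB (hJt z))))
      (af_ne _) (lpt_ne _ _)
  rw [c1 z, one_mul, aX, al4 _ _ _ _ _ hqz hs, ← key _ _ t1, ← key _ _ t2]
  rfl

end

end Pool.Agent.P.MP_7ebcb6_ag.SC
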