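import Pool.Agent.P.MP_7ebcb6_ag.SC.Sys

/-! The forms preserve every subring of a product of two fields (graphs of places, limits,
congruences). -/

namespace Pool.Agent.P.MP_7ebcb6_ag.SC

open G8

section

variable {K L : Type} [Field K] [Field L]

/-- Two families related by a subring of the product. -/
def MV (G : Subring (K × L)) {ι : Type} (x : ι → K) (y : ι → L) : Prop := ∀ i, (x i, y i) ∈ G

/-- A related pair as an element of the subring. -/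
def MV.el {G : Subring (K × L)} {ι : Type} {x : ι → K} {y : ι → L} (h : MV G x y) (i : ι) : G :=
  ⟨_, h i⟩

/-- Two tables of coefficients related by a subring of the product. -/
def PM (G : Subring (K × L)) (P : Pen K) (P' : Pen L) : Prop :=
  ∃ Q : Pen G, Q.map (gfst G) = P ∧ Q.map (gsnd G) = P'

lemma pm_of {G : Subring (K × L)} {a : ℕ → K} {a' : ℕ → L} (h : MV G a a') :
    PM G (Pen.of a) (Pen.of a') := ⟨Pen.of h.el, rfl, rfl⟩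

lemma mem_of_el {G : Subring (K × L)} (r : G) {a : K} {b : L} (h1 : gfst G r = a)
    (h2 : gsnd G r = b) : (a, b) ∈ G := h1 ▸ h2 ▸ r.2

lemma homF (G : Subring (K × L)) : Hom (gfst G) := hom_ringHom _

lemma homS (G : Subring (K × L)) : Hom (gsnd G) := hom_ringHom _

lemma Sys.mem' {π σ τ : Type} (S : Sys π σ τ) {G : Subring (K × L)} {a : π → K} {a' : π → L}
    {x : σ → K} {x' : σ → L} (ha : MV G a a') (hx : MV G x x') (t : τ) :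
    (S.ev a x t, S.ev a' x' t) ∈ G :=
  mem_of_el (S.ev ha.el hx.el t) (S.map _ _ _ _) (S.map _ _ _ _)

variable {G : Subring (K × L)}

lemma mem_nat (n : ℕ) : ((n : K), (n : L)) ∈ G := natCast_mem G n

lemma mem_add {a c : K} {b d : L} (h : (a, b) ∈ G) (h' : (c, d) ∈ G) : (a + c, b + d) ∈ G :=
  add_mem h h'

lemma mem_sub {a c : K} {b d : L} (h : (a, b) ∈ G) (h' : (c, d) ∈ G) : (a - c, b - d) ∈ G :=
  sub_mem h h'

lemma mem_mul {a c : K} {b d : L} (h : (a, b) ∈ G) (h' : (c, d) ∈ G) : (a * c, b * d) ∈ G :=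
  mul_mem h h'

lemma mem_neg {a : K} {b : L} (h : (a, b) ∈ G) : (-a, -b) ∈ G := neg_mem h

lemma mem_pow {a : K} {b : L} (h : (a, b) ∈ G) (n : ℕ) : (a ^ n, b ^ n) ∈ G := pow_mem h n

lemma mem_pl (n : ℕ) {c : ℕ → K} {c' : ℕ → L} (hc : MV G c c') {x : K} {x' : L} (hx : (x, x') ∈ G) :
    (pl n c x, pl n c' x') ∈ G :=
  mem_of_el (pl n hc.el ⟨_, hx⟩) ((homF G).pl ..) ((homS G).pl ..)

lemma mem_bf (n : ℕ) {c : ℕ → K} {c' : ℕ → L} (hc : MV G c c') {U : Fin 2 → K} {U' : Fin 2 → L}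
    (hU : MV G U U') :
    (bf n c U, bf n c' U') ∈ G :=
  mem_of_el (bf n hc.el hU.el) ((homF G).bf ..) ((homS G).bf ..)

lemma mem_af {u : K} {u' : L} (hu : (u, u') ∈ G) :
    MV G (af u) (af u') :=
  fun i => mem_of_el (af ⟨_, hu⟩ i) ((homF G).af ..) ((homS G).af ..)

lemma mem_dot {a : Fin 4 → K} {a' : Fin 4 → L} (ha : MV G a a') {b : Fin 4 → K} {b' : Fin 4 → L}
    (hb : MV G b b') :
    (dot a b, dot a' b') ∈ G :=
  mem_of_el (dot ha.el hb.el) ((homF G).dot ..) ((homS G).dot ..)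

lemma mem_cb {s : K} {s' : L} (hs : (s, s') ∈ G) {a : Fin 4 → K} {a' : Fin 4 → L} (ha : MV G a a')
    {t : K} {t' : L} (ht : (t, t') ∈ G) {b : Fin 4 → K} {b' : Fin 4 → L} (hb : MV G b b') :
    MV G (cb s a t b) (cb s' a' t' b') :=
  fun i => mem_of_el (cb ⟨_, hs⟩ ha.el ⟨_, ht⟩ hb.el i) ((homF G).cb ..) ((homS G).cb ..)

lemma mem_cb3 {r : K} {r' : L} (hr : (r, r') ∈ G) {a : Fin 4 → K} {a' : Fin 4 → L}
    (ha : MV G a a') {s : K} {s' : L} (hs : (s, s') ∈ G) {b : Fin 4 → K} {b' : Fin 4 → L}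
    (hb : MV G b b') {t : K} {t' : L} (ht : (t, t') ∈ G) {e : Fin 4 → K} {e' : Fin 4 → L}
    (he : MV G e e') :
    MV G (cb3 r a s b t e) (cb3 r' a' s' b' t' e') :=
  fun i => mem_of_el (cb3 ⟨_, hr⟩ ha.el ⟨_, hs⟩ hb.el ⟨_, ht⟩ he.el i) ((homF G).cb3 ..)
    ((homS G).cb3 ..)

lemma mem_qb {k : Fin 6 → K} {k' : Fin 6 → L} (hk : MV G k k') {a : Fin 4 → K} {a' : Fin 4 → L}
    (ha : MV G a a') {b : Fin 4 → K} {b' : Fin 4 → L} (hb : MV G b b') :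
    (qb k a b, qb k' a' b') ∈ G :=
  mem_of_el (qb hk.el ha.el hb.el) ((homF G).qb ..) ((homS G).qb ..)

lemma mem_tri {g : Fin 20 → K} {g' : Fin 20 → L} (hg : MV G g g') {a : Fin 4 → K} {a' : Fin 4 → L}
    (ha : MV G a a') {b : Fin 4 → K} {b' : Fin 4 → L} (hb : MV G b b') {e : Fin 4 → K}
    {e' : Fin 4 → L} (he : MV G e e') :
    (tri g a b e, tri g' a' b' e') ∈ G :=
  mem_of_el (tri hg.el ha.el hb.el he.el) ((homF G).tri ..) ((homS G).tri ..)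

lemma mem_qlc {k : Fin 6 → K} {k' : Fin 6 → L} (hk : MV G k k') {a : Fin 4 → K} {a' : Fin 4 → L}
    (ha : MV G a a') :
    MV G (qlc k a) (qlc k' a') :=
  fun i => mem_of_el (qlc hk.el ha.el i) ((homF G).qlc ..) ((homS G).qlc ..)

lemma mem_plk {a : Fin 4 → K} {a' : Fin 4 → L} (ha : MV G a a') {b : Fin 4 → K} {b' : Fin 4 → L}
    (hb : MV G b b') :
    MV G (plk a b) (plk a' b') :=
  fun i => mem_of_el (plk ha.el hb.el i) ((homF G).plk ..) ((homS G).plk ..)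

lemma mem_pp {p : Fin 6 → K} {p' : Fin 6 → L} (hp : MV G p p') {q : Fin 6 → K} {q' : Fin 6 → L}
    (hq : MV G q q') :
    (pp p q, pp p' q') ∈ G :=
  mem_of_el (pp hp.el hq.el) ((homF G).pp ..) ((homS G).pp ..)

lemma mem_det4 {a : Fin 4 → K} {a' : Fin 4 → L} (ha : MV G a a') {b : Fin 4 → K} {b' : Fin 4 → L}
    (hb : MV G b b') {e : Fin 4 → K} {e' : Fin 4 → L} (he : MV G e e') {w : Fin 4 → K}
    {w' : Fin 4 → L} (hw : MV G w w') :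
    (det4 a b e w, det4 a' b' e' w') ∈ G :=
  mem_of_el (det4 ha.el hb.el he.el hw.el) ((homF G).det4 ..) ((homS G).det4 ..)

lemma mem_res22 {a0 : K} {a0' : L} (ha0 : (a0, a0') ∈ G) {a1 : K} {a1' : L} (ha1 : (a1, a1') ∈ G)
    {a2 : K} {a2' : L} (ha2 : (a2, a2') ∈ G) {b0 : K} {b0' : L} (hb0 : (b0, b0') ∈ G) {b1 : K}
    {b1' : L} (hb1 : (b1, b1') ∈ G) {b2 : K} {b2' : L} (hb2 : (b2, b2') ∈ G) :
    (res22 a0 a1 a2 b0 b1 b2, res22 a0' a1' a2' b0' b1' b2') ∈ G :=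
  mem_of_el (res22 ⟨_, ha0⟩ ⟨_, ha1⟩ ⟨_, ha2⟩ ⟨_, hb0⟩ ⟨_, hb1⟩ ⟨_, hb2⟩) ((homF G).res22 ..)
    ((homS G).res22 ..)

lemma mem_res23 {a0 : K} {a0' : L} (ha0 : (a0, a0') ∈ G) {a1 : K} {a1' : L} (ha1 : (a1, a1') ∈ G)
    {a2 : K} {a2' : L} (ha2 : (a2, a2') ∈ G) {b0 : K} {b0' : L} (hb0 : (b0, b0') ∈ G) {b1 : K}
    {b1' : L} (hb1 : (b1, b1') ∈ G) {b2 : K} {b2' : L} (hb2 : (b2, b2') ∈ G) {b3 : K} {b3' : L}
    (hb3 : (b3, b3') ∈ G) :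
    (res23 a0 a1 a2 b0 b1 b2 b3, res23 a0' a1' a2' b0' b1' b2' b3') ∈ G :=
  mem_of_el (res23 ⟨_, ha0⟩ ⟨_, ha1⟩ ⟨_, ha2⟩ ⟨_, hb0⟩ ⟨_, hb1⟩ ⟨_, hb2⟩ ⟨_, hb3⟩)
    ((homF G).res23 ..) ((homS G).res23 ..)

lemma mem_Rs {g : Fin 20 → K} {g' : Fin 20 → L} (hg : MV G g g') {x : Fin 4 → K} {x' : Fin 4 → L}
    (hx : MV G x x') {a : Fin 4 → K} {a' : Fin 4 → L} (ha : MV G a a') {b : Fin 4 → K}
    {b' : Fin 4 → L} (hb : MV G b b') :
    (Rs g x a b, Rs g' x' a' b') ∈ G :=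
  mem_of_el (Rs hg.el hx.el ha.el hb.el) ((homF G).Rs ..) ((homS G).Rs ..)

lemma mem_resQ {k : Fin 6 → K} {k' : Fin 6 → L} (hk : MV G k k') {g : Fin 20 → K}
    {g' : Fin 20 → L} (hg : MV G g g') {a : Fin 4 → K} {a' : Fin 4 → L} (ha : MV G a a')
    {b : Fin 4 → K} {b' : Fin 4 → L} (hb : MV G b b') :
    (resQ k g a b, resQ k' g' a' b') ∈ G :=
  mem_of_el (resQ hk.el hg.el ha.el hb.el) ((homF G).resQ ..) ((homS G).resQ ..)

lemma mem_gram {k : Fin 6 → K} {k' : Fin 6 → L} (hk : MV G k k') {a : Fin 4 → K} {a' : Fin 4 → L}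
    (ha : MV G a a') {b : Fin 4 → K} {b' : Fin 4 → L} (hb : MV G b b') {e : Fin 4 → K}
    {e' : Fin 4 → L} (he : MV G e e') :
    (gram k a b e, gram k' a' b' e') ∈ G :=
  mem_of_el (gram hk.el ha.el hb.el he.el) ((homF G).gram ..) ((homS G).gram ..)

lemma mem_th1 {g : Fin 20 → K} {g' : Fin 20 → L} (hg : MV G g g') {x : Fin 4 → K} {x' : Fin 4 → L}
    (hx : MV G x x') :
    MV G (th1 g x) (th1 g' x') :=
  fun i => mem_of_el (th1 hg.el hx.el i) ((homF G).th1 ..) ((homS G).th1 ..)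

lemma mem_th2 {g : Fin 20 → K} {g' : Fin 20 → L} (hg : MV G g g') {x : Fin 4 → K} {x' : Fin 4 → L}
    (hx : MV G x x') :
    MV G (th2 g x) (th2 g' x') :=
  fun i => mem_of_el (th2 hg.el hx.el i) ((homF G).th2 ..) ((homS G).th2 ..)

lemma mem_lA {W : Fin 4 → K} {W' : Fin 4 → L} (hW : MV G W W') :
    MV G (lA W) (lA W') :=
  fun i => mem_of_el (lA hW.el i) ((homF G).lA ..) ((homS G).lA ..)

lemma mem_lB {W : Fin 4 → K} {W' : Fin 4 → L} (hW : MV G W W') :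
    MV G (lB W) (lB W') :=
  fun i => mem_of_el (lB hW.el i) ((homF G).lB ..) ((homS G).lB ..)

lemma mem_lP {W : Fin 4 → K} {W' : Fin 4 → L} (hW : MV G W W') :
    MV G (lP W) (lP W') :=
  fun i => mem_of_el (lP hW.el i) ((homF G).lP ..) ((homS G).lP ..)

lemma mem_lnE {g : Fin 20 → K} {g' : Fin 20 → L} (hg : MV G g g') {W : Fin 4 → K} {W' : Fin 4 → L}
    (hW : MV G W W') :
    MV G (lnE g W) (lnE g' W') :=
  fun i => mem_of_el (lnE hg.el hW.el i) ((homF G).lnE ..) ((homS G).lnE ..)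

lemma mem_lnJ {g : Fin 20 → K} {g' : Fin 20 → L} (hg : MV G g g') {W : Fin 4 → K} {W' : Fin 4 → L}
    (hW : MV G W W') :
    (lnJ g W, lnJ g' W') ∈ G :=
  mem_of_el (lnJ hg.el hW.el) ((homF G).lnJ ..) ((homS G).lnJ ..)

lemma mem_Fev (n : ℕ) (ie : ℕ → ℕ) (al : ℕ → Fin 4 → Fin 6) {c : ℕ → K} {c' : ℕ → L}
    (hc : MV G c c') {u : K} {u' : L} (hu : (u, u') ∈ G) {p : Fin 6 → K} {p' : Fin 6 → L}
    (hp : MV G p p') :
    (Fev n ie al c u p, Fev n ie al c' u' p') ∈ G :=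
  mem_of_el (Fev n ie al hc.el ⟨_, hu⟩ hp.el) ((homF G).Fev ..) ((homS G).Fev ..)

lemma mem_kk {P : Pen K} {P' : Pen L} (hP : PM G P P') (a : Fin 2) {U : Fin 2 → K}
    {U' : Fin 2 → L} (hU : MV G U U') :
    MV G (Pen.kk P a U) (Pen.kk P' a U') := by
  obtain ⟨Q, rfl, rfl⟩ := hP
  exact fun i => mem_of_el (Pen.kk Q a hU.el i) ((homF G).kk ..) ((homS G).kk ..)

lemma mem_gc {P : Pen K} {P' : Pen L} (hP : PM G P P') {U : Fin 2 → K} {U' : Fin 2 → L}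
    (hU : MV G U U') :
    MV G (Pen.gc P U) (Pen.gc P' U') := by
  obtain ⟨Q, rfl, rfl⟩ := hP
  exact fun i => mem_of_el (Pen.gc Q hU.el i) ((homF G).gc ..) ((homS G).gc ..)

lemma mem_nuv {P : Pen K} {P' : Pen L} (hP : PM G P P') {U : Fin 2 → K} {U' : Fin 2 → L}
    (hU : MV G U U') :
    (Pen.nuv P U, Pen.nuv P' U') ∈ G := by
  obtain ⟨Q, rfl, rfl⟩ := hP
  exact mem_of_el (Pen.nuv Q hU.el) ((homF G).nuv ..) ((homS G).nuv ..)

lemma mem_ff {P : Pen K} {P' : Pen L} (hP : PM G P P') (s : Fin 4) (a : Fin 2) {U : Fin 2 → K}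
    {U' : Fin 2 → L} (hU : MV G U U') :
    (Pen.ff P s a U, Pen.ff P' s a U') ∈ G := by
  obtain ⟨Q, rfl, rfl⟩ := hP
  exact mem_of_el (Pen.ff Q s a hU.el) ((homF G).ff ..) ((homS G).ff ..)

lemma mem_nn {P : Pen K} {P' : Pen L} (hP : PM G P P') (s : Fin 4) {U : Fin 2 → K}
    {U' : Fin 2 → L} (hU : MV G U U') :
    MV G (Pen.nn P s U) (Pen.nn P' s U') := by
  obtain ⟨Q, rfl, rfl⟩ := hP
  exact fun i => mem_of_el (Pen.nn Q s hU.el i) ((homF G).nn ..) ((homS G).nn ..)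

lemma mem_gg {P : Pen K} {P' : Pen L} (hP : PM G P P') (s : Fin 6) {U : Fin 2 → K}
    {U' : Fin 2 → L} (hU : MV G U U') :
    MV G (Pen.gg P s U) (Pen.gg P' s U') := by
  obtain ⟨Q, rfl, rfl⟩ := hP
  exact fun i => mem_of_el (Pen.gg Q s hU.el i) ((homF G).gg ..) ((homS G).gg ..)

lemma mem_be {P : Pen K} {P' : Pen L} (hP : PM G P P') (s t : Fin 4) {U : Fin 2 → K}
    {U' : Fin 2 → L} (hU : MV G U U') :
    (Pen.be P s t U, Pen.be P' s t U') ∈ G := by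
  obtain ⟨Q, rfl, rfl⟩ := hP
  exact mem_of_el (Pen.be Q s t hU.el) ((homF G).be ..) ((homS G).be ..)

lemma mem_dt {P : Pen K} {P' : Pen L} (hP : PM G P P') (s t : Fin 4) {U : Fin 2 → K}
    {U' : Fin 2 → L} (hU : MV G U U') :
    MV G (Pen.dt P s t U) (Pen.dt P' s t U') := by
  obtain ⟨Q, rfl, rfl⟩ := hP
  exact fun i => mem_of_el (Pen.dt Q s t hU.el i) ((homF G).dt ..) ((homS G).dt ..)

lemma mem_ks {P : Pen K} {P' : Pen L} (hP : PM G P P') {U : Fin 2 → K} {U' : Fin 2 → L}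
    (hU : MV G U U') :
    MV G (Pen.ks P U) (Pen.ks P' U') := by
  obtain ⟨Q, rfl, rfl⟩ := hP
  exact fun i => mem_of_el (Pen.ks Q hU.el i) ((homF G).ks ..) ((homS G).ks ..)

lemma mem_cs {P : Pen K} {P' : Pen L} (hP : PM G P P') {U : Fin 2 → K} {U' : Fin 2 → L}
    (hU : MV G U U') :
    MV G (Pen.cs P U) (Pen.cs P' U') := by
  obtain ⟨Q, rfl, rfl⟩ := hP
  exact fun i => mem_of_el (Pen.cs Q hU.el i) ((homF G).cs ..) ((homS G).cs ..)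

lemma mem_G {P : Pen K} {P' : Pen L} (hP : PM G P P') {U : Fin 2 → K} {U' : Fin 2 → L}
    (hU : MV G U U') :
    MV G (Pen.G P U) (Pen.G P' U') := by
  obtain ⟨Q, rfl, rfl⟩ := hP
  exact fun i => mem_of_el (Pen.G Q hU.el i) ((homF G).G ..) ((homS G).G ..)

lemma mem_B {P : Pen K} {P' : Pen L} (hP : PM G P P') {U : Fin 2 → K} {U' : Fin 2 → L}
    (hU : MV G U U') :
    (Pen.B P U, Pen.B P' U') ∈ G := by
  obtain ⟨Q, rfl, rfl⟩ := hP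
  exact mem_of_el (Pen.B Q hU.el) ((homF G).B ..) ((homS G).B ..)

lemma mem_Pl {P : Pen K} {P' : Pen L} (hP : PM G P P') {U : Fin 2 → K} {U' : Fin 2 → L}
    (hU : MV G U U') :
    MV G (Pen.Pl P U) (Pen.Pl P' U') := by
  obtain ⟨Q, rfl, rfl⟩ := hP
  exact fun i => mem_of_el (Pen.Pl Q hU.el i) ((homF G).Pl ..) ((homS G).Pl ..)

lemma mem_d023 {P : Pen K} {P' : Pen L} (hP : PM G P P') {U : Fin 2 → K} {U' : Fin 2 → L}
    (hU : MV G U U') {Y : Fin 4 → K} {Y' : Fin 4 → L} (hY : MV G Y Y') :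
    (Pen.d023 P U Y, Pen.d023 P' U' Y') ∈ G := by
  obtain ⟨Q, rfl, rfl⟩ := hP
  exact mem_of_el (Pen.d023 Q hU.el hY.el) ((homF G).d023 ..) ((homS G).d023 ..)

lemma mem_cf {C : ℕ → K} {C' : ℕ → L} (hC : MV G C C') {x : K} {x' : L} (hx : (x, x') ∈ G) {z : K}
    {z' : L} (hz : (z, z') ∈ G) :
    (cf C x z, cf C' x' z') ∈ G :=
  mem_of_el (cf hC.el ⟨_, hx⟩ ⟨_, hz⟩) ((homF G).cf ..) ((homS G).cf ..)

lemma mem_cfz {C : ℕ → K} {C' : ℕ → L} (hC : MV G C C') {x : K} {x' : L} (hx : (x, x') ∈ G)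
    {z : K} {z' : L} (hz : (z, z') ∈ G) :
    (cfz C x z, cfz C' x' z') ∈ G :=
  mem_of_el (cfz hC.el ⟨_, hx⟩ ⟨_, hz⟩) ((homF G).cfz ..) ((homS G).cfz ..)

lemma mem_cU {C : ℕ → K} {C' : ℕ → L} (hC : MV G C C') {x : K} {x' : L} (hx : (x, x') ∈ G) {z : K}
    {z' : L} (hz : (z, z') ∈ G) :
    MV G (cU C x z) (cU C' x' z') :=
  fun i => mem_of_el (cU hC.el ⟨_, hx⟩ ⟨_, hz⟩ i) ((homF G).cU ..) ((homS G).cU ..)

lemma mem_cY {C : ℕ → K} {C' : ℕ → L} (hC : MV G C C') {x : K} {x' : L} (hx : (x, x') ∈ G) {z : K}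
    {z' : L} (hz : (z, z') ∈ G) :
    MV G (cY C x z) (cY C' x' z') :=
  fun i => mem_of_el (cY hC.el ⟨_, hx⟩ ⟨_, hz⟩ i) ((homF G).cY ..) ((homS G).cY ..)

lemma mem_ee (j : Fin 4) : MV G (ee j) (ee j) :=
  fun i => mem_of_el (ee j i) ((homF G).ee ..) ((homS G).ee ..)

end

lemma mv_sp {sp : Sp} {ι : Type} {x : ι → Om} {y : ι → ℂ} : MV (spPl sp).G x y ↔ TV sp x y :=
  Iff.rfl

lemma tv_ct (sp : Sp) {ι : Type} (y : ι → ℂ) : TV sp (fun i => ct (y i)) y :=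
  fun i => Tends.const (y i)

/-- A complex number as a pair in the ring of limits. -/
noncomputable def cIR (sp : Sp) (c : ℂ) : IR sp := ⟨(ct c, c), Tends.const (v := sp.v) c⟩

lemma pm_ct (sp : Sp) (P : Pen ℂ) : PM (spPl sp).G (P.map ct) P := ⟨P.map (cIR sp), rfl, rfl⟩

/-- Pairs of integral elements that are congruent modulo `e`. -/
def Cg (sp : Sp) (e : Om) : Subring (Om × Om) where
  carrier := {p | sp.v p.1 ≤ 1 ∧ sp.v p.2 ≤ 1 ∧ sp.v (p.1 - p.2) ≤ sp.v e}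
  mul_mem' := by
    rintro ⟨a, b⟩ ⟨c, d⟩ ⟨h1, h2, h3⟩ ⟨h4, h5, h6⟩
    refine ⟨by simpa using mul_le_one' h1 h4, by simpa using mul_le_one' h2 h5, ?_⟩
    have : a * c - b * d = a * (c - d) + d * (a - b) := by ring
    change sp.v (a * c - b * d) ≤ _
    rw [this]
    refine Valuation.map_add_le _ ?_ ?_ <;> rw [map_mul]
    exacts [(mul_le_of_le_one_left' h1).trans h6, (mul_le_of_le_one_left' h5).trans h3]
  one_mem' := by simp
  add_mem' := by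
    rintro ⟨a, b⟩ ⟨c, d⟩ ⟨h1, h2, h3⟩ ⟨h4, h5, h6⟩
    refine ⟨Valuation.map_add_le _ h1 h4, Valuation.map_add_le _ h2 h5, ?_⟩
    change sp.v (a + c - (b + d)) ≤ _
    rw [add_sub_add_comm]
    exact Valuation.map_add_le _ h3 h6
  zero_mem' := by simp
  neg_mem' := by
    rintro ⟨a, b⟩ ⟨h1, h2, h3⟩
    refine ⟨by simpa using h1, by simpa using h2, ?_⟩
    change sp.v (-a - -b) ≤ _
    rwa [← neg_sub', Valuation.map_neg]

lemma mem_Cg {sp : Sp} {e a b : Om} :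
    (a, b) ∈ Cg sp e ↔ sp.v a ≤ 1 ∧ sp.v b ≤ 1 ∧ sp.v (a - b) ≤ sp.v e := Iff.rfl

lemma Cg_refl {sp : Sp} (e : Om) {a : Om} (h : sp.v a ≤ 1) : (a, a) ∈ Cg sp e :=
  ⟨h, h, by simp⟩

lemma Cg_ct (sp : Sp) (e : Om) (c : ℂ) : (ct c, ct c) ∈ Cg sp e :=
  Cg_refl e (Tends.const c).le_one

lemma pm_Cg (sp : Sp) (e : Om) (P : Pen ℂ) : PM (Cg sp e) (P.map ct) (P.map ct) :=
  ⟨P.map fun c => ⟨_, Cg_ct sp e c⟩, rfl, rfl⟩

lemma tends_of_Cg {sp : Sp} {e a : Om} {c : ℂ} (he : sp.v e < 1) (h : (a, ct c) ∈ Cg sp e) :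
    Tends sp.v a c := h.2.2.trans_lt he

/-- `a = c + O(e)`. -/
def Nr (sp : Sp) (e : Om) {ι : Type} (x : ι → Om) (y : ι → ℂ) : Prop :=
  MV (Cg sp e) x fun i => ct (y i)

lemma Nr.tv {sp : Sp} {e : Om} {ι : Type} {x : ι → Om} {y : ι → ℂ} (he : sp.v e < 1)
    (h : Nr sp e x y) : TV sp x y := fun i => tends_of_Cg he (h i)

lemma lam_Cg (c : ℂ) {sp : Sp} (h : pt sp = some c) : (lam, ct c) ∈ Cg sp (un sp) :=
  ⟨(pt_eq_some.mp h).le_one, (Tends.const c).le_one, by rw [un, h]; exact le_rfl⟩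

end Pool.Agent.P.MP_7ebcb6_ag.SC
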