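import Mathlib

/-! Bare ring operations, maps that respect them, dual numbers and quartic algebras. -/

namespace Pool.Agent.P.MP_7ebcb6_ag.SC

/-- A map that respects the bare ring operations. -/
structure Hom {R S : Type} [Add R] [Sub R] [Mul R] [NatCast R] [Add S] [Sub S] [Mul S] [NatCast S]
    (f : R → S) : Prop where
  add : ∀ x y, f (x + y) = f x + f y
  sub : ∀ x y, f (x - y) = f x - f y
  mul : ∀ x y, f (x * y) = f x * f y
  nat : ∀ n : ℕ, f (n : R) = (n : S)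

lemma hom_ringHom {R S : Type} [CommRing R] [CommRing S] (f : R →+* S) : Hom f :=
  ⟨f.map_add, f.map_sub, f.map_mul, map_natCast f⟩

lemma Hom.comp {R S T : Type} [Add R] [Sub R] [Mul R] [NatCast R] [Add S] [Sub S] [Mul S]
    [NatCast S] [Add T] [Sub T] [Mul T] [NatCast T] {f : R → S} {g : S → T} (hg : Hom g)
    (hf : Hom f) : Hom fun x => g (f x) :=
  ⟨fun x y => by rw [hf.add, hg.add], fun x y => by rw [hf.sub, hg.sub],
    fun x y => by rw [hf.mul, hg.mul], fun n => by rw [hf.nat, hg.nat]⟩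

/-- Evaluate `n` before passing it on. -/
def frc {α : Type} (n : ℕ) (k : ℕ → α) : α :=
  Nat.rec (motive := fun _ => α) (k 0) (fun m _ => k m.succ) n

lemma frc_eq {α : Type} (n : ℕ) (k : ℕ → α) : frc n k = k n := by cases n <;> rfl

section

variable {R S : Type} [Add R] [Sub R] [Mul R] [NatCast R] [Add S] [Sub S] [Mul S] [NatCast S]

/-- Dual numbers over bare operations. -/
@[ext] structure Du (R : Type) where
  a : R
  b : R

instance : Add (Du R) := ⟨fun x y => ⟨x.a + y.a, x.b + y.b⟩⟩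
instance : Sub (Du R) := ⟨fun x y => ⟨x.a - y.a, x.b - y.b⟩⟩
instance : Mul (Du R) := ⟨fun x y => ⟨x.a * y.a, x.a * y.b + x.b * y.a⟩⟩
instance : NatCast (Du R) := ⟨fun n => ⟨(n : R), ((0 : ℕ) : R)⟩⟩

def Du.map {R S : Type} (f : R → S) (x : Du R) : Du S := ⟨f x.a, f x.b⟩

lemma Hom.du {f : R → S} (h : Hom f) : Hom (Du.map f) where
  add x y := Du.ext (h.add _ _) (h.add _ _)
  sub x y := Du.ext (h.sub _ _) (h.sub _ _)
  mul x y := Du.ext (h.mul _ _) (by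
    change f (x.a * y.b + x.b * y.a) = f x.a * f y.b + f x.b * f y.a
    rw [h.add, h.mul, h.mul])
  nat n := Du.ext (h.nat n) (h.nat 0)

lemma hom_du_a : Hom (Du.a : Du R → R) := ⟨fun _ _ => rfl, fun _ _ => rfl, fun _ _ => rfl,
  fun _ => rfl⟩

/-- The algebra `R[z] / (z ^ 4 - c 0 - c 1 z - c 2 z ^ 2 - c 3 z ^ 3)` over bare operations. -/
@[ext] structure Q4 {R : Type} (c : Fin 4 → R) where
  x0 : R
  x1 : R
  x2 : R
  x3 : R

variable {c : Fin 4 → R}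

instance : Add (Q4 c) := ⟨fun x y => ⟨x.x0 + y.x0, x.x1 + y.x1, x.x2 + y.x2, x.x3 + y.x3⟩⟩
instance : Sub (Q4 c) := ⟨fun x y => ⟨x.x0 - y.x0, x.x1 - y.x1, x.x2 - y.x2, x.x3 - y.x3⟩⟩
instance : NatCast (Q4 c) := ⟨fun n => ⟨(n : R), ((0 : ℕ) : R), ((0 : ℕ) : R), ((0 : ℕ) : R)⟩⟩

def Q4.mul (x y : Q4 c) : Q4 c :=
  let k6 := x.x3 * y.x3
  let k5 := x.x2 * y.x3 + x.x3 * y.x2 + k6 * c 3
  let k4 := x.x1 * y.x3 + x.x2 * y.x2 + x.x3 * y.x1 + k6 * c 2 + k5 * c 3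
  ⟨x.x0 * y.x0 + k4 * c 0,
    x.x0 * y.x1 + x.x1 * y.x0 + k5 * c 0 + k4 * c 1,
    x.x0 * y.x2 + x.x1 * y.x1 + x.x2 * y.x0 + k6 * c 0 + k5 * c 1 + k4 * c 2,
    x.x0 * y.x3 + x.x1 * y.x2 + x.x2 * y.x1 + x.x3 * y.x0 + k6 * c 1 + k5 * c 2 + k4 * c 3⟩

instance : Mul (Q4 c) := ⟨Q4.mul⟩

/-- A scalar as an element of the quartic algebra. -/
def Q4.sc (c : Fin 4 → R) (a : R) : Q4 c := ⟨a, ((0 : ℕ) : R), ((0 : ℕ) : R), ((0 : ℕ) : R)⟩

/-- The components of an element of the quartic algebra. -/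
def Q4.co {R : Type} {c : Fin 4 → R} (x : Q4 c) : Fin 4 → R := ![x.x0, x.x1, x.x2, x.x3]

def Q4.map {R S : Type} (f : R → S) {c : Fin 4 → R} (x : Q4 c) : Q4 fun i => f (c i) :=
  ⟨f x.x0, f x.x1, f x.x2, f x.x3⟩

lemma Hom.q4 {f : R → S} (h : Hom f) (c : Fin 4 → R) : Hom (Q4.map f (c := c)) where
  add x y := Q4.ext (h.add _ _) (h.add _ _) (h.add _ _) (h.add _ _)
  sub x y := Q4.ext (h.sub _ _) (h.sub _ _) (h.sub _ _) (h.sub _ _)
  mul x y := by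
    change Q4.map f (Q4.mul x y) = Q4.mul _ _
    simp only [Q4.mul, Q4.map, h.add, h.mul]
  nat n := Q4.ext (h.nat n) (h.nat 0) (h.nat 0) (h.nat 0)

end

/-- The dual numbers over bare operations as the dual numbers of Mathlib. -/
def Du.dn {R : Type} (x : Du R) : DualNumber R := (x.a, x.b)

lemma hom_dn {R : Type} [CommRing R] : Hom (Du.dn : Du R → DualNumber R) where
  add _ _ := rfl
  sub x y := TrivSqZeroExt.ext rfl rfl
  mul x y := TrivSqZeroExt.ext rfl (by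
    rw [DualNumber.snd_mul]
    rfl)
  nat n := TrivSqZeroExt.ext (by rw [TrivSqZeroExt.fst_natCast]; rfl) (by
    rw [TrivSqZeroExt.snd_natCast]
    exact Nat.cast_zero)

/-- Evaluation of the quartic algebra at a root. -/
def Q4.ev {R A : Type} [CommRing A] (φ : R → A) (z : A) {c : Fin 4 → R} (x : Q4 c) : A :=
  φ x.x0 + φ x.x1 * z + φ x.x2 * z ^ 2 + φ x.x3 * z ^ 3

lemma Hom.q4ev {R A : Type} [Add R] [Sub R] [Mul R] [NatCast R] [CommRing A] {φ : R → A}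
    (h : Hom φ) {c : Fin 4 → R} {z : A}
    (hz : z ^ 4 = φ (c 0) + φ (c 1) * z + φ (c 2) * z ^ 2 + φ (c 3) * z ^ 3) :
    Hom (Q4.ev φ z (c := c)) where
  add x y := by
    change φ (x.x0 + y.x0) + φ (x.x1 + y.x1) * z + φ (x.x2 + y.x2) * z ^ 2
      + φ (x.x3 + y.x3) * z ^ 3 = _
    simp only [Q4.ev, h.add]
    ring
  sub x y := by
    change φ (x.x0 - y.x0) + φ (x.x1 - y.x1) * z + φ (x.x2 - y.x2) * z ^ 2
      + φ (x.x3 - y.x3) * z ^ 3 = _
    simp only [Q4.ev, h.sub]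
    ring
  mul x y := by
    change Q4.ev φ z (Q4.mul x y) = _
    simp only [Q4.ev, Q4.mul, h.add, h.mul]
    linear_combination (-(φ x.x1 * φ y.x3 + φ x.x2 * φ y.x2 + φ x.x3 * φ y.x1
      + φ x.x3 * φ y.x3 * φ (c 2) + (φ x.x2 * φ y.x3 + φ x.x3 * φ y.x2
        + φ x.x3 * φ y.x3 * φ (c 3)) * φ (c 3))
      - (φ x.x2 * φ y.x3 + φ x.x3 * φ y.x2 + φ x.x3 * φ y.x3 * φ (c 3)) * z
      - φ x.x3 * φ y.x3 * z ^ 2) * hz
  nat n := by
    change φ (n : R) + φ ((0 : ℕ) : R) * z + φ ((0 : ℕ) : R) * z ^ 2 + φ ((0 : ℕ) : R) * z ^ 3 = _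
    simp only [h.nat, Nat.cast_zero, zero_mul, add_zero]

end Pool.Agent.P.MP_7ebcb6_ag.SC
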