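import Pool.Agent.P.MP_7ebcb6_ag.SC.Pq
import Pool.Agent.P.MP_7ebcb6_ag.SC.Ca

/-! Checks for solutions of systems in algebras `𝔽₁₀₁[X] / g`. -/

namespace Pool.Agent.P.MP_7ebcb6_ag.SC

open Function

variable {K : Type} [Field K]

/-- The constants for the polynomial of degree `N` with table `gn`. -/
noncomputable def mkC (N gn gi : ℕ) : Cfg :=
  ⟨N, 64 * N, 64 * (N - 1), 2 ^ (64 * N), spr 64 (N + 1) gn, spr 64 N gi, 33554431 * ons 64 (2 * N),
    ons 64 N, 127 * ons 64 N⟩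

lemma mkC_ok {N gn : ℕ} (gi : ℕ) {ω : K} (h0 : 0 < N) (h1 : N ≤ 250)
    (h : sv ω (N + 1) gn = 0) : (mkC N gn gi).ok ω :=
  ⟨h0, h1, rfl, rfl, rfl, h ▸ Rw.spr ω (N + 1) gn⟩

/-- Evaluate the constants before passing them on. -/
noncomputable def Cfg.frc (c : Cfg) (k : Cfg → Bool) : Bool :=
  fr1 c.N fun N => fr1 c.s fun s => fr1 c.s1 fun s1 => fr1 c.BN fun BN =>
    fr1 c.gn fun gn => fr1 c.gi fun gi => fr1 c.lo fun lo => fr1 c.o1 fun o1 =>
      fr1 c.m7 fun m7 => k ⟨N, s, s1, BN, gn, gi, lo, o1, m7⟩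

lemma Cfg.frc_eq (c : Cfg) (k : Cfg → Bool) : c.frc k = k c := by simp only [Cfg.frc, fr1_eq]

section inputs

variable {c : Cfg} {ω : K}

/-- A packed polynomial with small coefficients. -/
noncomputable def el (c : Cfg) (v : ℕ) : PK c := fr1 v fun v => ⟨v, 127⟩

/-- The polynomial with table `t`. -/
noncomputable def inp (c : Cfg) (t : ℕ) : PK c := el c (spr 64 c.N t)

lemma rk_inp (t : ℕ) : RK ω (inp c t) (sv ω c.N t) :=
  RK.fc (k := fun v => ⟨v, 127⟩) ⟨by norm_num, fun _ => Rw.spr ω c.N t⟩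

noncomputable def vec (c : Cfg) (l : List ℕ) {n : ℕ} : Fin n → PK c :=
  fun i => el c (nth 0 l i.val)

/-- The values at `ω` of a list of tables. -/
noncomputable def svl (ω : K) (N : ℕ) (l : List ℕ) {n : ℕ} : Fin n → K :=
  fun i => sv ω N (nth 0 l i.val)

lemma rk_vec (l : List ℕ) {n : ℕ} (i : Fin n) :
    RK ω (vec c (l.map (spr 64 c.N)) i) (svl ω c.N l i) := by
  have := nth_map (spr 64 c.N) 0 l i.val
  rw [spr_zero] at this
  unfold vec
  rw [this]
  exact rk_inp _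

/-- The entries of a table as constants. -/
noncomputable def tb7 (c : Cfg) (t : ℕ) : ℕ → PK c := fun k => fr1 (dg t k) fun v => ⟨v, v.succ⟩

/-- The entries of a table in a field. -/
def tk (K : Type) [Field K] (t : ℕ) : ℕ → K := fun k => (dg t k : K)

lemma rk_tb7 (hc : c.ok ω) (t k : ℕ) : RK ω (tb7 c t k) (tk K t k) :=
  RK.fc ⟨Nat.succ_pos _, fun _ => (Rw.con _).mono hc.pos (Nat.le_succ _)⟩

lemma rk_elim {α β : Type} {a : α → PK c} {b : β → PK c} {a' : α → K} {b' : β → K}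
    (ha : ∀ i, RK ω (a i) (a' i)) (hb : ∀ i, RK ω (b i) (b' i)) (i : α ⊕ β) :
    RK ω (Sum.elim a b i) (Sum.elim a' b' i) := by
  cases i
  exacts [ha _, hb _]

lemma sv_X (ω : K) {N : ℕ} (h : 2 ≤ N) : sv ω N 128 = ω := by
  obtain ⟨n, rfl⟩ := Nat.exists_eq_add_of_le' h
  rw [sv, pl_eq, Finset.sum_range_succ', Finset.sum_range_succ', Finset.sum_eq_zero]
  · simp [dg_eq]
  · intro i _
    rw [dg_big (n := 2) (by norm_num) (by omega), Nat.cast_zero, zero_mul]

lemma sq_tk {n t : ℕ} (h : t < 2 ^ (7 * n)) : sq (fun i : Fin n => tk K t i.val) = tk K t := by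
  funext k
  unfold sq
  split_ifs with hk
  · rfl
  · rw [tk, dg_big h (by omega)]

variable [CharP K 101]

lemma rk_zero (hc : c.ok ω) : RK ω ((0 : ℕ) : PK c) 0 := Nat.cast_zero (R := K) ▸ (cp_RK hc).nat 0

lemma rk_one (hc : c.ok ω) : RK ω ((1 : ℕ) : PK c) 1 := Nat.cast_one (R := K) ▸ (cp_RK hc).nat 1

/-- The polynomial with table `t` and `n` coefficients, reduced. -/
noncomputable def inl (c : Cfg) (n t : ℕ) : PK c := fr1 (spr 64 n t) (lng c)

lemma rk_inl (hc : c.ok ω) (n t : ℕ) : RK ω (inl c n t) (sv ω n t) :=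
  RK.fc (rk_lng hc (Rw.spr ω n t) (by norm_num))

end inputs

section checks

variable {c : Cfg} {ω : K} {τ : Type} [CharP K 101]

noncomputable def zs (f : τ → PK c) (l : List τ) : Bool := l.all fun t => (f t).isz

lemma zs_ok (hc : c.ok ω) {f : τ → PK c} {f' : τ → K} (h : ∀ t, RK ω (f t) (f' t)) {l : List τ}
    (hl : ∀ t, t ∈ l) (e : zs f l = true) (t : τ) : f' t = 0 :=
  (h t).isz hc (List.all_eq_true.mp e t (hl t))

noncomputable def prl (f : τ → PK c) (y : PK c) (l : List τ) : PK c :=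
  List.rec (motive := fun _ => PK c) y (fun t _ r => f t * r) l

/-- The product of the values has the inverse with table `i`. -/
noncomputable def nzs (f : τ → PK c) (l : List τ) (i : ℕ) : Bool :=
  (prl f (inp c i) l - ((1 : ℕ) : PK c)).isz

lemma rk_prl (hc : c.ok ω) {f : τ → PK c} {f' : τ → K} (h : ∀ t, RK ω (f t) (f' t)) {y : PK c}
    {z : K} (hy : RK ω y z) : ∀ l : List τ, RK ω (prl f y l) ((l.map f').prod * z)
  | [] => by
    rw [List.map_nil, List.prod_nil, one_mul]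
    exact hy
  | t :: l => by
    rw [List.map_cons, List.prod_cons, mul_assoc]
    exact (cp_RK hc).mul (h t) (rk_prl hc h hy l)

lemma nzs_mem (hc : c.ok ω) {f : τ → PK c} {f' : τ → K} (h : ∀ t, RK ω (f t) (f' t)) {l : List τ}
    {i : ℕ} (e : nzs f l i = true) {t : τ} (ht : t ∈ l) : f' t ≠ 0 := fun h0 => by
  have := ((cp_RK hc).sub (rk_prl hc h (rk_inp i) l) (rk_one hc)).isz hc e
  rw [List.prod_eq_zero (List.mem_map.mpr ⟨t, ht, h0⟩), zero_mul, zero_sub, neg_eq_zero] at this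
  exact one_ne_zero this

noncomputable def trs (f : τ → ℕ → PK c) (n : ℕ) (l : List τ) : ℕ → Bool :=
  List.rec (motive := fun _ => ℕ → Bool) (fun _ => true) (fun t _ r o =>
    alln (fun j => cond (Nat.blt j o) true
      (cond (Nat.beq j o) (f t j - ((1 : ℕ) : PK c)) (f t j)).isz) n && r o.succ) l

lemma trs_ok (hc : c.ok ω) {f : τ → ℕ → PK c} {f' : τ → ℕ → K} (h : ∀ t j, RK ω (f t j) (f' t j))
    {n : ℕ} : ∀ (l : List τ) (o : ℕ), o + l.length ≤ n → trs f n l o = true → TriL f' n o l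
  | [], _, _, _ => trivial
  | t :: l, o, hl, e => by
    have e' : (alln (fun j => cond (Nat.blt j o) true (cond (Nat.beq j o)
      (f t j - ((1 : ℕ) : PK c)) (f t j)).isz) n && trs f n l o.succ) = true := e
    rw [Bool.and_eq_true] at e'
    rw [List.length_cons] at hl
    refine ⟨⟨?_, fun j h1 h2 => ?_⟩, trs_ok hc h l _ (by omega) e'.2⟩
    · have := alln_lt e'.1 o (by omega)
      rw [show Nat.blt o o = false by simp [Nat.blt_eq, ← Bool.not_eq_true], Nat.beq_refl] at this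
      exact sub_eq_zero.mp (((cp_RK hc).sub (h t o) (rk_one hc)).isz hc this)
    · have := alln_lt e'.1 j h2
      rw [show Nat.blt j o = false by simp [Nat.blt_eq, ← Bool.not_eq_true]; omega,
        show Nat.beq j o = false by simp [← Bool.not_eq_true]; omega] at this
      exact (h t j).isz hc this

end checks

/-- The data of a block: the polynomial, inverses, the solution and the inverse Jacobian. -/
structure BD where
  N : ℕ
  gn : ℕ
  gi : ℕ
  si : ℕ
  oi : ℕ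
  xs : List ℕ
  V : List (List ℕ)

noncomputable def BD.c (B : BD) : Cfg := mkC B.N B.gn B.gi

/-- The derivative of the polynomial. -/
def Der (N gn : ℕ) : Sys Unit Unit Unit where
  ev {R} _ _ _ _ a _ _ := pl N (fun i => ((i + 1 : ℕ) : R) * (dg gn (i + 1) : R)) (a ())
  nat {R S} _ _ _ _ _ _ _ _ f h a x t := by simp only [h.pl, h.mul, h.nat]

noncomputable def BD.sep (B : BD) : Bool :=
  Nat.ble 2 B.N && Nat.ble B.N 250 && Nat.beq (dg B.gn B.N) 100 && B.c.frc fun c =>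
    nzs ((Der B.N B.gn).ev (fun _ => inp c 128) fun _ => inp c 128) [()] B.si

variable [CharP K 101]

theorem BD.roots [IsAlgClosed K] (B : BD) (h : B.sep = true) {N : ℕ} (hN : B.N = N) :
    ∃ ω : Fin N → K, Injective ω ∧ ∀ j, B.c.ok (ω j) ∧ sv (ω j) (B.N + 1) B.gn = 0 ∧
      sv (ω j) B.N 128 = ω j := by
  subst hN
  simp only [BD.sep, Bool.and_eq_true, Cfg.frc_eq, Nat.ble_eq, Nat.beq_eq] at h
  obtain ⟨⟨⟨h1, h2⟩, h3⟩, h4⟩ := h
  obtain ⟨ω, i, hω⟩ := exists_roots B.N (tk K B.gn) (by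
      rw [tk, h3, Ne, CharP.cast_eq_zero_iff K 101]
      norm_num) fun ω hω => by
    have hc : B.c.ok ω := mkC_ok B.gi (by omega) h2 hω
    have := nzs_mem hc ((cp_RK hc).ev (Der B.N B.gn) (fun _ => rk_inp 128) fun _ => rk_inp 128) h4
      (mem_unit ())
    change pl _ _ (sv ω B.N 128) ≠ 0 at this
    rwa [sv_X ω h1] at this
  exact ⟨ω, i, fun j => ⟨mkC_ok B.gi (by omega) h2 (hω j), hω j, sv_X _ h1⟩⟩

variable {π ο : Type} {n : ℕ}

noncomputable def BD.chk (B : BD) (E : Sys π (Fin n) (Fin n)) (O : Sys π (Fin n) ο)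
    (a : (c : Cfg) → π → PK c) (lo : List ο) : Bool :=
  B.c.frc fun c => frl (B.xs.map (spr 64 c.N)) fun xs =>
    frll (B.V.map (List.map (spr 64 c.N))) fun V =>
      zs (E.ev (a c) (vec c xs)) (List.finRange n) && (nzs (O.ev (a c) (vec c xs)) lo B.oi &&
        trs (fun t j => E.d (a c) (vec c xs) (fun _ => ((0 : ℕ) : PK c)) (vec c (nth [] V j)) t) n
          (List.finRange n) 0)

theorem BD.good (B : BD) {E : Sys π (Fin n) (Fin n)} {O : Sys π (Fin n) ο}
    {a : (c : Cfg) → π → PK c} {lo : List ο} (h : B.chk E O a lo = true) (hlo : ∀ o, o ∈ lo)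
    {ω : K} (hc : B.c.ok ω) {a' : π → K} (ha : ∀ i, RK ω (a B.c i) (a' i)) :
    Good E O a' (svl ω B.N B.xs) := by
  simp only [BD.chk, Bool.and_eq_true, Cfg.frc_eq, frl_eq, frll_eq] at h
  have hx := rk_vec (c := B.c) (ω := ω) B.xs (n := n)
  refine ⟨zs_ok hc ((cp_RK hc).ev E ha hx) List.mem_finRange h.1,
    fun o => nzs_mem hc ((cp_RK hc).ev O ha hx) h.2.1 (hlo o),
    inj_of_triL E a' _ (fun j => svl ω B.N (nth [] B.V j)) (List.finRange n) (Fintype.card_fin n)
      List.length_finRange (trs_ok hc (fun t j => ?_) _ 0 (by simp) h.2.2)⟩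
  refine (cp_RK hc).d E ha hx (fun _ => rk_zero hc) (fun i => ?_) t
  have := nth_map (List.map (spr 64 B.c.N)) [] B.V j
  rw [List.map_nil] at this
  rw [this]
  exact rk_vec _ i

/-- A tangent vector. -/
noncomputable def BD.tan {τ : Type} (B : BD) (E : Sys π (Fin n) τ) (a a1 : (c : Cfg) → π → PK c)
    (d : List ℕ) (z : (c : Cfg) → τ → PK c) (l : List τ) : Bool :=
  B.c.frc fun c => frl (B.xs.map (spr 64 c.N)) fun xs => frl (d.map (spr 64 c.N)) fun d =>
    zs (fun t => E.d (a c) (vec c xs) (a1 c) (vec c d) t - z c t) l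

theorem BD.tan_ok {τ : Type} (B : BD) {E : Sys π (Fin n) τ} {a a1 : (c : Cfg) → π → PK c}
    {d : List ℕ} {z : (c : Cfg) → τ → PK c} {l : List τ} (h : B.tan E a a1 d z l = true)
    (hl : ∀ t, t ∈ l) {ω : K} (hc : B.c.ok ω) {a' a1' : π → K} {z' : τ → K}
    (ha : ∀ i, RK ω (a B.c i) (a' i)) (ha1 : ∀ i, RK ω (a1 B.c i) (a1' i))
    (hz : ∀ t, RK ω (z B.c t) (z' t)) (t : τ) :
    E.d a' (svl ω B.N B.xs) a1' (svl ω B.N d) t = z' t := by
  simp only [BD.tan, Cfg.frc_eq, frl_eq] at h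
  exact sub_eq_zero.mp (zs_ok hc (fun t => (cp_RK hc).sub ((cp_RK hc).d E ha (rk_vec B.xs) ha1
    (rk_vec d) t) (hz t)) hl h t)

/-- Further polynomials that do not vanish at the solution. -/
noncomputable def BD.opn (B : BD) (O : Sys π (Fin n) ο) (a : (c : Cfg) → π → PK c) (lo : List ο)
    (i : ℕ) : Bool :=
  B.c.frc fun c => frl (B.xs.map (spr 64 c.N)) fun xs => nzs (O.ev (a c) (vec c xs)) lo i

theorem BD.opn_ok (B : BD) {O : Sys π (Fin n) ο} {a : (c : Cfg) → π → PK c} {lo : List ο} {i : ℕ}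
    (h : B.opn O a lo i = true) {ω : K} (hc : B.c.ok ω) {a' : π → K}
    (ha : ∀ i, RK ω (a B.c i) (a' i)) {o : ο} (ho : o ∈ lo) : O.ev a' (svl ω B.N B.xs) o ≠ 0 := by
  simp only [BD.opn, Cfg.frc_eq, frl_eq] at h
  exact nzs_mem hc ((cp_RK hc).ev O ha (rk_vec B.xs)) h ho

/-- The polynomials with the listed lengths and tables have no root in common with the block. -/
noncomputable def BD.cop (B : BD) (l : List (ℕ × ℕ)) (i : ℕ) : Bool :=
  B.c.frc fun c => nzs (fun g : ℕ × ℕ => inl c g.1 g.2) l i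

theorem BD.cop_ok (B : BD) {l : List (ℕ × ℕ)} {i : ℕ} (h : B.cop l i = true) {ω : K}
    (hc : B.c.ok ω) {g : ℕ × ℕ} (hg : g ∈ l) : sv ω g.1 g.2 ≠ 0 := by
  rw [BD.cop, Cfg.frc_eq] at h
  exact nzs_mem (f' := fun g : ℕ × ℕ => sv ω g.1 g.2) hc (fun g => rk_inl hc g.1 g.2) h hg

end Pool.Agent.P.MP_7ebcb6_ag.SC
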