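import Pool.Agent.P.MP_7ebcb6_ag.SC.Pr

/-! The checks that belong to one curve. -/

namespace Pool.Agent.P.MP_7ebcb6_ag.SC

open Function

section

variable {R : Type} [Add R] [Sub R] [Mul R] [NatCast R]

/-- The form, group by group. -/
noncomputable def FGb (c : ℕ → R) (u : R) (p : Fin 6 → R) (g : Grp) : ℕ → R :=
  List.rec (motive := fun _ => ℕ → R) (fun _ => ((0 : ℕ) : R)) (fun a _ r o =>
    pl a.1 (fun k => c (o + k)) u * mon a.2 p + fr1 (o + a.1) r) g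

lemma FGb_cons (c : ℕ → R) (u : R) (p : Fin 6 → R) (a : ℕ × (Fin 4 → Fin 6)) (g : Grp) (o : ℕ) :
    FGb c u p (a :: g) o = pl a.1 (fun k => c (o + k)) u * mon a.2 p + FGb c u p g (o + a.1) :=
  congrArg (pl a.1 (fun k => c (o + k)) u * mon a.2 p + ·) (fr1_eq (o + a.1) (FGb c u p g))

lemma Hom.FGb {S : Type} [Add S] [Sub S] [Mul S] [NatCast S] {f : R → S} (h : Hom f) (c : ℕ → R)
    (u : R) (p : Fin 6 → R) : ∀ (g : Grp) (o : ℕ),
      f (FGb c u p g o) = SC.FGb (fun i => f (c i)) (f u) (fun i => f (p i)) g o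
  | [], _ => h.nat 0
  | a :: g, o => by simp only [FGb_cons, h.add, h.mul, h.pl, mon, Hom.FGb h c u p g]

noncomputable def l27 (cd : CD) (a : ℕ ⊕ Unit → R)
    (t : (Fin 6 × Fin 6) ⊕ (Fin 6 × Fin 4 × Fin 4 × Fin 4) ⊕ Fin 27) (f : (ℕ → R) → ℕ) : ℕ :=
  Sum.elim (fun i => f fun s => (L27 cd).ev a nox (.inl i, s)) (Sum.elim (fun i =>
    frf i.2.1 fun j1 => frf i.2.2.1 fun j2 => frf i.2.2.2 fun j3 => f fun s =>
      cst (cd.pt s) i.1 * tri ((PL a).G (af (a (.inr ())))) (pv (cst (cd.pt s)) j1)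
        (pv (cst (cd.pt s)) j2) (pv (cst (cd.pt s)) j3))
    fun m => f fun s => (L27 cd).ev a nox (.inr (.inr m), s)) t

lemma l27_eq (cd : CD) (a : ℕ ⊕ Unit → R) (t) (f : (ℕ → R) → ℕ) :
    l27 cd a t f = f fun s => (L27 cd).ev a nox (t, s) := by
  rcases t with r | r | r
  · rfl
  · simp only [l27, Sum.elim_inl, Sum.elim_inr, frf_eq]
    rfl
  · rfl

end

lemma FGb_sum {A : Type} [CommRing A] (c : ℕ → A) (u : A) (p : Fin 6 → A) :
    ∀ (l : Grp) (o : ℕ), (∀ g ∈ l, g.1 ≤ 42) → FGb c u p l o = ∑ k ∈ Finset.range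
      (l.map Prod.fst).sum, c (o + k) * col (gie l k % 42) (gal l k) u p
  | [], _, _ => by simp [FGb]
  | g :: l, o, h => by
    rw [List.map_cons, List.sum_cons, Finset.sum_range_add, FGb_cons,
      FGb_sum c u p l _ fun g' hg => h g' (List.mem_cons_of_mem _ hg), pl_eq, Finset.sum_mul]
    congr 1
    · refine Finset.sum_congr rfl fun k hk => ?_
      have h1 := Finset.mem_range.1 hk
      have h2 := h g List.mem_cons_self
      have h3 : Nat.blt k g.1 = true := by simpa [Nat.blt_eq] using h1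
      rw [gie, gal, h3, cond_true, cond_true, Nat.mod_eq_of_lt (by omega), col, pw_eq, mon,
        mul_assoc (c (o + k))]
    · refine Finset.sum_congr rfl fun k _ => ?_
      have h3 : Nat.blt (g.1 + k) g.1 = false := by
        rw [← Bool.not_eq_true, Nat.blt_eq]; omega
      rw [gie, gal, h3, cond_false, cond_false, Nat.add_sub_cancel_left, add_assoc]

/-- The groups describe the columns of the form. -/
structure GOK (cd : CD) (g : Grp) : Prop where
  ie : cd.ie = gie g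
  al : cd.al = gal g
  sum : (g.map Prod.fst).sum = 1362
  le : ∀ a ∈ g, a.1 ≤ 42

lemma GOK.eq {cd : CD} {g : Grp} (h : GOK cd g) {A : Type} [CommRing A] (c : Fin 1362 → A) (u : A)
    (W : Fin 4 → A) : FF cd c u W = FGb (sq c) u (lP W) g 0 := by
  simp only [FGb_sum _ _ _ _ _ h.le, h.sum, FF, Fev, sm_eq, h.ie, h.al, zero_add]

lemma Sys.d_aux {π σ τ K A : Type} [CommRing K] [CommRing A] (S T : Sys π σ τ) {f : Du K → A}
    (hf : Hom f) (h : ∀ (a : π → A) (x : σ → A) t, S.ev a x t = T.ev a x t) (a : π → Du K)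
    (x : σ → Du K) (t : τ) : f (S.ev a x t) = f (T.ev a x t) :=
  (S.nat hf _ _ t).trans ((h _ _ t).trans (T.nat hf _ _ t).symm)

lemma Sys.d_congr {π σ τ K : Type} [CommRing K] (S T : Sys π σ τ)
    (h : ∀ (A : Type) [CommRing A] (a : π → A) (x : σ → A) t, S.ev a x t = T.ev a x t)
    (a a' : π → K) (x x' : σ → K) (t : τ) : S.d a x a' x' t = T.d a x a' x' t :=
  congrArg Prod.snd (S.d_aux T (A := DualNumber K) hom_dn (h _) _ _ t)

noncomputable def FLf (g : Grp) : Sys (Fin 1362) (Fin 7) Unit where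
  ev {R} _ _ _ _ a x _ := FGb (sq a) (x 0) (lP (w4 (sq x))) g 0
  nat {R S} _ _ _ _ _ _ _ _ f h a x t := by
    simp only [h.FGb, h.lP, app_w4 f, h.sq]

noncomputable def FRf (g : Grp) : Sys (Fin 1362 ⊕ Unit) (Fin 10) (Fin 3) where
  ev {R} _ _ _ _ a x t := FGb (sq fun i => a (.inl i)) (a (.inr ())) (lP (trW (sq x) t)) g 0
  nat {R S} _ _ _ _ _ _ _ _ f h a x t := by
    simp only [h.FGb, h.lP, h.trW, h.sq]

/-- The form at one line. -/
noncomputable def FS (g : Grp) : Sys (Fin 1362 ⊕ Unit) (Fin 4) Unit where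
  ev {R} _ _ _ _ a x _ := FGb (sq fun i => a (.inl i)) (a (.inr ())) (lP x) g 0
  nat {R S} _ _ _ _ _ _ _ _ f h a x t := by simp only [h.FGb, h.lP, h.sq]

attribute [local irreducible] FF

lemma GOK.dL {cd : CD} {g : Grp} (h : GOK cd g) {K : Type} [CommRing K] (a a' : Fin 1362 → K)
    (x x' : Fin 7 → K) : (FL cd).d a x a' x' () = (FLf g).d a x a' x' () :=
  (FL cd).d_congr (FLf g) (fun _ _ a x _ => h.eq a (x 0) (w4 (sq x))) ..

lemma GOK.dR {cd : CD} {g : Grp} (h : GOK cd g) {K : Type} [CommRing K]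
    (a a' : Fin 1362 ⊕ Unit → K) (x x' : Fin 10 → K) (t : Fin 3) :
    (FR cd).d a x a' x' t = (FRf g).d a x a' x' t :=
  (FR cd).d_congr (FRf g)
    (fun _ _ a x t => h.eq (fun i => a (.inl i)) (a (.inr ())) (trW (sq x) t)) ..

/-- The data of one curve. -/
structure Cv where
  tC : ℕ
  tJ : ℕ
  ta : ℕ
  dC : ℕ
  tD : ℕ
  dL : List ℕ
  bL : BD
  b40 : BD
  b24 : BD

noncomputable def zr {α : Type} (c : Cfg) : α → PK c := fun _ => ((0 : ℕ) : PK c)

noncomputable def Cv.a (d : Cv) (tX : ℕ) (c : Cfg) : ℕ ⊕ Fin 70 → PK c :=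
  Sum.elim (tb7 c tX) fun i => tb7 c d.tC i.val

noncomputable def Cv.cs (d : Cv) (cd : CD) (tX : ℕ) (n : Fin 8) (V : List ℕ) : Bool :=
  alln (fun i => Nat.beq (dg (nth 0 V i) 70) (dg d.dC i)) 70 && frl (V.map (spr 512 71)) fun V =>
    frl ([2 ^ 490].map (spr 512 71)) fun e => rows 512 71
      (csv cd n (pu (fun k => vc (dg tX k)) (vv d.ta e 0)) fun i => vv d.tC V i.val)
      (sl (List.finRange 30) (sl (List.finRange 10) (sl (fr2 6 4) (List.finRange 6))))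

noncomputable def Cv.js (d : Cv) (V : List ℕ) : Bool :=
  frl (V.map (spr 256 30)) fun V => rows 256 30
    (JS.ev (fun i => vc (dg d.tC i.val)) fun i => vv d.tJ V (3 * i.1.val + i.2.val)) (fr2 10 3)

def Cv.jo (d : Cv) : Bool := (sl (List.finRange 10) (fr2 6 6)).all fun t =>
  (JO.ev (fun i => tf d.tC i.val) (fun i => tf d.tJ (3 * i.1.val + i.2.val)) t).nz

structure Chk (cd : CD) (g : Grp) (tX tF : ℕ) (n : Fin 8) (d : Cv) : Prop where
  s1 : d.bL.sep = true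
  n1 : d.bL.N = 150
  x1 : nth 0 d.bL.xs 0 = 128
  c1 : d.bL.chk L150E L150O (d.a tX) (List.finRange 8) = true
  t1 : d.bL.tan L150E (d.a tX) (fun c => Sum.elim (zr c) fun i => tb7 c d.dC i.val) d.dL zr
    (List.finRange 7) = true
  t2 : d.bL.tan (FLf g) (fun c i => tb7 c tF i.val) zr d.dL (fun c _ => inp c d.tD) [()] = true
  s2 : d.b40.sep = true
  n2 : d.b40.N = 40
  x2 : nth 0 d.b40.xs 0 = 128
  c2 : d.b40.chk L40E L40O (d.a tX) (List.finRange 5) = true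
  s3 : d.b24.sep = true
  n3 : d.b24.N = 24
  x3 : nth 0 d.b24.xs 1 = 128
  c3 : d.b24.chk L24E L24O (fun c => Sum.elim (tb7 c tX) (Sum.elim (fun i => tb7 c d.tC i.val)
    fun _ => ((cd.x0 n : ℕ) : PK c))) (List.finRange 11) = true
  cs : ∃ V, d.cs cd tX n V = true
  js : ∃ V, d.js V = true
  jo : d.jo = true
  e : ∃ V l, chkM (e198 cd n (Sum.elim (tf tX) (Sum.elim (fun i => tf d.tC i.val)
    fun i => tf d.tJ (3 * i.1.val + i.2.val)))) 198 V l = true

variable {K : Type} [Field K] [CharP K 101]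

/-- The solution at a root, with one coordinate equal to the root. -/
lemma BD.fam [IsAlgClosed K] (B : BD) (h : B.sep = true) {N n : ℕ} (hN : B.N = N) {k : Fin n}
    (hk : nth 0 B.xs k.val = 128) : ∃ ω : Fin N → K, Injective ω ∧ ∀ j, B.c.ok (ω j) ∧
      sv (ω j) (B.N + 1) B.gn = 0 ∧ svl (ω j) B.N B.xs k = ω j := by
  obtain ⟨ω, h1, h2⟩ := B.roots (K := K) h hN
  exact ⟨ω, h1, fun j => ⟨(h2 j).1, (h2 j).2.1, by rw [svl, hk, (h2 j).2.2]⟩⟩

lemma inj_of_eq {ι : Type} {f g : ι → K} (hg : Injective g) (h : ∀ j, f j = g j) : Injective f :=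
  funext h ▸ hg

def Cv.C (K : Type) [Field K] (d : Cv) : Fin 70 → K := fun i => tk K d.tC i.val
def Cv.J (K : Type) [Field K] (d : Cv) : Fin 10 × Fin 3 → K :=
  fun i => tk K d.tJ (3 * i.1.val + i.2.val)
def Cv.C' (K : Type) [Field K] (d : Cv) : Fin 70 → K := fun i => tk K d.dC i.val

variable {cd : CD} {g : Grp} {tX tF : ℕ} {n : Fin 8} {d : Cv}

lemma Cv.rk_a {c : Cfg} {ω : K} (hc : c.ok ω) (i : ℕ ⊕ Fin 70) :
    RK ω (d.a tX c i) (Sum.elim (tk K tX) (d.C K) i) :=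
  rk_elim (rk_tb7 hc tX) (fun j : Fin 70 => rk_tb7 hc d.tC j.val) i

theorem Chk.att [IsAlgClosed K] (h : Chk cd g tX tF n d) :
    ∃ l40 l24, Att cd n (tk K tX) (d.C K) (d.J K) l40 l24 := by
  obtain ⟨ω, a1, a2⟩ := d.b40.fam (K := K) h.s2 h.n2 (k := (0 : Fin 2)) h.x2
  obtain ⟨η, b1, b2⟩ := d.b24.fam (K := K) h.s3 h.n3 (k := (1 : Fin 4)) h.x3
  obtain ⟨V, hV⟩ := h.js
  obtain ⟨W, l, hW⟩ := h.e
  rw [Cv.js, frl_eq] at hV
  obtain ⟨j1, j2⟩ := rows_ok JS (K := K) (o := 0) (a0 := d.C K) (x0 := d.J K) (a1 := fun _ _ => 0)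
    (x1 := fun j i => dl 30 (nth 0 V (3 * i.1.val + i.2.val)) j) (by norm_num)
    (fun j i => rv_vc ..) (fun j i => by rw [zero_add]; exact rv_vv ..) hV 30
  refine ⟨fun j => svl (ω j) d.b40.N d.b40.xs, fun j => svl (η j) d.b24.N d.b24.xs,
    ⟨fun t => (j2 t (mem_fr2 t)).1, fp_nz JO (fun _ => rfl) (fun _ => rfl)
      (mem_sl List.mem_finRange mem_fr2) h.jo, inj_of_triL JS _ _ _ _ (by simp) (by decide) j1⟩,
    minj_198 (chkM_ok (e198_eq cd n _) hW fun i => ?_),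
    fun j => d.b40.good h.c2 List.mem_finRange (a2 j).1 (Cv.rk_a (a2 j).1),
    inj_of_eq a1 fun j => (a2 j).2.2,
    fun j => d.b24.good h.c3 List.mem_finRange (b2 j).1 (rk_elim (rk_tb7 (b2 j).1 tX)
      (rk_elim (fun i => rk_tb7 (b2 j).1 d.tC i.val) fun _ => (cp_RK (b2 j).1).nat _)),
    inj_of_eq b1 fun j => (b2 j).2.2⟩
  rcases i with i | i | i <;> rfl

theorem Chk.cur (h : Chk cd g tX tF n d) : (CS cd n).Z (pu (tk K tX) (tk K d.ta 0)) (d.C K) ∧
    (CS cd n).Inj (pu (tk K tX) (tk K d.ta 0)) (d.C K) ∧ ∀ t, (CS cd n).d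
      (pu (tk K tX) (tk K d.ta 0)) (d.C K) (pu (fun _ => 0) 1) (d.C' K) t = 0 := by
  obtain ⟨V, hV⟩ := h.cs
  simp only [Cv.cs, frl_eq, Bool.and_eq_true, csv_eq] at hV
  have hl := mem_sl (List.mem_finRange (n := 30)) (mem_sl (List.mem_finRange (n := 10))
    (mem_sl (mem_fr2 (a := 6) (b := 4)) (List.mem_finRange (n := 6))))
  obtain ⟨j1, j2⟩ := rows_ok (CS cd n) (K := K) (o := 0) (a0 := pu (tk K tX) (tk K d.ta 0))
    (x0 := d.C K) (a1 := fun j => pu (fun _ => 0) (dl 71 (2 ^ 490) j : K))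
    (x1 := fun j i => dl 71 (nth 0 V i.val) j) (by norm_num)
    (fun j i => by
      rw [zero_add]
      cases i
      exacts [rv_vc .., rv_vv 512 71 d.ta [2 ^ 490] j 0])
    (fun j i => by rw [zero_add]; exact rv_vv ..) hV.2 70
  refine ⟨fun t => (j2 t (hl t)).1, inj_of_triL _ _ _ (fun j i => dl 71 (nth 0 V i.val) j) _
    (by simp) (by decide) (j1.congr (by decide) fun t j hj => ?_), fun t => ?_⟩
  · have : ∀ j < 70, dl 71 (2 ^ 490) j = 0 := by decide +kernel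
    rw [this j hj, Nat.cast_zero]
    congr 1
    funext i
    cases i <;> rfl
  · have := (j2 t (hl t)).2 70 (by decide)
    rw [show dl 71 (2 ^ 490) 70 = 1 by decide +kernel, Nat.cast_one] at this
    have e : d.C' K = fun i => (dl 71 (nth 0 V i.val) 70 : K) := funext fun i =>
      congrArg Nat.cast (Nat.eq_of_beq_eq_true (alln_lt hV.1 i.val i.2)).symm
    rwa [e]

theorem Chk.lin (h : Chk cd g tX tF n d) (hg : GOK cd g) {ω : K} (hc : d.bL.c.ok ω) :
    Good L150E L150O (Sum.elim (tk K tX) (d.C K)) (svl ω d.bL.N d.bL.xs) ∧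
    (∀ t, L150E.d (Sum.elim (tk K tX) (d.C K)) (svl ω d.bL.N d.bL.xs)
      (Sum.elim (fun _ => 0) (d.C' K)) (svl ω d.bL.N d.dL) t = 0) ∧
    (FL cd).d (fun i => tk K tF i.val) (svl ω d.bL.N d.bL.xs) (fun _ => 0) (svl ω d.bL.N d.dL) ()
      = sv ω d.bL.N d.tD :=
  ⟨d.bL.good h.c1 List.mem_finRange hc (Cv.rk_a hc),
    d.bL.tan_ok h.t1 List.mem_finRange hc (Cv.rk_a hc)
      (rk_elim (fun _ => rk_zero hc) fun i => rk_tb7 hc d.dC i.val) fun _ => rk_zero hc,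
    (hg.dL ..).trans (d.bL.tan_ok
      (z' := fun _ => sv ω d.bL.N d.tD) h.t2 mem_unit hc (fun i => rk_tb7 hc tF i.val)
      (fun _ => rk_zero hc) (fun _ => rk_inp _) ())⟩

end Pool.Agent.P.MP_7ebcb6_ag.SC
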