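import Pool.Agent.P.MP_7ebcb6_ag.SC.Bs

/-! Polynomials with small coefficients packed into natural numbers. -/

namespace Pool.Agent.P.MP_7ebcb6_ag.SC

open Polynomial Finset

/-- `v` is the value at `2 ^ w` of `p`, which has at most `n` coefficients, all at most `b`. -/
structure Rp (w n b v : ℕ) (p : ℕ[X]) : Prop where
  le : ∀ i, p.coeff i ≤ b
  z : ∀ i, n ≤ i → p.coeff i = 0
  ev : p.eval (2 ^ w) = v

/-- The number with `n` digits equal to one. -/
def ons (w n : ℕ) : ℕ := (2 ^ (w * n) - 1) / (2 ^ w - 1)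

lemma on_eq {w : ℕ} (hw : 0 < w) (n : ℕ) : ons w n = ∑ k ∈ range n, (2 ^ w) ^ k := by
  rw [ons, Nat.geomSum_eq (Nat.one_lt_two_pow hw.ne'), pow_mul]

lemma on_succ {w : ℕ} (hw : 0 < w) (n : ℕ) : ons w (n + 1) = 1 + 2 ^ w * ons w n := by
  rw [on_eq hw, on_eq hw, sum_range_succ', mul_sum, pow_zero, add_comm]
  exact congrArg _ (sum_congr rfl fun k _ => pow_succ' ..)

namespace Rp

variable {w n n' b b' v v' : ℕ} {p q : ℕ[X]}

lemma mono (h : Rp w n b v p) (hn : n ≤ n') (hb : b ≤ b') : Rp w n' b' v p :=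
  ⟨fun i => (h.le i).trans hb, fun i hi => h.z i (hn.trans hi), h.ev⟩

lemma zero : Rp w n b 0 0 := ⟨fun _ => Nat.zero_le _, fun _ _ => rfl, eval_zero⟩

lemma add (h : Rp w n b v p) (h' : Rp w n b' v' q) : Rp w n (b + b') (v + v') (p + q) :=
  ⟨fun i => by rw [coeff_add]; exact add_le_add (h.le i) (h'.le i),
    fun i hi => by rw [coeff_add, h.z i hi, h'.z i hi], by rw [eval_add, h.ev, h'.ev]⟩

lemma smul (h : Rp w n b v p) (a : ℕ) : Rp w n (a * b) (a * v) (C a * p) :=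
  ⟨fun i => by rw [coeff_C_mul]; exact Nat.mul_le_mul_left _ (h.le i),
    fun i hi => by rw [coeff_C_mul, h.z i hi, mul_zero], by rw [eval_mul, eval_C, h.ev]⟩

lemma con (a : ℕ) : Rp w 1 a a (C a) :=
  ⟨fun i => by rw [coeff_C]; split_ifs <;> omega,
    fun i hi => by rw [coeff_C, if_neg (by omega)], eval_C⟩

lemma mul (h : Rp w n b v p) (h' : Rp w n' b' v' q) :
    Rp w (n + n') (n * (b * b')) (v * v') (p * q) where
  le i := by
    rw [coeff_mul, Finset.Nat.sum_antidiagonal_eq_sum_range_succ_mk]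
    calc _ ≤ ∑ k ∈ range i.succ, if k < n then b * b' else 0 := sum_le_sum fun k _ => by
          split_ifs with hk
          · exact Nat.mul_le_mul (h.le _) (h'.le _)
          · rw [h.z k (by omega), zero_mul]
      _ ≤ _ := by
          rw [← sum_filter, sum_const, smul_eq_mul]
          refine Nat.mul_le_mul_right _ ((card_le_card fun k hk => ?_).trans (card_range n).le)
          exact mem_range.mpr (mem_filter.mp hk).2
  z i hi := by
    rw [coeff_mul]
    refine sum_eq_zero fun k hk => ?_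
    have := mem_antidiagonal.mp hk
    by_cases h1 : n ≤ k.1
    · rw [h.z _ h1, zero_mul]
    · rw [h'.z _ (by omega), mul_zero]
  ev := by rw [eval_mul, h.ev, h'.ev]

lemma cons (h : Rp w n b v p) {a : ℕ} (ha : a ≤ b) :
    Rp w (n + 1) b (a + 2 ^ w * v) (C a + X * p) where
  le i := by
    cases i
    · simpa using ha
    · simpa using h.le _
  z i hi := by
    cases i
    · omega
    · simpa using h.z _ (by omega)
  ev := by simp [h.ev]

lemma tail (h : Rp w (n + 1) b v p) (hb : b < 2 ^ w) :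
    v % 2 ^ w = p.coeff 0 ∧ Rp w n b (v / 2 ^ w) p.divX := by
  have e : v = p.coeff 0 + 2 ^ w * p.divX.eval (2 ^ w) := by
    rw [← h.ev]
    conv_lhs => rw [← X_mul_divX_add p]
    simp [add_comm]
  have h0 := (h.le 0).trans_lt hb
  refine ⟨by rw [e, Nat.add_mul_mod_self_left, Nat.mod_eq_of_lt h0],
    fun i => by rw [coeff_divX]; exact h.le _,
    fun i hi => by rw [coeff_divX]; exact h.z _ (by omega), ?_⟩
  rw [e, Nat.add_mul_div_left _ _ (Nat.two_pow_pos w), Nat.div_eq_of_lt h0, zero_add]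

lemma uniq0 (hb : b < 2 ^ w) : ∀ {n v : ℕ} {p q : ℕ[X]}, Rp w n b v p → Rp w n b v q → p = q
  | 0, _, _, _, h, h' => Polynomial.ext fun i => by rw [h.z i i.zero_le, h'.z i i.zero_le]
  | n + 1, _, p, q, h, h' => by
    obtain ⟨a1, a2⟩ := h.tail hb
    obtain ⟨b1, b2⟩ := h'.tail hb
    rw [← X_mul_divX_add p, ← X_mul_divX_add q, uniq0 hb a2 b2, ← a1, b1]

lemma uniq (h : Rp w n b v p) (h' : Rp w n' b' v q) (hb : b < 2 ^ w) (hb' : b' < 2 ^ w) : p = q :=
  uniq0 (max_lt hb hb') (h.mono (le_max_left n n') (le_max_left ..))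
    (h'.mono (le_max_right ..) (le_max_right ..))

lemma mask (hw : 0 < w) {a : ℕ} (ha : a < 2 ^ w) :
    ∀ n v : ℕ, ∃ p, Rp w n a (v &&& (a * ons w n)) p
  | 0, v => ⟨0, by simpa [ons] using zero⟩
  | n + 1, v => by
    obtain ⟨p, hp⟩ := mask hw ha n (v / 2 ^ w)
    have e : a * ons w (n + 1) = a + 2 ^ w * (a * ons w n) := by rw [on_succ hw]; ring
    have h1 : (v &&& (a * ons w (n + 1))) / 2 ^ w = v / 2 ^ w &&& (a * ons w n) := by
      rw [Nat.and_div_two_pow, e, Nat.add_mul_div_left _ _ (Nat.two_pow_pos w),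
        Nat.div_eq_of_lt ha, zero_add]
    have h2 : (v &&& (a * ons w (n + 1))) % 2 ^ w ≤ a := by
      rw [Nat.and_mod_two_pow, e, Nat.add_mul_mod_self_left, Nat.mod_eq_of_lt ha]
      exact Nat.and_le_right
    have h3 := hp.cons h2
    rw [← h1, Nat.mod_add_div] at h3
    exact ⟨_, h3⟩

lemma dig : ∀ n v : ℕ, v < 2 ^ (w * n) → ∃ p, Rp w n (2 ^ w - 1) v p
  | 0, v, h => ⟨0, by
      have : v = 0 := by simpa using h
      rw [this]
      exact zero⟩
  | n + 1, v, h => by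
    obtain ⟨p, hp⟩ := dig n (v / 2 ^ w) (by
      rw [Nat.div_lt_iff_lt_mul (Nat.two_pow_pos w), ← pow_add]
      exact h)
    have h3 := hp.cons (Nat.le_sub_one_of_lt (Nat.mod_lt v (Nat.two_pow_pos w)))
    rw [Nat.mod_add_div] at h3
    exact ⟨_, h3⟩

lemma neg (hw : 0 < w) (h : Rp w n b v p) {k : ℕ} (hk : b ≤ k) :
    ∃ q, Rp w n k (k * ons w n - v) q ∧ p + q = C k * ∑ i ∈ range n, X ^ i := by
  have c1 : ∀ i, (∑ j ∈ range n, monomial j (k - p.coeff j)).coeff i
      = if i < n then k - p.coeff i else 0 := fun i => by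
    simp [finsetSum_coeff, coeff_monomial]
  have e : p + ∑ j ∈ range n, monomial j (k - p.coeff j) = C k * ∑ i ∈ range n, X ^ i := by
    ext i
    have := (h.le i).trans hk
    rw [coeff_add, c1, coeff_C_mul]
    simp only [finsetSum_coeff, coeff_X_pow, sum_ite_eq, mem_range]
    split_ifs with hi
    · omega
    · rw [h.z i (by omega)]; rfl
  refine ⟨_, ⟨fun i => ?_, fun i hi => ?_, ?_⟩, e⟩
  · rw [c1]; split_ifs <;> omega
  · rw [c1, if_neg (by omega)]
  · have := congrArg (eval (2 ^ w)) e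
    rw [eval_add, h.ev, eval_mul, eval_C, eval_geom_sum] at this
    rw [on_eq hw, ← this, Nat.add_sub_cancel_left]

/-- A number below `2 ^ (w * i)` plus a multiple of `2 ^ (w * i)`. -/
lemma split (h : Rp w n b v p) (hb : b < 2 ^ w) (i : ℕ) (h' : Rp w n' b' (v >>> (w * i)) q)
    (hb' : b' < 2 ^ w) (j : ℕ) : p.coeff (j + i) = q.coeff j := by
  obtain ⟨l, hl⟩ := dig (w := w) i (v % 2 ^ (w * i)) (Nat.mod_lt _ (Nat.two_pow_pos _))
  have h2 : Rp w (n' + i) (2 ^ w - 1) v (l + q * X ^ i) := by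
    refine ⟨fun k => ?_, fun k hk => ?_, ?_⟩
    · rw [coeff_add, coeff_mul_X_pow']
      split_ifs with hk
      · rw [hl.z k hk, zero_add]
        exact Nat.le_sub_one_of_lt ((h'.le _).trans_lt hb')
      · exact hl.le k
    · rw [coeff_add, coeff_mul_X_pow', if_pos (by omega), hl.z k (by omega), h'.z _ (by omega)]
    · rw [eval_add, eval_mul, eval_pow, eval_X, hl.ev, h'.ev, ← pow_mul, Nat.shiftRight_eq_div_pow,
        Nat.mod_add_div']
  rw [h.uniq h2 hb (Nat.sub_one_lt (Nat.two_pow_pos w).ne'), coeff_add, coeff_mul_X_pow,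
    hl.z _ (by omega), zero_add]

end Rp

/-- Digit `i` of a table with seven bits per entry. -/
def dg (t i : ℕ) : ℕ := Nat.mod (Nat.shiftRight t (Nat.mul 7 i)) 128

lemma dg_eq (t i : ℕ) : dg t i = t >>> (7 * i) % 128 := rfl

lemma dg_le (t i : ℕ) : dg t i ≤ 127 := Nat.le_of_lt_succ (Nat.mod_lt _ (by norm_num))

lemma dg_zero (i : ℕ) : dg 0 i = 0 := by simp [dg_eq]

lemma dg_shift (t k i : ℕ) : dg (t >>> (7 * k)) i = dg t (k + i) := by
  rw [dg_eq, dg_eq, ← Nat.shiftRight_add, mul_add]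

lemma dg_big {t n i : ℕ} (h : t < 2 ^ (7 * n)) (hi : n ≤ i) : dg t i = 0 := by
  rw [dg_eq, Nat.shiftRight_eq_div_pow, Nat.div_eq_of_lt
    (h.trans_le (Nat.pow_le_pow_right two_pos (by omega)))]

/-- Evaluate `n` before passing it on. -/
noncomputable def fr1 {α : Type} (n : ℕ) (k : ℕ → α) : α :=
  Nat.rec (motive := fun _ => α) (k 0) (fun m _ => k m) n.succ

lemma fr1_eq {α : Type} (n : ℕ) (k : ℕ → α) : fr1 n k = k n := by cases n <;> rfl

noncomputable def spr0 (w c n : ℕ) : ℕ := Nat.rec (motive := fun _ => ℕ) 0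
  (fun k r => Nat.add r (Nat.shiftLeft (dg c k) (Nat.mul w k))) n

/-- The first `n` entries of a table as digits with `w` bits. -/
noncomputable def spr (w n c : ℕ) : ℕ := fr1 c fun c => cond (Nat.beq c 0) 0 (spr0 w c n)

lemma spr_zero (w n : ℕ) : spr w n 0 = 0 := rfl

lemma spr0_rp (w c : ℕ) : ∀ n : ℕ, ∃ p, Rp w n 127 (spr0 w c n) p ∧ ∀ i < n, p.coeff i = dg c i
  | 0 => ⟨0, Rp.zero, fun _ h => absurd h (Nat.not_lt_zero _)⟩
  | n + 1 => by
    obtain ⟨p, h1, h2⟩ := spr0_rp w c n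
    have e : ∀ i, (p + monomial n (dg c n)).coeff i = if n = i then dg c n else p.coeff i :=
      fun i => by
        rw [coeff_add, coeff_monomial]
        split_ifs with h
        · rw [h1.z i h.le, zero_add]
        · rfl
    refine ⟨p + monomial n (dg c n), ⟨fun i => ?_, fun i hi => ?_, ?_⟩, fun i hi => ?_⟩
    · rw [e]
      split_ifs
      exacts [dg_le .., h1.le i]
    · rw [e, if_neg (by omega), h1.z i (by omega)]
    · rw [eval_add, eval_monomial, h1.ev, ← pow_mul, ← Nat.shiftLeft_eq]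
      rfl
    · rw [e]
      split_ifs with h
      · rw [h]
      · exact h2 i (by omega)

lemma spr_rp (w n c : ℕ) : ∃ p, Rp w n 127 (spr w n c) p ∧ ∀ i < n, p.coeff i = dg c i := by
  rw [spr, fr1_eq]
  cases e : Nat.beq c 0
  · exact spr0_rp w c n
  · rw [Nat.eq_of_beq_eq_true e]
    exact ⟨0, Rp.zero, fun i _ => (dg_zero i).symm⟩

/-! ## Relations that respect the operations -/

section

variable {P Q : Type} [Add P] [Sub P] [Mul P] [NatCast P] [Add Q] [Sub Q] [Mul Q] [NatCast Q]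

structure Cp (r : P → Q → Prop) : Prop where
  add : ∀ {x y a b}, r x a → r y b → r (x + y) (a + b)
  sub : ∀ {x y a b}, r x a → r y b → r (x - y) (a - b)
  mul : ∀ {x y a b}, r x a → r y b → r (x * y) (a * b)
  nat : ∀ n : ℕ, r n n

variable {r : P → Q → Prop}

/-- Related pairs. -/
structure Cp.T (h : Cp r) : Type where
  x : P
  a : Q
  rel : r x a

instance (h : Cp r) : Add h.T := ⟨fun x y => ⟨_, _, h.add x.rel y.rel⟩⟩
instance (h : Cp r) : Sub h.T := ⟨fun x y => ⟨_, _, h.sub x.rel y.rel⟩⟩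
instance (h : Cp r) : Mul h.T := ⟨fun x y => ⟨_, _, h.mul x.rel y.rel⟩⟩
instance (h : Cp r) : NatCast h.T := ⟨fun n => ⟨_, _, h.nat n⟩⟩

lemma Cp.ev (h : Cp r) {π σ τ : Type} (S : Sys π σ τ) {a : π → P} {a' : π → Q} {x : σ → P}
    {x' : σ → Q} (ha : ∀ i, r (a i) (a' i)) (hx : ∀ i, r (x i) (x' i)) (t : τ) :
    r (S.ev a x t) (S.ev a' x' t) := by
  have h1 := S.nat (f := (Cp.T.x : h.T → P)) ⟨fun _ _ => rfl, fun _ _ => rfl, fun _ _ => rfl,
    fun _ => rfl⟩ (fun i => ⟨_, _, ha i⟩) (fun i => ⟨_, _, hx i⟩) t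
  have h2 := S.nat (f := (Cp.T.a : h.T → Q)) ⟨fun _ _ => rfl, fun _ _ => rfl, fun _ _ => rfl,
    fun _ => rfl⟩ (fun i => ⟨_, _, ha i⟩) (fun i => ⟨_, _, hx i⟩) t
  have h3 := (S.ev (fun i => (⟨_, _, ha i⟩ : h.T)) (fun i => ⟨_, _, hx i⟩) t).rel
  rwa [h1, h2] at h3

lemma Cp.du (h : Cp r) : Cp fun (x : Du P) (a : Du Q) => r x.a a.a ∧ r x.b a.b where
  add h1 h2 := ⟨h.add h1.1 h2.1, h.add h1.2 h2.2⟩
  sub h1 h2 := ⟨h.sub h1.1 h2.1, h.sub h1.2 h2.2⟩
  mul h1 h2 := ⟨h.mul h1.1 h2.1, h.add (h.mul h1.1 h2.2) (h.mul h1.2 h2.1)⟩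
  nat n := ⟨h.nat n, h.nat 0⟩

lemma Cp.d (h : Cp r) {π σ τ : Type} (S : Sys π σ τ) {a a1 : π → P} {a' a1' : π → Q}
    {x x1 : σ → P} {x' x1' : σ → Q} (ha : ∀ i, r (a i) (a' i)) (hx : ∀ i, r (x i) (x' i))
    (ha1 : ∀ i, r (a1 i) (a1' i)) (hx1 : ∀ i, r (x1 i) (x1' i)) (t : τ) :
    r (S.d a x a1 x1 t) (S.d a' x' a1' x1' t) :=
  (h.du.ev S (a := fun i => ⟨a i, a1 i⟩) (a' := fun i => ⟨a' i, a1' i⟩)
    (x := fun i => ⟨x i, x1 i⟩) (x' := fun i => ⟨x' i, x1' i⟩) (fun i => ⟨ha i, ha1 i⟩)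
    (fun i => ⟨hx i, hx1 i⟩) t).2

end

/-! ## Lists -/

/-- Entry `k` of a list (`d` beyond its end). -/
noncomputable def nth {α : Type} (d : α) (l : List α) : ℕ → α :=
  List.rec (motive := fun _ => ℕ → α) (fun _ => d)
    (fun a _ r k => Nat.rec (motive := fun _ => α) a (fun m _ => r m) k) l

lemma nth_map {α β : Type} (f : α → β) (d : α) :
    ∀ (l : List α) (k : ℕ), nth (f d) (l.map f) k = f (nth d l k)
  | [], _ => rfl
  | _ :: _, 0 => rfl
  | _ :: l, k + 1 => nth_map f d l k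

/-- Evaluate the entries of a list before passing it on. -/
noncomputable def frl {α : Type} (l : List ℕ) : (List ℕ → α) → α :=
  List.rec (motive := fun _ => (List ℕ → α) → α) (fun k => k [])
    (fun a _ r k => fr1 a fun a => r fun l => k (a :: l)) l

lemma frl_eq {α : Type} : ∀ (l : List ℕ) (k : List ℕ → α), frl l k = k l
  | [], _ => rfl
  | a :: l, k => (fr1_eq a fun a => frl l fun l => k (a :: l)).trans (frl_eq l _)

noncomputable def frll {α : Type} (l : List (List ℕ)) : (List (List ℕ) → α) → α :=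
  List.rec (motive := fun _ => (List (List ℕ) → α) → α) (fun k => k [])
    (fun a _ r k => frl a fun a => r fun l => k (a :: l)) l

lemma frll_eq {α : Type} : ∀ (l : List (List ℕ)) (k : List (List ℕ) → α), frll l k = k l
  | [], _ => rfl
  | a :: l, k => (frl_eq a fun a => frll l fun l => k (a :: l)).trans (frll_eq l _)

/-- `p k` for all `k < n`. -/
noncomputable def alln (p : ℕ → Bool) (n : ℕ) : Bool :=
  Nat.rec (motive := fun _ => Bool) true (fun k r => p k && r) n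

lemma alln_lt {p : ℕ → Bool} : ∀ {n : ℕ}, alln p n = true → ∀ k < n, p k = true
  | 0, _, _, h => absurd h (Nat.not_lt_zero _)
  | n + 1, h, k, hk => by
    have h' : (p n && alln p n) = true := h
    rw [Bool.and_eq_true] at h'
    rcases Nat.lt_succ_iff_lt_or_eq.mp hk with h1 | rfl
    exacts [alln_lt h'.2 k h1, h'.1]

def fr2 (a b : ℕ) : List (Fin a × Fin b) :=
  (List.finRange a).flatMap fun i => (List.finRange b).map fun j => (i, j)

def fr3 (a b c : ℕ) : List (Fin a × Fin b × Fin c) :=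
  (List.finRange a).flatMap fun i => (fr2 b c).map fun j => (i, j)

lemma mem_fr2 {a b : ℕ} (t : Fin a × Fin b) : t ∈ fr2 a b := by
  simp [fr2]

lemma mem_fr3 {a b c : ℕ} (t : Fin a × Fin b × Fin c) : t ∈ fr3 a b c := by
  simp only [fr3, List.mem_flatMap, List.mem_map]
  exact ⟨t.1, List.mem_finRange _, t.2, mem_fr2 _, rfl⟩

/-- Two lists side by side. -/
def sl {α β : Type} (l : List α) (m : List β) : List (α ⊕ β) := l.map .inl ++ m.map .inr

lemma mem_sl {α β : Type} {l : List α} {m : List β} (hl : ∀ t, t ∈ l) (hm : ∀ t, t ∈ m)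
    (t : α ⊕ β) : t ∈ sl l m := by
  cases t <;> simp [sl, hl, hm]

lemma mem_unit (t : Unit) : t ∈ [()] := List.mem_singleton.mpr rfl

end Pool.Agent.P.MP_7ebcb6_ag.SC
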