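import Pool.Agent.P.MP_7ebcb6_ag.SC.Pk

/-! Arithmetic modulo `101` and modulo a polynomial on packed numbers. -/

namespace Pool.Agent.P.MP_7ebcb6_ag.SC

open Polynomial Finset

variable {K : Type} [Field K]

/-- The packed number `v` has value `z` at `ω`. -/
def Rw (ω : K) (n b v : ℕ) (z : K) : Prop := ∃ p, Rp 64 n b v p ∧ aeval ω p = z

/-- The value at `ω` of the polynomial with table `t`. -/
def sv (ω : K) (n t : ℕ) : K := pl n (fun i => (dg t i : K)) ω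

lemma aeval_pl (ω : K) {n : ℕ} {p : ℕ[X]} {c : ℕ → ℕ} (h1 : ∀ i < n, p.coeff i = c i)
    (h2 : ∀ i, n ≤ i → p.coeff i = 0) : aeval ω p = pl n (fun i => (c i : K)) ω := by
  have : p = ∑ i ∈ range n, monomial i (c i) := by
    ext i
    simp only [finsetSum_coeff, coeff_monomial, sum_ite_eq', mem_range]
    split_ifs with h
    exacts [h1 i h, h2 i (by omega)]
  rw [this, pl_eq, map_sum]
  simp [aeval_monomial]

namespace Rw

variable {ω z z' : K} {n n' b b' v v' : ℕ}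

lemma mono (h : Rw ω n b v z) (hn : n ≤ n') (hb : b ≤ b') : Rw ω n' b' v z :=
  let ⟨p, h1, h2⟩ := h; ⟨p, h1.mono hn hb, h2⟩

lemma zero : Rw ω n b 0 0 := ⟨0, Rp.zero, map_zero _⟩

lemma add (h : Rw ω n b v z) (h' : Rw ω n b' v' z') : Rw ω n (b + b') (v + v') (z + z') :=
  let ⟨p, h1, h2⟩ := h; let ⟨q, k1, k2⟩ := h'; ⟨p + q, h1.add k1, by rw [map_add, h2, k2]⟩

lemma mul (h : Rw ω n b v z) (h' : Rw ω n' b' v' z') :
    Rw ω (n + n') (n * (b * b')) (v * v') (z * z') :=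
  let ⟨p, h1, h2⟩ := h; let ⟨q, k1, k2⟩ := h'; ⟨p * q, h1.mul k1, by rw [map_mul, h2, k2]⟩

lemma smul (h : Rw ω n b v z) (a : ℕ) : Rw ω n (a * b) (a * v) (a * z) :=
  let ⟨p, h1, h2⟩ := h; ⟨C a * p, h1.smul a, by simp [h2]⟩

lemma con (a : ℕ) : Rw ω 1 a a a := ⟨C a, Rp.con a, by simp⟩

lemma uniq (h : Rw ω n b v z) (h' : Rw ω n' b' v z') (hb : b < 2 ^ 64) (hb' : b' < 2 ^ 64) :
    z = z' :=
  let ⟨p, h1, h2⟩ := h; let ⟨q, k1, k2⟩ := h'; by rw [← h2, ← k2, h1.uniq k1 hb hb']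

lemma mask {a : ℕ} (ha : a < 2 ^ 64) (n v : ℕ) : ∃ z, Rw ω n a (v &&& (a * ons 64 n)) z :=
  let ⟨p, h⟩ := Rp.mask (by norm_num) ha n v; ⟨_, p, h, rfl⟩

lemma spr (ω : K) (n t : ℕ) : Rw ω n 127 (spr 64 n t) (sv ω n t) :=
  let ⟨p, h1, h2⟩ := spr_rp 64 n t; ⟨p, h1, aeval_pl ω h2 h1.z⟩

lemma neg (h : Rw ω n b v z) {k : ℕ} (hk : b ≤ k) (h0 : (k : K) = 0) :
    Rw ω n k (k * ons 64 n - v) (-z) := by
  obtain ⟨p, h1, h2⟩ := h
  obtain ⟨q, k1, k2⟩ := h1.neg (by norm_num) hk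
  refine ⟨q, k1, ?_⟩
  have := congrArg (aeval ω) k2
  rw [map_add, h2, map_mul, aeval_C, eq_natCast, h0, zero_mul] at this
  exact eq_neg_of_add_eq_zero_right this

end Rw

/-- Constants for the arithmetic modulo one polynomial. -/
structure Cfg where
  N : ℕ
  s : ℕ
  s1 : ℕ
  BN : ℕ
  gn : ℕ
  gi : ℕ
  lo : ℕ
  o1 : ℕ
  m7 : ℕ

structure Cfg.ok (c : Cfg) (ω : K) : Prop where
  pos : 0 < c.N
  le : c.N ≤ 250
  lo : c.lo = 33554431 * SC.ons 64 (2 * c.N)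
  o1 : c.o1 = SC.ons 64 c.N
  m7 : c.m7 = 127 * SC.ons 64 c.N
  gn : Rw ω (c.N + 1) 127 c.gn 0

/-- A packed polynomial with a bound for its coefficients. -/
structure PK (c : Cfg) where
  v : ℕ
  b : ℕ

def PK.bad (c : Cfg) : PK c := ⟨0, 18446744073709551616⟩

noncomputable def mk2 {c : Cfg} (v b : ℕ) : PK c := fr1 v fun v => fr1 b fun b => ⟨v, b⟩

lemma mk2_eq {c : Cfg} (v b : ℕ) : (mk2 v b : PK c) = ⟨v, b⟩ := by simp only [mk2, fr1_eq]

def rd0 (lo x : ℕ) : ℕ :=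
  Nat.mul 101 (Nat.land (Nat.shiftRight (Nat.mul x 5443126871) 39) lo)

noncomputable def redc (c : Cfg) (y : ℕ) : PK c :=
  fr1 (rd0 c.lo y) fun t => fr1 (Nat.land (Nat.sub y t) c.m7) fun r =>
    cond (Nat.beq (Nat.add r t) y) ⟨r, 127⟩ (PK.bad c)

noncomputable def lng (c : Cfg) (z : ℕ) : PK c :=
  cond (Nat.blt z c.BN) (redc c z) (fr1 (Nat.shiftRight z c.s) fun h =>
    fr1 (Nat.mul (Nat.sub h (rd0 c.lo h)) c.gi) fun u =>
      fr1 (Nat.add z (Nat.mul (Nat.land (Nat.shiftRight (Nat.sub u (rd0 c.lo u)) c.s1) c.m7) c.gn))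
        (redc c))

noncomputable def rdb (c : Cfg) (v b : ℕ) : PK c := cond (Nat.ble b 3300000000) (redc c v) (PK.bad c)

noncomputable def fast (c : Cfg) (xv xb yv yb : ℕ) : PK c :=
  cond (Nat.blt xv 128) (mk2 (Nat.mul xv yv) (Nat.succ (Nat.mul xv yb)))
    (cond (Nat.blt yv 128) (mk2 (Nat.mul yv xv) (Nat.succ (Nat.mul yv xb)))
      (fr1 (Nat.mul xv yv) (lng c)))

namespace PK

variable {c : Cfg}

noncomputable def two (f : ℕ → ℕ → ℕ → ℕ → PK c) (x y : PK c) : PK c :=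
  PK.rec (motive := fun _ => PK c) (fun xv xb => PK.rec (motive := fun _ => PK c) (f xv xb) y) x

noncomputable instance : Mul (PK c) := ⟨two fun xv xb yv yb =>
  cond (Nat.ble (Nat.mul xb yb) 4000000) (fast c xv xb yv yb)
    (two (fun xv xb yv yb => cond (Nat.ble (Nat.mul xb yb) 4000000) (fast c xv xb yv yb) (bad c))
      (rdb c xv xb) (rdb c yv yb))⟩

noncomputable instance : Add (PK c) := ⟨two fun xv xb yv yb => mk2 (Nat.add xv yv) (Nat.add xb yb)⟩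

noncomputable instance : Sub (PK c) := ⟨two fun xv xb yv yb =>
  cond (Nat.blt yv 4000000000)
    (mk2 (Nat.add xv (Nat.mod (Nat.mul 100 yv) 101)) (Nat.add xb (Nat.add yb 100)))
    (fr1 (Nat.mul 101 (Nat.succ (Nat.div yb 101))) fun k =>
      mk2 (Nat.add xv (Nat.sub (Nat.mul k c.o1) yv)) (Nat.add xb k))⟩

noncomputable instance : NatCast (PK c) := ⟨fun n => fr1 (Nat.mod n 101) fun a => ⟨a, a.succ⟩⟩

/-- The reduced form. -/
noncomputable def red (x : PK c) : PK c := PK.rec (motive := fun _ => PK c) (rdb c) x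

noncomputable def isz (x : PK c) : Bool :=
  PK.rec (motive := fun _ => Bool) (fun v b => Nat.beq v 0 && Nat.ble b 127) x.red

end PK

/-- The element `x` has value `z` at `ω`, unless it is marked as bad. -/
def RK {c : Cfg} (ω : K) (x : PK c) (z : K) : Prop :=
  0 < x.b ∧ (x.b < 2 ^ 64 → Rw ω c.N x.b x.v z)

section

variable {c : Cfg} {ω z z' : K}

lemma RK.bad : RK ω (PK.bad c) z := ⟨by simp [PK.bad], fun h => absurd h (by simp [PK.bad])⟩

lemma RK.cnd {b : Bool} {x y : PK c} (h1 : b = true → RK ω x z) (h2 : b = false → RK ω y z) :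
    RK ω (cond b x y) z := by
  cases b
  exacts [h2 rfl, h1 rfl]

lemma RK.fc {n : ℕ} {k : ℕ → PK c} (h : RK ω (k n) z) : RK ω (fr1 n k) z := by
  rwa [fr1_eq]

lemma RK.mk2 {v b : ℕ} (h0 : 0 < b) (h : b < 2 ^ 64 → Rw ω c.N b v z) :
    RK ω (mk2 v b : PK c) z := by
  rw [mk2_eq]
  exact ⟨h0, h⟩

lemma RK.two {f : ℕ → ℕ → ℕ → ℕ → PK c} {x y : PK c} (h : RK ω (f x.v x.b y.v y.b) z) :
    RK ω (PK.two f x y) z := by
  cases x
  cases y
  exact h

variable [CharP K 101]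

lemma c101 : ((101 : ℕ) : K) = 0 := CharP.cast_eq_zero K 101

lemma rk_redc (hc : c.ok ω) {n b y : ℕ} (h : Rw ω n b y z) (hb : b < 2 ^ 64) :
    RK ω (redc c y) z := by
  simp only [redc, fr1_eq]
  cases e : Nat.beq (Nat.add (Nat.land (Nat.sub y (rd0 c.lo y)) c.m7) (rd0 c.lo y)) y
  · exact RK.bad
  refine ⟨by norm_num, fun _ => ?_⟩
  obtain ⟨r, hr⟩ := Rw.mask (ω := ω) (a := 127) (by norm_num) c.N (y - rd0 c.lo y)
  obtain ⟨q, hq⟩ := Rw.mask (ω := ω) (a := 33554431) (by norm_num) (2 * c.N)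
    ((y * 5443126871) >>> 39)
  rw [← hc.m7] at hr
  rw [← hc.lo] at hq
  have h1 := (hr.mono (by omega) le_rfl).add (hq.smul 101)
  have e' : (y - rd0 c.lo y &&& c.m7) + 101 * ((y * 5443126871) >>> 39 &&& c.lo) = y :=
    Nat.eq_of_beq_eq_true e
  rw [e', c101, zero_mul, add_zero] at h1
  rw [h.uniq h1 hb (by norm_num)]
  exact hr

lemma rk_step (hc : c.ok ω) {n b y : ℕ} (h : Rw ω n b y z) (hb : b ≤ 10 ^ 10) (Q : ℕ) :
    RK ω (redc c (Nat.add y (Nat.mul (Nat.land Q c.m7) c.gn))) z := by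
  obtain ⟨q, hq⟩ := Rw.mask (ω := ω) (a := 127) (by norm_num) c.N Q
  rw [← hc.m7] at hq
  have h1 := (h.mono (le_max_left _ _) le_rfl).add
    ((hq.mul hc.gn).mono (le_max_right n _) le_rfl)
  rw [mul_zero, add_zero] at h1
  have := hc.le
  exact rk_redc hc h1 (by omega)

lemma rk_lng (hc : c.ok ω) {n b y : ℕ} (h : Rw ω n b y z) (hb : b ≤ 10 ^ 10) :
    RK ω (lng c y) z :=
  RK.cnd (fun _ => rk_redc hc h (by omega)) fun _ => RK.fc (RK.fc (RK.fc (rk_step hc h hb _)))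

lemma rk_rdb (hc : c.ok ω) {v b : ℕ} (h : RK ω (⟨v, b⟩ : PK c) z) : RK ω (rdb c v b) z :=
  RK.cnd (fun e => by
    have : b < 2 ^ 64 := (Nat.le_of_ble_eq_true e).trans_lt (by norm_num)
    exact rk_redc hc (h.2 this) this) fun _ => RK.bad

omit [CharP K 101] in
lemma Rw.small {n b v : ℕ} (h : Rw ω n b v z) (hb : b < 2 ^ 64) (hv : v < 2 ^ 64) : z = v :=
  h.uniq (Rw.con v) hb hv

lemma rk_fast (hc : c.ok ω) {xv xb yv yb : ℕ} (h : RK ω (⟨xv, xb⟩ : PK c) z)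
    (h' : RK ω (⟨yv, yb⟩ : PK c) z') (e : Nat.ble (Nat.mul xb yb) 4000000 = true) :
    RK ω (fast c xv xb yv yb) (z * z') := by
  have e1 : xb * yb ≤ 4000000 := Nat.le_of_ble_eq_true e
  have x1 : xb < 2 ^ 64 :=
    ((Nat.le_mul_of_pos_right xb h'.1).trans e1).trans_lt (by norm_num)
  have y1 : yb < 2 ^ 64 :=
    ((Nat.le_mul_of_pos_left yb h.1).trans e1).trans_lt (by norm_num)
  have hx := h.2 x1
  have hy := h'.2 y1
  refine RK.cnd (fun e2 => RK.mk2 (Nat.succ_pos _) fun _ => ?_) fun _ =>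
    RK.cnd (fun e3 => RK.mk2 (Nat.succ_pos _) fun _ => ?_) fun _ =>
      RK.fc (rk_lng hc (hx.mul hy) ((Nat.mul_le_mul hc.le e1).trans (by norm_num)))
  · rw [hx.small x1 ((Nat.blt_eq.mp e2).trans (by norm_num))]
    exact (hy.smul xv).mono le_rfl (Nat.le_succ _)
  · rw [hy.small y1 ((Nat.blt_eq.mp e3).trans (by norm_num)), mul_comm]
    exact (hx.smul yv).mono le_rfl (Nat.le_succ _)

theorem cp_RK (hc : c.ok ω) : Cp (RK (c := c) ω) where
  add {x y z z'} h h' := RK.two (RK.mk2 (Nat.add_pos_left h.1 _) fun e : x.b + y.b < _ =>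
    (h.2 (by omega)).add (h'.2 (by omega)))
  sub {x y z z'} h h' := by
    rw [sub_eq_add_neg]
    refine RK.two (RK.cnd (fun e => RK.mk2 (Nat.add_pos_left h.1 _)
      fun e1 : x.b + (y.b + 100) < _ => ?_) fun _ => RK.fc (RK.mk2 (Nat.add_pos_left h.1 _)
        fun e : x.b + 101 * (y.b / 101 + 1) < _ => ?_))
    · have y1 : y.b < 2 ^ 64 := by omega
      have e2 : -z' = ((100 * y.v % 101 : ℕ) : K) := by
        rw [(h'.2 y1).small y1 ((Nat.blt_eq.mp e).trans (by norm_num)), ← CharP.cast_eq_mod]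
        have := c101 (K := K)
        push_cast at this ⊢
        linear_combination (-y.v : K) * this
      rw [e2]
      exact (h.2 (by omega)).add ((Rw.con (100 * y.v % 101)).mono hc.pos
        (show _ ≤ y.b + 100 by omega))
    · have := (h'.2 (by omega)).neg (k := 101 * (y.b / 101 + 1)) (by omega)
        (by rw [Nat.cast_mul, c101, zero_mul])
      rw [← hc.o1] at this
      exact (h.2 (by omega)).add this
  mul h h' := RK.two (RK.cnd (rk_fast hc h h') fun _ =>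
    RK.two (RK.cnd (rk_fast hc (rk_rdb hc h) (rk_rdb hc h')) fun _ => RK.bad))
  nat n := by
    refine RK.fc ⟨Nat.succ_pos _, fun _ => ?_⟩
    rw [CharP.cast_eq_mod K 101 n]
    exact (Rw.con (n % 101)).mono hc.pos (Nat.le_succ _)

lemma RK.red (hc : c.ok ω) {x : PK c} (h : RK ω x z) : RK ω x.red z := by
  obtain ⟨v, b⟩ := x
  exact rk_rdb hc h

lemma RK.isz (hc : c.ok ω) {x : PK c} (h : RK ω x z) (e : x.isz = true) : z = 0 := by
  have h1 := h.red hc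
  unfold PK.isz at e
  generalize x.red = y at h1 e
  obtain ⟨v, b⟩ := y
  have e' : (Nat.beq v 0 && Nat.ble b 127) = true := e
  rw [Bool.and_eq_true] at e'
  have hb : b < 2 ^ 64 := (Nat.le_of_ble_eq_true e'.2).trans_lt (by norm_num)
  have := (h1.2 hb).small hb (by change v < _; rw [Nat.eq_of_beq_eq_true e'.1]; norm_num)
  rw [this]
  change (v : K) = 0
  rw [Nat.eq_of_beq_eq_true e'.1, Nat.cast_zero]

end

end Pool.Agent.P.MP_7ebcb6_ag.SC
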