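import Pool.Agent.P.MP_7ebcb6_ag.SC.Pv
import Pool.Agent.P.MP_7ebcb6_ag.SC.Cb2

/-! Checks for the rows of the reduced system. -/

namespace Pool.Agent.P.MP_7ebcb6_ag.SC

open Polynomial

variable {K : Type} [Field K]

/-- The coefficients of the groups as packed polynomials. -/
noncomputable def slc (g : Grp) : ℕ → List ℕ :=
  List.rec (motive := fun _ => ℕ → List ℕ) (fun _ => []) (fun a _ r t => fr1 t fun t =>
    cond (Nat.beq t 0) [] (spr 64 a.1 t :: r (Nat.shiftRight t (Nat.mul 7 a.1)))) g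

noncomputable def acc (s : List ℕ) : List ℕ → ℕ :=
  List.rec (motive := fun _ => List ℕ → ℕ) (fun _ => 0) (fun a _ r P =>
    List.rec (motive := fun _ => ℕ) 0 (fun b P _ => Nat.add (Nat.mul a b) (r P)) P) s

lemma FG_zero (u : K) (p : Fin 6 → K) : ∀ g : Grp, FG u p g (fun _ => 0) = 0
  | [] => rfl
  | a :: g => by simp [FG, FG_zero u p g, pl_eq]

lemma acc_rw {ω : K} {N : ℕ} (p : Fin 6 → K) (f : ℕ × (Fin 4 → Fin 6) → ℕ) :
    ∀ (g : Grp) (t : ℕ), (∀ a ∈ g, a.1 ≤ 42 ∧ Rw ω N 127 (f a) (mon a.2 p)) →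
      Rw ω (42 + N) (g.length * 677418) (acc (slc g t) (g.map f)) (FG ω p g (tk K t))
  | [], _, _ => Rw.zero
  | a :: g, t, h => by
    have e : slc (a :: g) t = cond (Nat.beq t 0) [] (spr 64 a.1 t :: slc g (t >>> (7 * a.1))) :=
      fr1_eq t fun t => cond (Nat.beq t 0) [] (spr 64 a.1 t :: slc g (t >>> (7 * a.1)))
    rw [e]
    cases e1 : Nat.beq t 0
    · obtain ⟨h1, h2⟩ := h a List.mem_cons_self
      have h3 := acc_rw p f g (t >>> (7 * a.1)) fun b hb => h b (List.mem_cons_of_mem _ hb)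
      have e2 : tk K (t >>> (7 * a.1)) = fun k => tk K t (a.1 + k) :=
        funext fun k => by rw [tk, tk, dg_shift]
      rw [e2] at h3
      exact ((((Rw.spr ω a.1 t).mul h2).mono (by omega) (Nat.mul_le_mul_right _ h1)).add h3).mono
        le_rfl (by rw [List.length_cons]; omega)
    · have : tk K t = fun _ => 0 := funext fun k => by
        rw [Nat.eq_of_beq_eq_true e1, tk, dg_zero, Nat.cast_zero]
      rw [this, FG_zero]
      exact Rw.zero

/-- Evaluated data of a block of rows. -/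
structure Bd where
  c : Cfg
  pk : List ℕ
  D : ℕ
  o : ℕ
  len : ℕ

noncomputable def Bd.val (B : Bd) (s : List ℕ) (t : ℕ) : PK B.c :=
  fr1 (Nat.add (acc s B.pk) (Nat.mul (spr 64 B.len (Nat.shiftRight t (Nat.mul 7 B.o))) B.D))
    (lng B.c)

/-- A block of rows: the algebra, the Plücker coordinates, the derivative and its column. -/
structure B0 : Type 1 where
  B : BD
  n : ℕ
  S : Sys Unit (Fin n) (Fin 6)
  tD : ℕ
  o : ℕ
  len : ℕ

noncomputable def B0.mn (b : B0) (c : Cfg) (xs : List ℕ) (a : ℕ × (Fin 4 → Fin 6)) : PK c :=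
  (mon a.2 (b.S.ev (fun _ => ((0 : ℕ) : PK c)) (vec c xs))).red

noncomputable def B0.run (g : Grp) (b : B0) (k : Bd → Bool) : Bool :=
  b.B.c.frc fun c => frl (b.B.xs.map (spr 64 c.N)) fun xs =>
    (Nat.ble b.len 50 && g.all fun a => Nat.ble a.1 42 && Nat.ble (b.mn c xs a).b 127) &&
      frl (g.map fun a => (b.mn c xs a).v) fun P => fr1 (spr 64 c.N b.tD) fun D =>
        fr1 b.o fun o => fr1 b.len fun len => k ⟨c, P, D, o, len⟩

/-- The value of the row with table `t` at `ω`. -/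
noncomputable def B0.val (g : Grp) (b : B0) (ω : K) (t : ℕ) : K :=
  FG ω (b.S.ev (fun _ => 0) (svl ω b.B.N b.B.xs)) g (tk K (t >>> 406))
    + sv ω b.len (t >>> (7 * b.o)) * sv ω b.B.N b.tD

def B0.Rel (K : Type) [Field K] (g : Grp) (b : B0) (B : Bd) : Prop :=
  ∀ ω : K, b.B.c.ok ω → ∀ t, RK ω (B.val (slc g (t >>> 406)) t) (b.val g ω t)

variable [CharP K 101]

lemma B0.run_ok {g : Grp} (hg : g.length ≤ 100) {b : B0} {k : Bd → Bool} (h : b.run g k = true) :
    ∃ B, b.Rel K g B ∧ k B = true := by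
  simp only [B0.run, Cfg.frc_eq, frl_eq, fr1_eq, Bool.and_eq_true, List.all_eq_true,
    Nat.ble_eq] at h
  obtain ⟨⟨h1, h2⟩, h3⟩ := h
  refine ⟨_, fun ω hc t => RK.fc (rk_lng hc (((acc_rw (N := b.B.c.N) _ _ g (t >>> 406) fun a ha =>
    ⟨(h2 a ha).1, ?_⟩).mono (le_max_left _ _) le_rfl).add (((Rw.spr ω b.len _).mul
      (Rw.spr ω b.B.c.N b.tD)).mono (le_max_right _ _) le_rfl)) (by omega)), h3⟩
  have hp := (cp_RK hc).ev b.S (fun _ => rk_zero hc) (rk_vec b.B.xs)
  exact (((cp_RK hc).mul ((cp_RK hc).mul (hp _) (hp _)) ((cp_RK hc).mul (hp _) (hp _))).red hc).2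
    ((h2 a ha).2.trans_lt (by norm_num)) |>.mono le_rfl (h2 a ha).2

noncomputable def runL (g : Grp) (l : List B0) : (List Bd → Bool) → Bool :=
  List.rec (motive := fun _ => (List Bd → Bool) → Bool) (fun k => k [])
    (fun b _ r k => b.run g fun B => r fun Bs => k (B :: Bs)) l

lemma runL_ok {g : Grp} (hg : g.length ≤ 100) : ∀ {l : List B0} {k : List Bd → Bool},
    runL g l k = true → ∃ Bs, (∀ b ∈ l, ∃ B ∈ Bs, b.Rel K g B) ∧ k Bs = true
  | [], _, h => ⟨[], fun _ h => absurd h List.not_mem_nil, h⟩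
  | b :: l, k, h => by
    obtain ⟨B, h1, h2⟩ := B0.run_ok (K := K) hg (b := b)
      (k := fun B => runL g l fun Bs => k (B :: Bs)) h
    obtain ⟨Bs, h3, h4⟩ := runL_ok hg h2
    refine ⟨B :: Bs, fun b' hb => ?_, h4⟩
    rcases List.mem_cons.mp hb with rfl | hb
    · exact ⟨B, List.mem_cons_self, h1⟩
    · obtain ⟨B', h5, h6⟩ := h3 b' hb
      exact ⟨B', List.mem_cons_of_mem _ h5, h6⟩

/-- The element is a monic polynomial of degree `d`. -/
noncomputable def PK.mo {c : Cfg} (d : ℕ) (x : PK c) : Bool :=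
  PK.rec (motive := fun _ => Bool)
    (fun v b => Nat.beq (Nat.shiftRight v (Nat.mul 64 d)) 1 && Nat.ble b 127) x

noncomputable def PK.z0 {c : Cfg} (x : PK c) : Bool :=
  PK.rec (motive := fun _ => Bool) (fun v b => Nat.beq v 0 && Nat.ble b 127) x

omit [CharP K 101] in
lemma PK.z0_ok {c : Cfg} {x : PK c} {ω z : K} (h : RK ω x z) (e : x.z0 = true) : z = 0 := by
  obtain ⟨v, b⟩ := x
  have e' : (Nat.beq v 0 && Nat.ble b 127) = true := e
  simp only [Bool.and_eq_true, Nat.beq_eq, Nat.ble_eq] at e'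
  obtain ⟨rfl, hb⟩ := e'
  have hb' : b < 2 ^ 64 := hb.trans_lt (by norm_num)
  exact ((h.2 hb').small hb' (by norm_num)).trans Nat.cast_zero

omit [CharP K 101] in
lemma PK.mo_ok {c : Cfg} {x : PK c} {d : ℕ} (e : x.mo d = true) :
    ∃ q : ℕ → K, q d = 1 ∧ ∀ ω z : K, RK ω x z → z = pl (d + 1) q ω := by
  obtain ⟨v, b⟩ := x
  have e' : (Nat.beq (v >>> (64 * d)) 1 && Nat.ble b 127) = true := e
  simp only [Bool.and_eq_true, Nat.beq_eq, Nat.ble_eq] at e'
  obtain ⟨h1, hb⟩ := e'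
  obtain ⟨p, hp⟩ := Rp.dig (w := 64) (d + 1) v (by
    rw [Nat.shiftRight_eq_div_pow] at h1
    have := Nat.lt_mul_div_succ v (Nat.two_pow_pos (64 * d))
    rw [h1] at this
    rw [mul_add, pow_add]
    exact this.trans_le (Nat.mul_le_mul_left _ (by norm_num)))
  refine ⟨fun i => p.coeff i, ?_, fun ω z h => ?_⟩
  · have := hp.split (by norm_num) d (q := C 1) (n' := 1) (b' := 1)
      (by rw [h1]; exact Rp.con 1) (by norm_num) 0
    rw [zero_add, coeff_C_zero] at this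
    simp only [this, Nat.cast_one]
  · have hb' : b < 2 ^ 64 := hb.trans_lt (by norm_num)
    exact (h.2 hb').uniq ⟨p, hp, aeval_pl ω (fun _ _ => rfl) hp.z⟩ hb' (by norm_num)

noncomputable def rwr (g : Grp) (B : Bd) (Bs : List Bd) (l : List ℕ) : ℕ → Bool :=
  List.rec (motive := fun _ => ℕ → Bool) (fun _ => true) (fun t _ r d =>
    frl (slc g (Nat.shiftRight t 406)) (fun s => (B.val s t).mo d &&
      Bs.all fun B => (B.val s t).z0) && r d.succ) l

/-- The rows in `l` are monic of degrees `d, d + 1, …` on `b` and zero on the blocks in `bs`. -/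
noncomputable def chkR (g : Grp) (b : B0) (bs : List B0) (l : List ℕ) (d : ℕ) : Bool :=
  b.run g fun B => runL g bs fun Bs => rwr g B Bs l d

noncomputable def chkR0 (g : Grp) (bs : List B0) (l : List ℕ) : Bool :=
  runL g bs fun Bs => l.all fun t => frl (slc g (Nat.shiftRight t 406)) fun s =>
    Bs.all fun B => (B.val s t).z0

theorem chkR0_ok {g : Grp} (hg : g.length ≤ 100) {bs : List B0} {l : List ℕ}
    (h : chkR0 g bs l = true) {t : ℕ} (ht : t ∈ l) {b : B0} (hb : b ∈ bs) {ω : K}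
    (hc : b.B.c.ok ω) : b.val g ω t = 0 := by
  obtain ⟨Bs, h1, h2⟩ := runL_ok (K := K) hg h
  obtain ⟨B, h3, h4⟩ := h1 b hb
  simp only [frl_eq, List.all_eq_true] at h2
  exact PK.z0_ok (h4 ω hc t) (h2 t ht B h3)

/-- A row that is monic of degree `d` on `b` and zero on `bs`. -/
def Row (K : Type) [Field K] (g : Grp) (b : B0) (bs : List B0) (d : ℕ) : Prop :=
  ∃ (t : ℕ) (q : ℕ → K), q d = 1 ∧ (∀ ω, b.B.c.ok ω → b.val g ω t = pl (d + 1) q ω) ∧
    ∀ b ∈ bs, ∀ ω : K, b.B.c.ok ω → b.val g ω t = 0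

omit [CharP K 101] in
lemma rwr_ok {g : Grp} {b : B0} {bs : List B0} {B : Bd} {Bs : List Bd} (h1 : b.Rel K g B)
    (h2 : ∀ b ∈ bs, ∃ B ∈ Bs, b.Rel K g B) : ∀ (l : List ℕ) (d : ℕ), rwr g B Bs l d = true →
    ∀ i, d ≤ i → i < d + l.length → Row K g b bs i
  | [], _, _, _, _, h => by simp at h; omega
  | t :: l, d, e, i, k1, k2 => by
    have e' : (frl (slc g (t >>> 406)) (fun s => (B.val s t).mo d &&
      Bs.all fun B => (B.val s t).z0) && rwr g B Bs l (d + 1)) = true := e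
    simp only [frl_eq, Bool.and_eq_true, List.all_eq_true] at e'
    rcases k1.eq_or_lt with rfl | k1
    · obtain ⟨q, q1, q2⟩ := PK.mo_ok (K := K) e'.1.1
      refine ⟨t, q, q1, fun ω hc => q2 ω _ (h1 ω hc t), fun b hb ω hc => ?_⟩
      obtain ⟨B', h3, h4⟩ := h2 b hb
      exact PK.z0_ok (h4 ω hc t) (e'.1.2 B' h3)
    · exact rwr_ok h1 h2 l _ e'.2 i k1 (by rw [List.length_cons] at k2; omega)

theorem chkR_ok {g : Grp} (hg : g.length ≤ 100) {b : B0} {bs : List B0} {l : List ℕ} {d : ℕ}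
    (h : chkR g b bs l d = true) {i : ℕ} (k1 : d ≤ i) (k2 : i < d + l.length) : Row K g b bs i := by
  obtain ⟨B, h1, h2⟩ := B0.run_ok (K := K) hg h
  obtain ⟨Bs, h3, h4⟩ := runL_ok (K := K) hg h2
  exact rwr_ok h1 h3 l d h4 i k1 k2

/-- The Plücker coordinates of the line with chart coordinates `x 1 … x 4`. -/
def PL4 (n : ℕ) : Sys Unit (Fin n) (Fin 6) where
  ev {R} _ _ _ _ _ x t := lP (w4 (sq x)) t
  nat {R S} _ _ _ _ _ _ _ _ f h a x t := by simp only [h.lP, app_w4 f, h.sq]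

/-- The same for a line in a tritangent plane. -/
def PLt (i : Fin 3) : Sys Unit (Fin 10) (Fin 6) where
  ev {R} _ _ _ _ _ x t := lP (trW (sq x) i) t
  nat {R S} _ _ _ _ _ _ _ _ f h a x t := by simp only [h.lP, h.trW, h.sq]

end Pool.Agent.P.MP_7ebcb6_ag.SC
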