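import Pool.Agent.P.MP_7ebcb6_ag.SC.Pb

/-! Checks for rational solutions: values with many packed derivatives, and residues. -/

namespace Pool.Agent.P.MP_7ebcb6_ag.SC

open Polynomial

variable {K : Type} [Field K] [CharP K 101]

/-- Digit `i` is one and all later digits are zero modulo `101`. -/
noncomputable def okd (w lo i d : ℕ) : Bool :=
  fr1 (Nat.shiftRight d (Nat.mul w i)) fun h => Nat.beq (Nat.mod h 101) 1 &&
    fr1 (Nat.div h 101) fun q => Nat.beq (Nat.land q lo) q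

/-- The mask that is used in `okd`. -/
def lom (w n : ℕ) : ℕ := (2 ^ (w - 7) - 1) * ons w n

lemma okd_ok {w m i d n b : ℕ} (hw : 7 ≤ w) (h : okd w (lom w m) i d = true) {p : ℕ[X]}
    (hp : Rp w n b d p) (hb : b < 2 ^ w) :
    (p.coeff i : K) = 1 ∧ ∀ j, i < j → (p.coeff j : K) = 0 := by
  simp only [okd, fr1_eq, Bool.and_eq_true, Nat.beq_eq] at h
  obtain ⟨h1, h2⟩ : d >>> (w * i) % 101 = 1 ∧
    d >>> (w * i) / 101 &&& lom w m = d >>> (w * i) / 101 := h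
  have e : 2 ^ w = 128 * 2 ^ (w - 7) := by
    rw [show 128 = 2 ^ 7 by norm_num, ← pow_add, Nat.add_sub_cancel' hw]
  have p0 := Nat.two_pow_pos (w - 7)
  obtain ⟨q, hq⟩ := Rp.mask (w := w) (by omega) (a := 2 ^ (w - 7) - 1) (by omega) m
    (d >>> (w * i) / 101)
  have h3 := ((Rp.con 1).mono (Nat.le_add_left 1 m) le_rfl).add
    ((hq.smul 101).mono m.le_succ le_rfl)
  rw [← lom, h2, ← h1, Nat.mod_add_div, h1] at h3
  have h4 := hp.split hb i h3 (by omega)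
  refine ⟨?_, fun j hj => ?_⟩
  · have := h4 0
    rw [zero_add] at this
    rw [this, coeff_add, coeff_C_mul, coeff_C_zero, Nat.cast_add, Nat.cast_mul, c101]
    simp
  · obtain ⟨k, rfl⟩ := Nat.exists_eq_add_of_lt hj
    rw [show i + k + 1 = k + 1 + i by ring, h4, coeff_add, coeff_C_mul, coeff_C_succ, zero_add,
      Nat.cast_mul, c101, zero_mul]

/-- A residue `a`, packed derivatives `d` and a bound `b` for them. -/
structure PV where
  a : ℕ
  d : ℕ
  b : ℕ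

namespace PV

noncomputable def mk3 (a d b : ℕ) : PV := fr1 a fun a => fr1 d fun d => fr1 b fun b => ⟨a, d, b⟩

lemma mk3_eq (a d b : ℕ) : mk3 a d b = ⟨a, d, b⟩ := by simp only [mk3, fr1_eq]

noncomputable def two (f : ℕ → ℕ → ℕ → ℕ → ℕ → ℕ → PV) (x y : PV) : PV :=
  PV.rec (motive := fun _ => PV) (fun xa xd xb => PV.rec (motive := fun _ => PV) (f xa xd xb) y) x

lemma two_eq (f : ℕ → ℕ → ℕ → ℕ → ℕ → ℕ → PV) (x y : PV) :
    two f x y = f x.a x.d x.b y.a y.d y.b := rfl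

noncomputable def fa (xa xd xb ya yd yb : ℕ) : PV :=
  mk3 (Nat.mod (Nat.add xa ya) 101) (Nat.add xd yd) (Nat.add xb yb)

noncomputable def fs (xa xd xb ya yd yb : ℕ) : PV :=
  mk3 (Nat.mod (Nat.add xa (Nat.mul 100 ya)) 101) (Nat.add xd (Nat.mul 100 yd))
    (Nat.add xb (Nat.mul 100 yb))

noncomputable def fm (xa xd xb ya yd yb : ℕ) : PV :=
  mk3 (Nat.mod (Nat.mul xa ya) 101) (Nat.add (Nat.mul xa yd) (Nat.mul ya xd))
    (Nat.add (Nat.mul xa yb) (Nat.mul ya xb))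

noncomputable instance : Add PV := ⟨two fa⟩
noncomputable instance : Sub PV := ⟨two fs⟩
noncomputable instance : Mul PV := ⟨two fm⟩
noncomputable instance : NatCast PV := ⟨fun n => fr1 (Nat.mod n 101) fun a => ⟨a, 0, 0⟩⟩

end PV

/-- The value and the derivative number `j` of `x`. -/
def RV (w j : ℕ) (x : PV) (z : Du K) : Prop :=
  (x.a : K) = z.a ∧ ∃ n p, Rp w n x.b x.d p ∧ (p.coeff j : K) = z.b

lemma c100 (a : ℕ) : ((100 * a : ℕ) : K) = -a := by
  have := c101 (K := K)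
  push_cast at this ⊢
  linear_combination (a : K) * this

theorem cp_RV (w j : ℕ) : Cp (RV (K := K) w j) where
  add := by
    rintro x y z z' ⟨h1, n, p, h2, h3⟩ ⟨k1, m, q, k2, k3⟩
    have e : x + y = ⟨(x.a + y.a) % 101, x.d + y.d, x.b + y.b⟩ := PV.mk3_eq ..
    rw [e]
    refine ⟨?_, _, _, (h2.mono (le_max_left n m) le_rfl).add (k2.mono (le_max_right ..) le_rfl), ?_⟩
    · rw [← CharP.cast_eq_mod, Nat.cast_add, h1, k1]; rfl
    · rw [coeff_add, Nat.cast_add, h3, k3]; rfl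
  sub := by
    rintro x y z z' ⟨h1, n, p, h2, h3⟩ ⟨k1, m, q, k2, k3⟩
    have e : x - y = ⟨(x.a + 100 * y.a) % 101, x.d + 100 * y.d, x.b + 100 * y.b⟩ := PV.mk3_eq ..
    rw [e]
    refine ⟨?_, _, _, (h2.mono (le_max_left n m) le_rfl).add
      ((k2.smul 100).mono (le_max_right ..) le_rfl), ?_⟩
    · rw [← CharP.cast_eq_mod, Nat.cast_add, c100, h1, k1, ← sub_eq_add_neg]; rfl
    · rw [coeff_add, coeff_C_mul, Nat.cast_add, c100, h3, k3, ← sub_eq_add_neg]; rfl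
  mul := by
    rintro x y z z' ⟨h1, n, p, h2, h3⟩ ⟨k1, m, q, k2, k3⟩
    have e : x * y = ⟨(x.a * y.a) % 101, x.a * y.d + y.a * x.d, x.a * y.b + y.a * x.b⟩ :=
      PV.mk3_eq ..
    rw [e]
    refine ⟨?_, _, _, ((k2.smul x.a).mono (le_max_right n m) le_rfl).add
      ((h2.smul y.a).mono (le_max_left ..) le_rfl), ?_⟩
    · rw [← CharP.cast_eq_mod, Nat.cast_mul, h1, k1]; rfl
    · rw [coeff_add, coeff_C_mul, coeff_C_mul, Nat.cast_add, Nat.cast_mul, Nat.cast_mul, h1, k1, h3,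
        k3, mul_comm z'.a]; rfl
  nat n := by
    have e : (n : PV) = ⟨n % 101, 0, 0⟩ := fr1_eq ..
    rw [e]
    exact ⟨(CharP.cast_eq_mod K 101 n).symm, 0, 0, Rp.zero, rfl⟩

noncomputable def PV.ok (w lo i : ℕ) (x : PV) : Bool :=
  PV.rec (motive := fun _ => Bool)
    (fun a d b => Nat.beq a 0 && (Nat.blt b (Nat.pow 2 w) && okd w lo i d)) x

noncomputable def rwv {τ : Type} (w lo : ℕ) (f : τ → PV) (l : List τ) : ℕ → Bool :=
  List.rec (motive := fun _ => ℕ → Bool) (fun _ => true)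
    (fun t _ r i => (f t).ok w lo i && r i.succ) l

/-- The check of the rows in `l` with a mask for `m` digits. -/
noncomputable def rows {τ : Type} (w m : ℕ) (f : τ → PV) (l : List τ) : Bool :=
  fr1 (lom w m) fun lo => rwv w lo f l 0

lemma rwv_ok {τ : Type} {w m : ℕ} (hw : 7 ≤ w) {f : τ → PV} {A : τ → K} {D : τ → ℕ → K} {o : ℕ}
    (h : ∀ t j, RV w j (f t) ⟨A t, D t (o + j)⟩) (n : ℕ) : ∀ (l : List τ) (i : ℕ),
    rwv w (lom w m) f l i = true → TriL D n (o + i) l ∧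
      ∀ t ∈ l, A t = 0 ∧ ∀ j, o + i + l.length ≤ j → D t j = 0
  | [], _, _ => ⟨trivial, fun _ h => absurd h List.not_mem_nil⟩
  | t :: l, i, e => by
    have e' : ((Nat.beq (f t).a 0 && (Nat.blt (f t).b (2 ^ w) && okd w (lom w m) i (f t).d)) &&
      rwv w (lom w m) f l (i + 1)) = true := e
    simp only [Bool.and_eq_true, Nat.beq_eq, Nat.blt_eq] at e'
    obtain ⟨⟨e1, e2, e3⟩, e4⟩ := e'
    obtain ⟨r1, r2⟩ := rwv_ok hw h n l _ e4
    have k : ∀ j, o + i < j → D t j = 0 := fun j hj => by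
      obtain ⟨-, _, p, h2, h3⟩ := h t (j - o)
      rw [Nat.add_sub_cancel' (by omega)] at h3
      exact h3.symm.trans ((okd_ok hw e3 h2 e2).2 _ (by omega))
    refine ⟨⟨⟨?_, fun j hj _ => k j hj⟩, r1⟩, fun s hs => ?_⟩
    · obtain ⟨-, _, p, h2, h3⟩ := h t i
      exact h3.symm.trans (okd_ok hw e3 h2 e2).1
    · rw [List.length_cons]
      rcases List.mem_cons.mp hs with rfl | hs
      · refine ⟨?_, fun j hj => k j (by omega)⟩
        have := (h s 0).1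
        rw [e1, Nat.cast_zero] at this
        exact this.symm
      · exact ⟨(r2 s hs).1, fun j hj => (r2 s hs).2 j (by omega)⟩

theorem rows_ok {π σ τ : Type} (S : Sys π σ τ) {w m : ℕ} (hw : 7 ≤ w) {a : π → PV} {x : σ → PV}
    {a0 : π → K} {x0 : σ → K} {a1 : ℕ → π → K} {x1 : ℕ → σ → K} {o : ℕ}
    (ha : ∀ j i, RV w j (a i) ⟨a0 i, a1 (o + j) i⟩) (hx : ∀ j i, RV w j (x i) ⟨x0 i, x1 (o + j) i⟩)
    {l : List τ} (e : rows w m (S.ev a x) l = true) (n : ℕ) :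
    TriL (fun t j => S.d a0 x0 (a1 j) (x1 j) t) n o l ∧ ∀ t ∈ l, S.ev a0 x0 t = 0 ∧
      ∀ j, o + l.length ≤ j → S.d a0 x0 (a1 j) (x1 j) t = 0 := by
  rw [rows, fr1_eq] at e
  refine rwv_ok (D := fun t j => S.d a0 x0 (a1 j) (x1 j) t) hw (fun t j => ?_) n l 0 e
  have := (cp_RV w j).ev S (ha j) (hx j) t
  rwa [← S.nat hom_du_a (fun i => (⟨a0 i, a1 (o + j) i⟩ : Du K))
    (fun i => ⟨x0 i, x1 (o + j) i⟩) t]

/-- A constant. -/
noncomputable def vc (a : ℕ) : PV := fr1 a fun a => ⟨a, 0, 0⟩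

omit [CharP K 101] in
lemma rv_vc (w j a : ℕ) : RV w j (vc a) (⟨a, 0⟩ : Du K) := by
  rw [vc, fr1_eq]
  exact ⟨rfl, 0, 0, Rp.zero, Nat.cast_zero⟩

/-- The entries `j < n` of a table. -/
def dl (n t j : ℕ) : ℕ := if j < n then dg t j else 0

lemma spr_rp' (w n t : ℕ) : ∃ p, Rp w n 127 (spr w n t) p ∧ ∀ j, p.coeff j = dl n t j := by
  obtain ⟨p, h1, h2⟩ := spr_rp w n t
  refine ⟨p, h1, fun j => ?_⟩
  unfold dl
  split_ifs with h
  exacts [h2 j h, h1.z j (by omega)]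

/-- Values from a table and evaluated derivatives from a list. -/
noncomputable def vv (t : ℕ) (l : List ℕ) (i : ℕ) : PV := PV.mk3 (dg t i) (nth 0 l i) 127

omit [CharP K 101] in
lemma rv_vv (w m t : ℕ) (l : List ℕ) (j i : ℕ) :
    RV w j (vv t (l.map (spr w m)) i) (⟨tk K t i, dl m (nth 0 l i) j⟩ : Du K) := by
  have := nth_map (spr w m) 0 l i
  rw [spr_zero] at this
  obtain ⟨p, h1, h2⟩ := spr_rp' w m (nth 0 l i)
  rw [vv, PV.mk3_eq, this]
  exact ⟨rfl, _, p, h1, congrArg _ (h2 j)⟩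

/-- A sparse vector: `n` pairs of a position and a value, seen from position `o`. -/
noncomputable def prs (w o n : ℕ) : ℕ → ℕ :=
  Nat.rec (motive := fun _ => ℕ → ℕ) (fun _ => 0) (fun _ r c => fr1 c fun c =>
    fr1 (Nat.div (Nat.mod c 262144) 128) fun e => Nat.add (cond (Nat.ble o e)
      (Nat.shiftLeft (Nat.mod c 128) (Nat.mul w (Nat.sub e o))) 0) (r (Nat.shiftRight c 18))) n

def pc (j : ℕ) : ℕ → ℕ → ℕ
  | 0, _ => 0
  | n + 1, c => (if c % 262144 / 128 = j then c % 128 else 0) + pc j n (c >>> 18)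

lemma prs_rp (w o : ℕ) : ∀ n c : ℕ, ∃ p, Rp w 2048 (127 * n) (prs w o n c) p ∧
    ∀ j, p.coeff j = pc (o + j) n c
  | 0, _ => ⟨0, Rp.zero, fun _ => rfl⟩
  | n + 1, c => by
    obtain ⟨p, h1, h2⟩ := prs_rp w o n (c >>> 18)
    have e : prs w o (n + 1) c = cond (Nat.ble o (c % 262144 / 128))
        ((c % 128) <<< (w * (c % 262144 / 128 - o))) 0 + prs w o n (c >>> 18) := by
      change fr1 c (fun c => fr1 (c % 262144 / 128) fun e => cond (Nat.ble o e)
        ((c % 128) <<< (w * (e - o))) 0 + prs w o n (c >>> 18)) = _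
      rw [fr1_eq, fr1_eq]
    rw [e, mul_add_one, add_comm _ 127]
    cases e1 : Nat.ble o (c % 262144 / 128)
    · have : c % 262144 / 128 < o := by
        rw [← Bool.not_eq_true, Nat.ble_eq] at e1
        omega
      refine ⟨0 + p, Rp.zero.add h1, fun j => ?_⟩
      rw [zero_add, h2, pc, if_neg (by omega), zero_add]
    · rw [Nat.ble_eq] at e1
      refine ⟨monomial (c % 262144 / 128 - o) (c % 128) + p, Rp.add ⟨fun i => ?_, fun i hi => ?_,
        ?_⟩ h1, fun j => ?_⟩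
      · rw [coeff_monomial]; split_ifs <;> omega
      · rw [coeff_monomial, if_neg (by omega)]
      · rw [eval_monomial, ← pow_mul, cond_true, Nat.shiftLeft_eq]
      · rw [coeff_add, coeff_monomial, h2, pc]
        exact congrArg (· + _) (if_congr (by omega) rfl rfl)

/-- Entry `k` of a table with twelve bits per entry. -/
def d12 (t k : ℕ) : ℕ := Nat.mod (Nat.shiftRight t (Nat.mul 12 k)) 4096

noncomputable def sx0 (w o tX tI tP k : ℕ) : PV :=
  fr1 (d12 tI k) fun s => fr1 (Nat.sub (d12 tI k.succ) s) fun n => PV.mk3 (dg tX k) (Nat.add 101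
    (prs w o n (Nat.mod (Nat.shiftRight tP (Nat.mul 18 s)) (Nat.pow 2 (Nat.mul 18 n)))))
    (Nat.add 101 (Nat.mul 127 n))

/-- Values from a table and sparse derivatives. -/
noncomputable def sx1 (w o tX tI tP : ℕ) {n : ℕ} : Fin n → PV :=
  fun i => fr1 i.val fun k => PV.rec (motive := fun _ => PV) PV.mk (sx0 w o tX tI tP k)

def sx2 (tI tP j k : ℕ) : ℕ := pc j (d12 tI (k + 1) - d12 tI k)
  (tP >>> (18 * d12 tI k) % 2 ^ (18 * (d12 tI (k + 1) - d12 tI k)))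

lemma rv_sx1 (w o tX tI tP : ℕ) {n : ℕ} (j : ℕ) (i : Fin n) :
    RV w j (sx1 w o tX tI tP i) (⟨tk K tX i.val, sx2 tI tP (o + j) i.val⟩ : Du K) := by
  have e : sx1 w o tX tI tP i = sx0 w o tX tI tP i.val := fr1_eq ..
  obtain ⟨p, h1, h2⟩ := prs_rp w o (d12 tI (i.val + 1) - d12 tI i.val)
    (tP >>> (18 * d12 tI i.val) % 2 ^ (18 * (d12 tI (i.val + 1) - d12 tI i.val)))
  rw [e, sx0, fr1_eq, fr1_eq, PV.mk3_eq]
  refine ⟨rfl, _, _, ((Rp.con 101).mono (by norm_num) le_rfl).add h1, ?_⟩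
  rw [coeff_add, Nat.cast_add, h2, coeff_C]
  split_ifs
  · rw [c101, zero_add]; rfl
  · rw [Nat.cast_zero, zero_add]; rfl

/-! ## Residues -/

def Fp : Type := ℕ

instance : Add Fp := ⟨fun x y => Nat.mod (Nat.add x y) 101⟩
instance : Sub Fp := ⟨fun x y => Nat.mod (Nat.add x (Nat.mul 100 y)) 101⟩
instance : Mul Fp := ⟨fun x y => Nat.mod (Nat.mul x y) 101⟩
instance : NatCast Fp := ⟨fun n => n⟩

def Fp.v (x : Fp) : ℕ := x

def tf (t : ℕ) : ℕ → Fp := dg t

theorem hom_fp : Hom fun x : Fp => (x.v : K) where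
  add x y := (CharP.cast_eq_mod K 101 (x.v + y.v)).symm.trans (Nat.cast_add ..)
  sub x y := (CharP.cast_eq_mod K 101 (x.v + 100 * y.v)).symm.trans (by
    rw [Nat.cast_add, c100, sub_eq_add_neg])
  mul x y := (CharP.cast_eq_mod K 101 (x.v * y.v)).symm.trans (Nat.cast_mul ..)
  nat _ := rfl

def Fp.eq (x : Fp) (n : ℕ) : Bool := Nat.beq (Nat.mod x 101) n

def Fp.nz (x : Fp) : Bool := Nat.blt 0 (Nat.mod x 101)

section

variable {π σ τ : Type} (S : Sys π σ τ) {a : π → Fp} {x : σ → Fp} {a' : π → K} {x' : σ → K}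
  (ha : ∀ i, ((a i).v : K) = a' i) (hx : ∀ i, ((x i).v : K) = x' i)

include ha

lemma fp_ev (hx : ∀ i, ((x i).v : K) = x' i) (t : τ) :
    S.ev a' x' t = ((S.ev a x t).v % 101 : ℕ) := by
  rw [← CharP.cast_eq_mod, S.nat hom_fp, funext ha, funext hx]

include hx

lemma fp_eq {t : τ} {n : ℕ} (e : (S.ev a x t).eq n = true) : S.ev a' x' t = n := by
  rw [fp_ev S ha hx]
  exact congrArg _ (Nat.eq_of_beq_eq_true e)

lemma fp_nz {l : List τ} (hl : ∀ t, t ∈ l) (e : (l.all fun t => (S.ev a x t).nz) = true) :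
    S.NZ a' x' := fun t => by
  have : 0 < (S.ev a x t).v % 101 := Nat.blt_eq.mp (List.all_eq_true.mp e t (hl t))
  rw [fp_ev S ha hx, Ne, CharP.cast_eq_zero_iff K 101]
  omega

end

noncomputable def dv (e : ℕ → Fp) (l : List ℕ) : ℕ → ℕ :=
  List.rec (motive := fun _ => ℕ → ℕ) (fun _ => 0)
    (fun v _ r s => Nat.add (Nat.mul (Nat.mod (e s) 101) v) (fr1 s.succ r)) l

lemma dv_rp (e : ℕ → Fp) (m : ℕ) : ∀ (l : List ℕ) (s : ℕ), ∃ p, Rp 32 m (12700 * l.length)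
    (dv e (l.map (spr 32 m)) s) p ∧ ∀ j, (p.coeff j : K) = ∑ k ∈ Finset.range l.length,
      ((e (s + k)).v : K) * dl m (nth 0 l k) j
  | [], _ => ⟨0, Rp.zero, fun _ => by simp⟩
  | t :: l, s => by
    obtain ⟨p, h1, h2⟩ := dv_rp e m l (s + 1)
    obtain ⟨q, k1, k2⟩ := spr_rp' 32 m t
    have e1 : dv e ((t :: l).map (spr 32 m)) s
        = (e s).v % 101 * spr 32 m t + dv e (l.map (spr 32 m)) (s + 1) :=
      congrArg ((e s).v % 101 * spr 32 m t + ·) (fr1_eq (s + 1) _)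
    rw [e1]
    refine ⟨_, ((k1.smul _).add h1).mono le_rfl (by rw [List.length_cons]; omega), fun j => ?_⟩
    rw [coeff_add, coeff_C_mul, Nat.cast_add, Nat.cast_mul, ← CharP.cast_eq_mod, h2, k2,
      List.length_cons, Finset.sum_range_succ', add_comm]
    simp only [add_assoc, add_comm 1]
    rfl

noncomputable def rwm {τ : Type} (lo : ℕ) (f : τ → ℕ) (l : List τ) : ℕ → Bool :=
  List.rec (motive := fun _ => ℕ → Bool) (fun _ => true)
    (fun t _ r i => okd 32 lo i (f t) && r i.succ) l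

/-- The check for the independence of the columns of a matrix. -/
noncomputable def chkM {τ : Type} (E : τ → ((ℕ → Fp) → ℕ) → ℕ) (n : ℕ) (V : List ℕ)
    (l : List τ) : Bool :=
  Nat.beq V.length n && Nat.beq l.length n && Nat.ble n 1000 && fr1 (lom 32 n) fun lo =>
    frl (V.map (spr 32 n)) fun V => rwm lo (fun t => E t fun e => dv e V 0) l 0

lemma rwm_ok {τ : Type} {m b : ℕ} (hb : b < 2 ^ 32) {f : τ → ℕ} {D : τ → ℕ → K}
    (h : ∀ t, ∃ p, Rp 32 m b (f t) p ∧ ∀ j, (p.coeff j : K) = D t j) (n : ℕ) :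
    ∀ (l : List τ) (i : ℕ), rwm (lom 32 m) f l i = true → TriL D n i l
  | [], _, _ => trivial
  | t :: l, i, e => by
    have e' : (okd 32 (lom 32 m) i (f t) && rwm (lom 32 m) f l (i + 1)) = true := e
    rw [Bool.and_eq_true] at e'
    obtain ⟨p, h1, h2⟩ := h t
    obtain ⟨k1, k2⟩ := okd_ok (K := K) (by norm_num) e'.1 h1 hb
    exact ⟨⟨h2 i ▸ k1, fun j hj _ => h2 j ▸ k2 j hj⟩, rwm_ok hb h n l _ e'.2⟩

theorem chkM_ok {π τ : Type} {E : Sys π Empty (τ × ℕ)} {a : π → Fp} {n : ℕ} {V : List ℕ}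
    {l : List τ} {F : τ → ((ℕ → Fp) → ℕ) → ℕ} (hF : ∀ t k, F t k = k fun s => E.ev a nox (t, s))
    (h : chkM F n V l = true) {a' : π → K} (ha : ∀ i, ((a i).v : K) = a' i) : E.MInj n a' := by
  simp only [chkM, Bool.and_eq_true, fr1_eq, frl_eq, Nat.beq_eq, Nat.ble_eq, hF] at h
  obtain ⟨⟨⟨h1, h2⟩, h3⟩, h4⟩ := h
  refine minj_of_triL E a' (fun j s => dl n (nth 0 V s) j) l h2
    (rwm_ok (b := 12700 * V.length) (by omega) (fun t => ?_) n l 0 h4)
  obtain ⟨p, k1, k2⟩ := dv_rp (K := K) (fun s => E.ev a nox (t, s)) n V 0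
  refine ⟨p, k1, fun j => ?_⟩
  rw [k2, sm_eq, h1]
  refine Finset.sum_congr rfl fun s _ => ?_
  rw [zero_add, E.nat hom_fp, funext ha, map_nox fun x : Fp => (x.v : K)]

/-! ## Systems with evaluated indices -/

section

variable {R : Type} [Add R] [Sub R] [Mul R] [NatCast R]

noncomputable def frf {α : Type} {n : ℕ} [NeZero n] (i : Fin n) (k : Fin n → α) : α :=
  fr1 i.val fun m => k (Fin.ofNat n m)

lemma frf_eq {α : Type} {n : ℕ} [NeZero n] (i : Fin n) (k : Fin n → α) : frf i k = k i := by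
  rw [frf, fr1_eq, Fin.ofNat_val_eq_self]

noncomputable def csv (cd : CD) (n : Fin 8) (a : ℕ ⊕ Unit → R) (x : Fin 70 → R) :
    Fin 30 ⊕ Fin 10 ⊕ (Fin 6 × Fin 4) ⊕ Fin 6 → R :=
  Sum.elim (fun r => fr1 (cd.fx n r.val) fun u => frf (cd.fk n r.val) fun k =>
    fTc (sq x) (PL a) (a (.inr ())) k (u : R) (cd.fj n r.val)) fun t => (CS cd n).ev a x (.inr t)

lemma csv_eq (cd : CD) (n : Fin 8) (a : ℕ ⊕ Unit → R) (x : Fin 70 → R) :
    csv cd n a x = (CS cd n).ev a x := funext fun t => by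
  rcases t with r | t
  · simp only [csv, Sum.elim_inl, fr1_eq, frf_eq]
    rfl
  · rfl

noncomputable def kil {α : Type} (s : ℕ) (f : ℕ → ℕ → ℕ → α) : α :=
  fr1 (ek s) fun k => fr1 (ei s) fun i => fr1 (ej s) fun l => f k i l

lemma kil_eq {α : Type} (s : ℕ) (f : ℕ → ℕ → ℕ → α) : kil s f = f (ek s) (ei s) (ej s) := by
  simp only [kil, fr1_eq]

noncomputable def e198 (cd : CD) (n : Fin 8) (a : ℕ ⊕ Fin 70 ⊕ (Fin 10 × Fin 3) → R)
    (t : Fin 30 ⊕ (Fin 3 × Fin 10 × Fin 4) ⊕ (Fin 24 × Fin 4)) (f : (ℕ → R) → ℕ) : ℕ :=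
  Sum.elim (fun r => fr1 (cd.fk n r.val).val fun k0 => fr1 (cd.fj n r.val).val fun l0 =>
    fr1 (cd.fx n r.val) fun u => f fun s => kil s fun k i l =>
      cond (Nat.beq k k0 && Nat.beq l l0) (pw (u : R) i) ((0 : ℕ) : R))
    (Sum.elim (fun r => fr1 r.1.val fun k0 => frf r.2.1 fun b => frf r.2.2 fun j =>
      f fun s => kil s fun k i l => cond (Nat.beq k k0 && (Nat.ble b.val 3 || Nat.ble j.val 2))
        (jmc (sq fun i => a (.inr (.inl i))) (fun i => a (.inr (.inr i))) b i l j) ((0 : ℕ) : R))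
      fun r => fr1 (r.1.val + 2) fun u => frf r.2 fun j => f fun s => kil s fun k i l =>
        pw (u : R) i * fEc (sq fun i => a (.inr (.inl i))) (PL a) k 0 l (u : R) j) t

end

def E198b (cd : CD) (n : Fin 8) : Sys (ℕ ⊕ Fin 70 ⊕ (Fin 10 × Fin 3)) Empty
    ((Fin 30 ⊕ (Fin 3 × Fin 10 × Fin 4) ⊕ (Fin 24 × Fin 4)) × ℕ) where
  ev {R} _ _ _ _ a x t := Sum.elim (fun r => (E198 cd n).ev a x (.inl r, t.2))
    (Sum.elim (fun r => (E198 cd n).ev a x (.inr (.inl r), t.2)) fun i =>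
      pw ((i.1.val + 2 : ℕ) : R) (ei t.2) * fEc (sq fun i => a (.inr (.inl i))) (PL a) (ek t.2) 0
        (ej t.2) ((i.1.val + 2 : ℕ) : R) i.2) t.1
  nat {R S} _ _ _ _ _ _ _ _ f h a x t := by
    rcases t with ⟨i | i | i, s⟩
    · exact (E198 cd n).nat h a x _
    · exact (E198 cd n).nat h a x _
    · simp only [Sum.elim_inr, h.fEc, h.nat, h.sq, h.mul, h.pw, Pen.map_of]

lemma e198_eq (cd : CD) (n : Fin 8) (a : ℕ ⊕ Fin 70 ⊕ (Fin 10 × Fin 3) → Fp) (t)
    (f : (ℕ → Fp) → ℕ) : e198 cd n a t f = f fun s => (E198b cd n).ev a nox (t, s) := by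
  rcases t with r | r | r <;> simp only [e198, Sum.elim_inl, Sum.elim_inr, fr1_eq, frf_eq, kil_eq] <;>
    rfl

omit [CharP K 101] in
lemma sc_mul (c : Fin 4 → K) (a : K) (w : Q4 c) :
    Q4.sc c a * w = ⟨a * w.x0, a * w.x1, a * w.x2, a * w.x3⟩ := by
  change Q4.mul _ _ = _
  simp [Q4.mul, Q4.sc]

omit [CharP K 101] in
lemma pw_sc (c : Fin 4 → K) (a : K) : ∀ i, pw (Q4.sc c a) i = Q4.sc c (pw a i)
  | 0 => rfl
  | i + 1 => by
    change pw (Q4.sc c a) i * _ = Q4.sc c (pw a i * a)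
    rw [pw_sc c a i, sc_mul]
    simp [Q4.sc]

omit [CharP K 101] in
lemma minj_198 {cd : CD} {n : Fin 8} {a : ℕ ⊕ Fin 70 ⊕ (Fin 10 × Fin 3) → K}
    (h : (E198b cd n).MInj 198 a) : (E198 cd n).MInj 198 a := by
  have e : ∀ t s, (E198 cd n).ev a nox (t, s) = (E198b cd n).ev a nox (t, s) := fun t s => by
    rcases t with i | i | ⟨i, j⟩
    · rfl
    · rfl
    · change fEc _ _ _ _ _ _ j = pw _ _ * fEc _ _ _ _ _ _ j
      simp only [fEc, pw_sc, sc_mul, pw_eq, pow_zero, one_mul]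
      fin_cases j <;> rfl
  simpa only [Sys.MInj, e] using h

end Pool.Agent.P.MP_7ebcb6_ag.SC
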