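import Pool.Agent.P.MP_7ebcb6_ag.SC.Mem

/-! Statements, part 1: valuations, systems, the covariant of lines, plane sections, lines. -/

namespace Pool.Agent.P.MP_7ebcb6_ag.SC

open G8 Polynomial Function

noncomputable section

/-! ## V: valuations -/

def S_FS : Prop := ∀ a : Om, (support fun c => av (sec c) a).Finite

def S_FM : Prop := ∀ (n : ℕ) (x : Fin (n + 1) → Om), (support fun c => mu (sec c) x).Finite

/-- The product formula for a Galois stable family. -/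
def S_PF : Prop := ∀ (ι : Type) [Fintype ι] (ψ : ι → Om), (∀ i, ψ i ≠ 0) →
  (∀ τ : Gal, ∃ e : ι ≃ ι, ∀ i, τ (ψ i) = ψ (e i)) → ∑ᶠ c, ∑ i, av (sec c) (ψ i) = 0

/-- The point `(1 : lam)`. -/
def S_MU : Prop := (∀ (sp : Sp) (c : ℂ), pt sp = some c → mu sp (af lam) = 0) ∧
  (∀ sp : Sp, pt sp = none → mu sp (af lam) = -1 ∧ av sp lam = -1 ∧ rd sp (af lam) 0 = 0) ∧
  ∑ᶠ c, mu (sec c) (af lam) = -1

def S_PERM : Prop := ∀ (α ι : Type) [Fintype ι] (p : ι → α) (f : α → α), Injective p →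
  Injective f → (∀ i, ∃ j, f (p i) = p j) → ∃ e : ι ≃ ι, ∀ i, f (p i) = p (e i)

/-- Counting: lower bounds at listed places that exhaust the total are equalities. -/
def S_CNT : Prop := ∀ (ι ζ : Type) [Fintype ι] [Fintype ζ] (b : Option ℂ → ι → ℚ)
  (f : ζ → Option ℂ × ι) (w : ζ → ℚ), (∀ i, (support fun c => b c i).Finite) →
  (∀ c i, 0 ≤ b c i) → Injective f → (∀ j, w j ≤ b (f j).1 (f j).2) →
  ∑ᶠ c, ∑ i, b c i ≤ ∑ j, w j →
  (∀ j, b (f j).1 (f j).2 = w j) ∧ ∀ c i, (c, i) ∉ Set.range f → b c i = 0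

def S_LOW : Prop := ∀ (ι ζ : Type) [Fintype ι] [Fintype ζ] (b : Option ℂ → ι → ℚ)
  (f : ζ → Option ℂ × ι) (w : ζ → ℚ), (∀ i, (support fun c => b c i).Finite) →
  (∀ c i, 0 ≤ b c i) → Injective f → (∀ j, w j ≤ b (f j).1 (f j).2) →
  ∑ j, w j ≤ ∑ᶠ c, ∑ i, b c i

/-- A sum that is supported at listed places. -/
def S_LST : Prop := ∀ (ι ζ : Type) [Fintype ι] [Fintype ζ] (b : Option ℂ → ι → ℚ)
  (f : ζ → Option ℂ × ι), Injective f → (∀ c i, (c, i) ∉ Set.range f → b c i = 0) →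
  ∑ᶠ c, ∑ i, b c i = ∑ j, b (f j).1 (f j).2

/-- The lemma of Gauss and the roots of the reduction. -/
def S_GR : Prop := ∀ (sp : Sp) (ι : Type) [Fintype ι] (t : ι → Om) (l : Om) (q : ℂ[X]), l ≠ 0 →
  (∀ n, Tends sp.v ((C l * ∏ k, (X - C (t k))).coeff n) (q.coeff n)) →
  0 ≤ av sp l + ∑ k, mu sp (af (t k)) ∧ (q ≠ 0 ↔ av sp l + ∑ k, mu sp (af (t k)) = 0) ∧
    (q ≠ 0 → ∃ c : ℂ, c ≠ 0 ∧
      q = C c * ∏ k, (C (rd sp (af (t k)) 0) * X - C (rd sp (af (t k)) 1)))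

/-- Principal divisors on a Galois stable family of points have class zero. -/
def S_WF : Prop := ∀ (On : V2 Om → V4 Om → Prop) (Bad : V2 ℂ → V4 ℂ → Prop) (cl : Cl On Bad)
  (ι : Type) [Fintype ι] (U : ι → V2 Om) (Y : ι → V4 Om) (ψ : ι → Om), (∀ i, U i ≠ 0) →
  (∀ i, Y i ≠ 0) → (∀ i, On (U i) (Y i)) → (∀ i, ψ i ≠ 0) →
  (∀ τ : Gal, ∃ e : ι ≃ ι, ∀ i, (∀ m, τ (U i m) = U (e i) m) ∧ (∀ m, τ (Y i m) = Y (e i) m) ∧
    τ (ψ i) = ψ (e i)) →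
  ∑ᶠ c, ∑ i, av (sec c) (ψ i) * cl.cls (rd (sec c) (U i)) (rd (sec c) (Y i)) = 0

/-! ## H: systems -/

def S_DADD : Prop := ∀ (π σ τ R : Type) [CommRing R] (S : Sys π σ τ) (a : π → R) (x : σ → R)
  (a1 a2 : π → R) (x1 x2 : σ → R) (t : τ),
  S.d a x (fun i => a1 i + a2 i) (fun s => x1 s + x2 s) t = S.d a x a1 x1 t + S.d a x a2 x2 t

def S_DSM : Prop := ∀ (π σ τ R : Type) [CommRing R] (S : Sys π σ τ) (a : π → R) (x : σ → R)
  (c : R) (a1 : π → R) (x1 : σ → R) (t : τ),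
  S.d a x (fun i => c * a1 i) (fun s => c * x1 s) t = c * S.d a x a1 x1 t

def S_DEQ : Prop := ∀ (π σ τ R : Type) [CommRing R] [Fintype σ] [DecidableEq σ] (S : Sys π σ τ)
  (a : π → R) (x e : σ → R) (t : τ),
  S.d a x (fun _ => 0) e t = ∑ s, S.d a x (fun _ => 0) (Pi.single s 1) t * e s

/-- A right inverse on selected rows. -/
def S_RI : Prop := ∀ (π τ K : Type) [Field K] (n : ℕ) (S : Sys π (Fin n) τ) (a : π → K)
  (x : Fin n → K) (sel : Fin n → τ) (v : Fin n → Fin n → K),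
  (∀ i j, S.d a x (fun _ => 0) (v j) (sel i) = if i = j then 1 else 0) → S.Inj a x

/-- A right inverse whose columns are packed into polynomials. -/
def S_PI : Prop := ∀ (π σ τ K : Type) [Field K] [Fintype σ] (n : ℕ) (S : Sys π σ τ) (a : π → K)
  (x : σ → K) (sel : Fin n → τ) (V : σ → K[X]), Fintype.card σ = n →
  (∀ i, S.d (fun i => C (a i)) (fun s => C (x s)) (fun _ => 0) V (sel i) = X ^ i.val) → S.Inj a x

/-- The same for a matrix. -/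
def S_MPI : Prop := ∀ (π τ K : Type) [Field K] (n : ℕ) (E : Sys π Empty (τ × ℕ)) (a : π → K)
  (sel : Fin n → τ) (V : ℕ → K[X]),
  (∀ i, sm (fun s => E.ev (fun i => C (a i)) nox (sel i, s) * V s) n = X ^ i.val) → E.MInj n a

def S_MIU : Prop := ∀ (τ σ K L : Type) [Field K] [Field L] [Fintype σ] (pl : Plc K L)
  (J : τ → σ → K) (J' : τ → σ → L), (∀ t, MV pl.G (J t) (J' t)) → MI J' → MI J

def S_MID : Prop := ∀ (τ σ : Type) [Finite τ] [Fintype σ] (J : τ → σ → Om), MI J →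
  ∀ᶠ sp in ae, MI fun t s => lim sp (J t s)

/-- Hensel's lemma along a place. -/
def S_UP : Prop := ∀ (π σ τ ο K L : Type) [Field K] [IsAlgClosed K] [Field L] [Fintype σ]
  [Fintype τ] (E : Sys π σ τ) (O : Sys π σ ο) (pl : Plc K L) (a : π → K) (a' : π → L)
  (x' : σ → L), Fintype.card σ = Fintype.card τ → MV pl.G a a' → Good E O a' x' →
  ∃ x : σ → K, MV pl.G x x' ∧ Good E O a x

def S_DOWN : Prop := ∀ (π σ τ ο : Type) [Finite σ] [Finite τ] [Finite ο] (E : Sys π σ τ)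
  (O : Sys π σ ο) (a : π → Om) (x : σ → Om), (∀ᶠ sp in ae, TV sp a fun i => lim sp (a i)) →
  Good E O a x → ∀ᶠ sp in ae, Good E O (fun i => lim sp (a i)) fun s => lim sp (x s)

def S_MUP : Prop := ∀ (π τ K L : Type) [Field K] [Field L] (E : Sys π Empty (τ × ℕ)) (n : ℕ)
  (pl : Plc K L) (a : π → K) (a' : π → L), MV pl.G a a' → E.MInj n a' → E.MInj n a

def S_MDOWN : Prop := ∀ (π τ : Type) [Finite τ] (E : Sys π Empty (τ × ℕ)) (n : ℕ) (a : π → Om),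
  (∀ᶠ sp in ae, TV sp a fun i => lim sp (a i)) → E.MInj n a →
  ∀ᶠ sp in ae, E.MInj n fun i => lim sp (a i)

def S_IDOWN : Prop := ∀ (ι : Type) [Finite ι] (u : ι → Om), Injective u →
  ∀ᶠ sp in ae, Injective fun i => lim sp (u i)

/-- Quantitative uniqueness (`e = 0` gives uniqueness). -/
def S_QU : Prop := ∀ (π σ τ : Type) [Fintype σ] (E : Sys π σ τ) (sp : Sp) (e : Om)
  (a a2 : π → Om) (x x2 : σ → Om) (a' : π → ℂ) (x' : σ → ℂ), MV (Cg sp e) a a2 → TV sp a a' →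
  TV sp x x' → TV sp x2 x' → E.Inj a' x' →
  (∀ t, sp.v (E.ev a x t - E.ev a2 x2 t) ≤ sp.v e) → MV (Cg sp e) x x2

/-! ## R: the covariant that vanishes on the lines of a cubic surface -/

section defs

variable {K : Type} [Field K]

/-- Two independent vectors. -/
def Ind (x y : V4 K) : Prop := plk x y ≠ 0

/-- Three independent vectors. -/
def Ind3 (x y z : V4 K) : Prop := ∃ w, det4 w x y z ≠ 0

/-- The line through the point `x` of the cubic with direction `t` lies on the cubic. -/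
def LineAt (g : Fin 20 → K) (x t : V4 K) : Prop :=
  Ind x t ∧ tri g x x t = 0 ∧ tri g x t t = 0 ∧ tri g t t t = 0

/-- The span of `a` and `b` lies on the cubic. -/
def OnL (g : Fin 20 → K) (a b : V4 K) : Prop :=
  tri g a a a = 0 ∧ tri g a a b = 0 ∧ tri g a b b = 0 ∧ tri g b b b = 0

/-- `r` is the value of the covariant at the smooth point `x` of the cubic `g`. -/
def IsR (g : Fin 20 → K) (x : V4 K) (r : K) : Prop :=
  tri g x x x = 0 ∧ (∃ w, tri g x x w ≠ 0) ∧ ∃ (a b : V4 K) (d : K), d ≠ 0 ∧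
    (∀ w, det4 w x a b = d * tri g x x w) ∧ r * d ^ 6 = Rs g x a b

end defs

def S_REX : Prop := ∀ (K : Type) [Field K] (g : Fin 20 → K) (x : V4 K), tri g x x x = 0 →
  (∃ w, tri g x x w ≠ 0) → ∃ r, IsR g x r

def S_RANY : Prop := ∀ (K : Type) [Field K] [IsAlgClosed K] (g : Fin 20 → K) (x a b : V4 K)
  (r d : K), IsR g x r → d ≠ 0 → (∀ w, det4 w x a b = d * tri g x x w) → r * d ^ 6 = Rs g x a b

def S_RUQ : Prop := ∀ (K : Type) [Field K] [IsAlgClosed K] (g : Fin 20 → K) (x : V4 K) (r r' : K),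
  IsR g x r → IsR g x r' → r = r'

def S_RSC : Prop := ∀ (K : Type) [Field K] (g : Fin 20 → K) (x : V4 K) (r c d : K), IsR g x r →
  c ≠ 0 → d ≠ 0 → IsR (fun i => d * g i) (fun i => c * x i) (c ^ 9 * d ^ 11 * r)

def S_RMAP : Prop := ∀ (τ : Gal) (g : Fin 20 → Om) (x : V4 Om) (r : Om), IsR g x r →
  IsR (fun i => τ (g i)) (fun i => τ (x i)) (τ r)

def S_RTH : Prop := ∀ (K : Type) [Field K] (g : Fin 20 → K) (x : V4 K), tri g x x x = 0 →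
  x 0 ≠ 0 → tri g x x (ee 3) ≠ 0 →
  IsR g x (Rs g x (th1 g x) (th2 g x) / (x 0 * tri g x x (ee 3)) ^ 6) ∧
    ∀ y, tri g x x y = 0 ↔ ∃ r s t, y = cb3 r x s (th1 g x) t (th2 g x)

def S_RLN : Prop := ∀ (K : Type) [Field K] [IsAlgClosed K] (g : Fin 20 → K) (x t : V4 K) (r : K),
  IsR g x r → LineAt g x t → r = 0

/-- An integral basis of the tangent plane. -/
def S_RB : Prop := ∀ (sp : Sp) (g : Fin 20 → Om) (g' : Fin 20 → ℂ) (x : V4 Om) (x' : V4 ℂ)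
  (r : Om), TV sp g g' → TV sp x x' → x' ≠ 0 → IsR g x r →
  ∃ (a b : V4 Om) (a' b' : V4 ℂ) (d : Om), TV sp a a' ∧ TV sp b b' ∧ Ind3 x' a' b' ∧
    1 ≤ sp.v d ∧ (∀ w, det4 w x a b = d * tri g x x w) ∧ r * d ^ 6 = Rs g x a b

def S_L0 : Prop := ∀ (sp : Sp) (g : Fin 20 → Om) (g' : Fin 20 → ℂ) (x : V4 Om) (x' : V4 ℂ)
  (r : Om), TV sp g g' → TV sp x x' → x' ≠ 0 → IsR g x r → sp.v r ≤ 1

def S_LA : Prop := ∀ (sp : Sp) (g : Fin 20 → Om) (g' : Fin 20 → ℂ) (x : V4 Om) (x' t' : V4 ℂ)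
  (r : Om), TV sp g g' → TV sp x x' → IsR g x r → LineAt g' x' t' → sp.v r < 1

def S_LE1 : Prop := ∀ (sp : Sp) (e : Om) (g : Fin 20 → Om) (g' : Fin 20 → ℂ) (x : V4 Om)
  (x' t' : V4 ℂ) (r : Om), sp.v e < 1 → Nr sp e g g' → Nr sp e x x' → (∃ w, tri g' x' x' w ≠ 0) →
  IsR g x r → LineAt g' x' t' → sp.v r ≤ sp.v e

def S_LE2 : Prop := ∀ (sp : Sp) (e : Om) (g : Fin 20 → Om) (g' : Fin 20 → ℂ) (x : V4 Om)
  (x' t' s' : V4 ℂ) (r : Om), sp.v e < 1 → Nr sp e g g' → Nr sp e x x' →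
  (∃ w, tri g' x' x' w ≠ 0) → IsR g x r → LineAt g' x' t' → LineAt g' x' s' → Ind3 x' t' s' →
  sp.v r ≤ sp.v e ^ 2

/-- A point of the tangent section whose limit lies on the line. -/
def S_LQ : Prop := ∀ (sp : Sp) (e : Om) (g : Fin 20 → Om) (g' : Fin 20 → ℂ) (x q : V4 Om)
  (x' q' : V4 ℂ) (r : Om), e ≠ 0 → sp.v e < 1 → Nr sp e g g' → Nr sp e x x' →
  (∃ w, tri g' x' x' w ≠ 0) → IsR g x r → sp.v r = sp.v e → TV sp q q' → tri g x x q = 0 →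
  tri g q q q = 0 → LineAt g' x' q' → (∃ w, tri g' x' x' w = 0 ∧ tri g' q' q' w ≠ 0) →
  sp.v (tri g x q q) = sp.v e

/-- The cubic `g` degenerates to the union of a quadric and a plane. -/
structure Deg (sp : Sp) (g c : Fin 20 → Om) (k : Fin 6 → Om) (n : V4 Om) (u be : Om)
    (g' c' : Fin 20 → ℂ) (k' : Fin 6 → ℂ) (n' : V4 ℂ) : Prop where
  eq : ∀ i, u * g i = qlc k n i - be * c i
  hu : sp.v u = 1
  hb : sp.v be < 1
  hg : TV sp g g'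
  hc : TV sp c c'
  hk : TV sp k k'
  hn : TV sp n n'

def S_LC1 : Prop := ∀ sp g c k n u be g' c' k' n' (x : V4 Om) (x' : V4 ℂ) (r : Om),
  Deg sp g c k n u be g' c' k' n' → TV sp x x' → dot n' x' ≠ 0 → IsR g x r →
  sp.v r ≤ sp.v be ^ 2

def S_LC2 : Prop := ∀ sp g c k n u be g' c' k' n' (x : V4 Om) (x' : V4 ℂ) (r : Om),
  Deg sp g c k n u be g' c' k' n' → TV sp x x' → dot n' x' ≠ 0 → IsR g x r → be ≠ 0 →
  sp.v r = sp.v be ^ 2 →
  (∀ (q : V4 Om) (q' : V4 ℂ), TV sp q q' → q' ≠ 0 → tri g x x q = 0 → tri g q q q = 0 →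
    qb k q q = 0 → tri c' x' x' x' ≠ 0 → sp.v (tri g x q q) = sp.v be) ∧
  ∀ (a b : V4 Om) (a' b' : V4 ℂ), TV sp a a' → TV sp b b' → Ind a' b' → OnL g a b →
    ∀ s t, x' ≠ cb s a' t b'

def S_LD1 : Prop := ∀ sp g c k n u be g' c' k' n' (x : V4 Om) (x' : V4 ℂ) (r : Om),
  Deg sp g c k n u be g' c' k' n' → TV sp x x' → qb k' x' x' ≠ 0 → IsR g x r →
  sp.v r ≤ sp.v be ^ 5

def S_LD2 : Prop := ∀ sp g c k n u be g' c' k' n' (x : V4 Om) (x' : V4 ℂ) (r : Om),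
  Deg sp g c k n u be g' c' k' n' → TV sp x x' → qb k' x' x' ≠ 0 → IsR g x r → be ≠ 0 →
  sp.v r = sp.v be ^ 5 →
  ∀ (a b : V4 Om) (a' b' : V4 ℂ), TV sp a a' → TV sp b b' → Ind a' b' → OnL g a b →
    ∀ s t, x' ≠ cb s a' t b'

/-! ## Lines in the chart -/

section defs

variable {R : Type} [Add R] [Sub R] [Mul R] [NatCast R]

/-- The point `A + r B` of the line. -/
def lpt (W : Fin 4 → R) (r : R) : Fin 4 → R := cb ((1 : ℕ) : R) (lA W) r (lB W)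

/-- A tangent vector at `x` that is not on a line of the chart. -/
def eta (g : Fin 20 → R) (x : Fin 4 → R) : Fin 4 → R :=
  cb (tri g x x (ee 3)) (ee 2) (ng (tri g x x (ee 2))) (ee 3)

/-- The quadric misses the two points where the residual conic of the tangent plane at `x`
meets the line. -/
def resN (k : Fin 6 → R) (g : Fin 20 → R) (x W : Fin 4 → R) : R :=
  res22 (qb k (lA W) (lA W)) (((2 : ℕ) : R) * qb k (lA W) (lB W)) (qb k (lB W) (lB W))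
    (tri g (eta g x) (lA W) (lA W)) (((2 : ℕ) : R) * tri g (eta g x) (lA W) (lB W))
    (tri g (eta g x) (lB W) (lB W))

/-- The discriminant of the quadric on the line. -/
def dsc (k : Fin 6 → R) (W : Fin 4 → R) : R :=
  qb k (lA W) (lB W) * qb k (lA W) (lB W) - qb k (lA W) (lA W) * qb k (lB W) (lB W)

/-- The quadric at the second point of the line. -/
def qB (k : Fin 6 → R) (W : Fin 4 → R) : R := qb k (lB W) (lB W)

end defs

/-- `r1, r2` are the two points of the quadric on the line. -/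
def Rts {K : Type} [Field K] (k : Fin 6 → K) (W : V4 K) (r1 r2 : K) : Prop :=
  ∀ r, qb k (lpt W r) (lpt W r) = qB k W * ((r - r1) * (r - r2))

/-- The sum of `φ` over the two points of the quadric on the line. -/
def aL (φ : V4 ℂ → ℚ) (k : Fin 6 → ℂ) (W : V4 ℂ) : ℚ :=
  ((C (qb k (lA W) (lA W)) + C (2 * qb k (lA W) (lB W)) * X + C (qB k W) * X ^ 2).roots.map
    fun r => φ (lpt W r)).sum

def S_AL : Prop :=
  (∀ (K : Type) [Field K] [IsAlgClosed K] (k : Fin 6 → K) (W : V4 K), qB k W ≠ 0 →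
    ∃ r1 r2, Rts k W r1 r2) ∧
  (∀ (K : Type) [Field K] [CharZero K] (k : Fin 6 → K) (W : V4 K) (r1 r2 : K), qB k W ≠ 0 →
    Rts k W r1 r2 → (dsc k W ≠ 0 ↔ r1 ≠ r2)) ∧
  (∀ (K : Type) [Field K] [CharZero K] (k : Fin 6 → K) (W : V4 K) (r1 r2 : K), qB k W ≠ 0 →
    r1 ≠ r2 → qb k (lpt W r1) (lpt W r1) = 0 → qb k (lpt W r2) (lpt W r2) = 0 → Rts k W r1 r2) ∧
  (∀ (φ : V4 ℂ → ℚ) (k : Fin 6 → ℂ) (W : V4 ℂ) (r1 r2 : ℂ), qB k W ≠ 0 → Rts k W r1 r2 →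
    aL φ k W = φ (lpt W r1) + φ (lpt W r2)) ∧
  ∀ (sp : Sp) (k : Fin 6 → Om) (W : V4 Om) (k' : Fin 6 → ℂ) (W' : V4 ℂ) (r1 r2 : Om),
    TV sp k k' → TV sp W W' → qB k' W' ≠ 0 → Rts k W r1 r2 →
    ∃ s1 s2 : ℂ, Tends sp.v r1 s1 ∧ Tends sp.v r2 s2 ∧ Rts k' W' s1 s2

/-- The equations of a line on a cubic surface. -/
def lnS : Sys (Fin 20) (Fin 4) (Fin 4) := ⟨fun g W => lnE g W, fun h => h.lnE⟩

def S_LJ : Prop := ∀ (K : Type) [Field K] (g : Fin 20 → K) (W : V4 K), (3 : K) ≠ 0 →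
  lnJ g W ≠ 0 → lnS.Inj g W

def S_LG : Prop := ∀ (K : Type) [Field K] (g : Fin 20 → K) (W : V4 K) (s t : K), lnJ g W ≠ 0 →
  (s ≠ 0 ∨ t ≠ 0) → ∃ w, tri g (cb s (lA W) t (lB W)) (cb s (lA W) t (lB W)) w ≠ 0

/-- Hensel's lemma for a simple line. -/
def S_LH : Prop := ∀ (sp : Sp) (e : Om) (g : Fin 20 → Om) (g' : Fin 20 → ℂ) (W' : V4 ℂ),
  sp.v e < 1 → Nr sp e g g' → (∀ i, lnE g' W' i = 0) → lnJ g' W' ≠ 0 →
  ∃ W, (∀ i, lnE g W i = 0) ∧ Nr sp e W W' ∧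
    ∀ W2, (∀ i, lnE g W2 i = 0) → TV sp W2 W' → W2 = W

/-- An integral basis of a line. -/
def S_LIM : Prop := ∀ (sp : Sp) (W : V4 Om), ∃ (a b : V4 Om) (a' b' : V4 ℂ), TV sp a a' ∧
  TV sp b b' ∧ plk a' b' = rd sp (lP W) ∧ (∃ s t, a = cb s (lA W) t (lB W)) ∧
  ∃ s t, b = cb s (lA W) t (lB W)

def S_MEET : Prop := ∀ (K : Type) [Field K] (a b c d : V4 K), Ind a b → Ind c d →
  pp (plk a b) (plk c d) = 0 → ∃ s t s' t', cb s a t b = cb s' c t' d ∧ cb s a t b ≠ 0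

/-- The tangent section at a point of a line: only the two points on the line count. -/
def S_LB : Prop := ∀ (sp : Sp) (g : Fin 20 → Om) (k : Fin 6 → Om) (x : V4 Om) (r : Om)
  (g' : Fin 20 → ℂ) (k' : Fin 6 → ℂ) (x' W' : V4 ℂ) (q : Fin 6 → V4 Om) (φ : V4 ℂ → ℚ),
  Nr sp (un sp) g g' → Nr sp (un sp) x x' → TV sp k k' → IsR g x r → sp.v r = sp.v (un sp) →
  x' = cb (x' 0) (lA W') (x' 1) (lB W') → x' 0 ≠ 0 → (∀ i, lnE g' W' i = 0) →
  resN k' g' x' W' ≠ 0 → qB k' W' ≠ 0 → dsc k' W' ≠ 0 → Injective q →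
  (∀ y, (y 0 = 1 ∧ tri g x x y = 0 ∧ qb k y y = 0 ∧ tri g y y y = 0) ↔ y ∈ Set.range q) →
  (∀ (c : ℂ) y, c ≠ 0 → φ (fun i => c * y i) = φ y) →
  ∑ j, (av sp (tri g x (q j) (q j)) - 2 * mu sp (q j)) * φ (rd sp (q j)) = aL φ k' W'

/-! ## Plane sections -/

/-- A point of the affine plane. -/
def ppt {K : Type} [Field K] (b0 b1 b2 : V4 K) (p : K × K) : V4 K := cb3 1 b0 p.1 b1 p.2 b2

/-- A smooth conic and a cubic meet in at most six points, and six points are simple. -/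
def S_BZ : Prop := ∀ (K : Type) [Field K] [IsAlgClosed K] [CharZero K] (k : Fin 6 → K)
  (g : Fin 20 → K) (b0 b1 b2 : V4 K) (Z : Set (K × K)), gram k b0 b1 b2 ≠ 0 → resQ k g b1 b2 ≠ 0 →
  (∀ p, p ∈ Z ↔ qb k (ppt b0 b1 b2 p) (ppt b0 b1 b2 p) = 0 ∧
    tri g (ppt b0 b1 b2 p) (ppt b0 b1 b2 p) (ppt b0 b1 b2 p) = 0) →
  Z.Finite ∧ Z.ncard ≤ 6 ∧ (Z.ncard = 6 → ∀ p ∈ Z,
    qb k (ppt b0 b1 b2 p) b1 * tri g (ppt b0 b1 b2 p) (ppt b0 b1 b2 p) b2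
      - qb k (ppt b0 b1 b2 p) b2 * tri g (ppt b0 b1 b2 p) (ppt b0 b1 b2 p) b1 ≠ 0)

/-- A plane section of a fibre has class zero. -/
def S_PS0 : Prop := ∀ (On : V2 Om → V4 Om → Prop) (Bad : V2 ℂ → V4 ℂ → Prop) (cl : Cl On Bad)
  (U : V2 ℂ) (k : Fin 6 → ℂ) (g : Fin 20 → ℂ) (b0 b1 b2 : V4 ℂ) (p : Fin 6 → ℂ × ℂ), U ≠ 0 →
  (∀ Y : V4 Om, qb (fun i => ct (k i)) Y Y = 0 → tri (fun i => ct (g i)) Y Y Y = 0 →
    On (fun i => ct (U i)) Y) →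
  (∀ Y : V4 ℂ, Y 0 = 0 → Bad U Y) → b0 0 ≠ 0 → b1 0 = 0 → b2 0 = 0 → gram k b0 b1 b2 ≠ 0 →
  resQ k g b1 b2 ≠ 0 → Injective p →
  (∀ j, qb k (ppt b0 b1 b2 (p j)) (ppt b0 b1 b2 (p j)) = 0) →
  (∀ j, tri g (ppt b0 b1 b2 (p j)) (ppt b0 b1 b2 (p j)) (ppt b0 b1 b2 (p j)) = 0) →
  ∑ j, cl.cls U (ppt b0 b1 b2 (p j)) = 0

end

end Pool.Agent.P.MP_7ebcb6_ag.SC
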