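import Pool.Agent.P.MP_7ebcb6_ag.SC.St2

/-! Statements, part 3: stage 0, specialisation and the projective model. -/

open scoped LinearAlgebra.Projectivization

namespace Pool.Agent.P.MP_7ebcb6_ag.SC

open G8 Function MvPolynomial

noncomputable section

/-! ## Members -/

def Member.map {K L : Type} (f : K → L) (D : Member K) : Member L :=
  ⟨fun i j c => f (D.a i j c), fun p c => f (D.e p c), fun m => f (D.ka m)⟩

def Member.scale (D : Member ℂ) (t : ℂ) : Member ℂ :=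
  ⟨D.a, fun p c => t * D.e p c, fun m => t * D.ka m⟩

/-- The closed condition that contains the surface. -/
def Member.On {K : Type} [Field K] (D : Member K) (U : V2 K) (Y : V4 K) : Prop :=
  ∃ (l t : K) (z : V4 K), (l ≠ 0 ∨ t ≠ 0 ∨ z ≠ 0) ∧
    (∀ q, l * (Y (pa q) * Y (pb q)) = az (lin D.a U) z q + t * D.E U q) ∧
    l * cayl (lin D.a U) Y + t * nfm (lin D.a U) D.ka Y = 0

/-- The closed set that is neglected. -/
def Member.Bad {K : Type} [Field K] (D : Member K) (U : V2 K) (Y : V4 K) : Prop :=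
  nuA (lin D.a U) = 0 ∨ U 0 = 0 ∨ Y 0 = 0 ∨
    (∃ (l : K) (z : V4 K), (l ≠ 0 ∨ z ≠ 0) ∧ ∀ q, l * (Y (pa q) * Y (pb q)) = az (lin D.a U) z q) ∨
    ∃ (t : K) (z : V4 K), (t ≠ 0 ∨ z ≠ 0) ∧ ∀ q, az (lin D.a U) z q + t * D.E U q = 0

abbrev MCl (D : Member ℂ) : Type := Cl (D.map ct).On D.Bad

/-- Two members related by a subring of the product. -/
def MM {K L : Type} [Field K] [Field L] (G : Subring (K × L)) (D : Member K) (D' : Member L) :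
    Prop :=
  (∀ i j, MV G (D.a i j) (D'.a i j)) ∧ (∀ p, MV G (D.e p) (D'.e p)) ∧ MV G D.ka D'.ka

section

variable {K : Type} (a : πL → K) (v : σL → K)

def aOf : Fin 4 → Fin 4 → Fin 2 → K := fun i j c => a (.inl (i, j, c))
def uOf : K := a (.inr (.inl ()))
def yOf : Fin 4 → K := fun i => a (.inr (.inr i))
def memOf : Member K := ⟨aOf a, fun p c => v (.inl (p, c)), fun m => v (.inr (.inr (.inl m)))⟩

end

def ptOf (a : πL → ℂ) : Pt := Sum.elim (af (uOf a)) (yOf a)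

def parOf (a : Fin 4 → Fin 4 → Fin 2 → ℂ) (p : Pt) : πL → ℂ :=
  Sum.elim (fun i => a i.1 i.2.1 i.2.2) (Sum.elim (fun _ => p.U 1) p.Y)

/-- The member `memOf a v` is compatible and passes through the point. -/
def SolL {K : Type} [Field K] (a : πL → K) (v : σL → K) : Prop :=
  (∀ i, LM.ev a v (.inl i) = 0) ∧
    (∀ q, LM.ev a v (.inr (.inl q)) = yOf a (pa q) * yOf a (pb q)) ∧
    LM.ev a v (.inr (.inr ())) = -cayl (lnv (aOf a) (af (uOf a))) (yOf a)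

/-- The unknowns of the linear system read off from the table of stage 0. -/
def solX {K : Type} (X : ℕ → K) : σL → K :=
  Sum.elim (fun i => X (805 + 4 * i.1.val + i.2.val)) (Sum.elim
    (fun i => X (829 + 7 * i.1.val + i.2.val))
    (Sum.elim (fun m => X (165 + m.val)) fun i => X (857 + i.val)))

/-- The member `0` of the table. -/
def memX {K : Type} [Field K] (X : ℕ → K) : Member K := memOf (parX X) (solX X)

/-! ## Stage 0 -/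

/-- The identities between the entries of the table, in every algebra. -/
structure RelA {A : Type} [CommRing A] (X : ℕ → A) (U : Fin 2 → A) : Prop where
  mu : ∀ m, bf 6 ((Pen.of X).mu m) U = muM (tA X U) m
  nh : ∀ m, bf 9 ((Pen.of X).nh m) U = nhM (tA X U) m
  nu : (Pen.of X).nuv U = nuA (tA X U)
  ff : ∀ s a, (Pen.of X).ff s a U = dot6 ((Pen.of X).kk a U) (tE X s U)
  kk : ∀ a i, atk (tA X U) ((Pen.of X).kk a U) i = 0
  qq : ∀ m, quadQ (tA X U) m = 0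
  cp : ∀ s m, cmp (tA X U) (tE X s U) ((Pen.of X).ka s) m = nuM (tA X U) m * tH X s m U
  bz : U 0 = 1 → pl 4 (fun i => X (873 + i)) (U 1) * kmin (Pen.of X) 0 1 U
    + pl 4 (fun i => X (877 + i)) (U 1) * kmin (Pen.of X) 4 5 U = 1

def Rel (X : ℕ → ℂ) : Prop :=
  ∀ (A : Type) [CommRing A] (φ : ℂ →+* A) (U : Fin 2 → A), RelA (fun i => φ (X i)) U

/-- A binary form of degree `d` with `d + 1` zeros vanishes. -/
def S_HB : Prop := ∀ (d : ℕ) (F : MvPolynomial (Fin 2) ℂ), F.IsHomogeneous d →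
  (∀ j : ℕ, j ≤ d → eval (af (j : ℂ)) F = 0) → F = 0

def S_REL : Prop := ∀ (cd : CD) (s : Fin 30 → ℂ) (x : Fin 1049 → ℂ), (S0 cd).Z s x → Rel (sq x)

/-- Linear algebra for the `6 × 4` matrix. -/
def S_LAK : Prop := ∀ (K : Type) [Field K] (A : Fin 4 → Fin 4 → K) (k0 k1 : Fin 6 → K),
  (∀ i, atk A k0 i = 0) → (∀ i, atk A k1 i = 0) → (∃ p q, k0 p * k1 q - k0 q * k1 p ≠ 0) →
  (∀ z, (∀ q, az A z q = 0) → z = 0) →
  (∀ w, dot6 k0 w = 0 → dot6 k1 w = 0 → ∃ z, ∀ q, w q = az A z q) ∧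
    ∀ k, (∀ i, atk A k i = 0) → ∃ s t, ∀ q, k q = s * k0 q + t * k1 q

/-- The determinant vanishes at the roots of `nu`. -/
def S_DT0 : Prop := ∀ (X : ℕ → ℂ) (u : Fin 1 → ℂ), Rel X → B12E.Z X u → B12O.NZ X u →
  ∀ s t b, (Pen.of X).dt s t (af (u 0)) b = 0

def S_ID : Prop := ∀ (cd : CD) (d : Dat0 ℂ), Good0 cd d → (Pen.of (sq d.x)).Id

/-- The chord. -/
def S_CH0 : Prop := ∀ (cd : CD) (s : Fin 30 → ℂ) (x : Fin 1049 → ℂ), Good (S0 cd) O0 s x →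
  Rel (sq x) → (Pen.of (sq x)).Id → Simple (sq x) (tu (sq x)) (tW (sq x)) ∧
    ∀ cl : PCl (sq x), aX cl (tu (sq x)) (tW (sq x))
      = cl.cls (af (tu (sq x))) (ty (sq x)) + cl.cls (af (tu (sq x))) (ty2 (sq x))

def S_QC : Prop := ∀ X : ℕ → ℂ, Rel X → ∀ cl : MCl (memX X), ∃ cl' : PCl X, cl'.cls = cl.cls

/-- The member of the table is a good member through a good point. -/
def S_G0 : Prop := ∀ (cd : CD) (s : Fin 30 → ℂ) (x : Fin 1049 → ℂ), Good (S0 cd) O0 s x →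
  Rel (sq x) → (∀ j, s j ∈ Set.range (parX (sq x)) ∪ Set.range (solX (sq x)) ∪ {ty2 (sq x) 0}) ∧
    GoodLine (aOf (parX (sq x))) ∧ SolL (parX (sq x)) (solX (sq x)) ∧
    nuA (lin (aOf (parX (sq x))) (af (tu (sq x)))) ≠ 0 ∧
    Free (aOf (parX (sq x))) (ptOf (parX (sq x)))

/-- The relation between two generic points of one fibre of the generic member. -/
def GenRel : Prop := ∃ (a : πL → ℂ) (v : σL → ℂ) (y2 : V4 ℂ) (s : Fin 30 → ℂ),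
  AlgebraicIndependent ℚ s ∧ (∀ j, s j ∈ Set.range a ∪ Set.range v ∪ {y2 0}) ∧ GoodLine (aOf a) ∧
  yOf a 0 = 1 ∧ y2 1 = 1 ∧ SolL a v ∧ OntoL a ∧ nuA (lin (aOf a) (af (uOf a))) ≠ 0 ∧
  Free (aOf a) (ptOf a) ∧
  ∀ cl : MCl (memOf a v), cl.cls (af (uOf a)) (yOf a) + cl.cls (af (uOf a)) y2 = 0

/-! ## Specialisation -/

/-- Eight roots and four leading coefficients. -/
def parA (a : Fin 4 → Fin 4 → Fin 2 → ℂ) : Fin 12 → ℂ :=
  ![-a 0 1 0 / a 0 1 1, -a 0 2 0 / a 0 2 1, -a 0 3 0 / a 0 3 1, -a 1 0 0 / a 1 0 1,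
    -a 2 0 0 / a 2 0 1, -a 2 1 0 / a 2 1 1, -a 3 0 0 / a 3 0 1, -a 3 1 0 / a 3 1 1,
    a 0 1 1, a 1 0 1, a 2 0 1, a 3 1 1]

def S_A1 : Prop := ∀ (a a' : Fin 4 → Fin 4 → Fin 2 → ℂ), GoodLine a → GoodLine a' →
  ∀ (n : ℕ) (x x' : Fin n → ℂ), AlgebraicIndependent ℚ (Sum.elim (parA a) x) →
  ∃ ρ : Plc ℂ ℂ, MV ρ.G (parA a) (parA a') ∧ MV ρ.G x x' ∧
    (-a 2 3 0 / a 2 3 1, -a' 2 3 0 / a' 2 3 1) ∈ ρ.G

def S_A2 : Prop := ∀ (a a' : Fin 4 → Fin 4 → Fin 2 → ℂ), GoodLine a → GoodLine a' →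
  ∀ ρ : Plc ℂ ℂ, MV ρ.G (parA a) (parA a') → (-a 2 3 0 / a 2 3 1, -a' 2 3 0 / a' 2 3 1) ∈ ρ.G →
  ∀ i j, MV ρ.G (a i j) (a' i j)

def S_A3 : Prop := ∀ (a : Fin 4 → Fin 4 → Fin 2 → ℂ), GoodLine a →
  ∀ i j c, IsAlgebraic (Algebra.adjoin ℚ (Set.range (parA a))) (a i j c)

def S_B : Prop := ∀ (a a' : πL → ℂ) (v v' : σL → ℂ) (t : ℂ) (s : Fin 30 → ℂ),
  AlgebraicIndependent ℚ s → (∀ j, s j ∈ Set.range a ∪ Set.range v ∪ {t}) → GoodLine (aOf a) →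
  GoodLine (aOf a') → yOf a 0 = 1 → yOf a' 0 = 1 → SolL a v → SolL a' v' → OntoL a → OntoL a' →
  ∃ ρ : Plc ℂ ℂ, MV ρ.G a a' ∧ MV ρ.G v v' ∧ (t, 0) ∈ ρ.G

def S_CLO : Prop := ∀ (K L : Type) [Field K] [Field L] (pl : Plc K L) (D : Member K)
  (D' : Member L) (U : V2 K) (Y : V4 K) (U' : V2 L) (Y' : V4 L), MM pl.G D D' → pl.Red U U' →
  pl.Red Y Y' → (D.On U Y → D'.On U' Y') ∧ (D.Bad U Y → D'.Bad U' Y')

def S_SCL : Prop := ∀ (D : Member ℂ) (t : ℂ), t ≠ 0 → ∀ cl : MCl D,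
  ∃ cl' : MCl (D.scale t), cl'.cls = cl.cls

/-- A class function on the special member induces one on the general member. -/
def S_M : Prop := ∀ (D D' : Member ℂ) (ρ : Plc ℂ ℂ), MM ρ.G D D' → ∀ cl' : MCl D', ∃ cl : MCl D,
  ∀ U Y U' Y', ρ.Red U U' → ρ.Red Y Y' → cl.cls U Y = cl'.cls U' Y'

def S_CV : Prop :=
  (∀ a : πL → ℂ, OntoL a ↔ Onto (aOf a) (ptOf a)) ∧
  (∀ (a : πL → ℂ) (v : σL → ℂ), SolL a v → (memOf a v).Compat ∧
    (nuA (lin (aOf a) (af (uOf a))) ≠ 0 → ptOf a ∈ (memOf a v).surface)) ∧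
  ∀ (D : Member ℂ) (p : Pt), D.Compat → p.U 0 = 1 → p.Y 0 = 1 → p ∈ D.surface →
    ¬ D.Bad p.U p.Y → ∃ t v, t ≠ 0 ∧ SolL (parOf D.a p) v ∧ memOf (parOf D.a p) v = D.scale t

/-- Every good point of the member has class zero. -/
def AllZero (D : Member ℂ) : Prop := ∀ (cl : MCl D) (p : Pt), p.U 0 = 1 → p.Y 0 = 1 →
  p ∈ D.surface → ¬ D.Bad p.U p.Y → Onto D.a p → cl.cls p.U p.Y = 0

def S_ZERO : Prop := GenRel → ∀ D : Member ℂ, GoodLine D.a → D.Compat → AllZero D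

/-! ## The projective model -/

/-- The hypotheses on the forms `N` and `R`. -/
structure Model (D : Member ℂ) {n : ℕ} (N : Fin (n + 1) → MvPolynomial (Fin 2 ⊕ Fin 4) ℂ)
    (R : Fin 2 × Fin 4 → MvPolynomial (Fin (n + 1)) ℂ) (d : ℕ × ℕ) (e : ℕ) : Prop where
  hN : ∀ i, IsWeightedHomogeneous bideg (N i) d
  hR : ∀ j, (R j).IsHomogeneous e
  inv : ∀ p ∈ D.surface, ∃ c, ∀ j, eval (fun i => eval p (N i)) (R j) = c * segre p j

/-- The point is not the image of a good point. -/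
def Exc (D : Member ℂ) {n : ℕ} (N : Fin (n + 1) → MvPolynomial (Fin 2 ⊕ Fin 4) ℂ)
    (R : Fin 2 × Fin 4 → MvPolynomial (Fin (n + 1)) ℂ) (x : ℙ ℂ (Fin (n + 1) → ℂ)) : Prop :=
  ∀ (p : Pt) (c : ℂ), p.U 0 = 1 → p.Y 0 = 1 → c ≠ 0 → (∀ j, eval x.rep (R j) = c * segre p j) →
    ¬ (p ∈ D.surface ∧ ¬ D.Bad p.U p.Y ∧ Onto D.a p ∧ (fun i => eval p (N i)) ≠ 0)

def S_T : Prop := ∀ (D : Member ℂ) (n : ℕ) N R d e, Model D (n := n) N R d e → AllZero D →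
  ∀ Z : image D.surface N →₀ ℤ, ∃ (k : ℕ) (Z' : image D.surface N →₀ ℤ), 0 < k ∧
    (∀ x ∈ Z'.support, Exc D N R x.1) ∧ k • Z - Z' ∈ ratTrivial (image D.surface N)

/-- A polynomial in the affine coordinates that detects good points. -/
def S_F1 : Prop := ∀ (D : Member ℂ) (p₀ : Pt), p₀.U 0 = 1 → p₀.Y 0 = 1 → p₀ ∈ D.surface →
  Free D.a p₀ → Onto D.a p₀ → ∃ Δ : MvPolynomial (Fin 2 ⊕ Fin 4) ℂ, eval p₀ Δ ≠ 0 ∧
    ∀ p : Pt, p.U 0 = 1 → p.Y 0 = 1 → eval p Δ ≠ 0 → ¬ D.Bad p.U p.Y ∧ Onto D.a p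

/-- The closed condition is given by polynomials. -/
def S_F2 : Prop := ∀ D : Member ℂ, ∃ T : Set (MvPolynomial (Fin 2 ⊕ Fin 4) ℂ),
  ∀ p : Pt, D.On p.U p.Y ↔ ∀ F ∈ T, eval p F = 0

def S_F : Prop := ∀ (D : Member ℂ) (n : ℕ) N R d e, Model D (n := n) N R d e → ∀ p₀ : Pt,
  p₀.U 0 = 1 → p₀.Y 0 = 1 → p₀ ∈ D.surface → Free D.a p₀ → Onto D.a p₀ →
  (∃ i, eval p₀ (N i) ≠ 0) → (∃ j, eval (fun i => eval p₀ (N i)) (R j) ≠ 0) →
  ∃ (F : MvPolynomial (Fin (n + 1)) ℂ) (r : ℕ), F.IsHomogeneous r ∧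
    eval (fun i => eval p₀ (N i)) F ≠ 0 ∧
    ∀ x : image D.surface N, Exc D N R x.1 → eval x.1.rep F = 0

end

end Pool.Agent.P.MP_7ebcb6_ag.SC
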