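import Pool.Agent.P.MP_7ebcb6_ag.SC.Av

/-! Polynomial systems written over bare ring operations. -/

namespace Pool.Agent.P.MP_7ebcb6_ag.SC

open G8

/-- A family, indexed by `τ`, of polynomials with integer coefficients in parameters `π` and
unknowns `σ`. -/
structure Sys (π σ τ : Type) : Type 1 where
  ev : {R : Type} → [Add R] → [Sub R] → [Mul R] → [NatCast R] → (π → R) → (σ → R) → τ → R
  nat : ∀ {R S : Type} [Add R] [Sub R] [Mul R] [NatCast R] [Add S] [Sub S] [Mul S] [NatCast S]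
    {f : R → S}, Hom f → ∀ (a : π → R) (x : σ → R) (t : τ),
      f (ev a x t) = ev (fun i => f (a i)) (fun i => f (x i)) t

/-- The empty family. -/
def nox {R : Type} : Empty → R := fun e => e.elim

lemma map_nox {R S : Type} (f : R → S) : (fun i => f (nox i)) = nox := funext fun e => e.elim

lemma map_elim {R S α β : Type} (f : R → S) (a : α → R) (b : β → R) :
    (fun i => f (Sum.elim a b i)) = Sum.elim (fun i => f (a i)) fun i => f (b i) :=
  funext fun i => by cases i <;> rfl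

/-- A matrix with trivial kernel. -/
def MI {K τ σ : Type} [CommRing K] [Fintype σ] (J : τ → σ → K) : Prop :=
  ∀ e : σ → K, (∀ t, ∑ s, J t s * e s = 0) → e = 0

namespace Sys

variable {π σ τ ο : Type}

/-- The derivative at `(a, x)` in the direction `(a', x')`. -/
def d (S : Sys π σ τ) {R : Type} [Add R] [Sub R] [Mul R] [NatCast R] (a : π → R) (x : σ → R)
    (a' : π → R) (x' : σ → R) (t : τ) : R :=
  (S.ev (fun i => (⟨a i, a' i⟩ : Du R)) (fun s => ⟨x s, x' s⟩) t).b

lemma d_nat (S : Sys π σ τ) {R T : Type} [Add R] [Sub R] [Mul R] [NatCast R] [Add T] [Sub T]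
    [Mul T] [NatCast T] {f : R → T} (h : Hom f) (a : π → R) (x : σ → R) (a' : π → R)
    (x' : σ → R) (t : τ) : f (S.d a x a' x' t)
      = S.d (fun i => f (a i)) (fun i => f (x i)) (fun i => f (a' i)) (fun i => f (x' i)) t :=
  congrArg Du.b (S.nat h.du _ _ t)

/-- The Jacobian in the unknowns has trivial kernel. -/
def Inj (S : Sys π σ τ) {K : Type} [CommRing K] (a : π → K) (x : σ → K) : Prop :=
  ∀ e : σ → K, (∀ t, S.d a x (fun _ => 0) e t = 0) → e = 0

/-- The first `n` columns of a matrix of polynomials are independent. -/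
def MInj (E : Sys π Empty (τ × ℕ)) (n : ℕ) {K : Type} [CommRing K] (a : π → K) : Prop :=
  MI fun (t : τ) (s : Fin n) => E.ev a nox (t, s)

lemma map (S : Sys π σ τ) {R T : Type} [CommRing R] [CommRing T] (f : R →+* T) (a : π → R)
    (x : σ → R) (t : τ) : f (S.ev a x t) = S.ev (fun i => f (a i)) (fun i => f (x i)) t :=
  S.nat (hom_ringHom f) a x t

lemma mem (S : Sys π σ τ) {K L : Type} [Field K] [Field L] {pl : Plc K L} {a : π → K}
    {a' : π → L} {x : σ → K} {x' : σ → L} (ha : ∀ i, (a i, a' i) ∈ pl.G)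
    (hx : ∀ i, (x i, x' i) ∈ pl.G) (t : τ) : (S.ev a x t, S.ev a' x' t) ∈ pl.G := by
  have h := (S.ev (fun i => (⟨_, ha i⟩ : pl.G)) (fun i => ⟨_, hx i⟩) t).2
  have h1 := S.map (gfst pl.G) (fun i => (⟨_, ha i⟩ : pl.G)) (fun i => ⟨_, hx i⟩) t
  have h2 := S.map (gsnd pl.G) (fun i => (⟨_, ha i⟩ : pl.G)) (fun i => ⟨_, hx i⟩) t
  exact (Prod.ext h1 h2 : (_ : K × L) = (_, _)) ▸ h

lemma tends (S : Sys π σ τ) {sp : Sp} {a : π → Om} {a' : π → ℂ} {x : σ → Om} {x' : σ → ℂ}
    (ha : TV sp a a') (hx : TV sp x x') (t : τ) : Tends sp.v (S.ev a x t) (S.ev a' x' t) :=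
  S.mem (pl := spPl sp) ha hx t

end Sys

/-- A nondegenerate solution of `E` at which the polynomials `O` do not vanish. -/
structure Good {π σ τ ο K : Type} [CommRing K] (E : Sys π σ τ) (O : Sys π σ ο) (a : π → K)
    (x : σ → K) : Prop where
  eq : ∀ t, E.ev a x t = 0
  op : ∀ o, O.ev a x o ≠ 0
  inj : E.Inj a x

/-- The integral elements with their limits, as a ring with two maps. -/
abbrev IR (sp : Sp) : Type := (spPl sp).G

lemma hom_fst (sp : Sp) : Hom (gfst (spPl sp).G) := hom_ringHom _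

lemma hom_snd (sp : Sp) : Hom (gsnd (spPl sp).G) := hom_ringHom _

lemma tends_IR {sp : Sp} (r : IR sp) : Tends sp.v (gfst _ r) (gsnd _ r) := r.2

end Pool.Agent.P.MP_7ebcb6_ag.SC
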